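import Pool.Agent.Helper60.E8Z.Sj

/-!
# Project E8Z, (E2): bridge, `k = 3`
-/

set_option autoImplicit false

open scoped TensorProduct Matrix

namespace Pool.Agent.Helper60.E8Z

open Pool.Agent.Helper73.E8 Pool.Agent.Helper64.E8C Pool.Agent.Helper73.E8.Ez Pool.Agent.Helper73.E8.Xc
open Pool.Agent.Helper2.E8A (K ζ σ)

variable {L : Type} [LieRing L] [Module.Free ℤ L] [Module.Finite ℤ L] {B : LinearMap.BilinForm ℤ L} (C : Core L B)

/-- The frame of `L ^ (t ^ 3)`. -/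
def fr3 (i j c : ℕ) : ℤ := lf (fw3.getD i []) j c

theorem frm3 : Frm 3 24 fr3 124 where
  hk := by norm_num
  hN := rfl
  hD := by norm_num
  gram i hi j hj := gram3 i hi j hj

/-- The vectors of the frame. -/
abbrev v3 {t : AutL L} (F : LF B t 3) : Fin 24 → L := fun i => vec F.E 3 (fr3 i)

theorem onf3 (hL : IsLat L B) (F : LF B C.t 3) : Onf B (Ufix (C.t ^ 3)) 24 (v3 F) ((30 / 3 : ℕ) : ℤ) 124 :=
  onf hL (Or.inl rfl) F frm3

/-- The lattice in frame coordinates. -/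
noncomputable abbrev M3 {t : AutL L} (F : LF B t 3) : AddSubgroup (Fin 24 → ℚ) :=
  (Ufix (t ^ 3)).map (phi B (v3 F) ((30 / 3 : ℕ) : ℤ) 124)

theorem fw3_len : fw3.length = 24 := by decide +kernel

theorem chkW3_iff {m : ℤ} {v : List ℤ} {l : List (List ℤ)} (h : chkW3 m v l = true) :
    ∀ j < 8, ∀ c < 3, m * lf l j c = ∑ i ∈ Finset.range 24, v.getD i 0 * fr3 i j c := by
  intro j hj c hc
  have h1 := allN_iff.1 (allN_iff.1 h j hj) c hc
  rw [beq_iff_eq, dotL_eq_sum (N := 24) (Or.inr (by rw [List.length_map, fw3_len]))] at h1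
  rw [h1]
  refine Finset.sum_congr rfl fun i hi => ?_
  congr 1
  rw [Finset.mem_range] at hi
  have hi' : i < fw3.length := by rw [fw3_len]; exact hi
  rw [List.getD_eq_getElem _ _ (by rw [List.length_map]; exact hi'), List.getElem_map]
  unfold fr3
  rw [List.getD_eq_getElem _ _ hi']

theorem vq_apply' {N : ℕ} (v : List ℤ) (i : Fin N) : vq N v i = ((v.getD i 0 : ℤ) : ℚ) := rfl

theorem mem3 (hL : IsLat L B) (F : LF B C.t 3) {m : ℤ} {q : ℚ} (hm : q * m = 4) {v : List ℤ} {l : List (List ℤ)}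
    (hl : chkMem (ex30 3 l) = true) (hc : chkW3 m v l = true) : q • vq 24 v ∈ M3 F := by
  have hm0 : m ≠ 0 := by
    rintro rfl
    norm_num at hm
  refine mem_M hL (Or.inl rfl) F frm3 hl fun i => ?_
  have h1 : m • vec F.E 3 (lf l) = ∑ i' ∈ Finset.range 24, v.getD i' 0 • vec F.E 3 (fr3 i') := by
    rw [← vec_smul, ← vec_sum]
    exact vec_congr _ fun j hj c hc' => chkW3_iff hc j hj c hc'
  have h2 := congrArg (fun z => B z (vec F.E 3 (fr3 i))) h1
  simp only [map_smul, LinearMap.smul_apply, F.form, map_sum, LinearMap.sum_apply, smul_eq_mul] at h2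
  rw [Finset.sum_eq_single (i : ℕ)] at h2
  · rw [frm3.gram i i.2 i i.2, if_pos rfl] at h2
    have h3 : m * fF 3 (lf l) (fr3 i) = v.getD i 0 * 124 ^ 2 := by
      have h4 : (((30 / 3 : ℕ) : ℤ)) ≠ 0 := by norm_num
      apply mul_left_cancel₀ h4
      linarith
    have h5 : (m : ℚ) * (fF 3 (lf l) (fr3 i) : ℤ) = v.getD i 0 * 124 ^ 2 := by exact_mod_cast h3
    have hmQ : (m : ℚ) ≠ 0 := Int.cast_ne_zero.2 hm0
    apply mul_left_cancel₀ hmQ
    rw [h5, Pi.smul_apply, vq_apply', smul_eq_mul]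
    push_cast
    linear_combination (-(31 * 124 * ((v.getD (i : ℕ) 0 : ℤ) : ℚ))) * hm
  · intro j hj hji
    rw [frm3.gram j (Finset.mem_range.1 hj) i i.2, if_neg hji, mul_zero, mul_zero]
  · intro h
    exact absurd (Finset.mem_range.2 i.2) h

/-- The additive map of an automorphism. -/
def tA (y : AutL L) : L →+ L := (y.1 : L →ₗ[ℤ] L).toAddMonoidHom

theorem tA_apply (y : AutL L) (u : L) : tA y u = y.1 u := rfl

theorem hper3 (c : ℕ) : per 3 (c % 3) = per 3 c := per_mod (Or.inl rfl) c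

theorem kap3_v (hη : C.η = et) (F : LF B C.t 3) (hco : HasCo C F) (i j : Fin 24) :
    kap3 C (v3 F i) (v3 F j) = ((((-2 : ℚ) * ((124 : ℤ) : ℚ) ^ 2 * mq 24 s3T i j : ℚ)) : K) := by
  rw [kap3_apply, kf3_vec C hη hper3 F hco, fF_kp]
  have h1 := kil3b i i.2 j j.2
  have h2 : ∑ j' ∈ Finset.range 8, ∑ c ∈ Finset.range 3, fr3 i j' c * ∑ j_1 ∈ Finset.range 8, ∑ d ∈ Finset.range 3,
      ∑ c' ∈ Finset.range 3, q3 j' j_1 d * (if c % 3 = (c' + d) % 3 then 31 - ((30 / 3 : ℕ) : ℤ) else -((30 / 3 : ℕ) : ℤ)) * fr3 j j_1 c' =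
      ∑ j' ∈ Finset.range 8, ∑ c ∈ Finset.range 3, lf (fw3.getD i []) j' c * lf (ku3.getD j []) j' c := by
    refine Finset.sum_congr rfl fun j' hj' => Finset.sum_congr rfl fun c hc => ?_
    rw [← kil3a j j.2 j' (Finset.mem_range.1 hj') c (Finset.mem_range.1 hc)]
    rfl
  have h3 : (((mq 24 s3T i j : ℚ)) : K) = ((en2 s3T i j : ℤ) : K) := Rat.cast_intCast _
  rw [h2, h1, Rat.cast_mul, h3]
  push_cast
  norm_num

/-- The map `T` given by `t`. -/
noncomputable abbrev T3l (F : LF B C.t 3) : (Fin 24 → ℚ) →ₗ[ℚ] (Fin 24 → ℚ) := Yl B (v3 F) ((30 / 3 : ℕ) : ℤ) 124 (tA C.t)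

theorem t_v3 (F : LF B C.t 3) (i : Fin 24) : C.t.1 (v3 F i) = v3 F (tau3F i) := by
  rw [F.t_vec]
  exact vec_congr _ fun j hj c hc => (shift3 i i.2 j hj c hc).symm

theorem T3l_single (hL : IsLat L B) (F : LF B C.t 3) (i : Fin 24) : T3l C F (Pi.single i 1) = Pi.single (tau3F i) 1 := by
  have h := onf3 C hL F
  rw [Yl_single]
  change (((124 : ℤ) : ℚ))⁻¹ • phi B (v3 F) ((30 / 3 : ℕ) : ℤ) 124 (C.t.1 (v3 F i)) = _
  rw [t_v3, h.phi_v, smul_smul, inv_mul_cancel₀ h.DQ, one_smul]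

/-- Powers of `t ^ 3` fix the fixed vectors of `t ^ 3`. -/
theorem zfix {g : AutL L} {m : ℤ} {x : L} (hx : g.1 x = x) : (g ^ m).1 x = x := by
  have h1 : g ∈ MulAction.stabilizer (AutL L) x := hx
  exact Subgroup.zpow_mem _ h1 m

end Pool.Agent.Helper60.E8Z
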