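import Pool.Agent.Helper60.E8Z.Spl

/-!
# Project E8Z, (E2): the component of dimension 24 of the fixed vectors of `t ^ 5`
-/

set_option autoImplicit false

namespace Pool.Agent.Helper60.E8Z

/-- Data. -/
def ca5P : List (List ℤ) := [[.ofNat 18, .negSucc 1, .negSucc 1, .negSucc 1, .ofNat 3, .ofNat 3, .ofNat 3, .negSucc 1,
  .negSucc 1, .negSucc 1, .ofNat 3, .negSucc 1, .negSucc 1, .ofNat 3, .negSucc 1, .negSucc 1, .ofNat 3, .negSucc 1,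
  .ofNat 3, .negSucc 1, .ofNat 3, .negSucc 1, .negSucc 1, .negSucc 1, .negSucc 1, .negSucc 1, .ofNat 3, .ofNat 3,
  .negSucc 1, .ofNat 3, .negSucc 1, .negSucc 1, .negSucc 1, .negSucc 1, .ofNat 3, .negSucc 1, .negSucc 1, .negSucc 1,
  .negSucc 1, .negSucc 1], [.negSucc 1, .ofNat 18, .negSucc 1, .negSucc 1, .negSucc 1, .ofNat 3, .ofNat 3, .ofNat 3,
  .negSucc 1, .negSucc 1, .negSucc 1, .ofNat 3, .negSucc 1, .negSucc 1, .ofNat 3, .negSucc 1, .negSucc 1, .ofNat 3,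
  .negSucc 1, .ofNat 3, .ofNat 3, .ofNat 3, .negSucc 1, .negSucc 1, .negSucc 1, .negSucc 1, .negSucc 1, .ofNat 3, .ofNat
  3, .negSucc 1, .negSucc 1, .negSucc 1, .negSucc 1, .negSucc 1, .negSucc 1, .ofNat 3, .negSucc 1, .negSucc 1, .negSucc
  1, .negSucc 1], [.negSucc 1, .negSucc 1, .ofNat 18, .negSucc 1, .negSucc 1, .negSucc 1, .ofNat 3, .ofNat 3, .ofNat 3,
  .negSucc 1, .ofNat 3, .negSucc 1, .ofNat 3, .negSucc 1, .negSucc 1, .ofNat 3, .negSucc 1, .negSucc 1, .ofNat 3,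
  .negSucc 1, .negSucc 1, .ofNat 3, .ofNat 3, .negSucc 1, .negSucc 1, .negSucc 1, .negSucc 1, .negSucc 1, .ofNat 3,
  .ofNat 3, .negSucc 1, .negSucc 1, .negSucc 1, .negSucc 1, .negSucc 1, .negSucc 1, .ofNat 3, .negSucc 1, .negSucc 1,
  .negSucc 1], [.negSucc 1, .negSucc 1, .negSucc 1, .ofNat 18, .negSucc 1, .negSucc 1, .negSucc 1, .ofNat 3, .ofNat 3,
  .ofNat 3, .negSucc 1, .ofNat 3, .negSucc 1, .ofNat 3, .negSucc 1, .negSucc 1, .ofNat 3, .negSucc 1, .negSucc 1, .ofNat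
  3, .ofNat 3, .negSucc 1, .ofNat 3, .ofNat 3, .negSucc 1, .negSucc 1, .negSucc 1, .negSucc 1, .negSucc 1, .ofNat 3,
  .negSucc 1, .negSucc 1, .negSucc 1, .negSucc 1, .negSucc 1, .negSucc 1, .negSucc 1, .ofNat 3, .negSucc 1, .negSucc 1],
  [.ofNat 3, .negSucc 1, .negSucc 1, .negSucc 1, .ofNat 18, .negSucc 1, .negSucc 1, .negSucc 1, .ofNat 3, .ofNat 3,
  .ofNat 3, .negSucc 1, .ofNat 3, .negSucc 1, .ofNat 3, .negSucc 1, .negSucc 1, .ofNat 3, .negSucc 1, .negSucc 1, .ofNat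
  3, .ofNat 3, .negSucc 1, .ofNat 3, .ofNat 3, .negSucc 1, .negSucc 1, .negSucc 1, .negSucc 1, .negSucc 1, .negSucc 1,
  .negSucc 1, .negSucc 1, .negSucc 1, .negSucc 1, .negSucc 1, .negSucc 1, .negSucc 1, .ofNat 3, .negSucc 1], [.ofNat 3,
  .ofNat 3, .negSucc 1, .negSucc 1, .negSucc 1, .ofNat 18, .negSucc 1, .negSucc 1, .negSucc 1, .ofNat 3, .negSucc 1,
  .ofNat 3, .negSucc 1, .ofNat 3, .negSucc 1, .ofNat 3, .negSucc 1, .negSucc 1, .ofNat 3, .negSucc 1, .negSucc 1, .ofNat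
  3, .ofNat 3, .negSucc 1, .ofNat 3, .ofNat 3, .negSucc 1, .negSucc 1, .negSucc 1, .negSucc 1, .negSucc 1, .negSucc 1,
  .negSucc 1, .negSucc 1, .negSucc 1, .negSucc 1, .negSucc 1, .negSucc 1, .negSucc 1, .ofNat 3], [.ofNat 3, .ofNat 3,
  .ofNat 3, .negSucc 1, .negSucc 1, .negSucc 1, .ofNat 18, .negSucc 1, .negSucc 1, .negSucc 1, .negSucc 1, .negSucc 1,
  .ofNat 3, .negSucc 1, .ofNat 3, .negSucc 1, .ofNat 3, .negSucc 1, .negSucc 1, .ofNat 3, .negSucc 1, .negSucc 1, .ofNat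
  3, .ofNat 3, .negSucc 1, .ofNat 3, .ofNat 3, .negSucc 1, .negSucc 1, .negSucc 1, .ofNat 3, .negSucc 1, .negSucc 1,
  .negSucc 1, .negSucc 1, .negSucc 1, .negSucc 1, .negSucc 1, .negSucc 1, .negSucc 1], [.negSucc 1, .ofNat 3, .ofNat 3,
  .ofNat 3, .negSucc 1, .negSucc 1, .negSucc 1, .ofNat 18, .negSucc 1, .negSucc 1, .ofNat 3, .negSucc 1, .negSucc 1,
  .ofNat 3, .negSucc 1, .ofNat 3, .negSucc 1, .ofNat 3, .negSucc 1, .negSucc 1, .negSucc 1, .negSucc 1, .negSucc 1,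
  .ofNat 3, .ofNat 3, .negSucc 1, .ofNat 3, .ofNat 3, .negSucc 1, .negSucc 1, .negSucc 1, .ofNat 3, .negSucc 1, .negSucc
  1, .negSucc 1, .negSucc 1, .negSucc 1, .negSucc 1, .negSucc 1, .negSucc 1], [.negSucc 1, .negSucc 1, .ofNat 3, .ofNat
  3, .ofNat 3, .negSucc 1, .negSucc 1, .negSucc 1, .ofNat 18, .negSucc 1, .negSucc 1, .ofNat 3, .negSucc 1, .negSucc 1,
  .ofNat 3, .negSucc 1, .ofNat 3, .negSucc 1, .ofNat 3, .negSucc 1, .negSucc 1, .negSucc 1, .negSucc 1, .negSucc 1,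
  .ofNat 3, .ofNat 3, .negSucc 1, .ofNat 3, .ofNat 3, .negSucc 1, .negSucc 1, .negSucc 1, .ofNat 3, .negSucc 1, .negSucc
  1, .negSucc 1, .negSucc 1, .negSucc 1, .negSucc 1, .negSucc 1], [.negSucc 1, .negSucc 1, .negSucc 1, .ofNat 3, .ofNat
  3, .ofNat 3, .negSucc 1, .negSucc 1, .negSucc 1, .ofNat 18, .negSucc 1, .negSucc 1, .ofNat 3, .negSucc 1, .negSucc 1,
  .ofNat 3, .negSucc 1, .ofNat 3, .negSucc 1, .ofNat 3, .negSucc 1, .negSucc 1, .negSucc 1, .negSucc 1, .negSucc 1,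
  .ofNat 3, .ofNat 3, .negSucc 1, .ofNat 3, .ofNat 3, .negSucc 1, .negSucc 1, .negSucc 1, .ofNat 3, .negSucc 1, .negSucc
  1, .negSucc 1, .negSucc 1, .negSucc 1, .negSucc 1], [.ofNat 3, .negSucc 1, .ofNat 3, .negSucc 1, .ofNat 3, .negSucc 1,
  .negSucc 1, .ofNat 3, .negSucc 1, .negSucc 1, .ofNat 18, .ofNat 3, .negSucc 1, .negSucc 1, .negSucc 1, .ofNat 3,
  .negSucc 1, .negSucc 1, .negSucc 1, .ofNat 3, .ofNat 3, .negSucc 1, .negSucc 1, .negSucc 1, .negSucc 1, .negSucc 1,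
  .negSucc 1, .negSucc 1, .negSucc 1, .negSucc 1, .ofNat 3, .negSucc 1, .ofNat 3, .ofNat 3, .negSucc 1, .negSucc 1,
  .negSucc 1, .negSucc 1, .negSucc 1, .ofNat 3], [.negSucc 1, .ofNat 3, .negSucc 1, .ofNat 3, .negSucc 1, .ofNat 3,
  .negSucc 1, .negSucc 1, .ofNat 3, .negSucc 1, .ofNat 3, .ofNat 18, .ofNat 3, .negSucc 1, .negSucc 1, .negSucc 1,
  .ofNat 3, .negSucc 1, .negSucc 1, .negSucc 1, .negSucc 1, .ofNat 3, .negSucc 1, .negSucc 1, .negSucc 1, .negSucc 1,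
  .negSucc 1, .negSucc 1, .negSucc 1, .negSucc 1, .ofNat 3, .ofNat 3, .negSucc 1, .ofNat 3, .ofNat 3, .negSucc 1,
  .negSucc 1, .negSucc 1, .negSucc 1, .negSucc 1], [.negSucc 1, .negSucc 1, .ofNat 3, .negSucc 1, .ofNat 3, .negSucc 1,
  .ofNat 3, .negSucc 1, .negSucc 1, .ofNat 3, .negSucc 1, .ofNat 3, .ofNat 18, .ofNat 3, .negSucc 1, .negSucc 1,
  .negSucc 1, .ofNat 3, .negSucc 1, .negSucc 1, .negSucc 1, .negSucc 1, .ofNat 3, .negSucc 1, .negSucc 1, .negSucc 1,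
  .negSucc 1, .negSucc 1, .negSucc 1, .negSucc 1, .negSucc 1, .ofNat 3, .ofNat 3, .negSucc 1, .ofNat 3, .ofNat 3,
  .negSucc 1, .negSucc 1, .negSucc 1, .negSucc 1], [.ofNat 3, .negSucc 1, .negSucc 1, .ofNat 3, .negSucc 1, .ofNat 3,
  .negSucc 1, .ofNat 3, .negSucc 1, .negSucc 1, .negSucc 1, .negSucc 1, .ofNat 3, .ofNat 18, .ofNat 3, .negSucc 1,
  .negSucc 1, .negSucc 1, .ofNat 3, .negSucc 1, .negSucc 1, .negSucc 1, .negSucc 1, .ofNat 3, .negSucc 1, .negSucc 1,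
  .negSucc 1, .negSucc 1, .negSucc 1, .negSucc 1, .negSucc 1, .negSucc 1, .ofNat 3, .ofNat 3, .negSucc 1, .ofNat 3,
  .ofNat 3, .negSucc 1, .negSucc 1, .negSucc 1], [.negSucc 1, .ofNat 3, .negSucc 1, .negSucc 1, .ofNat 3, .negSucc 1,
  .ofNat 3, .negSucc 1, .ofNat 3, .negSucc 1, .negSucc 1, .negSucc 1, .negSucc 1, .ofNat 3, .ofNat 18, .ofNat 3,
  .negSucc 1, .negSucc 1, .negSucc 1, .ofNat 3, .negSucc 1, .negSucc 1, .negSucc 1, .negSucc 1, .ofNat 3, .negSucc 1,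
  .negSucc 1, .negSucc 1, .negSucc 1, .negSucc 1, .negSucc 1, .negSucc 1, .negSucc 1, .ofNat 3, .ofNat 3, .negSucc 1,
  .ofNat 3, .ofNat 3, .negSucc 1, .negSucc 1], [.negSucc 1, .negSucc 1, .ofNat 3, .negSucc 1, .negSucc 1, .ofNat 3,
  .negSucc 1, .ofNat 3, .negSucc 1, .ofNat 3, .ofNat 3, .negSucc 1, .negSucc 1, .negSucc 1, .ofNat 3, .ofNat 18, .ofNat
  3, .negSucc 1, .negSucc 1, .negSucc 1, .negSucc 1, .negSucc 1, .negSucc 1, .negSucc 1, .negSucc 1, .ofNat 3, .negSucc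
  1, .negSucc 1, .negSucc 1, .negSucc 1, .negSucc 1, .negSucc 1, .negSucc 1, .negSucc 1, .ofNat 3, .ofNat 3, .negSucc 1,
  .ofNat 3, .ofNat 3, .negSucc 1], [.ofNat 3, .negSucc 1, .negSucc 1, .ofNat 3, .negSucc 1, .negSucc 1, .ofNat 3,
  .negSucc 1, .ofNat 3, .negSucc 1, .negSucc 1, .ofNat 3, .negSucc 1, .negSucc 1, .negSucc 1, .ofNat 3, .ofNat 18,
  .ofNat 3, .negSucc 1, .negSucc 1, .negSucc 1, .negSucc 1, .negSucc 1, .negSucc 1, .negSucc 1, .negSucc 1, .ofNat 3,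
  .negSucc 1, .negSucc 1, .negSucc 1, .negSucc 1, .negSucc 1, .negSucc 1, .negSucc 1, .negSucc 1, .ofNat 3, .ofNat 3,
  .negSucc 1, .ofNat 3, .ofNat 3], [.negSucc 1, .ofNat 3, .negSucc 1, .negSucc 1, .ofNat 3, .negSucc 1, .negSucc 1,
  .ofNat 3, .negSucc 1, .ofNat 3, .negSucc 1, .negSucc 1, .ofNat 3, .negSucc 1, .negSucc 1, .negSucc 1, .ofNat 3, .ofNat
  18, .ofNat 3, .negSucc 1, .negSucc 1, .negSucc 1, .negSucc 1, .negSucc 1, .negSucc 1, .negSucc 1, .negSucc 1, .ofNat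
  3, .negSucc 1, .negSucc 1, .ofNat 3, .negSucc 1, .negSucc 1, .negSucc 1, .negSucc 1, .negSucc 1, .ofNat 3, .ofNat 3,
  .negSucc 1, .ofNat 3], [.ofNat 3, .negSucc 1, .ofNat 3, .negSucc 1, .negSucc 1, .ofNat 3, .negSucc 1, .negSucc 1,
  .ofNat 3, .negSucc 1, .negSucc 1, .negSucc 1, .negSucc 1, .ofNat 3, .negSucc 1, .negSucc 1, .negSucc 1, .ofNat 3,
  .ofNat 18, .ofNat 3, .negSucc 1, .negSucc 1, .negSucc 1, .negSucc 1, .negSucc 1, .negSucc 1, .negSucc 1, .negSucc 1,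
  .ofNat 3, .negSucc 1, .ofNat 3, .ofNat 3, .negSucc 1, .negSucc 1, .negSucc 1, .negSucc 1, .negSucc 1, .ofNat 3, .ofNat
  3, .negSucc 1], [.negSucc 1, .ofNat 3, .negSucc 1, .ofNat 3, .negSucc 1, .negSucc 1, .ofNat 3, .negSucc 1, .negSucc 1,
  .ofNat 3, .ofNat 3, .negSucc 1, .negSucc 1, .negSucc 1, .ofNat 3, .negSucc 1, .negSucc 1, .negSucc 1, .ofNat 3, .ofNat
  18, .negSucc 1, .negSucc 1, .negSucc 1, .negSucc 1, .negSucc 1, .negSucc 1, .negSucc 1, .negSucc 1, .negSucc 1, .ofNat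
  3, .negSucc 1, .ofNat 3, .ofNat 3, .negSucc 1, .negSucc 1, .negSucc 1, .negSucc 1, .negSucc 1, .ofNat 3, .ofNat 3],
  [.ofNat 3, .ofNat 3, .negSucc 1, .ofNat 3, .ofNat 3, .negSucc 1, .negSucc 1, .negSucc 1, .negSucc 1, .negSucc 1,
  .ofNat 3, .negSucc 1, .negSucc 1, .negSucc 1, .negSucc 1, .negSucc 1, .negSucc 1, .negSucc 1, .negSucc 1, .negSucc 1,
  .ofNat 18, .negSucc 1, .ofNat 3, .negSucc 1, .negSucc 1, .ofNat 3, .negSucc 1, .negSucc 1, .ofNat 3, .negSucc 1,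
  .negSucc 1, .ofNat 3, .negSucc 1, .negSucc 1, .negSucc 1, .ofNat 3, .ofNat 3, .ofNat 3, .negSucc 1, .negSucc 1],
  [.negSucc 1, .ofNat 3, .ofNat 3, .negSucc 1, .ofNat 3, .ofNat 3, .negSucc 1, .negSucc 1, .negSucc 1, .negSucc 1,
  .negSucc 1, .ofNat 3, .negSucc 1, .negSucc 1, .negSucc 1, .negSucc 1, .negSucc 1, .negSucc 1, .negSucc 1, .negSucc 1,
  .negSucc 1, .ofNat 18, .negSucc 1, .ofNat 3, .negSucc 1, .negSucc 1, .ofNat 3, .negSucc 1, .negSucc 1, .ofNat 3,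
  .negSucc 1, .negSucc 1, .ofNat 3, .negSucc 1, .negSucc 1, .negSucc 1, .ofNat 3, .ofNat 3, .ofNat 3, .negSucc 1],
  [.negSucc 1, .negSucc 1, .ofNat 3, .ofNat 3, .negSucc 1, .ofNat 3, .ofNat 3, .negSucc 1, .negSucc 1, .negSucc 1,
  .negSucc 1, .negSucc 1, .ofNat 3, .negSucc 1, .negSucc 1, .negSucc 1, .negSucc 1, .negSucc 1, .negSucc 1, .negSucc 1,
  .ofNat 3, .negSucc 1, .ofNat 18, .negSucc 1, .ofNat 3, .negSucc 1, .negSucc 1, .ofNat 3, .negSucc 1, .negSucc 1,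
  .negSucc 1, .negSucc 1, .negSucc 1, .ofNat 3, .negSucc 1, .negSucc 1, .negSucc 1, .ofNat 3, .ofNat 3, .ofNat 3],
  [.negSucc 1, .negSucc 1, .negSucc 1, .ofNat 3, .ofNat 3, .negSucc 1, .ofNat 3, .ofNat 3, .negSucc 1, .negSucc 1,
  .negSucc 1, .negSucc 1, .negSucc 1, .ofNat 3, .negSucc 1, .negSucc 1, .negSucc 1, .negSucc 1, .negSucc 1, .negSucc 1,
  .negSucc 1, .ofNat 3, .negSucc 1, .ofNat 18, .negSucc 1, .ofNat 3, .negSucc 1, .negSucc 1, .ofNat 3, .negSucc 1,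
  .ofNat 3, .negSucc 1, .negSucc 1, .negSucc 1, .ofNat 3, .negSucc 1, .negSucc 1, .negSucc 1, .ofNat 3, .ofNat 3],
  [.negSucc 1, .negSucc 1, .negSucc 1, .negSucc 1, .ofNat 3, .ofNat 3, .negSucc 1, .ofNat 3, .ofNat 3, .negSucc 1,
  .negSucc 1, .negSucc 1, .negSucc 1, .negSucc 1, .ofNat 3, .negSucc 1, .negSucc 1, .negSucc 1, .negSucc 1, .negSucc 1,
  .negSucc 1, .negSucc 1, .ofNat 3, .negSucc 1, .ofNat 18, .negSucc 1, .ofNat 3, .negSucc 1, .negSucc 1, .ofNat 3,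
  .ofNat 3, .ofNat 3, .negSucc 1, .negSucc 1, .negSucc 1, .ofNat 3, .negSucc 1, .negSucc 1, .negSucc 1, .ofNat 3],
  [.negSucc 1, .negSucc 1, .negSucc 1, .negSucc 1, .negSucc 1, .ofNat 3, .ofNat 3, .negSucc 1, .ofNat 3, .ofNat 3,
  .negSucc 1, .negSucc 1, .negSucc 1, .negSucc 1, .negSucc 1, .ofNat 3, .negSucc 1, .negSucc 1, .negSucc 1, .negSucc 1,
  .ofNat 3, .negSucc 1, .negSucc 1, .ofNat 3, .negSucc 1, .ofNat 18, .negSucc 1, .ofNat 3, .negSucc 1, .negSucc 1,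
  .ofNat 3, .ofNat 3, .ofNat 3, .negSucc 1, .negSucc 1, .negSucc 1, .ofNat 3, .negSucc 1, .negSucc 1, .negSucc 1],
  [.ofNat 3, .negSucc 1, .negSucc 1, .negSucc 1, .negSucc 1, .negSucc 1, .ofNat 3, .ofNat 3, .negSucc 1, .ofNat 3,
  .negSucc 1, .negSucc 1, .negSucc 1, .negSucc 1, .negSucc 1, .negSucc 1, .ofNat 3, .negSucc 1, .negSucc 1, .negSucc 1,
  .negSucc 1, .ofNat 3, .negSucc 1, .negSucc 1, .ofNat 3, .negSucc 1, .ofNat 18, .negSucc 1, .ofNat 3, .negSucc 1,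
  .negSucc 1, .ofNat 3, .ofNat 3, .ofNat 3, .negSucc 1, .negSucc 1, .negSucc 1, .ofNat 3, .negSucc 1, .negSucc 1],
  [.ofNat 3, .ofNat 3, .negSucc 1, .negSucc 1, .negSucc 1, .negSucc 1, .negSucc 1, .ofNat 3, .ofNat 3, .negSucc 1,
  .negSucc 1, .negSucc 1, .negSucc 1, .negSucc 1, .negSucc 1, .negSucc 1, .negSucc 1, .ofNat 3, .negSucc 1, .negSucc 1,
  .negSucc 1, .negSucc 1, .ofNat 3, .negSucc 1, .negSucc 1, .ofNat 3, .negSucc 1, .ofNat 18, .negSucc 1, .ofNat 3,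
  .negSucc 1, .negSucc 1, .ofNat 3, .ofNat 3, .ofNat 3, .negSucc 1, .negSucc 1, .negSucc 1, .ofNat 3, .negSucc 1],
  [.negSucc 1, .ofNat 3, .ofNat 3, .negSucc 1, .negSucc 1, .negSucc 1, .negSucc 1, .negSucc 1, .ofNat 3, .ofNat 3,
  .negSucc 1, .negSucc 1, .negSucc 1, .negSucc 1, .negSucc 1, .negSucc 1, .negSucc 1, .negSucc 1, .ofNat 3, .negSucc 1,
  .ofNat 3, .negSucc 1, .negSucc 1, .ofNat 3, .negSucc 1, .negSucc 1, .ofNat 3, .negSucc 1, .ofNat 18, .negSucc 1,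
  .negSucc 1, .negSucc 1, .negSucc 1, .ofNat 3, .ofNat 3, .ofNat 3, .negSucc 1, .negSucc 1, .negSucc 1, .ofNat 3],
  [.ofNat 3, .negSucc 1, .ofNat 3, .ofNat 3, .negSucc 1, .negSucc 1, .negSucc 1, .negSucc 1, .negSucc 1, .ofNat 3,
  .negSucc 1, .negSucc 1, .negSucc 1, .negSucc 1, .negSucc 1, .negSucc 1, .negSucc 1, .negSucc 1, .negSucc 1, .ofNat 3,
  .negSucc 1, .ofNat 3, .negSucc 1, .negSucc 1, .ofNat 3, .negSucc 1, .negSucc 1, .ofNat 3, .negSucc 1, .ofNat 18,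
  .ofNat 3, .negSucc 1, .negSucc 1, .negSucc 1, .ofNat 3, .ofNat 3, .ofNat 3, .negSucc 1, .negSucc 1, .negSucc 1],
  [.negSucc 1, .negSucc 1, .negSucc 1, .negSucc 1, .negSucc 1, .negSucc 1, .ofNat 3, .negSucc 1, .negSucc 1, .negSucc 1,
  .ofNat 3, .ofNat 3, .negSucc 1, .negSucc 1, .negSucc 1, .negSucc 1, .negSucc 1, .ofNat 3, .ofNat 3, .negSucc 1,
  .negSucc 1, .negSucc 1, .negSucc 1, .ofNat 3, .ofNat 3, .ofNat 3, .negSucc 1, .negSucc 1, .negSucc 1, .ofNat 3, .ofNat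
  18, .negSucc 1, .negSucc 1, .ofNat 3, .negSucc 1, .ofNat 3, .negSucc 1, .ofNat 3, .negSucc 1, .negSucc 1], [.negSucc
  1, .negSucc 1, .negSucc 1, .negSucc 1, .negSucc 1, .negSucc 1, .negSucc 1, .ofNat 3, .negSucc 1, .negSucc 1, .negSucc
  1, .ofNat 3, .ofNat 3, .negSucc 1, .negSucc 1, .negSucc 1, .negSucc 1, .negSucc 1, .ofNat 3, .ofNat 3, .ofNat 3,
  .negSucc 1, .negSucc 1, .negSucc 1, .ofNat 3, .ofNat 3, .ofNat 3, .negSucc 1, .negSucc 1, .negSucc 1, .negSucc 1,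
  .ofNat 18, .negSucc 1, .negSucc 1, .ofNat 3, .negSucc 1, .ofNat 3, .negSucc 1, .ofNat 3, .negSucc 1], [.negSucc 1,
  .negSucc 1, .negSucc 1, .negSucc 1, .negSucc 1, .negSucc 1, .negSucc 1, .negSucc 1, .ofNat 3, .negSucc 1, .ofNat 3,
  .negSucc 1, .ofNat 3, .ofNat 3, .negSucc 1, .negSucc 1, .negSucc 1, .negSucc 1, .negSucc 1, .ofNat 3, .negSucc 1,
  .ofNat 3, .negSucc 1, .negSucc 1, .negSucc 1, .ofNat 3, .ofNat 3, .ofNat 3, .negSucc 1, .negSucc 1, .negSucc 1,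
  .negSucc 1, .ofNat 18, .negSucc 1, .negSucc 1, .ofNat 3, .negSucc 1, .ofNat 3, .negSucc 1, .ofNat 3], [.negSucc 1,
  .negSucc 1, .negSucc 1, .negSucc 1, .negSucc 1, .negSucc 1, .negSucc 1, .negSucc 1, .negSucc 1, .ofNat 3, .ofNat 3,
  .ofNat 3, .negSucc 1, .ofNat 3, .ofNat 3, .negSucc 1, .negSucc 1, .negSucc 1, .negSucc 1, .negSucc 1, .negSucc 1,
  .negSucc 1, .ofNat 3, .negSucc 1, .negSucc 1, .negSucc 1, .ofNat 3, .ofNat 3, .ofNat 3, .negSucc 1, .ofNat 3, .negSucc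
  1, .negSucc 1, .ofNat 18, .negSucc 1, .negSucc 1, .ofNat 3, .negSucc 1, .ofNat 3, .negSucc 1], [.ofNat 3, .negSucc 1,
  .negSucc 1, .negSucc 1, .negSucc 1, .negSucc 1, .negSucc 1, .negSucc 1, .negSucc 1, .negSucc 1, .negSucc 1, .ofNat 3,
  .ofNat 3, .negSucc 1, .ofNat 3, .ofNat 3, .negSucc 1, .negSucc 1, .negSucc 1, .negSucc 1, .negSucc 1, .negSucc 1,
  .negSucc 1, .ofNat 3, .negSucc 1, .negSucc 1, .negSucc 1, .ofNat 3, .ofNat 3, .ofNat 3, .negSucc 1, .ofNat 3, .negSucc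
  1, .negSucc 1, .ofNat 18, .negSucc 1, .negSucc 1, .ofNat 3, .negSucc 1, .ofNat 3], [.negSucc 1, .ofNat 3, .negSucc 1,
  .negSucc 1, .negSucc 1, .negSucc 1, .negSucc 1, .negSucc 1, .negSucc 1, .negSucc 1, .negSucc 1, .negSucc 1, .ofNat 3,
  .ofNat 3, .negSucc 1, .ofNat 3, .ofNat 3, .negSucc 1, .negSucc 1, .negSucc 1, .ofNat 3, .negSucc 1, .negSucc 1,
  .negSucc 1, .ofNat 3, .negSucc 1, .negSucc 1, .negSucc 1, .ofNat 3, .ofNat 3, .ofNat 3, .negSucc 1, .ofNat 3, .negSucc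
  1, .negSucc 1, .ofNat 18, .negSucc 1, .negSucc 1, .ofNat 3, .negSucc 1], [.negSucc 1, .negSucc 1, .ofNat 3, .negSucc
  1, .negSucc 1, .negSucc 1, .negSucc 1, .negSucc 1, .negSucc 1, .negSucc 1, .negSucc 1, .negSucc 1, .negSucc 1, .ofNat
  3, .ofNat 3, .negSucc 1, .ofNat 3, .ofNat 3, .negSucc 1, .negSucc 1, .ofNat 3, .ofNat 3, .negSucc 1, .negSucc 1,
  .negSucc 1, .ofNat 3, .negSucc 1, .negSucc 1, .negSucc 1, .ofNat 3, .negSucc 1, .ofNat 3, .negSucc 1, .ofNat 3,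
  .negSucc 1, .negSucc 1, .ofNat 18, .negSucc 1, .negSucc 1, .ofNat 3], [.negSucc 1, .negSucc 1, .negSucc 1, .ofNat 3,
  .negSucc 1, .negSucc 1, .negSucc 1, .negSucc 1, .negSucc 1, .negSucc 1, .negSucc 1, .negSucc 1, .negSucc 1, .negSucc
  1, .ofNat 3, .ofNat 3, .negSucc 1, .ofNat 3, .ofNat 3, .negSucc 1, .ofNat 3, .ofNat 3, .ofNat 3, .negSucc 1, .negSucc
  1, .negSucc 1, .ofNat 3, .negSucc 1, .negSucc 1, .negSucc 1, .ofNat 3, .negSucc 1, .ofNat 3, .negSucc 1, .ofNat 3,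
  .negSucc 1, .negSucc 1, .ofNat 18, .negSucc 1, .negSucc 1], [.negSucc 1, .negSucc 1, .negSucc 1, .negSucc 1, .ofNat 3,
  .negSucc 1, .negSucc 1, .negSucc 1, .negSucc 1, .negSucc 1, .negSucc 1, .negSucc 1, .negSucc 1, .negSucc 1, .negSucc
  1, .ofNat 3, .ofNat 3, .negSucc 1, .ofNat 3, .ofNat 3, .negSucc 1, .ofNat 3, .ofNat 3, .ofNat 3, .negSucc 1, .negSucc
  1, .negSucc 1, .ofNat 3, .negSucc 1, .negSucc 1, .negSucc 1, .ofNat 3, .negSucc 1, .ofNat 3, .negSucc 1, .ofNat 3,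
  .negSucc 1, .negSucc 1, .ofNat 18, .negSucc 1], [.negSucc 1, .negSucc 1, .negSucc 1, .negSucc 1, .negSucc 1, .ofNat 3,
  .negSucc 1, .negSucc 1, .negSucc 1, .negSucc 1, .ofNat 3, .negSucc 1, .negSucc 1, .negSucc 1, .negSucc 1, .negSucc 1,
  .ofNat 3, .ofNat 3, .negSucc 1, .ofNat 3, .negSucc 1, .negSucc 1, .ofNat 3, .ofNat 3, .ofNat 3, .negSucc 1, .negSucc
  1, .negSucc 1, .ofNat 3, .negSucc 1, .negSucc 1, .negSucc 1, .ofNat 3, .negSucc 1, .ofNat 3, .negSucc 1, .ofNat 3,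
  .negSucc 1, .negSucc 1, .ofNat 18]]

/-- Data. -/
def ca5b : List (List ℤ) := [[.ofNat 2, .ofNat 2, .negSucc 2, .ofNat 2, .ofNat 2, .ofNat 2, .ofNat 2, .ofNat 2, .ofNat
  2, .ofNat 2, .ofNat 2, .ofNat 2, .ofNat 2, .negSucc 2, .negSucc 2, .ofNat 2, .negSucc 2, .negSucc 2, .ofNat 2, .ofNat
  2, .negSucc 2, .negSucc 2, .ofNat 2, .ofNat 2, .ofNat 2, .negSucc 2, .ofNat 2, .ofNat 2, .ofNat 2, .negSucc 2, .ofNat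
  2, .negSucc 2, .ofNat 2, .negSucc 2, .ofNat 2, .ofNat 2, .negSucc 17, .ofNat 2, .ofNat 2, .negSucc 2], [.negSucc 1,
  .ofNat 3, .ofNat 3, .ofNat 3, .negSucc 1, .negSucc 1, .negSucc 1, .ofNat 18, .negSucc 1, .negSucc 1, .ofNat 3,
  .negSucc 1, .negSucc 1, .ofNat 3, .negSucc 1, .ofNat 3, .negSucc 1, .ofNat 3, .negSucc 1, .negSucc 1, .negSucc 1,
  .negSucc 1, .negSucc 1, .ofNat 3, .ofNat 3, .negSucc 1, .ofNat 3, .ofNat 3, .negSucc 1, .negSucc 1, .negSucc 1, .ofNat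
  3, .negSucc 1, .negSucc 1, .negSucc 1, .negSucc 1, .negSucc 1, .negSucc 1, .negSucc 1, .negSucc 1], [.ofNat 2, .ofNat
  2, .negSucc 17, .ofNat 2, .ofNat 2, .ofNat 2, .negSucc 2, .negSucc 2, .negSucc 2, .ofNat 2, .negSucc 2, .ofNat 2,
  .negSucc 2, .ofNat 2, .ofNat 2, .negSucc 2, .ofNat 2, .ofNat 2, .negSucc 2, .ofNat 2, .ofNat 2, .negSucc 2, .negSucc
  2, .ofNat 2, .ofNat 2, .ofNat 2, .ofNat 2, .ofNat 2, .negSucc 2, .negSucc 2, .ofNat 2, .ofNat 2, .ofNat 2, .ofNat 2,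
  .ofNat 2, .ofNat 2, .negSucc 2, .ofNat 2, .ofNat 2, .ofNat 2], [.negSucc 4, .ofNat 5, .ofNat 5, .ofNat 5, .ofNat 0,
  .ofNat 0, .negSucc 4, .ofNat 15, .ofNat 0, .negSucc 4, .ofNat 5, .ofNat 0, .ofNat 0, .ofNat 5, .ofNat 0, .ofNat 5,
  .negSucc 4, .ofNat 5, .ofNat 0, .ofNat 0, .ofNat 0, .negSucc 4, .ofNat 0, .ofNat 5, .ofNat 0, .ofNat 0, .negSucc 14,
  .ofNat 5, .negSucc 4, .ofNat 0, .ofNat 0, .ofNat 0, .negSucc 4, .negSucc 4, .ofNat 0, .ofNat 0, .ofNat 0, .negSucc 4,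
  .ofNat 0, .ofNat 0], [.negSucc 1, .negSucc 1, .negSucc 1, .negSucc 1, .negSucc 1, .negSucc 1, .ofNat 3, .negSucc 1,
  .negSucc 1, .negSucc 1, .ofNat 3, .ofNat 3, .negSucc 1, .negSucc 1, .negSucc 1, .negSucc 1, .negSucc 1, .ofNat 3,
  .ofNat 3, .negSucc 1, .negSucc 1, .negSucc 1, .negSucc 1, .ofNat 3, .ofNat 3, .ofNat 3, .negSucc 1, .negSucc 1,
  .negSucc 1, .ofNat 3, .ofNat 18, .negSucc 1, .negSucc 1, .ofNat 3, .negSucc 1, .ofNat 3, .negSucc 1, .ofNat 3,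
  .negSucc 1, .negSucc 1], [.negSucc 1, .negSucc 1, .negSucc 1, .ofNat 3, .ofNat 3, .ofNat 3, .negSucc 1, .negSucc 1,
  .negSucc 1, .ofNat 18, .negSucc 1, .negSucc 1, .ofNat 3, .negSucc 1, .negSucc 1, .ofNat 3, .negSucc 1, .ofNat 3,
  .negSucc 1, .ofNat 3, .negSucc 1, .negSucc 1, .negSucc 1, .negSucc 1, .negSucc 1, .ofNat 3, .ofNat 3, .negSucc 1,
  .ofNat 3, .ofNat 3, .negSucc 1, .negSucc 1, .negSucc 1, .ofNat 3, .negSucc 1, .negSucc 1, .negSucc 1, .negSucc 1,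
  .negSucc 1, .negSucc 1], [.negSucc 1, .negSucc 1, .ofNat 3, .ofNat 3, .negSucc 1, .ofNat 3, .ofNat 3, .negSucc 1,
  .negSucc 1, .negSucc 1, .negSucc 1, .negSucc 1, .ofNat 3, .negSucc 1, .negSucc 1, .negSucc 1, .negSucc 1, .negSucc 1,
  .negSucc 1, .negSucc 1, .ofNat 3, .negSucc 1, .ofNat 18, .negSucc 1, .ofNat 3, .negSucc 1, .negSucc 1, .ofNat 3,
  .negSucc 1, .negSucc 1, .negSucc 1, .negSucc 1, .negSucc 1, .ofNat 3, .negSucc 1, .negSucc 1, .negSucc 1, .ofNat 3,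
  .ofNat 3, .ofNat 3], [.negSucc 2, .ofNat 2, .negSucc 2, .ofNat 2, .negSucc 2, .ofNat 2, .ofNat 2, .negSucc 2, .ofNat
  2, .ofNat 2, .negSucc 17, .negSucc 2, .ofNat 2, .ofNat 2, .ofNat 2, .negSucc 2, .ofNat 2, .ofNat 2, .ofNat 2, .negSucc
  2, .negSucc 2, .ofNat 2, .ofNat 2, .ofNat 2, .ofNat 2, .ofNat 2, .ofNat 2, .ofNat 2, .ofNat 2, .ofNat 2, .negSucc 2,
  .ofNat 2, .negSucc 2, .negSucc 2, .ofNat 2, .ofNat 2, .ofNat 2, .ofNat 2, .ofNat 2, .negSucc 2], [.ofNat 3, .ofNat 3,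
  .negSucc 1, .negSucc 1, .negSucc 1, .ofNat 18, .negSucc 1, .negSucc 1, .negSucc 1, .ofNat 3, .negSucc 1, .ofNat 3,
  .negSucc 1, .ofNat 3, .negSucc 1, .ofNat 3, .negSucc 1, .negSucc 1, .ofNat 3, .negSucc 1, .negSucc 1, .ofNat 3, .ofNat
  3, .negSucc 1, .ofNat 3, .ofNat 3, .negSucc 1, .negSucc 1, .negSucc 1, .negSucc 1, .negSucc 1, .negSucc 1, .negSucc 1,
  .negSucc 1, .negSucc 1, .negSucc 1, .negSucc 1, .negSucc 1, .negSucc 1, .ofNat 3], [.negSucc 1, .negSucc 1, .ofNat 3,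
  .negSucc 1, .negSucc 1, .ofNat 3, .negSucc 1, .ofNat 3, .negSucc 1, .ofNat 3, .ofNat 3, .negSucc 1, .negSucc 1,
  .negSucc 1, .ofNat 3, .ofNat 18, .ofNat 3, .negSucc 1, .negSucc 1, .negSucc 1, .negSucc 1, .negSucc 1, .negSucc 1,
  .negSucc 1, .negSucc 1, .ofNat 3, .negSucc 1, .negSucc 1, .negSucc 1, .negSucc 1, .negSucc 1, .negSucc 1, .negSucc 1,
  .negSucc 1, .ofNat 3, .ofNat 3, .negSucc 1, .ofNat 3, .ofNat 3, .negSucc 1], [.ofNat 3, .ofNat 3, .negSucc 1, .negSucc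
  1, .negSucc 1, .negSucc 1, .negSucc 1, .ofNat 3, .ofNat 3, .negSucc 1, .negSucc 1, .negSucc 1, .negSucc 1, .negSucc 1,
  .negSucc 1, .negSucc 1, .negSucc 1, .ofNat 3, .negSucc 1, .negSucc 1, .negSucc 1, .negSucc 1, .ofNat 3, .negSucc 1,
  .negSucc 1, .ofNat 3, .negSucc 1, .ofNat 18, .negSucc 1, .ofNat 3, .negSucc 1, .negSucc 1, .ofNat 3, .ofNat 3, .ofNat
  3, .negSucc 1, .negSucc 1, .negSucc 1, .ofNat 3, .negSucc 1], [.ofNat 2, .negSucc 2, .negSucc 2, .ofNat 2, .ofNat 2,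
  .ofNat 2, .ofNat 2, .ofNat 2, .negSucc 2, .negSucc 2, .ofNat 2, .ofNat 2, .ofNat 2, .ofNat 2, .ofNat 2, .ofNat 2,
  .ofNat 2, .ofNat 2, .negSucc 2, .ofNat 2, .negSucc 2, .ofNat 2, .ofNat 2, .negSucc 2, .ofNat 2, .ofNat 2, .negSucc 2,
  .ofNat 2, .negSucc 17, .ofNat 2, .ofNat 2, .ofNat 2, .ofNat 2, .negSucc 2, .negSucc 2, .negSucc 2, .ofNat 2, .ofNat 2,
  .ofNat 2, .negSucc 2], [.ofNat 2, .ofNat 2, .ofNat 2, .ofNat 2, .ofNat 2, .ofNat 2, .ofNat 2, .ofNat 2, .ofNat 2,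
  .negSucc 2, .negSucc 2, .negSucc 2, .ofNat 2, .negSucc 2, .negSucc 2, .ofNat 2, .ofNat 2, .ofNat 2, .ofNat 2, .ofNat
  2, .ofNat 2, .ofNat 2, .negSucc 2, .ofNat 2, .ofNat 2, .ofNat 2, .negSucc 2, .negSucc 2, .negSucc 2, .ofNat 2,
  .negSucc 2, .ofNat 2, .ofNat 2, .negSucc 17, .ofNat 2, .ofNat 2, .negSucc 2, .ofNat 2, .negSucc 2, .ofNat 2], [.ofNat
  3, .negSucc 1, .negSucc 1, .ofNat 3, .negSucc 1, .negSucc 1, .ofNat 3, .negSucc 1, .ofNat 3, .negSucc 1, .negSucc 1,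
  .ofNat 3, .negSucc 1, .negSucc 1, .negSucc 1, .ofNat 3, .ofNat 18, .ofNat 3, .negSucc 1, .negSucc 1, .negSucc 1,
  .negSucc 1, .negSucc 1, .negSucc 1, .negSucc 1, .negSucc 1, .ofNat 3, .negSucc 1, .negSucc 1, .negSucc 1, .negSucc 1,
  .negSucc 1, .negSucc 1, .negSucc 1, .negSucc 1, .ofNat 3, .ofNat 3, .negSucc 1, .ofNat 3, .ofNat 3], [.ofNat 2,
  .negSucc 2, .ofNat 2, .negSucc 2, .ofNat 2, .negSucc 2, .ofNat 2, .ofNat 2, .negSucc 2, .ofNat 2, .negSucc 2, .negSucc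
  17, .negSucc 2, .ofNat 2, .ofNat 2, .ofNat 2, .negSucc 2, .ofNat 2, .ofNat 2, .ofNat 2, .ofNat 2, .negSucc 2, .ofNat
  2, .ofNat 2, .ofNat 2, .ofNat 2, .ofNat 2, .ofNat 2, .ofNat 2, .ofNat 2, .negSucc 2, .negSucc 2, .ofNat 2, .negSucc 2,
  .negSucc 2, .ofNat 2, .ofNat 2, .ofNat 2, .ofNat 2, .ofNat 2], [.negSucc 1, .ofNat 18, .negSucc 1, .negSucc 1,
  .negSucc 1, .ofNat 3, .ofNat 3, .ofNat 3, .negSucc 1, .negSucc 1, .negSucc 1, .ofNat 3, .negSucc 1, .negSucc 1, .ofNat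
  3, .negSucc 1, .negSucc 1, .ofNat 3, .negSucc 1, .ofNat 3, .ofNat 3, .ofNat 3, .negSucc 1, .negSucc 1, .negSucc 1,
  .negSucc 1, .negSucc 1, .ofNat 3, .ofNat 3, .negSucc 1, .negSucc 1, .negSucc 1, .negSucc 1, .negSucc 1, .negSucc 1,
  .ofNat 3, .negSucc 1, .negSucc 1, .negSucc 1, .negSucc 1], [.ofNat 2, .ofNat 2, .ofNat 2, .negSucc 2, .negSucc 2,
  .ofNat 2, .negSucc 2, .negSucc 2, .ofNat 2, .ofNat 2, .ofNat 2, .ofNat 2, .ofNat 2, .negSucc 2, .ofNat 2, .ofNat 2,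
  .ofNat 2, .ofNat 2, .ofNat 2, .ofNat 2, .ofNat 2, .negSucc 2, .ofNat 2, .negSucc 17, .ofNat 2, .negSucc 2, .ofNat 2,
  .ofNat 2, .negSucc 2, .ofNat 2, .negSucc 2, .ofNat 2, .ofNat 2, .ofNat 2, .negSucc 2, .ofNat 2, .ofNat 2, .ofNat 2,
  .negSucc 2, .negSucc 2], [.ofNat 2, .negSucc 2, .ofNat 2, .ofNat 2, .negSucc 2, .ofNat 2, .negSucc 2, .ofNat 2,
  .negSucc 2, .ofNat 2, .ofNat 2, .ofNat 2, .ofNat 2, .negSucc 2, .negSucc 17, .negSucc 2, .ofNat 2, .ofNat 2, .ofNat 2,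
  .negSucc 2, .ofNat 2, .ofNat 2, .ofNat 2, .ofNat 2, .negSucc 2, .ofNat 2, .ofNat 2, .ofNat 2, .ofNat 2, .ofNat 2,
  .ofNat 2, .ofNat 2, .ofNat 2, .negSucc 2, .negSucc 2, .ofNat 2, .negSucc 2, .negSucc 2, .ofNat 2, .ofNat 2], [.negSucc
  17, .ofNat 2, .ofNat 2, .ofNat 2, .negSucc 2, .negSucc 2, .negSucc 2, .ofNat 2, .ofNat 2, .ofNat 2, .negSucc 2, .ofNat
  2, .ofNat 2, .negSucc 2, .ofNat 2, .ofNat 2, .negSucc 2, .ofNat 2, .negSucc 2, .ofNat 2, .negSucc 2, .ofNat 2, .ofNat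
  2, .ofNat 2, .ofNat 2, .ofNat 2, .negSucc 2, .negSucc 2, .ofNat 2, .negSucc 2, .ofNat 2, .ofNat 2, .ofNat 2, .ofNat 2,
  .negSucc 2, .ofNat 2, .ofNat 2, .ofNat 2, .ofNat 2, .ofNat 2], [.ofNat 3, .negSucc 1, .negSucc 1, .ofNat 3, .negSucc
  1, .ofNat 3, .negSucc 1, .ofNat 3, .negSucc 1, .negSucc 1, .negSucc 1, .negSucc 1, .ofNat 3, .ofNat 18, .ofNat 3,
  .negSucc 1, .negSucc 1, .negSucc 1, .ofNat 3, .negSucc 1, .negSucc 1, .negSucc 1, .negSucc 1, .ofNat 3, .negSucc 1,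
  .negSucc 1, .negSucc 1, .negSucc 1, .negSucc 1, .negSucc 1, .negSucc 1, .negSucc 1, .ofNat 3, .ofNat 3, .negSucc 1,
  .ofNat 3, .ofNat 3, .negSucc 1, .negSucc 1, .negSucc 1], [.ofNat 3, .negSucc 1, .negSucc 1, .negSucc 1, .negSucc 1,
  .negSucc 1, .negSucc 1, .negSucc 1, .negSucc 1, .negSucc 1, .negSucc 1, .ofNat 3, .ofNat 3, .negSucc 1, .ofNat 3,
  .ofNat 3, .negSucc 1, .negSucc 1, .negSucc 1, .negSucc 1, .negSucc 1, .negSucc 1, .negSucc 1, .ofNat 3, .negSucc 1,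
  .negSucc 1, .negSucc 1, .ofNat 3, .ofNat 3, .ofNat 3, .negSucc 1, .ofNat 3, .negSucc 1, .negSucc 1, .ofNat 18,
  .negSucc 1, .negSucc 1, .ofNat 3, .negSucc 1, .ofNat 3], [.ofNat 2, .negSucc 2, .ofNat 2, .ofNat 2, .negSucc 2, .ofNat
  2, .ofNat 2, .negSucc 2, .ofNat 2, .negSucc 2, .ofNat 2, .ofNat 2, .negSucc 2, .ofNat 2, .ofNat 2, .ofNat 2, .negSucc
  2, .negSucc 17, .negSucc 2, .ofNat 2, .ofNat 2, .ofNat 2, .ofNat 2, .ofNat 2, .ofNat 2, .ofNat 2, .ofNat 2, .negSucc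
  2, .ofNat 2, .ofNat 2, .negSucc 2, .ofNat 2, .ofNat 2, .ofNat 2, .ofNat 2, .ofNat 2, .negSucc 2, .negSucc 2, .ofNat 2,
  .negSucc 2], [.ofNat 2, .ofNat 2, .negSucc 2, .ofNat 2, .negSucc 2, .ofNat 2, .negSucc 2, .ofNat 2, .ofNat 2, .negSucc
  2, .ofNat 2, .negSucc 2, .negSucc 17, .negSucc 2, .ofNat 2, .ofNat 2, .ofNat 2, .negSucc 2, .ofNat 2, .ofNat 2, .ofNat
  2, .ofNat 2, .negSucc 2, .ofNat 2, .ofNat 2, .ofNat 2, .ofNat 2, .ofNat 2, .ofNat 2, .ofNat 2, .ofNat 2, .negSucc 2,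
  .negSucc 2, .ofNat 2, .negSucc 2, .negSucc 2, .ofNat 2, .ofNat 2, .ofNat 2, .ofNat 2], [.negSucc 2, .negSucc 2,
  .negSucc 2, .ofNat 2, .ofNat 2, .ofNat 2, .negSucc 17, .ofNat 2, .ofNat 2, .ofNat 2, .ofNat 2, .ofNat 2, .negSucc 2,
  .ofNat 2, .negSucc 2, .ofNat 2, .negSucc 2, .ofNat 2, .ofNat 2, .negSucc 2, .ofNat 2, .ofNat 2, .negSucc 2, .negSucc
  2, .ofNat 2, .negSucc 2, .negSucc 2, .ofNat 2, .ofNat 2, .ofNat 2, .negSucc 2, .ofNat 2, .ofNat 2, .ofNat 2, .ofNat 2,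
  .ofNat 2, .ofNat 2, .ofNat 2, .ofNat 2, .ofNat 2]]

/-- Data. -/
def ca5n : List (List ℤ) := [[.ofNat 0, .ofNat 0, .ofNat 0, .ofNat 0, .ofNat 0, .ofNat 0, .ofNat 0, .ofNat 0, .ofNat
  0, .ofNat 0, .ofNat 0, .ofNat 0, .ofNat 0, .ofNat 0, .ofNat 0, .ofNat 0, .ofNat 0, .ofNat 0, .ofNat 1, .ofNat 1,
  .negSucc 0, .ofNat 0, .ofNat 0, .ofNat 0, .ofNat 0, .negSucc 0, .ofNat 0, .ofNat 0, .ofNat 0, .ofNat 0, .ofNat 0,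
  .ofNat 0, .ofNat 0, .ofNat 0, .ofNat 0, .ofNat 0, .negSucc 0, .ofNat 0, .ofNat 1, .ofNat 0], [.ofNat 0, .ofNat 0,
  .ofNat 0, .ofNat 0, .ofNat 0, .ofNat 0, .ofNat 0, .ofNat 1, .ofNat 0, .ofNat 0, .ofNat 0, .ofNat 0, .ofNat 0, .ofNat
  0, .ofNat 0, .ofNat 0, .ofNat 0, .ofNat 0, .negSucc 0, .negSucc 0, .ofNat 0, .ofNat 0, .ofNat 0, .ofNat 0, .ofNat 1,
  .ofNat 0, .ofNat 1, .ofNat 0, .ofNat 0, .ofNat 0, .ofNat 0, .ofNat 0, .ofNat 0, .ofNat 0, .ofNat 0, .ofNat 0, .ofNat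
  0, .ofNat 0, .negSucc 0, .ofNat 0], [.ofNat 0, .ofNat 0, .negSucc 0, .ofNat 0, .ofNat 0, .ofNat 0, .ofNat 0, .ofNat 0,
  .ofNat 0, .ofNat 0, .ofNat 0, .ofNat 0, .ofNat 0, .ofNat 0, .ofNat 0, .ofNat 0, .ofNat 0, .ofNat 0, .ofNat 0, .ofNat
  0, .ofNat 1, .negSucc 0, .ofNat 0, .ofNat 0, .ofNat 0, .ofNat 1, .ofNat 0, .ofNat 0, .ofNat 0, .negSucc 0, .ofNat 0,
  .ofNat 1, .ofNat 0, .ofNat 0, .ofNat 0, .ofNat 0, .ofNat 0, .ofNat 0, .ofNat 0, .ofNat 0], [.ofNat 0, .ofNat 0, .ofNat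
  0, .ofNat 0, .ofNat 0, .ofNat 0, .ofNat 0, .ofNat 0, .ofNat 0, .ofNat 0, .ofNat 0, .ofNat 0, .ofNat 0, .ofNat 0,
  .ofNat 0, .ofNat 0, .ofNat 0, .ofNat 0, .ofNat 1, .ofNat 1, .ofNat 0, .negSucc 0, .ofNat 0, .ofNat 0, .ofNat 0, .ofNat
  0, .negSucc 0, .ofNat 0, .ofNat 0, .ofNat 0, .ofNat 0, .ofNat 1, .negSucc 0, .ofNat 0, .ofNat 0, .ofNat 0, .ofNat 0,
  .negSucc 0, .ofNat 1, .ofNat 0], [.ofNat 0, .ofNat 0, .ofNat 0, .ofNat 0, .ofNat 0, .ofNat 0, .ofNat 0, .ofNat 0,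
  .ofNat 0, .ofNat 0, .ofNat 0, .ofNat 0, .ofNat 0, .ofNat 0, .ofNat 0, .ofNat 0, .ofNat 0, .ofNat 0, .negSucc 0,
  .negSucc 0, .ofNat 0, .ofNat 0, .ofNat 0, .ofNat 0, .ofNat 1, .ofNat 0, .ofNat 0, .ofNat 0, .ofNat 0, .ofNat 1, .ofNat
  1, .negSucc 0, .ofNat 0, .ofNat 0, .ofNat 0, .ofNat 1, .ofNat 0, .ofNat 0, .negSucc 0, .ofNat 0], [.ofNat 0, .ofNat 0,
  .ofNat 0, .ofNat 1, .ofNat 0, .ofNat 0, .ofNat 0, .ofNat 0, .ofNat 0, .ofNat 1, .ofNat 0, .ofNat 0, .ofNat 0, .ofNat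
  0, .ofNat 0, .ofNat 0, .ofNat 0, .ofNat 0, .negSucc 0, .ofNat 0, .ofNat 0, .ofNat 0, .ofNat 0, .ofNat 0, .ofNat 0,
  .ofNat 0, .ofNat 0, .ofNat 0, .ofNat 0, .ofNat 1, .ofNat 0, .negSucc 0, .ofNat 0, .ofNat 0, .ofNat 0, .ofNat 0, .ofNat
  0, .ofNat 0, .negSucc 0, .ofNat 0], [.ofNat 0, .ofNat 0, .ofNat 0, .ofNat 1, .ofNat 0, .ofNat 0, .ofNat 0, .ofNat 0,
  .ofNat 0, .ofNat 0, .ofNat 0, .ofNat 0, .ofNat 0, .ofNat 0, .ofNat 0, .ofNat 0, .ofNat 0, .ofNat 0, .negSucc 0,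
  .negSucc 0, .ofNat 1, .ofNat 0, .ofNat 1, .ofNat 0, .ofNat 0, .ofNat 0, .ofNat 0, .ofNat 0, .ofNat 0, .ofNat 0, .ofNat
  0, .negSucc 0, .ofNat 0, .ofNat 0, .ofNat 0, .ofNat 0, .ofNat 0, .ofNat 1, .negSucc 0, .ofNat 0], [.ofNat 0, .ofNat 0,
  .ofNat 0, .ofNat 0, .ofNat 0, .ofNat 0, .ofNat 0, .ofNat 0, .ofNat 0, .ofNat 0, .negSucc 0, .ofNat 0, .ofNat 0, .ofNat
  0, .ofNat 0, .ofNat 0, .ofNat 0, .ofNat 0, .ofNat 1, .ofNat 0, .ofNat 0, .ofNat 0, .ofNat 0, .ofNat 0, .ofNat 0,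
  .ofNat 0, .ofNat 0, .ofNat 0, .ofNat 0, .ofNat 0, .ofNat 0, .ofNat 1, .negSucc 0, .ofNat 0, .ofNat 0, .ofNat 0, .ofNat
  0, .ofNat 0, .ofNat 1, .negSucc 0], [.ofNat 0, .ofNat 0, .ofNat 0, .negSucc 0, .ofNat 0, .ofNat 1, .ofNat 0, .ofNat 0,
  .ofNat 0, .ofNat 0, .ofNat 0, .ofNat 0, .ofNat 0, .ofNat 0, .ofNat 0, .ofNat 0, .ofNat 0, .ofNat 0, .ofNat 0, .ofNat
  0, .negSucc 0, .ofNat 0, .ofNat 0, .ofNat 0, .ofNat 1, .ofNat 0, .ofNat 0, .ofNat 0, .ofNat 0, .ofNat 0, .ofNat 0,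
  .ofNat 0, .ofNat 0, .ofNat 0, .ofNat 0, .ofNat 0, .ofNat 0, .negSucc 0, .ofNat 0, .ofNat 1], [.ofNat 0, .ofNat 0,
  .ofNat 0, .ofNat 0, .ofNat 0, .ofNat 0, .ofNat 0, .ofNat 0, .ofNat 0, .ofNat 0, .ofNat 0, .ofNat 0, .ofNat 0, .ofNat
  0, .ofNat 0, .ofNat 1, .ofNat 0, .ofNat 0, .ofNat 0, .negSucc 0, .ofNat 1, .ofNat 0, .ofNat 0, .ofNat 0, .negSucc 0,
  .ofNat 1, .ofNat 0, .ofNat 0, .ofNat 0, .negSucc 0, .ofNat 0, .ofNat 0, .ofNat 0, .ofNat 0, .ofNat 0, .ofNat 0, .ofNat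
  0, .ofNat 1, .ofNat 0, .negSucc 0], [.ofNat 0, .ofNat 0, .ofNat 0, .ofNat 0, .ofNat 0, .ofNat 0, .ofNat 0, .ofNat 0,
  .ofNat 1, .ofNat 0, .ofNat 0, .ofNat 0, .ofNat 0, .ofNat 0, .ofNat 0, .ofNat 0, .ofNat 0, .ofNat 0, .negSucc 0,
  .negSucc 0, .ofNat 0, .ofNat 0, .ofNat 0, .ofNat 0, .ofNat 0, .ofNat 1, .ofNat 0, .ofNat 1, .ofNat 0, .ofNat 0, .ofNat
  0, .negSucc 0, .ofNat 1, .ofNat 0, .ofNat 0, .ofNat 0, .ofNat 0, .ofNat 0, .negSucc 0, .ofNat 0], [.ofNat 0, .ofNat 0,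
  .ofNat 0, .ofNat 0, .ofNat 0, .ofNat 0, .ofNat 0, .ofNat 0, .negSucc 0, .ofNat 0, .ofNat 0, .ofNat 0, .ofNat 0, .ofNat
  0, .ofNat 0, .ofNat 0, .ofNat 0, .ofNat 0, .ofNat 0, .ofNat 1, .negSucc 0, .ofNat 1, .ofNat 0, .ofNat 0, .ofNat 0,
  .negSucc 0, .ofNat 0, .ofNat 0, .negSucc 0, .ofNat 1, .ofNat 0, .ofNat 0, .ofNat 0, .ofNat 0, .ofNat 0, .ofNat 0,
  .ofNat 0, .ofNat 0, .ofNat 1, .ofNat 0], [.ofNat 0, .ofNat 0, .ofNat 0, .ofNat 1, .ofNat 0, .ofNat 0, .ofNat 0, .ofNat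
  0, .ofNat 1, .ofNat 0, .ofNat 0, .ofNat 0, .ofNat 0, .ofNat 0, .ofNat 0, .ofNat 0, .ofNat 0, .ofNat 0, .negSucc 0,
  .negSucc 0, .ofNat 1, .ofNat 0, .ofNat 0, .ofNat 0, .ofNat 0, .ofNat 1, .ofNat 0, .ofNat 0, .ofNat 0, .ofNat 0, .ofNat
  0, .negSucc 0, .ofNat 1, .negSucc 0, .ofNat 0, .ofNat 0, .ofNat 0, .ofNat 1, .negSucc 1, .ofNat 0], [.ofNat 0, .ofNat
  0, .ofNat 0, .ofNat 0, .ofNat 0, .ofNat 0, .ofNat 0, .ofNat 0, .ofNat 0, .ofNat 0, .ofNat 0, .ofNat 0, .ofNat 0,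
  .ofNat 0, .ofNat 0, .ofNat 0, .ofNat 1, .ofNat 0, .negSucc 0, .ofNat 0, .negSucc 0, .ofNat 0, .ofNat 0, .ofNat 0,
  .ofNat 1, .negSucc 0, .ofNat 0, .ofNat 0, .ofNat 0, .ofNat 1, .ofNat 0, .negSucc 0, .ofNat 0, .ofNat 0, .ofNat 0,
  .ofNat 1, .ofNat 0, .negSucc 0, .ofNat 0, .ofNat 1], [.ofNat 0, .ofNat 0, .ofNat 0, .negSucc 0, .ofNat 0, .ofNat 0,
  .ofNat 0, .ofNat 0, .negSucc 0, .ofNat 0, .ofNat 0, .negSucc 0, .ofNat 0, .ofNat 0, .ofNat 0, .ofNat 0, .ofNat 0,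
  .ofNat 0, .ofNat 0, .ofNat 1, .negSucc 0, .ofNat 0, .ofNat 0, .ofNat 0, .ofNat 1, .negSucc 0, .ofNat 0, .ofNat 0,
  .ofNat 0, .ofNat 1, .ofNat 0, .ofNat 0, .ofNat 0, .ofNat 0, .ofNat 0, .ofNat 1, .ofNat 0, .negSucc 0, .ofNat 1, .ofNat
  1], [.ofNat 0, .ofNat 1, .ofNat 0, .ofNat 0, .ofNat 0, .ofNat 0, .ofNat 0, .ofNat 0, .negSucc 0, .ofNat 0, .ofNat 0,
  .ofNat 0, .ofNat 0, .ofNat 0, .ofNat 0, .ofNat 0, .ofNat 0, .ofNat 0, .negSucc 0, .ofNat 0, .ofNat 0, .ofNat 1, .ofNat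
  0, .ofNat 0, .ofNat 0, .negSucc 0, .ofNat 0, .ofNat 0, .ofNat 0, .ofNat 1, .ofNat 0, .negSucc 0, .ofNat 0, .ofNat 0,
  .ofNat 0, .ofNat 1, .ofNat 0, .ofNat 0, .ofNat 0, .ofNat 0], [.ofNat 0, .ofNat 0, .ofNat 0, .ofNat 0, .negSucc 0,
  .ofNat 0, .ofNat 0, .ofNat 0, .ofNat 0, .ofNat 0, .ofNat 0, .ofNat 0, .ofNat 0, .ofNat 0, .ofNat 0, .ofNat 0, .ofNat
  0, .ofNat 0, .ofNat 1, .ofNat 1, .ofNat 0, .negSucc 0, .ofNat 0, .negSucc 0, .ofNat 0, .ofNat 0, .ofNat 0, .ofNat 0,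
  .ofNat 0, .ofNat 0, .ofNat 0, .ofNat 1, .ofNat 0, .ofNat 0, .ofNat 0, .ofNat 0, .ofNat 0, .ofNat 0, .ofNat 0, .ofNat
  0], [.ofNat 0, .ofNat 0, .ofNat 0, .ofNat 0, .negSucc 0, .ofNat 0, .ofNat 0, .ofNat 0, .negSucc 0, .ofNat 0, .ofNat 0,
  .ofNat 0, .ofNat 0, .ofNat 0, .negSucc 0, .ofNat 0, .ofNat 0, .ofNat 0, .ofNat 1, .ofNat 1, .ofNat 0, .ofNat 0, .ofNat
  0, .ofNat 0, .negSucc 0, .ofNat 0, .ofNat 0, .ofNat 0, .ofNat 0, .ofNat 0, .ofNat 0, .ofNat 1, .ofNat 0, .ofNat 0,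
  .ofNat 0, .ofNat 0, .ofNat 0, .ofNat 0, .ofNat 1, .ofNat 0], [.negSucc 0, .ofNat 0, .ofNat 0, .ofNat 0, .negSucc 0,
  .ofNat 0, .ofNat 0, .ofNat 0, .ofNat 0, .ofNat 0, .ofNat 0, .ofNat 0, .ofNat 0, .ofNat 0, .ofNat 0, .ofNat 0, .ofNat
  0, .ofNat 0, .ofNat 0, .ofNat 1, .negSucc 0, .ofNat 0, .ofNat 0, .ofNat 0, .ofNat 0, .ofNat 0, .ofNat 0, .ofNat 0,
  .ofNat 0, .ofNat 0, .ofNat 0, .ofNat 0, .ofNat 1, .ofNat 0, .ofNat 0, .ofNat 0, .ofNat 0, .ofNat 0, .ofNat 0, .ofNat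
  1], [.ofNat 0, .ofNat 0, .ofNat 0, .ofNat 1, .negSucc 0, .ofNat 0, .ofNat 0, .ofNat 0, .ofNat 0, .ofNat 0, .ofNat 0,
  .ofNat 0, .ofNat 0, .ofNat 1, .ofNat 0, .ofNat 0, .ofNat 0, .ofNat 0, .ofNat 0, .ofNat 0, .ofNat 0, .ofNat 0, .ofNat
  0, .ofNat 0, .negSucc 0, .ofNat 0, .ofNat 0, .ofNat 0, .ofNat 0, .ofNat 0, .ofNat 0, .negSucc 0, .ofNat 1, .ofNat 0,
  .ofNat 0, .ofNat 0, .ofNat 0, .ofNat 1, .negSucc 0, .ofNat 0], [.ofNat 0, .ofNat 0, .ofNat 0, .ofNat 0, .negSucc 0,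
  .ofNat 0, .ofNat 0, .ofNat 0, .negSucc 0, .ofNat 0, .ofNat 0, .ofNat 0, .ofNat 0, .ofNat 0, .ofNat 0, .ofNat 0, .ofNat
  0, .ofNat 0, .ofNat 0, .ofNat 1, .negSucc 0, .ofNat 0, .ofNat 0, .ofNat 0, .ofNat 0, .negSucc 0, .ofNat 0, .ofNat 0,
  .ofNat 0, .ofNat 1, .ofNat 0, .ofNat 0, .ofNat 0, .ofNat 0, .ofNat 1, .ofNat 0, .ofNat 0, .ofNat 0, .ofNat 0, .ofNat
  1], [.ofNat 0, .ofNat 0, .ofNat 0, .ofNat 0, .ofNat 0, .ofNat 0, .ofNat 0, .ofNat 0, .ofNat 0, .ofNat 0, .ofNat 0,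
  .ofNat 0, .ofNat 0, .ofNat 0, .ofNat 0, .ofNat 0, .ofNat 0, .negSucc 0, .negSucc 0, .ofNat 0, .ofNat 0, .ofNat 0,
  .ofNat 0, .ofNat 0, .ofNat 1, .ofNat 0, .ofNat 0, .ofNat 0, .ofNat 0, .ofNat 1, .ofNat 0, .ofNat 0, .ofNat 0, .ofNat
  0, .ofNat 0, .ofNat 1, .ofNat 0, .negSucc 0, .ofNat 0, .ofNat 0], [.ofNat 0, .ofNat 0, .ofNat 0, .ofNat 1, .negSucc 0,
  .ofNat 0, .ofNat 0, .ofNat 0, .ofNat 0, .ofNat 0, .ofNat 0, .ofNat 0, .negSucc 0, .ofNat 0, .ofNat 0, .ofNat 0, .ofNat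
  0, .ofNat 0, .ofNat 1, .ofNat 1, .ofNat 0, .ofNat 0, .ofNat 0, .ofNat 0, .negSucc 0, .ofNat 0, .ofNat 0, .ofNat 0,
  .ofNat 0, .ofNat 0, .ofNat 0, .ofNat 0, .ofNat 0, .ofNat 0, .ofNat 0, .negSucc 0, .ofNat 0, .ofNat 1, .ofNat 0, .ofNat
  0], [.ofNat 0, .ofNat 0, .ofNat 0, .ofNat 0, .ofNat 1, .ofNat 0, .negSucc 0, .ofNat 0, .ofNat 0, .ofNat 0, .ofNat 0,
  .ofNat 0, .ofNat 0, .ofNat 0, .ofNat 0, .ofNat 0, .ofNat 0, .ofNat 0, .negSucc 0, .negSucc 0, .ofNat 0, .ofNat 1,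
  .ofNat 0, .ofNat 0, .ofNat 1, .negSucc 0, .ofNat 0, .ofNat 0, .ofNat 0, .ofNat 1, .ofNat 0, .negSucc 0, .ofNat 0,
  .ofNat 0, .ofNat 0, .ofNat 1, .ofNat 0, .ofNat 0, .ofNat 0, .ofNat 0]]

/-- Data. -/
def ca5bT : List (List ℤ) := [[.ofNat 2, .negSucc 1, .ofNat 2, .negSucc 4, .negSucc 1, .negSucc 1, .negSucc 1,
  .negSucc 2, .ofNat 3, .negSucc 1, .ofNat 3, .ofNat 2, .ofNat 2, .ofNat 3, .ofNat 2, .negSucc 1, .ofNat 2, .ofNat 2,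
  .negSucc 17, .ofNat 3, .ofNat 3, .ofNat 2, .ofNat 2, .negSucc 2], [.ofNat 2, .ofNat 3, .ofNat 2, .ofNat 5, .negSucc 1,
  .negSucc 1, .negSucc 1, .ofNat 2, .ofNat 3, .negSucc 1, .ofNat 3, .negSucc 2, .ofNat 2, .negSucc 1, .negSucc 2, .ofNat
  18, .ofNat 2, .negSucc 2, .ofNat 2, .negSucc 1, .negSucc 1, .negSucc 2, .ofNat 2, .negSucc 2], [.negSucc 2, .ofNat 3,
  .negSucc 17, .ofNat 5, .negSucc 1, .negSucc 1, .ofNat 3, .negSucc 2, .negSucc 1, .ofNat 3, .negSucc 1, .negSucc 2,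
  .ofNat 2, .negSucc 1, .ofNat 2, .negSucc 1, .ofNat 2, .ofNat 2, .ofNat 2, .negSucc 1, .negSucc 1, .ofNat 2, .negSucc
  2, .negSucc 2], [.ofNat 2, .ofNat 3, .ofNat 2, .ofNat 5, .negSucc 1, .ofNat 3, .ofNat 3, .ofNat 2, .negSucc 1,
  .negSucc 1, .negSucc 1, .ofNat 2, .ofNat 2, .ofNat 3, .negSucc 2, .negSucc 1, .negSucc 2, .ofNat 2, .ofNat 2, .ofNat
  3, .negSucc 1, .ofNat 2, .ofNat 2, .ofNat 2], [.ofNat 2, .negSucc 1, .ofNat 2, .ofNat 0, .negSucc 1, .ofNat 3,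
  .negSucc 1, .negSucc 2, .negSucc 1, .negSucc 1, .negSucc 1, .ofNat 2, .ofNat 2, .negSucc 1, .ofNat 2, .negSucc 1,
  .negSucc 2, .negSucc 2, .negSucc 2, .negSucc 1, .negSucc 1, .negSucc 2, .negSucc 2, .ofNat 2], [.ofNat 2, .negSucc 1,
  .ofNat 2, .ofNat 0, .negSucc 1, .ofNat 3, .ofNat 3, .ofNat 2, .ofNat 18, .ofNat 3, .negSucc 1, .ofNat 2, .ofNat 2,
  .negSucc 1, .negSucc 2, .ofNat 3, .ofNat 2, .ofNat 2, .negSucc 2, .ofNat 3, .negSucc 1, .ofNat 2, .ofNat 2, .ofNat 2],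
  [.ofNat 2, .negSucc 1, .negSucc 2, .negSucc 4, .ofNat 3, .negSucc 1, .ofNat 3, .ofNat 2, .negSucc 1, .negSucc 1,
  .negSucc 1, .ofNat 2, .ofNat 2, .ofNat 3, .ofNat 2, .ofNat 3, .negSucc 2, .negSucc 2, .negSucc 2, .negSucc 1, .negSucc
  1, .ofNat 2, .negSucc 2, .negSucc 17], [.ofNat 2, .ofNat 18, .negSucc 2, .ofNat 15, .negSucc 1, .negSucc 1, .negSucc
  1, .negSucc 2, .negSucc 1, .ofNat 3, .ofNat 3, .ofNat 2, .ofNat 2, .negSucc 1, .ofNat 2, .ofNat 3, .negSucc 2, .ofNat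
  2, .ofNat 2, .ofNat 3, .negSucc 1, .negSucc 2, .ofNat 2, .ofNat 2], [.ofNat 2, .negSucc 1, .negSucc 2, .ofNat 0,
  .negSucc 1, .negSucc 1, .negSucc 1, .ofNat 2, .negSucc 1, .negSucc 1, .ofNat 3, .negSucc 2, .ofNat 2, .ofNat 3,
  .negSucc 2, .negSucc 1, .ofNat 2, .negSucc 2, .ofNat 2, .negSucc 1, .negSucc 1, .ofNat 2, .ofNat 2, .ofNat 2], [.ofNat
  2, .negSucc 1, .ofNat 2, .negSucc 4, .negSucc 1, .ofNat 18, .negSucc 1, .ofNat 2, .ofNat 3, .ofNat 3, .negSucc 1,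
  .negSucc 2, .negSucc 2, .negSucc 1, .ofNat 2, .negSucc 1, .ofNat 2, .ofNat 2, .ofNat 2, .negSucc 1, .negSucc 1,
  .negSucc 2, .negSucc 2, .ofNat 2], [.ofNat 2, .ofNat 3, .negSucc 2, .ofNat 5, .ofNat 3, .negSucc 1, .negSucc 1,
  .negSucc 17, .negSucc 1, .ofNat 3, .negSucc 1, .ofNat 2, .negSucc 2, .negSucc 1, .negSucc 2, .negSucc 1, .ofNat 2,
  .ofNat 2, .negSucc 2, .negSucc 1, .negSucc 1, .ofNat 2, .ofNat 2, .ofNat 2], [.ofNat 2, .negSucc 1, .ofNat 2, .ofNat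
  0, .ofNat 3, .negSucc 1, .negSucc 1, .negSucc 2, .ofNat 3, .negSucc 1, .negSucc 1, .ofNat 2, .negSucc 2, .ofNat 3,
  .negSucc 17, .ofNat 3, .ofNat 2, .ofNat 2, .ofNat 2, .negSucc 1, .ofNat 3, .ofNat 2, .negSucc 2, .ofNat 2], [.ofNat 2,
  .negSucc 1, .negSucc 2, .ofNat 0, .negSucc 1, .ofNat 3, .ofNat 3, .ofNat 2, .negSucc 1, .negSucc 1, .negSucc 1, .ofNat
  2, .ofNat 2, .negSucc 1, .negSucc 2, .negSucc 1, .ofNat 2, .ofNat 2, .ofNat 2, .ofNat 3, .ofNat 3, .negSucc 2,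
  .negSucc 17, .negSucc 2], [.negSucc 2, .ofNat 3, .ofNat 2, .ofNat 5, .negSucc 1, .negSucc 1, .negSucc 1, .ofNat 2,
  .ofNat 3, .negSucc 1, .negSucc 1, .ofNat 2, .negSucc 2, .negSucc 1, .ofNat 2, .negSucc 1, .negSucc 2, .negSucc 2,
  .negSucc 2, .ofNat 18, .negSucc 1, .ofNat 2, .negSucc 2, .ofNat 2], [.negSucc 2, .negSucc 1, .ofNat 2, .ofNat 0,
  .negSucc 1, .negSucc 1, .negSucc 1, .ofNat 2, .negSucc 1, .ofNat 3, .negSucc 1, .ofNat 2, .negSucc 2, .negSucc 1,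
  .ofNat 2, .ofNat 3, .ofNat 2, .negSucc 17, .ofNat 2, .ofNat 3, .ofNat 3, .ofNat 2, .ofNat 2, .negSucc 2], [.ofNat 2,
  .ofNat 3, .negSucc 2, .ofNat 5, .negSucc 1, .ofNat 3, .negSucc 1, .negSucc 2, .ofNat 3, .ofNat 18, .negSucc 1, .ofNat
  2, .ofNat 2, .ofNat 3, .ofNat 2, .negSucc 1, .ofNat 2, .negSucc 2, .ofNat 2, .negSucc 1, .ofNat 3, .ofNat 2, .ofNat 2,
  .ofNat 2], [.negSucc 2, .negSucc 1, .ofNat 2, .negSucc 4, .negSucc 1, .negSucc 1, .negSucc 1, .ofNat 2, .negSucc 1,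
  .ofNat 3, .negSucc 1, .ofNat 2, .ofNat 2, .ofNat 18, .negSucc 2, .negSucc 1, .ofNat 2, .ofNat 2, .negSucc 2, .negSucc
  1, .negSucc 1, .negSucc 2, .ofNat 2, .negSucc 2], [.negSucc 2, .ofNat 3, .ofNat 2, .ofNat 5, .ofNat 3, .ofNat 3,
  .negSucc 1, .ofNat 2, .negSucc 1, .negSucc 1, .ofNat 3, .ofNat 2, .ofNat 2, .ofNat 3, .ofNat 2, .ofNat 3, .ofNat 2,
  .ofNat 2, .ofNat 2, .negSucc 1, .negSucc 1, .negSucc 17, .negSucc 2, .ofNat 2], [.ofNat 2, .negSucc 1, .negSucc 2,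
  .ofNat 0, .ofNat 3, .negSucc 1, .negSucc 1, .ofNat 2, .ofNat 3, .negSucc 1, .negSucc 1, .negSucc 2, .ofNat 2, .negSucc
  1, .ofNat 2, .negSucc 1, .ofNat 2, .ofNat 2, .negSucc 2, .ofNat 3, .negSucc 1, .negSucc 2, .ofNat 2, .ofNat 2],
  [.ofNat 2, .negSucc 1, .ofNat 2, .ofNat 0, .negSucc 1, .ofNat 3, .negSucc 1, .negSucc 2, .negSucc 1, .negSucc 1,
  .negSucc 1, .ofNat 2, .ofNat 2, .negSucc 1, .ofNat 2, .ofNat 3, .ofNat 2, .negSucc 2, .ofNat 2, .negSucc 1, .negSucc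
  1, .ofNat 2, .ofNat 2, .negSucc 2], [.negSucc 2, .negSucc 1, .ofNat 2, .ofNat 0, .negSucc 1, .negSucc 1, .ofNat 3,
  .negSucc 2, .negSucc 1, .negSucc 1, .negSucc 1, .negSucc 2, .ofNat 2, .negSucc 1, .ofNat 2, .ofNat 3, .ofNat 2, .ofNat
  2, .negSucc 2, .negSucc 1, .negSucc 1, .ofNat 2, .ofNat 2, .ofNat 2], [.negSucc 2, .negSucc 1, .negSucc 2, .negSucc 4,
  .negSucc 1, .negSucc 1, .negSucc 1, .ofNat 2, .ofNat 3, .negSucc 1, .negSucc 1, .ofNat 2, .ofNat 2, .negSucc 1,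
  .negSucc 2, .ofNat 3, .negSucc 2, .ofNat 2, .ofNat 2, .negSucc 1, .negSucc 1, .ofNat 2, .ofNat 2, .ofNat 2], [.ofNat
  2, .negSucc 1, .negSucc 2, .ofNat 0, .negSucc 1, .negSucc 1, .ofNat 18, .ofNat 2, .ofNat 3, .negSucc 1, .ofNat 3,
  .ofNat 2, .negSucc 2, .negSucc 1, .ofNat 2, .negSucc 1, .ofNat 2, .ofNat 2, .ofNat 2, .negSucc 1, .negSucc 1, .ofNat
  2, .negSucc 2, .negSucc 2], [.ofNat 2, .ofNat 3, .ofNat 2, .ofNat 5, .ofNat 3, .negSucc 1, .negSucc 1, .ofNat 2,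
  .negSucc 1, .negSucc 1, .negSucc 1, .negSucc 2, .ofNat 2, .negSucc 1, .ofNat 2, .negSucc 1, .negSucc 17, .ofNat 2,
  .ofNat 2, .ofNat 3, .ofNat 3, .ofNat 2, .ofNat 2, .negSucc 2], [.ofNat 2, .ofNat 3, .ofNat 2, .ofNat 0, .ofNat 3,
  .negSucc 1, .ofNat 3, .ofNat 2, .ofNat 3, .negSucc 1, .negSucc 1, .ofNat 2, .ofNat 2, .negSucc 1, .ofNat 2, .negSucc
  1, .ofNat 2, .negSucc 2, .ofNat 2, .negSucc 1, .negSucc 1, .ofNat 2, .ofNat 2, .ofNat 2], [.negSucc 2, .negSucc 1,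
  .ofNat 2, .ofNat 0, .ofNat 3, .ofNat 3, .negSucc 1, .ofNat 2, .ofNat 3, .ofNat 3, .ofNat 3, .ofNat 2, .ofNat 2,
  .negSucc 1, .ofNat 2, .negSucc 1, .negSucc 2, .ofNat 2, .ofNat 2, .negSucc 1, .negSucc 1, .ofNat 2, .ofNat 2, .negSucc
  2], [.ofNat 2, .ofNat 3, .ofNat 2, .negSucc 14, .negSucc 1, .ofNat 3, .negSucc 1, .ofNat 2, .negSucc 1, .negSucc 1,
  .negSucc 1, .negSucc 2, .negSucc 2, .ofNat 3, .ofNat 2, .negSucc 1, .ofNat 2, .ofNat 2, .negSucc 2, .negSucc 1,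
  .negSucc 1, .ofNat 2, .ofNat 2, .negSucc 2], [.ofNat 2, .ofNat 3, .ofNat 2, .ofNat 5, .negSucc 1, .negSucc 1, .ofNat
  3, .ofNat 2, .negSucc 1, .negSucc 1, .ofNat 18, .ofNat 2, .negSucc 2, .negSucc 1, .ofNat 2, .ofNat 3, .ofNat 2, .ofNat
  2, .negSucc 2, .negSucc 1, .ofNat 3, .negSucc 2, .ofNat 2, .ofNat 2], [.ofNat 2, .negSucc 1, .negSucc 2, .negSucc 4,
  .negSucc 1, .ofNat 3, .negSucc 1, .ofNat 2, .negSucc 1, .negSucc 1, .negSucc 1, .negSucc 17, .negSucc 2, .negSucc 1,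
  .ofNat 2, .ofNat 3, .negSucc 2, .ofNat 2, .ofNat 2, .negSucc 1, .ofNat 3, .ofNat 2, .ofNat 2, .ofNat 2], [.negSucc 2,
  .negSucc 1, .negSucc 2, .ofNat 0, .ofNat 3, .ofNat 3, .negSucc 1, .ofNat 2, .negSucc 1, .negSucc 1, .ofNat 3, .ofNat
  2, .ofNat 2, .negSucc 1, .ofNat 2, .negSucc 1, .ofNat 2, .ofNat 2, .negSucc 2, .negSucc 1, .ofNat 3, .ofNat 2, .ofNat
  2, .ofNat 2], [.ofNat 2, .negSucc 1, .ofNat 2, .ofNat 0, .ofNat 18, .negSucc 1, .negSucc 1, .negSucc 2, .negSucc 1,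
  .negSucc 1, .negSucc 1, .ofNat 2, .negSucc 2, .negSucc 1, .negSucc 2, .negSucc 1, .negSucc 2, .ofNat 2, .ofNat 2,
  .negSucc 1, .negSucc 1, .negSucc 2, .ofNat 2, .negSucc 2], [.negSucc 2, .ofNat 3, .ofNat 2, .ofNat 0, .negSucc 1,
  .negSucc 1, .negSucc 1, .ofNat 2, .negSucc 1, .negSucc 1, .negSucc 1, .ofNat 2, .ofNat 2, .negSucc 1, .negSucc 2,
  .negSucc 1, .ofNat 2, .ofNat 2, .ofNat 2, .negSucc 1, .ofNat 3, .ofNat 2, .negSucc 2, .ofNat 2], [.ofNat 2, .negSucc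
  1, .ofNat 2, .negSucc 4, .negSucc 1, .negSucc 1, .negSucc 1, .negSucc 2, .negSucc 1, .negSucc 1, .ofNat 3, .ofNat 2,
  .ofNat 2, .negSucc 1, .ofNat 2, .negSucc 1, .ofNat 2, .ofNat 2, .ofNat 2, .ofNat 3, .negSucc 1, .ofNat 2, .negSucc 2,
  .ofNat 2], [.negSucc 2, .negSucc 1, .ofNat 2, .negSucc 4, .ofNat 3, .ofNat 3, .ofNat 3, .negSucc 2, .negSucc 1,
  .negSucc 1, .ofNat 3, .negSucc 2, .negSucc 17, .negSucc 1, .negSucc 2, .negSucc 1, .ofNat 2, .negSucc 2, .ofNat 2,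
  .ofNat 3, .negSucc 1, .ofNat 2, .ofNat 2, .ofNat 2], [.ofNat 2, .negSucc 1, .ofNat 2, .ofNat 0, .negSucc 1, .negSucc
  1, .negSucc 1, .ofNat 2, .negSucc 1, .ofNat 3, .ofNat 3, .negSucc 2, .ofNat 2, .negSucc 1, .negSucc 2, .negSucc 1,
  .negSucc 2, .negSucc 2, .negSucc 2, .negSucc 1, .ofNat 18, .ofNat 2, .negSucc 2, .ofNat 2], [.ofNat 2, .negSucc 1,
  .ofNat 2, .ofNat 0, .ofNat 3, .negSucc 1, .negSucc 1, .ofNat 2, .negSucc 1, .ofNat 3, .negSucc 1, .negSucc 2, .ofNat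
  2, .ofNat 3, .ofNat 2, .ofNat 3, .ofNat 2, .ofNat 2, .ofNat 2, .ofNat 3, .negSucc 1, .ofNat 2, .negSucc 2, .ofNat 2],
  [.negSucc 17, .negSucc 1, .negSucc 2, .ofNat 0, .negSucc 1, .negSucc 1, .negSucc 1, .ofNat 2, .negSucc 1, .negSucc 1,
  .negSucc 1, .ofNat 2, .negSucc 2, .ofNat 3, .ofNat 2, .negSucc 1, .ofNat 2, .negSucc 2, .ofNat 2, .ofNat 3, .negSucc
  1, .negSucc 2, .ofNat 2, .ofNat 2], [.ofNat 2, .negSucc 1, .ofNat 2, .negSucc 4, .ofNat 3, .negSucc 1, .ofNat 3,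
  .ofNat 2, .negSucc 1, .ofNat 3, .negSucc 1, .ofNat 2, .ofNat 2, .negSucc 1, .ofNat 2, .negSucc 1, .ofNat 2, .negSucc
  2, .ofNat 2, .negSucc 1, .ofNat 3, .negSucc 2, .ofNat 2, .ofNat 2], [.ofNat 2, .negSucc 1, .ofNat 2, .ofNat 0,
  .negSucc 1, .negSucc 1, .ofNat 3, .ofNat 2, .negSucc 1, .ofNat 3, .ofNat 3, .ofNat 2, .negSucc 2, .ofNat 3, .ofNat 2,
  .negSucc 1, .negSucc 2, .ofNat 2, .ofNat 2, .negSucc 1, .negSucc 1, .ofNat 2, .ofNat 2, .ofNat 2], [.negSucc 2,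
  .negSucc 1, .ofNat 2, .ofNat 0, .negSucc 1, .negSucc 1, .ofNat 3, .negSucc 2, .ofNat 3, .negSucc 1, .negSucc 1,
  .negSucc 2, .ofNat 2, .ofNat 3, .ofNat 2, .negSucc 1, .negSucc 2, .ofNat 2, .ofNat 2, .negSucc 1, .ofNat 3, .negSucc
  2, .ofNat 2, .ofNat 2]]

/-- Data. -/
def ca5nT : List (List ℤ) := [[.ofNat 0, .ofNat 0, .ofNat 0, .ofNat 0, .ofNat 0, .ofNat 0, .ofNat 0, .ofNat 0, .ofNat
  0, .ofNat 0, .ofNat 0, .ofNat 0, .ofNat 0, .ofNat 0, .ofNat 0, .ofNat 0, .ofNat 0, .ofNat 0, .negSucc 0, .ofNat 0,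
  .ofNat 0, .ofNat 0, .ofNat 0, .ofNat 0], [.ofNat 0, .ofNat 0, .ofNat 0, .ofNat 0, .ofNat 0, .ofNat 0, .ofNat 0, .ofNat
  0, .ofNat 0, .ofNat 0, .ofNat 0, .ofNat 0, .ofNat 0, .ofNat 0, .ofNat 0, .ofNat 1, .ofNat 0, .ofNat 0, .ofNat 0,
  .ofNat 0, .ofNat 0, .ofNat 0, .ofNat 0, .ofNat 0], [.ofNat 0, .ofNat 0, .negSucc 0, .ofNat 0, .ofNat 0, .ofNat 0,
  .ofNat 0, .ofNat 0, .ofNat 0, .ofNat 0, .ofNat 0, .ofNat 0, .ofNat 0, .ofNat 0, .ofNat 0, .ofNat 0, .ofNat 0, .ofNat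
  0, .ofNat 0, .ofNat 0, .ofNat 0, .ofNat 0, .ofNat 0, .ofNat 0], [.ofNat 0, .ofNat 0, .ofNat 0, .ofNat 0, .ofNat 0,
  .ofNat 1, .ofNat 1, .ofNat 0, .negSucc 0, .ofNat 0, .ofNat 0, .ofNat 0, .ofNat 1, .ofNat 0, .negSucc 0, .ofNat 0,
  .ofNat 0, .ofNat 0, .ofNat 0, .ofNat 1, .ofNat 0, .ofNat 0, .ofNat 1, .ofNat 0], [.ofNat 0, .ofNat 0, .ofNat 0, .ofNat
  0, .ofNat 0, .ofNat 0, .ofNat 0, .ofNat 0, .ofNat 0, .ofNat 0, .ofNat 0, .ofNat 0, .ofNat 0, .ofNat 0, .ofNat 0,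
  .ofNat 0, .negSucc 0, .negSucc 0, .negSucc 0, .negSucc 0, .negSucc 0, .ofNat 0, .negSucc 0, .ofNat 1], [.ofNat 0,
  .ofNat 0, .ofNat 0, .ofNat 0, .ofNat 0, .ofNat 0, .ofNat 0, .ofNat 0, .ofNat 1, .ofNat 0, .ofNat 0, .ofNat 0, .ofNat
  0, .ofNat 0, .ofNat 0, .ofNat 0, .ofNat 0, .ofNat 0, .ofNat 0, .ofNat 0, .ofNat 0, .ofNat 0, .ofNat 0, .ofNat 0],
  [.ofNat 0, .ofNat 0, .ofNat 0, .ofNat 0, .ofNat 0, .ofNat 0, .ofNat 0, .ofNat 0, .ofNat 0, .ofNat 0, .ofNat 0, .ofNat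
  0, .ofNat 0, .ofNat 0, .ofNat 0, .ofNat 0, .ofNat 0, .ofNat 0, .ofNat 0, .ofNat 0, .ofNat 0, .ofNat 0, .ofNat 0,
  .negSucc 0], [.ofNat 0, .ofNat 1, .ofNat 0, .ofNat 0, .ofNat 0, .ofNat 0, .ofNat 0, .ofNat 0, .ofNat 0, .ofNat 0,
  .ofNat 0, .ofNat 0, .ofNat 0, .ofNat 0, .ofNat 0, .ofNat 0, .ofNat 0, .ofNat 0, .ofNat 0, .ofNat 0, .ofNat 0, .ofNat
  0, .ofNat 0, .ofNat 0], [.ofNat 0, .ofNat 0, .ofNat 0, .ofNat 0, .ofNat 0, .ofNat 0, .ofNat 0, .ofNat 0, .ofNat 0,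
  .ofNat 0, .ofNat 1, .negSucc 0, .ofNat 1, .ofNat 0, .negSucc 0, .negSucc 0, .ofNat 0, .negSucc 0, .ofNat 0, .ofNat 0,
  .negSucc 0, .ofNat 0, .ofNat 0, .ofNat 0], [.ofNat 0, .ofNat 0, .ofNat 0, .ofNat 0, .ofNat 0, .ofNat 1, .ofNat 0,
  .ofNat 0, .ofNat 0, .ofNat 0, .ofNat 0, .ofNat 0, .ofNat 0, .ofNat 0, .ofNat 0, .ofNat 0, .ofNat 0, .ofNat 0, .ofNat
  0, .ofNat 0, .ofNat 0, .ofNat 0, .ofNat 0, .ofNat 0], [.ofNat 0, .ofNat 0, .ofNat 0, .ofNat 0, .ofNat 0, .ofNat 0,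
  .ofNat 0, .negSucc 0, .ofNat 0, .ofNat 0, .ofNat 0, .ofNat 0, .ofNat 0, .ofNat 0, .ofNat 0, .ofNat 0, .ofNat 0, .ofNat
  0, .ofNat 0, .ofNat 0, .ofNat 0, .ofNat 0, .ofNat 0, .ofNat 0], [.ofNat 0, .ofNat 0, .ofNat 0, .ofNat 0, .ofNat 0,
  .ofNat 0, .ofNat 0, .ofNat 0, .ofNat 0, .ofNat 0, .ofNat 0, .ofNat 0, .ofNat 0, .ofNat 0, .negSucc 0, .ofNat 0, .ofNat
  0, .ofNat 0, .ofNat 0, .ofNat 0, .ofNat 0, .ofNat 0, .ofNat 0, .ofNat 0], [.ofNat 0, .ofNat 0, .ofNat 0, .ofNat 0,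
  .ofNat 0, .ofNat 0, .ofNat 0, .ofNat 0, .ofNat 0, .ofNat 0, .ofNat 0, .ofNat 0, .ofNat 0, .ofNat 0, .ofNat 0, .ofNat
  0, .ofNat 0, .ofNat 0, .ofNat 0, .ofNat 0, .ofNat 0, .ofNat 0, .negSucc 0, .ofNat 0], [.ofNat 0, .ofNat 0, .ofNat 0,
  .ofNat 0, .ofNat 0, .ofNat 0, .ofNat 0, .ofNat 0, .ofNat 0, .ofNat 0, .ofNat 0, .ofNat 0, .ofNat 0, .ofNat 0, .ofNat
  0, .ofNat 0, .ofNat 0, .ofNat 0, .ofNat 0, .ofNat 1, .ofNat 0, .ofNat 0, .ofNat 0, .ofNat 0], [.ofNat 0, .ofNat 0,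
  .ofNat 0, .ofNat 0, .ofNat 0, .ofNat 0, .ofNat 0, .ofNat 0, .ofNat 0, .ofNat 0, .ofNat 0, .ofNat 0, .ofNat 0, .ofNat
  0, .ofNat 0, .ofNat 0, .ofNat 0, .negSucc 0, .ofNat 0, .ofNat 0, .ofNat 0, .ofNat 0, .ofNat 0, .ofNat 0], [.ofNat 0,
  .ofNat 0, .ofNat 0, .ofNat 0, .ofNat 0, .ofNat 0, .ofNat 0, .ofNat 0, .ofNat 0, .ofNat 1, .ofNat 0, .ofNat 0, .ofNat
  0, .ofNat 0, .ofNat 0, .ofNat 0, .ofNat 0, .ofNat 0, .ofNat 0, .ofNat 0, .ofNat 0, .ofNat 0, .ofNat 0, .ofNat 0],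
  [.ofNat 0, .ofNat 0, .ofNat 0, .ofNat 0, .ofNat 0, .ofNat 0, .ofNat 0, .ofNat 0, .ofNat 0, .ofNat 0, .ofNat 0, .ofNat
  0, .ofNat 0, .ofNat 1, .ofNat 0, .ofNat 0, .ofNat 0, .ofNat 0, .ofNat 0, .ofNat 0, .ofNat 0, .ofNat 0, .ofNat 0,
  .ofNat 0], [.ofNat 0, .ofNat 0, .ofNat 0, .ofNat 0, .ofNat 0, .ofNat 0, .ofNat 0, .ofNat 0, .ofNat 0, .ofNat 0, .ofNat
  0, .ofNat 0, .ofNat 0, .ofNat 0, .ofNat 0, .ofNat 0, .ofNat 0, .ofNat 0, .ofNat 0, .ofNat 0, .ofNat 0, .negSucc 0,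
  .ofNat 0, .ofNat 0], [.ofNat 1, .negSucc 0, .ofNat 0, .ofNat 1, .negSucc 0, .negSucc 0, .negSucc 0, .ofNat 1, .ofNat
  0, .ofNat 0, .negSucc 0, .ofNat 0, .negSucc 0, .negSucc 0, .ofNat 0, .negSucc 0, .ofNat 1, .ofNat 1, .ofNat 0, .ofNat
  0, .ofNat 0, .negSucc 0, .ofNat 1, .negSucc 0], [.ofNat 1, .negSucc 0, .ofNat 0, .ofNat 1, .negSucc 0, .ofNat 0,
  .negSucc 0, .ofNat 0, .ofNat 0, .negSucc 0, .negSucc 0, .ofNat 1, .negSucc 0, .ofNat 0, .ofNat 1, .ofNat 0, .ofNat 1,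
  .ofNat 1, .ofNat 1, .ofNat 0, .ofNat 1, .ofNat 0, .ofNat 1, .negSucc 0], [.negSucc 0, .ofNat 0, .ofNat 1, .ofNat 0,
  .ofNat 0, .ofNat 0, .ofNat 1, .ofNat 0, .negSucc 0, .ofNat 1, .ofNat 0, .negSucc 0, .ofNat 1, .negSucc 0, .negSucc 0,
  .ofNat 0, .ofNat 0, .ofNat 0, .negSucc 0, .ofNat 0, .negSucc 0, .ofNat 0, .ofNat 0, .ofNat 0], [.ofNat 0, .ofNat 0,
  .negSucc 0, .negSucc 0, .ofNat 0, .ofNat 0, .ofNat 0, .ofNat 0, .ofNat 0, .ofNat 0, .ofNat 0, .ofNat 1, .ofNat 0,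
  .ofNat 0, .ofNat 0, .ofNat 1, .negSucc 0, .ofNat 0, .ofNat 0, .ofNat 0, .ofNat 0, .ofNat 0, .ofNat 0, .ofNat 1],
  [.ofNat 0, .ofNat 0, .ofNat 0, .ofNat 0, .ofNat 0, .ofNat 0, .ofNat 1, .ofNat 0, .ofNat 0, .ofNat 0, .ofNat 0, .ofNat
  0, .ofNat 0, .ofNat 0, .ofNat 0, .ofNat 0, .ofNat 0, .ofNat 0, .ofNat 0, .ofNat 0, .ofNat 0, .ofNat 0, .ofNat 0,
  .ofNat 0], [.ofNat 0, .ofNat 0, .ofNat 0, .ofNat 0, .ofNat 0, .ofNat 0, .ofNat 0, .ofNat 0, .ofNat 0, .ofNat 0, .ofNat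
  0, .ofNat 0, .ofNat 0, .ofNat 0, .ofNat 0, .ofNat 0, .negSucc 0, .ofNat 0, .ofNat 0, .ofNat 0, .ofNat 0, .ofNat 0,
  .ofNat 0, .ofNat 0], [.ofNat 0, .ofNat 1, .ofNat 0, .ofNat 0, .ofNat 1, .ofNat 0, .ofNat 0, .ofNat 0, .ofNat 1,
  .negSucc 0, .ofNat 0, .ofNat 0, .ofNat 0, .ofNat 1, .ofNat 1, .ofNat 0, .ofNat 0, .negSucc 0, .ofNat 0, .negSucc 0,
  .ofNat 0, .ofNat 1, .negSucc 0, .ofNat 1], [.negSucc 0, .ofNat 0, .ofNat 1, .ofNat 0, .ofNat 0, .ofNat 0, .ofNat 0,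
  .ofNat 0, .ofNat 0, .ofNat 1, .ofNat 1, .negSucc 0, .ofNat 1, .negSucc 0, .negSucc 0, .negSucc 0, .ofNat 0, .ofNat 0,
  .ofNat 0, .ofNat 0, .negSucc 0, .ofNat 0, .ofNat 0, .negSucc 0], [.ofNat 0, .ofNat 1, .ofNat 0, .negSucc 0, .ofNat 0,
  .ofNat 0, .ofNat 0, .ofNat 0, .ofNat 0, .ofNat 0, .ofNat 0, .ofNat 0, .ofNat 0, .ofNat 0, .ofNat 0, .ofNat 0, .ofNat
  0, .ofNat 0, .ofNat 0, .ofNat 0, .ofNat 0, .ofNat 0, .ofNat 0, .ofNat 0], [.ofNat 0, .ofNat 0, .ofNat 0, .ofNat 0,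
  .ofNat 0, .ofNat 0, .ofNat 0, .ofNat 0, .ofNat 0, .ofNat 0, .ofNat 1, .ofNat 0, .ofNat 0, .ofNat 0, .ofNat 0, .ofNat
  0, .ofNat 0, .ofNat 0, .ofNat 0, .ofNat 0, .ofNat 0, .ofNat 0, .ofNat 0, .ofNat 0], [.ofNat 0, .ofNat 0, .ofNat 0,
  .ofNat 0, .ofNat 0, .ofNat 0, .ofNat 0, .ofNat 0, .ofNat 0, .ofNat 0, .ofNat 0, .negSucc 0, .ofNat 0, .ofNat 0, .ofNat
  0, .ofNat 0, .ofNat 0, .ofNat 0, .ofNat 0, .ofNat 0, .ofNat 0, .ofNat 0, .ofNat 0, .ofNat 0], [.ofNat 0, .ofNat 0,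
  .negSucc 0, .ofNat 0, .ofNat 1, .ofNat 1, .ofNat 0, .ofNat 0, .ofNat 0, .negSucc 0, .ofNat 0, .ofNat 1, .ofNat 0,
  .ofNat 1, .ofNat 1, .ofNat 1, .ofNat 0, .ofNat 0, .ofNat 0, .ofNat 0, .ofNat 1, .ofNat 1, .ofNat 0, .ofNat 1], [.ofNat
  0, .ofNat 0, .ofNat 0, .ofNat 0, .ofNat 1, .ofNat 0, .ofNat 0, .ofNat 0, .ofNat 0, .ofNat 0, .ofNat 0, .ofNat 0,
  .ofNat 0, .ofNat 0, .ofNat 0, .ofNat 0, .ofNat 0, .ofNat 0, .ofNat 0, .ofNat 0, .ofNat 0, .ofNat 0, .ofNat 0, .ofNat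
  0], [.ofNat 0, .ofNat 0, .ofNat 1, .ofNat 1, .negSucc 0, .negSucc 0, .negSucc 0, .ofNat 1, .ofNat 0, .ofNat 0,
  .negSucc 0, .ofNat 0, .negSucc 0, .negSucc 0, .ofNat 0, .negSucc 0, .ofNat 1, .ofNat 1, .ofNat 0, .negSucc 0, .ofNat
  0, .ofNat 0, .ofNat 0, .negSucc 0], [.ofNat 0, .ofNat 0, .ofNat 0, .negSucc 0, .ofNat 0, .ofNat 0, .ofNat 0, .negSucc
  0, .ofNat 0, .ofNat 0, .ofNat 1, .ofNat 0, .ofNat 1, .ofNat 0, .ofNat 0, .ofNat 0, .ofNat 0, .ofNat 0, .ofNat 1,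
  .ofNat 1, .ofNat 0, .ofNat 0, .ofNat 0, .ofNat 0], [.ofNat 0, .ofNat 0, .ofNat 0, .ofNat 0, .ofNat 0, .ofNat 0, .ofNat
  0, .ofNat 0, .ofNat 0, .ofNat 0, .ofNat 0, .ofNat 0, .negSucc 0, .ofNat 0, .ofNat 0, .ofNat 0, .ofNat 0, .ofNat 0,
  .ofNat 0, .ofNat 0, .ofNat 0, .ofNat 0, .ofNat 0, .ofNat 0], [.ofNat 0, .ofNat 0, .ofNat 0, .ofNat 0, .ofNat 0, .ofNat
  0, .ofNat 0, .ofNat 0, .ofNat 0, .ofNat 0, .ofNat 0, .ofNat 0, .ofNat 0, .ofNat 0, .ofNat 0, .ofNat 0, .ofNat 0,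
  .ofNat 0, .ofNat 0, .ofNat 0, .ofNat 1, .ofNat 0, .ofNat 0, .ofNat 0], [.ofNat 0, .ofNat 0, .ofNat 0, .ofNat 0, .ofNat
  1, .ofNat 0, .ofNat 0, .ofNat 0, .ofNat 0, .ofNat 0, .ofNat 0, .ofNat 0, .ofNat 0, .ofNat 1, .ofNat 1, .ofNat 1,
  .ofNat 0, .ofNat 0, .ofNat 0, .ofNat 0, .ofNat 0, .ofNat 1, .negSucc 0, .ofNat 1], [.negSucc 0, .ofNat 0, .ofNat 0,
  .ofNat 0, .ofNat 0, .ofNat 0, .ofNat 0, .ofNat 0, .ofNat 0, .ofNat 0, .ofNat 0, .ofNat 0, .ofNat 0, .ofNat 0, .ofNat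
  0, .ofNat 0, .ofNat 0, .ofNat 0, .ofNat 0, .ofNat 0, .ofNat 0, .ofNat 0, .ofNat 0, .ofNat 0], [.ofNat 0, .ofNat 0,
  .ofNat 0, .negSucc 0, .ofNat 0, .ofNat 0, .ofNat 1, .ofNat 0, .negSucc 0, .ofNat 1, .ofNat 0, .ofNat 0, .ofNat 1,
  .negSucc 0, .negSucc 0, .ofNat 0, .ofNat 0, .ofNat 0, .ofNat 0, .ofNat 1, .ofNat 0, .negSucc 0, .ofNat 1, .ofNat 0],
  [.ofNat 1, .negSucc 0, .ofNat 0, .ofNat 1, .negSucc 0, .negSucc 0, .negSucc 0, .ofNat 1, .ofNat 0, .ofNat 0, .negSucc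
  0, .ofNat 1, .negSucc 1, .ofNat 0, .ofNat 1, .ofNat 0, .ofNat 0, .ofNat 1, .ofNat 0, .negSucc 0, .ofNat 0, .ofNat 0,
  .ofNat 0, .ofNat 0], [.ofNat 0, .ofNat 0, .ofNat 0, .ofNat 0, .ofNat 0, .ofNat 0, .ofNat 0, .negSucc 0, .ofNat 1,
  .negSucc 0, .ofNat 0, .ofNat 0, .ofNat 0, .ofNat 1, .ofNat 1, .ofNat 0, .ofNat 0, .ofNat 0, .ofNat 1, .ofNat 0, .ofNat
  1, .ofNat 0, .ofNat 0, .ofNat 0]]

/-- Data. -/
def ca5r : List Row := [⟨.ofNat 115015223502790802928172800, 1, .ofNat 1, []⟩, ⟨.ofNat 38338407834263600976057600, 1,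
  .ofNat 2, [.ofNat 1]⟩, ⟨.ofNat 1666887297141895694611200, 1, .ofNat 9, [.ofNat 4, .ofNat 2]⟩, ⟨.ofNat
  36769572731071228557600, 2, .ofNat 69, [.negSucc 29, .ofNat 31, .negSucc 32]⟩, ⟨.ofNat 37867171917073354783200, 2,
  .ofNat 68, [.ofNat 30, .negSucc 30, .ofNat 33, .negSucc 0]⟩, ⟨.ofNat 2739327330171263963040, 1, .ofNat 268, [.ofNat
  70, .ofNat 17, .ofNat 77, .ofNat 20, .negSucc 86]⟩, ⟨.ofNat 394020891201104949600, 2, .ofNat 752, [.ofNat 170, .ofNat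
  95, .negSucc 188, .ofNat 344, .negSucc 76, .negSucc 315]⟩, ⟨.ofNat 9303099220823576832, 1, .ofNat 4658, [.negSucc 67,
  .negSucc 585, .ofNat 651, .negSucc 2219, .ofNat 524, .ofNat 1606, .negSucc 519]⟩, ⟨.ofNat 25979518087887422592, 1,
  .ofNat 3185, [.ofNat 24, .negSucc 1291, .ofNat 707, .negSucc 1089, .negSucc 746, .ofNat 932, .ofNat 1495, .ofNat
  1541]⟩, ⟨.ofNat 3597598483040062650240, 1, .ofNat 278, [.ofNat 100, .ofNat 84, .negSucc 88, .ofNat 138, .ofNat 15,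
  .ofNat 84, .negSucc 48, .negSucc 88, .ofNat 89]⟩, ⟨.ofNat 1865918616203614583520, 1, .ofNat 345, [.ofNat 80, .ofNat
  35, .negSucc 38, .ofNat 115, .negSucc 56, .negSucc 79, .ofNat 39, .ofNat 99, .negSucc 75, .negSucc 94]⟩, ⟨.ofNat
  16449263385466897440, 1, .ofNat 4020, [.negSucc 331, .ofNat 977, .ofNat 1331, .ofNat 1717, .negSucc 74, .negSucc 739,
  .ofNat 1081, .negSucc 306, .ofNat 168, .ofNat 947, .ofNat 1935]⟩, ⟨.ofNat 11480215071107105505, 2, .ofNat 5218,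
  [.ofNat 446, .ofNat 715, .negSucc 734, .ofNat 2047, .negSucc 134, .negSucc 1331, .negSucc 1184, .ofNat 491, .ofNat
  1346, .ofNat 661, .negSucc 1734, .ofNat 2018]⟩, ⟨.ofNat 315282959163351981711, 1, .ofNat 960, [.negSucc 141, .negSucc
  82, .ofNat 135, .negSucc 166, .negSucc 464, .negSucc 107, .negSucc 134, .ofNat 269, .negSucc 177, .ofNat 307, .negSucc
  144, .negSucc 81, .ofNat 238]⟩, ⟨.ofNat 162726688600439732496, 1, .ofNat 1425, [.negSucc 0, .ofNat 166, .negSucc 269,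
  .ofNat 49, .negSucc 494, .ofNat 216, .ofNat 270, .ofNat 317, .negSucc 213, .ofNat 241, .ofNat 290, .negSucc 405,
  .ofNat 379, .negSucc 494]⟩, ⟨.ofNat 909355024531869093360, 1, .ofNat 620, [.ofNat 145, .ofNat 110, .ofNat 90, .ofNat
  211, .negSucc 144, .negSucc 71, .negSucc 89, .ofNat 39, .ofNat 154, .negSucc 100, .ofNat 110, .negSucc 153, .ofNat
  101, .negSucc 144, .negSucc 164]⟩, ⟨.ofNat 5753062400099579978400, 1, .ofNat 204, [.negSucc 40, .negSucc 9, .negSucc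
  35, .negSucc 46, .negSucc 9, .negSucc 11, .ofNat 36, .ofNat 15, .ofNat 37, .ofNat 37, .ofNat 41, .ofNat 14, .negSucc
  36, .ofNat 41, .negSucc 35, .ofNat 41]⟩, ⟨.ofNat 2023490913138472957920, 1, .ofNat 392, [.ofNat 57, .ofNat 88,
  .negSucc 35, .ofNat 51, .ofNat 88, .negSucc 11, .ofNat 36, .ofNat 15, .ofNat 37, .negSucc 60, .ofNat 41, .negSucc 83,
  .ofNat 61, .ofNat 41, .negSucc 35, .negSucc 56, .negSucc 187]⟩, ⟨.ofNat 16525175790630862489680, 1, .ofNat 145,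
  [.negSucc 21, .ofNat 22, .negSucc 8, .ofNat 49, .ofNat 22, .negSucc 2, .ofNat 9, .ofNat 40, .negSucc 26, .ofNat 21,
  .negSucc 25, .negSucc 20, .negSucc 20, .negSucc 25, .negSucc 8, .ofNat 22, .negSucc 46, .negSucc 46]⟩, ⟨.ofNat
  159743365976098337400240, 1, .ofNat 48, [.negSucc 9, .ofNat 10, .ofNat 9, .ofNat 15, .negSucc 1, .negSucc 8, .negSucc
  8, .ofNat 8, .ofNat 7, .negSucc 4, .negSucc 1, .ofNat 5, .negSucc 6, .negSucc 1, .ofNat 9, .negSucc 1, .negSucc 12,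
  .negSucc 12, .negSucc 12]⟩, ⟨.ofNat 106495577317398891600160, 1, .ofNat 60, [.ofNat 5, .negSucc 4, .ofNat 9, .ofNat 0,
  .negSucc 1, .negSucc 8, .negSucc 8, .ofNat 8, .negSucc 7, .ofNat 10, .ofNat 13, .negSucc 9, .ofNat 8, .negSucc 1,
  .negSucc 5, .negSucc 1, .negSucc 12, .negSucc 12, .negSucc 12, .negSucc 11]⟩, ⟨.ofNat 76068269512427779714400, 1,
  .ofNat 72, [.ofNat 13, .negSucc 12, .negSucc 8, .negSucc 17, .negSucc 15, .negSucc 8, .ofNat 9, .negSucc 7, .ofNat 8,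
  .ofNat 8, .negSucc 12, .negSucc 7, .negSucc 7, .negSucc 15, .negSucc 11, .negSucc 15, .negSucc 4, .negSucc 4, .negSucc
  4, .ofNat 12, .ofNat 12]⟩, ⟨.ofNat 912819234149133356572800, 1, .ofNat 21, [.negSucc 1, .ofNat 2, .ofNat 3, .negSucc
  0, .ofNat 3, .negSucc 3, .negSucc 2, .negSucc 1, .ofNat 2, .ofNat 2, .ofNat 2, .negSucc 1, .negSucc 1, .ofNat 3,
  .ofNat 4, .ofNat 3, .negSucc 2, .negSucc 2, .negSucc 2, .negSucc 3, .negSucc 3, .ofNat 4]⟩, ⟨.ofNat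
  1277946927808786699201920, 1, .ofNat 18, [.negSucc 1, .ofNat 2, .ofNat 3, .ofNat 5, .negSucc 2, .ofNat 2, .negSucc 2,
  .negSucc 1, .ofNat 2, .ofNat 2, .ofNat 2, .negSucc 1, .negSucc 1, .negSucc 2, .negSucc 1, .negSucc 2, .ofNat 3, .ofNat
  3, .ofNat 3, .ofNat 2, .ofNat 2, .negSucc 1, .ofNat 3]⟩]

/-- The data of the component. -/
def ca5 : CD := ⟨.ofNat 30, .ofNat 766768156685272019521152, .ofNat 414054804610046890541422080, ca5P, ca5b, ca5n, ca5bT, ca5nT, ca5r⟩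

theorem ca5A : chkA 40 24 ca5 = true :=
  and2 (and2 (and2 (by decide +kernel) (by decide +kernel)) (by decide +kernel))
    (all3 (by decide +kernel) (by decide +kernel) (by decide +kernel))

theorem ca5B : chkB 40 ca5 = true :=
  all4 (by decide +kernel) (by decide +kernel) (by decide +kernel) (by decide +kernel)

theorem ca5C : chkC 40 24 ca5 = true :=
  and2 (all3 (by decide +kernel) (by decide +kernel) (by decide +kernel)) (by decide +kernel)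

theorem ca5D : chkD ca5 = true :=
  enum3 rfl (by decide +kernel) (by decide +kernel)
    (enumV_mk (enum3 rfl (by decide +kernel) (by decide +kernel)
      (enumV_mk (enum3 rfl (by decide +kernel) (by decide +kernel) (by decide +kernel) (by decide +kernel))) (by decide +kernel)))
    (by decide +kernel)

theorem ca5_is : IsCD 40 24 ca5 := isCD ca5A ca5B ca5C

end Pool.Agent.Helper60.E8Z
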