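import Pool.Agent.Helper60.E8Z.Comp

/-!
# Project E8Z, (E2): the component of dimension 15 of the fixed vectors of `t ^ 5`
-/

set_option autoImplicit false

namespace Pool.Agent.Helper60.E8Z

/-- Data. -/
def cb5P : List (List ℤ) := [[.ofNat 9, .ofNat 1, .ofNat 1, .ofNat 1, .negSucc 2, .negSucc 2, .negSucc 2, .ofNat 1,
  .ofNat 1, .ofNat 1, .negSucc 2, .ofNat 1, .ofNat 1, .negSucc 2, .ofNat 1, .ofNat 1, .negSucc 2, .ofNat 1, .negSucc 2,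
  .ofNat 1, .negSucc 2, .ofNat 1, .ofNat 1, .ofNat 1, .ofNat 1, .ofNat 1, .negSucc 2, .negSucc 2, .ofNat 1, .negSucc 2,
  .ofNat 1, .ofNat 1, .ofNat 1, .ofNat 1, .negSucc 2, .ofNat 1, .ofNat 1, .ofNat 1, .ofNat 1, .ofNat 1], [.ofNat 1,
  .ofNat 9, .ofNat 1, .ofNat 1, .ofNat 1, .negSucc 2, .negSucc 2, .negSucc 2, .ofNat 1, .ofNat 1, .ofNat 1, .negSucc 2,
  .ofNat 1, .ofNat 1, .negSucc 2, .ofNat 1, .ofNat 1, .negSucc 2, .ofNat 1, .negSucc 2, .negSucc 2, .negSucc 2, .ofNat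
  1, .ofNat 1, .ofNat 1, .ofNat 1, .ofNat 1, .negSucc 2, .negSucc 2, .ofNat 1, .ofNat 1, .ofNat 1, .ofNat 1, .ofNat 1,
  .ofNat 1, .negSucc 2, .ofNat 1, .ofNat 1, .ofNat 1, .ofNat 1], [.ofNat 1, .ofNat 1, .ofNat 9, .ofNat 1, .ofNat 1,
  .ofNat 1, .negSucc 2, .negSucc 2, .negSucc 2, .ofNat 1, .negSucc 2, .ofNat 1, .negSucc 2, .ofNat 1, .ofNat 1, .negSucc
  2, .ofNat 1, .ofNat 1, .negSucc 2, .ofNat 1, .ofNat 1, .negSucc 2, .negSucc 2, .ofNat 1, .ofNat 1, .ofNat 1, .ofNat 1,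
  .ofNat 1, .negSucc 2, .negSucc 2, .ofNat 1, .ofNat 1, .ofNat 1, .ofNat 1, .ofNat 1, .ofNat 1, .negSucc 2, .ofNat 1,
  .ofNat 1, .ofNat 1], [.ofNat 1, .ofNat 1, .ofNat 1, .ofNat 9, .ofNat 1, .ofNat 1, .ofNat 1, .negSucc 2, .negSucc 2,
  .negSucc 2, .ofNat 1, .negSucc 2, .ofNat 1, .negSucc 2, .ofNat 1, .ofNat 1, .negSucc 2, .ofNat 1, .ofNat 1, .negSucc
  2, .negSucc 2, .ofNat 1, .negSucc 2, .negSucc 2, .ofNat 1, .ofNat 1, .ofNat 1, .ofNat 1, .ofNat 1, .negSucc 2, .ofNat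
  1, .ofNat 1, .ofNat 1, .ofNat 1, .ofNat 1, .ofNat 1, .ofNat 1, .negSucc 2, .ofNat 1, .ofNat 1], [.negSucc 2, .ofNat 1,
  .ofNat 1, .ofNat 1, .ofNat 9, .ofNat 1, .ofNat 1, .ofNat 1, .negSucc 2, .negSucc 2, .negSucc 2, .ofNat 1, .negSucc 2,
  .ofNat 1, .negSucc 2, .ofNat 1, .ofNat 1, .negSucc 2, .ofNat 1, .ofNat 1, .negSucc 2, .negSucc 2, .ofNat 1, .negSucc
  2, .negSucc 2, .ofNat 1, .ofNat 1, .ofNat 1, .ofNat 1, .ofNat 1, .ofNat 1, .ofNat 1, .ofNat 1, .ofNat 1, .ofNat 1,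
  .ofNat 1, .ofNat 1, .ofNat 1, .negSucc 2, .ofNat 1], [.negSucc 2, .negSucc 2, .ofNat 1, .ofNat 1, .ofNat 1, .ofNat 9,
  .ofNat 1, .ofNat 1, .ofNat 1, .negSucc 2, .ofNat 1, .negSucc 2, .ofNat 1, .negSucc 2, .ofNat 1, .negSucc 2, .ofNat 1,
  .ofNat 1, .negSucc 2, .ofNat 1, .ofNat 1, .negSucc 2, .negSucc 2, .ofNat 1, .negSucc 2, .negSucc 2, .ofNat 1, .ofNat
  1, .ofNat 1, .ofNat 1, .ofNat 1, .ofNat 1, .ofNat 1, .ofNat 1, .ofNat 1, .ofNat 1, .ofNat 1, .ofNat 1, .ofNat 1,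
  .negSucc 2], [.negSucc 2, .negSucc 2, .negSucc 2, .ofNat 1, .ofNat 1, .ofNat 1, .ofNat 9, .ofNat 1, .ofNat 1, .ofNat
  1, .ofNat 1, .ofNat 1, .negSucc 2, .ofNat 1, .negSucc 2, .ofNat 1, .negSucc 2, .ofNat 1, .ofNat 1, .negSucc 2, .ofNat
  1, .ofNat 1, .negSucc 2, .negSucc 2, .ofNat 1, .negSucc 2, .negSucc 2, .ofNat 1, .ofNat 1, .ofNat 1, .negSucc 2,
  .ofNat 1, .ofNat 1, .ofNat 1, .ofNat 1, .ofNat 1, .ofNat 1, .ofNat 1, .ofNat 1, .ofNat 1], [.ofNat 1, .negSucc 2,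
  .negSucc 2, .negSucc 2, .ofNat 1, .ofNat 1, .ofNat 1, .ofNat 9, .ofNat 1, .ofNat 1, .negSucc 2, .ofNat 1, .ofNat 1,
  .negSucc 2, .ofNat 1, .negSucc 2, .ofNat 1, .negSucc 2, .ofNat 1, .ofNat 1, .ofNat 1, .ofNat 1, .ofNat 1, .negSucc 2,
  .negSucc 2, .ofNat 1, .negSucc 2, .negSucc 2, .ofNat 1, .ofNat 1, .ofNat 1, .negSucc 2, .ofNat 1, .ofNat 1, .ofNat 1,
  .ofNat 1, .ofNat 1, .ofNat 1, .ofNat 1, .ofNat 1], [.ofNat 1, .ofNat 1, .negSucc 2, .negSucc 2, .negSucc 2, .ofNat 1,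
  .ofNat 1, .ofNat 1, .ofNat 9, .ofNat 1, .ofNat 1, .negSucc 2, .ofNat 1, .ofNat 1, .negSucc 2, .ofNat 1, .negSucc 2,
  .ofNat 1, .negSucc 2, .ofNat 1, .ofNat 1, .ofNat 1, .ofNat 1, .ofNat 1, .negSucc 2, .negSucc 2, .ofNat 1, .negSucc 2,
  .negSucc 2, .ofNat 1, .ofNat 1, .ofNat 1, .negSucc 2, .ofNat 1, .ofNat 1, .ofNat 1, .ofNat 1, .ofNat 1, .ofNat 1,
  .ofNat 1], [.ofNat 1, .ofNat 1, .ofNat 1, .negSucc 2, .negSucc 2, .negSucc 2, .ofNat 1, .ofNat 1, .ofNat 1, .ofNat 9,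
  .ofNat 1, .ofNat 1, .negSucc 2, .ofNat 1, .ofNat 1, .negSucc 2, .ofNat 1, .negSucc 2, .ofNat 1, .negSucc 2, .ofNat 1,
  .ofNat 1, .ofNat 1, .ofNat 1, .ofNat 1, .negSucc 2, .negSucc 2, .ofNat 1, .negSucc 2, .negSucc 2, .ofNat 1, .ofNat 1,
  .ofNat 1, .negSucc 2, .ofNat 1, .ofNat 1, .ofNat 1, .ofNat 1, .ofNat 1, .ofNat 1], [.negSucc 2, .ofNat 1, .negSucc 2,
  .ofNat 1, .negSucc 2, .ofNat 1, .ofNat 1, .negSucc 2, .ofNat 1, .ofNat 1, .ofNat 9, .negSucc 2, .ofNat 1, .ofNat 1,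
  .ofNat 1, .negSucc 2, .ofNat 1, .ofNat 1, .ofNat 1, .negSucc 2, .negSucc 2, .ofNat 1, .ofNat 1, .ofNat 1, .ofNat 1,
  .ofNat 1, .ofNat 1, .ofNat 1, .ofNat 1, .ofNat 1, .negSucc 2, .ofNat 1, .negSucc 2, .negSucc 2, .ofNat 1, .ofNat 1,
  .ofNat 1, .ofNat 1, .ofNat 1, .negSucc 2], [.ofNat 1, .negSucc 2, .ofNat 1, .negSucc 2, .ofNat 1, .negSucc 2, .ofNat
  1, .ofNat 1, .negSucc 2, .ofNat 1, .negSucc 2, .ofNat 9, .negSucc 2, .ofNat 1, .ofNat 1, .ofNat 1, .negSucc 2, .ofNat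
  1, .ofNat 1, .ofNat 1, .ofNat 1, .negSucc 2, .ofNat 1, .ofNat 1, .ofNat 1, .ofNat 1, .ofNat 1, .ofNat 1, .ofNat 1,
  .ofNat 1, .negSucc 2, .negSucc 2, .ofNat 1, .negSucc 2, .negSucc 2, .ofNat 1, .ofNat 1, .ofNat 1, .ofNat 1, .ofNat 1],
  [.ofNat 1, .ofNat 1, .negSucc 2, .ofNat 1, .negSucc 2, .ofNat 1, .negSucc 2, .ofNat 1, .ofNat 1, .negSucc 2, .ofNat 1,
  .negSucc 2, .ofNat 9, .negSucc 2, .ofNat 1, .ofNat 1, .ofNat 1, .negSucc 2, .ofNat 1, .ofNat 1, .ofNat 1, .ofNat 1,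
  .negSucc 2, .ofNat 1, .ofNat 1, .ofNat 1, .ofNat 1, .ofNat 1, .ofNat 1, .ofNat 1, .ofNat 1, .negSucc 2, .negSucc 2,
  .ofNat 1, .negSucc 2, .negSucc 2, .ofNat 1, .ofNat 1, .ofNat 1, .ofNat 1], [.negSucc 2, .ofNat 1, .ofNat 1, .negSucc
  2, .ofNat 1, .negSucc 2, .ofNat 1, .negSucc 2, .ofNat 1, .ofNat 1, .ofNat 1, .ofNat 1, .negSucc 2, .ofNat 9, .negSucc
  2, .ofNat 1, .ofNat 1, .ofNat 1, .negSucc 2, .ofNat 1, .ofNat 1, .ofNat 1, .ofNat 1, .negSucc 2, .ofNat 1, .ofNat 1,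
  .ofNat 1, .ofNat 1, .ofNat 1, .ofNat 1, .ofNat 1, .ofNat 1, .negSucc 2, .negSucc 2, .ofNat 1, .negSucc 2, .negSucc 2,
  .ofNat 1, .ofNat 1, .ofNat 1], [.ofNat 1, .negSucc 2, .ofNat 1, .ofNat 1, .negSucc 2, .ofNat 1, .negSucc 2, .ofNat 1,
  .negSucc 2, .ofNat 1, .ofNat 1, .ofNat 1, .ofNat 1, .negSucc 2, .ofNat 9, .negSucc 2, .ofNat 1, .ofNat 1, .ofNat 1,
  .negSucc 2, .ofNat 1, .ofNat 1, .ofNat 1, .ofNat 1, .negSucc 2, .ofNat 1, .ofNat 1, .ofNat 1, .ofNat 1, .ofNat 1,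
  .ofNat 1, .ofNat 1, .ofNat 1, .negSucc 2, .negSucc 2, .ofNat 1, .negSucc 2, .negSucc 2, .ofNat 1, .ofNat 1], [.ofNat
  1, .ofNat 1, .negSucc 2, .ofNat 1, .ofNat 1, .negSucc 2, .ofNat 1, .negSucc 2, .ofNat 1, .negSucc 2, .negSucc 2,
  .ofNat 1, .ofNat 1, .ofNat 1, .negSucc 2, .ofNat 9, .negSucc 2, .ofNat 1, .ofNat 1, .ofNat 1, .ofNat 1, .ofNat 1,
  .ofNat 1, .ofNat 1, .ofNat 1, .negSucc 2, .ofNat 1, .ofNat 1, .ofNat 1, .ofNat 1, .ofNat 1, .ofNat 1, .ofNat 1, .ofNat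
  1, .negSucc 2, .negSucc 2, .ofNat 1, .negSucc 2, .negSucc 2, .ofNat 1], [.negSucc 2, .ofNat 1, .ofNat 1, .negSucc 2,
  .ofNat 1, .ofNat 1, .negSucc 2, .ofNat 1, .negSucc 2, .ofNat 1, .ofNat 1, .negSucc 2, .ofNat 1, .ofNat 1, .ofNat 1,
  .negSucc 2, .ofNat 9, .negSucc 2, .ofNat 1, .ofNat 1, .ofNat 1, .ofNat 1, .ofNat 1, .ofNat 1, .ofNat 1, .ofNat 1,
  .negSucc 2, .ofNat 1, .ofNat 1, .ofNat 1, .ofNat 1, .ofNat 1, .ofNat 1, .ofNat 1, .ofNat 1, .negSucc 2, .negSucc 2,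
  .ofNat 1, .negSucc 2, .negSucc 2], [.ofNat 1, .negSucc 2, .ofNat 1, .ofNat 1, .negSucc 2, .ofNat 1, .ofNat 1, .negSucc
  2, .ofNat 1, .negSucc 2, .ofNat 1, .ofNat 1, .negSucc 2, .ofNat 1, .ofNat 1, .ofNat 1, .negSucc 2, .ofNat 9, .negSucc
  2, .ofNat 1, .ofNat 1, .ofNat 1, .ofNat 1, .ofNat 1, .ofNat 1, .ofNat 1, .ofNat 1, .negSucc 2, .ofNat 1, .ofNat 1,
  .negSucc 2, .ofNat 1, .ofNat 1, .ofNat 1, .ofNat 1, .ofNat 1, .negSucc 2, .negSucc 2, .ofNat 1, .negSucc 2], [.negSucc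
  2, .ofNat 1, .negSucc 2, .ofNat 1, .ofNat 1, .negSucc 2, .ofNat 1, .ofNat 1, .negSucc 2, .ofNat 1, .ofNat 1, .ofNat 1,
  .ofNat 1, .negSucc 2, .ofNat 1, .ofNat 1, .ofNat 1, .negSucc 2, .ofNat 9, .negSucc 2, .ofNat 1, .ofNat 1, .ofNat 1,
  .ofNat 1, .ofNat 1, .ofNat 1, .ofNat 1, .ofNat 1, .negSucc 2, .ofNat 1, .negSucc 2, .negSucc 2, .ofNat 1, .ofNat 1,
  .ofNat 1, .ofNat 1, .ofNat 1, .negSucc 2, .negSucc 2, .ofNat 1], [.ofNat 1, .negSucc 2, .ofNat 1, .negSucc 2, .ofNat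
  1, .ofNat 1, .negSucc 2, .ofNat 1, .ofNat 1, .negSucc 2, .negSucc 2, .ofNat 1, .ofNat 1, .ofNat 1, .negSucc 2, .ofNat
  1, .ofNat 1, .ofNat 1, .negSucc 2, .ofNat 9, .ofNat 1, .ofNat 1, .ofNat 1, .ofNat 1, .ofNat 1, .ofNat 1, .ofNat 1,
  .ofNat 1, .ofNat 1, .negSucc 2, .ofNat 1, .negSucc 2, .negSucc 2, .ofNat 1, .ofNat 1, .ofNat 1, .ofNat 1, .ofNat 1,
  .negSucc 2, .negSucc 2], [.negSucc 2, .negSucc 2, .ofNat 1, .negSucc 2, .negSucc 2, .ofNat 1, .ofNat 1, .ofNat 1,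
  .ofNat 1, .ofNat 1, .negSucc 2, .ofNat 1, .ofNat 1, .ofNat 1, .ofNat 1, .ofNat 1, .ofNat 1, .ofNat 1, .ofNat 1, .ofNat
  1, .ofNat 9, .ofNat 1, .negSucc 2, .ofNat 1, .ofNat 1, .negSucc 2, .ofNat 1, .ofNat 1, .negSucc 2, .ofNat 1, .ofNat 1,
  .negSucc 2, .ofNat 1, .ofNat 1, .ofNat 1, .negSucc 2, .negSucc 2, .negSucc 2, .ofNat 1, .ofNat 1], [.ofNat 1, .negSucc
  2, .negSucc 2, .ofNat 1, .negSucc 2, .negSucc 2, .ofNat 1, .ofNat 1, .ofNat 1, .ofNat 1, .ofNat 1, .negSucc 2, .ofNat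
  1, .ofNat 1, .ofNat 1, .ofNat 1, .ofNat 1, .ofNat 1, .ofNat 1, .ofNat 1, .ofNat 1, .ofNat 9, .ofNat 1, .negSucc 2,
  .ofNat 1, .ofNat 1, .negSucc 2, .ofNat 1, .ofNat 1, .negSucc 2, .ofNat 1, .ofNat 1, .negSucc 2, .ofNat 1, .ofNat 1,
  .ofNat 1, .negSucc 2, .negSucc 2, .negSucc 2, .ofNat 1], [.ofNat 1, .ofNat 1, .negSucc 2, .negSucc 2, .ofNat 1,
  .negSucc 2, .negSucc 2, .ofNat 1, .ofNat 1, .ofNat 1, .ofNat 1, .ofNat 1, .negSucc 2, .ofNat 1, .ofNat 1, .ofNat 1,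
  .ofNat 1, .ofNat 1, .ofNat 1, .ofNat 1, .negSucc 2, .ofNat 1, .ofNat 9, .ofNat 1, .negSucc 2, .ofNat 1, .ofNat 1,
  .negSucc 2, .ofNat 1, .ofNat 1, .ofNat 1, .ofNat 1, .ofNat 1, .negSucc 2, .ofNat 1, .ofNat 1, .ofNat 1, .negSucc 2,
  .negSucc 2, .negSucc 2], [.ofNat 1, .ofNat 1, .ofNat 1, .negSucc 2, .negSucc 2, .ofNat 1, .negSucc 2, .negSucc 2,
  .ofNat 1, .ofNat 1, .ofNat 1, .ofNat 1, .ofNat 1, .negSucc 2, .ofNat 1, .ofNat 1, .ofNat 1, .ofNat 1, .ofNat 1, .ofNat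
  1, .ofNat 1, .negSucc 2, .ofNat 1, .ofNat 9, .ofNat 1, .negSucc 2, .ofNat 1, .ofNat 1, .negSucc 2, .ofNat 1, .negSucc
  2, .ofNat 1, .ofNat 1, .ofNat 1, .negSucc 2, .ofNat 1, .ofNat 1, .ofNat 1, .negSucc 2, .negSucc 2], [.ofNat 1, .ofNat
  1, .ofNat 1, .ofNat 1, .negSucc 2, .negSucc 2, .ofNat 1, .negSucc 2, .negSucc 2, .ofNat 1, .ofNat 1, .ofNat 1, .ofNat
  1, .ofNat 1, .negSucc 2, .ofNat 1, .ofNat 1, .ofNat 1, .ofNat 1, .ofNat 1, .ofNat 1, .ofNat 1, .negSucc 2, .ofNat 1,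
  .ofNat 9, .ofNat 1, .negSucc 2, .ofNat 1, .ofNat 1, .negSucc 2, .negSucc 2, .negSucc 2, .ofNat 1, .ofNat 1, .ofNat 1,
  .negSucc 2, .ofNat 1, .ofNat 1, .ofNat 1, .negSucc 2], [.ofNat 1, .ofNat 1, .ofNat 1, .ofNat 1, .ofNat 1, .negSucc 2,
  .negSucc 2, .ofNat 1, .negSucc 2, .negSucc 2, .ofNat 1, .ofNat 1, .ofNat 1, .ofNat 1, .ofNat 1, .negSucc 2, .ofNat 1,
  .ofNat 1, .ofNat 1, .ofNat 1, .negSucc 2, .ofNat 1, .ofNat 1, .negSucc 2, .ofNat 1, .ofNat 9, .ofNat 1, .negSucc 2,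
  .ofNat 1, .ofNat 1, .negSucc 2, .negSucc 2, .negSucc 2, .ofNat 1, .ofNat 1, .ofNat 1, .negSucc 2, .ofNat 1, .ofNat 1,
  .ofNat 1], [.negSucc 2, .ofNat 1, .ofNat 1, .ofNat 1, .ofNat 1, .ofNat 1, .negSucc 2, .negSucc 2, .ofNat 1, .negSucc
  2, .ofNat 1, .ofNat 1, .ofNat 1, .ofNat 1, .ofNat 1, .ofNat 1, .negSucc 2, .ofNat 1, .ofNat 1, .ofNat 1, .ofNat 1,
  .negSucc 2, .ofNat 1, .ofNat 1, .negSucc 2, .ofNat 1, .ofNat 9, .ofNat 1, .negSucc 2, .ofNat 1, .ofNat 1, .negSucc 2,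
  .negSucc 2, .negSucc 2, .ofNat 1, .ofNat 1, .ofNat 1, .negSucc 2, .ofNat 1, .ofNat 1], [.negSucc 2, .negSucc 2, .ofNat
  1, .ofNat 1, .ofNat 1, .ofNat 1, .ofNat 1, .negSucc 2, .negSucc 2, .ofNat 1, .ofNat 1, .ofNat 1, .ofNat 1, .ofNat 1,
  .ofNat 1, .ofNat 1, .ofNat 1, .negSucc 2, .ofNat 1, .ofNat 1, .ofNat 1, .ofNat 1, .negSucc 2, .ofNat 1, .ofNat 1,
  .negSucc 2, .ofNat 1, .ofNat 9, .ofNat 1, .negSucc 2, .ofNat 1, .ofNat 1, .negSucc 2, .negSucc 2, .negSucc 2, .ofNat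
  1, .ofNat 1, .ofNat 1, .negSucc 2, .ofNat 1], [.ofNat 1, .negSucc 2, .negSucc 2, .ofNat 1, .ofNat 1, .ofNat 1, .ofNat
  1, .ofNat 1, .negSucc 2, .negSucc 2, .ofNat 1, .ofNat 1, .ofNat 1, .ofNat 1, .ofNat 1, .ofNat 1, .ofNat 1, .ofNat 1,
  .negSucc 2, .ofNat 1, .negSucc 2, .ofNat 1, .ofNat 1, .negSucc 2, .ofNat 1, .ofNat 1, .negSucc 2, .ofNat 1, .ofNat 9,
  .ofNat 1, .ofNat 1, .ofNat 1, .ofNat 1, .negSucc 2, .negSucc 2, .negSucc 2, .ofNat 1, .ofNat 1, .ofNat 1, .negSucc 2],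
  [.negSucc 2, .ofNat 1, .negSucc 2, .negSucc 2, .ofNat 1, .ofNat 1, .ofNat 1, .ofNat 1, .ofNat 1, .negSucc 2, .ofNat 1,
  .ofNat 1, .ofNat 1, .ofNat 1, .ofNat 1, .ofNat 1, .ofNat 1, .ofNat 1, .ofNat 1, .negSucc 2, .ofNat 1, .negSucc 2,
  .ofNat 1, .ofNat 1, .negSucc 2, .ofNat 1, .ofNat 1, .negSucc 2, .ofNat 1, .ofNat 9, .negSucc 2, .ofNat 1, .ofNat 1,
  .ofNat 1, .negSucc 2, .negSucc 2, .negSucc 2, .ofNat 1, .ofNat 1, .ofNat 1], [.ofNat 1, .ofNat 1, .ofNat 1, .ofNat 1,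
  .ofNat 1, .ofNat 1, .negSucc 2, .ofNat 1, .ofNat 1, .ofNat 1, .negSucc 2, .negSucc 2, .ofNat 1, .ofNat 1, .ofNat 1,
  .ofNat 1, .ofNat 1, .negSucc 2, .negSucc 2, .ofNat 1, .ofNat 1, .ofNat 1, .ofNat 1, .negSucc 2, .negSucc 2, .negSucc
  2, .ofNat 1, .ofNat 1, .ofNat 1, .negSucc 2, .ofNat 9, .ofNat 1, .ofNat 1, .negSucc 2, .ofNat 1, .negSucc 2, .ofNat 1,
  .negSucc 2, .ofNat 1, .ofNat 1], [.ofNat 1, .ofNat 1, .ofNat 1, .ofNat 1, .ofNat 1, .ofNat 1, .ofNat 1, .negSucc 2,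
  .ofNat 1, .ofNat 1, .ofNat 1, .negSucc 2, .negSucc 2, .ofNat 1, .ofNat 1, .ofNat 1, .ofNat 1, .ofNat 1, .negSucc 2,
  .negSucc 2, .negSucc 2, .ofNat 1, .ofNat 1, .ofNat 1, .negSucc 2, .negSucc 2, .negSucc 2, .ofNat 1, .ofNat 1, .ofNat
  1, .ofNat 1, .ofNat 9, .ofNat 1, .ofNat 1, .negSucc 2, .ofNat 1, .negSucc 2, .ofNat 1, .negSucc 2, .ofNat 1], [.ofNat
  1, .ofNat 1, .ofNat 1, .ofNat 1, .ofNat 1, .ofNat 1, .ofNat 1, .ofNat 1, .negSucc 2, .ofNat 1, .negSucc 2, .ofNat 1,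
  .negSucc 2, .negSucc 2, .ofNat 1, .ofNat 1, .ofNat 1, .ofNat 1, .ofNat 1, .negSucc 2, .ofNat 1, .negSucc 2, .ofNat 1,
  .ofNat 1, .ofNat 1, .negSucc 2, .negSucc 2, .negSucc 2, .ofNat 1, .ofNat 1, .ofNat 1, .ofNat 1, .ofNat 9, .ofNat 1,
  .ofNat 1, .negSucc 2, .ofNat 1, .negSucc 2, .ofNat 1, .negSucc 2], [.ofNat 1, .ofNat 1, .ofNat 1, .ofNat 1, .ofNat 1,
  .ofNat 1, .ofNat 1, .ofNat 1, .ofNat 1, .negSucc 2, .negSucc 2, .negSucc 2, .ofNat 1, .negSucc 2, .negSucc 2, .ofNat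
  1, .ofNat 1, .ofNat 1, .ofNat 1, .ofNat 1, .ofNat 1, .ofNat 1, .negSucc 2, .ofNat 1, .ofNat 1, .ofNat 1, .negSucc 2,
  .negSucc 2, .negSucc 2, .ofNat 1, .negSucc 2, .ofNat 1, .ofNat 1, .ofNat 9, .ofNat 1, .ofNat 1, .negSucc 2, .ofNat 1,
  .negSucc 2, .ofNat 1], [.negSucc 2, .ofNat 1, .ofNat 1, .ofNat 1, .ofNat 1, .ofNat 1, .ofNat 1, .ofNat 1, .ofNat 1,
  .ofNat 1, .ofNat 1, .negSucc 2, .negSucc 2, .ofNat 1, .negSucc 2, .negSucc 2, .ofNat 1, .ofNat 1, .ofNat 1, .ofNat 1,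
  .ofNat 1, .ofNat 1, .ofNat 1, .negSucc 2, .ofNat 1, .ofNat 1, .ofNat 1, .negSucc 2, .negSucc 2, .negSucc 2, .ofNat 1,
  .negSucc 2, .ofNat 1, .ofNat 1, .ofNat 9, .ofNat 1, .ofNat 1, .negSucc 2, .ofNat 1, .negSucc 2], [.ofNat 1, .negSucc
  2, .ofNat 1, .ofNat 1, .ofNat 1, .ofNat 1, .ofNat 1, .ofNat 1, .ofNat 1, .ofNat 1, .ofNat 1, .ofNat 1, .negSucc 2,
  .negSucc 2, .ofNat 1, .negSucc 2, .negSucc 2, .ofNat 1, .ofNat 1, .ofNat 1, .negSucc 2, .ofNat 1, .ofNat 1, .ofNat 1,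
  .negSucc 2, .ofNat 1, .ofNat 1, .ofNat 1, .negSucc 2, .negSucc 2, .negSucc 2, .ofNat 1, .negSucc 2, .ofNat 1, .ofNat
  1, .ofNat 9, .ofNat 1, .ofNat 1, .negSucc 2, .ofNat 1], [.ofNat 1, .ofNat 1, .negSucc 2, .ofNat 1, .ofNat 1, .ofNat 1,
  .ofNat 1, .ofNat 1, .ofNat 1, .ofNat 1, .ofNat 1, .ofNat 1, .ofNat 1, .negSucc 2, .negSucc 2, .ofNat 1, .negSucc 2,
  .negSucc 2, .ofNat 1, .ofNat 1, .negSucc 2, .negSucc 2, .ofNat 1, .ofNat 1, .ofNat 1, .negSucc 2, .ofNat 1, .ofNat 1,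
  .ofNat 1, .negSucc 2, .ofNat 1, .negSucc 2, .ofNat 1, .negSucc 2, .ofNat 1, .ofNat 1, .ofNat 9, .ofNat 1, .ofNat 1,
  .negSucc 2], [.ofNat 1, .ofNat 1, .ofNat 1, .negSucc 2, .ofNat 1, .ofNat 1, .ofNat 1, .ofNat 1, .ofNat 1, .ofNat 1,
  .ofNat 1, .ofNat 1, .ofNat 1, .ofNat 1, .negSucc 2, .negSucc 2, .ofNat 1, .negSucc 2, .negSucc 2, .ofNat 1, .negSucc
  2, .negSucc 2, .negSucc 2, .ofNat 1, .ofNat 1, .ofNat 1, .negSucc 2, .ofNat 1, .ofNat 1, .ofNat 1, .negSucc 2, .ofNat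
  1, .negSucc 2, .ofNat 1, .negSucc 2, .ofNat 1, .ofNat 1, .ofNat 9, .ofNat 1, .ofNat 1], [.ofNat 1, .ofNat 1, .ofNat 1,
  .ofNat 1, .negSucc 2, .ofNat 1, .ofNat 1, .ofNat 1, .ofNat 1, .ofNat 1, .ofNat 1, .ofNat 1, .ofNat 1, .ofNat 1, .ofNat
  1, .negSucc 2, .negSucc 2, .ofNat 1, .negSucc 2, .negSucc 2, .ofNat 1, .negSucc 2, .negSucc 2, .negSucc 2, .ofNat 1,
  .ofNat 1, .ofNat 1, .negSucc 2, .ofNat 1, .ofNat 1, .ofNat 1, .negSucc 2, .ofNat 1, .negSucc 2, .ofNat 1, .negSucc 2,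
  .ofNat 1, .ofNat 1, .ofNat 9, .ofNat 1], [.ofNat 1, .ofNat 1, .ofNat 1, .ofNat 1, .ofNat 1, .negSucc 2, .ofNat 1,
  .ofNat 1, .ofNat 1, .ofNat 1, .negSucc 2, .ofNat 1, .ofNat 1, .ofNat 1, .ofNat 1, .ofNat 1, .negSucc 2, .negSucc 2,
  .ofNat 1, .negSucc 2, .ofNat 1, .ofNat 1, .negSucc 2, .negSucc 2, .negSucc 2, .ofNat 1, .ofNat 1, .ofNat 1, .negSucc
  2, .ofNat 1, .ofNat 1, .ofNat 1, .negSucc 2, .ofNat 1, .negSucc 2, .ofNat 1, .negSucc 2, .ofNat 1, .ofNat 1, .ofNat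
  9]]

/-- Data. -/
def cb5b : List (List ℤ) := [[.negSucc 2, .negSucc 2, .ofNat 1, .negSucc 2, .negSucc 2, .ofNat 1, .ofNat 1, .ofNat 1,
  .ofNat 1, .ofNat 1, .negSucc 2, .ofNat 1, .ofNat 1, .ofNat 1, .ofNat 1, .ofNat 1, .ofNat 1, .ofNat 1, .ofNat 1, .ofNat
  1, .ofNat 9, .ofNat 1, .negSucc 2, .ofNat 1, .ofNat 1, .negSucc 2, .ofNat 1, .ofNat 1, .negSucc 2, .ofNat 1, .ofNat 1,
  .negSucc 2, .ofNat 1, .ofNat 1, .ofNat 1, .negSucc 2, .negSucc 2, .negSucc 2, .ofNat 1, .ofNat 1], [.negSucc 0, .ofNat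
  3, .ofNat 3, .negSucc 0, .negSucc 0, .negSucc 0, .negSucc 0, .negSucc 0, .ofNat 3, .ofNat 3, .negSucc 0, .negSucc 0,
  .negSucc 0, .negSucc 0, .negSucc 0, .negSucc 0, .negSucc 0, .negSucc 0, .ofNat 3, .negSucc 0, .ofNat 3, .negSucc 0,
  .negSucc 0, .ofNat 3, .negSucc 0, .negSucc 0, .ofNat 3, .negSucc 0, .negSucc 8, .negSucc 0, .negSucc 0, .negSucc 0,
  .negSucc 0, .ofNat 3, .ofNat 3, .ofNat 3, .negSucc 0, .negSucc 0, .negSucc 0, .ofNat 3], [.negSucc 0, .negSucc 0,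
  .negSucc 0, .ofNat 3, .ofNat 3, .negSucc 0, .ofNat 3, .ofNat 3, .negSucc 0, .negSucc 0, .negSucc 0, .negSucc 0,
  .negSucc 0, .ofNat 3, .negSucc 0, .negSucc 0, .negSucc 0, .negSucc 0, .negSucc 0, .negSucc 0, .negSucc 0, .ofNat 3,
  .negSucc 0, .negSucc 8, .negSucc 0, .ofNat 3, .negSucc 0, .negSucc 0, .ofNat 3, .negSucc 0, .ofNat 3, .negSucc 0,
  .negSucc 0, .negSucc 0, .ofNat 3, .negSucc 0, .negSucc 0, .negSucc 0, .ofNat 3, .ofNat 3], [.ofNat 1, .ofNat 1, .ofNat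
  1, .ofNat 1, .ofNat 1, .negSucc 2, .negSucc 2, .ofNat 1, .negSucc 2, .negSucc 2, .ofNat 1, .ofNat 1, .ofNat 1, .ofNat
  1, .ofNat 1, .negSucc 2, .ofNat 1, .ofNat 1, .ofNat 1, .ofNat 1, .negSucc 2, .ofNat 1, .ofNat 1, .negSucc 2, .ofNat 1,
  .ofNat 9, .ofNat 1, .negSucc 2, .ofNat 1, .ofNat 1, .negSucc 2, .negSucc 2, .negSucc 2, .ofNat 1, .ofNat 1, .ofNat 1,
  .negSucc 2, .ofNat 1, .ofNat 1, .ofNat 1], [.ofNat 1, .negSucc 2, .ofNat 1, .ofNat 1, .ofNat 1, .ofNat 1, .ofNat 1,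
  .ofNat 1, .ofNat 1, .ofNat 1, .ofNat 1, .ofNat 1, .negSucc 2, .negSucc 2, .ofNat 1, .negSucc 2, .negSucc 2, .ofNat 1,
  .ofNat 1, .ofNat 1, .negSucc 2, .ofNat 1, .ofNat 1, .ofNat 1, .negSucc 2, .ofNat 1, .ofNat 1, .ofNat 1, .negSucc 2,
  .negSucc 2, .negSucc 2, .ofNat 1, .negSucc 2, .ofNat 1, .ofNat 1, .ofNat 9, .ofNat 1, .ofNat 1, .negSucc 2, .ofNat 1],
  [.ofNat 1, .ofNat 1, .ofNat 1, .ofNat 1, .ofNat 1, .negSucc 2, .ofNat 1, .ofNat 1, .ofNat 1, .ofNat 1, .negSucc 2,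
  .ofNat 1, .ofNat 1, .ofNat 1, .ofNat 1, .ofNat 1, .negSucc 2, .negSucc 2, .ofNat 1, .negSucc 2, .ofNat 1, .ofNat 1,
  .negSucc 2, .negSucc 2, .negSucc 2, .ofNat 1, .ofNat 1, .ofNat 1, .negSucc 2, .ofNat 1, .ofNat 1, .ofNat 1, .negSucc
  2, .ofNat 1, .negSucc 2, .ofNat 1, .negSucc 2, .ofNat 1, .ofNat 1, .ofNat 9], [.negSucc 2, .ofNat 1, .ofNat 1, .ofNat
  1, .ofNat 1, .ofNat 1, .negSucc 2, .negSucc 2, .ofNat 1, .negSucc 2, .ofNat 1, .ofNat 1, .ofNat 1, .ofNat 1, .ofNat 1,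
  .ofNat 1, .negSucc 2, .ofNat 1, .ofNat 1, .ofNat 1, .ofNat 1, .negSucc 2, .ofNat 1, .ofNat 1, .negSucc 2, .ofNat 1,
  .ofNat 9, .ofNat 1, .negSucc 2, .ofNat 1, .ofNat 1, .negSucc 2, .negSucc 2, .negSucc 2, .ofNat 1, .ofNat 1, .ofNat 1,
  .negSucc 2, .ofNat 1, .ofNat 1], [.negSucc 0, .negSucc 0, .ofNat 3, .ofNat 3, .negSucc 0, .ofNat 3, .ofNat 3, .negSucc
  0, .negSucc 0, .negSucc 0, .negSucc 0, .negSucc 0, .ofNat 3, .negSucc 0, .negSucc 0, .negSucc 0, .negSucc 0, .negSucc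
  0, .negSucc 0, .negSucc 0, .ofNat 3, .negSucc 0, .negSucc 8, .negSucc 0, .ofNat 3, .negSucc 0, .negSucc 0, .ofNat 3,
  .negSucc 0, .negSucc 0, .negSucc 0, .negSucc 0, .negSucc 0, .ofNat 3, .negSucc 0, .negSucc 0, .negSucc 0, .ofNat 3,
  .ofNat 3, .ofNat 3], [.ofNat 1, .ofNat 1, .ofNat 1, .ofNat 1, .negSucc 2, .ofNat 1, .ofNat 1, .ofNat 1, .ofNat 1,
  .ofNat 1, .ofNat 1, .ofNat 1, .ofNat 1, .ofNat 1, .ofNat 1, .negSucc 2, .negSucc 2, .ofNat 1, .negSucc 2, .negSucc 2,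
  .ofNat 1, .negSucc 2, .negSucc 2, .negSucc 2, .ofNat 1, .ofNat 1, .ofNat 1, .negSucc 2, .ofNat 1, .ofNat 1, .ofNat 1,
  .negSucc 2, .ofNat 1, .negSucc 2, .ofNat 1, .negSucc 2, .ofNat 1, .ofNat 1, .ofNat 9, .ofNat 1], [.ofNat 3, .negSucc
  0, .negSucc 0, .ofNat 3, .negSucc 0, .ofNat 3, .negSucc 0, .ofNat 3, .negSucc 0, .negSucc 0, .negSucc 0, .negSucc 0,
  .ofNat 3, .negSucc 8, .ofNat 3, .negSucc 0, .negSucc 0, .negSucc 0, .ofNat 3, .negSucc 0, .negSucc 0, .negSucc 0,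
  .negSucc 0, .ofNat 3, .negSucc 0, .negSucc 0, .negSucc 0, .negSucc 0, .negSucc 0, .negSucc 0, .negSucc 0, .negSucc 0,
  .ofNat 3, .ofNat 3, .negSucc 0, .ofNat 3, .ofNat 3, .negSucc 0, .negSucc 0, .negSucc 0], [.negSucc 2, .ofNat 1,
  .negSucc 2, .ofNat 1, .ofNat 1, .negSucc 2, .ofNat 1, .ofNat 1, .negSucc 2, .ofNat 1, .ofNat 1, .ofNat 1, .ofNat 1,
  .negSucc 2, .ofNat 1, .ofNat 1, .ofNat 1, .negSucc 2, .ofNat 9, .negSucc 2, .ofNat 1, .ofNat 1, .ofNat 1, .ofNat 1,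
  .ofNat 1, .ofNat 1, .ofNat 1, .ofNat 1, .negSucc 2, .ofNat 1, .negSucc 2, .negSucc 2, .ofNat 1, .ofNat 1, .ofNat 1,
  .ofNat 1, .ofNat 1, .negSucc 2, .negSucc 2, .ofNat 1], [.negSucc 0, .negSucc 0, .negSucc 8, .negSucc 0, .negSucc 0,
  .negSucc 0, .ofNat 3, .ofNat 3, .ofNat 3, .negSucc 0, .ofNat 3, .negSucc 0, .ofNat 3, .negSucc 0, .negSucc 0, .ofNat
  3, .negSucc 0, .negSucc 0, .ofNat 3, .negSucc 0, .negSucc 0, .ofNat 3, .ofNat 3, .negSucc 0, .negSucc 0, .negSucc 0,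
  .negSucc 0, .negSucc 0, .ofNat 3, .ofNat 3, .negSucc 0, .negSucc 0, .negSucc 0, .negSucc 0, .negSucc 0, .negSucc 0,
  .ofNat 3, .negSucc 0, .negSucc 0, .negSucc 0], [.ofNat 1, .negSucc 2, .negSucc 2, .negSucc 2, .ofNat 1, .ofNat 1,
  .ofNat 1, .ofNat 9, .ofNat 1, .ofNat 1, .negSucc 2, .ofNat 1, .ofNat 1, .negSucc 2, .ofNat 1, .negSucc 2, .ofNat 1,
  .negSucc 2, .ofNat 1, .ofNat 1, .ofNat 1, .ofNat 1, .ofNat 1, .negSucc 2, .negSucc 2, .ofNat 1, .negSucc 2, .negSucc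
  2, .ofNat 1, .ofNat 1, .ofNat 1, .negSucc 2, .ofNat 1, .ofNat 1, .ofNat 1, .ofNat 1, .ofNat 1, .ofNat 1, .ofNat 1,
  .ofNat 1], [.negSucc 2, .ofNat 1, .negSucc 2, .ofNat 1, .negSucc 2, .ofNat 1, .ofNat 1, .negSucc 2, .ofNat 1, .ofNat
  1, .ofNat 9, .negSucc 2, .ofNat 1, .ofNat 1, .ofNat 1, .negSucc 2, .ofNat 1, .ofNat 1, .ofNat 1, .negSucc 2, .negSucc
  2, .ofNat 1, .ofNat 1, .ofNat 1, .ofNat 1, .ofNat 1, .ofNat 1, .ofNat 1, .ofNat 1, .ofNat 1, .negSucc 2, .ofNat 1,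
  .negSucc 2, .negSucc 2, .ofNat 1, .ofNat 1, .ofNat 1, .ofNat 1, .ofNat 1, .negSucc 2], [.negSucc 8, .negSucc 0,
  .negSucc 0, .negSucc 0, .ofNat 3, .ofNat 3, .ofNat 3, .negSucc 0, .negSucc 0, .negSucc 0, .ofNat 3, .negSucc 0,
  .negSucc 0, .ofNat 3, .negSucc 0, .negSucc 0, .ofNat 3, .negSucc 0, .ofNat 3, .negSucc 0, .ofNat 3, .negSucc 0,
  .negSucc 0, .negSucc 0, .negSucc 0, .negSucc 0, .ofNat 3, .ofNat 3, .negSucc 0, .ofNat 3, .negSucc 0, .negSucc 0,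
  .negSucc 0, .negSucc 0, .ofNat 3, .negSucc 0, .negSucc 0, .negSucc 0, .negSucc 0, .negSucc 0]]

/-- Data. -/
def cb5n : List (List ℤ) := [[.ofNat 0, .negSucc 0, .ofNat 0, .ofNat 0, .negSucc 0, .ofNat 0, .ofNat 0, .ofNat 0,
  .ofNat 0, .ofNat 0, .ofNat 0, .ofNat 0, .ofNat 0, .ofNat 0, .ofNat 1, .ofNat 0, .ofNat 0, .ofNat 1, .ofNat 0, .ofNat
  0, .ofNat 1, .ofNat 1, .ofNat 0, .ofNat 0, .ofNat 0, .ofNat 0, .ofNat 0, .ofNat 0, .ofNat 0, .ofNat 0, .ofNat 0,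
  .ofNat 0, .ofNat 0, .ofNat 0, .ofNat 0, .ofNat 0, .negSucc 0, .negSucc 0, .ofNat 0, .ofNat 0], [.ofNat 0, .ofNat 1,
  .ofNat 0, .ofNat 0, .ofNat 0, .ofNat 0, .ofNat 0, .ofNat 0, .ofNat 1, .ofNat 0, .ofNat 0, .negSucc 0, .ofNat 0, .ofNat
  0, .negSucc 0, .ofNat 0, .ofNat 0, .ofNat 0, .ofNat 0, .ofNat 0, .ofNat 0, .ofNat 0, .ofNat 0, .ofNat 0, .ofNat 0,
  .ofNat 0, .ofNat 0, .negSucc 0, .negSucc 0, .ofNat 0, .ofNat 0, .ofNat 0, .ofNat 0, .ofNat 1, .ofNat 1, .ofNat 0,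
  .ofNat 0, .ofNat 0, .ofNat 0, .ofNat 0], [.ofNat 0, .ofNat 0, .ofNat 0, .ofNat 1, .ofNat 0, .ofNat 0, .ofNat 0, .ofNat
  0, .ofNat 0, .ofNat 0, .ofNat 0, .negSucc 0, .ofNat 0, .ofNat 0, .ofNat 0, .ofNat 0, .ofNat 0, .ofNat 0, .ofNat 0,
  .ofNat 0, .ofNat 0, .ofNat 1, .ofNat 0, .negSucc 0, .ofNat 0, .ofNat 0, .ofNat 0, .ofNat 0, .ofNat 0, .negSucc 0,
  .ofNat 1, .ofNat 0, .ofNat 0, .ofNat 0, .ofNat 1, .ofNat 0, .ofNat 0, .negSucc 0, .ofNat 0, .ofNat 0], [.ofNat 0,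
  .ofNat 0, .ofNat 0, .ofNat 0, .ofNat 0, .ofNat 0, .ofNat 0, .ofNat 0, .ofNat 0, .negSucc 0, .ofNat 0, .ofNat 0, .ofNat
  0, .ofNat 0, .ofNat 0, .ofNat 0, .ofNat 0, .ofNat 1, .ofNat 0, .ofNat 0, .ofNat 0, .ofNat 0, .ofNat 0, .ofNat 0,
  .ofNat 0, .ofNat 1, .ofNat 0, .negSucc 0, .ofNat 0, .ofNat 1, .negSucc 0, .ofNat 0, .ofNat 0, .ofNat 1, .ofNat 0,
  .ofNat 0, .negSucc 0, .ofNat 0, .ofNat 0, .ofNat 0], [.ofNat 0, .negSucc 0, .ofNat 0, .ofNat 0, .ofNat 0, .ofNat 0,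
  .ofNat 1, .ofNat 0, .ofNat 0, .ofNat 0, .ofNat 0, .ofNat 1, .negSucc 0, .ofNat 0, .ofNat 0, .ofNat 0, .negSucc 0,
  .ofNat 1, .ofNat 0, .ofNat 0, .ofNat 0, .ofNat 0, .ofNat 0, .ofNat 0, .ofNat 0, .ofNat 0, .ofNat 0, .ofNat 0, .ofNat
  0, .ofNat 0, .negSucc 0, .ofNat 0, .ofNat 0, .ofNat 0, .ofNat 0, .ofNat 1, .ofNat 0, .ofNat 0, .ofNat 0, .ofNat 0],
  [.ofNat 0, .ofNat 0, .ofNat 0, .ofNat 0, .ofNat 0, .ofNat 0, .ofNat 0, .ofNat 0, .ofNat 0, .ofNat 0, .ofNat 0, .ofNat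
  0, .ofNat 0, .ofNat 0, .ofNat 1, .ofNat 0, .ofNat 0, .ofNat 0, .ofNat 0, .negSucc 0, .ofNat 0, .ofNat 0, .ofNat 0,
  .ofNat 0, .negSucc 0, .ofNat 0, .ofNat 0, .ofNat 0, .ofNat 0, .ofNat 1, .ofNat 0, .ofNat 1, .ofNat 0, .ofNat 0,
  .negSucc 0, .ofNat 0, .negSucc 0, .ofNat 0, .ofNat 0, .ofNat 1], [.ofNat 0, .ofNat 0, .ofNat 0, .ofNat 0, .ofNat 0,
  .ofNat 0, .negSucc 0, .ofNat 0, .ofNat 0, .ofNat 0, .ofNat 0, .ofNat 0, .ofNat 1, .ofNat 0, .ofNat 0, .ofNat 0, .ofNat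
  0, .negSucc 0, .ofNat 0, .ofNat 1, .ofNat 0, .ofNat 0, .ofNat 0, .ofNat 0, .ofNat 0, .ofNat 0, .ofNat 1, .ofNat 1,
  .ofNat 0, .negSucc 0, .ofNat 1, .negSucc 0, .negSucc 0, .negSucc 0, .ofNat 0, .ofNat 0, .ofNat 1, .ofNat 0, .ofNat 0,
  .ofNat 0], [.ofNat 0, .ofNat 0, .ofNat 0, .ofNat 0, .ofNat 0, .ofNat 0, .ofNat 0, .ofNat 0, .ofNat 0, .ofNat 0, .ofNat
  0, .ofNat 0, .ofNat 1, .ofNat 0, .negSucc 0, .ofNat 0, .ofNat 0, .negSucc 0, .ofNat 0, .ofNat 1, .ofNat 0, .ofNat 0,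
  .negSucc 0, .ofNat 0, .ofNat 1, .ofNat 0, .ofNat 0, .ofNat 1, .ofNat 0, .negSucc 0, .ofNat 0, .negSucc 0, .negSucc 0,
  .ofNat 0, .ofNat 0, .ofNat 0, .ofNat 1, .ofNat 1, .ofNat 0, .ofNat 0], [.ofNat 0, .ofNat 0, .ofNat 0, .ofNat 0, .ofNat
  0, .ofNat 0, .ofNat 1, .ofNat 0, .ofNat 0, .ofNat 0, .ofNat 0, .ofNat 1, .negSucc 0, .ofNat 0, .ofNat 0, .ofNat 0,
  .negSucc 0, .ofNat 1, .ofNat 0, .negSucc 0, .ofNat 0, .negSucc 0, .ofNat 0, .ofNat 0, .ofNat 0, .ofNat 0, .ofNat 0,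
  .negSucc 0, .ofNat 0, .ofNat 1, .negSucc 0, .ofNat 0, .ofNat 1, .ofNat 0, .ofNat 0, .ofNat 0, .ofNat 0, .ofNat 0,
  .ofNat 1, .ofNat 0], [.ofNat 0, .ofNat 0, .ofNat 0, .ofNat 1, .ofNat 0, .ofNat 1, .ofNat 0, .ofNat 0, .ofNat 0,
  .negSucc 0, .ofNat 0, .negSucc 0, .ofNat 0, .negSucc 0, .ofNat 1, .ofNat 0, .ofNat 0, .ofNat 1, .ofNat 0, .negSucc 0,
  .ofNat 0, .ofNat 0, .ofNat 0, .ofNat 0, .negSucc 0, .ofNat 0, .ofNat 0, .negSucc 0, .ofNat 0, .ofNat 1, .ofNat 0,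
  .ofNat 1, .ofNat 1, .ofNat 1, .ofNat 0, .ofNat 0, .negSucc 0, .negSucc 0, .ofNat 0, .ofNat 0], [.ofNat 0, .ofNat 0,
  .ofNat 0, .ofNat 0, .ofNat 0, .negSucc 0, .ofNat 0, .ofNat 0, .negSucc 0, .ofNat 1, .ofNat 0, .ofNat 1, .ofNat 0,
  .ofNat 0, .ofNat 0, .ofNat 0, .ofNat 0, .negSucc 0, .ofNat 1, .ofNat 0, .ofNat 0, .ofNat 0, .ofNat 0, .ofNat 0, .ofNat
  1, .ofNat 0, .ofNat 0, .ofNat 1, .ofNat 0, .negSucc 0, .ofNat 0, .negSucc 0, .ofNat 0, .negSucc 0, .ofNat 0, .ofNat 0,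
  .ofNat 1, .ofNat 0, .ofNat 0, .ofNat 0], [.ofNat 0, .ofNat 0, .negSucc 0, .ofNat 0, .ofNat 0, .ofNat 0, .ofNat 1,
  .ofNat 0, .ofNat 1, .negSucc 0, .ofNat 0, .ofNat 0, .ofNat 0, .ofNat 0, .negSucc 0, .ofNat 1, .negSucc 0, .ofNat 1,
  .ofNat 0, .ofNat 0, .ofNat 0, .ofNat 0, .ofNat 0, .ofNat 0, .ofNat 0, .ofNat 0, .ofNat 0, .negSucc 0, .ofNat 0, .ofNat
  1, .negSucc 0, .ofNat 0, .ofNat 0, .ofNat 1, .ofNat 0, .ofNat 0, .ofNat 0, .ofNat 0, .ofNat 0, .ofNat 0], [.ofNat 0,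
  .ofNat 0, .ofNat 0, .negSucc 0, .ofNat 0, .ofNat 0, .negSucc 0, .ofNat 1, .ofNat 0, .ofNat 1, .ofNat 0, .ofNat 0,
  .ofNat 1, .ofNat 0, .ofNat 0, .negSucc 0, .ofNat 1, .negSucc 1, .ofNat 0, .ofNat 1, .ofNat 0, .ofNat 0, .ofNat 0,
  .ofNat 0, .ofNat 0, .ofNat 0, .ofNat 0, .ofNat 1, .ofNat 0, .negSucc 0, .ofNat 1, .negSucc 0, .negSucc 0, .negSucc 0,
  .ofNat 0, .ofNat 0, .ofNat 1, .ofNat 1, .ofNat 0, .ofNat 0], [.ofNat 0, .ofNat 0, .ofNat 0, .ofNat 0, .negSucc 0,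
  .ofNat 0, .negSucc 0, .ofNat 0, .ofNat 0, .ofNat 1, .ofNat 1, .negSucc 0, .ofNat 1, .ofNat 0, .ofNat 1, .negSucc 0,
  .ofNat 1, .negSucc 0, .ofNat 0, .ofNat 0, .ofNat 0, .ofNat 1, .ofNat 0, .ofNat 0, .ofNat 0, .ofNat 0, .ofNat 0, .ofNat
  1, .ofNat 0, .negSucc 0, .ofNat 1, .ofNat 0, .negSucc 0, .negSucc 0, .ofNat 0, .ofNat 0, .ofNat 0, .ofNat 0, .ofNat 0,
  .ofNat 0], [.negSucc 0, .ofNat 0, .ofNat 0, .ofNat 0, .ofNat 1, .ofNat 1, .ofNat 1, .ofNat 0, .ofNat 0, .negSucc 0,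
  .ofNat 0, .ofNat 0, .negSucc 0, .ofNat 0, .ofNat 0, .ofNat 0, .ofNat 0, .ofNat 1, .ofNat 0, .negSucc 0, .ofNat 0,
  .negSucc 0, .ofNat 0, .ofNat 0, .negSucc 0, .ofNat 0, .ofNat 0, .negSucc 0, .ofNat 0, .ofNat 2, .negSucc 0, .ofNat 1,
  .ofNat 1, .ofNat 1, .ofNat 0, .ofNat 0, .negSucc 0, .ofNat 0, .ofNat 0, .ofNat 0]]

/-- Data. -/
def cb5bT : List (List ℤ) := [[.negSucc 2, .negSucc 0, .negSucc 0, .ofNat 1, .ofNat 1, .ofNat 1, .negSucc 2, .negSucc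
  0, .ofNat 1, .ofNat 3, .negSucc 2, .negSucc 0, .ofNat 1, .negSucc 2, .negSucc 8], [.negSucc 2, .ofNat 3, .negSucc 0,
  .ofNat 1, .negSucc 2, .ofNat 1, .ofNat 1, .negSucc 0, .ofNat 1, .negSucc 0, .ofNat 1, .negSucc 0, .negSucc 2, .ofNat
  1, .negSucc 0], [.ofNat 1, .ofNat 3, .negSucc 0, .ofNat 1, .ofNat 1, .ofNat 1, .ofNat 1, .ofNat 3, .ofNat 1, .negSucc
  0, .negSucc 2, .negSucc 8, .negSucc 2, .negSucc 2, .negSucc 0], [.negSucc 2, .negSucc 0, .ofNat 3, .ofNat 1, .ofNat 1,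
  .ofNat 1, .ofNat 1, .ofNat 3, .ofNat 1, .ofNat 3, .ofNat 1, .negSucc 0, .negSucc 2, .ofNat 1, .negSucc 0], [.negSucc
  2, .negSucc 0, .ofNat 3, .ofNat 1, .ofNat 1, .ofNat 1, .ofNat 1, .negSucc 0, .negSucc 2, .negSucc 0, .ofNat 1,
  .negSucc 0, .ofNat 1, .negSucc 2, .ofNat 3], [.ofNat 1, .negSucc 0, .negSucc 0, .negSucc 2, .ofNat 1, .negSucc 2,
  .ofNat 1, .ofNat 3, .ofNat 1, .ofNat 3, .negSucc 2, .negSucc 0, .ofNat 1, .ofNat 1, .ofNat 3], [.ofNat 1, .negSucc 0,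
  .ofNat 3, .negSucc 2, .ofNat 1, .ofNat 1, .negSucc 2, .ofNat 3, .ofNat 1, .negSucc 0, .ofNat 1, .ofNat 3, .ofNat 1,
  .ofNat 1, .ofNat 3], [.ofNat 1, .negSucc 0, .ofNat 3, .ofNat 1, .ofNat 1, .ofNat 1, .negSucc 2, .negSucc 0, .ofNat 1,
  .ofNat 3, .ofNat 1, .ofNat 3, .ofNat 9, .negSucc 2, .negSucc 0], [.ofNat 1, .ofNat 3, .negSucc 0, .negSucc 2, .ofNat
  1, .ofNat 1, .ofNat 1, .negSucc 0, .ofNat 1, .negSucc 0, .negSucc 2, .ofNat 3, .ofNat 1, .ofNat 1, .negSucc 0],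
  [.ofNat 1, .ofNat 3, .negSucc 0, .negSucc 2, .ofNat 1, .ofNat 1, .negSucc 2, .negSucc 0, .ofNat 1, .negSucc 0, .ofNat
  1, .negSucc 0, .ofNat 1, .ofNat 1, .negSucc 0], [.negSucc 2, .negSucc 0, .negSucc 0, .ofNat 1, .ofNat 1, .negSucc 2,
  .ofNat 1, .negSucc 0, .ofNat 1, .negSucc 0, .ofNat 1, .ofNat 3, .negSucc 2, .ofNat 9, .ofNat 3], [.ofNat 1, .negSucc
  0, .negSucc 0, .ofNat 1, .ofNat 1, .ofNat 1, .ofNat 1, .negSucc 0, .ofNat 1, .negSucc 0, .ofNat 1, .negSucc 0, .ofNat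
  1, .negSucc 2, .negSucc 0], [.ofNat 1, .negSucc 0, .negSucc 0, .ofNat 1, .negSucc 2, .ofNat 1, .ofNat 1, .ofNat 3,
  .ofNat 1, .ofNat 3, .ofNat 1, .ofNat 3, .ofNat 1, .ofNat 1, .negSucc 0], [.ofNat 1, .negSucc 0, .ofNat 3, .ofNat 1,
  .negSucc 2, .ofNat 1, .ofNat 1, .negSucc 0, .ofNat 1, .negSucc 8, .negSucc 2, .negSucc 0, .negSucc 2, .ofNat 1, .ofNat
  3], [.ofNat 1, .negSucc 0, .negSucc 0, .ofNat 1, .ofNat 1, .ofNat 1, .ofNat 1, .negSucc 0, .ofNat 1, .ofNat 3, .ofNat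
  1, .negSucc 0, .ofNat 1, .ofNat 1, .negSucc 0], [.ofNat 1, .negSucc 0, .negSucc 0, .negSucc 2, .negSucc 2, .ofNat 1,
  .ofNat 1, .negSucc 0, .negSucc 2, .negSucc 0, .ofNat 1, .ofNat 3, .negSucc 2, .negSucc 2, .negSucc 0], [.ofNat 1,
  .negSucc 0, .negSucc 0, .ofNat 1, .negSucc 2, .negSucc 2, .negSucc 2, .negSucc 0, .negSucc 2, .negSucc 0, .ofNat 1,
  .negSucc 0, .ofNat 1, .ofNat 1, .ofNat 3], [.ofNat 1, .negSucc 0, .negSucc 0, .ofNat 1, .ofNat 1, .negSucc 2, .ofNat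
  1, .negSucc 0, .ofNat 1, .negSucc 0, .negSucc 2, .negSucc 0, .negSucc 2, .ofNat 1, .negSucc 0], [.ofNat 1, .ofNat 3,
  .negSucc 0, .ofNat 1, .ofNat 1, .ofNat 1, .ofNat 1, .negSucc 0, .negSucc 2, .ofNat 3, .ofNat 9, .ofNat 3, .ofNat 1,
  .ofNat 1, .ofNat 3], [.ofNat 1, .negSucc 0, .negSucc 0, .ofNat 1, .ofNat 1, .negSucc 2, .ofNat 1, .negSucc 0, .negSucc
  2, .negSucc 0, .negSucc 2, .negSucc 0, .ofNat 1, .negSucc 2, .negSucc 0], [.ofNat 9, .ofNat 3, .negSucc 0, .negSucc 2,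
  .negSucc 2, .ofNat 1, .ofNat 1, .ofNat 3, .ofNat 1, .negSucc 0, .ofNat 1, .negSucc 0, .ofNat 1, .negSucc 2, .ofNat 3],
  [.ofNat 1, .negSucc 0, .ofNat 3, .ofNat 1, .ofNat 1, .ofNat 1, .negSucc 2, .negSucc 0, .negSucc 2, .negSucc 0, .ofNat
  1, .ofNat 3, .ofNat 1, .ofNat 1, .negSucc 0], [.negSucc 2, .negSucc 0, .negSucc 0, .ofNat 1, .ofNat 1, .negSucc 2,
  .ofNat 1, .negSucc 8, .negSucc 2, .negSucc 0, .ofNat 1, .ofNat 3, .ofNat 1, .ofNat 1, .negSucc 0], [.ofNat 1, .ofNat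
  3, .negSucc 8, .negSucc 2, .ofNat 1, .negSucc 2, .ofNat 1, .negSucc 0, .negSucc 2, .ofNat 3, .ofNat 1, .negSucc 0,
  .negSucc 2, .ofNat 1, .negSucc 0], [.ofNat 1, .negSucc 0, .negSucc 0, .ofNat 1, .negSucc 2, .negSucc 2, .negSucc 2,
  .ofNat 3, .ofNat 1, .negSucc 0, .ofNat 1, .negSucc 0, .negSucc 2, .ofNat 1, .negSucc 0], [.negSucc 2, .negSucc 0,
  .ofNat 3, .ofNat 9, .ofNat 1, .ofNat 1, .ofNat 1, .negSucc 0, .ofNat 1, .negSucc 0, .ofNat 1, .negSucc 0, .ofNat 1,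
  .ofNat 1, .negSucc 0], [.ofNat 1, .ofNat 3, .negSucc 0, .ofNat 1, .ofNat 1, .ofNat 1, .ofNat 9, .negSucc 0, .ofNat 1,
  .negSucc 0, .ofNat 1, .negSucc 0, .negSucc 2, .ofNat 1, .ofNat 3], [.ofNat 1, .negSucc 0, .negSucc 0, .negSucc 2,
  .ofNat 1, .ofNat 1, .ofNat 1, .ofNat 3, .negSucc 2, .negSucc 0, .ofNat 1, .negSucc 0, .negSucc 2, .ofNat 1, .ofNat 3],
  [.negSucc 2, .negSucc 8, .ofNat 3, .ofNat 1, .negSucc 2, .negSucc 2, .negSucc 2, .negSucc 0, .ofNat 1, .negSucc 0,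
  .negSucc 2, .ofNat 3, .ofNat 1, .ofNat 1, .negSucc 0], [.ofNat 1, .negSucc 0, .negSucc 0, .ofNat 1, .negSucc 2, .ofNat
  1, .ofNat 1, .negSucc 0, .ofNat 1, .negSucc 0, .ofNat 1, .ofNat 3, .ofNat 1, .ofNat 1, .ofNat 3], [.ofNat 1, .negSucc
  0, .ofNat 3, .negSucc 2, .negSucc 2, .ofNat 1, .ofNat 1, .negSucc 0, .ofNat 1, .negSucc 0, .negSucc 2, .negSucc 0,
  .ofNat 1, .negSucc 2, .negSucc 0], [.negSucc 2, .negSucc 0, .negSucc 0, .negSucc 2, .ofNat 1, .ofNat 1, .negSucc 2,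
  .negSucc 0, .negSucc 2, .negSucc 0, .negSucc 2, .negSucc 0, .negSucc 2, .ofNat 1, .negSucc 0], [.ofNat 1, .negSucc 0,
  .negSucc 0, .negSucc 2, .negSucc 2, .negSucc 2, .negSucc 2, .negSucc 0, .ofNat 1, .ofNat 3, .ofNat 1, .negSucc 0,
  .ofNat 1, .negSucc 2, .negSucc 0], [.ofNat 1, .ofNat 3, .negSucc 0, .ofNat 1, .ofNat 1, .ofNat 1, .negSucc 2, .ofNat
  3, .negSucc 2, .ofNat 3, .ofNat 1, .negSucc 0, .ofNat 1, .negSucc 2, .negSucc 0], [.ofNat 1, .ofNat 3, .ofNat 3,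
  .ofNat 1, .ofNat 1, .negSucc 2, .ofNat 1, .negSucc 0, .ofNat 1, .negSucc 0, .ofNat 1, .negSucc 0, .ofNat 1, .ofNat 1,
  .ofNat 3], [.negSucc 2, .ofNat 3, .negSucc 0, .ofNat 1, .ofNat 9, .ofNat 1, .ofNat 1, .negSucc 0, .negSucc 2, .ofNat
  3, .ofNat 1, .negSucc 0, .ofNat 1, .ofNat 1, .negSucc 0], [.negSucc 2, .negSucc 0, .negSucc 0, .negSucc 2, .ofNat 1,
  .negSucc 2, .ofNat 1, .negSucc 0, .ofNat 1, .ofNat 3, .ofNat 1, .ofNat 3, .ofNat 1, .ofNat 1, .negSucc 0], [.negSucc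
  2, .negSucc 0, .negSucc 0, .ofNat 1, .ofNat 1, .ofNat 1, .negSucc 2, .ofNat 3, .ofNat 1, .negSucc 0, .negSucc 2,
  .negSucc 0, .ofNat 1, .ofNat 1, .negSucc 0], [.ofNat 1, .negSucc 0, .ofNat 3, .ofNat 1, .negSucc 2, .ofNat 1, .ofNat
  1, .ofNat 3, .ofNat 9, .negSucc 0, .negSucc 2, .negSucc 0, .ofNat 1, .ofNat 1, .negSucc 0], [.ofNat 1, .ofNat 3,
  .ofNat 3, .ofNat 1, .ofNat 1, .ofNat 9, .ofNat 1, .ofNat 3, .ofNat 1, .negSucc 0, .ofNat 1, .negSucc 0, .ofNat 1,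
  .negSucc 2, .negSucc 0]]

/-- Data. -/
def cb5nT : List (List ℤ) := [[.ofNat 0, .ofNat 0, .ofNat 0, .ofNat 0, .ofNat 0, .ofNat 0, .ofNat 0, .ofNat 0, .ofNat
  0, .ofNat 0, .ofNat 0, .ofNat 0, .ofNat 0, .ofNat 0, .negSucc 0], [.negSucc 0, .ofNat 1, .ofNat 0, .ofNat 0, .negSucc
  0, .ofNat 0, .ofNat 0, .ofNat 0, .ofNat 0, .ofNat 0, .ofNat 0, .ofNat 0, .ofNat 0, .ofNat 0, .ofNat 0], [.ofNat 0,
  .ofNat 0, .ofNat 0, .ofNat 0, .ofNat 0, .ofNat 0, .ofNat 0, .ofNat 0, .ofNat 0, .ofNat 0, .ofNat 0, .negSucc 0, .ofNat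
  0, .ofNat 0, .ofNat 0], [.ofNat 0, .ofNat 0, .ofNat 1, .ofNat 0, .ofNat 0, .ofNat 0, .ofNat 0, .ofNat 0, .ofNat 0,
  .ofNat 1, .ofNat 0, .ofNat 0, .negSucc 0, .ofNat 0, .ofNat 0], [.negSucc 0, .ofNat 0, .ofNat 0, .ofNat 0, .ofNat 0,
  .ofNat 0, .ofNat 0, .ofNat 0, .ofNat 0, .ofNat 0, .ofNat 0, .ofNat 0, .ofNat 0, .negSucc 0, .ofNat 1], [.ofNat 0,
  .ofNat 0, .ofNat 0, .ofNat 0, .ofNat 0, .ofNat 0, .ofNat 0, .ofNat 0, .ofNat 0, .ofNat 1, .negSucc 0, .ofNat 0, .ofNat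
  0, .ofNat 0, .ofNat 1], [.ofNat 0, .ofNat 0, .ofNat 0, .ofNat 0, .ofNat 1, .ofNat 0, .negSucc 0, .ofNat 0, .ofNat 1,
  .ofNat 0, .ofNat 0, .ofNat 1, .negSucc 0, .negSucc 0, .ofNat 1], [.ofNat 0, .ofNat 0, .ofNat 0, .ofNat 0, .ofNat 0,
  .ofNat 0, .ofNat 0, .ofNat 0, .ofNat 0, .ofNat 0, .ofNat 0, .ofNat 0, .ofNat 1, .ofNat 0, .ofNat 0], [.ofNat 0, .ofNat
  1, .ofNat 0, .ofNat 0, .ofNat 0, .ofNat 0, .ofNat 0, .ofNat 0, .ofNat 0, .ofNat 0, .negSucc 0, .ofNat 1, .ofNat 0,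
  .ofNat 0, .ofNat 0], [.ofNat 0, .ofNat 0, .ofNat 0, .negSucc 0, .ofNat 0, .ofNat 0, .ofNat 0, .ofNat 0, .ofNat 0,
  .negSucc 0, .ofNat 1, .negSucc 0, .ofNat 1, .ofNat 1, .negSucc 0], [.ofNat 0, .ofNat 0, .ofNat 0, .ofNat 0, .ofNat 0,
  .ofNat 0, .ofNat 0, .ofNat 0, .ofNat 0, .ofNat 0, .ofNat 0, .ofNat 0, .ofNat 0, .ofNat 1, .ofNat 0], [.ofNat 0,
  .negSucc 0, .negSucc 0, .ofNat 0, .ofNat 1, .ofNat 0, .ofNat 0, .ofNat 0, .ofNat 1, .negSucc 0, .ofNat 1, .ofNat 0,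
  .ofNat 0, .negSucc 0, .ofNat 0], [.ofNat 0, .ofNat 0, .ofNat 0, .ofNat 0, .negSucc 0, .ofNat 0, .ofNat 1, .ofNat 1,
  .negSucc 0, .ofNat 0, .ofNat 0, .ofNat 0, .ofNat 1, .ofNat 1, .negSucc 0], [.ofNat 0, .ofNat 0, .ofNat 0, .ofNat 0,
  .ofNat 0, .ofNat 0, .ofNat 0, .ofNat 0, .ofNat 0, .negSucc 0, .ofNat 0, .ofNat 0, .ofNat 0, .ofNat 0, .ofNat 0],
  [.ofNat 1, .negSucc 0, .ofNat 0, .ofNat 0, .ofNat 0, .ofNat 1, .ofNat 0, .negSucc 0, .ofNat 0, .ofNat 1, .ofNat 0,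
  .negSucc 0, .ofNat 0, .ofNat 1, .ofNat 0], [.ofNat 0, .ofNat 0, .ofNat 0, .ofNat 0, .ofNat 0, .ofNat 0, .ofNat 0,
  .ofNat 0, .ofNat 0, .ofNat 0, .ofNat 0, .ofNat 1, .negSucc 0, .negSucc 0, .ofNat 0], [.ofNat 0, .ofNat 0, .ofNat 0,
  .ofNat 0, .negSucc 0, .ofNat 0, .ofNat 0, .ofNat 0, .negSucc 0, .ofNat 0, .ofNat 0, .negSucc 0, .ofNat 1, .ofNat 1,
  .ofNat 0], [.ofNat 1, .ofNat 0, .ofNat 0, .ofNat 1, .ofNat 1, .ofNat 0, .negSucc 0, .negSucc 0, .ofNat 1, .ofNat 1,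
  .negSucc 0, .ofNat 1, .negSucc 1, .negSucc 0, .ofNat 1], [.ofNat 0, .ofNat 0, .ofNat 0, .ofNat 0, .ofNat 0, .ofNat 0,
  .ofNat 0, .ofNat 0, .ofNat 0, .ofNat 0, .ofNat 1, .ofNat 0, .ofNat 0, .ofNat 0, .ofNat 0], [.ofNat 0, .ofNat 0, .ofNat
  0, .ofNat 0, .ofNat 0, .negSucc 0, .ofNat 1, .ofNat 1, .negSucc 0, .negSucc 0, .ofNat 0, .ofNat 0, .ofNat 1, .ofNat 0,
  .negSucc 0], [.ofNat 1, .ofNat 0, .ofNat 0, .ofNat 0, .ofNat 0, .ofNat 0, .ofNat 0, .ofNat 0, .ofNat 0, .ofNat 0,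
  .ofNat 0, .ofNat 0, .ofNat 0, .ofNat 0, .ofNat 0], [.ofNat 1, .ofNat 0, .ofNat 1, .ofNat 0, .ofNat 0, .ofNat 0, .ofNat
  0, .ofNat 0, .negSucc 0, .ofNat 0, .ofNat 0, .ofNat 0, .ofNat 0, .ofNat 1, .negSucc 0], [.ofNat 0, .ofNat 0, .ofNat 0,
  .ofNat 0, .ofNat 0, .ofNat 0, .ofNat 0, .negSucc 0, .ofNat 0, .ofNat 0, .ofNat 0, .ofNat 0, .ofNat 0, .ofNat 0, .ofNat
  0], [.ofNat 0, .ofNat 0, .negSucc 0, .ofNat 0, .ofNat 0, .ofNat 0, .ofNat 0, .ofNat 0, .ofNat 0, .ofNat 0, .ofNat 0,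
  .ofNat 0, .ofNat 0, .ofNat 0, .ofNat 0], [.ofNat 0, .ofNat 0, .ofNat 0, .ofNat 0, .ofNat 0, .negSucc 0, .ofNat 0,
  .ofNat 1, .ofNat 0, .negSucc 0, .ofNat 1, .ofNat 0, .ofNat 0, .ofNat 0, .negSucc 0], [.ofNat 0, .ofNat 0, .ofNat 0,
  .ofNat 1, .ofNat 0, .ofNat 0, .ofNat 0, .ofNat 0, .ofNat 0, .ofNat 0, .ofNat 0, .ofNat 0, .ofNat 0, .ofNat 0, .ofNat
  0], [.ofNat 0, .ofNat 0, .ofNat 0, .ofNat 0, .ofNat 0, .ofNat 0, .ofNat 1, .ofNat 0, .ofNat 0, .ofNat 0, .ofNat 0,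
  .ofNat 0, .ofNat 0, .ofNat 0, .ofNat 0], [.ofNat 0, .negSucc 0, .ofNat 0, .negSucc 0, .ofNat 0, .ofNat 0, .ofNat 1,
  .ofNat 1, .negSucc 0, .negSucc 0, .ofNat 1, .negSucc 0, .ofNat 1, .ofNat 1, .negSucc 0], [.ofNat 0, .negSucc 0, .ofNat
  0, .ofNat 0, .ofNat 0, .ofNat 0, .ofNat 0, .ofNat 0, .ofNat 0, .ofNat 0, .ofNat 0, .ofNat 0, .ofNat 0, .ofNat 0,
  .ofNat 0], [.ofNat 0, .ofNat 0, .negSucc 0, .ofNat 1, .ofNat 0, .ofNat 1, .negSucc 0, .negSucc 0, .ofNat 1, .ofNat 1,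
  .negSucc 0, .ofNat 1, .negSucc 0, .negSucc 0, .ofNat 2], [.ofNat 0, .ofNat 0, .ofNat 1, .negSucc 0, .negSucc 0, .ofNat
  0, .ofNat 1, .ofNat 0, .negSucc 0, .ofNat 0, .ofNat 0, .negSucc 0, .ofNat 1, .ofNat 1, .negSucc 0], [.ofNat 0, .ofNat
  0, .ofNat 0, .ofNat 0, .ofNat 0, .ofNat 1, .negSucc 0, .negSucc 0, .ofNat 0, .ofNat 1, .negSucc 0, .ofNat 0, .negSucc
  0, .ofNat 0, .ofNat 1], [.ofNat 0, .ofNat 0, .ofNat 0, .ofNat 0, .ofNat 0, .ofNat 0, .negSucc 0, .negSucc 0, .ofNat 1,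
  .ofNat 1, .ofNat 0, .ofNat 0, .negSucc 0, .negSucc 0, .ofNat 1], [.ofNat 0, .ofNat 1, .ofNat 0, .ofNat 1, .ofNat 0,
  .ofNat 0, .negSucc 0, .ofNat 0, .ofNat 0, .ofNat 1, .negSucc 0, .ofNat 1, .negSucc 0, .negSucc 0, .ofNat 1], [.ofNat
  0, .ofNat 1, .ofNat 1, .ofNat 0, .ofNat 0, .negSucc 0, .ofNat 0, .ofNat 0, .ofNat 0, .ofNat 0, .ofNat 0, .ofNat 0,
  .ofNat 0, .ofNat 0, .ofNat 0], [.ofNat 0, .ofNat 0, .ofNat 0, .ofNat 0, .ofNat 1, .ofNat 0, .ofNat 0, .ofNat 0, .ofNat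
  0, .ofNat 0, .ofNat 0, .ofNat 0, .ofNat 0, .ofNat 0, .ofNat 0], [.negSucc 0, .ofNat 0, .ofNat 0, .negSucc 0, .ofNat 0,
  .negSucc 0, .ofNat 1, .ofNat 1, .ofNat 0, .negSucc 0, .ofNat 1, .ofNat 0, .ofNat 1, .ofNat 0, .negSucc 0], [.negSucc
  0, .ofNat 0, .negSucc 0, .ofNat 0, .ofNat 0, .ofNat 0, .ofNat 0, .ofNat 1, .ofNat 0, .negSucc 0, .ofNat 0, .ofNat 0,
  .ofNat 1, .ofNat 0, .ofNat 0], [.ofNat 0, .ofNat 0, .ofNat 0, .ofNat 0, .ofNat 0, .ofNat 0, .ofNat 0, .ofNat 0, .ofNat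
  1, .ofNat 0, .ofNat 0, .ofNat 0, .ofNat 0, .ofNat 0, .ofNat 0], [.ofNat 0, .ofNat 0, .ofNat 0, .ofNat 0, .ofNat 0,
  .ofNat 1, .ofNat 0, .ofNat 0, .ofNat 0, .ofNat 0, .ofNat 0, .ofNat 0, .ofNat 0, .ofNat 0, .ofNat 0]]

/-- Data. -/
def cb5r : List Row := [⟨.ofNat 7560, 1, .ofNat 1, []⟩, ⟨.ofNat 504, 1, .ofNat 4, [.ofNat 1]⟩, ⟨.ofNat 1008, 1, .ofNat
  3, [.negSucc 0, .negSucc 0]⟩, ⟨.ofNat 3024, 1, .ofNat 2, [.negSucc 0, .negSucc 0, .ofNat 1]⟩, ⟨.ofNat 378, 1, .ofNat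
  5, [.negSucc 0, .ofNat 1, .ofNat 1, .negSucc 0]⟩, ⟨.ofNat 630, 1, .ofNat 4, [.negSucc 0, .ofNat 1, .ofNat 1, .negSucc
  0, .ofNat 1]⟩, ⟨.ofNat 126, 1, .ofNat 10, [.ofNat 0, .ofNat 4, .ofNat 0, .ofNat 4, .ofNat 5, .ofNat 5]⟩, ⟨.ofNat 144,
  1, .ofNat 10, [.ofNat 2, .ofNat 0, .ofNat 2, .ofNat 0, .ofNat 0, .ofNat 5, .negSucc 4]⟩, ⟨.ofNat 90, 1, .ofNat 14,
  [.ofNat 4, .ofNat 0, .ofNat 4, .ofNat 0, .negSucc 6, .ofNat 3, .ofNat 4, .ofNat 6]⟩, ⟨.ofNat 210, 1, .ofNat 8, [.ofNat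
  0, .ofNat 0, .negSucc 3, .negSucc 3, .ofNat 2, .negSucc 2, .ofNat 1, .ofNat 3, .negSucc 0]⟩, ⟨.ofNat 70, 1, .ofNat 16,
  [.ofNat 0, .ofNat 8, .negSucc 3, .ofNat 4, .ofNat 4, .ofNat 3, .ofNat 1, .negSucc 0, .negSucc 4, .ofNat 8]⟩, ⟨.ofNat
  1680, 1, .ofNat 3, [.ofNat 0, .negSucc 0, .ofNat 0, .negSucc 0, .negSucc 0, .ofNat 0, .ofNat 0, .negSucc 0, .negSucc
  0, .ofNat 0, .ofNat 1]⟩, ⟨.ofNat 560, 2, .ofNat 6, [.ofNat 0, .negSucc 0, .ofNat 2, .ofNat 1, .ofNat 1, .ofNat 0,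
  .negSucc 1, .negSucc 0, .ofNat 1, .ofNat 2, .ofNat 1, .ofNat 3]⟩, ⟨.ofNat 560, 1, .ofNat 6, [.negSucc 2, .negSucc 0,
  .negSucc 0, .ofNat 1, .ofNat 1, .negSucc 1, .ofNat 0, .negSucc 0, .ofNat 1, .ofNat 0, .ofNat 0, .ofNat 2, .negSucc
  1]⟩, ⟨.ofNat 280, 2, .ofNat 9, [.ofNat 3, .ofNat 1, .ofNat 1, .negSucc 0, .negSucc 0, .negSucc 0, .ofNat 3, .ofNat 1,
  .negSucc 0, .negSucc 2, .ofNat 3, .ofNat 1, .negSucc 0, .ofNat 3]⟩]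

/-- The data of the component. -/
def cb5 : CD := ⟨.ofNat 24, .ofNat 105, .ofNat 22680, cb5P, cb5b, cb5n, cb5bT, cb5nT, cb5r⟩

theorem cb5A : chkA 40 15 cb5 = true := by decide +kernel

theorem cb5B : chkB 40 cb5 = true := by decide +kernel

theorem cb5C : chkC 40 15 cb5 = true := by decide +kernel

theorem cb5D : chkD cb5 = true := by decide +kernel

theorem cb5_is : IsCD 40 15 cb5 := isCD cb5A cb5B cb5C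

end Pool.Agent.Helper60.E8Z
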