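import Pool.Agent.Helper60.E8Z.Comp

/-!
# Project E8Z, (E2): the component of dimension 6 of the fixed vectors of `t ^ 3`
-/

set_option autoImplicit false

namespace Pool.Agent.Helper60.E8Z

/-- Data. -/
def cd3P : List (List ℤ) := [[.ofNat 5, .ofNat 1, .ofNat 1, .negSucc 4, .negSucc 0, .negSucc 0, .negSucc 1, .negSucc
  1, .ofNat 2, .negSucc 1, .negSucc 1, .ofNat 2, .ofNat 2, .ofNat 2, .ofNat 0, .ofNat 2, .ofNat 2, .ofNat 0, .ofNat 1,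
  .negSucc 0, .ofNat 1, .ofNat 1, .ofNat 1, .negSucc 0], [.ofNat 1, .ofNat 5, .ofNat 1, .negSucc 0, .negSucc 4, .negSucc
  0, .ofNat 2, .negSucc 1, .negSucc 1, .ofNat 2, .negSucc 1, .negSucc 1, .ofNat 0, .ofNat 2, .ofNat 2, .ofNat 0, .ofNat
  2, .ofNat 2, .ofNat 1, .ofNat 1, .negSucc 0, .negSucc 0, .ofNat 1, .ofNat 1], [.ofNat 1, .ofNat 1, .ofNat 5, .negSucc
  0, .negSucc 0, .negSucc 4, .negSucc 1, .ofNat 2, .negSucc 1, .negSucc 1, .ofNat 2, .negSucc 1, .ofNat 2, .ofNat 0,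
  .ofNat 2, .ofNat 2, .ofNat 0, .ofNat 2, .negSucc 0, .ofNat 1, .ofNat 1, .ofNat 1, .negSucc 0, .ofNat 1], [.negSucc 4,
  .negSucc 0, .negSucc 0, .ofNat 5, .ofNat 1, .ofNat 1, .ofNat 2, .ofNat 2, .negSucc 1, .ofNat 2, .ofNat 2, .negSucc 1,
  .negSucc 1, .negSucc 1, .ofNat 0, .negSucc 1, .negSucc 1, .ofNat 0, .negSucc 0, .ofNat 1, .negSucc 0, .negSucc 0,
  .negSucc 0, .ofNat 1], [.negSucc 0, .negSucc 4, .negSucc 0, .ofNat 1, .ofNat 5, .ofNat 1, .negSucc 1, .ofNat 2, .ofNat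
  2, .negSucc 1, .ofNat 2, .ofNat 2, .ofNat 0, .negSucc 1, .negSucc 1, .ofNat 0, .negSucc 1, .negSucc 1, .negSucc 0,
  .negSucc 0, .ofNat 1, .ofNat 1, .negSucc 0, .negSucc 0], [.negSucc 0, .negSucc 0, .negSucc 4, .ofNat 1, .ofNat 1,
  .ofNat 5, .ofNat 2, .negSucc 1, .ofNat 2, .ofNat 2, .negSucc 1, .ofNat 2, .negSucc 1, .ofNat 0, .negSucc 1, .negSucc
  1, .ofNat 0, .negSucc 1, .ofNat 1, .negSucc 0, .negSucc 0, .negSucc 0, .ofNat 1, .negSucc 0], [.negSucc 1, .ofNat 2,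
  .negSucc 1, .ofNat 2, .negSucc 1, .ofNat 2, .ofNat 5, .ofNat 1, .ofNat 1, .ofNat 5, .ofNat 1, .ofNat 1, .negSucc 0,
  .ofNat 1, .ofNat 1, .negSucc 0, .ofNat 1, .ofNat 1, .ofNat 2, .ofNat 2, .ofNat 0, .ofNat 0, .ofNat 2, .ofNat 2],
  [.negSucc 1, .negSucc 1, .ofNat 2, .ofNat 2, .ofNat 2, .negSucc 1, .ofNat 1, .ofNat 5, .ofNat 1, .ofNat 1, .ofNat 5,
  .ofNat 1, .ofNat 1, .negSucc 0, .ofNat 1, .ofNat 1, .negSucc 0, .ofNat 1, .ofNat 0, .ofNat 2, .ofNat 2, .ofNat 2,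
  .ofNat 0, .ofNat 2], [.ofNat 2, .negSucc 1, .negSucc 1, .negSucc 1, .ofNat 2, .ofNat 2, .ofNat 1, .ofNat 1, .ofNat 5,
  .ofNat 1, .ofNat 1, .ofNat 5, .ofNat 1, .ofNat 1, .negSucc 0, .ofNat 1, .ofNat 1, .negSucc 0, .ofNat 2, .ofNat 0,
  .ofNat 2, .ofNat 2, .ofNat 2, .ofNat 0], [.negSucc 1, .ofNat 2, .negSucc 1, .ofNat 2, .negSucc 1, .ofNat 2, .ofNat 5,
  .ofNat 1, .ofNat 1, .ofNat 5, .ofNat 1, .ofNat 1, .negSucc 0, .ofNat 1, .ofNat 1, .negSucc 0, .ofNat 1, .ofNat 1,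
  .ofNat 2, .ofNat 2, .ofNat 0, .ofNat 0, .ofNat 2, .ofNat 2], [.negSucc 1, .negSucc 1, .ofNat 2, .ofNat 2, .ofNat 2,
  .negSucc 1, .ofNat 1, .ofNat 5, .ofNat 1, .ofNat 1, .ofNat 5, .ofNat 1, .ofNat 1, .negSucc 0, .ofNat 1, .ofNat 1,
  .negSucc 0, .ofNat 1, .ofNat 0, .ofNat 2, .ofNat 2, .ofNat 2, .ofNat 0, .ofNat 2], [.ofNat 2, .negSucc 1, .negSucc 1,
  .negSucc 1, .ofNat 2, .ofNat 2, .ofNat 1, .ofNat 1, .ofNat 5, .ofNat 1, .ofNat 1, .ofNat 5, .ofNat 1, .ofNat 1,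
  .negSucc 0, .ofNat 1, .ofNat 1, .negSucc 0, .ofNat 2, .ofNat 0, .ofNat 2, .ofNat 2, .ofNat 2, .ofNat 0], [.ofNat 2,
  .ofNat 0, .ofNat 2, .negSucc 1, .ofNat 0, .negSucc 1, .negSucc 0, .ofNat 1, .ofNat 1, .negSucc 0, .ofNat 1, .ofNat 1,
  .ofNat 5, .negSucc 0, .negSucc 0, .ofNat 5, .negSucc 0, .negSucc 0, .ofNat 2, .ofNat 2, .negSucc 1, .negSucc 1, .ofNat
  2, .ofNat 2], [.ofNat 2, .ofNat 2, .ofNat 0, .negSucc 1, .negSucc 1, .ofNat 0, .ofNat 1, .negSucc 0, .ofNat 1, .ofNat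
  1, .negSucc 0, .ofNat 1, .negSucc 0, .ofNat 5, .negSucc 0, .negSucc 0, .ofNat 5, .negSucc 0, .negSucc 1, .ofNat 2,
  .ofNat 2, .ofNat 2, .negSucc 1, .ofNat 2], [.ofNat 0, .ofNat 2, .ofNat 2, .ofNat 0, .negSucc 1, .negSucc 1, .ofNat 1,
  .ofNat 1, .negSucc 0, .ofNat 1, .ofNat 1, .negSucc 0, .negSucc 0, .negSucc 0, .ofNat 5, .negSucc 0, .negSucc 0, .ofNat
  5, .ofNat 2, .negSucc 1, .ofNat 2, .ofNat 2, .ofNat 2, .negSucc 1], [.ofNat 2, .ofNat 0, .ofNat 2, .negSucc 1, .ofNat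
  0, .negSucc 1, .negSucc 0, .ofNat 1, .ofNat 1, .negSucc 0, .ofNat 1, .ofNat 1, .ofNat 5, .negSucc 0, .negSucc 0,
  .ofNat 5, .negSucc 0, .negSucc 0, .ofNat 2, .ofNat 2, .negSucc 1, .negSucc 1, .ofNat 2, .ofNat 2], [.ofNat 2, .ofNat
  2, .ofNat 0, .negSucc 1, .negSucc 1, .ofNat 0, .ofNat 1, .negSucc 0, .ofNat 1, .ofNat 1, .negSucc 0, .ofNat 1,
  .negSucc 0, .ofNat 5, .negSucc 0, .negSucc 0, .ofNat 5, .negSucc 0, .negSucc 1, .ofNat 2, .ofNat 2, .ofNat 2, .negSucc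
  1, .ofNat 2], [.ofNat 0, .ofNat 2, .ofNat 2, .ofNat 0, .negSucc 1, .negSucc 1, .ofNat 1, .ofNat 1, .negSucc 0, .ofNat
  1, .ofNat 1, .negSucc 0, .negSucc 0, .negSucc 0, .ofNat 5, .negSucc 0, .negSucc 0, .ofNat 5, .ofNat 2, .negSucc 1,
  .ofNat 2, .ofNat 2, .ofNat 2, .negSucc 1], [.ofNat 1, .ofNat 1, .negSucc 0, .negSucc 0, .negSucc 0, .ofNat 1, .ofNat
  2, .ofNat 0, .ofNat 2, .ofNat 2, .ofNat 0, .ofNat 2, .ofNat 2, .negSucc 1, .ofNat 2, .ofNat 2, .negSucc 1, .ofNat 2,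
  .ofNat 5, .negSucc 0, .negSucc 0, .negSucc 0, .ofNat 5, .negSucc 0], [.negSucc 0, .ofNat 1, .ofNat 1, .ofNat 1,
  .negSucc 0, .negSucc 0, .ofNat 2, .ofNat 2, .ofNat 0, .ofNat 2, .ofNat 2, .ofNat 0, .ofNat 2, .ofNat 2, .negSucc 1,
  .ofNat 2, .ofNat 2, .negSucc 1, .negSucc 0, .ofNat 5, .negSucc 0, .negSucc 0, .negSucc 0, .ofNat 5], [.ofNat 1,
  .negSucc 0, .ofNat 1, .negSucc 0, .ofNat 1, .negSucc 0, .ofNat 0, .ofNat 2, .ofNat 2, .ofNat 0, .ofNat 2, .ofNat 2,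
  .negSucc 1, .ofNat 2, .ofNat 2, .negSucc 1, .ofNat 2, .ofNat 2, .negSucc 0, .negSucc 0, .ofNat 5, .ofNat 5, .negSucc
  0, .negSucc 0], [.ofNat 1, .negSucc 0, .ofNat 1, .negSucc 0, .ofNat 1, .negSucc 0, .ofNat 0, .ofNat 2, .ofNat 2,
  .ofNat 0, .ofNat 2, .ofNat 2, .negSucc 1, .ofNat 2, .ofNat 2, .negSucc 1, .ofNat 2, .ofNat 2, .negSucc 0, .negSucc 0,
  .ofNat 5, .ofNat 5, .negSucc 0, .negSucc 0], [.ofNat 1, .ofNat 1, .negSucc 0, .negSucc 0, .negSucc 0, .ofNat 1, .ofNat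
  2, .ofNat 0, .ofNat 2, .ofNat 2, .ofNat 0, .ofNat 2, .ofNat 2, .negSucc 1, .ofNat 2, .ofNat 2, .negSucc 1, .ofNat 2,
  .ofNat 5, .negSucc 0, .negSucc 0, .negSucc 0, .ofNat 5, .negSucc 0], [.negSucc 0, .ofNat 1, .ofNat 1, .ofNat 1,
  .negSucc 0, .negSucc 0, .ofNat 2, .ofNat 2, .ofNat 0, .ofNat 2, .ofNat 2, .ofNat 0, .ofNat 2, .ofNat 2, .negSucc 1,
  .ofNat 2, .ofNat 2, .negSucc 1, .negSucc 0, .ofNat 5, .negSucc 0, .negSucc 0, .negSucc 0, .ofNat 5]]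

/-- Data. -/
def cd3b : List (List ℤ) := [[.negSucc 4, .negSucc 0, .negSucc 0, .ofNat 5, .ofNat 1, .ofNat 1, .ofNat 2, .ofNat 2,
  .negSucc 1, .ofNat 2, .ofNat 2, .negSucc 1, .negSucc 1, .negSucc 1, .ofNat 0, .negSucc 1, .negSucc 1, .ofNat 0,
  .negSucc 0, .ofNat 1, .negSucc 0, .negSucc 0, .negSucc 0, .ofNat 1], [.ofNat 2, .negSucc 1, .ofNat 2, .negSucc 1,
  .ofNat 2, .negSucc 1, .negSucc 4, .negSucc 0, .negSucc 0, .negSucc 4, .negSucc 0, .negSucc 0, .ofNat 1, .negSucc 0,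
  .negSucc 0, .ofNat 1, .negSucc 0, .negSucc 0, .negSucc 1, .negSucc 1, .ofNat 0, .ofNat 0, .negSucc 1, .negSucc 1],
  [.ofNat 1, .ofNat 5, .ofNat 1, .negSucc 0, .negSucc 4, .negSucc 0, .ofNat 2, .negSucc 1, .negSucc 1, .ofNat 2,
  .negSucc 1, .negSucc 1, .ofNat 0, .ofNat 2, .ofNat 2, .ofNat 0, .ofNat 2, .ofNat 2, .ofNat 1, .ofNat 1, .negSucc 0,
  .negSucc 0, .ofNat 1, .ofNat 1], [.ofNat 1, .negSucc 0, .ofNat 1, .negSucc 0, .ofNat 1, .negSucc 0, .ofNat 0, .ofNat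
  2, .ofNat 2, .ofNat 0, .ofNat 2, .ofNat 2, .negSucc 1, .ofNat 2, .ofNat 2, .negSucc 1, .ofNat 2, .ofNat 2, .negSucc 0,
  .negSucc 0, .ofNat 5, .ofNat 5, .negSucc 0, .negSucc 0], [.ofNat 1, .negSucc 0, .negSucc 0, .negSucc 0, .ofNat 1,
  .ofNat 1, .negSucc 1, .negSucc 1, .ofNat 0, .negSucc 1, .negSucc 1, .ofNat 0, .negSucc 1, .negSucc 1, .ofNat 2,
  .negSucc 1, .negSucc 1, .ofNat 2, .ofNat 1, .negSucc 4, .ofNat 1, .ofNat 1, .ofNat 1, .negSucc 4], [.negSucc 1,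
  .negSucc 1, .ofNat 0, .ofNat 2, .ofNat 2, .ofNat 0, .negSucc 0, .ofNat 1, .negSucc 0, .negSucc 0, .ofNat 1, .negSucc
  0, .ofNat 1, .negSucc 4, .ofNat 1, .ofNat 1, .negSucc 4, .ofNat 1, .ofNat 2, .negSucc 1, .negSucc 1, .negSucc 1,
  .ofNat 2, .negSucc 1]]

/-- Data. -/
def cd3n : List (List ℤ) := [[.negSucc 0, .ofNat 0, .ofNat 0, .ofNat 1, .ofNat 0, .ofNat 0, .ofNat 0, .ofNat 0,
  .negSucc 0, .ofNat 0, .ofNat 0, .negSucc 0, .negSucc 0, .ofNat 0, .ofNat 0, .negSucc 0, .ofNat 0, .ofNat 0, .negSucc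
  0, .ofNat 0, .ofNat 0, .ofNat 0, .negSucc 0, .ofNat 0], [.ofNat 0, .ofNat 0, .ofNat 1, .ofNat 0, .ofNat 0, .negSucc 0,
  .negSucc 0, .ofNat 0, .negSucc 0, .negSucc 0, .ofNat 0, .negSucc 0, .ofNat 0, .ofNat 0, .ofNat 0, .ofNat 0, .ofNat 0,
  .ofNat 0, .negSucc 0, .ofNat 0, .ofNat 0, .ofNat 0, .negSucc 0, .ofNat 0], [.ofNat 0, .ofNat 1, .ofNat 1, .ofNat 0,
  .negSucc 0, .negSucc 0, .ofNat 0, .ofNat 0, .negSucc 0, .ofNat 0, .ofNat 0, .negSucc 0, .ofNat 0, .ofNat 0, .ofNat 1,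
  .ofNat 0, .ofNat 0, .ofNat 1, .ofNat 0, .ofNat 0, .ofNat 0, .ofNat 0, .ofNat 0, .ofNat 0], [.ofNat 0, .ofNat 0, .ofNat
  1, .ofNat 0, .ofNat 0, .negSucc 0, .ofNat 0, .ofNat 1, .ofNat 0, .ofNat 0, .ofNat 1, .ofNat 0, .ofNat 0, .ofNat 0,
  .ofNat 1, .ofNat 0, .ofNat 0, .ofNat 1, .ofNat 0, .ofNat 0, .ofNat 1, .ofNat 1, .ofNat 0, .ofNat 0], [.ofNat 0, .ofNat
  0, .negSucc 0, .ofNat 0, .ofNat 0, .ofNat 1, .ofNat 0, .negSucc 0, .ofNat 0, .ofNat 0, .negSucc 0, .ofNat 0, .negSucc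
  0, .ofNat 0, .ofNat 0, .negSucc 0, .ofNat 0, .ofNat 0, .ofNat 0, .negSucc 0, .ofNat 0, .ofNat 0, .ofNat 0, .negSucc
  0], [.ofNat 0, .ofNat 0, .ofNat 1, .ofNat 0, .ofNat 0, .negSucc 0, .ofNat 0, .ofNat 1, .ofNat 0, .ofNat 0, .ofNat 1,
  .ofNat 0, .ofNat 1, .negSucc 0, .ofNat 1, .ofNat 1, .negSucc 0, .ofNat 1, .ofNat 1, .ofNat 0, .ofNat 0, .ofNat 0,
  .ofNat 1, .ofNat 0]]

/-- Data. -/
def cd3bT : List (List ℤ) := [[.negSucc 4, .ofNat 2, .ofNat 1, .ofNat 1, .ofNat 1, .negSucc 1], [.negSucc 0, .negSucc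
  1, .ofNat 5, .negSucc 0, .negSucc 0, .negSucc 1], [.negSucc 0, .ofNat 2, .ofNat 1, .ofNat 1, .negSucc 0, .ofNat 0],
  [.ofNat 5, .negSucc 1, .negSucc 0, .negSucc 0, .negSucc 0, .ofNat 2], [.ofNat 1, .ofNat 2, .negSucc 4, .ofNat 1,
  .ofNat 1, .ofNat 2], [.ofNat 1, .negSucc 1, .negSucc 0, .negSucc 0, .ofNat 1, .ofNat 0], [.ofNat 2, .negSucc 4, .ofNat
  2, .ofNat 0, .negSucc 1, .negSucc 0], [.ofNat 2, .negSucc 0, .negSucc 1, .ofNat 2, .negSucc 1, .ofNat 1], [.negSucc 1,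
  .negSucc 0, .negSucc 1, .ofNat 2, .ofNat 0, .negSucc 0], [.ofNat 2, .negSucc 4, .ofNat 2, .ofNat 0, .negSucc 1,
  .negSucc 0], [.ofNat 2, .negSucc 0, .negSucc 1, .ofNat 2, .negSucc 1, .ofNat 1], [.negSucc 1, .negSucc 0, .negSucc 1,
  .ofNat 2, .ofNat 0, .negSucc 0], [.negSucc 1, .ofNat 1, .ofNat 0, .negSucc 1, .negSucc 1, .ofNat 1], [.negSucc 1,
  .negSucc 0, .ofNat 2, .ofNat 2, .negSucc 1, .negSucc 4], [.ofNat 0, .negSucc 0, .ofNat 2, .ofNat 2, .ofNat 2, .ofNat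
  1], [.negSucc 1, .ofNat 1, .ofNat 0, .negSucc 1, .negSucc 1, .ofNat 1], [.negSucc 1, .negSucc 0, .ofNat 2, .ofNat 2,
  .negSucc 1, .negSucc 4], [.ofNat 0, .negSucc 0, .ofNat 2, .ofNat 2, .ofNat 2, .ofNat 1], [.negSucc 0, .negSucc 1,
  .ofNat 1, .negSucc 0, .ofNat 1, .ofNat 2], [.ofNat 1, .negSucc 1, .ofNat 1, .negSucc 0, .negSucc 4, .negSucc 1],
  [.negSucc 0, .ofNat 0, .negSucc 0, .ofNat 5, .ofNat 1, .negSucc 1], [.negSucc 0, .ofNat 0, .negSucc 0, .ofNat 5,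
  .ofNat 1, .negSucc 1], [.negSucc 0, .negSucc 1, .ofNat 1, .negSucc 0, .ofNat 1, .ofNat 2], [.ofNat 1, .negSucc 1,
  .ofNat 1, .negSucc 0, .negSucc 4, .negSucc 1]]

/-- Data. -/
def cd3nT : List (List ℤ) := [[.negSucc 0, .ofNat 0, .ofNat 0, .ofNat 0, .ofNat 0, .ofNat 0], [.ofNat 0, .ofNat 0,
  .ofNat 1, .ofNat 0, .ofNat 0, .ofNat 0], [.ofNat 0, .ofNat 1, .ofNat 1, .ofNat 1, .negSucc 0, .ofNat 1], [.ofNat 1,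
  .ofNat 0, .ofNat 0, .ofNat 0, .ofNat 0, .ofNat 0], [.ofNat 0, .ofNat 0, .negSucc 0, .ofNat 0, .ofNat 0, .ofNat 0],
  [.ofNat 0, .negSucc 0, .negSucc 0, .negSucc 0, .ofNat 1, .negSucc 0], [.ofNat 0, .negSucc 0, .ofNat 0, .ofNat 0,
  .ofNat 0, .ofNat 0], [.ofNat 0, .ofNat 0, .ofNat 0, .ofNat 1, .negSucc 0, .ofNat 1], [.negSucc 0, .negSucc 0, .negSucc
  0, .ofNat 0, .ofNat 0, .ofNat 0], [.ofNat 0, .negSucc 0, .ofNat 0, .ofNat 0, .ofNat 0, .ofNat 0], [.ofNat 0, .ofNat 0,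
  .ofNat 0, .ofNat 1, .negSucc 0, .ofNat 1], [.negSucc 0, .negSucc 0, .negSucc 0, .ofNat 0, .ofNat 0, .ofNat 0],
  [.negSucc 0, .ofNat 0, .ofNat 0, .ofNat 0, .negSucc 0, .ofNat 1], [.ofNat 0, .ofNat 0, .ofNat 0, .ofNat 0, .ofNat 0,
  .negSucc 0], [.ofNat 0, .ofNat 0, .ofNat 1, .ofNat 1, .ofNat 0, .ofNat 1], [.negSucc 0, .ofNat 0, .ofNat 0, .ofNat 0,
  .negSucc 0, .ofNat 1], [.ofNat 0, .ofNat 0, .ofNat 0, .ofNat 0, .ofNat 0, .negSucc 0], [.ofNat 0, .ofNat 0, .ofNat 1,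
  .ofNat 1, .ofNat 0, .ofNat 1], [.negSucc 0, .negSucc 0, .ofNat 0, .ofNat 0, .ofNat 0, .ofNat 1], [.ofNat 0, .ofNat 0,
  .ofNat 0, .ofNat 0, .negSucc 0, .ofNat 0], [.ofNat 0, .ofNat 0, .ofNat 0, .ofNat 1, .ofNat 0, .ofNat 0], [.ofNat 0,
  .ofNat 0, .ofNat 0, .ofNat 1, .ofNat 0, .ofNat 0], [.negSucc 0, .negSucc 0, .ofNat 0, .ofNat 0, .ofNat 0, .ofNat 1],
  [.ofNat 0, .ofNat 0, .ofNat 0, .ofNat 0, .negSucc 0, .ofNat 0]]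

/-- Data. -/
def cd3r : List Row := [⟨.ofNat 1050, 1, .ofNat 1, []⟩, ⟨.ofNat 350, 1, .ofNat 2, [.negSucc 0]⟩, ⟨.ofNat 350, 1,
  .ofNat 2, [.ofNat 0, .negSucc 0]⟩, ⟨.ofNat 10, 1, .ofNat 12, [.ofNat 2, .negSucc 0, .negSucc 5]⟩, ⟨.ofNat 4, 1, .ofNat
  21, [.negSucc 8, .ofNat 8, .negSucc 0, .ofNat 9]⟩, ⟨.ofNat 84, 1, .ofNat 5, [.ofNat 2, .ofNat 1, .negSucc 1, .negSucc
  1, .ofNat 2]⟩]

/-- The data of the component. -/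
def cd3 : CD := ⟨.ofNat 20, .ofNat 21, .ofNat 2100, cd3P, cd3b, cd3n, cd3bT, cd3nT, cd3r⟩

theorem cd3A : chkA 24 6 cd3 = true := by decide +kernel

theorem cd3B : chkB 24 cd3 = true := by decide +kernel

theorem cd3C : chkC 24 6 cd3 = true := by decide +kernel

theorem cd3D : chkD cd3 = true := by decide +kernel

theorem cd3_is : IsCD 24 6 cd3 := isCD cd3A cd3B cd3C

end Pool.Agent.Helper60.E8Z
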