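import Pool.Agent.Helper60.E8Z.Comp

/-!
# Project E8Z, (E2): the component of dimension 16 of the fixed vectors of `t ^ 3`
-/

set_option autoImplicit false

namespace Pool.Agent.Helper60.E8Z

/-- Data. -/
def cf3P : List (List ℤ) := [[.ofNat 20, .negSucc 3, .negSucc 3, .ofNat 5, .negSucc 0, .negSucc 0, .ofNat 3, .ofNat 3,
  .negSucc 2, .ofNat 3, .ofNat 3, .negSucc 2, .negSucc 2, .negSucc 2, .ofNat 0, .negSucc 2, .negSucc 2, .ofNat 0, .ofNat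
  1, .ofNat 4, .ofNat 1, .negSucc 3, .negSucc 3, .negSucc 0], [.negSucc 3, .ofNat 20, .negSucc 3, .negSucc 0, .ofNat 5,
  .negSucc 0, .negSucc 2, .ofNat 3, .ofNat 3, .negSucc 2, .ofNat 3, .ofNat 3, .ofNat 0, .negSucc 2, .negSucc 2, .ofNat
  0, .negSucc 2, .negSucc 2, .ofNat 1, .ofNat 1, .ofNat 4, .negSucc 0, .negSucc 3, .negSucc 3], [.negSucc 3, .negSucc 3,
  .ofNat 20, .negSucc 0, .negSucc 0, .ofNat 5, .ofNat 3, .negSucc 2, .ofNat 3, .ofNat 3, .negSucc 2, .ofNat 3, .negSucc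
  2, .ofNat 0, .negSucc 2, .negSucc 2, .ofNat 0, .negSucc 2, .ofNat 4, .ofNat 1, .ofNat 1, .negSucc 3, .negSucc 0,
  .negSucc 3], [.ofNat 5, .negSucc 0, .negSucc 0, .ofNat 20, .negSucc 3, .negSucc 3, .negSucc 2, .negSucc 2, .ofNat 3,
  .negSucc 2, .negSucc 2, .ofNat 3, .ofNat 3, .ofNat 3, .ofNat 0, .ofNat 3, .ofNat 3, .ofNat 0, .ofNat 4, .ofNat 1,
  .ofNat 4, .negSucc 0, .negSucc 0, .negSucc 3], [.negSucc 0, .ofNat 5, .negSucc 0, .negSucc 3, .ofNat 20, .negSucc 3,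
  .ofNat 3, .negSucc 2, .negSucc 2, .ofNat 3, .negSucc 2, .negSucc 2, .ofNat 0, .ofNat 3, .ofNat 3, .ofNat 0, .ofNat 3,
  .ofNat 3, .ofNat 4, .ofNat 4, .ofNat 1, .negSucc 3, .negSucc 0, .negSucc 0], [.negSucc 0, .negSucc 0, .ofNat 5,
  .negSucc 3, .negSucc 3, .ofNat 20, .negSucc 2, .ofNat 3, .negSucc 2, .negSucc 2, .ofNat 3, .negSucc 2, .ofNat 3,
  .ofNat 0, .ofNat 3, .ofNat 3, .ofNat 0, .ofNat 3, .ofNat 1, .ofNat 4, .ofNat 4, .negSucc 0, .negSucc 3, .negSucc 0],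
  [.ofNat 3, .negSucc 2, .ofNat 3, .negSucc 2, .ofNat 3, .negSucc 2, .ofNat 20, .negSucc 3, .negSucc 3, .negSucc 4,
  .ofNat 1, .ofNat 1, .ofNat 4, .ofNat 1, .ofNat 1, .negSucc 0, .negSucc 3, .negSucc 3, .negSucc 2, .negSucc 2, .ofNat
  0, .ofNat 0, .negSucc 2, .negSucc 2], [.ofNat 3, .ofNat 3, .negSucc 2, .negSucc 2, .negSucc 2, .ofNat 3, .negSucc 3,
  .ofNat 20, .negSucc 3, .ofNat 1, .negSucc 4, .ofNat 1, .ofNat 1, .ofNat 4, .ofNat 1, .negSucc 3, .negSucc 0, .negSucc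
  3, .ofNat 0, .negSucc 2, .negSucc 2, .negSucc 2, .ofNat 0, .negSucc 2], [.negSucc 2, .ofNat 3, .ofNat 3, .ofNat 3,
  .negSucc 2, .negSucc 2, .negSucc 3, .negSucc 3, .ofNat 20, .ofNat 1, .ofNat 1, .negSucc 4, .ofNat 1, .ofNat 1, .ofNat
  4, .negSucc 3, .negSucc 3, .negSucc 0, .negSucc 2, .ofNat 0, .negSucc 2, .negSucc 2, .negSucc 2, .ofNat 0], [.ofNat 3,
  .negSucc 2, .ofNat 3, .negSucc 2, .ofNat 3, .negSucc 2, .negSucc 4, .ofNat 1, .ofNat 1, .ofNat 20, .negSucc 3,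
  .negSucc 3, .negSucc 0, .negSucc 3, .negSucc 3, .ofNat 4, .ofNat 1, .ofNat 1, .negSucc 2, .negSucc 2, .ofNat 0, .ofNat
  0, .negSucc 2, .negSucc 2], [.ofNat 3, .ofNat 3, .negSucc 2, .negSucc 2, .negSucc 2, .ofNat 3, .ofNat 1, .negSucc 4,
  .ofNat 1, .negSucc 3, .ofNat 20, .negSucc 3, .negSucc 3, .negSucc 0, .negSucc 3, .ofNat 1, .ofNat 4, .ofNat 1, .ofNat
  0, .negSucc 2, .negSucc 2, .negSucc 2, .ofNat 0, .negSucc 2], [.negSucc 2, .ofNat 3, .ofNat 3, .ofNat 3, .negSucc 2,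
  .negSucc 2, .ofNat 1, .ofNat 1, .negSucc 4, .negSucc 3, .negSucc 3, .ofNat 20, .negSucc 3, .negSucc 3, .negSucc 0,
  .ofNat 1, .ofNat 1, .ofNat 4, .negSucc 2, .ofNat 0, .negSucc 2, .negSucc 2, .negSucc 2, .ofNat 0], [.negSucc 2, .ofNat
  0, .negSucc 2, .ofNat 3, .ofNat 0, .ofNat 3, .ofNat 4, .ofNat 1, .ofNat 1, .negSucc 0, .negSucc 3, .negSucc 3, .ofNat
  20, .negSucc 0, .negSucc 0, .negSucc 4, .ofNat 4, .ofNat 4, .negSucc 2, .negSucc 2, .ofNat 3, .ofNat 3, .negSucc 2,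
  .negSucc 2], [.negSucc 2, .negSucc 2, .ofNat 0, .ofNat 3, .ofNat 3, .ofNat 0, .ofNat 1, .ofNat 4, .ofNat 1, .negSucc
  3, .negSucc 0, .negSucc 3, .negSucc 0, .ofNat 20, .negSucc 0, .ofNat 4, .negSucc 4, .ofNat 4, .ofNat 3, .negSucc 2,
  .negSucc 2, .negSucc 2, .ofNat 3, .negSucc 2], [.ofNat 0, .negSucc 2, .negSucc 2, .ofNat 0, .ofNat 3, .ofNat 3, .ofNat
  1, .ofNat 1, .ofNat 4, .negSucc 3, .negSucc 3, .negSucc 0, .negSucc 0, .negSucc 0, .ofNat 20, .ofNat 4, .ofNat 4,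
  .negSucc 4, .negSucc 2, .ofNat 3, .negSucc 2, .negSucc 2, .negSucc 2, .ofNat 3], [.negSucc 2, .ofNat 0, .negSucc 2,
  .ofNat 3, .ofNat 0, .ofNat 3, .negSucc 0, .negSucc 3, .negSucc 3, .ofNat 4, .ofNat 1, .ofNat 1, .negSucc 4, .ofNat 4,
  .ofNat 4, .ofNat 20, .negSucc 0, .negSucc 0, .negSucc 2, .negSucc 2, .ofNat 3, .ofNat 3, .negSucc 2, .negSucc 2],
  [.negSucc 2, .negSucc 2, .ofNat 0, .ofNat 3, .ofNat 3, .ofNat 0, .negSucc 3, .negSucc 0, .negSucc 3, .ofNat 1, .ofNat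
  4, .ofNat 1, .ofNat 4, .negSucc 4, .ofNat 4, .negSucc 0, .ofNat 20, .negSucc 0, .ofNat 3, .negSucc 2, .negSucc 2,
  .negSucc 2, .ofNat 3, .negSucc 2], [.ofNat 0, .negSucc 2, .negSucc 2, .ofNat 0, .ofNat 3, .ofNat 3, .negSucc 3,
  .negSucc 3, .negSucc 0, .ofNat 1, .ofNat 1, .ofNat 4, .ofNat 4, .ofNat 4, .negSucc 4, .negSucc 0, .negSucc 0, .ofNat
  20, .negSucc 2, .ofNat 3, .negSucc 2, .negSucc 2, .negSucc 2, .ofNat 3], [.ofNat 1, .ofNat 1, .ofNat 4, .ofNat 4,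
  .ofNat 4, .ofNat 1, .negSucc 2, .ofNat 0, .negSucc 2, .negSucc 2, .ofNat 0, .negSucc 2, .negSucc 2, .ofNat 3, .negSucc
  2, .negSucc 2, .ofNat 3, .negSucc 2, .ofNat 20, .negSucc 0, .negSucc 0, .ofNat 4, .negSucc 4, .ofNat 4], [.ofNat 4,
  .ofNat 1, .ofNat 1, .ofNat 1, .ofNat 4, .ofNat 4, .negSucc 2, .negSucc 2, .ofNat 0, .negSucc 2, .negSucc 2, .ofNat 0,
  .negSucc 2, .negSucc 2, .ofNat 3, .negSucc 2, .negSucc 2, .ofNat 3, .negSucc 0, .ofNat 20, .negSucc 0, .ofNat 4,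
  .ofNat 4, .negSucc 4], [.ofNat 1, .ofNat 4, .ofNat 1, .ofNat 4, .ofNat 1, .ofNat 4, .ofNat 0, .negSucc 2, .negSucc 2,
  .ofNat 0, .negSucc 2, .negSucc 2, .ofNat 3, .negSucc 2, .negSucc 2, .ofNat 3, .negSucc 2, .negSucc 2, .negSucc 0,
  .negSucc 0, .ofNat 20, .negSucc 4, .ofNat 4, .ofNat 4], [.negSucc 3, .negSucc 0, .negSucc 3, .negSucc 0, .negSucc 3,
  .negSucc 0, .ofNat 0, .negSucc 2, .negSucc 2, .ofNat 0, .negSucc 2, .negSucc 2, .ofNat 3, .negSucc 2, .negSucc 2,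
  .ofNat 3, .negSucc 2, .negSucc 2, .ofNat 4, .ofNat 4, .negSucc 4, .ofNat 20, .negSucc 0, .negSucc 0], [.negSucc 3,
  .negSucc 3, .negSucc 0, .negSucc 0, .negSucc 0, .negSucc 3, .negSucc 2, .ofNat 0, .negSucc 2, .negSucc 2, .ofNat 0,
  .negSucc 2, .negSucc 2, .ofNat 3, .negSucc 2, .negSucc 2, .ofNat 3, .negSucc 2, .negSucc 4, .ofNat 4, .ofNat 4,
  .negSucc 0, .ofNat 20, .negSucc 0], [.negSucc 0, .negSucc 3, .negSucc 3, .negSucc 3, .negSucc 0, .negSucc 0, .negSucc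
  2, .negSucc 2, .ofNat 0, .negSucc 2, .negSucc 2, .ofNat 0, .negSucc 2, .negSucc 2, .ofNat 3, .negSucc 2, .negSucc 2,
  .ofNat 3, .ofNat 4, .negSucc 4, .ofNat 4, .negSucc 0, .negSucc 0, .ofNat 20]]

/-- Data. -/
def cf3b : List (List ℤ) := [[.negSucc 3, .negSucc 3, .negSucc 0, .negSucc 0, .negSucc 0, .negSucc 3, .negSucc 2,
  .ofNat 0, .negSucc 2, .negSucc 2, .ofNat 0, .negSucc 2, .negSucc 2, .ofNat 3, .negSucc 2, .negSucc 2, .ofNat 3,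
  .negSucc 2, .negSucc 4, .ofNat 4, .ofNat 4, .negSucc 0, .ofNat 20, .negSucc 0], [.ofNat 0, .ofNat 6, .ofNat 6, .ofNat
  0, .negSucc 5, .negSucc 5, .ofNat 3, .ofNat 3, .negSucc 2, .ofNat 3, .ofNat 3, .negSucc 2, .negSucc 2, .negSucc 2,
  .negSucc 14, .negSucc 2, .negSucc 2, .negSucc 14, .ofNat 6, .negSucc 5, .ofNat 6, .ofNat 6, .ofNat 6, .negSucc 5],
  [.negSucc 2, .negSucc 2, .ofNat 0, .ofNat 3, .ofNat 3, .ofNat 0, .negSucc 3, .negSucc 0, .negSucc 3, .ofNat 1, .ofNat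
  4, .ofNat 1, .ofNat 4, .negSucc 4, .ofNat 4, .negSucc 0, .ofNat 20, .negSucc 0, .ofNat 3, .negSucc 2, .negSucc 2,
  .negSucc 2, .ofNat 3, .negSucc 2], [.negSucc 2, .ofNat 3, .negSucc 2, .ofNat 3, .negSucc 2, .ofNat 3, .ofNat 5,
  .negSucc 0, .negSucc 0, .negSucc 19, .ofNat 4, .ofNat 4, .ofNat 1, .ofNat 4, .ofNat 4, .negSucc 3, .negSucc 0,
  .negSucc 0, .ofNat 3, .ofNat 3, .ofNat 0, .ofNat 0, .ofNat 3, .ofNat 3], [.ofNat 3, .ofNat 0, .ofNat 3, .negSucc 2,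
  .ofNat 0, .negSucc 2, .ofNat 1, .ofNat 4, .ofNat 4, .negSucc 3, .negSucc 0, .negSucc 0, .ofNat 5, .negSucc 3, .negSucc
  3, .negSucc 19, .ofNat 1, .ofNat 1, .ofNat 3, .ofNat 3, .negSucc 2, .negSucc 2, .ofNat 3, .ofNat 3], [.ofNat 3, .ofNat
  3, .negSucc 2, .negSucc 2, .negSucc 2, .ofNat 3, .negSucc 3, .ofNat 20, .negSucc 3, .ofNat 1, .negSucc 4, .ofNat 1,
  .ofNat 1, .ofNat 4, .ofNat 1, .negSucc 3, .negSucc 0, .negSucc 3, .ofNat 0, .negSucc 2, .negSucc 2, .negSucc 2, .ofNat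
  0, .negSucc 2], [.negSucc 2, .negSucc 2, .ofNat 3, .ofNat 3, .ofNat 3, .negSucc 2, .negSucc 0, .ofNat 5, .negSucc 0,
  .ofNat 4, .negSucc 19, .ofNat 4, .ofNat 4, .ofNat 1, .ofNat 4, .negSucc 0, .negSucc 3, .negSucc 0, .ofNat 0, .ofNat 3,
  .ofNat 3, .ofNat 3, .ofNat 0, .ofNat 3], [.negSucc 2, .ofNat 0, .negSucc 2, .ofNat 3, .ofNat 0, .ofNat 3, .ofNat 4,
  .ofNat 1, .ofNat 1, .negSucc 0, .negSucc 3, .negSucc 3, .ofNat 20, .negSucc 0, .negSucc 0, .negSucc 4, .ofNat 4,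
  .ofNat 4, .negSucc 2, .negSucc 2, .ofNat 3, .ofNat 3, .negSucc 2, .negSucc 2], [.negSucc 0, .ofNat 5, .negSucc 0,
  .negSucc 3, .ofNat 20, .negSucc 3, .ofNat 3, .negSucc 2, .negSucc 2, .ofNat 3, .negSucc 2, .negSucc 2, .ofNat 0,
  .ofNat 3, .ofNat 3, .ofNat 0, .ofNat 3, .ofNat 3, .ofNat 4, .ofNat 4, .ofNat 1, .negSucc 3, .negSucc 0, .negSucc 0],
  [.negSucc 3, .negSucc 0, .negSucc 0, .negSucc 0, .negSucc 3, .negSucc 3, .ofNat 3, .ofNat 3, .ofNat 0, .ofNat 3,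
  .ofNat 3, .ofNat 0, .ofNat 3, .ofNat 3, .negSucc 2, .ofNat 3, .ofNat 3, .negSucc 2, .ofNat 1, .negSucc 19, .ofNat 1,
  .negSucc 3, .negSucc 3, .ofNat 5], [.ofNat 4, .ofNat 1, .ofNat 4, .ofNat 1, .ofNat 4, .ofNat 1, .ofNat 0, .ofNat 3,
  .ofNat 3, .ofNat 0, .ofNat 3, .ofNat 3, .negSucc 2, .ofNat 3, .ofNat 3, .negSucc 2, .ofNat 3, .ofNat 3, .negSucc 3,
  .negSucc 3, .ofNat 5, .negSucc 19, .ofNat 1, .ofNat 1], [.negSucc 2, .ofNat 3, .ofNat 3, .ofNat 3, .negSucc 2,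
  .negSucc 2, .negSucc 3, .negSucc 3, .ofNat 20, .ofNat 1, .ofNat 1, .negSucc 4, .ofNat 1, .ofNat 1, .ofNat 4, .negSucc
  3, .negSucc 3, .negSucc 0, .negSucc 2, .ofNat 0, .negSucc 2, .negSucc 2, .negSucc 2, .ofNat 0], [.ofNat 1, .ofNat 1,
  .negSucc 4, .ofNat 4, .ofNat 4, .negSucc 19, .ofNat 3, .negSucc 2, .ofNat 3, .ofNat 3, .negSucc 2, .ofNat 3, .negSucc
  2, .ofNat 0, .negSucc 2, .negSucc 2, .ofNat 0, .negSucc 2, .negSucc 0, .negSucc 3, .negSucc 3, .ofNat 1, .ofNat 4,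
  .ofNat 1], [.ofNat 3, .negSucc 2, .ofNat 3, .negSucc 2, .ofNat 3, .negSucc 2, .ofNat 20, .negSucc 3, .negSucc 3,
  .negSucc 4, .ofNat 1, .ofNat 1, .ofNat 4, .ofNat 1, .ofNat 1, .negSucc 0, .negSucc 3, .negSucc 3, .negSucc 2, .negSucc
  2, .ofNat 0, .ofNat 0, .negSucc 2, .negSucc 2], [.negSucc 3, .negSucc 3, .ofNat 20, .negSucc 0, .negSucc 0, .ofNat 5,
  .ofNat 3, .negSucc 2, .ofNat 3, .ofNat 3, .negSucc 2, .ofNat 3, .negSucc 2, .ofNat 0, .negSucc 2, .negSucc 2, .ofNat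
  0, .negSucc 2, .ofNat 4, .ofNat 1, .ofNat 1, .negSucc 3, .negSucc 0, .negSucc 3], [.ofNat 20, .negSucc 3, .negSucc 3,
  .ofNat 5, .negSucc 0, .negSucc 0, .ofNat 3, .ofNat 3, .negSucc 2, .ofNat 3, .ofNat 3, .negSucc 2, .negSucc 2, .negSucc
  2, .ofNat 0, .negSucc 2, .negSucc 2, .ofNat 0, .ofNat 1, .ofNat 4, .ofNat 1, .negSucc 3, .negSucc 3, .negSucc 0]]

/-- Data. -/
def cf3n : List (List ℤ) := [[.ofNat 0, .negSucc 0, .ofNat 0, .ofNat 0, .ofNat 0, .ofNat 0, .ofNat 0, .ofNat 0, .ofNat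
  0, .ofNat 0, .ofNat 0, .negSucc 0, .ofNat 0, .ofNat 1, .ofNat 0, .ofNat 0, .ofNat 0, .ofNat 0, .ofNat 0, .ofNat 0,
  .ofNat 0, .ofNat 0, .ofNat 1, .ofNat 0], [.ofNat 0, .ofNat 1, .ofNat 0, .ofNat 0, .ofNat 0, .ofNat 0, .ofNat 0, .ofNat
  0, .ofNat 0, .ofNat 0, .ofNat 0, .ofNat 0, .ofNat 0, .negSucc 0, .ofNat 0, .ofNat 0, .ofNat 0, .negSucc 0, .ofNat 0,
  .ofNat 0, .ofNat 1, .ofNat 0, .ofNat 0, .ofNat 0], [.ofNat 0, .ofNat 0, .ofNat 0, .ofNat 0, .ofNat 0, .ofNat 0, .ofNat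
  0, .ofNat 0, .ofNat 0, .ofNat 0, .ofNat 0, .ofNat 0, .ofNat 0, .negSucc 0, .ofNat 1, .ofNat 0, .ofNat 1, .negSucc 0,
  .ofNat 0, .ofNat 0, .ofNat 0, .ofNat 0, .ofNat 0, .ofNat 0], [.ofNat 0, .ofNat 0, .ofNat 0, .ofNat 1, .ofNat 0, .ofNat
  0, .ofNat 0, .ofNat 0, .ofNat 0, .negSucc 0, .ofNat 0, .ofNat 0, .ofNat 0, .ofNat 1, .ofNat 0, .ofNat 0, .ofNat 0,
  .ofNat 0, .ofNat 1, .ofNat 0, .ofNat 0, .ofNat 0, .ofNat 0, .ofNat 0], [.ofNat 0, .ofNat 0, .ofNat 0, .negSucc 0,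
  .ofNat 0, .ofNat 0, .ofNat 0, .ofNat 0, .ofNat 0, .ofNat 0, .ofNat 0, .ofNat 0, .ofNat 0, .negSucc 0, .ofNat 0,
  .negSucc 0, .ofNat 0, .ofNat 0, .ofNat 0, .ofNat 0, .ofNat 0, .ofNat 0, .ofNat 0, .ofNat 1], [.ofNat 0, .ofNat 0,
  .ofNat 0, .ofNat 0, .ofNat 0, .ofNat 0, .ofNat 0, .ofNat 1, .ofNat 0, .ofNat 0, .ofNat 0, .ofNat 0, .ofNat 0, .ofNat
  1, .ofNat 0, .ofNat 0, .ofNat 0, .ofNat 0, .ofNat 0, .ofNat 0, .negSucc 0, .ofNat 0, .ofNat 0, .negSucc 0], [.ofNat 0,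
  .ofNat 0, .ofNat 0, .ofNat 0, .ofNat 0, .ofNat 0, .ofNat 0, .ofNat 0, .ofNat 0, .ofNat 0, .negSucc 0, .ofNat 0, .ofNat
  0, .negSucc 0, .ofNat 1, .ofNat 0, .ofNat 0, .negSucc 0, .ofNat 0, .ofNat 0, .ofNat 1, .ofNat 0, .ofNat 0, .ofNat 1],
  [.ofNat 0, .ofNat 0, .ofNat 0, .ofNat 1, .ofNat 0, .ofNat 0, .ofNat 0, .ofNat 0, .ofNat 0, .ofNat 0, .ofNat 0, .ofNat
  0, .ofNat 1, .ofNat 1, .negSucc 0, .ofNat 0, .ofNat 0, .ofNat 1, .ofNat 0, .ofNat 0, .ofNat 0, .ofNat 0, .ofNat 0,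
  .negSucc 0], [.ofNat 0, .ofNat 0, .ofNat 0, .ofNat 0, .ofNat 1, .ofNat 0, .ofNat 0, .ofNat 0, .ofNat 0, .ofNat 0,
  .ofNat 0, .negSucc 0, .ofNat 0, .ofNat 1, .ofNat 0, .ofNat 0, .ofNat 0, .ofNat 0, .ofNat 1, .ofNat 0, .ofNat 0, .ofNat
  0, .ofNat 0, .ofNat 0], [.ofNat 0, .negSucc 0, .ofNat 0, .ofNat 0, .ofNat 0, .ofNat 0, .ofNat 0, .ofNat 0, .ofNat 0,
  .ofNat 0, .ofNat 0, .negSucc 0, .ofNat 0, .ofNat 1, .ofNat 0, .ofNat 0, .ofNat 0, .ofNat 0, .ofNat 1, .negSucc 0,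
  .ofNat 0, .ofNat 0, .ofNat 0, .ofNat 1], [.ofNat 0, .ofNat 1, .ofNat 0, .ofNat 0, .ofNat 0, .ofNat 0, .ofNat 0, .ofNat
  0, .ofNat 0, .ofNat 0, .ofNat 0, .ofNat 1, .ofNat 0, .negSucc 0, .ofNat 0, .ofNat 0, .ofNat 0, .ofNat 0, .negSucc 0,
  .ofNat 0, .ofNat 1, .negSucc 0, .ofNat 0, .ofNat 0], [.ofNat 0, .ofNat 0, .ofNat 0, .ofNat 0, .ofNat 0, .ofNat 0,
  .ofNat 0, .ofNat 0, .ofNat 1, .ofNat 0, .ofNat 0, .negSucc 0, .ofNat 0, .ofNat 0, .ofNat 1, .ofNat 0, .ofNat 0,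
  .negSucc 0, .ofNat 0, .ofNat 0, .ofNat 0, .ofNat 0, .ofNat 0, .ofNat 0], [.ofNat 0, .ofNat 0, .ofNat 0, .ofNat 1,
  .ofNat 0, .negSucc 0, .ofNat 0, .ofNat 0, .ofNat 0, .ofNat 0, .ofNat 0, .ofNat 1, .ofNat 0, .ofNat 1, .negSucc 0,
  .ofNat 0, .ofNat 0, .ofNat 1, .ofNat 0, .ofNat 0, .negSucc 0, .ofNat 0, .ofNat 0, .negSucc 0], [.ofNat 0, .ofNat 0,
  .ofNat 0, .negSucc 0, .ofNat 0, .ofNat 0, .ofNat 1, .ofNat 0, .ofNat 0, .ofNat 0, .ofNat 0, .ofNat 0, .ofNat 0,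
  .negSucc 0, .ofNat 1, .ofNat 0, .ofNat 0, .negSucc 0, .negSucc 0, .ofNat 0, .ofNat 0, .ofNat 0, .ofNat 0, .ofNat 0],
  [.ofNat 0, .negSucc 0, .ofNat 1, .ofNat 1, .ofNat 0, .ofNat 0, .ofNat 0, .ofNat 0, .ofNat 0, .ofNat 0, .ofNat 0,
  .ofNat 0, .ofNat 0, .ofNat 2, .negSucc 0, .ofNat 0, .ofNat 0, .ofNat 1, .ofNat 1, .ofNat 0, .negSucc 0, .ofNat 0,
  .ofNat 0, .negSucc 0], [.ofNat 1, .negSucc 0, .ofNat 0, .ofNat 1, .ofNat 0, .ofNat 0, .ofNat 0, .ofNat 0, .ofNat 0,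
  .ofNat 0, .ofNat 0, .negSucc 0, .ofNat 0, .ofNat 1, .ofNat 0, .ofNat 0, .ofNat 0, .ofNat 0, .ofNat 1, .ofNat 0, .ofNat
  0, .ofNat 0, .ofNat 0, .ofNat 0]]

/-- Data. -/
def cf3bT : List (List ℤ) := [[.negSucc 3, .ofNat 0, .negSucc 2, .negSucc 2, .ofNat 3, .ofNat 3, .negSucc 2, .negSucc
  2, .negSucc 0, .negSucc 3, .ofNat 4, .negSucc 2, .ofNat 1, .ofNat 3, .negSucc 3, .ofNat 20], [.negSucc 3, .ofNat 6,
  .negSucc 2, .ofNat 3, .ofNat 0, .ofNat 3, .negSucc 2, .ofNat 0, .ofNat 5, .negSucc 0, .ofNat 1, .ofNat 3, .ofNat 1,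
  .negSucc 2, .negSucc 3, .negSucc 3], [.negSucc 0, .ofNat 6, .ofNat 0, .negSucc 2, .ofNat 3, .negSucc 2, .ofNat 3,
  .negSucc 2, .negSucc 0, .negSucc 0, .ofNat 4, .ofNat 3, .negSucc 4, .ofNat 3, .ofNat 20, .negSucc 3], [.negSucc 0,
  .ofNat 0, .ofNat 3, .ofNat 3, .negSucc 2, .negSucc 2, .ofNat 3, .ofNat 3, .negSucc 3, .negSucc 0, .ofNat 1, .ofNat 3,
  .ofNat 4, .negSucc 2, .negSucc 0, .ofNat 5], [.negSucc 0, .negSucc 5, .ofNat 3, .negSucc 2, .ofNat 0, .negSucc 2,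
  .ofNat 3, .ofNat 0, .ofNat 20, .negSucc 3, .ofNat 4, .negSucc 2, .ofNat 4, .ofNat 3, .negSucc 0, .negSucc 0],
  [.negSucc 3, .negSucc 5, .ofNat 0, .ofNat 3, .negSucc 2, .ofNat 3, .negSucc 2, .ofNat 3, .negSucc 3, .negSucc 3,
  .ofNat 1, .negSucc 2, .negSucc 19, .negSucc 2, .ofNat 5, .negSucc 0], [.negSucc 2, .ofNat 3, .negSucc 3, .ofNat 5,
  .ofNat 1, .negSucc 3, .negSucc 0, .ofNat 4, .ofNat 3, .ofNat 3, .ofNat 0, .negSucc 3, .ofNat 3, .ofNat 20, .ofNat 3,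
  .ofNat 3], [.ofNat 0, .ofNat 3, .negSucc 0, .negSucc 0, .ofNat 4, .ofNat 20, .ofNat 5, .ofNat 1, .negSucc 2, .ofNat 3,
  .ofNat 3, .negSucc 3, .negSucc 2, .negSucc 3, .negSucc 2, .ofNat 3], [.negSucc 2, .negSucc 2, .negSucc 3, .negSucc 0,
  .ofNat 4, .negSucc 3, .negSucc 0, .ofNat 1, .negSucc 2, .ofNat 0, .ofNat 3, .ofNat 20, .ofNat 3, .negSucc 3, .ofNat 3,
  .negSucc 2], [.negSucc 2, .ofNat 3, .ofNat 1, .negSucc 19, .negSucc 3, .ofNat 1, .ofNat 4, .negSucc 0, .ofNat 3,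
  .ofNat 3, .ofNat 0, .ofNat 1, .ofNat 3, .negSucc 4, .ofNat 3, .ofNat 3], [.ofNat 0, .ofNat 3, .ofNat 4, .ofNat 4,
  .negSucc 0, .negSucc 4, .negSucc 19, .negSucc 3, .negSucc 2, .ofNat 3, .ofNat 3, .ofNat 1, .negSucc 2, .ofNat 1,
  .negSucc 2, .ofNat 3], [.negSucc 2, .negSucc 2, .ofNat 1, .ofNat 4, .negSucc 0, .ofNat 1, .ofNat 4, .negSucc 3,
  .negSucc 2, .ofNat 0, .ofNat 3, .negSucc 4, .ofNat 3, .ofNat 1, .ofNat 3, .negSucc 2], [.negSucc 2, .negSucc 2, .ofNat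
  4, .ofNat 1, .ofNat 5, .ofNat 1, .ofNat 4, .ofNat 20, .ofNat 0, .ofNat 3, .negSucc 2, .ofNat 1, .negSucc 2, .ofNat 4,
  .negSucc 2, .negSucc 2], [.ofNat 3, .negSucc 2, .negSucc 4, .ofNat 4, .negSucc 3, .ofNat 4, .ofNat 1, .negSucc 0,
  .ofNat 3, .ofNat 3, .ofNat 3, .ofNat 1, .ofNat 0, .ofNat 1, .ofNat 0, .negSucc 2], [.negSucc 2, .negSucc 14, .ofNat 4,
  .ofNat 4, .negSucc 3, .ofNat 1, .ofNat 4, .negSucc 0, .ofNat 3, .negSucc 2, .ofNat 3, .ofNat 4, .negSucc 2, .ofNat 1,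
  .negSucc 2, .ofNat 0], [.negSucc 2, .negSucc 2, .negSucc 0, .negSucc 3, .negSucc 19, .negSucc 3, .negSucc 0, .negSucc
  4, .ofNat 0, .ofNat 3, .negSucc 2, .negSucc 3, .negSucc 2, .negSucc 0, .negSucc 2, .negSucc 2], [.ofNat 3, .negSucc 2,
  .ofNat 20, .negSucc 0, .ofNat 1, .negSucc 0, .negSucc 3, .ofNat 4, .ofNat 3, .ofNat 3, .ofNat 3, .negSucc 3, .ofNat 0,
  .negSucc 3, .ofNat 0, .negSucc 2], [.negSucc 2, .negSucc 14, .negSucc 0, .negSucc 0, .ofNat 1, .negSucc 3, .negSucc 0,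
  .ofNat 4, .ofNat 3, .negSucc 2, .ofNat 3, .negSucc 0, .negSucc 2, .negSucc 3, .negSucc 2, .ofNat 0], [.negSucc 4,
  .ofNat 6, .ofNat 3, .ofNat 3, .ofNat 3, .ofNat 0, .ofNat 0, .negSucc 2, .ofNat 4, .ofNat 1, .negSucc 3, .negSucc 2,
  .negSucc 0, .negSucc 2, .ofNat 4, .ofNat 1], [.ofNat 4, .negSucc 5, .negSucc 2, .ofNat 3, .ofNat 3, .negSucc 2, .ofNat
  3, .negSucc 2, .ofNat 4, .negSucc 19, .negSucc 3, .ofNat 0, .negSucc 3, .negSucc 2, .ofNat 1, .ofNat 4], [.ofNat 4,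
  .ofNat 6, .negSucc 2, .ofNat 0, .negSucc 2, .negSucc 2, .ofNat 3, .ofNat 3, .ofNat 1, .ofNat 1, .ofNat 5, .negSucc 2,
  .negSucc 3, .ofNat 0, .ofNat 1, .ofNat 1], [.negSucc 0, .ofNat 6, .negSucc 2, .ofNat 0, .negSucc 2, .negSucc 2, .ofNat
  3, .ofNat 3, .negSucc 3, .negSucc 3, .negSucc 19, .negSucc 2, .ofNat 1, .ofNat 0, .negSucc 3, .negSucc 3], [.ofNat 20,
  .ofNat 6, .ofNat 3, .ofNat 3, .ofNat 3, .ofNat 0, .ofNat 0, .negSucc 2, .negSucc 0, .negSucc 3, .ofNat 1, .negSucc 2,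
  .ofNat 4, .negSucc 2, .negSucc 0, .negSucc 3], [.negSucc 0, .negSucc 5, .negSucc 2, .ofNat 3, .ofNat 3, .negSucc 2,
  .ofNat 3, .negSucc 2, .negSucc 0, .ofNat 5, .ofNat 1, .ofNat 0, .ofNat 1, .negSucc 2, .negSucc 3, .negSucc 0]]

/-- Data. -/
def cf3nT : List (List ℤ) := [[.ofNat 0, .ofNat 0, .ofNat 0, .ofNat 0, .ofNat 0, .ofNat 0, .ofNat 0, .ofNat 0, .ofNat
  0, .ofNat 0, .ofNat 0, .ofNat 0, .ofNat 0, .ofNat 0, .ofNat 0, .ofNat 1], [.negSucc 0, .ofNat 1, .ofNat 0, .ofNat 0,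
  .ofNat 0, .ofNat 0, .ofNat 0, .ofNat 0, .ofNat 0, .negSucc 0, .ofNat 1, .ofNat 0, .ofNat 0, .ofNat 0, .negSucc 0,
  .negSucc 0], [.ofNat 0, .ofNat 0, .ofNat 0, .ofNat 0, .ofNat 0, .ofNat 0, .ofNat 0, .ofNat 0, .ofNat 0, .ofNat 0,
  .ofNat 0, .ofNat 0, .ofNat 0, .ofNat 0, .ofNat 1, .ofNat 0], [.ofNat 0, .ofNat 0, .ofNat 0, .ofNat 1, .negSucc 0,
  .ofNat 0, .ofNat 0, .ofNat 1, .ofNat 0, .ofNat 0, .ofNat 0, .ofNat 0, .ofNat 1, .negSucc 0, .ofNat 1, .ofNat 1],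
  [.ofNat 0, .ofNat 0, .ofNat 0, .ofNat 0, .ofNat 0, .ofNat 0, .ofNat 0, .ofNat 0, .ofNat 1, .ofNat 0, .ofNat 0, .ofNat
  0, .ofNat 0, .ofNat 0, .ofNat 0, .ofNat 0], [.ofNat 0, .ofNat 0, .ofNat 0, .ofNat 0, .ofNat 0, .ofNat 0, .ofNat 0,
  .ofNat 0, .ofNat 0, .ofNat 0, .ofNat 0, .ofNat 0, .negSucc 0, .ofNat 0, .ofNat 0, .ofNat 0], [.ofNat 0, .ofNat 0,
  .ofNat 0, .ofNat 0, .ofNat 0, .ofNat 0, .ofNat 0, .ofNat 0, .ofNat 0, .ofNat 0, .ofNat 0, .ofNat 0, .ofNat 0, .ofNat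
  1, .ofNat 0, .ofNat 0], [.ofNat 0, .ofNat 0, .ofNat 0, .ofNat 0, .ofNat 0, .ofNat 1, .ofNat 0, .ofNat 0, .ofNat 0,
  .ofNat 0, .ofNat 0, .ofNat 0, .ofNat 0, .ofNat 0, .ofNat 0, .ofNat 0], [.ofNat 0, .ofNat 0, .ofNat 0, .ofNat 0, .ofNat
  0, .ofNat 0, .ofNat 0, .ofNat 0, .ofNat 0, .ofNat 0, .ofNat 0, .ofNat 1, .ofNat 0, .ofNat 0, .ofNat 0, .ofNat 0],
  [.ofNat 0, .ofNat 0, .ofNat 0, .negSucc 0, .ofNat 0, .ofNat 0, .ofNat 0, .ofNat 0, .ofNat 0, .ofNat 0, .ofNat 0,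
  .ofNat 0, .ofNat 0, .ofNat 0, .ofNat 0, .ofNat 0], [.ofNat 0, .ofNat 0, .ofNat 0, .ofNat 0, .ofNat 0, .ofNat 0,
  .negSucc 0, .ofNat 0, .ofNat 0, .ofNat 0, .ofNat 0, .ofNat 0, .ofNat 0, .ofNat 0, .ofNat 0, .ofNat 0], [.negSucc 0,
  .ofNat 0, .ofNat 0, .ofNat 0, .ofNat 0, .ofNat 0, .ofNat 0, .ofNat 0, .negSucc 0, .negSucc 0, .ofNat 1, .negSucc 0,
  .ofNat 1, .ofNat 0, .ofNat 0, .negSucc 0], [.ofNat 0, .ofNat 0, .ofNat 0, .ofNat 0, .ofNat 0, .ofNat 0, .ofNat 0,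
  .ofNat 1, .ofNat 0, .ofNat 0, .ofNat 0, .ofNat 0, .ofNat 0, .ofNat 0, .ofNat 0, .ofNat 0], [.ofNat 1, .negSucc 0,
  .negSucc 0, .ofNat 1, .negSucc 0, .ofNat 1, .negSucc 0, .ofNat 1, .ofNat 1, .ofNat 1, .negSucc 0, .ofNat 0, .ofNat 1,
  .negSucc 0, .ofNat 2, .ofNat 1], [.ofNat 0, .ofNat 0, .ofNat 1, .ofNat 0, .ofNat 0, .ofNat 0, .ofNat 1, .negSucc 0,
  .ofNat 0, .ofNat 0, .ofNat 0, .ofNat 1, .negSucc 0, .ofNat 1, .negSucc 0, .ofNat 0], [.ofNat 0, .ofNat 0, .ofNat 0,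
  .ofNat 0, .negSucc 0, .ofNat 0, .ofNat 0, .ofNat 0, .ofNat 0, .ofNat 0, .ofNat 0, .ofNat 0, .ofNat 0, .ofNat 0, .ofNat
  0, .ofNat 0], [.ofNat 0, .ofNat 0, .ofNat 1, .ofNat 0, .ofNat 0, .ofNat 0, .ofNat 0, .ofNat 0, .ofNat 0, .ofNat 0,
  .ofNat 0, .ofNat 0, .ofNat 0, .ofNat 0, .ofNat 0, .ofNat 0], [.ofNat 0, .negSucc 0, .negSucc 0, .ofNat 0, .ofNat 0,
  .ofNat 0, .negSucc 0, .ofNat 1, .ofNat 0, .ofNat 0, .ofNat 0, .negSucc 0, .ofNat 1, .negSucc 0, .ofNat 1, .ofNat 0],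
  [.ofNat 0, .ofNat 0, .ofNat 0, .ofNat 1, .ofNat 0, .ofNat 0, .ofNat 0, .ofNat 0, .ofNat 1, .ofNat 1, .negSucc 0,
  .ofNat 0, .ofNat 0, .negSucc 0, .ofNat 1, .ofNat 1], [.ofNat 0, .ofNat 0, .ofNat 0, .ofNat 0, .ofNat 0, .ofNat 0,
  .ofNat 0, .ofNat 0, .ofNat 0, .negSucc 0, .ofNat 0, .ofNat 0, .ofNat 0, .ofNat 0, .ofNat 0, .ofNat 0], [.ofNat 0,
  .ofNat 1, .ofNat 0, .ofNat 0, .ofNat 0, .negSucc 0, .ofNat 1, .ofNat 0, .ofNat 0, .ofNat 0, .ofNat 1, .ofNat 0,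
  .negSucc 0, .ofNat 0, .negSucc 0, .ofNat 0], [.ofNat 0, .ofNat 0, .ofNat 0, .ofNat 0, .ofNat 0, .ofNat 0, .ofNat 0,
  .ofNat 0, .ofNat 0, .ofNat 0, .negSucc 0, .ofNat 0, .ofNat 0, .ofNat 0, .ofNat 0, .ofNat 0], [.ofNat 1, .ofNat 0,
  .ofNat 0, .ofNat 0, .ofNat 0, .ofNat 0, .ofNat 0, .ofNat 0, .ofNat 0, .ofNat 0, .ofNat 0, .ofNat 0, .ofNat 0, .ofNat
  0, .ofNat 0, .ofNat 0], [.ofNat 0, .ofNat 0, .ofNat 0, .ofNat 0, .ofNat 1, .negSucc 0, .ofNat 1, .negSucc 0, .ofNat 0,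
  .ofNat 1, .ofNat 0, .ofNat 0, .negSucc 0, .ofNat 0, .negSucc 0, .ofNat 0]]

/-- Data. -/
def cf3r : List Row := [⟨.ofNat 346278563666925645459600, 1, .ofNat 1, []⟩, ⟨.ofNat 115426187888975215153200, 1,
  .ofNat 2, [.ofNat 1]⟩, ⟨.ofNat 115426187888975215153200, 1, .ofNat 2, [.ofNat 0, .negSucc 0]⟩, ⟨.ofNat
  2684329950906400352400, 1, .ofNat 12, [.negSucc 1, .ofNat 1, .ofNat 2]⟩, ⟨.ofNat 259773866216748421200, 1, .ofNat 43,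
  [.ofNat 4, .negSucc 1, .negSucc 3, .ofNat 19]⟩, ⟨.ofNat 38123809717816321200, 1, .ofNat 124, [.ofNat 8, .ofNat 58,
  .negSucc 7, .ofNat 7, .ofNat 55]⟩, ⟨.ofNat 857336308489159200, 1, .ofNat 879, [.negSucc 154, .negSucc 317, .negSucc
  430, .negSucc 98, .negSucc 149, .ofNat 381]⟩, ⟨.ofNat 816466538637021600, 1, .ofNat 919, [.ofNat 32, .negSucc 46,
  .ofNat 338, .negSucc 109, .ofNat 446, .ofNat 117, .ofNat 364]⟩, ⟨.ofNat 30673980305334896400, 1, .ofNat 142, [.negSucc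
  64, .negSucc 30, .ofNat 19, .negSucc 64, .negSucc 13, .negSucc 17, .ofNat 15, .ofNat 17]⟩, ⟨.ofNat
  1551177066722776100, 1, .ofNat 689, [.negSucc 266, .ofNat 304, .ofNat 65, .negSucc 213, .negSucc 125, .ofNat 156,
  .negSucc 129, .ofNat 100, .negSucc 311]⟩, ⟨.ofNat 7688928050158221100, 1, .ofNat 324, [.ofNat 51, .negSucc 123, .ofNat
  79, .ofNat 34, .ofNat 18, .ofNat 60, .negSucc 49, .negSucc 27, .ofNat 96, .ofNat 103]⟩, ⟨.ofNat 1145385144023569488,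
  1, .ofNat 834, [.negSucc 234, .negSucc 248, .negSucc 254, .ofNat 75, .ofNat 146, .negSucc 161, .negSucc 142, .ofNat
  159, .negSucc 147, .negSucc 13, .ofNat 126]⟩, ⟨.ofNat 395385434650520262, 1, .ofNat 1450, [.ofNat 335, .ofNat 574,
  .ofNat 55, .negSucc 399, .ofNat 304, .negSucc 237, .ofNat 318, .negSucc 383, .ofNat 248, .ofNat 239, .ofNat 24, .ofNat
  366]⟩, ⟨.ofNat 9555148004054239665, 1, .ofNat 302, [.negSucc 32, .ofNat 30, .negSucc 54, .ofNat 98, .negSucc 1,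
  .negSucc 63, .negSucc 15, .ofNat 82, .ofNat 54, .ofNat 63, .negSucc 23, .negSucc 63, .ofNat 60]⟩, ⟨.ofNat
  865696409167314113649, 2, .ofNat 32, [.negSucc 2, .ofNat 10, .negSucc 0, .negSucc 5, .ofNat 6, .negSucc 3, .ofNat 4,
  .negSucc 5, .negSucc 1, .negSucc 2, .ofNat 8, .ofNat 4, .negSucc 7, .ofNat 6]⟩, ⟨.ofNat 2308523757779504303064, 1,
  .ofNat 20, [.negSucc 3, .ofNat 0, .negSucc 2, .negSucc 2, .ofNat 3, .ofNat 3, .negSucc 2, .negSucc 2, .negSucc 0,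
  .negSucc 3, .ofNat 4, .negSucc 2, .ofNat 1, .ofNat 3, .negSucc 3]⟩]

/-- The data of the component. -/
def cf3 : CD := ⟨.ofNat 30, .ofNat 1539015838519669535376, .ofNat 923409503111801721225600, cf3P, cf3b, cf3n, cf3bT, cf3nT, cf3r⟩

theorem cf3A : chkA 24 16 cf3 = true := by decide +kernel

theorem cf3B : chkB 24 cf3 = true := by decide +kernel

theorem cf3C : chkC 24 16 cf3 = true := by decide +kernel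

theorem cf3D : chkD cf3 = true := by decide +kernel

theorem cf3_is : IsCD 24 16 cf3 := isCD cf3A cf3B cf3C

end Pool.Agent.Helper60.E8Z
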