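import Pool.Agent.Helper60.E8Z.Br3

/-!
# Project E8Z, (E2): an automorphism which acts on `L ^ (t ^ 5)` by the remaining isometry does not exist
-/

set_option autoImplicit false

open scoped TensorProduct Matrix

namespace Pool.Agent.Helper60.E8Z

open Pool.Agent.Helper73.E8 Pool.Agent.Helper64.E8C Pool.Agent.Helper73.E8.Ez Pool.Agent.Helper73.E8.Xc
open Pool.Agent.Helper2.E8A (K ζ σ)

variable {L : Type} [LieRing L] [Module.Free ℤ L] [Module.Finite ℤ L] {B : LinearMap.BilinForm ℤ L} (C : Core L B)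

theorem num3 : ∀ i < 24, 124 * en2 cc3P i 0 = (∑ c ∈ Finset.range 3, fr3 i 0 c) + (∑ c ∈ Finset.range 3, fr3 i 2 c) -
    (∑ c ∈ Finset.range 3, fr3 i 5 c) - (∑ c ∈ Finset.range 3, fr3 i 6 c) := by decide +kernel

include C in
theorem conj3 {y : AutL L} {a : ℤ} (hyt : y * C.t * y⁻¹ = C.t ^ a) : y * C.t ^ 3 * y⁻¹ ∈ Subgroup.zpowers (C.t ^ 3) := by
  have h1 : y * C.t ^ 3 * y⁻¹ = (C.t ^ 3) ^ a := by
    rw [← conj_pow, hyt, ← zpow_natCast, ← zpow_natCast, ← zpow_mul, ← zpow_mul, mul_comm]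
  rw [h1]
  exact Subgroup.zpow_mem _ (Subgroup.mem_zpowers _) _

theorem pres3 {y : AutL L} {a : ℤ} (hyt : y * C.t * y⁻¹ = C.t ^ a) : ∀ u ∈ Ufix (C.t ^ 3), tA y u ∈ Ufix (C.t ^ 3) := by
  have : Finite (AutL L) := AutL_finite C.hL
  intro u hu
  rw [mem_Ufix] at hu ⊢
  obtain ⟨m, hm⟩ := Subgroup.mem_zpowers_iff.1 (conj_inv (conj3 C hyt))
  have h2 : C.t ^ 3 * y = y * (C.t ^ 3) ^ m := by
    rw [hm]
    group
  change (C.t ^ 3 * y).1 u = y.1 u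
  rw [h2]
  change y.1 (((C.t ^ 3) ^ m).1 u) = y.1 u
  rw [zfix hu]

theorem yt3 {y : AutL L} {a : ℤ} (ha : a % 3 = 2) (hyt : y * C.t * y⁻¹ = C.t ^ a) {u : L} (hu : u ∈ Ufix (C.t ^ 3)) :
    y.1 (C.t.1 u) = C.t.1 (C.t.1 (y.1 u)) := by
  have h1 := pres3 C hyt u hu
  rw [mem_Ufix] at h1
  have h2 : y * C.t = C.t * C.t * (C.t ^ 3) ^ (a / 3) * y := by
    have h3 : y * C.t = C.t ^ a * y := by rw [← hyt]; group
    rw [h3]
    congr 1
    have h4 : a = 1 + 1 + 3 * (a / 3) := by omega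
    conv_lhs => rw [h4]
    rw [zpow_add, zpow_add, zpow_one, zpow_mul]
    rfl
  change (y * C.t).1 u = _
  rw [h2]
  change C.t.1 (C.t.1 (((C.t ^ 3) ^ (a / 3)).1 (y.1 u))) = _
  rw [zfix (x := y.1 u) h1]

theorem no_two (hL : IsLat L B) (hη : C.η = et) (F : LF B C.t 3) (hco : HasCo C F) (y : AutL L) (a : ℤ) (ha : a % 3 = 2)
    (hyt : y * C.t * y⁻¹ = C.t ^ a) (h0 : y.1 (vec F.E 3 (sj 0)) = -vec F.E 3 (sj 6)) (h6 : y.1 (vec F.E 3 (sj 6)) = -vec F.E 3 (sj 0))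
    (h2 : y.1 (vec F.E 3 (sj 2)) = -vec F.E 3 (sj 5)) (h5 : y.1 (vec F.E 3 (sj 5)) = -vec F.E 3 (sj 2)) : False := by
  have h := onf3 C hL F
  have hyU := pres3 C hyt
  have hB : ∀ u w, B (tA y u) (tA y w) = B u w := fun u w => AutL_B hL y u w
  have hin : ∀ i, v3 F i ∈ Ufix (C.t ^ 3) := h.mem
  have htU : ∀ u ∈ Ufix (C.t ^ 3), tA C.t u ∈ Ufix (C.t ^ 3) := by
    intro u hu
    rw [mem_Ufix] at hu ⊢
    change (C.t ^ 3 * C.t).1 u = C.t.1 u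
    rw [← pow_succ, pow_succ']
    change C.t.1 ((C.t ^ 3).1 u) = C.t.1 u
    rw [hu]
  refine T3 (M3 F) h.int' (fun i hi => ?_) ?_ (fun i hi => ?_) (fun k hk => ?_) (fun k hk => ?_)
    (Yl B (v3 F) ((30 / 3 : ℕ) : ℤ) 124 (tA y)) (h.YM _ hyU) (h.Yo _ hyU hB)
    (h.YS _ hyU (kap3 C) (c := -2) (by norm_num) (kap3_v C hη F hco) (fun u hu w hw => kf3_inv C hη (conj3 C hyt) hu hw)) ?_
    (T3l C F) (T3l_single C hL F) ?_
  · exact mem3 C hL F (m := 20) (by norm_num) (allN_iff.1 h5w_mem i hi) (allN_iff.1 h5w_chk i hi)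
  · exact mem3 C hL F (m := 12) (by norm_num) (allN_iff.1 h3w_mem 0 (by norm_num)) (allN_iff.1 h3w_chk 0 (by norm_num))
  · exact mem3 C hL F (m := 16) (by norm_num) (allN_iff.1 h2w_mem i hi) (allN_iff.1 h2w_chk i hi)
  · rw [← one_smul ℚ (vq 24 _)]
    exact mem3 C hL F (m := 4) (by norm_num) (allN_iff.1 cf3w_mem k hk) (allN_iff.1 cf3w_chk k hk)
  · rw [← one_smul ℚ (vq 24 _)]
    exact mem3 C hL F (m := 4) (by norm_num) (allN_iff.1 cd3w_mem k hk) (allN_iff.1 cd3w_chk k hk)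
  · have hc : mq 24 cc3P *ᵥ Pi.single 0 1 = phi B (v3 F) ((30 / 3 : ℕ) : ℤ) 124
        (vec F.E 3 (sj 0) + vec F.E 3 (sj 2) - vec F.E 3 (sj 5) - vec F.E 3 (sj 6)) := by
      funext i
      rw [Matrix.mulVec_single_one, phi_apply]
      have hn := num3 i i.2
      have e : ∀ j < 8, B (vec F.E 3 (sj j)) (v3 F i) = 10 * ∑ c ∈ Finset.range 3, fr3 i j c := by
        intro j hj
        rw [F.form, fF_sj (Or.inl rfl) hj]
        rfl
      rw [map_sub, map_sub, map_add, LinearMap.sub_apply, LinearMap.sub_apply, LinearMap.add_apply, e 0 (by norm_num), e 2 (by norm_num),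
        e 5 (by norm_num), e 6 (by norm_num), ← mul_add, ← mul_sub, ← mul_sub, ← hn]
      change ((en2 cc3P i 0 : ℤ) : ℚ) = _
      push_cast
      norm_num
      ring
    have hS : ∀ j, vec F.E 3 (sj j) ∈ Ufix (C.t ^ 3) := fun j => F.fix _
    have hyS : y.1 (vec F.E 3 (sj 0) + vec F.E 3 (sj 2) - vec F.E 3 (sj 5) - vec F.E 3 (sj 6)) =
        vec F.E 3 (sj 0) + vec F.E 3 (sj 2) - vec F.E 3 (sj 5) - vec F.E 3 (sj 6) := by
      rw [map_sub, map_sub, map_add, h0, h2, h5, h6]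
      abel
    rw [hc, h.Y_phi _ (AddSubgroup.sub_mem _ (AddSubgroup.sub_mem _ (AddSubgroup.add_mem _ (hS 0) (hS 2)) (hS 5)) (hS 6)), tA_apply, hyS]
  · have h1 : Yl B (v3 F) ((30 / 3 : ℕ) : ℤ) 124 (tA y) ∘ₗ T3l C F = T3l C F ∘ₗ T3l C F ∘ₗ Yl B (v3 F) ((30 / 3 : ℕ) : ℤ) 124 (tA y) := by
      refine LinearMap.pi_ext' fun i => LinearMap.ext_ring ?_
      have h2 : phi B (v3 F) ((30 / 3 : ℕ) : ℤ) 124 (v3 F i) = _ := h.phi_v i
      have h3 : (Pi.single i 1 : Fin 24 → ℚ) = (((124 : ℤ) : ℚ))⁻¹ • phi B (v3 F) ((30 / 3 : ℕ) : ℤ) 124 (v3 F i) := by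
        rw [h2, smul_smul, inv_mul_cancel₀ h.DQ, one_smul]
      change (Yl B (v3 F) ((30 / 3 : ℕ) : ℤ) 124 (tA y)) (T3l C F (Pi.single i 1)) =
        T3l C F (T3l C F (Yl B (v3 F) ((30 / 3 : ℕ) : ℤ) 124 (tA y) (Pi.single i 1)))
      rw [h3]
      simp only [map_smul]
      congr 1
      rw [h.Y_phi (tA C.t) (hin i), h.Y_phi (tA y) (htU _ (hin i)), h.Y_phi (tA y) (hin i), h.Y_phi (tA C.t) (hyU _ (hin i)),
        h.Y_phi (tA C.t) (htU _ (hyU _ (hin i)))]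
      congr 1
      exact yt3 C ha hyt (hin i)
    intro u
    exact LinearMap.congr_fun h1 u

theorem no_zero (hL : IsLat L B) (F : LF B C.t 3) (y : AutL L) (a : ℤ) (ha : a % 3 = 0) (hyt : y * C.t * y⁻¹ = C.t ^ a) : False := by
  have h := onf3 C hL F
  have hyU := pres3 C hyt
  have h1 : y.1 (C.t.1 (v3 F 0)) = y.1 (v3 F 0) := by
    have h2 : y * C.t = (C.t ^ 3) ^ (a / 3) * y := by
      have h3 : y * C.t = C.t ^ a * y := by rw [← hyt]; group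
      rw [h3]
      congr 1
      have h4 : a = 3 * (a / 3) := by omega
      conv_lhs => rw [h4]
      rw [zpow_mul]
      rfl
    change (y * C.t).1 (v3 F 0) = _
    rw [h2]
    change ((C.t ^ 3) ^ (a / 3)).1 (y.1 (v3 F 0)) = _
    exact zfix (x := y.1 (v3 F 0)) (hyU _ (h.mem 0))
  have h2 := y.1.injective h1
  rw [t_v3] at h2
  have h3 := h.gram (tau3F 0) 0
  rw [h2, h.gram, if_pos rfl, if_neg (by decide)] at h3
  norm_num at h3

/-- There is no automorphism `y` with `y t y⁻¹ = t ^ a` which maps `S_0`, `S_6`, `S_2`, `S_5` to `- S_6`, `- S_0`, `- S_5`, `- S_2`. -/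
theorem chir (hL : IsLat L B) (hη : C.η = et) (F : LF B C.t 3) (hco : HasCo C F) (y : AutL L) (a : ℤ)
    (hyt : y * C.t * y⁻¹ = C.t ^ a) (h0 : y.1 (vec F.E 3 (sj 0)) = -vec F.E 3 (sj 6)) (h6 : y.1 (vec F.E 3 (sj 6)) = -vec F.E 3 (sj 0))
    (h2 : y.1 (vec F.E 3 (sj 2)) = -vec F.E 3 (sj 5)) (h5 : y.1 (vec F.E 3 (sj 5)) = -vec F.E 3 (sj 2)) : False := by
  have h3 : a % 3 = 0 ∨ a % 3 = 1 ∨ a % 3 = 2 := by omega
  rcases h3 with ha | ha | ha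
  · exact no_zero C hL F y a ha hyt
  · refine no_one C hη y a ha hyt (co_h3 C hη F (sj 0)) (fun l i => ?_) (co_h3 C hη F (sj 6)) (fun l i => ?_) h0
    · rw [X_sj C (Or.inl rfl) F hco]
      exact if_congr (by rw [Fin.ext_iff]; rfl) rfl rfl
    · rw [X_sj C (Or.inl rfl) F hco]
      exact if_congr (by rw [Fin.ext_iff]; rfl) rfl rfl
  · exact no_two C hL hη F hco y a ha hyt h0 h6 h2 h5

end Pool.Agent.Helper60.E8Z
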