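import Pool.Agent.Helper60.E8Z.Chir

/-!
# Project E8Z, (E2): the interface of `chir`
-/

set_option autoImplicit false

open scoped TensorProduct Matrix

namespace Pool.Agent.Helper60.E8Z

open Pool.Agent.Helper73.E8 Pool.Agent.Helper64.E8C Pool.Agent.Helper73.E8.Ez Pool.Agent.Helper73.E8.Xc
open Pool.Agent.Helper2.E8A (K ζ σ)

/-- The permutation of the `S_j`. -/
def pi8 (j : ℕ) : ℕ := [6, 4, 5, 7, 1, 2, 0, 3].getD j 0

/-- The signs. -/
def ep8 (j : ℕ) : ℤ := if j = 3 ∨ j = 7 then 1 else -1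

variable {L : Type} [LieRing L] [Module.Free ℤ L] [Module.Finite ℤ L] {B : LinearMap.BilinForm ℤ L} (C : Core L B)

theorem S_eq (hη : C.η = et) (F : LF B C.t 3) (hco : HasCo C F) {s : L} {j : Fin 8} (hst : C.t.1 s = s)
    (hs : ∀ (j' : Fin 8) (i : ℕ), X (C.co s) j' i = if j' = j then 1 else 0) : vec F.E 3 (sj j) = -s := by
  apply C.co_injective
  have h1 : C.co (-s) = -C.co s := by
    have h := C.co_smul (-1) s
    rw [neg_one_smul, Int.cast_neg, Int.cast_one, neg_one_smul] at h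
    exact h
  have h2 : (C.t ^ 3).1 s = s := by
    change C.t.1 (C.t.1 (C.t.1 s)) = s
    rw [hst, hst, hst]
  rw [h1]
  refine X_ext ?_ fun l i _ => ?_
  · rw [co_h3 C hη]
    have h3 := h_zero3 (co_mem3 C hη h2)
    change (0 : Fin 8 → K) = -(C.co s).h
    rw [h3, neg_zero]
  · have h4 : X (-C.co s) l i = -X (C.co s) l i := by
      have h5 := X_smul (-1 : K) (C.co s) l i
      rw [neg_one_smul] at h5
      rw [h5]
      ring
    rw [X_sj C (Or.inl rfl) F hco, h4, hs]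
    by_cases h6 : l = j
    · rw [if_pos (congrArg Fin.val h6), if_pos h6]
    · rw [if_neg (fun h => h6 (Fin.ext h)), if_neg h6, neg_zero]

theorem chirS (hη : C.η = et) (F : LF B C.t 3)
    (hco : ∀ (a : ℕ → ℕ → ℤ) (j : Fin 8) (i : ℕ), X (C.co (vec F.E 3 a)) j i = ∑ c ∈ Finset.range 3, (a j c : K) * per 3 (c + i))
    (y : AutL L) (a : ℤ) (hay : y * C.t * y⁻¹ = C.t ^ a)
    (S : ℕ → L) (hSt : ∀ j, C.t.1 (S j) = S j) (hS : ∀ (j j' : Fin 8) (i : ℕ), X (C.co (S j)) j' i = if j' = j then 1 else 0)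
    (hyS : ∀ j < 8, y.1 (S j) = ep8 j • S (pi8 j)) : False := by
  have e : ∀ j : Fin 8, vec F.E 3 (sj j) = -S j := fun j => S_eq C hη F hco (hSt j) (hS j)
  have e0 : vec F.E 3 (sj 0) = -S 0 := e 0
  have e2 : vec F.E 3 (sj 2) = -S 2 := e 2
  have e5 : vec F.E 3 (sj 5) = -S 5 := e 5
  have e6 : vec F.E 3 (sj 6) = -S 6 := e 6
  have y0 : y.1 (S 0) = -S 6 := by rw [hyS 0 (by norm_num), ← neg_one_smul ℤ]; rfl
  have y2 : y.1 (S 2) = -S 5 := by rw [hyS 2 (by norm_num), ← neg_one_smul ℤ]; rfl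
  have y5 : y.1 (S 5) = -S 2 := by rw [hyS 5 (by norm_num), ← neg_one_smul ℤ]; rfl
  have y6 : y.1 (S 6) = -S 0 := by rw [hyS 6 (by norm_num), ← neg_one_smul ℤ]; rfl
  refine chir C C.hL hη F hco y a hay ?_ ?_ ?_ ?_
  · rw [e0, e6, map_neg, y0]
  · rw [e0, e6, map_neg, y6]
  · rw [e2, e5, map_neg, y2]
  · rw [e2, e5, map_neg, y5]

end Pool.Agent.Helper60.E8Z
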