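import Pool.Agent.Helper60.E8Z.Enu

/-!
# Project E8Z, (E2): images of the minimal vectors of the dual of a component

`M` is an integral lattice in `ℚ^N`, `P / den` an orthogonal projection which commutes with the isometry `Y` of `M`. If `P e_i / den` are, up to sign, all the
vectors of their norm in the dual of `M ∩ im P` (verified by enumeration), then `Y` permutes them up to sign.
-/

set_option autoImplicit false

namespace Pool.Agent.Helper60.E8Z

open Matrix

/-- Entry of a matrix. -/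
def en2 (M : List (List ℤ)) (i j : ℕ) : ℤ := (M.getD i []).getD j 0

/-- The vector with the given list of coordinates. -/
def vq (N : ℕ) (l : List ℤ) : Fin N → ℚ := fun i => ((l.getD i 0 : ℤ) : ℚ)

/-- The matrix with the given list of rows. -/
def mq (N : ℕ) (M : List (List ℤ)) : Matrix (Fin N) (Fin N) ℚ := fun i j => ((en2 M i j : ℤ) : ℚ)

/-- `∀ i < n, f i`. -/
def allN (n : ℕ) (f : ℕ → Bool) : Bool := (List.range n).all f

theorem allN_iff {n : ℕ} {f : ℕ → Bool} : allN n f = true ↔ ∀ i < n, f i = true := by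
  unfold allN
  rw [List.all_eq_true]
  exact ⟨fun h i hi => h i (List.mem_range.2 hi), fun h i hi => h i (List.mem_range.1 hi)⟩

/-- Data of a component: `P` (symmetric, `P ^ 2 = den P`), a basis `bs / den` of the dual lattice, the dual basis `ns` (integral vectors), the transposed
matrices, the triangular form of the Gram matrix of `bs`. -/
structure CD where
  den : ℤ
  D : ℤ
  R : ℤ
  P : List (List ℤ)
  bs : List (List ℤ)
  ns : List (List ℤ)
  bsT : List (List ℤ)
  nsT : List (List ℤ)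
  rows : List Row

/-- The leaves of the enumeration: norm not attained or one of the vectors `± P e_i`. -/
def leafT (cols : List (List ℤ)) (v : List ℤ) (r : ℤ) : Bool :=
  decide (r ≠ 0) || cols.any (fun c => decide (c = v)) || cols.any (fun c => decide (c.map (fun x => -x) = v))

/-- `∑ W L_a L_b` over the rows. -/
def gramR (rows : List Row) (a b : ℕ) : ℤ :=
  match rows with
  | [] => 0
  | row :: rows => row.W * (row.c ++ [row.d]).getD a 0 * (row.c ++ [row.d]).getD b 0 + gramR rows a b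

/-- First part of the checks: linear algebra. -/
def chkA (N m : ℕ) (c : CD) : Bool :=
  decide (0 < c.den) && decide (0 < c.D) && (c.rows.length == m) && c.rows.all (fun r => decide (0 < r.W)) &&
  (c.nsT.length == N) && (c.nsT.all fun l => l.length == m) &&
  (c.bsT.all fun l => decide (l.length ≤ m)) &&
  (c.bs.all fun l => decide (l.length ≤ N)) && (c.ns.all fun l => decide (l.length ≤ N)) &&
  allN N (fun i => allN m fun k => en2 c.bsT i k == en2 c.bs k i) &&
  allN N (fun i => allN m fun k => en2 c.nsT i k == en2 c.ns k i) &&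
  allN m (fun k => allN m fun l => dotL (c.ns.getD k []) (c.bs.getD l []) == if k = l then c.den else 0)

/-- Second part of the checks. -/
def chkB (N : ℕ) (c : CD) : Bool :=
  allN N fun i => allN N fun j => (en2 c.P i j == dotL (c.bsT.getD i []) (c.nsT.getD j [])) &&
    (en2 c.P i j == en2 c.P j i)

/-- Third part of the checks: the Gram matrix. -/
def chkC (N m : ℕ) (c : CD) : Bool :=
  (allN m fun a => allN m fun b => c.D * dotL (c.bs.getD a []) (c.bs.getD b []) == gramR c.rows a b) &&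
  allN N fun i => c.D * c.den * en2 c.P i i == c.R

/-- Fourth part of the checks: the enumeration. -/
def chkD (c : CD) : Bool := enum (leafT c.nsT) c.rows [] c.R

theorem gramR_sum (rows : List Row) {m : ℕ} (v : List ℤ) (hv : v.length ≤ m) :
    valE rows v = ∑ a : Fin m, ∑ b : Fin m, v.getD a 0 * v.getD b 0 * gramR rows a b := by
  induction rows with
  | nil => simp [valE, gramR]
  | cons row rows ih =>
    unfold valE gramR
    rw [ih, dotL_fin (N := m) (Or.inr hv), sq, Finset.sum_mul_sum, Finset.mul_sum, ← Finset.sum_add_distrib]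
    refine Finset.sum_congr rfl fun a _ => ?_
    rw [Finset.mul_sum, ← Finset.sum_add_distrib]
    refine Finset.sum_congr rfl fun b _ => ?_
    ring

theorem dotL_vq {N : ℕ} {a b : List ℤ} (h : a.length ≤ N ∨ b.length ≤ N) : vq N a ⬝ᵥ vq N b = (dotL a b : ℚ) := by
  rw [dotL_fin h]
  push_cast
  rfl

/-- The properties of the data. -/
structure IsCD (N m : ℕ) (c : CD) : Prop where
  den : 0 < c.den
  D : 0 < c.D
  rl : c.rows.length = m
  W : ∀ row ∈ c.rows, 0 < row.W
  nl : c.nsT.length = N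
  nl' : ∀ l ∈ c.nsT, l.length = m
  dual : ∀ k l : Fin m, vq N (c.ns.getD k []) ⬝ᵥ vq N (c.bs.getD l []) = if k = l then (c.den : ℚ) else 0
  dec : ∀ i j : Fin N, mq N c.P i j = ∑ k : Fin m, vq N (c.bs.getD k []) i * vq N (c.ns.getD k []) j
  symm : ∀ i j : Fin N, mq N c.P i j = mq N c.P j i
  gram : ∀ a b : Fin m, (c.D : ℚ) * (vq N (c.bs.getD a []) ⬝ᵥ vq N (c.bs.getD b [])) = (gramR c.rows a b : ℤ)
  R : ∀ i : Fin N, (c.D : ℚ) * c.den * mq N c.P i i = c.R
  tr : ∀ (i : Fin N) (k : Fin m), (c.nsT.getD i []).getD k 0 = (c.ns.getD k []).getD i 0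

theorem isCD {N m : ℕ} {c : CD} (hA : chkA N m c = true) (hB : chkB N c = true) (hC : chkC N m c = true) : IsCD N m c := by
  unfold chkA at hA
  simp only [Bool.and_eq_true, decide_eq_true_eq, beq_iff_eq, List.all_eq_true, allN_iff] at hA
  unfold chkB at hB
  simp only [Bool.and_eq_true, beq_iff_eq, allN_iff] at hB
  unfold chkC at hC
  simp only [Bool.and_eq_true, beq_iff_eq, allN_iff] at hC
  obtain ⟨⟨⟨⟨⟨⟨⟨⟨⟨⟨⟨h1, h2⟩, h3⟩, h4⟩, h5⟩, h6⟩, h7⟩, h8⟩, h9⟩, h10⟩, h11⟩, h12⟩ := hA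
  obtain ⟨hC1, hC2⟩ := hC
  have hlen : ∀ k, (c.bs.getD k []).length ≤ N := by
    intro k
    rw [List.getD_eq_getElem?_getD]
    rcases hk : c.bs[k]? with _ | l
    · simp
    · exact h8 l (List.mem_of_getElem? hk)
  have hlen' : ∀ k, (c.bsT.getD k []).length ≤ m := by
    intro k
    rw [List.getD_eq_getElem?_getD]
    rcases hk : c.bsT[k]? with _ | l
    · simp
    · exact h7 l (List.mem_of_getElem? hk)
  refine ⟨h1, h2, h3, h4, h5, h6, ?_, ?_, ?_, ?_, ?_, fun i k => h11 i i.2 k k.2⟩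
  · intro k l
    rw [dotL_vq (Or.inr (hlen l)), h12 k k.2 l l.2]
    simp only [Fin.ext_iff]
    split_ifs <;> simp
  · intro i j
    unfold mq
    rw [(hB i i.2 j j.2).1, dotL_fin (N := m) (Or.inl (hlen' i))]
    push_cast
    refine Finset.sum_congr rfl fun k _ => ?_
    have e1 := h10 i i.2 k k.2
    have e2 := h11 j j.2 k k.2
    unfold en2 at e1 e2
    rw [e1, e2]
    rfl
  · intro i j
    unfold mq
    rw [(hB i i.2 j j.2).2]
  · intro a b
    rw [dotL_vq (Or.inr (hlen b)), ← hC1 a a.2 b b.2]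
    push_cast
    rfl
  · intro i
    unfold mq
    rw [← hC2 i i.2]
    push_cast
    rfl

theorem IsCD.apply {N m : ℕ} {c : CD} (hc : IsCD N m c) (u : Fin N → ℚ) :
    mq N c.P *ᵥ u = ∑ k : Fin m, (vq N (c.ns.getD k []) ⬝ᵥ u) • vq N (c.bs.getD k []) := by
  funext j
  rw [Finset.sum_apply]
  simp only [mulVec, dotProduct, Pi.smul_apply, smul_eq_mul, hc.dec, Finset.sum_mul]
  rw [Finset.sum_comm]
  refine Finset.sum_congr rfl fun k _ => Finset.sum_congr rfl fun l _ => ?_
  ring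

theorem IsCD.dot {N m : ℕ} {c : CD} (hc : IsCD N m c) (u v : Fin N → ℚ) :
    (mq N c.P *ᵥ u) ⬝ᵥ v = u ⬝ᵥ (mq N c.P *ᵥ v) := by
  rw [Matrix.dotProduct_mulVec]
  congr 1
  funext j
  simp only [mulVec, vecMul, dotProduct]
  exact Finset.sum_congr rfl fun k _ => by rw [hc.symm j k, mul_comm]

theorem IsCD.sq {N m : ℕ} {c : CD} (hc : IsCD N m c) (u : Fin N → ℚ) :
    mq N c.P *ᵥ (mq N c.P *ᵥ u) = (c.den : ℚ) • (mq N c.P *ᵥ u) := by
  have hPb : ∀ k : Fin m, mq N c.P *ᵥ vq N (c.bs.getD k []) = (c.den : ℚ) • vq N (c.bs.getD k []) := by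
    intro k
    rw [hc.apply, Finset.sum_eq_single k]
    · rw [hc.dual, if_pos rfl]
    · intro l _ hl
      rw [hc.dual, if_neg hl, zero_smul]
    · intro h
      exact absurd (Finset.mem_univ _) h
  conv_lhs => rw [hc.apply u]
  rw [Matrix.mulVec_sum, hc.apply u, Finset.smul_sum]
  refine Finset.sum_congr rfl fun k _ => ?_
  rw [Matrix.mulVec_smul, hPb, smul_comm]

/-- `Y` permutes the vectors `P e_i` up to sign. -/
theorem comp_image {N m : ℕ} {c : CD} (hc : IsCD N m c) (hD : chkD c = true) (M : AddSubgroup (Fin N → ℚ))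
    (hint : ∀ u ∈ M, ∀ v ∈ M, ∃ k : ℤ, u ⬝ᵥ v = k) (Y : (Fin N → ℚ) →ₗ[ℚ] (Fin N → ℚ)) (hYM : ∀ u ∈ M, Y u ∈ M)
    (hYo : ∀ u v, Y u ⬝ᵥ Y v = u ⬝ᵥ v) (hYP : ∀ u, Y (mq N c.P *ᵥ u) = mq N c.P *ᵥ Y u)
    (hn : ∀ k < m, vq N (c.ns.getD k []) ∈ M)
    (i : Fin N) (hm : ∃ u ∈ M, mq N c.P *ᵥ u = mq N c.P *ᵥ Pi.single i 1) :
    ∃ (i' : Fin N) (s : ℤ), (s = 1 ∨ s = -1) ∧ Y (mq N c.P *ᵥ Pi.single i 1) = (s : ℚ) • (mq N c.P *ᵥ Pi.single i' 1) := by
  have hden : (c.den : ℚ) ≠ 0 := by
    have := hc.den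
    exact_mod_cast this.ne'
  have hP := hc.apply
  have hsym := hc.dot
  have hPP := hc.sq
  have hPn : ∀ k : Fin m, mq N c.P *ᵥ vq N (c.ns.getD k []) = (c.den : ℚ) • vq N (c.ns.getD k []) := by
    intro k
    have h1 : ∀ u, (mq N c.P *ᵥ vq N (c.ns.getD k [])) ⬝ᵥ u = ((c.den : ℚ) • vq N (c.ns.getD k [])) ⬝ᵥ u := by
      intro u
      rw [hsym, hP u, dotProduct_sum, Finset.sum_eq_single k]
      · rw [dotProduct_smul, hc.dual, if_pos rfl, smul_dotProduct, smul_eq_mul, smul_eq_mul, mul_comm]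
      · intro l _ hl
        rw [dotProduct_smul, hc.dual, if_neg (Ne.symm hl), smul_zero]
      · intro h
        exact absurd (Finset.mem_univ _) h
    funext j
    have h2 := h1 (Pi.single j 1)
    rwa [dotProduct_single_one, dotProduct_single_one] at h2
  -- the vector `p`
  obtain ⟨p, hp⟩ : ∃ p, p = Y (mq N c.P *ᵥ Pi.single i 1) := ⟨_, rfl⟩
  obtain ⟨u, huM, hu⟩ := hm
  have hp1 : p = mq N c.P *ᵥ Y u := by rw [hp, ← hu, hYP]
  have hint1 : ∀ k : Fin m, ∃ v : ℤ, vq N (c.ns.getD k []) ⬝ᵥ p = c.den * v := by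
    intro k
    obtain ⟨v, hv⟩ := hint _ (hn k k.2) _ (hYM u huM)
    refine ⟨v, ?_⟩
    rw [hp1, ← hsym, hPn, smul_dotProduct, hv, smul_eq_mul]
  choose v hv using hint1
  have hpv : p = ∑ k : Fin m, (v k : ℚ) • vq N (c.bs.getD k []) := by
    have h1 : (c.den : ℚ) • p = (c.den : ℚ) • ∑ k : Fin m, (v k : ℚ) • vq N (c.bs.getD k []) := by
      conv_lhs => rw [hp1, ← hPP, ← hp1, hP]
      rw [Finset.smul_sum]
      refine Finset.sum_congr rfl fun k _ => ?_
      rw [hv, smul_smul]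
    exact smul_right_injective _ hden h1
  have hpp : p ⬝ᵥ p = c.den * mq N c.P i i := by
    rw [hp, hYo, hsym, hPP, dotProduct_smul, single_one_dotProduct, mulVec_single_one]
    rfl
  -- the list of the coordinates
  obtain ⟨vl, hvl⟩ : ∃ vl, vl = List.ofFn v := ⟨_, rfl⟩
  have hvlen : vl.length = m := by rw [hvl, List.length_ofFn]
  have hvg : ∀ k : Fin m, vl.getD k 0 = v k := by
    intro k
    rw [hvl, List.getD_eq_getElem?_getD, List.getElem?_ofFn]
    simp
  have hval : valE c.rows vl = c.R := by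
    have h1 : ((valE c.rows vl : ℤ) : ℚ) = c.R := by
      rw [gramR_sum (m := m) c.rows vl hvlen.le]
      push_cast
      have h2 : (c.D : ℚ) * (p ⬝ᵥ p) = c.R := by
        rw [hpp, ← hc.R i]
        ring
      rw [← h2]
      conv_rhs => rw [hpv]
      rw [sum_dotProduct, Finset.mul_sum]
      refine Finset.sum_congr rfl fun a _ => ?_
      rw [dotProduct_sum, Finset.mul_sum]
      refine Finset.sum_congr rfl fun b _ => ?_
      rw [smul_dotProduct, dotProduct_smul, smul_eq_mul, smul_eq_mul, hvg, hvg, ← hc.gram a b]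
      ring
    exact_mod_cast h1
  have hleaf := enum_sound hc.W hD (vs := vl) (by rw [hvlen, hc.rl]) (by rw [List.nil_append, hval])
  rw [List.nil_append, hval, sub_self] at hleaf
  unfold leafT at hleaf
  simp only [ne_eq, not_true_eq_false, decide_false, Bool.false_or, Bool.or_eq_true, List.any_eq_true,
    decide_eq_true_eq] at hleaf
  -- a column
  have hcol : ∀ cl ∈ c.nsT, ∃ i' : Fin N, ∀ k : Fin m, ((cl.getD k 0 : ℤ) : ℚ) = vq N (c.ns.getD k []) i' := by
    intro cl hcl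
    obtain ⟨i', hi', h1⟩ := List.getElem_of_mem hcl
    refine ⟨⟨i', by rwa [hc.nl] at hi'⟩, fun k => ?_⟩
    have h2 := hc.tr ⟨i', by rwa [hc.nl] at hi'⟩ k
    rw [List.getD_eq_getElem _ _ hi', h1] at h2
    rw [h2]
    rfl
  have hfin : ∀ (i' : Fin N) (s : ℤ), (∀ k : Fin m, (v k : ℚ) = s * vq N (c.ns.getD k []) i') →
      p = (s : ℚ) • (mq N c.P *ᵥ Pi.single i' 1) := by
    intro i' s h
    rw [hpv, hP, Finset.smul_sum]
    refine Finset.sum_congr rfl fun k _ => ?_
    rw [h, dotProduct_single_one, smul_smul]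
  rw [← hp]
  rcases hleaf with ⟨cl, hcl, h1⟩ | ⟨cl, hcl, h1⟩
  · obtain ⟨i', hi'⟩ := hcol cl hcl
    refine ⟨i', 1, Or.inl rfl, hfin i' 1 fun k => ?_⟩
    rw [← hi' k, h1, hvg, Int.cast_one, one_mul]
  · obtain ⟨i', hi'⟩ := hcol cl hcl
    refine ⟨i', -1, Or.inr rfl, hfin i' (-1) fun k => ?_⟩
    rw [← hi' k, ← hvg, ← h1]
    have h2 : (cl.map fun x => -x).getD k 0 = -(cl.getD k 0) := by
      have h3 : (k : ℕ) < cl.length := by rw [hc.nl' cl hcl]; exact k.2
      rw [List.getD_eq_getElem _ _ (by rw [List.length_map]; exact h3), List.getD_eq_getElem _ _ h3, List.getElem_map]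
    rw [h2]
    push_cast
    ring

end Pool.Agent.Helper60.E8Z
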