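import Pool.Agent.Helper60.E8Z.CF3
import Pool.Agent.Helper60.E8Z.CD3

/-!
# Project E8Z, (E2): numerical facts about the fixed vectors of `t ^ 3` in the frame
-/

set_option autoImplicit false

namespace Pool.Agent.Helper60.E8Z

/-- 12 times the projection to the centre. -/
def cc3P : List (List ℤ) := [[.ofNat 1, .ofNat 1, .ofNat 1, .ofNat 1, .ofNat 1, .ofNat 1, .ofNat 0, .ofNat 0, .ofNat
  0, .ofNat 0, .ofNat 0, .ofNat 0, .ofNat 0, .ofNat 0, .ofNat 0, .ofNat 0, .ofNat 0, .ofNat 0, .negSucc 0, .negSucc 0,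
  .negSucc 0, .ofNat 1, .ofNat 1, .ofNat 1], [.ofNat 1, .ofNat 1, .ofNat 1, .ofNat 1, .ofNat 1, .ofNat 1, .ofNat 0,
  .ofNat 0, .ofNat 0, .ofNat 0, .ofNat 0, .ofNat 0, .ofNat 0, .ofNat 0, .ofNat 0, .ofNat 0, .ofNat 0, .ofNat 0, .negSucc
  0, .negSucc 0, .negSucc 0, .ofNat 1, .ofNat 1, .ofNat 1], [.ofNat 1, .ofNat 1, .ofNat 1, .ofNat 1, .ofNat 1, .ofNat 1,
  .ofNat 0, .ofNat 0, .ofNat 0, .ofNat 0, .ofNat 0, .ofNat 0, .ofNat 0, .ofNat 0, .ofNat 0, .ofNat 0, .ofNat 0, .ofNat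
  0, .negSucc 0, .negSucc 0, .negSucc 0, .ofNat 1, .ofNat 1, .ofNat 1], [.ofNat 1, .ofNat 1, .ofNat 1, .ofNat 1, .ofNat
  1, .ofNat 1, .ofNat 0, .ofNat 0, .ofNat 0, .ofNat 0, .ofNat 0, .ofNat 0, .ofNat 0, .ofNat 0, .ofNat 0, .ofNat 0,
  .ofNat 0, .ofNat 0, .negSucc 0, .negSucc 0, .negSucc 0, .ofNat 1, .ofNat 1, .ofNat 1], [.ofNat 1, .ofNat 1, .ofNat 1,
  .ofNat 1, .ofNat 1, .ofNat 1, .ofNat 0, .ofNat 0, .ofNat 0, .ofNat 0, .ofNat 0, .ofNat 0, .ofNat 0, .ofNat 0, .ofNat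
  0, .ofNat 0, .ofNat 0, .ofNat 0, .negSucc 0, .negSucc 0, .negSucc 0, .ofNat 1, .ofNat 1, .ofNat 1], [.ofNat 1, .ofNat
  1, .ofNat 1, .ofNat 1, .ofNat 1, .ofNat 1, .ofNat 0, .ofNat 0, .ofNat 0, .ofNat 0, .ofNat 0, .ofNat 0, .ofNat 0,
  .ofNat 0, .ofNat 0, .ofNat 0, .ofNat 0, .ofNat 0, .negSucc 0, .negSucc 0, .negSucc 0, .ofNat 1, .ofNat 1, .ofNat 1],
  [.ofNat 0, .ofNat 0, .ofNat 0, .ofNat 0, .ofNat 0, .ofNat 0, .ofNat 1, .ofNat 1, .ofNat 1, .negSucc 0, .negSucc 0,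
  .negSucc 0, .negSucc 0, .negSucc 0, .negSucc 0, .ofNat 1, .ofNat 1, .ofNat 1, .ofNat 0, .ofNat 0, .ofNat 0, .ofNat 0,
  .ofNat 0, .ofNat 0], [.ofNat 0, .ofNat 0, .ofNat 0, .ofNat 0, .ofNat 0, .ofNat 0, .ofNat 1, .ofNat 1, .ofNat 1,
  .negSucc 0, .negSucc 0, .negSucc 0, .negSucc 0, .negSucc 0, .negSucc 0, .ofNat 1, .ofNat 1, .ofNat 1, .ofNat 0, .ofNat
  0, .ofNat 0, .ofNat 0, .ofNat 0, .ofNat 0], [.ofNat 0, .ofNat 0, .ofNat 0, .ofNat 0, .ofNat 0, .ofNat 0, .ofNat 1,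
  .ofNat 1, .ofNat 1, .negSucc 0, .negSucc 0, .negSucc 0, .negSucc 0, .negSucc 0, .negSucc 0, .ofNat 1, .ofNat 1, .ofNat
  1, .ofNat 0, .ofNat 0, .ofNat 0, .ofNat 0, .ofNat 0, .ofNat 0], [.ofNat 0, .ofNat 0, .ofNat 0, .ofNat 0, .ofNat 0,
  .ofNat 0, .negSucc 0, .negSucc 0, .negSucc 0, .ofNat 1, .ofNat 1, .ofNat 1, .ofNat 1, .ofNat 1, .ofNat 1, .negSucc 0,
  .negSucc 0, .negSucc 0, .ofNat 0, .ofNat 0, .ofNat 0, .ofNat 0, .ofNat 0, .ofNat 0], [.ofNat 0, .ofNat 0, .ofNat 0,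
  .ofNat 0, .ofNat 0, .ofNat 0, .negSucc 0, .negSucc 0, .negSucc 0, .ofNat 1, .ofNat 1, .ofNat 1, .ofNat 1, .ofNat 1,
  .ofNat 1, .negSucc 0, .negSucc 0, .negSucc 0, .ofNat 0, .ofNat 0, .ofNat 0, .ofNat 0, .ofNat 0, .ofNat 0], [.ofNat 0,
  .ofNat 0, .ofNat 0, .ofNat 0, .ofNat 0, .ofNat 0, .negSucc 0, .negSucc 0, .negSucc 0, .ofNat 1, .ofNat 1, .ofNat 1,
  .ofNat 1, .ofNat 1, .ofNat 1, .negSucc 0, .negSucc 0, .negSucc 0, .ofNat 0, .ofNat 0, .ofNat 0, .ofNat 0, .ofNat 0,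
  .ofNat 0], [.ofNat 0, .ofNat 0, .ofNat 0, .ofNat 0, .ofNat 0, .ofNat 0, .negSucc 0, .negSucc 0, .negSucc 0, .ofNat 1,
  .ofNat 1, .ofNat 1, .ofNat 1, .ofNat 1, .ofNat 1, .negSucc 0, .negSucc 0, .negSucc 0, .ofNat 0, .ofNat 0, .ofNat 0,
  .ofNat 0, .ofNat 0, .ofNat 0], [.ofNat 0, .ofNat 0, .ofNat 0, .ofNat 0, .ofNat 0, .ofNat 0, .negSucc 0, .negSucc 0,
  .negSucc 0, .ofNat 1, .ofNat 1, .ofNat 1, .ofNat 1, .ofNat 1, .ofNat 1, .negSucc 0, .negSucc 0, .negSucc 0, .ofNat 0,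
  .ofNat 0, .ofNat 0, .ofNat 0, .ofNat 0, .ofNat 0], [.ofNat 0, .ofNat 0, .ofNat 0, .ofNat 0, .ofNat 0, .ofNat 0,
  .negSucc 0, .negSucc 0, .negSucc 0, .ofNat 1, .ofNat 1, .ofNat 1, .ofNat 1, .ofNat 1, .ofNat 1, .negSucc 0, .negSucc
  0, .negSucc 0, .ofNat 0, .ofNat 0, .ofNat 0, .ofNat 0, .ofNat 0, .ofNat 0], [.ofNat 0, .ofNat 0, .ofNat 0, .ofNat 0,
  .ofNat 0, .ofNat 0, .ofNat 1, .ofNat 1, .ofNat 1, .negSucc 0, .negSucc 0, .negSucc 0, .negSucc 0, .negSucc 0, .negSucc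
  0, .ofNat 1, .ofNat 1, .ofNat 1, .ofNat 0, .ofNat 0, .ofNat 0, .ofNat 0, .ofNat 0, .ofNat 0], [.ofNat 0, .ofNat 0,
  .ofNat 0, .ofNat 0, .ofNat 0, .ofNat 0, .ofNat 1, .ofNat 1, .ofNat 1, .negSucc 0, .negSucc 0, .negSucc 0, .negSucc 0,
  .negSucc 0, .negSucc 0, .ofNat 1, .ofNat 1, .ofNat 1, .ofNat 0, .ofNat 0, .ofNat 0, .ofNat 0, .ofNat 0, .ofNat 0],
  [.ofNat 0, .ofNat 0, .ofNat 0, .ofNat 0, .ofNat 0, .ofNat 0, .ofNat 1, .ofNat 1, .ofNat 1, .negSucc 0, .negSucc 0,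
  .negSucc 0, .negSucc 0, .negSucc 0, .negSucc 0, .ofNat 1, .ofNat 1, .ofNat 1, .ofNat 0, .ofNat 0, .ofNat 0, .ofNat 0,
  .ofNat 0, .ofNat 0], [.negSucc 0, .negSucc 0, .negSucc 0, .negSucc 0, .negSucc 0, .negSucc 0, .ofNat 0, .ofNat 0,
  .ofNat 0, .ofNat 0, .ofNat 0, .ofNat 0, .ofNat 0, .ofNat 0, .ofNat 0, .ofNat 0, .ofNat 0, .ofNat 0, .ofNat 1, .ofNat
  1, .ofNat 1, .negSucc 0, .negSucc 0, .negSucc 0], [.negSucc 0, .negSucc 0, .negSucc 0, .negSucc 0, .negSucc 0,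
  .negSucc 0, .ofNat 0, .ofNat 0, .ofNat 0, .ofNat 0, .ofNat 0, .ofNat 0, .ofNat 0, .ofNat 0, .ofNat 0, .ofNat 0, .ofNat
  0, .ofNat 0, .ofNat 1, .ofNat 1, .ofNat 1, .negSucc 0, .negSucc 0, .negSucc 0], [.negSucc 0, .negSucc 0, .negSucc 0,
  .negSucc 0, .negSucc 0, .negSucc 0, .ofNat 0, .ofNat 0, .ofNat 0, .ofNat 0, .ofNat 0, .ofNat 0, .ofNat 0, .ofNat 0,
  .ofNat 0, .ofNat 0, .ofNat 0, .ofNat 0, .ofNat 1, .ofNat 1, .ofNat 1, .negSucc 0, .negSucc 0, .negSucc 0], [.ofNat 1,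
  .ofNat 1, .ofNat 1, .ofNat 1, .ofNat 1, .ofNat 1, .ofNat 0, .ofNat 0, .ofNat 0, .ofNat 0, .ofNat 0, .ofNat 0, .ofNat
  0, .ofNat 0, .ofNat 0, .ofNat 0, .ofNat 0, .ofNat 0, .negSucc 0, .negSucc 0, .negSucc 0, .ofNat 1, .ofNat 1, .ofNat
  1], [.ofNat 1, .ofNat 1, .ofNat 1, .ofNat 1, .ofNat 1, .ofNat 1, .ofNat 0, .ofNat 0, .ofNat 0, .ofNat 0, .ofNat 0,
  .ofNat 0, .ofNat 0, .ofNat 0, .ofNat 0, .ofNat 0, .ofNat 0, .ofNat 0, .negSucc 0, .negSucc 0, .negSucc 0, .ofNat 1,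
  .ofNat 1, .ofNat 1], [.ofNat 1, .ofNat 1, .ofNat 1, .ofNat 1, .ofNat 1, .ofNat 1, .ofNat 0, .ofNat 0, .ofNat 0, .ofNat
  0, .ofNat 0, .ofNat 0, .ofNat 0, .ofNat 0, .ofNat 0, .ofNat 0, .ofNat 0, .ofNat 0, .negSucc 0, .negSucc 0, .negSucc 0,
  .ofNat 1, .ofNat 1, .ofNat 1]]

/-- The sum of `cf3P` and `cd3P`. -/
def s3T : List (List ℤ) := [[.ofNat 25, .negSucc 2, .negSucc 2, .ofNat 0, .negSucc 1, .negSucc 1, .ofNat 1, .ofNat 1,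
  .negSucc 0, .ofNat 1, .ofNat 1, .negSucc 0, .negSucc 0, .negSucc 0, .ofNat 0, .negSucc 0, .negSucc 0, .ofNat 0, .ofNat
  2, .ofNat 3, .ofNat 2, .negSucc 2, .negSucc 2, .negSucc 1], [.negSucc 2, .ofNat 25, .negSucc 2, .negSucc 1, .ofNat 0,
  .negSucc 1, .negSucc 0, .ofNat 1, .ofNat 1, .negSucc 0, .ofNat 1, .ofNat 1, .ofNat 0, .negSucc 0, .negSucc 0, .ofNat
  0, .negSucc 0, .negSucc 0, .ofNat 2, .ofNat 2, .ofNat 3, .negSucc 1, .negSucc 2, .negSucc 2], [.negSucc 2, .negSucc 2,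
  .ofNat 25, .negSucc 1, .negSucc 1, .ofNat 0, .ofNat 1, .negSucc 0, .ofNat 1, .ofNat 1, .negSucc 0, .ofNat 1, .negSucc
  0, .ofNat 0, .negSucc 0, .negSucc 0, .ofNat 0, .negSucc 0, .ofNat 3, .ofNat 2, .ofNat 2, .negSucc 2, .negSucc 1,
  .negSucc 2], [.ofNat 0, .negSucc 1, .negSucc 1, .ofNat 25, .negSucc 2, .negSucc 2, .negSucc 0, .negSucc 0, .ofNat 1,
  .negSucc 0, .negSucc 0, .ofNat 1, .ofNat 1, .ofNat 1, .ofNat 0, .ofNat 1, .ofNat 1, .ofNat 0, .ofNat 3, .ofNat 2,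
  .ofNat 3, .negSucc 1, .negSucc 1, .negSucc 2], [.negSucc 1, .ofNat 0, .negSucc 1, .negSucc 2, .ofNat 25, .negSucc 2,
  .ofNat 1, .negSucc 0, .negSucc 0, .ofNat 1, .negSucc 0, .negSucc 0, .ofNat 0, .ofNat 1, .ofNat 1, .ofNat 0, .ofNat 1,
  .ofNat 1, .ofNat 3, .ofNat 3, .ofNat 2, .negSucc 2, .negSucc 1, .negSucc 1], [.negSucc 1, .negSucc 1, .ofNat 0,
  .negSucc 2, .negSucc 2, .ofNat 25, .negSucc 0, .ofNat 1, .negSucc 0, .negSucc 0, .ofNat 1, .negSucc 0, .ofNat 1,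
  .ofNat 0, .ofNat 1, .ofNat 1, .ofNat 0, .ofNat 1, .ofNat 2, .ofNat 3, .ofNat 3, .negSucc 1, .negSucc 2, .negSucc 1],
  [.ofNat 1, .negSucc 0, .ofNat 1, .negSucc 0, .ofNat 1, .negSucc 0, .ofNat 25, .negSucc 2, .negSucc 2, .ofNat 0, .ofNat
  2, .ofNat 2, .ofNat 3, .ofNat 2, .ofNat 2, .negSucc 1, .negSucc 2, .negSucc 2, .negSucc 0, .negSucc 0, .ofNat 0,
  .ofNat 0, .negSucc 0, .negSucc 0], [.ofNat 1, .ofNat 1, .negSucc 0, .negSucc 0, .negSucc 0, .ofNat 1, .negSucc 2,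
  .ofNat 25, .negSucc 2, .ofNat 2, .ofNat 0, .ofNat 2, .ofNat 2, .ofNat 3, .ofNat 2, .negSucc 2, .negSucc 1, .negSucc 2,
  .ofNat 0, .negSucc 0, .negSucc 0, .negSucc 0, .ofNat 0, .negSucc 0], [.negSucc 0, .ofNat 1, .ofNat 1, .ofNat 1,
  .negSucc 0, .negSucc 0, .negSucc 2, .negSucc 2, .ofNat 25, .ofNat 2, .ofNat 2, .ofNat 0, .ofNat 2, .ofNat 2, .ofNat 3,
  .negSucc 2, .negSucc 2, .negSucc 1, .negSucc 0, .ofNat 0, .negSucc 0, .negSucc 0, .negSucc 0, .ofNat 0], [.ofNat 1,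
  .negSucc 0, .ofNat 1, .negSucc 0, .ofNat 1, .negSucc 0, .ofNat 0, .ofNat 2, .ofNat 2, .ofNat 25, .negSucc 2, .negSucc
  2, .negSucc 1, .negSucc 2, .negSucc 2, .ofNat 3, .ofNat 2, .ofNat 2, .negSucc 0, .negSucc 0, .ofNat 0, .ofNat 0,
  .negSucc 0, .negSucc 0], [.ofNat 1, .ofNat 1, .negSucc 0, .negSucc 0, .negSucc 0, .ofNat 1, .ofNat 2, .ofNat 0, .ofNat
  2, .negSucc 2, .ofNat 25, .negSucc 2, .negSucc 2, .negSucc 1, .negSucc 2, .ofNat 2, .ofNat 3, .ofNat 2, .ofNat 0,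
  .negSucc 0, .negSucc 0, .negSucc 0, .ofNat 0, .negSucc 0], [.negSucc 0, .ofNat 1, .ofNat 1, .ofNat 1, .negSucc 0,
  .negSucc 0, .ofNat 2, .ofNat 2, .ofNat 0, .negSucc 2, .negSucc 2, .ofNat 25, .negSucc 2, .negSucc 2, .negSucc 1,
  .ofNat 2, .ofNat 2, .ofNat 3, .negSucc 0, .ofNat 0, .negSucc 0, .negSucc 0, .negSucc 0, .ofNat 0], [.negSucc 0, .ofNat
  0, .negSucc 0, .ofNat 1, .ofNat 0, .ofNat 1, .ofNat 3, .ofNat 2, .ofNat 2, .negSucc 1, .negSucc 2, .negSucc 2, .ofNat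
  25, .negSucc 1, .negSucc 1, .ofNat 0, .ofNat 3, .ofNat 3, .negSucc 0, .negSucc 0, .ofNat 1, .ofNat 1, .negSucc 0,
  .negSucc 0], [.negSucc 0, .negSucc 0, .ofNat 0, .ofNat 1, .ofNat 1, .ofNat 0, .ofNat 2, .ofNat 3, .ofNat 2, .negSucc
  2, .negSucc 1, .negSucc 2, .negSucc 1, .ofNat 25, .negSucc 1, .ofNat 3, .ofNat 0, .ofNat 3, .ofNat 1, .negSucc 0,
  .negSucc 0, .negSucc 0, .ofNat 1, .negSucc 0], [.ofNat 0, .negSucc 0, .negSucc 0, .ofNat 0, .ofNat 1, .ofNat 1, .ofNat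
  2, .ofNat 2, .ofNat 3, .negSucc 2, .negSucc 2, .negSucc 1, .negSucc 1, .negSucc 1, .ofNat 25, .ofNat 3, .ofNat 3,
  .ofNat 0, .negSucc 0, .ofNat 1, .negSucc 0, .negSucc 0, .negSucc 0, .ofNat 1], [.negSucc 0, .ofNat 0, .negSucc 0,
  .ofNat 1, .ofNat 0, .ofNat 1, .negSucc 1, .negSucc 2, .negSucc 2, .ofNat 3, .ofNat 2, .ofNat 2, .ofNat 0, .ofNat 3,
  .ofNat 3, .ofNat 25, .negSucc 1, .negSucc 1, .negSucc 0, .negSucc 0, .ofNat 1, .ofNat 1, .negSucc 0, .negSucc 0],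
  [.negSucc 0, .negSucc 0, .ofNat 0, .ofNat 1, .ofNat 1, .ofNat 0, .negSucc 2, .negSucc 1, .negSucc 2, .ofNat 2, .ofNat
  3, .ofNat 2, .ofNat 3, .ofNat 0, .ofNat 3, .negSucc 1, .ofNat 25, .negSucc 1, .ofNat 1, .negSucc 0, .negSucc 0,
  .negSucc 0, .ofNat 1, .negSucc 0], [.ofNat 0, .negSucc 0, .negSucc 0, .ofNat 0, .ofNat 1, .ofNat 1, .negSucc 2,
  .negSucc 2, .negSucc 1, .ofNat 2, .ofNat 2, .ofNat 3, .ofNat 3, .ofNat 3, .ofNat 0, .negSucc 1, .negSucc 1, .ofNat 25,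
  .negSucc 0, .ofNat 1, .negSucc 0, .negSucc 0, .negSucc 0, .ofNat 1], [.ofNat 2, .ofNat 2, .ofNat 3, .ofNat 3, .ofNat
  3, .ofNat 2, .negSucc 0, .ofNat 0, .negSucc 0, .negSucc 0, .ofNat 0, .negSucc 0, .negSucc 0, .ofNat 1, .negSucc 0,
  .negSucc 0, .ofNat 1, .negSucc 0, .ofNat 25, .negSucc 1, .negSucc 1, .ofNat 3, .ofNat 0, .ofNat 3], [.ofNat 3, .ofNat
  2, .ofNat 2, .ofNat 2, .ofNat 3, .ofNat 3, .negSucc 0, .negSucc 0, .ofNat 0, .negSucc 0, .negSucc 0, .ofNat 0,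
  .negSucc 0, .negSucc 0, .ofNat 1, .negSucc 0, .negSucc 0, .ofNat 1, .negSucc 1, .ofNat 25, .negSucc 1, .ofNat 3,
  .ofNat 3, .ofNat 0], [.ofNat 2, .ofNat 3, .ofNat 2, .ofNat 3, .ofNat 2, .ofNat 3, .ofNat 0, .negSucc 0, .negSucc 0,
  .ofNat 0, .negSucc 0, .negSucc 0, .ofNat 1, .negSucc 0, .negSucc 0, .ofNat 1, .negSucc 0, .negSucc 0, .negSucc 1,
  .negSucc 1, .ofNat 25, .ofNat 0, .ofNat 3, .ofNat 3], [.negSucc 2, .negSucc 1, .negSucc 2, .negSucc 1, .negSucc 2,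
  .negSucc 1, .ofNat 0, .negSucc 0, .negSucc 0, .ofNat 0, .negSucc 0, .negSucc 0, .ofNat 1, .negSucc 0, .negSucc 0,
  .ofNat 1, .negSucc 0, .negSucc 0, .ofNat 3, .ofNat 3, .ofNat 0, .ofNat 25, .negSucc 1, .negSucc 1], [.negSucc 2,
  .negSucc 2, .negSucc 1, .negSucc 1, .negSucc 1, .negSucc 2, .negSucc 0, .ofNat 0, .negSucc 0, .negSucc 0, .ofNat 0,
  .negSucc 0, .negSucc 0, .ofNat 1, .negSucc 0, .negSucc 0, .ofNat 1, .negSucc 0, .ofNat 0, .ofNat 3, .ofNat 3, .negSucc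
  1, .ofNat 25, .negSucc 1], [.negSucc 1, .negSucc 2, .negSucc 2, .negSucc 2, .negSucc 1, .negSucc 1, .negSucc 0,
  .negSucc 0, .ofNat 0, .negSucc 0, .negSucc 0, .ofNat 0, .negSucc 0, .negSucc 0, .ofNat 1, .negSucc 0, .negSucc 0,
  .ofNat 1, .ofNat 3, .ofNat 0, .ofNat 3, .negSucc 1, .negSucc 1, .ofNat 25]]

/-- Row `i`: 5 times the vector `H5 i` of the lattice. -/
def h5T : List (List ℤ) := [[.ofNat 15, .negSucc 4, .negSucc 4, .ofNat 10, .ofNat 0, .ofNat 0, .ofNat 5, .ofNat 5,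
  .negSucc 4, .ofNat 5, .ofNat 5, .negSucc 4, .negSucc 4, .negSucc 4, .ofNat 0, .negSucc 4, .negSucc 4, .ofNat 0, .ofNat
  0, .ofNat 5, .ofNat 0, .negSucc 4, .negSucc 4, .ofNat 0], [.negSucc 4, .ofNat 15, .negSucc 4, .ofNat 0, .ofNat 10,
  .ofNat 0, .negSucc 4, .ofNat 5, .ofNat 5, .negSucc 4, .ofNat 5, .ofNat 5, .ofNat 0, .negSucc 4, .negSucc 4, .ofNat 0,
  .negSucc 4, .negSucc 4, .ofNat 0, .ofNat 0, .ofNat 5, .ofNat 0, .negSucc 4, .negSucc 4], [.negSucc 4, .negSucc 4,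
  .ofNat 15, .ofNat 0, .ofNat 0, .ofNat 10, .ofNat 5, .negSucc 4, .ofNat 5, .ofNat 5, .negSucc 4, .ofNat 5, .negSucc 4,
  .ofNat 0, .negSucc 4, .negSucc 4, .ofNat 0, .negSucc 4, .ofNat 5, .ofNat 0, .ofNat 0, .negSucc 4, .ofNat 0, .negSucc
  4], [.ofNat 10, .ofNat 0, .ofNat 0, .ofNat 15, .negSucc 4, .negSucc 4, .negSucc 4, .negSucc 4, .ofNat 5, .negSucc 4,
  .negSucc 4, .ofNat 5, .ofNat 5, .ofNat 5, .ofNat 0, .ofNat 5, .ofNat 5, .ofNat 0, .ofNat 5, .ofNat 0, .ofNat 5, .ofNat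
  0, .ofNat 0, .negSucc 4], [.ofNat 0, .ofNat 10, .ofNat 0, .negSucc 4, .ofNat 15, .negSucc 4, .ofNat 5, .negSucc 4,
  .negSucc 4, .ofNat 5, .negSucc 4, .negSucc 4, .ofNat 0, .ofNat 5, .ofNat 5, .ofNat 0, .ofNat 5, .ofNat 5, .ofNat 5,
  .ofNat 5, .ofNat 0, .negSucc 4, .ofNat 0, .ofNat 0], [.ofNat 0, .ofNat 0, .ofNat 10, .negSucc 4, .negSucc 4, .ofNat
  15, .negSucc 4, .ofNat 5, .negSucc 4, .negSucc 4, .ofNat 5, .negSucc 4, .ofNat 5, .ofNat 0, .ofNat 5, .ofNat 5, .ofNat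
  0, .ofNat 5, .ofNat 0, .ofNat 5, .ofNat 5, .ofNat 0, .negSucc 4, .ofNat 0], [.ofNat 5, .negSucc 4, .ofNat 5, .negSucc
  4, .ofNat 5, .negSucc 4, .ofNat 15, .negSucc 4, .negSucc 4, .negSucc 9, .ofNat 0, .ofNat 0, .ofNat 5, .ofNat 0, .ofNat
  0, .ofNat 0, .negSucc 4, .negSucc 4, .negSucc 4, .negSucc 4, .ofNat 0, .ofNat 0, .negSucc 4, .negSucc 4], [.ofNat 5,
  .ofNat 5, .negSucc 4, .negSucc 4, .negSucc 4, .ofNat 5, .negSucc 4, .ofNat 15, .negSucc 4, .ofNat 0, .negSucc 9,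
  .ofNat 0, .ofNat 0, .ofNat 5, .ofNat 0, .negSucc 4, .ofNat 0, .negSucc 4, .ofNat 0, .negSucc 4, .negSucc 4, .negSucc
  4, .ofNat 0, .negSucc 4], [.negSucc 4, .ofNat 5, .ofNat 5, .ofNat 5, .negSucc 4, .negSucc 4, .negSucc 4, .negSucc 4,
  .ofNat 15, .ofNat 0, .ofNat 0, .negSucc 9, .ofNat 0, .ofNat 0, .ofNat 5, .negSucc 4, .negSucc 4, .ofNat 0, .negSucc 4,
  .ofNat 0, .negSucc 4, .negSucc 4, .negSucc 4, .ofNat 0], [.ofNat 5, .negSucc 4, .ofNat 5, .negSucc 4, .ofNat 5,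
  .negSucc 4, .negSucc 9, .ofNat 0, .ofNat 0, .ofNat 15, .negSucc 4, .negSucc 4, .ofNat 0, .negSucc 4, .negSucc 4,
  .ofNat 5, .ofNat 0, .ofNat 0, .negSucc 4, .negSucc 4, .ofNat 0, .ofNat 0, .negSucc 4, .negSucc 4], [.ofNat 5, .ofNat
  5, .negSucc 4, .negSucc 4, .negSucc 4, .ofNat 5, .ofNat 0, .negSucc 9, .ofNat 0, .negSucc 4, .ofNat 15, .negSucc 4,
  .negSucc 4, .ofNat 0, .negSucc 4, .ofNat 0, .ofNat 5, .ofNat 0, .ofNat 0, .negSucc 4, .negSucc 4, .negSucc 4, .ofNat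
  0, .negSucc 4], [.negSucc 4, .ofNat 5, .ofNat 5, .ofNat 5, .negSucc 4, .negSucc 4, .ofNat 0, .ofNat 0, .negSucc 9,
  .negSucc 4, .negSucc 4, .ofNat 15, .negSucc 4, .negSucc 4, .ofNat 0, .ofNat 0, .ofNat 0, .ofNat 5, .negSucc 4, .ofNat
  0, .negSucc 4, .negSucc 4, .negSucc 4, .ofNat 0], [.negSucc 4, .ofNat 0, .negSucc 4, .ofNat 5, .ofNat 0, .ofNat 5,
  .ofNat 5, .ofNat 0, .ofNat 0, .ofNat 0, .negSucc 4, .negSucc 4, .ofNat 15, .ofNat 0, .ofNat 0, .negSucc 9, .ofNat 5,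
  .ofNat 5, .negSucc 4, .negSucc 4, .ofNat 5, .ofNat 5, .negSucc 4, .negSucc 4], [.negSucc 4, .negSucc 4, .ofNat 0,
  .ofNat 5, .ofNat 5, .ofNat 0, .ofNat 0, .ofNat 5, .ofNat 0, .negSucc 4, .ofNat 0, .negSucc 4, .ofNat 0, .ofNat 15,
  .ofNat 0, .ofNat 5, .negSucc 9, .ofNat 5, .ofNat 5, .negSucc 4, .negSucc 4, .negSucc 4, .ofNat 5, .negSucc 4], [.ofNat
  0, .negSucc 4, .negSucc 4, .ofNat 0, .ofNat 5, .ofNat 5, .ofNat 0, .ofNat 0, .ofNat 5, .negSucc 4, .negSucc 4, .ofNat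
  0, .ofNat 0, .ofNat 0, .ofNat 15, .ofNat 5, .ofNat 5, .negSucc 9, .negSucc 4, .ofNat 5, .negSucc 4, .negSucc 4,
  .negSucc 4, .ofNat 5], [.negSucc 4, .ofNat 0, .negSucc 4, .ofNat 5, .ofNat 0, .ofNat 5, .ofNat 0, .negSucc 4, .negSucc
  4, .ofNat 5, .ofNat 0, .ofNat 0, .negSucc 9, .ofNat 5, .ofNat 5, .ofNat 15, .ofNat 0, .ofNat 0, .negSucc 4, .negSucc
  4, .ofNat 5, .ofNat 5, .negSucc 4, .negSucc 4], [.negSucc 4, .negSucc 4, .ofNat 0, .ofNat 5, .ofNat 5, .ofNat 0,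
  .negSucc 4, .ofNat 0, .negSucc 4, .ofNat 0, .ofNat 5, .ofNat 0, .ofNat 5, .negSucc 9, .ofNat 5, .ofNat 0, .ofNat 15,
  .ofNat 0, .ofNat 5, .negSucc 4, .negSucc 4, .negSucc 4, .ofNat 5, .negSucc 4], [.ofNat 0, .negSucc 4, .negSucc 4,
  .ofNat 0, .ofNat 5, .ofNat 5, .negSucc 4, .negSucc 4, .ofNat 0, .ofNat 0, .ofNat 0, .ofNat 5, .ofNat 5, .ofNat 5,
  .negSucc 9, .ofNat 0, .ofNat 0, .ofNat 15, .negSucc 4, .ofNat 5, .negSucc 4, .negSucc 4, .negSucc 4, .ofNat 5],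
  [.ofNat 0, .ofNat 0, .ofNat 5, .ofNat 5, .ofNat 5, .ofNat 0, .negSucc 4, .ofNat 0, .negSucc 4, .negSucc 4, .ofNat 0,
  .negSucc 4, .negSucc 4, .ofNat 5, .negSucc 4, .negSucc 4, .ofNat 5, .negSucc 4, .ofNat 15, .ofNat 0, .ofNat 0, .ofNat
  5, .negSucc 9, .ofNat 5], [.ofNat 5, .ofNat 0, .ofNat 0, .ofNat 0, .ofNat 5, .ofNat 5, .negSucc 4, .negSucc 4, .ofNat
  0, .negSucc 4, .negSucc 4, .ofNat 0, .negSucc 4, .negSucc 4, .ofNat 5, .negSucc 4, .negSucc 4, .ofNat 5, .ofNat 0,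
  .ofNat 15, .ofNat 0, .ofNat 5, .ofNat 5, .negSucc 9], [.ofNat 0, .ofNat 5, .ofNat 0, .ofNat 5, .ofNat 0, .ofNat 5,
  .ofNat 0, .negSucc 4, .negSucc 4, .ofNat 0, .negSucc 4, .negSucc 4, .ofNat 5, .negSucc 4, .negSucc 4, .ofNat 5,
  .negSucc 4, .negSucc 4, .ofNat 0, .ofNat 0, .ofNat 15, .negSucc 9, .ofNat 5, .ofNat 5], [.negSucc 4, .ofNat 0,
  .negSucc 4, .ofNat 0, .negSucc 4, .ofNat 0, .ofNat 0, .negSucc 4, .negSucc 4, .ofNat 0, .negSucc 4, .negSucc 4, .ofNat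
  5, .negSucc 4, .negSucc 4, .ofNat 5, .negSucc 4, .negSucc 4, .ofNat 5, .ofNat 5, .negSucc 9, .ofNat 15, .ofNat 0,
  .ofNat 0], [.negSucc 4, .negSucc 4, .ofNat 0, .ofNat 0, .ofNat 0, .negSucc 4, .negSucc 4, .ofNat 0, .negSucc 4,
  .negSucc 4, .ofNat 0, .negSucc 4, .negSucc 4, .ofNat 5, .negSucc 4, .negSucc 4, .ofNat 5, .negSucc 4, .negSucc 9,
  .ofNat 5, .ofNat 5, .ofNat 0, .ofNat 15, .ofNat 0], [.ofNat 0, .negSucc 4, .negSucc 4, .negSucc 4, .ofNat 0, .ofNat 0,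
  .negSucc 4, .negSucc 4, .ofNat 0, .negSucc 4, .negSucc 4, .ofNat 0, .negSucc 4, .negSucc 4, .ofNat 5, .negSucc 4,
  .negSucc 4, .ofNat 5, .ofNat 5, .negSucc 9, .ofNat 5, .ofNat 0, .ofNat 0, .ofNat 15]]

/-- Row `i`: 3 times the vector `H3 i` of the lattice. -/
def h3T : List (List ℤ) := [[.ofNat 21, .negSucc 2, .negSucc 2, .ofNat 6, .ofNat 0, .ofNat 0, .ofNat 3, .ofNat 3,
  .negSucc 2, .ofNat 3, .ofNat 3, .negSucc 2, .negSucc 2, .negSucc 2, .ofNat 0, .negSucc 2, .negSucc 2, .ofNat 0, .ofNat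
  0, .ofNat 3, .ofNat 0, .negSucc 2, .negSucc 2, .ofNat 0], [.negSucc 2, .ofNat 21, .negSucc 2, .ofNat 0, .ofNat 6,
  .ofNat 0, .negSucc 2, .ofNat 3, .ofNat 3, .negSucc 2, .ofNat 3, .ofNat 3, .ofNat 0, .negSucc 2, .negSucc 2, .ofNat 0,
  .negSucc 2, .negSucc 2, .ofNat 0, .ofNat 0, .ofNat 3, .ofNat 0, .negSucc 2, .negSucc 2], [.negSucc 2, .negSucc 2,
  .ofNat 21, .ofNat 0, .ofNat 0, .ofNat 6, .ofNat 3, .negSucc 2, .ofNat 3, .ofNat 3, .negSucc 2, .ofNat 3, .negSucc 2,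
  .ofNat 0, .negSucc 2, .negSucc 2, .ofNat 0, .negSucc 2, .ofNat 3, .ofNat 0, .ofNat 0, .negSucc 2, .ofNat 0, .negSucc
  2], [.ofNat 6, .ofNat 0, .ofNat 0, .ofNat 21, .negSucc 2, .negSucc 2, .negSucc 2, .negSucc 2, .ofNat 3, .negSucc 2,
  .negSucc 2, .ofNat 3, .ofNat 3, .ofNat 3, .ofNat 0, .ofNat 3, .ofNat 3, .ofNat 0, .ofNat 3, .ofNat 0, .ofNat 3, .ofNat
  0, .ofNat 0, .negSucc 2], [.ofNat 0, .ofNat 6, .ofNat 0, .negSucc 2, .ofNat 21, .negSucc 2, .ofNat 3, .negSucc 2,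
  .negSucc 2, .ofNat 3, .negSucc 2, .negSucc 2, .ofNat 0, .ofNat 3, .ofNat 3, .ofNat 0, .ofNat 3, .ofNat 3, .ofNat 3,
  .ofNat 3, .ofNat 0, .negSucc 2, .ofNat 0, .ofNat 0], [.ofNat 0, .ofNat 0, .ofNat 6, .negSucc 2, .negSucc 2, .ofNat 21,
  .negSucc 2, .ofNat 3, .negSucc 2, .negSucc 2, .ofNat 3, .negSucc 2, .ofNat 3, .ofNat 0, .ofNat 3, .ofNat 3, .ofNat 0,
  .ofNat 3, .ofNat 0, .ofNat 3, .ofNat 3, .ofNat 0, .negSucc 2, .ofNat 0], [.ofNat 3, .negSucc 2, .ofNat 3, .negSucc 2,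
  .ofNat 3, .negSucc 2, .ofNat 21, .negSucc 2, .negSucc 2, .negSucc 5, .ofNat 0, .ofNat 0, .ofNat 3, .ofNat 0, .ofNat 0,
  .ofNat 0, .negSucc 2, .negSucc 2, .negSucc 2, .negSucc 2, .ofNat 0, .ofNat 0, .negSucc 2, .negSucc 2], [.ofNat 3,
  .ofNat 3, .negSucc 2, .negSucc 2, .negSucc 2, .ofNat 3, .negSucc 2, .ofNat 21, .negSucc 2, .ofNat 0, .negSucc 5,
  .ofNat 0, .ofNat 0, .ofNat 3, .ofNat 0, .negSucc 2, .ofNat 0, .negSucc 2, .ofNat 0, .negSucc 2, .negSucc 2, .negSucc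
  2, .ofNat 0, .negSucc 2], [.negSucc 2, .ofNat 3, .ofNat 3, .ofNat 3, .negSucc 2, .negSucc 2, .negSucc 2, .negSucc 2,
  .ofNat 21, .ofNat 0, .ofNat 0, .negSucc 5, .ofNat 0, .ofNat 0, .ofNat 3, .negSucc 2, .negSucc 2, .ofNat 0, .negSucc 2,
  .ofNat 0, .negSucc 2, .negSucc 2, .negSucc 2, .ofNat 0], [.ofNat 3, .negSucc 2, .ofNat 3, .negSucc 2, .ofNat 3,
  .negSucc 2, .negSucc 5, .ofNat 0, .ofNat 0, .ofNat 21, .negSucc 2, .negSucc 2, .ofNat 0, .negSucc 2, .negSucc 2,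
  .ofNat 3, .ofNat 0, .ofNat 0, .negSucc 2, .negSucc 2, .ofNat 0, .ofNat 0, .negSucc 2, .negSucc 2], [.ofNat 3, .ofNat
  3, .negSucc 2, .negSucc 2, .negSucc 2, .ofNat 3, .ofNat 0, .negSucc 5, .ofNat 0, .negSucc 2, .ofNat 21, .negSucc 2,
  .negSucc 2, .ofNat 0, .negSucc 2, .ofNat 0, .ofNat 3, .ofNat 0, .ofNat 0, .negSucc 2, .negSucc 2, .negSucc 2, .ofNat
  0, .negSucc 2], [.negSucc 2, .ofNat 3, .ofNat 3, .ofNat 3, .negSucc 2, .negSucc 2, .ofNat 0, .ofNat 0, .negSucc 5,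
  .negSucc 2, .negSucc 2, .ofNat 21, .negSucc 2, .negSucc 2, .ofNat 0, .ofNat 0, .ofNat 0, .ofNat 3, .negSucc 2, .ofNat
  0, .negSucc 2, .negSucc 2, .negSucc 2, .ofNat 0], [.negSucc 2, .ofNat 0, .negSucc 2, .ofNat 3, .ofNat 0, .ofNat 3,
  .ofNat 3, .ofNat 0, .ofNat 0, .ofNat 0, .negSucc 2, .negSucc 2, .ofNat 21, .ofNat 0, .ofNat 0, .negSucc 5, .ofNat 3,
  .ofNat 3, .negSucc 2, .negSucc 2, .ofNat 3, .ofNat 3, .negSucc 2, .negSucc 2], [.negSucc 2, .negSucc 2, .ofNat 0,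
  .ofNat 3, .ofNat 3, .ofNat 0, .ofNat 0, .ofNat 3, .ofNat 0, .negSucc 2, .ofNat 0, .negSucc 2, .ofNat 0, .ofNat 21,
  .ofNat 0, .ofNat 3, .negSucc 5, .ofNat 3, .ofNat 3, .negSucc 2, .negSucc 2, .negSucc 2, .ofNat 3, .negSucc 2], [.ofNat
  0, .negSucc 2, .negSucc 2, .ofNat 0, .ofNat 3, .ofNat 3, .ofNat 0, .ofNat 0, .ofNat 3, .negSucc 2, .negSucc 2, .ofNat
  0, .ofNat 0, .ofNat 0, .ofNat 21, .ofNat 3, .ofNat 3, .negSucc 5, .negSucc 2, .ofNat 3, .negSucc 2, .negSucc 2,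
  .negSucc 2, .ofNat 3], [.negSucc 2, .ofNat 0, .negSucc 2, .ofNat 3, .ofNat 0, .ofNat 3, .ofNat 0, .negSucc 2, .negSucc
  2, .ofNat 3, .ofNat 0, .ofNat 0, .negSucc 5, .ofNat 3, .ofNat 3, .ofNat 21, .ofNat 0, .ofNat 0, .negSucc 2, .negSucc
  2, .ofNat 3, .ofNat 3, .negSucc 2, .negSucc 2], [.negSucc 2, .negSucc 2, .ofNat 0, .ofNat 3, .ofNat 3, .ofNat 0,
  .negSucc 2, .ofNat 0, .negSucc 2, .ofNat 0, .ofNat 3, .ofNat 0, .ofNat 3, .negSucc 5, .ofNat 3, .ofNat 0, .ofNat 21,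
  .ofNat 0, .ofNat 3, .negSucc 2, .negSucc 2, .negSucc 2, .ofNat 3, .negSucc 2], [.ofNat 0, .negSucc 2, .negSucc 2,
  .ofNat 0, .ofNat 3, .ofNat 3, .negSucc 2, .negSucc 2, .ofNat 0, .ofNat 0, .ofNat 0, .ofNat 3, .ofNat 3, .ofNat 3,
  .negSucc 5, .ofNat 0, .ofNat 0, .ofNat 21, .negSucc 2, .ofNat 3, .negSucc 2, .negSucc 2, .negSucc 2, .ofNat 3],
  [.ofNat 0, .ofNat 0, .ofNat 3, .ofNat 3, .ofNat 3, .ofNat 0, .negSucc 2, .ofNat 0, .negSucc 2, .negSucc 2, .ofNat 0,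
  .negSucc 2, .negSucc 2, .ofNat 3, .negSucc 2, .negSucc 2, .ofNat 3, .negSucc 2, .ofNat 21, .ofNat 0, .ofNat 0, .ofNat
  3, .negSucc 5, .ofNat 3], [.ofNat 3, .ofNat 0, .ofNat 0, .ofNat 0, .ofNat 3, .ofNat 3, .negSucc 2, .negSucc 2, .ofNat
  0, .negSucc 2, .negSucc 2, .ofNat 0, .negSucc 2, .negSucc 2, .ofNat 3, .negSucc 2, .negSucc 2, .ofNat 3, .ofNat 0,
  .ofNat 21, .ofNat 0, .ofNat 3, .ofNat 3, .negSucc 5], [.ofNat 0, .ofNat 3, .ofNat 0, .ofNat 3, .ofNat 0, .ofNat 3,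
  .ofNat 0, .negSucc 2, .negSucc 2, .ofNat 0, .negSucc 2, .negSucc 2, .ofNat 3, .negSucc 2, .negSucc 2, .ofNat 3,
  .negSucc 2, .negSucc 2, .ofNat 0, .ofNat 0, .ofNat 21, .negSucc 5, .ofNat 3, .ofNat 3], [.negSucc 2, .ofNat 0,
  .negSucc 2, .ofNat 0, .negSucc 2, .ofNat 0, .ofNat 0, .negSucc 2, .negSucc 2, .ofNat 0, .negSucc 2, .negSucc 2, .ofNat
  3, .negSucc 2, .negSucc 2, .ofNat 3, .negSucc 2, .negSucc 2, .ofNat 3, .ofNat 3, .negSucc 5, .ofNat 21, .ofNat 0,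
  .ofNat 0], [.negSucc 2, .negSucc 2, .ofNat 0, .ofNat 0, .ofNat 0, .negSucc 2, .negSucc 2, .ofNat 0, .negSucc 2,
  .negSucc 2, .ofNat 0, .negSucc 2, .negSucc 2, .ofNat 3, .negSucc 2, .negSucc 2, .ofNat 3, .negSucc 2, .negSucc 5,
  .ofNat 3, .ofNat 3, .ofNat 0, .ofNat 21, .ofNat 0], [.ofNat 0, .negSucc 2, .negSucc 2, .negSucc 2, .ofNat 0, .ofNat 0,
  .negSucc 2, .negSucc 2, .ofNat 0, .negSucc 2, .negSucc 2, .ofNat 0, .negSucc 2, .negSucc 2, .ofNat 3, .negSucc 2,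
  .negSucc 2, .ofNat 3, .ofNat 3, .negSucc 5, .ofNat 3, .ofNat 0, .ofNat 0, .ofNat 21]]

/-- Row `i`: 4 times the vector `H2 i` of the lattice. -/
def h2T : List (List ℤ) := [[.ofNat 41, .negSucc 6, .negSucc 10, .ofNat 7, .negSucc 4, .negSucc 0, .ofNat 5, .ofNat 1,
  .negSucc 6, .ofNat 5, .ofNat 1, .negSucc 6, .negSucc 6, .negSucc 4, .negSucc 0, .negSucc 6, .negSucc 4, .negSucc 0,
  .ofNat 3, .ofNat 7, .ofNat 1, .negSucc 10, .negSucc 8, .negSucc 4], [.negSucc 10, .ofNat 41, .negSucc 6, .negSucc 0,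
  .ofNat 7, .negSucc 4, .negSucc 6, .ofNat 5, .ofNat 1, .negSucc 6, .ofNat 5, .ofNat 1, .negSucc 0, .negSucc 6, .negSucc
  4, .negSucc 0, .negSucc 6, .negSucc 4, .ofNat 1, .ofNat 3, .ofNat 7, .negSucc 4, .negSucc 10, .negSucc 8], [.negSucc
  6, .negSucc 10, .ofNat 41, .negSucc 4, .negSucc 0, .ofNat 7, .ofNat 1, .negSucc 6, .ofNat 5, .ofNat 1, .negSucc 6,
  .ofNat 5, .negSucc 4, .negSucc 0, .negSucc 6, .negSucc 4, .negSucc 0, .negSucc 6, .ofNat 7, .ofNat 1, .ofNat 3,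
  .negSucc 8, .negSucc 4, .negSucc 10], [.ofNat 13, .ofNat 1, .negSucc 2, .ofNat 39, .negSucc 8, .negSucc 4, .negSucc 6,
  .negSucc 10, .ofNat 5, .negSucc 6, .negSucc 10, .ofNat 5, .ofNat 5, .ofNat 7, .negSucc 0, .ofNat 5, .ofNat 7, .negSucc
  0, .ofNat 7, .negSucc 0, .ofNat 5, .negSucc 2, .negSucc 0, .negSucc 8], [.negSucc 2, .ofNat 13, .ofNat 1, .negSucc 4,
  .ofNat 39, .negSucc 8, .ofNat 5, .negSucc 6, .negSucc 10, .ofNat 5, .negSucc 6, .negSucc 10, .negSucc 0, .ofNat 5,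
  .ofNat 7, .negSucc 0, .ofNat 5, .ofNat 7, .ofNat 5, .ofNat 7, .negSucc 0, .negSucc 8, .negSucc 2, .negSucc 0], [.ofNat
  1, .negSucc 2, .ofNat 13, .negSucc 8, .negSucc 4, .ofNat 39, .negSucc 10, .ofNat 5, .negSucc 6, .negSucc 10, .ofNat 5,
  .negSucc 6, .ofNat 7, .negSucc 0, .ofNat 5, .ofNat 7, .negSucc 0, .ofNat 5, .negSucc 0, .ofNat 5, .ofNat 7, .negSucc
  0, .negSucc 8, .negSucc 2], [.ofNat 11, .negSucc 4, .ofNat 7, .negSucc 10, .ofNat 5, .negSucc 6, .ofNat 39, .negSucc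
  8, .negSucc 4, .negSucc 12, .negSucc 0, .ofNat 3, .ofNat 9, .ofNat 3, .ofNat 1, .ofNat 1, .negSucc 4, .negSucc 6,
  .negSucc 4, .negSucc 6, .ofNat 1, .ofNat 1, .negSucc 4, .negSucc 6], [.ofNat 7, .ofNat 11, .negSucc 4, .negSucc 6,
  .negSucc 10, .ofNat 5, .negSucc 4, .ofNat 39, .negSucc 8, .ofNat 3, .negSucc 12, .negSucc 0, .ofNat 1, .ofNat 9,
  .ofNat 3, .negSucc 6, .ofNat 1, .negSucc 4, .ofNat 1, .negSucc 4, .negSucc 6, .negSucc 6, .ofNat 1, .negSucc 4],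
  [.negSucc 4, .ofNat 7, .ofNat 11, .ofNat 5, .negSucc 6, .negSucc 10, .negSucc 8, .negSucc 4, .ofNat 39, .negSucc 0,
  .ofNat 3, .negSucc 12, .ofNat 3, .ofNat 1, .ofNat 9, .negSucc 4, .negSucc 6, .ofNat 1, .negSucc 6, .ofNat 1, .negSucc
  4, .negSucc 4, .negSucc 6, .ofNat 1], [.ofNat 11, .negSucc 4, .ofNat 7, .negSucc 10, .ofNat 5, .negSucc 6, .negSucc
  12, .negSucc 0, .ofNat 3, .ofNat 39, .negSucc 8, .negSucc 4, .ofNat 1, .negSucc 4, .negSucc 6, .ofNat 9, .ofNat 3,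
  .ofNat 1, .negSucc 4, .negSucc 6, .ofNat 1, .ofNat 1, .negSucc 4, .negSucc 6], [.ofNat 7, .ofNat 11, .negSucc 4,
  .negSucc 6, .negSucc 10, .ofNat 5, .ofNat 3, .negSucc 12, .negSucc 0, .negSucc 4, .ofNat 39, .negSucc 8, .negSucc 6,
  .ofNat 1, .negSucc 4, .ofNat 1, .ofNat 9, .ofNat 3, .ofNat 1, .negSucc 4, .negSucc 6, .negSucc 6, .ofNat 1, .negSucc
  4], [.negSucc 4, .ofNat 7, .ofNat 11, .ofNat 5, .negSucc 6, .negSucc 10, .negSucc 0, .ofNat 3, .negSucc 12, .negSucc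
  8, .negSucc 4, .ofNat 39, .negSucc 4, .negSucc 6, .ofNat 1, .ofNat 3, .ofNat 1, .ofNat 9, .negSucc 6, .ofNat 1,
  .negSucc 4, .negSucc 4, .negSucc 6, .ofNat 1], [.negSucc 6, .ofNat 1, .negSucc 4, .ofNat 7, .negSucc 0, .ofNat 5,
  .ofNat 9, .ofNat 3, .ofNat 1, .ofNat 1, .negSucc 4, .negSucc 6, .ofNat 43, .ofNat 1, .negSucc 2, .negSucc 8, .ofNat 9,
  .ofNat 5, .negSucc 6, .negSucc 0, .ofNat 5, .ofNat 5, .negSucc 6, .negSucc 0], [.negSucc 4, .negSucc 6, .ofNat 1,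
  .ofNat 5, .ofNat 7, .negSucc 0, .ofNat 1, .ofNat 9, .ofNat 3, .negSucc 6, .ofNat 1, .negSucc 4, .negSucc 2, .ofNat 43,
  .ofNat 1, .ofNat 5, .negSucc 8, .ofNat 9, .ofNat 5, .negSucc 6, .negSucc 0, .negSucc 0, .ofNat 5, .negSucc 6], [.ofNat
  1, .negSucc 4, .negSucc 6, .negSucc 0, .ofNat 5, .ofNat 7, .ofNat 3, .ofNat 1, .ofNat 9, .negSucc 4, .negSucc 6,
  .ofNat 1, .ofNat 1, .negSucc 2, .ofNat 43, .ofNat 9, .ofNat 5, .negSucc 8, .negSucc 0, .ofNat 5, .negSucc 6, .negSucc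
  6, .negSucc 0, .ofNat 5], [.negSucc 6, .ofNat 1, .negSucc 4, .ofNat 7, .negSucc 0, .ofNat 5, .ofNat 1, .negSucc 4,
  .negSucc 6, .ofNat 9, .ofNat 3, .ofNat 1, .negSucc 8, .ofNat 9, .ofNat 5, .ofNat 43, .ofNat 1, .negSucc 2, .negSucc 6,
  .negSucc 0, .ofNat 5, .ofNat 5, .negSucc 6, .negSucc 0], [.negSucc 4, .negSucc 6, .ofNat 1, .ofNat 5, .ofNat 7,
  .negSucc 0, .negSucc 6, .ofNat 1, .negSucc 4, .ofNat 1, .ofNat 9, .ofNat 3, .ofNat 5, .negSucc 8, .ofNat 9, .negSucc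
  2, .ofNat 43, .ofNat 1, .ofNat 5, .negSucc 6, .negSucc 0, .negSucc 0, .ofNat 5, .negSucc 6], [.ofNat 1, .negSucc 4,
  .negSucc 6, .negSucc 0, .ofNat 5, .ofNat 7, .negSucc 4, .negSucc 6, .ofNat 1, .ofNat 3, .ofNat 1, .ofNat 9, .ofNat 9,
  .ofNat 5, .negSucc 8, .ofNat 1, .negSucc 2, .ofNat 43, .negSucc 0, .ofNat 5, .negSucc 6, .negSucc 6, .negSucc 0,
  .ofNat 5], [.ofNat 3, .ofNat 1, .ofNat 9, .ofNat 5, .ofNat 7, .negSucc 0, .negSucc 6, .ofNat 1, .negSucc 4, .negSucc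
  6, .ofNat 1, .negSucc 4, .negSucc 0, .ofNat 5, .negSucc 6, .negSucc 0, .ofNat 5, .negSucc 6, .ofNat 43, .ofNat 1,
  .negSucc 2, .ofNat 5, .negSucc 8, .ofNat 9], [.ofNat 9, .ofNat 3, .ofNat 1, .negSucc 0, .ofNat 5, .ofNat 7, .negSucc
  4, .negSucc 6, .ofNat 1, .negSucc 4, .negSucc 6, .ofNat 1, .negSucc 6, .negSucc 0, .ofNat 5, .negSucc 6, .negSucc 0,
  .ofNat 5, .negSucc 2, .ofNat 43, .ofNat 1, .ofNat 9, .ofNat 5, .negSucc 8], [.ofNat 1, .ofNat 9, .ofNat 3, .ofNat 7,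
  .negSucc 0, .ofNat 5, .ofNat 1, .negSucc 4, .negSucc 6, .ofNat 1, .negSucc 4, .negSucc 6, .ofNat 5, .negSucc 6,
  .negSucc 0, .ofNat 5, .negSucc 6, .negSucc 0, .ofNat 1, .negSucc 2, .ofNat 43, .negSucc 8, .ofNat 9, .ofNat 5],
  [.negSucc 8, .negSucc 4, .negSucc 10, .negSucc 2, .negSucc 6, .negSucc 0, .negSucc 0, .negSucc 6, .negSucc 4, .negSucc
  0, .negSucc 6, .negSucc 4, .ofNat 7, .negSucc 4, .negSucc 10, .ofNat 7, .negSucc 4, .negSucc 10, .ofNat 7, .ofNat 11,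
  .negSucc 10, .ofNat 37, .negSucc 4, .negSucc 0], [.negSucc 10, .negSucc 8, .negSucc 4, .negSucc 0, .negSucc 2,
  .negSucc 6, .negSucc 4, .negSucc 0, .negSucc 6, .negSucc 4, .negSucc 0, .negSucc 6, .negSucc 10, .ofNat 7, .negSucc 4,
  .negSucc 10, .ofNat 7, .negSucc 4, .negSucc 10, .ofNat 7, .ofNat 11, .negSucc 0, .ofNat 37, .negSucc 4], [.negSucc 4,
  .negSucc 10, .negSucc 8, .negSucc 6, .negSucc 0, .negSucc 2, .negSucc 6, .negSucc 4, .negSucc 0, .negSucc 6, .negSucc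
  4, .negSucc 0, .negSucc 4, .negSucc 10, .ofNat 7, .negSucc 4, .negSucc 10, .ofNat 7, .ofNat 11, .negSucc 10, .ofNat 7,
  .negSucc 4, .negSucc 0, .ofNat 37]]

/-- `(k, s)`: `x'_i = s x_k`. -/
def kapT : List (ℕ × ℤ) :=
  [(7, 1), (8, 1), (6, 1), (7, 1), (8, 1), (6, 1), (0, -1), (1, -1), (2, -1), (0, -1), (1, -1), (2, -1), (19, -1), (20, -1), (18, -1), (19, -1), (20, -1), (18, -1), (12, -1), (13, -1), (14, -1), (14, 1), (12, 1), (13, 1)]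

/-- `(k, s)`: `c'_i = s c_k`. -/
def kacT : List (ℕ × ℤ) :=
  [(0, -1), (0, -1), (0, -1), (0, 1), (0, 1), (0, 1), (6, 1), (6, 1), (6, 1), (6, -1), (6, -1), (6, -1), (6, -1), (6, -1), (6, -1), (6, 1), (6, 1), (6, 1), (0, -1), (0, -1), (0, -1), (0, -1), (0, -1), (0, -1)]

/-- The permutation of the frame which is given by `t`. -/
def tau3 (i : ℕ) : ℕ := i / 3 * 3 + (i % 3 + 1) % 3

/-- `κ`. -/
def kp (i : ℕ) : ℕ := (kapT.getD i (0, 0)).1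

/-- The sign of `κ`. -/
def ks (i : ℕ) : ℤ := (kapT.getD i (0, 0)).2

/-- `κ'`. -/
def kc (i : ℕ) : ℕ := (kacT.getD i (0, 0)).1

/-- The sign of `κ'`. -/
def kt (i : ℕ) : ℤ := (kacT.getD i (0, 0)).2

theorem m1 : (allN 24 fun i => allN 24 fun j => en2 s3T i j == en2 cf3P i j + en2 cd3P i j) = true := by decide +kernel

theorem m2 : (allN 24 fun i => allN 24 fun j => en2 h5T i j == en2 cf3P i j - en2 cd3P i j) = true := by decide +kernel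

theorem m3 : (allN 24 fun i => allN 24 fun j => en2 h3T i j == en2 cf3P i j + en2 cc3P i j) = true := by decide +kernel

theorem m4 : (allN 24 fun i => allN 24 fun j => en2 h2T i j == 2 * en2 cf3P i j - ks i * en2 cd3P (kp i) j +
    kt i * en2 cc3P (kc i) j) = true := by decide +kernel

theorem m5 : (allN 24 fun i => allN 24 fun j => (dotL (cf3P.getD i []) (cd3P.getD j []) == 0) &&
    (dotL (cf3P.getD i []) (cc3P.getD j []) == 0) && (dotL (cd3P.getD i []) (cc3P.getD j []) == 0)) = true := by decide +kernel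

theorem m6 : (allN 24 fun i => allN 24 fun j => (dotL (cc3P.getD i []) (cc3P.getD j []) == 12 * en2 cc3P i j) &&
    (en2 cc3P i j == en2 cc3P j i)) = true := by decide +kernel

theorem m7 : (allN 24 fun i => (kp i < 24 : Bool) && (kc i < 24 : Bool) && (ks i * ks i == 1) && (kt i * kt i == 1)) = true := by
  decide +kernel

/-- The gluing at 5. -/
theorem m8 : (allN 24 fun i => allN 24 fun j =>
    (!(allN 24 fun m => (6 * en2 cf3P i m + 4 * en2 cd3P j m) % 5 == 0) || (allN 24 fun m => en2 cd3P i m == en2 cd3P j m)) &&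
    (!(allN 24 fun m => (6 * en2 cf3P i m - 4 * en2 cd3P j m) % 5 == 0) || (allN 24 fun m => en2 cd3P i m == -en2 cd3P j m))) = true := by
  decide +kernel

/-- The gluing at 2: `(15 s z_i - 5 v x_l + 3 c'_0)` in the lattice implies `x_l = ± x_(κ i)`. -/
theorem m9 : (allN 24 fun i => allN 24 fun l => [1, -1].all fun s : ℤ => [1, -1].all fun v : ℤ =>
    !(allN 24 fun m => (30 * s * en2 cf3P i m + 5 * v * ks m * en2 cd3P l (kp m) - 3 * kt m * en2 cc3P 0 (kc m)) % 4 == 0) ||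
    (allN 24 fun m => en2 cd3P l m == en2 cd3P (kp i) m) || (allN 24 fun m => en2 cd3P l m == -en2 cd3P (kp i) m)) = true := by
  decide +kernel

/-- The chirality. -/
theorem m10 : (allN 24 fun i => (en2 cd3P i (tau3 (kp i)) == -en2 cd3P i (kp i)) &&
    (en2 cd3P i (tau3 (tau3 (kp i))) == en2 cd3P i (kp i)) && !(en2 cd3P i (kp i) == 0)) = true := by decide +kernel

theorem m11 : (allN 24 fun i => allN 24 fun j => en2 cd3P (tau3 i) (tau3 j) == en2 cd3P i j) = true := by decide +kernel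

end Pool.Agent.Helper60.E8Z
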