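import Pool.Agent.Helper60.E8Z.Comp

/-!
# Project E8Z, (E2): splitting of the checks into smaller ones
-/

set_option autoImplicit false

namespace Pool.Agent.Helper60.E8Z

theorem and2 {a b : Bool} (ha : a = true) (hb : b = true) : (a && b) = true := by rw [ha, hb]; rfl

theorem all4 {f : ℕ → Bool} (h0 : (allN 10 fun i => f i) = true) (h1 : (allN 10 fun i => f (10 + i)) = true)
    (h2 : (allN 10 fun i => f (20 + i)) = true) (h3 : (allN 10 fun i => f (30 + i)) = true) : allN 40 f = true := by
  rw [allN_iff] at *
  intro i hi
  by_cases hi1 : i < 10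
  · exact h0 i hi1
  · by_cases hi2 : i < 20
    · have h := h1 (i - 10) (by omega)
      rwa [show 10 + (i - 10) = i by omega] at h
    · by_cases hi3 : i < 30
      · have h := h2 (i - 20) (by omega)
        rwa [show 20 + (i - 20) = i by omega] at h
      · have h := h3 (i - 30) (by omega)
        rwa [show 30 + (i - 30) = i by omega] at h

theorem all3 {f : ℕ → Bool} (h0 : (allN 8 fun i => f i) = true) (h1 : (allN 8 fun i => f (8 + i)) = true)
    (h2 : (allN 8 fun i => f (16 + i)) = true) : allN 24 f = true := by
  rw [allN_iff] at *
  intro i hi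
  by_cases hi1 : i < 8
  · exact h0 i hi1
  · by_cases hi2 : i < 16
    · have h := h1 (i - 8) (by omega)
      rwa [show 8 + (i - 8) = i by omega] at h
    · have h := h2 (i - 16) (by omega)
      rwa [show 16 + (i - 16) = i by omega] at h

theorem all8 {f : ℕ → Bool} (h0 : (allN 5 fun i => f i) = true) (h1 : (allN 5 fun i => f (5 + i)) = true)
    (h2 : (allN 5 fun i => f (10 + i)) = true) (h3 : (allN 5 fun i => f (15 + i)) = true)
    (h4 : (allN 5 fun i => f (20 + i)) = true) (h5 : (allN 5 fun i => f (25 + i)) = true)
    (h6 : (allN 5 fun i => f (30 + i)) = true) (h7 : (allN 5 fun i => f (35 + i)) = true) : allN 40 f = true := by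
  rw [allN_iff] at *
  intro i hi
  by_cases hi1 : i < 5
  · exact h0 i hi1
  · by_cases hi2 : i < 10
    · have h := h1 (i - 5) (by omega)
      rwa [show 5 + (i - 5) = i by omega] at h
    · by_cases hi3 : i < 15
      · have h := h2 (i - 10) (by omega)
        rwa [show 10 + (i - 10) = i by omega] at h
      · by_cases hi4 : i < 20
        · have h := h3 (i - 15) (by omega)
          rwa [show 15 + (i - 15) = i by omega] at h
        · by_cases hi5 : i < 25
          · have h := h4 (i - 20) (by omega)
            rwa [show 20 + (i - 20) = i by omega] at h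
          · by_cases hi6 : i < 30
            · have h := h5 (i - 25) (by omega)
              rwa [show 25 + (i - 25) = i by omega] at h
            · by_cases hi7 : i < 35
              · have h := h6 (i - 30) (by omega)
                rwa [show 30 + (i - 30) = i by omega] at h
              · have h := h7 (i - 35) (by omega)
                rwa [show 35 + (i - 35) = i by omega] at h

/-- The contribution of one candidate to `enum`. -/
def enumV (leaf : List ℤ → ℤ → Bool) (row : Row) (rows : List Row) (acc : List ℤ) (r v : ℤ) : Bool :=
  (fun r' : ℤ => if r' < 0 then true else enum leaf rows (acc ++ [v]) r') (r - row.W * (row.d * v + dotL row.c acc) ^ 2)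

theorem enumV_mk {leaf : List ℤ → ℤ → Bool} {row : Row} {rows : List Row} {acc : List ℤ} {r v : ℤ}
    (h : enum leaf rows (acc ++ [v]) (r - row.W * (row.d * v + dotL row.c acc) ^ 2) = true) :
    enumV leaf row rows acc r v = true := by
  unfold enumV
  dsimp only
  split_ifs with h1
  · rfl
  · exact h

theorem enum3 {leaf : List ℤ → ℤ → Bool} {row : Row} {rows : List Row} {acc : List ℤ} {r : ℤ} (hb : row.b = 1)
    (h0 : ((row.c.length == acc.length) && decide (0 < row.W) && decide (0 < row.d) &&
      (decide (|dotL row.c acc| < row.d * (row.b + 1)) && decide (r < row.W * (row.d * (row.b + 1) - |dotL row.c acc|) ^ 2))) = true)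
    (h1 : enumV leaf row rows acc r (-1) = true) (h2 : enumV leaf row rows acc r 0 = true)
    (h3 : enumV leaf row rows acc r 1 = true) : enum leaf (row :: rows) acc r = true := by
  simp only [Bool.and_eq_true] at h0
  unfold enum
  have h4 : cand row.b = [-1, 0, 1] := by
    rw [hb]
    decide
  simp only [h4, List.all_cons, List.all_nil, Bool.and_eq_true]
  exact ⟨h0.1, ⟨h0.2, h1, h2, h3, trivial⟩⟩

end Pool.Agent.Helper60.E8Z
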