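import Pool.Agent.Helper60.E8Z.CB5
import Pool.Agent.Helper60.E8Z.CA5
import Pool.Agent.Helper60.E8Z.Spl

/-!
# Project E8Z, (E2): numerical facts about the fixed vectors of `t ^ 5` in the frame
-/

set_option autoImplicit false

namespace Pool.Agent.Helper60.E8Z

/-- Row `i`: 3 times the vector `G3 i` of the lattice. -/
def g3T : List (List ℤ) := [[.ofNat 27, .negSucc 0, .negSucc 0, .negSucc 0, .ofNat 0, .ofNat 0, .ofNat 0, .negSucc 0,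
  .negSucc 0, .negSucc 0, .ofNat 0, .negSucc 0, .negSucc 0, .ofNat 0, .negSucc 0, .negSucc 0, .ofNat 0, .negSucc 0,
  .ofNat 0, .negSucc 0, .ofNat 0, .negSucc 0, .negSucc 0, .negSucc 0, .negSucc 0, .negSucc 0, .ofNat 0, .ofNat 0,
  .negSucc 0, .ofNat 0, .negSucc 0, .negSucc 0, .negSucc 0, .negSucc 0, .ofNat 0, .negSucc 0, .negSucc 0, .negSucc 0,
  .negSucc 0, .negSucc 0], [.negSucc 0, .ofNat 27, .negSucc 0, .negSucc 0, .negSucc 0, .ofNat 0, .ofNat 0, .ofNat 0,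
  .negSucc 0, .negSucc 0, .negSucc 0, .ofNat 0, .negSucc 0, .negSucc 0, .ofNat 0, .negSucc 0, .negSucc 0, .ofNat 0,
  .negSucc 0, .ofNat 0, .ofNat 0, .ofNat 0, .negSucc 0, .negSucc 0, .negSucc 0, .negSucc 0, .negSucc 0, .ofNat 0, .ofNat
  0, .negSucc 0, .negSucc 0, .negSucc 0, .negSucc 0, .negSucc 0, .negSucc 0, .ofNat 0, .negSucc 0, .negSucc 0, .negSucc
  0, .negSucc 0], [.negSucc 0, .negSucc 0, .ofNat 27, .negSucc 0, .negSucc 0, .negSucc 0, .ofNat 0, .ofNat 0, .ofNat 0,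
  .negSucc 0, .ofNat 0, .negSucc 0, .ofNat 0, .negSucc 0, .negSucc 0, .ofNat 0, .negSucc 0, .negSucc 0, .ofNat 0,
  .negSucc 0, .negSucc 0, .ofNat 0, .ofNat 0, .negSucc 0, .negSucc 0, .negSucc 0, .negSucc 0, .negSucc 0, .ofNat 0,
  .ofNat 0, .negSucc 0, .negSucc 0, .negSucc 0, .negSucc 0, .negSucc 0, .negSucc 0, .ofNat 0, .negSucc 0, .negSucc 0,
  .negSucc 0], [.negSucc 0, .negSucc 0, .negSucc 0, .ofNat 27, .negSucc 0, .negSucc 0, .negSucc 0, .ofNat 0, .ofNat 0,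
  .ofNat 0, .negSucc 0, .ofNat 0, .negSucc 0, .ofNat 0, .negSucc 0, .negSucc 0, .ofNat 0, .negSucc 0, .negSucc 0, .ofNat
  0, .ofNat 0, .negSucc 0, .ofNat 0, .ofNat 0, .negSucc 0, .negSucc 0, .negSucc 0, .negSucc 0, .negSucc 0, .ofNat 0,
  .negSucc 0, .negSucc 0, .negSucc 0, .negSucc 0, .negSucc 0, .negSucc 0, .negSucc 0, .ofNat 0, .negSucc 0, .negSucc 0],
  [.ofNat 0, .negSucc 0, .negSucc 0, .negSucc 0, .ofNat 27, .negSucc 0, .negSucc 0, .negSucc 0, .ofNat 0, .ofNat 0,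
  .ofNat 0, .negSucc 0, .ofNat 0, .negSucc 0, .ofNat 0, .negSucc 0, .negSucc 0, .ofNat 0, .negSucc 0, .negSucc 0, .ofNat
  0, .ofNat 0, .negSucc 0, .ofNat 0, .ofNat 0, .negSucc 0, .negSucc 0, .negSucc 0, .negSucc 0, .negSucc 0, .negSucc 0,
  .negSucc 0, .negSucc 0, .negSucc 0, .negSucc 0, .negSucc 0, .negSucc 0, .negSucc 0, .ofNat 0, .negSucc 0], [.ofNat 0,
  .ofNat 0, .negSucc 0, .negSucc 0, .negSucc 0, .ofNat 27, .negSucc 0, .negSucc 0, .negSucc 0, .ofNat 0, .negSucc 0,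
  .ofNat 0, .negSucc 0, .ofNat 0, .negSucc 0, .ofNat 0, .negSucc 0, .negSucc 0, .ofNat 0, .negSucc 0, .negSucc 0, .ofNat
  0, .ofNat 0, .negSucc 0, .ofNat 0, .ofNat 0, .negSucc 0, .negSucc 0, .negSucc 0, .negSucc 0, .negSucc 0, .negSucc 0,
  .negSucc 0, .negSucc 0, .negSucc 0, .negSucc 0, .negSucc 0, .negSucc 0, .negSucc 0, .ofNat 0], [.ofNat 0, .ofNat 0,
  .ofNat 0, .negSucc 0, .negSucc 0, .negSucc 0, .ofNat 27, .negSucc 0, .negSucc 0, .negSucc 0, .negSucc 0, .negSucc 0,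
  .ofNat 0, .negSucc 0, .ofNat 0, .negSucc 0, .ofNat 0, .negSucc 0, .negSucc 0, .ofNat 0, .negSucc 0, .negSucc 0, .ofNat
  0, .ofNat 0, .negSucc 0, .ofNat 0, .ofNat 0, .negSucc 0, .negSucc 0, .negSucc 0, .ofNat 0, .negSucc 0, .negSucc 0,
  .negSucc 0, .negSucc 0, .negSucc 0, .negSucc 0, .negSucc 0, .negSucc 0, .negSucc 0], [.negSucc 0, .ofNat 0, .ofNat 0,
  .ofNat 0, .negSucc 0, .negSucc 0, .negSucc 0, .ofNat 27, .negSucc 0, .negSucc 0, .ofNat 0, .negSucc 0, .negSucc 0,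
  .ofNat 0, .negSucc 0, .ofNat 0, .negSucc 0, .ofNat 0, .negSucc 0, .negSucc 0, .negSucc 0, .negSucc 0, .negSucc 0,
  .ofNat 0, .ofNat 0, .negSucc 0, .ofNat 0, .ofNat 0, .negSucc 0, .negSucc 0, .negSucc 0, .ofNat 0, .negSucc 0, .negSucc
  0, .negSucc 0, .negSucc 0, .negSucc 0, .negSucc 0, .negSucc 0, .negSucc 0], [.negSucc 0, .negSucc 0, .ofNat 0, .ofNat
  0, .ofNat 0, .negSucc 0, .negSucc 0, .negSucc 0, .ofNat 27, .negSucc 0, .negSucc 0, .ofNat 0, .negSucc 0, .negSucc 0,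
  .ofNat 0, .negSucc 0, .ofNat 0, .negSucc 0, .ofNat 0, .negSucc 0, .negSucc 0, .negSucc 0, .negSucc 0, .negSucc 0,
  .ofNat 0, .ofNat 0, .negSucc 0, .ofNat 0, .ofNat 0, .negSucc 0, .negSucc 0, .negSucc 0, .ofNat 0, .negSucc 0, .negSucc
  0, .negSucc 0, .negSucc 0, .negSucc 0, .negSucc 0, .negSucc 0], [.negSucc 0, .negSucc 0, .negSucc 0, .ofNat 0, .ofNat
  0, .ofNat 0, .negSucc 0, .negSucc 0, .negSucc 0, .ofNat 27, .negSucc 0, .negSucc 0, .ofNat 0, .negSucc 0, .negSucc 0,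
  .ofNat 0, .negSucc 0, .ofNat 0, .negSucc 0, .ofNat 0, .negSucc 0, .negSucc 0, .negSucc 0, .negSucc 0, .negSucc 0,
  .ofNat 0, .ofNat 0, .negSucc 0, .ofNat 0, .ofNat 0, .negSucc 0, .negSucc 0, .negSucc 0, .ofNat 0, .negSucc 0, .negSucc
  0, .negSucc 0, .negSucc 0, .negSucc 0, .negSucc 0], [.ofNat 0, .negSucc 0, .ofNat 0, .negSucc 0, .ofNat 0, .negSucc 0,
  .negSucc 0, .ofNat 0, .negSucc 0, .negSucc 0, .ofNat 27, .ofNat 0, .negSucc 0, .negSucc 0, .negSucc 0, .ofNat 0,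
  .negSucc 0, .negSucc 0, .negSucc 0, .ofNat 0, .ofNat 0, .negSucc 0, .negSucc 0, .negSucc 0, .negSucc 0, .negSucc 0,
  .negSucc 0, .negSucc 0, .negSucc 0, .negSucc 0, .ofNat 0, .negSucc 0, .ofNat 0, .ofNat 0, .negSucc 0, .negSucc 0,
  .negSucc 0, .negSucc 0, .negSucc 0, .ofNat 0], [.negSucc 0, .ofNat 0, .negSucc 0, .ofNat 0, .negSucc 0, .ofNat 0,
  .negSucc 0, .negSucc 0, .ofNat 0, .negSucc 0, .ofNat 0, .ofNat 27, .ofNat 0, .negSucc 0, .negSucc 0, .negSucc 0,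
  .ofNat 0, .negSucc 0, .negSucc 0, .negSucc 0, .negSucc 0, .ofNat 0, .negSucc 0, .negSucc 0, .negSucc 0, .negSucc 0,
  .negSucc 0, .negSucc 0, .negSucc 0, .negSucc 0, .ofNat 0, .ofNat 0, .negSucc 0, .ofNat 0, .ofNat 0, .negSucc 0,
  .negSucc 0, .negSucc 0, .negSucc 0, .negSucc 0], [.negSucc 0, .negSucc 0, .ofNat 0, .negSucc 0, .ofNat 0, .negSucc 0,
  .ofNat 0, .negSucc 0, .negSucc 0, .ofNat 0, .negSucc 0, .ofNat 0, .ofNat 27, .ofNat 0, .negSucc 0, .negSucc 0,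
  .negSucc 0, .ofNat 0, .negSucc 0, .negSucc 0, .negSucc 0, .negSucc 0, .ofNat 0, .negSucc 0, .negSucc 0, .negSucc 0,
  .negSucc 0, .negSucc 0, .negSucc 0, .negSucc 0, .negSucc 0, .ofNat 0, .ofNat 0, .negSucc 0, .ofNat 0, .ofNat 0,
  .negSucc 0, .negSucc 0, .negSucc 0, .negSucc 0], [.ofNat 0, .negSucc 0, .negSucc 0, .ofNat 0, .negSucc 0, .ofNat 0,
  .negSucc 0, .ofNat 0, .negSucc 0, .negSucc 0, .negSucc 0, .negSucc 0, .ofNat 0, .ofNat 27, .ofNat 0, .negSucc 0,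
  .negSucc 0, .negSucc 0, .ofNat 0, .negSucc 0, .negSucc 0, .negSucc 0, .negSucc 0, .ofNat 0, .negSucc 0, .negSucc 0,
  .negSucc 0, .negSucc 0, .negSucc 0, .negSucc 0, .negSucc 0, .negSucc 0, .ofNat 0, .ofNat 0, .negSucc 0, .ofNat 0,
  .ofNat 0, .negSucc 0, .negSucc 0, .negSucc 0], [.negSucc 0, .ofNat 0, .negSucc 0, .negSucc 0, .ofNat 0, .negSucc 0,
  .ofNat 0, .negSucc 0, .ofNat 0, .negSucc 0, .negSucc 0, .negSucc 0, .negSucc 0, .ofNat 0, .ofNat 27, .ofNat 0,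
  .negSucc 0, .negSucc 0, .negSucc 0, .ofNat 0, .negSucc 0, .negSucc 0, .negSucc 0, .negSucc 0, .ofNat 0, .negSucc 0,
  .negSucc 0, .negSucc 0, .negSucc 0, .negSucc 0, .negSucc 0, .negSucc 0, .negSucc 0, .ofNat 0, .ofNat 0, .negSucc 0,
  .ofNat 0, .ofNat 0, .negSucc 0, .negSucc 0], [.negSucc 0, .negSucc 0, .ofNat 0, .negSucc 0, .negSucc 0, .ofNat 0,
  .negSucc 0, .ofNat 0, .negSucc 0, .ofNat 0, .ofNat 0, .negSucc 0, .negSucc 0, .negSucc 0, .ofNat 0, .ofNat 27, .ofNat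
  0, .negSucc 0, .negSucc 0, .negSucc 0, .negSucc 0, .negSucc 0, .negSucc 0, .negSucc 0, .negSucc 0, .ofNat 0, .negSucc
  0, .negSucc 0, .negSucc 0, .negSucc 0, .negSucc 0, .negSucc 0, .negSucc 0, .negSucc 0, .ofNat 0, .ofNat 0, .negSucc 0,
  .ofNat 0, .ofNat 0, .negSucc 0], [.ofNat 0, .negSucc 0, .negSucc 0, .ofNat 0, .negSucc 0, .negSucc 0, .ofNat 0,
  .negSucc 0, .ofNat 0, .negSucc 0, .negSucc 0, .ofNat 0, .negSucc 0, .negSucc 0, .negSucc 0, .ofNat 0, .ofNat 27,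
  .ofNat 0, .negSucc 0, .negSucc 0, .negSucc 0, .negSucc 0, .negSucc 0, .negSucc 0, .negSucc 0, .negSucc 0, .ofNat 0,
  .negSucc 0, .negSucc 0, .negSucc 0, .negSucc 0, .negSucc 0, .negSucc 0, .negSucc 0, .negSucc 0, .ofNat 0, .ofNat 0,
  .negSucc 0, .ofNat 0, .ofNat 0], [.negSucc 0, .ofNat 0, .negSucc 0, .negSucc 0, .ofNat 0, .negSucc 0, .negSucc 0,
  .ofNat 0, .negSucc 0, .ofNat 0, .negSucc 0, .negSucc 0, .ofNat 0, .negSucc 0, .negSucc 0, .negSucc 0, .ofNat 0, .ofNat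
  27, .ofNat 0, .negSucc 0, .negSucc 0, .negSucc 0, .negSucc 0, .negSucc 0, .negSucc 0, .negSucc 0, .negSucc 0, .ofNat
  0, .negSucc 0, .negSucc 0, .ofNat 0, .negSucc 0, .negSucc 0, .negSucc 0, .negSucc 0, .negSucc 0, .ofNat 0, .ofNat 0,
  .negSucc 0, .ofNat 0], [.ofNat 0, .negSucc 0, .ofNat 0, .negSucc 0, .negSucc 0, .ofNat 0, .negSucc 0, .negSucc 0,
  .ofNat 0, .negSucc 0, .negSucc 0, .negSucc 0, .negSucc 0, .ofNat 0, .negSucc 0, .negSucc 0, .negSucc 0, .ofNat 0,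
  .ofNat 27, .ofNat 0, .negSucc 0, .negSucc 0, .negSucc 0, .negSucc 0, .negSucc 0, .negSucc 0, .negSucc 0, .negSucc 0,
  .ofNat 0, .negSucc 0, .ofNat 0, .ofNat 0, .negSucc 0, .negSucc 0, .negSucc 0, .negSucc 0, .negSucc 0, .ofNat 0, .ofNat
  0, .negSucc 0], [.negSucc 0, .ofNat 0, .negSucc 0, .ofNat 0, .negSucc 0, .negSucc 0, .ofNat 0, .negSucc 0, .negSucc 0,
  .ofNat 0, .ofNat 0, .negSucc 0, .negSucc 0, .negSucc 0, .ofNat 0, .negSucc 0, .negSucc 0, .negSucc 0, .ofNat 0, .ofNat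
  27, .negSucc 0, .negSucc 0, .negSucc 0, .negSucc 0, .negSucc 0, .negSucc 0, .negSucc 0, .negSucc 0, .negSucc 0, .ofNat
  0, .negSucc 0, .ofNat 0, .ofNat 0, .negSucc 0, .negSucc 0, .negSucc 0, .negSucc 0, .negSucc 0, .ofNat 0, .ofNat 0],
  [.ofNat 0, .ofNat 0, .negSucc 0, .ofNat 0, .ofNat 0, .negSucc 0, .negSucc 0, .negSucc 0, .negSucc 0, .negSucc 0,
  .ofNat 0, .negSucc 0, .negSucc 0, .negSucc 0, .negSucc 0, .negSucc 0, .negSucc 0, .negSucc 0, .negSucc 0, .negSucc 0,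
  .ofNat 27, .negSucc 0, .ofNat 0, .negSucc 0, .negSucc 0, .ofNat 0, .negSucc 0, .negSucc 0, .ofNat 0, .negSucc 0,
  .negSucc 0, .ofNat 0, .negSucc 0, .negSucc 0, .negSucc 0, .ofNat 0, .ofNat 0, .ofNat 0, .negSucc 0, .negSucc 0],
  [.negSucc 0, .ofNat 0, .ofNat 0, .negSucc 0, .ofNat 0, .ofNat 0, .negSucc 0, .negSucc 0, .negSucc 0, .negSucc 0,
  .negSucc 0, .ofNat 0, .negSucc 0, .negSucc 0, .negSucc 0, .negSucc 0, .negSucc 0, .negSucc 0, .negSucc 0, .negSucc 0,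
  .negSucc 0, .ofNat 27, .negSucc 0, .ofNat 0, .negSucc 0, .negSucc 0, .ofNat 0, .negSucc 0, .negSucc 0, .ofNat 0,
  .negSucc 0, .negSucc 0, .ofNat 0, .negSucc 0, .negSucc 0, .negSucc 0, .ofNat 0, .ofNat 0, .ofNat 0, .negSucc 0],
  [.negSucc 0, .negSucc 0, .ofNat 0, .ofNat 0, .negSucc 0, .ofNat 0, .ofNat 0, .negSucc 0, .negSucc 0, .negSucc 0,
  .negSucc 0, .negSucc 0, .ofNat 0, .negSucc 0, .negSucc 0, .negSucc 0, .negSucc 0, .negSucc 0, .negSucc 0, .negSucc 0,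
  .ofNat 0, .negSucc 0, .ofNat 27, .negSucc 0, .ofNat 0, .negSucc 0, .negSucc 0, .ofNat 0, .negSucc 0, .negSucc 0,
  .negSucc 0, .negSucc 0, .negSucc 0, .ofNat 0, .negSucc 0, .negSucc 0, .negSucc 0, .ofNat 0, .ofNat 0, .ofNat 0],
  [.negSucc 0, .negSucc 0, .negSucc 0, .ofNat 0, .ofNat 0, .negSucc 0, .ofNat 0, .ofNat 0, .negSucc 0, .negSucc 0,
  .negSucc 0, .negSucc 0, .negSucc 0, .ofNat 0, .negSucc 0, .negSucc 0, .negSucc 0, .negSucc 0, .negSucc 0, .negSucc 0,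
  .negSucc 0, .ofNat 0, .negSucc 0, .ofNat 27, .negSucc 0, .ofNat 0, .negSucc 0, .negSucc 0, .ofNat 0, .negSucc 0,
  .ofNat 0, .negSucc 0, .negSucc 0, .negSucc 0, .ofNat 0, .negSucc 0, .negSucc 0, .negSucc 0, .ofNat 0, .ofNat 0],
  [.negSucc 0, .negSucc 0, .negSucc 0, .negSucc 0, .ofNat 0, .ofNat 0, .negSucc 0, .ofNat 0, .ofNat 0, .negSucc 0,
  .negSucc 0, .negSucc 0, .negSucc 0, .negSucc 0, .ofNat 0, .negSucc 0, .negSucc 0, .negSucc 0, .negSucc 0, .negSucc 0,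
  .negSucc 0, .negSucc 0, .ofNat 0, .negSucc 0, .ofNat 27, .negSucc 0, .ofNat 0, .negSucc 0, .negSucc 0, .ofNat 0,
  .ofNat 0, .ofNat 0, .negSucc 0, .negSucc 0, .negSucc 0, .ofNat 0, .negSucc 0, .negSucc 0, .negSucc 0, .ofNat 0],
  [.negSucc 0, .negSucc 0, .negSucc 0, .negSucc 0, .negSucc 0, .ofNat 0, .ofNat 0, .negSucc 0, .ofNat 0, .ofNat 0,
  .negSucc 0, .negSucc 0, .negSucc 0, .negSucc 0, .negSucc 0, .ofNat 0, .negSucc 0, .negSucc 0, .negSucc 0, .negSucc 0,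
  .ofNat 0, .negSucc 0, .negSucc 0, .ofNat 0, .negSucc 0, .ofNat 27, .negSucc 0, .ofNat 0, .negSucc 0, .negSucc 0,
  .ofNat 0, .ofNat 0, .ofNat 0, .negSucc 0, .negSucc 0, .negSucc 0, .ofNat 0, .negSucc 0, .negSucc 0, .negSucc 0],
  [.ofNat 0, .negSucc 0, .negSucc 0, .negSucc 0, .negSucc 0, .negSucc 0, .ofNat 0, .ofNat 0, .negSucc 0, .ofNat 0,
  .negSucc 0, .negSucc 0, .negSucc 0, .negSucc 0, .negSucc 0, .negSucc 0, .ofNat 0, .negSucc 0, .negSucc 0, .negSucc 0,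
  .negSucc 0, .ofNat 0, .negSucc 0, .negSucc 0, .ofNat 0, .negSucc 0, .ofNat 27, .negSucc 0, .ofNat 0, .negSucc 0,
  .negSucc 0, .ofNat 0, .ofNat 0, .ofNat 0, .negSucc 0, .negSucc 0, .negSucc 0, .ofNat 0, .negSucc 0, .negSucc 0],
  [.ofNat 0, .ofNat 0, .negSucc 0, .negSucc 0, .negSucc 0, .negSucc 0, .negSucc 0, .ofNat 0, .ofNat 0, .negSucc 0,
  .negSucc 0, .negSucc 0, .negSucc 0, .negSucc 0, .negSucc 0, .negSucc 0, .negSucc 0, .ofNat 0, .negSucc 0, .negSucc 0,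
  .negSucc 0, .negSucc 0, .ofNat 0, .negSucc 0, .negSucc 0, .ofNat 0, .negSucc 0, .ofNat 27, .negSucc 0, .ofNat 0,
  .negSucc 0, .negSucc 0, .ofNat 0, .ofNat 0, .ofNat 0, .negSucc 0, .negSucc 0, .negSucc 0, .ofNat 0, .negSucc 0],
  [.negSucc 0, .ofNat 0, .ofNat 0, .negSucc 0, .negSucc 0, .negSucc 0, .negSucc 0, .negSucc 0, .ofNat 0, .ofNat 0,
  .negSucc 0, .negSucc 0, .negSucc 0, .negSucc 0, .negSucc 0, .negSucc 0, .negSucc 0, .negSucc 0, .ofNat 0, .negSucc 0,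
  .ofNat 0, .negSucc 0, .negSucc 0, .ofNat 0, .negSucc 0, .negSucc 0, .ofNat 0, .negSucc 0, .ofNat 27, .negSucc 0,
  .negSucc 0, .negSucc 0, .negSucc 0, .ofNat 0, .ofNat 0, .ofNat 0, .negSucc 0, .negSucc 0, .negSucc 0, .ofNat 0],
  [.ofNat 0, .negSucc 0, .ofNat 0, .ofNat 0, .negSucc 0, .negSucc 0, .negSucc 0, .negSucc 0, .negSucc 0, .ofNat 0,
  .negSucc 0, .negSucc 0, .negSucc 0, .negSucc 0, .negSucc 0, .negSucc 0, .negSucc 0, .negSucc 0, .negSucc 0, .ofNat 0,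
  .negSucc 0, .ofNat 0, .negSucc 0, .negSucc 0, .ofNat 0, .negSucc 0, .negSucc 0, .ofNat 0, .negSucc 0, .ofNat 27,
  .ofNat 0, .negSucc 0, .negSucc 0, .negSucc 0, .ofNat 0, .ofNat 0, .ofNat 0, .negSucc 0, .negSucc 0, .negSucc 0],
  [.negSucc 0, .negSucc 0, .negSucc 0, .negSucc 0, .negSucc 0, .negSucc 0, .ofNat 0, .negSucc 0, .negSucc 0, .negSucc 0,
  .ofNat 0, .ofNat 0, .negSucc 0, .negSucc 0, .negSucc 0, .negSucc 0, .negSucc 0, .ofNat 0, .ofNat 0, .negSucc 0,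
  .negSucc 0, .negSucc 0, .negSucc 0, .ofNat 0, .ofNat 0, .ofNat 0, .negSucc 0, .negSucc 0, .negSucc 0, .ofNat 0, .ofNat
  27, .negSucc 0, .negSucc 0, .ofNat 0, .negSucc 0, .ofNat 0, .negSucc 0, .ofNat 0, .negSucc 0, .negSucc 0], [.negSucc
  0, .negSucc 0, .negSucc 0, .negSucc 0, .negSucc 0, .negSucc 0, .negSucc 0, .ofNat 0, .negSucc 0, .negSucc 0, .negSucc
  0, .ofNat 0, .ofNat 0, .negSucc 0, .negSucc 0, .negSucc 0, .negSucc 0, .negSucc 0, .ofNat 0, .ofNat 0, .ofNat 0,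
  .negSucc 0, .negSucc 0, .negSucc 0, .ofNat 0, .ofNat 0, .ofNat 0, .negSucc 0, .negSucc 0, .negSucc 0, .negSucc 0,
  .ofNat 27, .negSucc 0, .negSucc 0, .ofNat 0, .negSucc 0, .ofNat 0, .negSucc 0, .ofNat 0, .negSucc 0], [.negSucc 0,
  .negSucc 0, .negSucc 0, .negSucc 0, .negSucc 0, .negSucc 0, .negSucc 0, .negSucc 0, .ofNat 0, .negSucc 0, .ofNat 0,
  .negSucc 0, .ofNat 0, .ofNat 0, .negSucc 0, .negSucc 0, .negSucc 0, .negSucc 0, .negSucc 0, .ofNat 0, .negSucc 0,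
  .ofNat 0, .negSucc 0, .negSucc 0, .negSucc 0, .ofNat 0, .ofNat 0, .ofNat 0, .negSucc 0, .negSucc 0, .negSucc 0,
  .negSucc 0, .ofNat 27, .negSucc 0, .negSucc 0, .ofNat 0, .negSucc 0, .ofNat 0, .negSucc 0, .ofNat 0], [.negSucc 0,
  .negSucc 0, .negSucc 0, .negSucc 0, .negSucc 0, .negSucc 0, .negSucc 0, .negSucc 0, .negSucc 0, .ofNat 0, .ofNat 0,
  .ofNat 0, .negSucc 0, .ofNat 0, .ofNat 0, .negSucc 0, .negSucc 0, .negSucc 0, .negSucc 0, .negSucc 0, .negSucc 0,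
  .negSucc 0, .ofNat 0, .negSucc 0, .negSucc 0, .negSucc 0, .ofNat 0, .ofNat 0, .ofNat 0, .negSucc 0, .ofNat 0, .negSucc
  0, .negSucc 0, .ofNat 27, .negSucc 0, .negSucc 0, .ofNat 0, .negSucc 0, .ofNat 0, .negSucc 0], [.ofNat 0, .negSucc 0,
  .negSucc 0, .negSucc 0, .negSucc 0, .negSucc 0, .negSucc 0, .negSucc 0, .negSucc 0, .negSucc 0, .negSucc 0, .ofNat 0,
  .ofNat 0, .negSucc 0, .ofNat 0, .ofNat 0, .negSucc 0, .negSucc 0, .negSucc 0, .negSucc 0, .negSucc 0, .negSucc 0,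
  .negSucc 0, .ofNat 0, .negSucc 0, .negSucc 0, .negSucc 0, .ofNat 0, .ofNat 0, .ofNat 0, .negSucc 0, .ofNat 0, .negSucc
  0, .negSucc 0, .ofNat 27, .negSucc 0, .negSucc 0, .ofNat 0, .negSucc 0, .ofNat 0], [.negSucc 0, .ofNat 0, .negSucc 0,
  .negSucc 0, .negSucc 0, .negSucc 0, .negSucc 0, .negSucc 0, .negSucc 0, .negSucc 0, .negSucc 0, .negSucc 0, .ofNat 0,
  .ofNat 0, .negSucc 0, .ofNat 0, .ofNat 0, .negSucc 0, .negSucc 0, .negSucc 0, .ofNat 0, .negSucc 0, .negSucc 0,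
  .negSucc 0, .ofNat 0, .negSucc 0, .negSucc 0, .negSucc 0, .ofNat 0, .ofNat 0, .ofNat 0, .negSucc 0, .ofNat 0, .negSucc
  0, .negSucc 0, .ofNat 27, .negSucc 0, .negSucc 0, .ofNat 0, .negSucc 0], [.negSucc 0, .negSucc 0, .ofNat 0, .negSucc
  0, .negSucc 0, .negSucc 0, .negSucc 0, .negSucc 0, .negSucc 0, .negSucc 0, .negSucc 0, .negSucc 0, .negSucc 0, .ofNat
  0, .ofNat 0, .negSucc 0, .ofNat 0, .ofNat 0, .negSucc 0, .negSucc 0, .ofNat 0, .ofNat 0, .negSucc 0, .negSucc 0,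
  .negSucc 0, .ofNat 0, .negSucc 0, .negSucc 0, .negSucc 0, .ofNat 0, .negSucc 0, .ofNat 0, .negSucc 0, .ofNat 0,
  .negSucc 0, .negSucc 0, .ofNat 27, .negSucc 0, .negSucc 0, .ofNat 0], [.negSucc 0, .negSucc 0, .negSucc 0, .ofNat 0,
  .negSucc 0, .negSucc 0, .negSucc 0, .negSucc 0, .negSucc 0, .negSucc 0, .negSucc 0, .negSucc 0, .negSucc 0, .negSucc
  0, .ofNat 0, .ofNat 0, .negSucc 0, .ofNat 0, .ofNat 0, .negSucc 0, .ofNat 0, .ofNat 0, .ofNat 0, .negSucc 0, .negSucc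
  0, .negSucc 0, .ofNat 0, .negSucc 0, .negSucc 0, .negSucc 0, .ofNat 0, .negSucc 0, .ofNat 0, .negSucc 0, .ofNat 0,
  .negSucc 0, .negSucc 0, .ofNat 27, .negSucc 0, .negSucc 0], [.negSucc 0, .negSucc 0, .negSucc 0, .negSucc 0, .ofNat 0,
  .negSucc 0, .negSucc 0, .negSucc 0, .negSucc 0, .negSucc 0, .negSucc 0, .negSucc 0, .negSucc 0, .negSucc 0, .negSucc
  0, .ofNat 0, .ofNat 0, .negSucc 0, .ofNat 0, .ofNat 0, .negSucc 0, .ofNat 0, .ofNat 0, .ofNat 0, .negSucc 0, .negSucc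
  0, .negSucc 0, .ofNat 0, .negSucc 0, .negSucc 0, .negSucc 0, .ofNat 0, .negSucc 0, .ofNat 0, .negSucc 0, .ofNat 0,
  .negSucc 0, .negSucc 0, .ofNat 27, .negSucc 0], [.negSucc 0, .negSucc 0, .negSucc 0, .negSucc 0, .negSucc 0, .ofNat 0,
  .negSucc 0, .negSucc 0, .negSucc 0, .negSucc 0, .ofNat 0, .negSucc 0, .negSucc 0, .negSucc 0, .negSucc 0, .negSucc 0,
  .ofNat 0, .ofNat 0, .negSucc 0, .ofNat 0, .negSucc 0, .negSucc 0, .ofNat 0, .ofNat 0, .ofNat 0, .negSucc 0, .negSucc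
  0, .negSucc 0, .ofNat 0, .negSucc 0, .negSucc 0, .negSucc 0, .ofNat 0, .negSucc 0, .ofNat 0, .negSucc 0, .ofNat 0,
  .negSucc 0, .negSucc 0, .ofNat 27]]

/-- Row `i`: 4 times the vector `G2 i` of the lattice. -/
def g2T : List (List ℤ) := [[.ofNat 1, .ofNat 37, .negSucc 2, .negSucc 2, .negSucc 4, .ofNat 5, .ofNat 5, .ofNat 7,
  .negSucc 2, .negSucc 2, .negSucc 4, .ofNat 7, .negSucc 2, .negSucc 4, .ofNat 7, .negSucc 2, .negSucc 4, .ofNat 7,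
  .negSucc 4, .ofNat 7, .ofNat 5, .ofNat 7, .negSucc 2, .negSucc 2, .negSucc 2, .negSucc 2, .negSucc 4, .ofNat 5, .ofNat
  7, .negSucc 4, .negSucc 2, .negSucc 2, .negSucc 2, .negSucc 2, .negSucc 4, .ofNat 7, .negSucc 2, .negSucc 2, .negSucc
  2, .negSucc 2], [.negSucc 2, .ofNat 1, .ofNat 37, .negSucc 2, .negSucc 2, .negSucc 4, .ofNat 5, .ofNat 5, .ofNat 7,
  .negSucc 2, .ofNat 7, .negSucc 4, .ofNat 7, .negSucc 2, .negSucc 4, .ofNat 7, .negSucc 2, .negSucc 4, .ofNat 7,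
  .negSucc 4, .negSucc 4, .ofNat 5, .ofNat 7, .negSucc 2, .negSucc 2, .negSucc 2, .negSucc 2, .negSucc 4, .ofNat 5,
  .ofNat 7, .negSucc 2, .negSucc 2, .negSucc 2, .negSucc 2, .negSucc 2, .negSucc 4, .ofNat 7, .negSucc 2, .negSucc 2,
  .negSucc 2], [.negSucc 2, .negSucc 2, .ofNat 1, .ofNat 37, .negSucc 2, .negSucc 2, .negSucc 4, .ofNat 5, .ofNat 5,
  .ofNat 7, .negSucc 4, .ofNat 7, .negSucc 4, .ofNat 7, .negSucc 2, .negSucc 4, .ofNat 7, .negSucc 2, .negSucc 4, .ofNat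
  7, .ofNat 7, .negSucc 4, .ofNat 5, .ofNat 7, .negSucc 2, .negSucc 2, .negSucc 2, .negSucc 2, .negSucc 4, .ofNat 5,
  .negSucc 2, .negSucc 2, .negSucc 2, .negSucc 2, .negSucc 2, .negSucc 2, .negSucc 4, .ofNat 7, .negSucc 2, .negSucc 2],
  [.ofNat 7, .negSucc 2, .negSucc 2, .ofNat 1, .ofNat 37, .negSucc 2, .negSucc 2, .negSucc 4, .ofNat 5, .ofNat 5, .ofNat
  7, .negSucc 4, .ofNat 7, .negSucc 4, .ofNat 7, .negSucc 2, .negSucc 4, .ofNat 7, .negSucc 2, .negSucc 4, .ofNat 5,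
  .ofNat 7, .negSucc 4, .ofNat 5, .ofNat 7, .negSucc 2, .negSucc 2, .negSucc 2, .negSucc 2, .negSucc 4, .negSucc 2,
  .negSucc 2, .negSucc 2, .negSucc 2, .negSucc 2, .negSucc 2, .negSucc 2, .negSucc 4, .ofNat 7, .negSucc 2], [.ofNat 5,
  .ofNat 7, .negSucc 2, .negSucc 2, .ofNat 1, .ofNat 37, .negSucc 2, .negSucc 2, .negSucc 4, .ofNat 5, .negSucc 4,
  .ofNat 7, .negSucc 4, .ofNat 7, .negSucc 4, .ofNat 7, .negSucc 2, .negSucc 4, .ofNat 7, .negSucc 2, .negSucc 4, .ofNat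
  5, .ofNat 7, .negSucc 4, .ofNat 5, .ofNat 7, .negSucc 2, .negSucc 2, .negSucc 2, .negSucc 2, .negSucc 2, .negSucc 2,
  .negSucc 2, .negSucc 2, .negSucc 2, .negSucc 2, .negSucc 2, .negSucc 2, .negSucc 4, .ofNat 7], [.ofNat 5, .ofNat 5,
  .ofNat 7, .negSucc 2, .negSucc 2, .ofNat 1, .ofNat 37, .negSucc 2, .negSucc 2, .negSucc 4, .negSucc 2, .negSucc 4,
  .ofNat 7, .negSucc 4, .ofNat 7, .negSucc 4, .ofNat 7, .negSucc 2, .negSucc 4, .ofNat 7, .negSucc 2, .negSucc 4, .ofNat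
  5, .ofNat 7, .negSucc 4, .ofNat 5, .ofNat 7, .negSucc 2, .negSucc 2, .negSucc 2, .ofNat 7, .negSucc 2, .negSucc 2,
  .negSucc 2, .negSucc 2, .negSucc 2, .negSucc 2, .negSucc 2, .negSucc 2, .negSucc 4], [.negSucc 4, .ofNat 5, .ofNat 5,
  .ofNat 7, .negSucc 2, .negSucc 2, .ofNat 1, .ofNat 37, .negSucc 2, .negSucc 2, .ofNat 7, .negSucc 2, .negSucc 4,
  .ofNat 7, .negSucc 4, .ofNat 7, .negSucc 4, .ofNat 7, .negSucc 2, .negSucc 4, .negSucc 2, .negSucc 2, .negSucc 4,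
  .ofNat 5, .ofNat 7, .negSucc 4, .ofNat 5, .ofNat 7, .negSucc 2, .negSucc 2, .negSucc 4, .ofNat 7, .negSucc 2, .negSucc
  2, .negSucc 2, .negSucc 2, .negSucc 2, .negSucc 2, .negSucc 2, .negSucc 2], [.negSucc 2, .negSucc 4, .ofNat 5, .ofNat
  5, .ofNat 7, .negSucc 2, .negSucc 2, .ofNat 1, .ofNat 37, .negSucc 2, .negSucc 4, .ofNat 7, .negSucc 2, .negSucc 4,
  .ofNat 7, .negSucc 4, .ofNat 7, .negSucc 4, .ofNat 7, .negSucc 2, .negSucc 2, .negSucc 2, .negSucc 2, .negSucc 4,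
  .ofNat 5, .ofNat 7, .negSucc 4, .ofNat 5, .ofNat 7, .negSucc 2, .negSucc 2, .negSucc 4, .ofNat 7, .negSucc 2, .negSucc
  2, .negSucc 2, .negSucc 2, .negSucc 2, .negSucc 2, .negSucc 2], [.negSucc 2, .negSucc 2, .negSucc 4, .ofNat 5, .ofNat
  5, .ofNat 7, .negSucc 2, .negSucc 2, .ofNat 1, .ofNat 37, .negSucc 2, .negSucc 4, .ofNat 7, .negSucc 2, .negSucc 4,
  .ofNat 7, .negSucc 4, .ofNat 7, .negSucc 4, .ofNat 7, .negSucc 2, .negSucc 2, .negSucc 2, .negSucc 2, .negSucc 4,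
  .ofNat 5, .ofNat 7, .negSucc 4, .ofNat 5, .ofNat 7, .negSucc 2, .negSucc 2, .negSucc 4, .ofNat 7, .negSucc 2, .negSucc
  2, .negSucc 2, .negSucc 2, .negSucc 2, .negSucc 2], [.ofNat 37, .negSucc 2, .negSucc 2, .negSucc 4, .ofNat 5, .ofNat
  5, .ofNat 7, .negSucc 2, .negSucc 2, .ofNat 1, .ofNat 7, .negSucc 2, .negSucc 4, .ofNat 7, .negSucc 2, .negSucc 4,
  .ofNat 7, .negSucc 4, .ofNat 7, .negSucc 4, .ofNat 7, .negSucc 2, .negSucc 2, .negSucc 2, .negSucc 2, .negSucc 4,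
  .ofNat 5, .ofNat 7, .negSucc 4, .ofNat 5, .negSucc 2, .negSucc 2, .negSucc 2, .negSucc 4, .ofNat 7, .negSucc 2,
  .negSucc 2, .negSucc 2, .negSucc 2, .negSucc 2], [.negSucc 4, .ofNat 7, .negSucc 4, .ofNat 7, .negSucc 4, .ofNat 7,
  .negSucc 2, .negSucc 4, .ofNat 7, .negSucc 2, .ofNat 11, .ofNat 35, .ofNat 7, .negSucc 2, .negSucc 2, .negSucc 4,
  .ofNat 7, .negSucc 2, .negSucc 2, .negSucc 4, .negSucc 4, .ofNat 7, .negSucc 2, .negSucc 2, .negSucc 2, .negSucc 2,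
  .negSucc 2, .negSucc 2, .negSucc 2, .negSucc 2, .ofNat 5, .ofNat 7, .negSucc 4, .ofNat 5, .ofNat 7, .negSucc 2,
  .negSucc 2, .negSucc 2, .negSucc 2, .negSucc 4], [.negSucc 2, .negSucc 4, .ofNat 7, .negSucc 4, .ofNat 7, .negSucc 4,
  .ofNat 7, .negSucc 2, .negSucc 4, .ofNat 7, .negSucc 4, .ofNat 11, .ofNat 35, .ofNat 7, .negSucc 2, .negSucc 2,
  .negSucc 4, .ofNat 7, .negSucc 2, .negSucc 2, .negSucc 2, .negSucc 4, .ofNat 7, .negSucc 2, .negSucc 2, .negSucc 2,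
  .negSucc 2, .negSucc 2, .negSucc 2, .negSucc 2, .negSucc 4, .ofNat 5, .ofNat 7, .negSucc 4, .ofNat 5, .ofNat 7,
  .negSucc 2, .negSucc 2, .negSucc 2, .negSucc 2], [.ofNat 7, .negSucc 2, .negSucc 4, .ofNat 7, .negSucc 4, .ofNat 7,
  .negSucc 4, .ofNat 7, .negSucc 2, .negSucc 4, .negSucc 2, .negSucc 4, .ofNat 11, .ofNat 35, .ofNat 7, .negSucc 2,
  .negSucc 2, .negSucc 4, .ofNat 7, .negSucc 2, .negSucc 2, .negSucc 2, .negSucc 4, .ofNat 7, .negSucc 2, .negSucc 2,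
  .negSucc 2, .negSucc 2, .negSucc 2, .negSucc 2, .negSucc 2, .negSucc 4, .ofNat 5, .ofNat 7, .negSucc 4, .ofNat 5,
  .ofNat 7, .negSucc 2, .negSucc 2, .negSucc 2], [.negSucc 4, .ofNat 7, .negSucc 2, .negSucc 4, .ofNat 7, .negSucc 4,
  .ofNat 7, .negSucc 4, .ofNat 7, .negSucc 2, .negSucc 2, .negSucc 2, .negSucc 4, .ofNat 11, .ofNat 35, .ofNat 7,
  .negSucc 2, .negSucc 2, .negSucc 4, .ofNat 7, .negSucc 2, .negSucc 2, .negSucc 2, .negSucc 4, .ofNat 7, .negSucc 2,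
  .negSucc 2, .negSucc 2, .negSucc 2, .negSucc 2, .negSucc 2, .negSucc 2, .negSucc 4, .ofNat 5, .ofNat 7, .negSucc 4,
  .ofNat 5, .ofNat 7, .negSucc 2, .negSucc 2], [.negSucc 2, .negSucc 4, .ofNat 7, .negSucc 2, .negSucc 4, .ofNat 7,
  .negSucc 4, .ofNat 7, .negSucc 4, .ofNat 7, .ofNat 7, .negSucc 2, .negSucc 2, .negSucc 4, .ofNat 11, .ofNat 35, .ofNat
  7, .negSucc 2, .negSucc 2, .negSucc 4, .negSucc 2, .negSucc 2, .negSucc 2, .negSucc 2, .negSucc 4, .ofNat 7, .negSucc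
  2, .negSucc 2, .negSucc 2, .negSucc 2, .negSucc 2, .negSucc 2, .negSucc 2, .negSucc 4, .ofNat 5, .ofNat 7, .negSucc 4,
  .ofNat 5, .ofNat 7, .negSucc 2], [.ofNat 7, .negSucc 2, .negSucc 4, .ofNat 7, .negSucc 2, .negSucc 4, .ofNat 7,
  .negSucc 4, .ofNat 7, .negSucc 4, .negSucc 4, .ofNat 7, .negSucc 2, .negSucc 2, .negSucc 4, .ofNat 11, .ofNat 35,
  .ofNat 7, .negSucc 2, .negSucc 2, .negSucc 2, .negSucc 2, .negSucc 2, .negSucc 2, .negSucc 2, .negSucc 4, .ofNat 7,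
  .negSucc 2, .negSucc 2, .negSucc 2, .negSucc 2, .negSucc 2, .negSucc 2, .negSucc 2, .negSucc 4, .ofNat 5, .ofNat 7,
  .negSucc 4, .ofNat 5, .ofNat 7], [.negSucc 4, .ofNat 7, .negSucc 2, .negSucc 4, .ofNat 7, .negSucc 2, .negSucc 4,
  .ofNat 7, .negSucc 4, .ofNat 7, .negSucc 2, .negSucc 4, .ofNat 7, .negSucc 2, .negSucc 2, .negSucc 4, .ofNat 11,
  .ofNat 35, .ofNat 7, .negSucc 2, .negSucc 2, .negSucc 2, .negSucc 2, .negSucc 2, .negSucc 2, .negSucc 2, .negSucc 4,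
  .ofNat 7, .negSucc 2, .negSucc 2, .ofNat 7, .negSucc 2, .negSucc 2, .negSucc 2, .negSucc 2, .negSucc 4, .ofNat 5,
  .ofNat 7, .negSucc 4, .ofNat 5], [.ofNat 7, .negSucc 4, .ofNat 7, .negSucc 2, .negSucc 4, .ofNat 7, .negSucc 2,
  .negSucc 4, .ofNat 7, .negSucc 4, .negSucc 2, .negSucc 2, .negSucc 4, .ofNat 7, .negSucc 2, .negSucc 2, .negSucc 4,
  .ofNat 11, .ofNat 35, .ofNat 7, .negSucc 2, .negSucc 2, .negSucc 2, .negSucc 2, .negSucc 2, .negSucc 2, .negSucc 2,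
  .negSucc 4, .ofNat 7, .negSucc 2, .ofNat 5, .ofNat 7, .negSucc 2, .negSucc 2, .negSucc 2, .negSucc 2, .negSucc 4,
  .ofNat 5, .ofNat 7, .negSucc 4], [.negSucc 4, .ofNat 7, .negSucc 4, .ofNat 7, .negSucc 2, .negSucc 4, .ofNat 7,
  .negSucc 2, .negSucc 4, .ofNat 7, .ofNat 7, .negSucc 2, .negSucc 2, .negSucc 4, .ofNat 7, .negSucc 2, .negSucc 2,
  .negSucc 4, .ofNat 11, .ofNat 35, .negSucc 2, .negSucc 2, .negSucc 2, .negSucc 2, .negSucc 2, .negSucc 2, .negSucc 2,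
  .negSucc 2, .negSucc 4, .ofNat 7, .negSucc 4, .ofNat 5, .ofNat 7, .negSucc 2, .negSucc 2, .negSucc 2, .negSucc 2,
  .negSucc 4, .ofNat 5, .ofNat 7], [.ofNat 7, .negSucc 4, .ofNat 7, .negSucc 4, .ofNat 7, .negSucc 2, .negSucc 4, .ofNat
  7, .negSucc 2, .negSucc 4, .ofNat 35, .ofNat 7, .negSucc 2, .negSucc 2, .negSucc 4, .ofNat 7, .negSucc 2, .negSucc 2,
  .negSucc 4, .ofNat 11, .ofNat 7, .negSucc 2, .negSucc 2, .negSucc 2, .negSucc 2, .negSucc 2, .negSucc 2, .negSucc 2,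
  .negSucc 2, .negSucc 4, .ofNat 7, .negSucc 4, .ofNat 5, .ofNat 7, .negSucc 2, .negSucc 2, .negSucc 2, .negSucc 2,
  .negSucc 4, .ofNat 5], [.negSucc 4, .ofNat 5, .ofNat 7, .negSucc 4, .ofNat 5, .ofNat 7, .negSucc 2, .negSucc 2,
  .negSucc 2, .negSucc 2, .negSucc 4, .ofNat 7, .negSucc 2, .negSucc 2, .negSucc 2, .negSucc 2, .negSucc 2, .negSucc 2,
  .negSucc 2, .negSucc 2, .ofNat 1, .ofNat 37, .negSucc 4, .ofNat 7, .negSucc 2, .negSucc 4, .ofNat 7, .negSucc 2,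
  .negSucc 4, .ofNat 7, .negSucc 2, .negSucc 4, .ofNat 7, .negSucc 2, .negSucc 2, .negSucc 4, .ofNat 5, .ofNat 5, .ofNat
  7, .negSucc 2], [.negSucc 2, .negSucc 4, .ofNat 5, .ofNat 7, .negSucc 4, .ofNat 5, .ofNat 7, .negSucc 2, .negSucc 2,
  .negSucc 2, .negSucc 2, .negSucc 4, .ofNat 7, .negSucc 2, .negSucc 2, .negSucc 2, .negSucc 2, .negSucc 2, .negSucc 2,
  .negSucc 2, .ofNat 7, .ofNat 1, .ofNat 37, .negSucc 4, .ofNat 7, .negSucc 2, .negSucc 4, .ofNat 7, .negSucc 2,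
  .negSucc 4, .negSucc 2, .negSucc 2, .negSucc 4, .ofNat 7, .negSucc 2, .negSucc 2, .negSucc 4, .ofNat 5, .ofNat 5,
  .ofNat 7], [.negSucc 2, .negSucc 2, .negSucc 4, .ofNat 5, .ofNat 7, .negSucc 4, .ofNat 5, .ofNat 7, .negSucc 2,
  .negSucc 2, .negSucc 2, .negSucc 2, .negSucc 4, .ofNat 7, .negSucc 2, .negSucc 2, .negSucc 2, .negSucc 2, .negSucc 2,
  .negSucc 2, .negSucc 4, .ofNat 7, .ofNat 1, .ofNat 37, .negSucc 4, .ofNat 7, .negSucc 2, .negSucc 4, .ofNat 7,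
  .negSucc 2, .ofNat 7, .negSucc 2, .negSucc 2, .negSucc 4, .ofNat 7, .negSucc 2, .negSucc 2, .negSucc 4, .ofNat 5,
  .ofNat 5], [.negSucc 2, .negSucc 2, .negSucc 2, .negSucc 4, .ofNat 5, .ofNat 7, .negSucc 4, .ofNat 5, .ofNat 7,
  .negSucc 2, .negSucc 2, .negSucc 2, .negSucc 2, .negSucc 4, .ofNat 7, .negSucc 2, .negSucc 2, .negSucc 2, .negSucc 2,
  .negSucc 2, .negSucc 2, .negSucc 4, .ofNat 7, .ofNat 1, .ofNat 37, .negSucc 4, .ofNat 7, .negSucc 2, .negSucc 4,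
  .ofNat 7, .ofNat 5, .ofNat 7, .negSucc 2, .negSucc 2, .negSucc 4, .ofNat 7, .negSucc 2, .negSucc 2, .negSucc 4, .ofNat
  5], [.negSucc 2, .negSucc 2, .negSucc 2, .negSucc 2, .negSucc 4, .ofNat 5, .ofNat 7, .negSucc 4, .ofNat 5, .ofNat 7,
  .negSucc 2, .negSucc 2, .negSucc 2, .negSucc 2, .negSucc 4, .ofNat 7, .negSucc 2, .negSucc 2, .negSucc 2, .negSucc 2,
  .ofNat 7, .negSucc 2, .negSucc 4, .ofNat 7, .ofNat 1, .ofNat 37, .negSucc 4, .ofNat 7, .negSucc 2, .negSucc 4, .ofNat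
  5, .ofNat 5, .ofNat 7, .negSucc 2, .negSucc 2, .negSucc 4, .ofNat 7, .negSucc 2, .negSucc 2, .negSucc 4], [.ofNat 7,
  .negSucc 2, .negSucc 2, .negSucc 2, .negSucc 2, .negSucc 4, .ofNat 5, .ofNat 7, .negSucc 4, .ofNat 5, .negSucc 2,
  .negSucc 2, .negSucc 2, .negSucc 2, .negSucc 2, .negSucc 4, .ofNat 7, .negSucc 2, .negSucc 2, .negSucc 2, .negSucc 4,
  .ofNat 7, .negSucc 2, .negSucc 4, .ofNat 7, .ofNat 1, .ofNat 37, .negSucc 4, .ofNat 7, .negSucc 2, .negSucc 4, .ofNat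
  5, .ofNat 5, .ofNat 7, .negSucc 2, .negSucc 2, .negSucc 4, .ofNat 7, .negSucc 2, .negSucc 2], [.ofNat 5, .ofNat 7,
  .negSucc 2, .negSucc 2, .negSucc 2, .negSucc 2, .negSucc 4, .ofNat 5, .ofNat 7, .negSucc 4, .negSucc 2, .negSucc 2,
  .negSucc 2, .negSucc 2, .negSucc 2, .negSucc 2, .negSucc 4, .ofNat 7, .negSucc 2, .negSucc 2, .negSucc 2, .negSucc 4,
  .ofNat 7, .negSucc 2, .negSucc 4, .ofNat 7, .ofNat 1, .ofNat 37, .negSucc 4, .ofNat 7, .negSucc 2, .negSucc 4, .ofNat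
  5, .ofNat 5, .ofNat 7, .negSucc 2, .negSucc 2, .negSucc 4, .ofNat 7, .negSucc 2], [.negSucc 4, .ofNat 5, .ofNat 7,
  .negSucc 2, .negSucc 2, .negSucc 2, .negSucc 2, .negSucc 4, .ofNat 5, .ofNat 7, .negSucc 2, .negSucc 2, .negSucc 2,
  .negSucc 2, .negSucc 2, .negSucc 2, .negSucc 2, .negSucc 4, .ofNat 7, .negSucc 2, .ofNat 7, .negSucc 2, .negSucc 4,
  .ofNat 7, .negSucc 2, .negSucc 4, .ofNat 7, .ofNat 1, .ofNat 37, .negSucc 4, .negSucc 2, .negSucc 2, .negSucc 4,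
  .ofNat 5, .ofNat 5, .ofNat 7, .negSucc 2, .negSucc 2, .negSucc 4, .ofNat 7], [.ofNat 7, .negSucc 4, .ofNat 5, .ofNat
  7, .negSucc 2, .negSucc 2, .negSucc 2, .negSucc 2, .negSucc 4, .ofNat 5, .negSucc 2, .negSucc 2, .negSucc 2, .negSucc
  2, .negSucc 2, .negSucc 2, .negSucc 2, .negSucc 2, .negSucc 4, .ofNat 7, .negSucc 4, .ofNat 7, .negSucc 2, .negSucc 4,
  .ofNat 7, .negSucc 2, .negSucc 4, .ofNat 7, .ofNat 1, .ofNat 37, .ofNat 7, .negSucc 2, .negSucc 2, .negSucc 4, .ofNat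
  5, .ofNat 5, .ofNat 7, .negSucc 2, .negSucc 2, .negSucc 4], [.ofNat 5, .ofNat 7, .negSucc 4, .ofNat 5, .ofNat 7,
  .negSucc 2, .negSucc 2, .negSucc 2, .negSucc 2, .negSucc 4, .ofNat 7, .negSucc 2, .negSucc 2, .negSucc 2, .negSucc 2,
  .negSucc 2, .negSucc 2, .negSucc 2, .negSucc 2, .negSucc 4, .ofNat 37, .negSucc 4, .ofNat 7, .negSucc 2, .negSucc 4,
  .ofNat 7, .negSucc 2, .negSucc 4, .ofNat 7, .ofNat 1, .negSucc 4, .ofNat 7, .negSucc 2, .negSucc 2, .negSucc 4, .ofNat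
  5, .ofNat 5, .ofNat 7, .negSucc 2, .negSucc 2], [.negSucc 2, .negSucc 2, .negSucc 2, .negSucc 2, .negSucc 2, .negSucc
  2, .negSucc 4, .ofNat 7, .negSucc 2, .negSucc 2, .negSucc 4, .ofNat 5, .ofNat 7, .negSucc 2, .negSucc 2, .negSucc 2,
  .negSucc 2, .negSucc 4, .ofNat 5, .ofNat 7, .ofNat 7, .negSucc 2, .negSucc 2, .negSucc 4, .ofNat 5, .ofNat 5, .ofNat
  7, .negSucc 2, .negSucc 2, .negSucc 4, .ofNat 1, .ofNat 37, .negSucc 2, .negSucc 4, .ofNat 7, .negSucc 4, .ofNat 7,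
  .negSucc 4, .ofNat 7, .negSucc 2], [.negSucc 2, .negSucc 2, .negSucc 2, .negSucc 2, .negSucc 2, .negSucc 2, .negSucc
  2, .negSucc 4, .ofNat 7, .negSucc 2, .ofNat 7, .negSucc 4, .ofNat 5, .ofNat 7, .negSucc 2, .negSucc 2, .negSucc 2,
  .negSucc 2, .negSucc 4, .ofNat 5, .negSucc 4, .ofNat 7, .negSucc 2, .negSucc 2, .negSucc 4, .ofNat 5, .ofNat 5, .ofNat
  7, .negSucc 2, .negSucc 2, .negSucc 2, .ofNat 1, .ofNat 37, .negSucc 2, .negSucc 4, .ofNat 7, .negSucc 4, .ofNat 7,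
  .negSucc 4, .ofNat 7], [.negSucc 2, .negSucc 2, .negSucc 2, .negSucc 2, .negSucc 2, .negSucc 2, .negSucc 2, .negSucc
  2, .negSucc 4, .ofNat 7, .ofNat 5, .ofNat 7, .negSucc 4, .ofNat 5, .ofNat 7, .negSucc 2, .negSucc 2, .negSucc 2,
  .negSucc 2, .negSucc 4, .negSucc 2, .negSucc 4, .ofNat 7, .negSucc 2, .negSucc 2, .negSucc 4, .ofNat 5, .ofNat 5,
  .ofNat 7, .negSucc 2, .ofNat 7, .negSucc 2, .ofNat 1, .ofNat 37, .negSucc 2, .negSucc 4, .ofNat 7, .negSucc 4, .ofNat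
  7, .negSucc 4], [.ofNat 7, .negSucc 2, .negSucc 2, .negSucc 2, .negSucc 2, .negSucc 2, .negSucc 2, .negSucc 2,
  .negSucc 2, .negSucc 4, .negSucc 4, .ofNat 5, .ofNat 7, .negSucc 4, .ofNat 5, .ofNat 7, .negSucc 2, .negSucc 2,
  .negSucc 2, .negSucc 2, .negSucc 2, .negSucc 2, .negSucc 4, .ofNat 7, .negSucc 2, .negSucc 2, .negSucc 4, .ofNat 5,
  .ofNat 5, .ofNat 7, .negSucc 4, .ofNat 7, .negSucc 2, .ofNat 1, .ofNat 37, .negSucc 2, .negSucc 4, .ofNat 7, .negSucc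
  4, .ofNat 7], [.negSucc 4, .ofNat 7, .negSucc 2, .negSucc 2, .negSucc 2, .negSucc 2, .negSucc 2, .negSucc 2, .negSucc
  2, .negSucc 2, .negSucc 2, .negSucc 4, .ofNat 5, .ofNat 7, .negSucc 4, .ofNat 5, .ofNat 7, .negSucc 2, .negSucc 2,
  .negSucc 2, .ofNat 7, .negSucc 2, .negSucc 2, .negSucc 4, .ofNat 7, .negSucc 2, .negSucc 2, .negSucc 4, .ofNat 5,
  .ofNat 5, .ofNat 7, .negSucc 4, .ofNat 7, .negSucc 2, .ofNat 1, .ofNat 37, .negSucc 2, .negSucc 4, .ofNat 7, .negSucc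
  4], [.negSucc 2, .negSucc 4, .ofNat 7, .negSucc 2, .negSucc 2, .negSucc 2, .negSucc 2, .negSucc 2, .negSucc 2,
  .negSucc 2, .negSucc 2, .negSucc 2, .negSucc 4, .ofNat 5, .ofNat 7, .negSucc 4, .ofNat 5, .ofNat 7, .negSucc 2,
  .negSucc 2, .ofNat 5, .ofNat 7, .negSucc 2, .negSucc 2, .negSucc 4, .ofNat 7, .negSucc 2, .negSucc 2, .negSucc 4,
  .ofNat 5, .negSucc 4, .ofNat 7, .negSucc 4, .ofNat 7, .negSucc 2, .ofNat 1, .ofNat 37, .negSucc 2, .negSucc 4, .ofNat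
  7], [.negSucc 2, .negSucc 2, .negSucc 4, .ofNat 7, .negSucc 2, .negSucc 2, .negSucc 2, .negSucc 2, .negSucc 2,
  .negSucc 2, .negSucc 2, .negSucc 2, .negSucc 2, .negSucc 4, .ofNat 5, .ofNat 7, .negSucc 4, .ofNat 5, .ofNat 7,
  .negSucc 2, .ofNat 5, .ofNat 5, .ofNat 7, .negSucc 2, .negSucc 2, .negSucc 4, .ofNat 7, .negSucc 2, .negSucc 2,
  .negSucc 4, .ofNat 7, .negSucc 4, .ofNat 7, .negSucc 4, .ofNat 7, .negSucc 2, .ofNat 1, .ofNat 37, .negSucc 2,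
  .negSucc 4], [.negSucc 2, .negSucc 2, .negSucc 2, .negSucc 4, .ofNat 7, .negSucc 2, .negSucc 2, .negSucc 2, .negSucc
  2, .negSucc 2, .negSucc 2, .negSucc 2, .negSucc 2, .negSucc 2, .negSucc 4, .ofNat 5, .ofNat 7, .negSucc 4, .ofNat 5,
  .ofNat 7, .negSucc 4, .ofNat 5, .ofNat 5, .ofNat 7, .negSucc 2, .negSucc 2, .negSucc 4, .ofNat 7, .negSucc 2, .negSucc
  2, .negSucc 4, .ofNat 7, .negSucc 4, .ofNat 7, .negSucc 4, .ofNat 7, .negSucc 2, .ofNat 1, .ofNat 37, .negSucc 2],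
  [.negSucc 2, .negSucc 2, .negSucc 2, .negSucc 2, .negSucc 4, .ofNat 7, .negSucc 2, .negSucc 2, .negSucc 2, .negSucc 2,
  .ofNat 7, .negSucc 2, .negSucc 2, .negSucc 2, .negSucc 2, .negSucc 4, .ofNat 5, .ofNat 7, .negSucc 4, .ofNat 5,
  .negSucc 2, .negSucc 4, .ofNat 5, .ofNat 5, .ofNat 7, .negSucc 2, .negSucc 2, .negSucc 4, .ofNat 7, .negSucc 2,
  .negSucc 2, .negSucc 4, .ofNat 7, .negSucc 4, .ofNat 7, .negSucc 4, .ofNat 7, .negSucc 2, .ofNat 1, .ofNat 37],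
  [.negSucc 2, .negSucc 2, .negSucc 2, .negSucc 2, .negSucc 2, .negSucc 4, .ofNat 7, .negSucc 2, .negSucc 2, .negSucc 2,
  .ofNat 5, .ofNat 7, .negSucc 2, .negSucc 2, .negSucc 2, .negSucc 2, .negSucc 4, .ofNat 5, .ofNat 7, .negSucc 4,
  .negSucc 2, .negSucc 2, .negSucc 4, .ofNat 5, .ofNat 5, .ofNat 7, .negSucc 2, .negSucc 2, .negSucc 4, .ofNat 7, .ofNat
  37, .negSucc 2, .negSucc 4, .ofNat 7, .negSucc 4, .ofNat 7, .negSucc 4, .ofNat 7, .negSucc 2, .ofNat 1]]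

/-- Row `i`: 5 times the vector `G5 i` of the lattice. -/
def g5T : List (List ℤ) := [[.ofNat 21, .ofNat 1, .ofNat 1, .ofNat 1, .ofNat 6, .ofNat 6, .ofNat 6, .ofNat 1, .ofNat
  1, .ofNat 1, .ofNat 6, .ofNat 1, .ofNat 1, .ofNat 6, .ofNat 1, .ofNat 1, .ofNat 6, .ofNat 1, .ofNat 6, .ofNat 1,
  .ofNat 6, .ofNat 1, .ofNat 1, .ofNat 1, .ofNat 1, .ofNat 1, .ofNat 6, .ofNat 6, .ofNat 1, .ofNat 6, .ofNat 1, .ofNat
  1, .ofNat 1, .ofNat 1, .ofNat 6, .ofNat 1, .ofNat 1, .ofNat 1, .ofNat 1, .ofNat 1], [.ofNat 1, .ofNat 21, .ofNat 1,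
  .ofNat 1, .ofNat 1, .ofNat 6, .ofNat 6, .ofNat 6, .ofNat 1, .ofNat 1, .ofNat 1, .ofNat 6, .ofNat 1, .ofNat 1, .ofNat
  6, .ofNat 1, .ofNat 1, .ofNat 6, .ofNat 1, .ofNat 6, .ofNat 6, .ofNat 6, .ofNat 1, .ofNat 1, .ofNat 1, .ofNat 1,
  .ofNat 1, .ofNat 6, .ofNat 6, .ofNat 1, .ofNat 1, .ofNat 1, .ofNat 1, .ofNat 1, .ofNat 1, .ofNat 6, .ofNat 1, .ofNat
  1, .ofNat 1, .ofNat 1], [.ofNat 1, .ofNat 1, .ofNat 21, .ofNat 1, .ofNat 1, .ofNat 1, .ofNat 6, .ofNat 6, .ofNat 6,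
  .ofNat 1, .ofNat 6, .ofNat 1, .ofNat 6, .ofNat 1, .ofNat 1, .ofNat 6, .ofNat 1, .ofNat 1, .ofNat 6, .ofNat 1, .ofNat
  1, .ofNat 6, .ofNat 6, .ofNat 1, .ofNat 1, .ofNat 1, .ofNat 1, .ofNat 1, .ofNat 6, .ofNat 6, .ofNat 1, .ofNat 1,
  .ofNat 1, .ofNat 1, .ofNat 1, .ofNat 1, .ofNat 6, .ofNat 1, .ofNat 1, .ofNat 1], [.ofNat 1, .ofNat 1, .ofNat 1, .ofNat
  21, .ofNat 1, .ofNat 1, .ofNat 1, .ofNat 6, .ofNat 6, .ofNat 6, .ofNat 1, .ofNat 6, .ofNat 1, .ofNat 6, .ofNat 1,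
  .ofNat 1, .ofNat 6, .ofNat 1, .ofNat 1, .ofNat 6, .ofNat 6, .ofNat 1, .ofNat 6, .ofNat 6, .ofNat 1, .ofNat 1, .ofNat
  1, .ofNat 1, .ofNat 1, .ofNat 6, .ofNat 1, .ofNat 1, .ofNat 1, .ofNat 1, .ofNat 1, .ofNat 1, .ofNat 1, .ofNat 6,
  .ofNat 1, .ofNat 1], [.ofNat 6, .ofNat 1, .ofNat 1, .ofNat 1, .ofNat 21, .ofNat 1, .ofNat 1, .ofNat 1, .ofNat 6,
  .ofNat 6, .ofNat 6, .ofNat 1, .ofNat 6, .ofNat 1, .ofNat 6, .ofNat 1, .ofNat 1, .ofNat 6, .ofNat 1, .ofNat 1, .ofNat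
  6, .ofNat 6, .ofNat 1, .ofNat 6, .ofNat 6, .ofNat 1, .ofNat 1, .ofNat 1, .ofNat 1, .ofNat 1, .ofNat 1, .ofNat 1,
  .ofNat 1, .ofNat 1, .ofNat 1, .ofNat 1, .ofNat 1, .ofNat 1, .ofNat 6, .ofNat 1], [.ofNat 6, .ofNat 6, .ofNat 1, .ofNat
  1, .ofNat 1, .ofNat 21, .ofNat 1, .ofNat 1, .ofNat 1, .ofNat 6, .ofNat 1, .ofNat 6, .ofNat 1, .ofNat 6, .ofNat 1,
  .ofNat 6, .ofNat 1, .ofNat 1, .ofNat 6, .ofNat 1, .ofNat 1, .ofNat 6, .ofNat 6, .ofNat 1, .ofNat 6, .ofNat 6, .ofNat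
  1, .ofNat 1, .ofNat 1, .ofNat 1, .ofNat 1, .ofNat 1, .ofNat 1, .ofNat 1, .ofNat 1, .ofNat 1, .ofNat 1, .ofNat 1,
  .ofNat 1, .ofNat 6], [.ofNat 6, .ofNat 6, .ofNat 6, .ofNat 1, .ofNat 1, .ofNat 1, .ofNat 21, .ofNat 1, .ofNat 1,
  .ofNat 1, .ofNat 1, .ofNat 1, .ofNat 6, .ofNat 1, .ofNat 6, .ofNat 1, .ofNat 6, .ofNat 1, .ofNat 1, .ofNat 6, .ofNat
  1, .ofNat 1, .ofNat 6, .ofNat 6, .ofNat 1, .ofNat 6, .ofNat 6, .ofNat 1, .ofNat 1, .ofNat 1, .ofNat 6, .ofNat 1,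
  .ofNat 1, .ofNat 1, .ofNat 1, .ofNat 1, .ofNat 1, .ofNat 1, .ofNat 1, .ofNat 1], [.ofNat 1, .ofNat 6, .ofNat 6, .ofNat
  6, .ofNat 1, .ofNat 1, .ofNat 1, .ofNat 21, .ofNat 1, .ofNat 1, .ofNat 6, .ofNat 1, .ofNat 1, .ofNat 6, .ofNat 1,
  .ofNat 6, .ofNat 1, .ofNat 6, .ofNat 1, .ofNat 1, .ofNat 1, .ofNat 1, .ofNat 1, .ofNat 6, .ofNat 6, .ofNat 1, .ofNat
  6, .ofNat 6, .ofNat 1, .ofNat 1, .ofNat 1, .ofNat 6, .ofNat 1, .ofNat 1, .ofNat 1, .ofNat 1, .ofNat 1, .ofNat 1,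
  .ofNat 1, .ofNat 1], [.ofNat 1, .ofNat 1, .ofNat 6, .ofNat 6, .ofNat 6, .ofNat 1, .ofNat 1, .ofNat 1, .ofNat 21,
  .ofNat 1, .ofNat 1, .ofNat 6, .ofNat 1, .ofNat 1, .ofNat 6, .ofNat 1, .ofNat 6, .ofNat 1, .ofNat 6, .ofNat 1, .ofNat
  1, .ofNat 1, .ofNat 1, .ofNat 1, .ofNat 6, .ofNat 6, .ofNat 1, .ofNat 6, .ofNat 6, .ofNat 1, .ofNat 1, .ofNat 1,
  .ofNat 6, .ofNat 1, .ofNat 1, .ofNat 1, .ofNat 1, .ofNat 1, .ofNat 1, .ofNat 1], [.ofNat 1, .ofNat 1, .ofNat 1, .ofNat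
  6, .ofNat 6, .ofNat 6, .ofNat 1, .ofNat 1, .ofNat 1, .ofNat 21, .ofNat 1, .ofNat 1, .ofNat 6, .ofNat 1, .ofNat 1,
  .ofNat 6, .ofNat 1, .ofNat 6, .ofNat 1, .ofNat 6, .ofNat 1, .ofNat 1, .ofNat 1, .ofNat 1, .ofNat 1, .ofNat 6, .ofNat
  6, .ofNat 1, .ofNat 6, .ofNat 6, .ofNat 1, .ofNat 1, .ofNat 1, .ofNat 6, .ofNat 1, .ofNat 1, .ofNat 1, .ofNat 1,
  .ofNat 1, .ofNat 1], [.ofNat 6, .ofNat 1, .ofNat 6, .ofNat 1, .ofNat 6, .ofNat 1, .ofNat 1, .ofNat 6, .ofNat 1, .ofNat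
  1, .ofNat 21, .ofNat 6, .ofNat 1, .ofNat 1, .ofNat 1, .ofNat 6, .ofNat 1, .ofNat 1, .ofNat 1, .ofNat 6, .ofNat 6,
  .ofNat 1, .ofNat 1, .ofNat 1, .ofNat 1, .ofNat 1, .ofNat 1, .ofNat 1, .ofNat 1, .ofNat 1, .ofNat 6, .ofNat 1, .ofNat
  6, .ofNat 6, .ofNat 1, .ofNat 1, .ofNat 1, .ofNat 1, .ofNat 1, .ofNat 6], [.ofNat 1, .ofNat 6, .ofNat 1, .ofNat 6,
  .ofNat 1, .ofNat 6, .ofNat 1, .ofNat 1, .ofNat 6, .ofNat 1, .ofNat 6, .ofNat 21, .ofNat 6, .ofNat 1, .ofNat 1, .ofNat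
  1, .ofNat 6, .ofNat 1, .ofNat 1, .ofNat 1, .ofNat 1, .ofNat 6, .ofNat 1, .ofNat 1, .ofNat 1, .ofNat 1, .ofNat 1,
  .ofNat 1, .ofNat 1, .ofNat 1, .ofNat 6, .ofNat 6, .ofNat 1, .ofNat 6, .ofNat 6, .ofNat 1, .ofNat 1, .ofNat 1, .ofNat
  1, .ofNat 1], [.ofNat 1, .ofNat 1, .ofNat 6, .ofNat 1, .ofNat 6, .ofNat 1, .ofNat 6, .ofNat 1, .ofNat 1, .ofNat 6,
  .ofNat 1, .ofNat 6, .ofNat 21, .ofNat 6, .ofNat 1, .ofNat 1, .ofNat 1, .ofNat 6, .ofNat 1, .ofNat 1, .ofNat 1, .ofNat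
  1, .ofNat 6, .ofNat 1, .ofNat 1, .ofNat 1, .ofNat 1, .ofNat 1, .ofNat 1, .ofNat 1, .ofNat 1, .ofNat 6, .ofNat 6,
  .ofNat 1, .ofNat 6, .ofNat 6, .ofNat 1, .ofNat 1, .ofNat 1, .ofNat 1], [.ofNat 6, .ofNat 1, .ofNat 1, .ofNat 6, .ofNat
  1, .ofNat 6, .ofNat 1, .ofNat 6, .ofNat 1, .ofNat 1, .ofNat 1, .ofNat 1, .ofNat 6, .ofNat 21, .ofNat 6, .ofNat 1,
  .ofNat 1, .ofNat 1, .ofNat 6, .ofNat 1, .ofNat 1, .ofNat 1, .ofNat 1, .ofNat 6, .ofNat 1, .ofNat 1, .ofNat 1, .ofNat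
  1, .ofNat 1, .ofNat 1, .ofNat 1, .ofNat 1, .ofNat 6, .ofNat 6, .ofNat 1, .ofNat 6, .ofNat 6, .ofNat 1, .ofNat 1,
  .ofNat 1], [.ofNat 1, .ofNat 6, .ofNat 1, .ofNat 1, .ofNat 6, .ofNat 1, .ofNat 6, .ofNat 1, .ofNat 6, .ofNat 1, .ofNat
  1, .ofNat 1, .ofNat 1, .ofNat 6, .ofNat 21, .ofNat 6, .ofNat 1, .ofNat 1, .ofNat 1, .ofNat 6, .ofNat 1, .ofNat 1,
  .ofNat 1, .ofNat 1, .ofNat 6, .ofNat 1, .ofNat 1, .ofNat 1, .ofNat 1, .ofNat 1, .ofNat 1, .ofNat 1, .ofNat 1, .ofNat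
  6, .ofNat 6, .ofNat 1, .ofNat 6, .ofNat 6, .ofNat 1, .ofNat 1], [.ofNat 1, .ofNat 1, .ofNat 6, .ofNat 1, .ofNat 1,
  .ofNat 6, .ofNat 1, .ofNat 6, .ofNat 1, .ofNat 6, .ofNat 6, .ofNat 1, .ofNat 1, .ofNat 1, .ofNat 6, .ofNat 21, .ofNat
  6, .ofNat 1, .ofNat 1, .ofNat 1, .ofNat 1, .ofNat 1, .ofNat 1, .ofNat 1, .ofNat 1, .ofNat 6, .ofNat 1, .ofNat 1,
  .ofNat 1, .ofNat 1, .ofNat 1, .ofNat 1, .ofNat 1, .ofNat 1, .ofNat 6, .ofNat 6, .ofNat 1, .ofNat 6, .ofNat 6, .ofNat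
  1], [.ofNat 6, .ofNat 1, .ofNat 1, .ofNat 6, .ofNat 1, .ofNat 1, .ofNat 6, .ofNat 1, .ofNat 6, .ofNat 1, .ofNat 1,
  .ofNat 6, .ofNat 1, .ofNat 1, .ofNat 1, .ofNat 6, .ofNat 21, .ofNat 6, .ofNat 1, .ofNat 1, .ofNat 1, .ofNat 1, .ofNat
  1, .ofNat 1, .ofNat 1, .ofNat 1, .ofNat 6, .ofNat 1, .ofNat 1, .ofNat 1, .ofNat 1, .ofNat 1, .ofNat 1, .ofNat 1,
  .ofNat 1, .ofNat 6, .ofNat 6, .ofNat 1, .ofNat 6, .ofNat 6], [.ofNat 1, .ofNat 6, .ofNat 1, .ofNat 1, .ofNat 6, .ofNat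
  1, .ofNat 1, .ofNat 6, .ofNat 1, .ofNat 6, .ofNat 1, .ofNat 1, .ofNat 6, .ofNat 1, .ofNat 1, .ofNat 1, .ofNat 6,
  .ofNat 21, .ofNat 6, .ofNat 1, .ofNat 1, .ofNat 1, .ofNat 1, .ofNat 1, .ofNat 1, .ofNat 1, .ofNat 1, .ofNat 6, .ofNat
  1, .ofNat 1, .ofNat 6, .ofNat 1, .ofNat 1, .ofNat 1, .ofNat 1, .ofNat 1, .ofNat 6, .ofNat 6, .ofNat 1, .ofNat 6],
  [.ofNat 6, .ofNat 1, .ofNat 6, .ofNat 1, .ofNat 1, .ofNat 6, .ofNat 1, .ofNat 1, .ofNat 6, .ofNat 1, .ofNat 1, .ofNat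
  1, .ofNat 1, .ofNat 6, .ofNat 1, .ofNat 1, .ofNat 1, .ofNat 6, .ofNat 21, .ofNat 6, .ofNat 1, .ofNat 1, .ofNat 1,
  .ofNat 1, .ofNat 1, .ofNat 1, .ofNat 1, .ofNat 1, .ofNat 6, .ofNat 1, .ofNat 6, .ofNat 6, .ofNat 1, .ofNat 1, .ofNat
  1, .ofNat 1, .ofNat 1, .ofNat 6, .ofNat 6, .ofNat 1], [.ofNat 1, .ofNat 6, .ofNat 1, .ofNat 6, .ofNat 1, .ofNat 1,
  .ofNat 6, .ofNat 1, .ofNat 1, .ofNat 6, .ofNat 6, .ofNat 1, .ofNat 1, .ofNat 1, .ofNat 6, .ofNat 1, .ofNat 1, .ofNat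
  1, .ofNat 6, .ofNat 21, .ofNat 1, .ofNat 1, .ofNat 1, .ofNat 1, .ofNat 1, .ofNat 1, .ofNat 1, .ofNat 1, .ofNat 1,
  .ofNat 6, .ofNat 1, .ofNat 6, .ofNat 6, .ofNat 1, .ofNat 1, .ofNat 1, .ofNat 1, .ofNat 1, .ofNat 6, .ofNat 6], [.ofNat
  6, .ofNat 6, .ofNat 1, .ofNat 6, .ofNat 6, .ofNat 1, .ofNat 1, .ofNat 1, .ofNat 1, .ofNat 1, .ofNat 6, .ofNat 1,
  .ofNat 1, .ofNat 1, .ofNat 1, .ofNat 1, .ofNat 1, .ofNat 1, .ofNat 1, .ofNat 1, .ofNat 21, .ofNat 1, .ofNat 6, .ofNat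
  1, .ofNat 1, .ofNat 6, .ofNat 1, .ofNat 1, .ofNat 6, .ofNat 1, .ofNat 1, .ofNat 6, .ofNat 1, .ofNat 1, .ofNat 1,
  .ofNat 6, .ofNat 6, .ofNat 6, .ofNat 1, .ofNat 1], [.ofNat 1, .ofNat 6, .ofNat 6, .ofNat 1, .ofNat 6, .ofNat 6, .ofNat
  1, .ofNat 1, .ofNat 1, .ofNat 1, .ofNat 1, .ofNat 6, .ofNat 1, .ofNat 1, .ofNat 1, .ofNat 1, .ofNat 1, .ofNat 1,
  .ofNat 1, .ofNat 1, .ofNat 1, .ofNat 21, .ofNat 1, .ofNat 6, .ofNat 1, .ofNat 1, .ofNat 6, .ofNat 1, .ofNat 1, .ofNat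
  6, .ofNat 1, .ofNat 1, .ofNat 6, .ofNat 1, .ofNat 1, .ofNat 1, .ofNat 6, .ofNat 6, .ofNat 6, .ofNat 1], [.ofNat 1,
  .ofNat 1, .ofNat 6, .ofNat 6, .ofNat 1, .ofNat 6, .ofNat 6, .ofNat 1, .ofNat 1, .ofNat 1, .ofNat 1, .ofNat 1, .ofNat
  6, .ofNat 1, .ofNat 1, .ofNat 1, .ofNat 1, .ofNat 1, .ofNat 1, .ofNat 1, .ofNat 6, .ofNat 1, .ofNat 21, .ofNat 1,
  .ofNat 6, .ofNat 1, .ofNat 1, .ofNat 6, .ofNat 1, .ofNat 1, .ofNat 1, .ofNat 1, .ofNat 1, .ofNat 6, .ofNat 1, .ofNat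
  1, .ofNat 1, .ofNat 6, .ofNat 6, .ofNat 6], [.ofNat 1, .ofNat 1, .ofNat 1, .ofNat 6, .ofNat 6, .ofNat 1, .ofNat 6,
  .ofNat 6, .ofNat 1, .ofNat 1, .ofNat 1, .ofNat 1, .ofNat 1, .ofNat 6, .ofNat 1, .ofNat 1, .ofNat 1, .ofNat 1, .ofNat
  1, .ofNat 1, .ofNat 1, .ofNat 6, .ofNat 1, .ofNat 21, .ofNat 1, .ofNat 6, .ofNat 1, .ofNat 1, .ofNat 6, .ofNat 1,
  .ofNat 6, .ofNat 1, .ofNat 1, .ofNat 1, .ofNat 6, .ofNat 1, .ofNat 1, .ofNat 1, .ofNat 6, .ofNat 6], [.ofNat 1, .ofNat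
  1, .ofNat 1, .ofNat 1, .ofNat 6, .ofNat 6, .ofNat 1, .ofNat 6, .ofNat 6, .ofNat 1, .ofNat 1, .ofNat 1, .ofNat 1,
  .ofNat 1, .ofNat 6, .ofNat 1, .ofNat 1, .ofNat 1, .ofNat 1, .ofNat 1, .ofNat 1, .ofNat 1, .ofNat 6, .ofNat 1, .ofNat
  21, .ofNat 1, .ofNat 6, .ofNat 1, .ofNat 1, .ofNat 6, .ofNat 6, .ofNat 6, .ofNat 1, .ofNat 1, .ofNat 1, .ofNat 6,
  .ofNat 1, .ofNat 1, .ofNat 1, .ofNat 6], [.ofNat 1, .ofNat 1, .ofNat 1, .ofNat 1, .ofNat 1, .ofNat 6, .ofNat 6, .ofNat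
  1, .ofNat 6, .ofNat 6, .ofNat 1, .ofNat 1, .ofNat 1, .ofNat 1, .ofNat 1, .ofNat 6, .ofNat 1, .ofNat 1, .ofNat 1,
  .ofNat 1, .ofNat 6, .ofNat 1, .ofNat 1, .ofNat 6, .ofNat 1, .ofNat 21, .ofNat 1, .ofNat 6, .ofNat 1, .ofNat 1, .ofNat
  6, .ofNat 6, .ofNat 6, .ofNat 1, .ofNat 1, .ofNat 1, .ofNat 6, .ofNat 1, .ofNat 1, .ofNat 1], [.ofNat 6, .ofNat 1,
  .ofNat 1, .ofNat 1, .ofNat 1, .ofNat 1, .ofNat 6, .ofNat 6, .ofNat 1, .ofNat 6, .ofNat 1, .ofNat 1, .ofNat 1, .ofNat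
  1, .ofNat 1, .ofNat 1, .ofNat 6, .ofNat 1, .ofNat 1, .ofNat 1, .ofNat 1, .ofNat 6, .ofNat 1, .ofNat 1, .ofNat 6,
  .ofNat 1, .ofNat 21, .ofNat 1, .ofNat 6, .ofNat 1, .ofNat 1, .ofNat 6, .ofNat 6, .ofNat 6, .ofNat 1, .ofNat 1, .ofNat
  1, .ofNat 6, .ofNat 1, .ofNat 1], [.ofNat 6, .ofNat 6, .ofNat 1, .ofNat 1, .ofNat 1, .ofNat 1, .ofNat 1, .ofNat 6,
  .ofNat 6, .ofNat 1, .ofNat 1, .ofNat 1, .ofNat 1, .ofNat 1, .ofNat 1, .ofNat 1, .ofNat 1, .ofNat 6, .ofNat 1, .ofNat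
  1, .ofNat 1, .ofNat 1, .ofNat 6, .ofNat 1, .ofNat 1, .ofNat 6, .ofNat 1, .ofNat 21, .ofNat 1, .ofNat 6, .ofNat 1,
  .ofNat 1, .ofNat 6, .ofNat 6, .ofNat 6, .ofNat 1, .ofNat 1, .ofNat 1, .ofNat 6, .ofNat 1], [.ofNat 1, .ofNat 6, .ofNat
  6, .ofNat 1, .ofNat 1, .ofNat 1, .ofNat 1, .ofNat 1, .ofNat 6, .ofNat 6, .ofNat 1, .ofNat 1, .ofNat 1, .ofNat 1,
  .ofNat 1, .ofNat 1, .ofNat 1, .ofNat 1, .ofNat 6, .ofNat 1, .ofNat 6, .ofNat 1, .ofNat 1, .ofNat 6, .ofNat 1, .ofNat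
  1, .ofNat 6, .ofNat 1, .ofNat 21, .ofNat 1, .ofNat 1, .ofNat 1, .ofNat 1, .ofNat 6, .ofNat 6, .ofNat 6, .ofNat 1,
  .ofNat 1, .ofNat 1, .ofNat 6], [.ofNat 6, .ofNat 1, .ofNat 6, .ofNat 6, .ofNat 1, .ofNat 1, .ofNat 1, .ofNat 1, .ofNat
  1, .ofNat 6, .ofNat 1, .ofNat 1, .ofNat 1, .ofNat 1, .ofNat 1, .ofNat 1, .ofNat 1, .ofNat 1, .ofNat 1, .ofNat 6,
  .ofNat 1, .ofNat 6, .ofNat 1, .ofNat 1, .ofNat 6, .ofNat 1, .ofNat 1, .ofNat 6, .ofNat 1, .ofNat 21, .ofNat 6, .ofNat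
  1, .ofNat 1, .ofNat 1, .ofNat 6, .ofNat 6, .ofNat 6, .ofNat 1, .ofNat 1, .ofNat 1], [.ofNat 1, .ofNat 1, .ofNat 1,
  .ofNat 1, .ofNat 1, .ofNat 1, .ofNat 6, .ofNat 1, .ofNat 1, .ofNat 1, .ofNat 6, .ofNat 6, .ofNat 1, .ofNat 1, .ofNat
  1, .ofNat 1, .ofNat 1, .ofNat 6, .ofNat 6, .ofNat 1, .ofNat 1, .ofNat 1, .ofNat 1, .ofNat 6, .ofNat 6, .ofNat 6,
  .ofNat 1, .ofNat 1, .ofNat 1, .ofNat 6, .ofNat 21, .ofNat 1, .ofNat 1, .ofNat 6, .ofNat 1, .ofNat 6, .ofNat 1, .ofNat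
  6, .ofNat 1, .ofNat 1], [.ofNat 1, .ofNat 1, .ofNat 1, .ofNat 1, .ofNat 1, .ofNat 1, .ofNat 1, .ofNat 6, .ofNat 1,
  .ofNat 1, .ofNat 1, .ofNat 6, .ofNat 6, .ofNat 1, .ofNat 1, .ofNat 1, .ofNat 1, .ofNat 1, .ofNat 6, .ofNat 6, .ofNat
  6, .ofNat 1, .ofNat 1, .ofNat 1, .ofNat 6, .ofNat 6, .ofNat 6, .ofNat 1, .ofNat 1, .ofNat 1, .ofNat 1, .ofNat 21,
  .ofNat 1, .ofNat 1, .ofNat 6, .ofNat 1, .ofNat 6, .ofNat 1, .ofNat 6, .ofNat 1], [.ofNat 1, .ofNat 1, .ofNat 1, .ofNat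
  1, .ofNat 1, .ofNat 1, .ofNat 1, .ofNat 1, .ofNat 6, .ofNat 1, .ofNat 6, .ofNat 1, .ofNat 6, .ofNat 6, .ofNat 1,
  .ofNat 1, .ofNat 1, .ofNat 1, .ofNat 1, .ofNat 6, .ofNat 1, .ofNat 6, .ofNat 1, .ofNat 1, .ofNat 1, .ofNat 6, .ofNat
  6, .ofNat 6, .ofNat 1, .ofNat 1, .ofNat 1, .ofNat 1, .ofNat 21, .ofNat 1, .ofNat 1, .ofNat 6, .ofNat 1, .ofNat 6,
  .ofNat 1, .ofNat 6], [.ofNat 1, .ofNat 1, .ofNat 1, .ofNat 1, .ofNat 1, .ofNat 1, .ofNat 1, .ofNat 1, .ofNat 1, .ofNat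
  6, .ofNat 6, .ofNat 6, .ofNat 1, .ofNat 6, .ofNat 6, .ofNat 1, .ofNat 1, .ofNat 1, .ofNat 1, .ofNat 1, .ofNat 1,
  .ofNat 1, .ofNat 6, .ofNat 1, .ofNat 1, .ofNat 1, .ofNat 6, .ofNat 6, .ofNat 6, .ofNat 1, .ofNat 6, .ofNat 1, .ofNat
  1, .ofNat 21, .ofNat 1, .ofNat 1, .ofNat 6, .ofNat 1, .ofNat 6, .ofNat 1], [.ofNat 6, .ofNat 1, .ofNat 1, .ofNat 1,
  .ofNat 1, .ofNat 1, .ofNat 1, .ofNat 1, .ofNat 1, .ofNat 1, .ofNat 1, .ofNat 6, .ofNat 6, .ofNat 1, .ofNat 6, .ofNat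
  6, .ofNat 1, .ofNat 1, .ofNat 1, .ofNat 1, .ofNat 1, .ofNat 1, .ofNat 1, .ofNat 6, .ofNat 1, .ofNat 1, .ofNat 1,
  .ofNat 6, .ofNat 6, .ofNat 6, .ofNat 1, .ofNat 6, .ofNat 1, .ofNat 1, .ofNat 21, .ofNat 1, .ofNat 1, .ofNat 6, .ofNat
  1, .ofNat 6], [.ofNat 1, .ofNat 6, .ofNat 1, .ofNat 1, .ofNat 1, .ofNat 1, .ofNat 1, .ofNat 1, .ofNat 1, .ofNat 1,
  .ofNat 1, .ofNat 1, .ofNat 6, .ofNat 6, .ofNat 1, .ofNat 6, .ofNat 6, .ofNat 1, .ofNat 1, .ofNat 1, .ofNat 6, .ofNat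
  1, .ofNat 1, .ofNat 1, .ofNat 6, .ofNat 1, .ofNat 1, .ofNat 1, .ofNat 6, .ofNat 6, .ofNat 6, .ofNat 1, .ofNat 6,
  .ofNat 1, .ofNat 1, .ofNat 21, .ofNat 1, .ofNat 1, .ofNat 6, .ofNat 1], [.ofNat 1, .ofNat 1, .ofNat 6, .ofNat 1,
  .ofNat 1, .ofNat 1, .ofNat 1, .ofNat 1, .ofNat 1, .ofNat 1, .ofNat 1, .ofNat 1, .ofNat 1, .ofNat 6, .ofNat 6, .ofNat
  1, .ofNat 6, .ofNat 6, .ofNat 1, .ofNat 1, .ofNat 6, .ofNat 6, .ofNat 1, .ofNat 1, .ofNat 1, .ofNat 6, .ofNat 1,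
  .ofNat 1, .ofNat 1, .ofNat 6, .ofNat 1, .ofNat 6, .ofNat 1, .ofNat 6, .ofNat 1, .ofNat 1, .ofNat 21, .ofNat 1, .ofNat
  1, .ofNat 6], [.ofNat 1, .ofNat 1, .ofNat 1, .ofNat 6, .ofNat 1, .ofNat 1, .ofNat 1, .ofNat 1, .ofNat 1, .ofNat 1,
  .ofNat 1, .ofNat 1, .ofNat 1, .ofNat 1, .ofNat 6, .ofNat 6, .ofNat 1, .ofNat 6, .ofNat 6, .ofNat 1, .ofNat 6, .ofNat
  6, .ofNat 6, .ofNat 1, .ofNat 1, .ofNat 1, .ofNat 6, .ofNat 1, .ofNat 1, .ofNat 1, .ofNat 6, .ofNat 1, .ofNat 6,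
  .ofNat 1, .ofNat 6, .ofNat 1, .ofNat 1, .ofNat 21, .ofNat 1, .ofNat 1], [.ofNat 1, .ofNat 1, .ofNat 1, .ofNat 1,
  .ofNat 6, .ofNat 1, .ofNat 1, .ofNat 1, .ofNat 1, .ofNat 1, .ofNat 1, .ofNat 1, .ofNat 1, .ofNat 1, .ofNat 1, .ofNat
  6, .ofNat 6, .ofNat 1, .ofNat 6, .ofNat 6, .ofNat 1, .ofNat 6, .ofNat 6, .ofNat 6, .ofNat 1, .ofNat 1, .ofNat 1,
  .ofNat 6, .ofNat 1, .ofNat 1, .ofNat 1, .ofNat 6, .ofNat 1, .ofNat 6, .ofNat 1, .ofNat 6, .ofNat 1, .ofNat 1, .ofNat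
  21, .ofNat 1], [.ofNat 1, .ofNat 1, .ofNat 1, .ofNat 1, .ofNat 1, .ofNat 6, .ofNat 1, .ofNat 1, .ofNat 1, .ofNat 1,
  .ofNat 6, .ofNat 1, .ofNat 1, .ofNat 1, .ofNat 1, .ofNat 1, .ofNat 6, .ofNat 6, .ofNat 1, .ofNat 6, .ofNat 1, .ofNat
  1, .ofNat 6, .ofNat 6, .ofNat 6, .ofNat 1, .ofNat 1, .ofNat 1, .ofNat 6, .ofNat 1, .ofNat 1, .ofNat 1, .ofNat 6,
  .ofNat 1, .ofNat 6, .ofNat 1, .ofNat 6, .ofNat 1, .ofNat 1, .ofNat 21]]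

/-- The permutation `δ` of the frame. -/
def del (i : ℕ) : ℕ := i / 10 * 10 + (i % 10 + 1) % 10

theorem n1 : (allN 40 fun i => allN 40 fun j => en2 g3T i j == en2 cb5P i j + en2 ca5P i j) = true :=
  all4 (by decide +kernel) (by decide +kernel) (by decide +kernel) (by decide +kernel)

theorem n2 : (allN 40 fun i => allN 40 fun j => 2 * en2 g2T i j == en2 cb5P i j + 4 * en2 ca5P (del i) j + 1) = true :=
  all4 (by decide +kernel) (by decide +kernel) (by decide +kernel) (by decide +kernel)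

theorem n3 : (allN 40 fun i => allN 40 fun j => en2 g5T i j == en2 ca5P i j + 3) = true :=
  all4 (by decide +kernel) (by decide +kernel) (by decide +kernel) (by decide +kernel)

theorem n5 : (allN 40 fun i => allN 40 fun j => dotL (cb5P.getD i []) (ca5P.getD j []) == 0) = true :=
  all4 (by decide +kernel) (by decide +kernel) (by decide +kernel) (by decide +kernel)

theorem n6 : (allN 40 fun i => (dotL (cb5P.getD i []) (List.replicate 40 1) == 0) &&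
    (dotL (ca5P.getD i []) (List.replicate 40 1) == 0)) = true := by decide +kernel

theorem n7 : (allN 40 fun i => allN 40 fun j => 5 * en2 cb5P i j + 4 * en2 ca5P i j + 3 == if i = j then 120 else 0) = true :=
  all4 (by decide +kernel) (by decide +kernel) (by decide +kernel) (by decide +kernel)

/-- The gluing at 3. -/
theorem n8 : (allN 40 fun i => allN 40 fun j =>
    (!(allN 40 fun m => (8 * en2 cb5P i m + 10 * en2 ca5P j m) % 3 == 0) || i == j) &&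
    !(allN 40 fun m => (8 * en2 cb5P i m - 10 * en2 ca5P j m) % 3 == 0)) = true :=
  all4 (by decide +kernel) (by decide +kernel) (by decide +kernel) (by decide +kernel)

/-- The gluing at 2. -/
theorem n9 : (allN 40 fun i => allN 40 fun j =>
    (!(allN 40 fun m => (3 * en2 cb5P i m + 60 * en2 ca5P j (del m) + 5) % 8 == 0) || j == del i) &&
    (!(allN 40 fun m => (3 * en2 cb5P i m - 60 * en2 ca5P j (del m) + 5) % 8 == 0) || j == del i) &&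
    (!(allN 40 fun m => (3 * en2 cb5P i m + 60 * en2 ca5P j (del m) - 5) % 8 == 0)) &&
    (!(allN 40 fun m => (3 * en2 cb5P i m - 60 * en2 ca5P j (del m) - 5) % 8 == 0))) = true :=
  all4 (by decide +kernel) (by decide +kernel) (by decide +kernel) (by decide +kernel)

/-- The diagonal blocks of the adjacency matrix are different. -/
theorem n10 : (allN 4 fun a => allN 40 fun i =>
    !(allN 10 fun k => en2 g3T i (i / 10 * 10 + (i % 10 + k) % 10) == en2 g3T (10 * a) (10 * a + k)) || i / 10 == a) = true := by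
  decide +kernel

/-- The rows of the adjacency matrix have no periods. -/
theorem n11 : (allN 4 fun b => allN 10 fun s => allN 10 fun s' => b == 0 ||
    !(allN 10 fun k => en2 g3T s (10 * b + (s' + k) % 10) == en2 g3T 0 (10 * b + k)) || s == s') = true := by
  decide +kernel

end Pool.Agent.Helper60.E8Z
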