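import Mathlib

/-!
# Project E8Z, (E2): a verified enumeration of the short vectors of a positive definite form
-/

set_option autoImplicit false

namespace Pool.Agent.Helper60.E8Z

/-- Dot product of lists of integers (up to the shorter length). -/
def dotL : List ℤ → List ℤ → ℤ
  | a :: as, b :: bs => a * b + dotL as bs
  | _, _ => 0

@[simp] theorem dotL_nil_left (b : List ℤ) : dotL [] b = 0 := by cases b <;> rfl

@[simp] theorem dotL_nil_right (a : List ℤ) : dotL a [] = 0 := by cases a <;> rfl

@[simp] theorem dotL_cons (a b : ℤ) (as bs : List ℤ) : dotL (a :: as) (b :: bs) = a * b + dotL as bs := rfl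

theorem dotL_comm (a b : List ℤ) : dotL a b = dotL b a := by
  induction a generalizing b with
  | nil => simp
  | cons x a ih =>
    cases b with
    | nil => simp
    | cons y b => rw [dotL_cons, dotL_cons, ih, mul_comm]

theorem dotL_append {a a' : List ℤ} (b b' : List ℤ) (h : a.length = a'.length) :
    dotL (a ++ b) (a' ++ b') = dotL a a' + dotL b b' := by
  induction a generalizing a' with
  | nil =>
    cases a' with
    | nil => simp
    | cons y a' => simp at h
  | cons x a ih =>
    cases a' with
    | nil => simp at h
    | cons y a' =>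
      rw [List.cons_append, List.cons_append, dotL_cons, dotL_cons, ih (by simpa using h)]
      ring

theorem dotL_eq_sum {a b : List ℤ} {N : ℕ} (h : a.length ≤ N ∨ b.length ≤ N) :
    dotL a b = ∑ i ∈ Finset.range N, a.getD i 0 * b.getD i 0 := by
  induction N generalizing a b with
  | zero =>
    rw [Finset.sum_range_zero]
    rcases h with h | h
    · rw [List.length_eq_zero_iff.1 (Nat.le_zero.1 h), dotL_nil_left]
    · rw [List.length_eq_zero_iff.1 (Nat.le_zero.1 h), dotL_nil_right]
  | succ N ih =>
    rw [Finset.sum_range_succ']
    cases a with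
    | nil => simp
    | cons x a =>
      cases b with
      | nil => simp
      | cons y b =>
        rw [dotL_cons, ih (by simpa using h)]
        simp only [List.getD_cons_succ, List.getD_cons_zero]
        ring

theorem dotL_fin {a b : List ℤ} {N : ℕ} (h : a.length ≤ N ∨ b.length ≤ N) :
    dotL a b = ∑ i : Fin N, a.getD i 0 * b.getD i 0 := by
  rw [dotL_eq_sum h, Finset.sum_range]

/-- A row of the triangular form: weight `W`, bound `b` of the coordinate, leading coefficient `d`, coefficients `c` of the previous coordinates. -/
structure Row where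
  W : ℤ
  b : ℕ
  d : ℤ
  c : List ℤ

/-- The candidates `-b, …, b`. -/
def cand (b : ℕ) : List ℤ := (List.range (2 * b + 1)).map fun i : ℕ => (i : ℤ) - b

theorem mem_cand {b : ℕ} {v : ℤ} (h : |v| ≤ b) : v ∈ cand b := by
  rw [abs_le] at h
  unfold cand
  rw [List.mem_map]
  refine ⟨(v + b).toNat, ?_, ?_⟩
  · rw [List.mem_range]
    omega
  · rw [Int.toNat_of_nonneg (by omega)]
    ring

/-- The enumeration: all vectors `acc ++ vs` with `∑ W (d v + c · acc) ^ 2 ≤ r` over the remaining rows satisfy `leaf` (with the remaining `r`). -/
def enum (leaf : List ℤ → ℤ → Bool) : List Row → List ℤ → ℤ → Bool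
  | [], acc, r => leaf acc r
  | row :: rows, acc, r =>
    (row.c.length == acc.length) && decide (0 < row.W) && decide (0 < row.d) &&
    (fun s : ℤ =>
      decide (|s| < row.d * (row.b + 1)) && decide (r < row.W * (row.d * (row.b + 1) - |s|) ^ 2) &&
      (cand row.b).all fun v => (fun r' : ℤ => if r' < 0 then true else enum leaf rows (acc ++ [v]) r')
        (r - row.W * (row.d * v + s) ^ 2)) (dotL row.c acc)

/-- The value of the form on the remaining rows. -/
def valE : List Row → List ℤ → ℤ
  | [], _ => 0
  | row :: rows, v => row.W * dotL (row.c ++ [row.d]) v ^ 2 + valE rows v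

theorem valE_nonneg {rows : List Row} (h : ∀ row ∈ rows, 0 < row.W) (v : List ℤ) : 0 ≤ valE rows v := by
  induction rows with
  | nil => exact le_refl 0
  | cons row rows ih =>
    have h1 := h row List.mem_cons_self
    have h2 := ih fun r hr => h r (List.mem_cons_of_mem _ hr)
    unfold valE
    positivity

/-- Soundness. -/
theorem enum_sound {leaf : List ℤ → ℤ → Bool} {rows : List Row} (hW : ∀ row ∈ rows, 0 < row.W) {acc : List ℤ} {r : ℤ}
    (h : enum leaf rows acc r = true)
    {vs : List ℤ} (hl : vs.length = rows.length) (hr : valE rows (acc ++ vs) ≤ r) :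
    leaf (acc ++ vs) (r - valE rows (acc ++ vs)) = true := by
  induction rows generalizing acc r vs with
  | nil =>
    have h1 : vs = [] := List.length_eq_zero_iff.1 (by simpa using hl)
    subst h1
    rw [List.append_nil]
    unfold valE
    rw [sub_zero]
    exact h
  | cons row rows ih =>
    cases vs with
    | nil => simp at hl
    | cons v vs =>
      unfold enum at h
      simp only [Bool.and_eq_true, beq_iff_eq, decide_eq_true_eq, List.all_eq_true] at h
      obtain ⟨⟨⟨hc, hW0⟩, hd⟩, ⟨hs, hb⟩, hall⟩ := h
      set s := dotL row.c acc with hsd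
      have hdot : dotL (row.c ++ [row.d]) (acc ++ v :: vs) = row.d * v + s := by
        rw [dotL_append _ _ hc, dotL_cons, dotL_nil_left, hsd]
        ring
      have hrest : 0 ≤ valE rows (acc ++ v :: vs) := valE_nonneg (fun r hr => hW r (List.mem_cons_of_mem _ hr)) _
      have hval : valE (row :: rows) (acc ++ v :: vs) = row.W * (row.d * v + s) ^ 2 + valE rows (acc ++ v :: vs) := by
        rw [← hdot]
        rfl
      rw [hval] at hr ⊢
      have hv : |v| ≤ row.b := by
        by_contra hcon
        rw [not_le] at hcon
        have h1 : (row.b : ℤ) + 1 ≤ |v| := by omega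
        have h2 : row.d * (row.b + 1) - |s| ≤ |row.d * v + s| := by
          have h3 : |row.d * v| ≤ |row.d * v + s| + |s| := by
            have h4 := abs_sub (row.d * v + s) s
            rwa [add_sub_cancel_right] at h4
          rw [abs_mul, abs_of_pos hd] at h3
          nlinarith
        have h5 : (row.d * (row.b + 1) - |s|) ^ 2 ≤ (row.d * v + s) ^ 2 := by
          rw [← sq_abs (row.d * v + s)]
          have h6 : 0 ≤ row.d * (row.b + 1) - |s| := by linarith
          gcongr
        nlinarith
      have h1 := hall v (mem_cand hv)
      rw [if_neg (by linarith)] at h1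
      have h2 := ih (fun r hr => hW r (List.mem_cons_of_mem _ hr)) h1 (vs := vs) (by simpa using hl)
      rw [List.append_assoc, List.singleton_append] at h2
      have h3 := h2 (by linarith)
      rw [show r - (row.W * (row.d * v + s) ^ 2 + valE rows (acc ++ v :: vs)) =
        r - row.W * (row.d * v + s) ^ 2 - valE rows (acc ++ v :: vs) by ring]
      exact h3

end Pool.Agent.Helper60.E8Z
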