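import Pool.Agent.Helper73.E8.Xc.Pm
import Pool.Agent.Helper60.E8Z.D3
import Pool.Agent.Helper58.E8Z.Base

/-!
# Project E8Z, (E2): the frame of `L^(t^3)` in the basis of the periods, explicit vectors of the lattice

Row `i` of `fw3`: 124 times the frame vector `f_i`, as 8 lists of 3 coefficients of the `E j c`. The lists `...w`: 31 times the vectors whose frame coordinates
are given by the corresponding list.
-/

set_option autoImplicit false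

namespace Pool.Agent.Helper60.E8Z

open Pool.Agent.Helper73.E8.Ez Pool.Agent.Helper64.E8C Pool.Agent.Helper73.E8.Xc

/-- 124 times the frame. -/
def fw3 : List (List (List ℤ)) := [[[.ofNat 5, .ofNat 9, .ofNat 17], [.negSucc 12, .negSucc 12, .negSucc 4], [.negSucc
  14, .negSucc 8, .negSucc 6], [.negSucc 2, .negSucc 14, .negSucc 12], [.negSucc 12, .negSucc 8, .negSucc 8], [.negSucc
  6, .negSucc 6, .negSucc 16], [.negSucc 30, .negSucc 30, .negSucc 30], [.ofNat 11, .ofNat 7, .ofNat 13]], [[.ofNat 17,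
  .ofNat 5, .ofNat 9], [.negSucc 4, .negSucc 12, .negSucc 12], [.negSucc 6, .negSucc 14, .negSucc 8], [.negSucc 12,
  .negSucc 2, .negSucc 14], [.negSucc 8, .negSucc 12, .negSucc 8], [.negSucc 16, .negSucc 6, .negSucc 6], [.negSucc 30,
  .negSucc 30, .negSucc 30], [.ofNat 13, .ofNat 11, .ofNat 7]], [[.ofNat 9, .ofNat 17, .ofNat 5], [.negSucc 12, .negSucc
  4, .negSucc 12], [.negSucc 8, .negSucc 6, .negSucc 14], [.negSucc 14, .negSucc 12, .negSucc 2], [.negSucc 8, .negSucc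
  8, .negSucc 12], [.negSucc 6, .negSucc 16, .negSucc 6], [.negSucc 30, .negSucc 30, .negSucc 30], [.ofNat 7, .ofNat 13,
  .ofNat 11]], [[.ofNat 27, .ofNat 35, .ofNat 31], [.ofNat 17, .ofNat 9, .ofNat 5], [.ofNat 11, .ofNat 5, .ofNat 15],
  [.ofNat 11, .ofNat 7, .ofNat 13], [.ofNat 9, .ofNat 13, .ofNat 9], [.ofNat 7, .ofNat 11, .ofNat 13], [.negSucc 4,
  .negSucc 8, .negSucc 16], [.negSucc 10, .negSucc 14, .negSucc 4]], [[.ofNat 31, .ofNat 27, .ofNat 35], [.ofNat 5,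
  .ofNat 17, .ofNat 9], [.ofNat 15, .ofNat 11, .ofNat 5], [.ofNat 13, .ofNat 11, .ofNat 7], [.ofNat 9, .ofNat 9, .ofNat
  13], [.ofNat 13, .ofNat 7, .ofNat 11], [.negSucc 16, .negSucc 4, .negSucc 8], [.negSucc 4, .negSucc 10, .negSucc 14]],
  [[.ofNat 35, .ofNat 31, .ofNat 27], [.ofNat 9, .ofNat 5, .ofNat 17], [.ofNat 5, .ofNat 15, .ofNat 11], [.ofNat 7,
  .ofNat 13, .ofNat 11], [.ofNat 13, .ofNat 9, .ofNat 9], [.ofNat 11, .ofNat 13, .ofNat 7], [.negSucc 8, .negSucc 16,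
  .negSucc 4], [.negSucc 14, .negSucc 4, .negSucc 10]], [[.ofNat 13, .ofNat 9, .ofNat 9], [.negSucc 4, .negSucc 16,
  .negSucc 8], [.negSucc 6, .negSucc 6, .negSucc 16], [.negSucc 8, .negSucc 14, .negSucc 6], [.ofNat 35, .ofNat 31,
  .ofNat 27], [.negSucc 8, .negSucc 10, .negSucc 10], [.ofNat 9, .ofNat 9, .ofNat 13], [.ofNat 17, .ofNat 3, .ofNat
  11]], [[.ofNat 9, .ofNat 13, .ofNat 9], [.negSucc 8, .negSucc 4, .negSucc 16], [.negSucc 16, .negSucc 6, .negSucc 6],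
  [.negSucc 6, .negSucc 8, .negSucc 14], [.ofNat 27, .ofNat 35, .ofNat 31], [.negSucc 10, .negSucc 8, .negSucc 10],
  [.ofNat 13, .ofNat 9, .ofNat 9], [.ofNat 11, .ofNat 17, .ofNat 3]], [[.ofNat 9, .ofNat 9, .ofNat 13], [.negSucc 16,
  .negSucc 8, .negSucc 4], [.negSucc 6, .negSucc 16, .negSucc 6], [.negSucc 14, .negSucc 6, .negSucc 8], [.ofNat 31,
  .ofNat 27, .ofNat 35], [.negSucc 10, .negSucc 10, .negSucc 8], [.ofNat 9, .ofNat 13, .ofNat 9], [.ofNat 3, .ofNat 11,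
  .ofNat 17]], [[.ofNat 17, .ofNat 9, .ofNat 5], [.ofNat 23, .ofNat 35, .ofNat 35], [.negSucc 10, .negSucc 10, .negSucc
  8], [.negSucc 8, .negSucc 10, .negSucc 10], [.negSucc 8, .negSucc 4, .negSucc 16], [.negSucc 12, .negSucc 6, .negSucc
  10], [.ofNat 13, .ofNat 13, .ofNat 5], [.ofNat 13, .ofNat 7, .ofNat 11]], [[.ofNat 5, .ofNat 17, .ofNat 9], [.ofNat
  35, .ofNat 23, .ofNat 35], [.negSucc 8, .negSucc 10, .negSucc 10], [.negSucc 10, .negSucc 8, .negSucc 10], [.negSucc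
  16, .negSucc 8, .negSucc 4], [.negSucc 10, .negSucc 12, .negSucc 6], [.ofNat 5, .ofNat 13, .ofNat 13], [.ofNat 11,
  .ofNat 13, .ofNat 7]], [[.ofNat 9, .ofNat 5, .ofNat 17], [.ofNat 35, .ofNat 35, .ofNat 23], [.negSucc 10, .negSucc 8,
  .negSucc 10], [.negSucc 10, .negSucc 10, .negSucc 8], [.negSucc 4, .negSucc 16, .negSucc 8], [.negSucc 6, .negSucc 10,
  .negSucc 12], [.ofNat 13, .ofNat 5, .ofNat 13], [.ofNat 7, .ofNat 11, .ofNat 13]], [[.ofNat 11, .ofNat 7, .ofNat 13],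
  [.negSucc 8, .negSucc 10, .negSucc 10], [.negSucc 18, .negSucc 8, .negSucc 2], [.ofNat 29, .ofNat 31, .ofNat 33],
  [.negSucc 6, .negSucc 8, .negSucc 14], [.negSucc 10, .negSucc 14, .negSucc 4], [.ofNat 3, .ofNat 15, .ofNat 13],
  [.ofNat 11, .ofNat 9, .ofNat 11]], [[.ofNat 13, .ofNat 11, .ofNat 7], [.negSucc 10, .negSucc 8, .negSucc 10],
  [.negSucc 2, .negSucc 18, .negSucc 8], [.ofNat 33, .ofNat 29, .ofNat 31], [.negSucc 14, .negSucc 6, .negSucc 8],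
  [.negSucc 4, .negSucc 10, .negSucc 14], [.ofNat 13, .ofNat 3, .ofNat 15], [.ofNat 11, .ofNat 11, .ofNat 9]], [[.ofNat
  7, .ofNat 13, .ofNat 11], [.negSucc 10, .negSucc 10, .negSucc 8], [.negSucc 8, .negSucc 2, .negSucc 18], [.ofNat 31,
  .ofNat 33, .ofNat 29], [.negSucc 8, .negSucc 14, .negSucc 6], [.negSucc 14, .negSucc 4, .negSucc 10], [.ofNat 15,
  .ofNat 13, .ofNat 3], [.ofNat 9, .ofNat 11, .ofNat 11]], [[.ofNat 11, .ofNat 15, .ofNat 5], [.negSucc 12, .negSucc 6,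
  .negSucc 10], [.negSucc 14, .negSucc 8, .negSucc 6], [.negSucc 10, .negSucc 8, .negSucc 10], [.negSucc 10, .negSucc
  16, .negSucc 2], [.negSucc 10, .negSucc 10, .negSucc 8], [.ofNat 11, .ofNat 7, .ofNat 13], [.negSucc 24, .negSucc 38,
  .negSucc 28]], [[.ofNat 5, .ofNat 11, .ofNat 15], [.negSucc 10, .negSucc 12, .negSucc 6], [.negSucc 6, .negSucc 14,
  .negSucc 8], [.negSucc 10, .negSucc 10, .negSucc 8], [.negSucc 2, .negSucc 10, .negSucc 16], [.negSucc 8, .negSucc 10,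
  .negSucc 10], [.ofNat 13, .ofNat 11, .ofNat 7], [.negSucc 28, .negSucc 24, .negSucc 38]], [[.ofNat 15, .ofNat 5,
  .ofNat 11], [.negSucc 6, .negSucc 10, .negSucc 12], [.negSucc 8, .negSucc 6, .negSucc 14], [.negSucc 8, .negSucc 10,
  .negSucc 10], [.negSucc 16, .negSucc 2, .negSucc 10], [.negSucc 10, .negSucc 8, .negSucc 10], [.ofNat 7, .ofNat 13,
  .ofNat 11], [.negSucc 38, .negSucc 28, .negSucc 24]], [[.ofNat 13, .ofNat 7, .ofNat 11], [.negSucc 10, .negSucc 12,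
  .negSucc 6], [.negSucc 10, .negSucc 8, .negSucc 10], [.negSucc 4, .negSucc 10, .negSucc 14], [.negSucc 10, .negSucc
  10, .negSucc 8], [.ofNat 33, .ofNat 21, .ofNat 39], [.ofNat 17, .ofNat 7, .ofNat 7], [.ofNat 9, .ofNat 11, .ofNat
  11]], [[.ofNat 11, .ofNat 13, .ofNat 7], [.negSucc 6, .negSucc 10, .negSucc 12], [.negSucc 10, .negSucc 10, .negSucc
  8], [.negSucc 14, .negSucc 4, .negSucc 10], [.negSucc 8, .negSucc 10, .negSucc 10], [.ofNat 39, .ofNat 33, .ofNat 21],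
  [.ofNat 7, .ofNat 17, .ofNat 7], [.ofNat 11, .ofNat 9, .ofNat 11]], [[.ofNat 7, .ofNat 11, .ofNat 13], [.negSucc 12,
  .negSucc 6, .negSucc 10], [.negSucc 8, .negSucc 10, .negSucc 10], [.negSucc 10, .negSucc 14, .negSucc 4], [.negSucc
  10, .negSucc 8, .negSucc 10], [.ofNat 21, .ofNat 39, .ofNat 33], [.ofNat 7, .ofNat 7, .ofNat 17], [.ofNat 11, .ofNat
  11, .ofNat 9]], [[.ofNat 15, .ofNat 11, .ofNat 5], [.negSucc 8, .negSucc 10, .negSucc 10], [.ofNat 31, .ofNat 29,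
  .ofNat 33], [.negSucc 2, .negSucc 18, .negSucc 8], [.negSucc 6, .negSucc 16, .negSucc 6], [.negSucc 10, .negSucc 8,
  .negSucc 10], [.ofNat 7, .ofNat 15, .ofNat 9], [.ofNat 7, .ofNat 15, .ofNat 9]], [[.ofNat 5, .ofNat 15, .ofNat 11],
  [.negSucc 10, .negSucc 8, .negSucc 10], [.ofNat 33, .ofNat 31, .ofNat 29], [.negSucc 8, .negSucc 2, .negSucc 18],
  [.negSucc 6, .negSucc 6, .negSucc 16], [.negSucc 10, .negSucc 10, .negSucc 8], [.ofNat 9, .ofNat 7, .ofNat 15],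
  [.ofNat 9, .ofNat 7, .ofNat 15]], [[.ofNat 11, .ofNat 5, .ofNat 15], [.negSucc 10, .negSucc 10, .negSucc 8], [.ofNat
  29, .ofNat 33, .ofNat 31], [.negSucc 18, .negSucc 8, .negSucc 2], [.negSucc 16, .negSucc 6, .negSucc 6], [.negSucc 8,
  .negSucc 10, .negSucc 10], [.ofNat 15, .ofNat 9, .ofNat 7], [.ofNat 15, .ofNat 9, .ofNat 7]]]

/-- Words. -/
def h5w : List (List (List ℤ)) := [[[.ofNat 5, .ofNat 13, .ofNat 13], [.ofNat 24, .ofNat 14, .ofNat 24], [.negSucc 15,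
  .negSucc 5, .negSucc 8], [.negSucc 2, .negSucc 15, .negSucc 11], [.ofNat 12, .ofNat 30, .ofNat 20], [.ofNat 22, .ofNat
  27, .ofNat 13], [.negSucc 17, .negSucc 15, .negSucc 27], [.ofNat 15, .ofNat 4, .ofNat 12]], [[.ofNat 13, .ofNat 5,
  .ofNat 13], [.ofNat 24, .ofNat 24, .ofNat 14], [.negSucc 8, .negSucc 15, .negSucc 5], [.negSucc 11, .negSucc 2,
  .negSucc 15], [.ofNat 20, .ofNat 12, .ofNat 30], [.ofNat 13, .ofNat 22, .ofNat 27], [.negSucc 27, .negSucc 17,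
  .negSucc 15], [.ofNat 12, .ofNat 15, .ofNat 4]], [[.ofNat 13, .ofNat 13, .ofNat 5], [.ofNat 14, .ofNat 24, .ofNat 24],
  [.negSucc 5, .negSucc 8, .negSucc 15], [.negSucc 15, .negSucc 11, .negSucc 2], [.ofNat 30, .ofNat 20, .ofNat 12],
  [.ofNat 27, .ofNat 13, .ofNat 22], [.negSucc 15, .negSucc 27, .negSucc 17], [.ofNat 4, .ofNat 12, .ofNat 15]],
  [[.ofNat 12, .ofNat 22, .ofNat 28], [.negSucc 17, .negSucc 19, .negSucc 23], [.negSucc 20, .negSucc 30, .negSucc 9],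
  [.ofNat 15, .ofNat 4, .ofNat 12], [.negSucc 17, .negSucc 23, .negSucc 19], [.ofNat 9, .ofNat 10, .ofNat 12], [.negSucc
  4, .negSucc 12, .negSucc 12], [.negSucc 14, .negSucc 15, .ofNat 0]], [[.ofNat 28, .ofNat 12, .ofNat 22], [.negSucc 23,
  .negSucc 17, .negSucc 19], [.negSucc 9, .negSucc 20, .negSucc 30], [.ofNat 12, .ofNat 15, .ofNat 4], [.negSucc 19,
  .negSucc 17, .negSucc 23], [.ofNat 12, .ofNat 9, .ofNat 10], [.negSucc 12, .negSucc 4, .negSucc 12], [.ofNat 0,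
  .negSucc 14, .negSucc 15]], [[.ofNat 22, .ofNat 28, .ofNat 12], [.negSucc 19, .negSucc 23, .negSucc 17], [.negSucc 30,
  .negSucc 9, .negSucc 20], [.ofNat 4, .ofNat 12, .ofNat 15], [.negSucc 23, .negSucc 19, .negSucc 17], [.ofNat 10,
  .ofNat 12, .ofNat 9], [.negSucc 12, .negSucc 12, .negSucc 4], [.negSucc 15, .ofNat 0, .negSucc 14]], [[.negSucc 23,
  .negSucc 19, .negSucc 17], [.negSucc 6, .negSucc 12, .negSucc 10], [.negSucc 8, .negSucc 3, .negSucc 17], [.ofNat 25,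
  .ofNat 10, .ofNat 27], [.ofNat 24, .ofNat 16, .ofNat 22], [.negSucc 5, .negSucc 14, .negSucc 9], [.negSucc 29,
  .negSucc 19, .negSucc 11], [.ofNat 18, .ofNat 3, .ofNat 10]], [[.negSucc 17, .negSucc 23, .negSucc 19], [.negSucc 10,
  .negSucc 6, .negSucc 12], [.negSucc 17, .negSucc 8, .negSucc 3], [.ofNat 27, .ofNat 25, .ofNat 10], [.ofNat 22, .ofNat
  24, .ofNat 16], [.negSucc 9, .negSucc 5, .negSucc 14], [.negSucc 11, .negSucc 29, .negSucc 19], [.ofNat 10, .ofNat 18,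
  .ofNat 3]], [[.negSucc 19, .negSucc 17, .negSucc 23], [.negSucc 12, .negSucc 10, .negSucc 6], [.negSucc 3, .negSucc
  17, .negSucc 8], [.ofNat 10, .ofNat 27, .ofNat 25], [.ofNat 16, .ofNat 22, .ofNat 24], [.negSucc 14, .negSucc 9,
  .negSucc 5], [.negSucc 19, .negSucc 11, .negSucc 29], [.ofNat 3, .ofNat 10, .ofNat 18]], [[.negSucc 17, .negSucc 19,
  .negSucc 23], [.ofNat 4, .ofNat 34, .ofNat 24], [.negSucc 14, .negSucc 9, .negSucc 5], [.negSucc 5, .negSucc 14,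
  .negSucc 9], [.negSucc 10, .negSucc 6, .negSucc 12], [.negSucc 11, .negSucc 8, .negSucc 9], [.negSucc 23, .negSucc 13,
  .negSucc 23], [.negSucc 18, .negSucc 21, .negSucc 20]], [[.negSucc 23, .negSucc 17, .negSucc 19], [.ofNat 24, .ofNat
  4, .ofNat 34], [.negSucc 5, .negSucc 14, .negSucc 9], [.negSucc 9, .negSucc 5, .negSucc 14], [.negSucc 12, .negSucc
  10, .negSucc 6], [.negSucc 9, .negSucc 11, .negSucc 8], [.negSucc 23, .negSucc 23, .negSucc 13], [.negSucc 20,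
  .negSucc 18, .negSucc 21]], [[.negSucc 19, .negSucc 23, .negSucc 17], [.ofNat 34, .ofNat 24, .ofNat 4], [.negSucc 9,
  .negSucc 5, .negSucc 14], [.negSucc 14, .negSucc 9, .negSucc 5], [.negSucc 6, .negSucc 12, .negSucc 10], [.negSucc 8,
  .negSucc 9, .negSucc 11], [.negSucc 13, .negSucc 23, .negSucc 23], [.negSucc 21, .negSucc 20, .negSucc 18]], [[.ofNat
  15, .ofNat 4, .ofNat 12], [.negSucc 5, .negSucc 14, .negSucc 9], [.negSucc 1, .negSucc 1, .ofNat 4], [.ofNat 43,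
  .ofNat 34, .ofNat 47], [.ofNat 27, .ofNat 25, .ofNat 10], [.negSucc 7, .ofNat 4, .ofNat 4], [.ofNat 3, .ofNat 16,
  .ofNat 12], [.negSucc 13, .negSucc 4, .negSucc 11]], [[.ofNat 12, .ofNat 15, .ofNat 4], [.negSucc 9, .negSucc 5,
  .negSucc 14], [.ofNat 4, .negSucc 1, .negSucc 1], [.ofNat 47, .ofNat 43, .ofNat 34], [.ofNat 10, .ofNat 27, .ofNat
  25], [.ofNat 4, .negSucc 7, .ofNat 4], [.ofNat 12, .ofNat 3, .ofNat 16], [.negSucc 11, .negSucc 13, .negSucc 4]],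
  [[.ofNat 4, .ofNat 12, .ofNat 15], [.negSucc 14, .negSucc 9, .negSucc 5], [.negSucc 1, .ofNat 4, .negSucc 1], [.ofNat
  34, .ofNat 47, .ofNat 43], [.ofNat 25, .ofNat 10, .ofNat 27], [.ofNat 4, .ofNat 4, .negSucc 7], [.ofNat 16, .ofNat 12,
  .ofNat 3], [.negSucc 4, .negSucc 11, .negSucc 13]], [[.ofNat 15, .ofNat 16, .ofNat 0], [.ofNat 19, .ofNat 22, .ofNat
  21], [.ofNat 4, .negSucc 1, .negSucc 1], [.ofNat 14, .ofNat 5, .ofNat 12], [.negSucc 9, .negSucc 17, .negSucc 2],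
  [.negSucc 7, .ofNat 10, .negSucc 1], [.ofNat 15, .ofNat 4, .ofNat 12], [.negSucc 36, .negSucc 45, .negSucc 40]],
  [[.ofNat 0, .ofNat 15, .ofNat 16], [.ofNat 21, .ofNat 19, .ofNat 22], [.negSucc 1, .ofNat 4, .negSucc 1], [.ofNat 12,
  .ofNat 14, .ofNat 5], [.negSucc 2, .negSucc 9, .negSucc 17], [.negSucc 1, .negSucc 7, .ofNat 10], [.ofNat 12, .ofNat
  15, .ofNat 4], [.negSucc 40, .negSucc 36, .negSucc 45]], [[.ofNat 16, .ofNat 0, .ofNat 15], [.ofNat 22, .ofNat 21,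
  .ofNat 19], [.negSucc 1, .negSucc 1, .ofNat 4], [.ofNat 5, .ofNat 12, .ofNat 14], [.negSucc 17, .negSucc 2, .negSucc
  9], [.ofNat 10, .negSucc 1, .negSucc 7], [.ofNat 4, .ofNat 12, .ofNat 15], [.negSucc 45, .negSucc 40, .negSucc 36]],
  [[.ofNat 12, .ofNat 9, .ofNat 10], [.negSucc 9, .negSucc 11, .negSucc 8], [.ofNat 14, .ofNat 5, .ofNat 12], [.ofNat 4,
  .negSucc 7, .ofNat 4], [.negSucc 14, .negSucc 9, .negSucc 5], [.ofNat 47, .ofNat 31, .ofNat 46], [.negSucc 12,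
  .negSucc 21, .negSucc 26], [.ofNat 2, .ofNat 8, .negSucc 9]], [[.ofNat 10, .ofNat 12, .ofNat 9], [.negSucc 8, .negSucc
  9, .negSucc 11], [.ofNat 12, .ofNat 14, .ofNat 5], [.ofNat 4, .ofNat 4, .negSucc 7], [.negSucc 5, .negSucc 14,
  .negSucc 9], [.ofNat 46, .ofNat 47, .ofNat 31], [.negSucc 26, .negSucc 12, .negSucc 21], [.negSucc 9, .ofNat 2, .ofNat
  8]], [[.ofNat 9, .ofNat 10, .ofNat 12], [.negSucc 11, .negSucc 8, .negSucc 9], [.ofNat 5, .ofNat 12, .ofNat 14],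
  [.negSucc 7, .ofNat 4, .ofNat 4], [.negSucc 9, .negSucc 5, .negSucc 14], [.ofNat 31, .ofNat 46, .ofNat 47], [.negSucc
  21, .negSucc 26, .negSucc 12], [.ofNat 8, .negSucc 9, .ofNat 2]], [[.negSucc 9, .negSucc 20, .negSucc 30], [.negSucc
  5, .negSucc 14, .negSucc 9], [.ofNat 34, .ofNat 41, .ofNat 49], [.ofNat 4, .negSucc 1, .negSucc 1], [.negSucc 3,
  .negSucc 17, .negSucc 8], [.ofNat 14, .ofNat 5, .ofNat 12], [.ofNat 9, .ofNat 16, .ofNat 6], [.ofNat 2, .negSucc 3,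
  .ofNat 2]], [[.negSucc 30, .negSucc 9, .negSucc 20], [.negSucc 9, .negSucc 5, .negSucc 14], [.ofNat 49, .ofNat 34,
  .ofNat 41], [.negSucc 1, .ofNat 4, .negSucc 1], [.negSucc 8, .negSucc 3, .negSucc 17], [.ofNat 12, .ofNat 14, .ofNat
  5], [.ofNat 6, .ofNat 9, .ofNat 16], [.ofNat 2, .ofNat 2, .negSucc 3]], [[.negSucc 20, .negSucc 30, .negSucc 9],
  [.negSucc 14, .negSucc 9, .negSucc 5], [.ofNat 41, .ofNat 49, .ofNat 34], [.negSucc 1, .negSucc 1, .ofNat 4],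
  [.negSucc 17, .negSucc 8, .negSucc 3], [.ofNat 5, .ofNat 12, .ofNat 14], [.ofNat 16, .ofNat 6, .ofNat 9], [.negSucc 3,
  .ofNat 2, .ofNat 2]]]

/-- Words. -/
def h3w : List (List (List ℤ)) := [[[.ofNat 10, .ofNat 22, .ofNat 30], [.ofNat 11, .ofNat 1, .ofNat 19], [.negSucc 30,
  .negSucc 14, .negSucc 15], [.negSucc 5, .negSucc 30, .negSucc 24], [.negSucc 0, .ofNat 21, .ofNat 11], [.ofNat 15,
  .ofNat 20, .negSucc 3], [.negSucc 48, .negSucc 46, .negSucc 58], [.ofNat 26, .ofNat 11, .ofNat 25]]]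

/-- Words. -/
def h2w : List (List (List ℤ)) := [[[.negSucc 23, .negSucc 11, .ofNat 5], [.ofNat 10, .negSucc 5, .ofNat 27],
  [.negSucc 65, .negSucc 44, .negSucc 43], [.ofNat 2, .negSucc 34, .negSucc 28], [.negSucc 2, .ofNat 25, .ofNat 9],
  [.ofNat 49, .ofNat 57, .ofNat 18], [.negSucc 65, .negSucc 68, .negSucc 81], [.ofNat 28, .ofNat 5, .ofNat 29]],
  [[.ofNat 5, .negSucc 23, .negSucc 11], [.ofNat 27, .ofNat 10, .negSucc 5], [.negSucc 43, .negSucc 65, .negSucc 44],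
  [.negSucc 28, .ofNat 2, .negSucc 34], [.ofNat 9, .negSucc 2, .ofNat 25], [.ofNat 18, .ofNat 49, .ofNat 57], [.negSucc
  81, .negSucc 65, .negSucc 68], [.ofNat 29, .ofNat 28, .ofNat 5]], [[.negSucc 11, .ofNat 5, .negSucc 23], [.negSucc 5,
  .ofNat 27, .ofNat 10], [.negSucc 44, .negSucc 43, .negSucc 65], [.negSucc 34, .negSucc 28, .ofNat 2], [.ofNat 25,
  .ofNat 9, .negSucc 2], [.ofNat 57, .ofNat 18, .ofNat 49], [.negSucc 68, .negSucc 81, .negSucc 65], [.ofNat 5, .ofNat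
  29, .ofNat 28]], [[.ofNat 35, .ofNat 56, .ofNat 64], [.negSucc 7, .negSucc 23, .negSucc 29], [.negSucc 18, .negSucc
  45, .ofNat 3], [.ofNat 50, .ofNat 28, .ofNat 46], [.negSucc 14, .negSucc 22, .negSucc 23], [.ofNat 35, .ofNat 43,
  .ofNat 46], [.negSucc 22, .negSucc 46, .negSucc 53], [.negSucc 49, .negSucc 57, .negSucc 15]], [[.ofNat 64, .ofNat 35,
  .ofNat 56], [.negSucc 29, .negSucc 7, .negSucc 23], [.ofNat 3, .negSucc 18, .negSucc 45], [.ofNat 46, .ofNat 50,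
  .ofNat 28], [.negSucc 23, .negSucc 14, .negSucc 22], [.ofNat 46, .ofNat 35, .ofNat 43], [.negSucc 53, .negSucc 22,
  .negSucc 46], [.negSucc 15, .negSucc 49, .negSucc 57]], [[.ofNat 56, .ofNat 64, .ofNat 35], [.negSucc 23, .negSucc 29,
  .negSucc 7], [.negSucc 45, .ofNat 3, .negSucc 18], [.ofNat 28, .ofNat 46, .ofNat 50], [.negSucc 22, .negSucc 23,
  .negSucc 14], [.ofNat 43, .ofNat 46, .ofNat 35], [.negSucc 46, .negSucc 53, .negSucc 22], [.negSucc 57, .negSucc 15,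
  .negSucc 49]], [[.negSucc 22, .negSucc 23, .negSucc 14], [.negSucc 31, .negSucc 53, .negSucc 37], [.negSucc 34,
  .negSucc 27, .negSucc 60], [.ofNat 31, .negSucc 2, .ofNat 34], [.ofNat 65, .ofNat 41, .ofNat 49], [.negSucc 30,
  .negSucc 49, .negSucc 42], [.negSucc 37, .negSucc 23, .ofNat 0], [.ofNat 61, .ofNat 20, .ofNat 43]], [[.negSucc 14,
  .negSucc 22, .negSucc 23], [.negSucc 37, .negSucc 31, .negSucc 53], [.negSucc 60, .negSucc 34, .negSucc 27], [.ofNat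
  34, .ofNat 31, .negSucc 2], [.ofNat 49, .ofNat 65, .ofNat 41], [.negSucc 42, .negSucc 30, .negSucc 49], [.ofNat 0,
  .negSucc 37, .negSucc 23], [.ofNat 43, .ofNat 61, .ofNat 20]], [[.negSucc 23, .negSucc 14, .negSucc 22], [.negSucc 53,
  .negSucc 37, .negSucc 31], [.negSucc 27, .negSucc 60, .negSucc 34], [.negSucc 2, .ofNat 34, .ofNat 31], [.ofNat 41,
  .ofNat 49, .ofNat 65], [.negSucc 49, .negSucc 42, .negSucc 30], [.negSucc 23, .ofNat 0, .negSucc 37], [.ofNat 20,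
  .ofNat 43, .ofNat 61]], [[.negSucc 7, .negSucc 23, .negSucc 29], [.ofNat 11, .ofNat 79, .ofNat 65], [.negSucc 49,
  .negSucc 42, .negSucc 30], [.negSucc 30, .negSucc 49, .negSucc 42], [.negSucc 37, .negSucc 31, .negSucc 53], [.negSucc
  45, .negSucc 34, .negSucc 42], [.negSucc 22, .negSucc 8, .negSucc 29], [.negSucc 15, .negSucc 26, .negSucc 18]],
  [[.negSucc 29, .negSucc 7, .negSucc 23], [.ofNat 65, .ofNat 11, .ofNat 79], [.negSucc 30, .negSucc 49, .negSucc 42],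
  [.negSucc 42, .negSucc 30, .negSucc 49], [.negSucc 53, .negSucc 37, .negSucc 31], [.negSucc 42, .negSucc 45, .negSucc
  34], [.negSucc 29, .negSucc 22, .negSucc 8], [.negSucc 18, .negSucc 15, .negSucc 26]], [[.negSucc 23, .negSucc 29,
  .negSucc 7], [.ofNat 79, .ofNat 65, .ofNat 11], [.negSucc 42, .negSucc 30, .negSucc 49], [.negSucc 49, .negSucc 42,
  .negSucc 30], [.negSucc 31, .negSucc 53, .negSucc 37], [.negSucc 34, .negSucc 42, .negSucc 45], [.negSucc 8, .negSucc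
  29, .negSucc 22], [.negSucc 26, .negSucc 18, .negSucc 15]], [[.ofNat 50, .ofNat 28, .ofNat 46], [.negSucc 30, .negSucc
  49, .negSucc 42], [.negSucc 37, .negSucc 23, .ofNat 0], [.ofNat 87, .ofNat 84, .ofNat 108], [.ofNat 34, .ofNat 31,
  .negSucc 2], [.negSucc 29, .negSucc 22, .negSucc 8], [.ofNat 20, .ofNat 58, .ofNat 46], [.ofNat 1, .ofNat 4, .negSucc
  4]], [[.ofNat 46, .ofNat 50, .ofNat 28], [.negSucc 42, .negSucc 30, .negSucc 49], [.ofNat 0, .negSucc 37, .negSucc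
  23], [.ofNat 108, .ofNat 87, .ofNat 84], [.negSucc 2, .ofNat 34, .ofNat 31], [.negSucc 8, .negSucc 29, .negSucc 22],
  [.ofNat 46, .ofNat 20, .ofNat 58], [.negSucc 4, .ofNat 1, .ofNat 4]], [[.ofNat 28, .ofNat 46, .ofNat 50], [.negSucc
  49, .negSucc 42, .negSucc 30], [.negSucc 23, .ofNat 0, .negSucc 37], [.ofNat 84, .ofNat 108, .ofNat 87], [.ofNat 31,
  .negSucc 2, .ofNat 34], [.negSucc 22, .negSucc 8, .negSucc 29], [.ofNat 58, .ofNat 46, .ofNat 20], [.ofNat 4, .negSucc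
  4, .ofNat 1]], [[.ofNat 50, .ofNat 58, .ofNat 16], [.ofNat 16, .ofNat 27, .ofNat 19], [.negSucc 22, .negSucc 23,
  .negSucc 14], [.negSucc 0, .negSucc 3, .ofNat 5], [.negSucc 42, .negSucc 60, .negSucc 19], [.negSucc 29, .negSucc 7,
  .negSucc 23], [.ofNat 50, .ofNat 28, .ofNat 46], [.negSucc 71, .negSucc 113, .negSucc 92]], [[.ofNat 16, .ofNat 50,
  .ofNat 58], [.ofNat 19, .ofNat 16, .ofNat 27], [.negSucc 14, .negSucc 22, .negSucc 23], [.ofNat 5, .negSucc 0,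
  .negSucc 3], [.negSucc 19, .negSucc 42, .negSucc 60], [.negSucc 23, .negSucc 29, .negSucc 7], [.ofNat 46, .ofNat 50,
  .ofNat 28], [.negSucc 92, .negSucc 71, .negSucc 113]], [[.ofNat 58, .ofNat 16, .ofNat 50], [.ofNat 27, .ofNat 19,
  .ofNat 16], [.negSucc 23, .negSucc 14, .negSucc 22], [.negSucc 3, .ofNat 5, .negSucc 0], [.negSucc 60, .negSucc 19,
  .negSucc 42], [.negSucc 7, .negSucc 23, .negSucc 29], [.ofNat 28, .ofNat 46, .ofNat 50], [.negSucc 113, .negSucc 92,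
  .negSucc 71]], [[.ofNat 46, .ofNat 35, .ofNat 43], [.negSucc 42, .negSucc 45, .negSucc 34], [.negSucc 0, .negSucc 3,
  .ofNat 5], [.negSucc 8, .negSucc 29, .negSucc 22], [.negSucc 49, .negSucc 42, .negSucc 30], [.ofNat 108, .ofNat 57,
  .ofNat 114], [.negSucc 0, .negSucc 26, .negSucc 33], [.ofNat 24, .ofNat 30, .ofNat 8]], [[.ofNat 43, .ofNat 46, .ofNat
  35], [.negSucc 34, .negSucc 42, .negSucc 45], [.ofNat 5, .negSucc 0, .negSucc 3], [.negSucc 22, .negSucc 8, .negSucc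
  29], [.negSucc 30, .negSucc 49, .negSucc 42], [.ofNat 114, .ofNat 108, .ofNat 57], [.negSucc 33, .negSucc 0, .negSucc
  26], [.ofNat 8, .ofNat 24, .ofNat 30]], [[.ofNat 35, .ofNat 43, .ofNat 46], [.negSucc 45, .negSucc 34, .negSucc 42],
  [.negSucc 3, .ofNat 5, .negSucc 0], [.negSucc 29, .negSucc 22, .negSucc 8], [.negSucc 42, .negSucc 30, .negSucc 49],
  [.ofNat 57, .ofNat 114, .ofNat 108], [.negSucc 26, .negSucc 33, .negSucc 0], [.ofNat 30, .ofNat 8, .ofNat 24]],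
  [[.negSucc 18, .negSucc 41, .negSucc 62], [.negSucc 13, .negSucc 27, .negSucc 19], [.ofNat 80, .ofNat 86, .ofNat 113],
  [.ofNat 3, .negSucc 24, .negSucc 8], [.negSucc 4, .negSucc 43, .negSucc 12], [.ofNat 41, .ofNat 23, .ofNat 29],
  [.ofNat 44, .ofNat 66, .ofNat 45], [.ofNat 12, .ofNat 10, .ofNat 9]], [[.negSucc 62, .negSucc 18, .negSucc 41],
  [.negSucc 19, .negSucc 13, .negSucc 27], [.ofNat 113, .ofNat 80, .ofNat 86], [.negSucc 8, .ofNat 3, .negSucc 24],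
  [.negSucc 12, .negSucc 4, .negSucc 43], [.ofNat 29, .ofNat 41, .ofNat 23], [.ofNat 45, .ofNat 44, .ofNat 66], [.ofNat
  9, .ofNat 12, .ofNat 10]], [[.negSucc 41, .negSucc 62, .negSucc 18], [.negSucc 27, .negSucc 19, .negSucc 13], [.ofNat
  86, .ofNat 113, .ofNat 80], [.negSucc 24, .negSucc 8, .ofNat 3], [.negSucc 43, .negSucc 12, .negSucc 4], [.ofNat 23,
  .ofNat 29, .ofNat 41], [.ofNat 66, .ofNat 45, .ofNat 44], [.ofNat 10, .ofNat 9, .ofNat 12]]]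

/-- Words. -/
def cf3w : List (List (List ℤ)) := [[[.negSucc 1, .ofNat 4, .negSucc 1], [.negSucc 12, .negSucc 9, .negSucc 7],
  [.ofNat 12, .ofNat 9, .ofNat 10], [.ofNat 12, .ofNat 10, .ofNat 9], [.negSucc 1, .ofNat 4, .negSucc 1], [.ofNat 2,
  .negSucc 0, .negSucc 0], [.ofNat 10, .ofNat 9, .ofNat 12], [.ofNat 0, .negSucc 0, .ofNat 1]], [[.negSucc 0, .ofNat 0,
  .ofNat 1], [.ofNat 0, .ofNat 0, .ofNat 0], [.negSucc 0, .ofNat 0, .ofNat 1], [.negSucc 11, .negSucc 8, .negSucc 9],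
  [.ofNat 3, .negSucc 2, .ofNat 0], [.ofNat 5, .ofNat 13, .ofNat 13], [.negSucc 10, .negSucc 9, .negSucc 9], [.ofNat 13,
  .ofNat 10, .ofNat 8]], [[.negSucc 3, .ofNat 2, .ofNat 2], [.negSucc 0, .negSucc 0, .ofNat 2], [.negSucc 0, .ofNat 2,
  .negSucc 0], [.negSucc 0, .ofNat 1, .ofNat 0], [.ofNat 5, .negSucc 3, .negSucc 0], [.negSucc 1, .ofNat 1, .ofNat 1],
  [.ofNat 2, .ofNat 2, .negSucc 3], [.ofNat 2, .ofNat 1, .negSucc 2]], [[.ofNat 9, .ofNat 11, .ofNat 11], [.negSucc 6,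
  .negSucc 11, .negSucc 11], [.ofNat 2, .negSucc 2, .ofNat 1], [.ofNat 12, .ofNat 9, .ofNat 10], [.negSucc 1, .ofNat 0,
  .ofNat 2], [.ofNat 12, .ofNat 7, .ofNat 12], [.ofNat 3, .negSucc 2, .ofNat 0], [.negSucc 0, .ofNat 0, .ofNat 1]],
  [[.negSucc 9, .negSucc 13, .negSucc 6], [.negSucc 0, .negSucc 0, .ofNat 2], [.ofNat 9, .ofNat 14, .ofNat 8], [.negSucc
  12, .negSucc 8, .negSucc 8], [.ofNat 0, .ofNat 1, .negSucc 0], [.ofNat 0, .ofNat 0, .ofNat 0], [.negSucc 0, .ofNat 2,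
  .negSucc 0], [.ofNat 10, .ofNat 13, .ofNat 8]], [[.ofNat 1, .ofNat 2, .negSucc 2], [.ofNat 1, .ofNat 1, .negSucc 1],
  [.negSucc 9, .negSucc 11, .negSucc 8], [.ofNat 14, .ofNat 11, .ofNat 6], [.ofNat 10, .ofNat 11, .ofNat 10], [.negSucc
  6, .negSucc 11, .negSucc 11], [.ofNat 1, .negSucc 0, .ofNat 0], [.negSucc 0, .ofNat 2, .negSucc 0]], [[.negSucc 1,
  .negSucc 0, .ofNat 3], [.negSucc 12, .negSucc 7, .negSucc 9], [.ofNat 8, .ofNat 14, .ofNat 9], [.negSucc 2, .ofNat 0,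
  .ofNat 3], [.ofNat 3, .negSucc 2, .ofNat 0], [.ofNat 6, .ofNat 14, .ofNat 11], [.ofNat 3, .ofNat 0, .negSucc 2],
  [.ofNat 13, .ofNat 9, .ofNat 9]], [[.ofNat 12, .ofNat 10, .ofNat 9], [.ofNat 3, .ofNat 0, .negSucc 2], [.negSucc 9,
  .negSucc 14, .negSucc 5], [.ofNat 13, .ofNat 8, .ofNat 10], [.negSucc 0, .ofNat 4, .negSucc 2], [.ofNat 1, .negSucc 1,
  .ofNat 1], [.negSucc 2, .ofNat 0, .ofNat 3], [.negSucc 12, .negSucc 10, .negSucc 6]], [[.ofNat 12, .ofNat 10, .ofNat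
  9], [.negSucc 12, .negSucc 9, .negSucc 7], [.ofNat 3, .negSucc 1, .negSucc 0], [.ofNat 13, .ofNat 10, .ofNat 8],
  [.negSucc 2, .ofNat 2, .ofNat 1], [.ofNat 12, .ofNat 7, .ofNat 12], [.ofNat 0, .ofNat 0, .ofNat 0], [.ofNat 2, .ofNat
  0, .negSucc 1]], [[.ofNat 0, .ofNat 0, .ofNat 0], [.negSucc 13, .negSucc 10, .negSucc 5], [.ofNat 11, .ofNat 10,
  .ofNat 10], [.ofNat 12, .ofNat 7, .ofNat 12], [.negSucc 4, .ofNat 4, .ofNat 1], [.ofNat 1, .negSucc 3, .ofNat 3],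
  [.ofNat 14, .ofNat 7, .ofNat 10], [.ofNat 1, .ofNat 0, .negSucc 0]], [[.negSucc 1, .negSucc 1, .ofNat 4], [.ofNat 12,
  .ofNat 12, .ofNat 7], [.negSucc 10, .negSucc 8, .negSucc 10], [.negSucc 14, .negSucc 6, .negSucc 8], [.ofNat 2,
  .negSucc 0, .negSucc 0], [.negSucc 4, .ofNat 5, .ofNat 0], [.negSucc 11, .negSucc 10, .negSucc 7], [.ofNat 1, .negSucc
  0, .ofNat 0]], [[.negSucc 1, .ofNat 3, .negSucc 0], [.negSucc 13, .negSucc 10, .negSucc 5], [.ofNat 1, .negSucc 0,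
  .ofNat 0], [.ofNat 9, .ofNat 12, .ofNat 10], [.ofNat 11, .ofNat 8, .ofNat 12], [.negSucc 1, .ofNat 1, .ofNat 1],
  [.ofNat 1, .ofNat 2, .negSucc 2], [.ofNat 11, .ofNat 10, .ofNat 10]], [[.ofNat 1, .negSucc 0, .ofNat 0], [.ofNat 15,
  .ofNat 12, .ofNat 4], [.negSucc 6, .negSucc 15, .negSucc 7], [.ofNat 4, .negSucc 1, .negSucc 1], [.negSucc 0, .ofNat
  2, .negSucc 0], [.negSucc 5, .negSucc 13, .negSucc 10], [.ofNat 0, .ofNat 0, .ofNat 0], [.negSucc 12, .negSucc 11,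
  .negSucc 5]], [[.negSucc 11, .negSucc 8, .negSucc 9], [.negSucc 0, .negSucc 0, .ofNat 2], [.negSucc 0, .ofNat 5,
  .negSucc 3], [.negSucc 1, .ofNat 1, .ofNat 1], [.ofNat 15, .ofNat 6, .ofNat 10], [.negSucc 11, .negSucc 6, .negSucc
  11], [.negSucc 1, .ofNat 2, .ofNat 0], [.ofNat 14, .ofNat 9, .ofNat 8]], [[.ofNat 12, .ofNat 13, .ofNat 6], [.ofNat 1,
  .ofNat 1, .negSucc 1], [.negSucc 6, .negSucc 14, .negSucc 8], [.ofNat 15, .ofNat 6, .ofNat 10], [.negSucc 2, .ofNat 5,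
  .negSucc 1], [.ofNat 8, .negSucc 7, .ofNat 0], [.ofNat 2, .negSucc 2, .ofNat 1], [.negSucc 14, .negSucc 9, .negSucc
  5]], [[.ofNat 8, .ofNat 13, .ofNat 10], [.negSucc 11, .negSucc 11, .negSucc 6], [.ofNat 0, .negSucc 1, .ofNat 2],
  [.ofNat 15, .ofNat 6, .ofNat 10], [.negSucc 3, .ofNat 4, .ofNat 0], [.ofNat 13, .ofNat 8, .ofNat 10], [.ofNat 3,
  .negSucc 0, .negSucc 1], [.ofNat 0, .negSucc 1, .ofNat 2]]]

/-- Words. -/
def cd3w : List (List (List ℤ)) := [[[.negSucc 8, .negSucc 7, .negSucc 13], [.ofNat 14, .ofNat 9, .ofNat 8], [.ofNat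
  14, .ofNat 9, .ofNat 8], [.ofNat 9, .ofNat 8, .ofNat 14], [.ofNat 8, .ofNat 14, .ofNat 9], [.ofNat 8, .ofNat 14,
  .ofNat 9], [.negSucc 8, .negSucc 7, .negSucc 13], [.negSucc 8, .negSucc 7, .negSucc 13]], [[.negSucc 22, .negSucc 16,
  .negSucc 21], [.negSucc 8, .negSucc 7, .negSucc 13], [.ofNat 0, .ofNat 0, .ofNat 0], [.ofNat 9, .ofNat 8, .ofNat 14],
  [.negSucc 13, .negSucc 8, .negSucc 7], [.ofNat 0, .ofNat 0, .ofNat 0], [.negSucc 22, .negSucc 16, .negSucc 21],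
  [.negSucc 8, .negSucc 7, .negSucc 13]], [[.negSucc 8, .negSucc 7, .negSucc 13], [.negSucc 16, .negSucc 21, .negSucc
  22], [.negSucc 8, .negSucc 7, .negSucc 13], [.ofNat 0, .ofNat 0, .ofNat 0], [.negSucc 22, .negSucc 16, .negSucc 21],
  [.negSucc 13, .negSucc 8, .negSucc 7], [.negSucc 8, .negSucc 7, .negSucc 13], [.ofNat 0, .ofNat 0, .ofNat 0]],
  [[.ofNat 8, .ofNat 14, .ofNat 9], [.negSucc 8, .negSucc 7, .negSucc 13], [.negSucc 8, .negSucc 7, .negSucc 13],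
  [.negSucc 7, .negSucc 13, .negSucc 8], [.negSucc 13, .negSucc 8, .negSucc 7], [.negSucc 13, .negSucc 8, .negSucc 7],
  [.ofNat 8, .ofNat 14, .ofNat 9], [.ofNat 8, .ofNat 14, .ofNat 9]], [[.negSucc 7, .negSucc 13, .negSucc 8], [.ofNat 9,
  .ofNat 8, .ofNat 14], [.ofNat 14, .ofNat 9, .ofNat 8], [.ofNat 14, .ofNat 9, .ofNat 8], [.ofNat 14, .ofNat 9, .ofNat
  8], [.ofNat 8, .ofNat 14, .ofNat 9], [.negSucc 7, .negSucc 13, .negSucc 8], [.negSucc 13, .negSucc 8, .negSucc 7]],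
  [[.ofNat 8, .ofNat 14, .ofNat 9], [.negSucc 8, .negSucc 7, .negSucc 13], [.negSucc 14, .negSucc 2, .negSucc 12],
  [.negSucc 8, .negSucc 7, .negSucc 13], [.negSucc 13, .negSucc 8, .negSucc 7], [.negSucc 12, .negSucc 14, .negSucc 2],
  [.ofNat 8, .ofNat 14, .ofNat 9], [.ofNat 9, .ofNat 8, .ofNat 14]]]

/-- `m` times the word `a` is the combination with coefficients `v` of the frame. -/
def chkW3 (m : ℤ) (v : List ℤ) (a : List (List ℤ)) : Bool :=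
  allN 8 fun j => allN 3 fun c => m * lf a j c == dotL v ((fw3.map fun f => lf f j c))

theorem h5w_chk : (allN 24 fun i => chkW3 20 (h5T.getD i []) (h5w.getD i [])) = true := by decide +kernel

theorem h5w_memP : (allN 24 fun i => chkP 3 (h5w.getD i [])) = true := by decide +kernel

theorem h5w_mem : (allN 24 fun i => chkMem (ex30 3 (h5w.getD i []))) = true :=
  allN_iff.2 fun i hi => chkMem_of_chkP (Or.inl rfl) (allN_iff.1 h5w_memP i hi)

theorem h3w_chk : (allN 1 fun i => chkW3 12 (h3T.getD i []) (h3w.getD i [])) = true := by decide +kernel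

theorem h3w_memP : (allN 1 fun i => chkP 3 (h3w.getD i [])) = true := by decide +kernel

theorem h3w_mem : (allN 1 fun i => chkMem (ex30 3 (h3w.getD i []))) = true :=
  allN_iff.2 fun i hi => chkMem_of_chkP (Or.inl rfl) (allN_iff.1 h3w_memP i hi)

theorem h2w_chk : (allN 24 fun i => chkW3 16 (h2T.getD i []) (h2w.getD i [])) = true := by decide +kernel

theorem h2w_memP : (allN 24 fun i => chkP 3 (h2w.getD i [])) = true := by decide +kernel

theorem h2w_mem : (allN 24 fun i => chkMem (ex30 3 (h2w.getD i []))) = true :=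
  allN_iff.2 fun i hi => chkMem_of_chkP (Or.inl rfl) (allN_iff.1 h2w_memP i hi)

theorem cf3w_chk : (allN 16 fun i => chkW3 4 (cf3n.getD i []) (cf3w.getD i [])) = true := by decide +kernel

theorem cf3w_memP : (allN 16 fun i => chkP 3 (cf3w.getD i [])) = true := by decide +kernel

theorem cf3w_mem : (allN 16 fun i => chkMem (ex30 3 (cf3w.getD i []))) = true :=
  allN_iff.2 fun i hi => chkMem_of_chkP (Or.inl rfl) (allN_iff.1 cf3w_memP i hi)

theorem cd3w_chk : (allN 6 fun i => chkW3 4 (cd3n.getD i []) (cd3w.getD i [])) = true := by decide +kernel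

theorem cd3w_memP : (allN 6 fun i => chkP 3 (cd3w.getD i [])) = true := by decide +kernel

theorem cd3w_mem : (allN 6 fun i => chkMem (ex30 3 (cd3w.getD i []))) = true :=
  allN_iff.2 fun i hi => chkMem_of_chkP (Or.inl rfl) (allN_iff.1 cd3w_memP i hi)

end Pool.Agent.Helper60.E8Z
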