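import Pool.Agent.Helper73.E8.Xc.Pm
import Pool.Agent.Helper60.E8Z.D5
import Pool.Agent.Helper58.E8Z.Base

/-!
# Project E8Z, (E2): the frame of `L^(t^5)` in the basis of the periods, explicit vectors of the lattice

Row `i` of `fw5`: 1860 times the frame vector `f_i`, as 8 lists of 5 coefficients of the `E j c`. The lists `...w`: 31 times the vectors whose frame coordinates
are given by the corresponding list.
-/

set_option autoImplicit false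

namespace Pool.Agent.Helper60.E8Z

open Pool.Agent.Helper73.E8.Ez Pool.Agent.Helper64.E8C Pool.Agent.Helper73.E8.Xc

/-- 1860 times the frame. -/
def fw5 : List (List (List ℤ)) := [[[.ofNat 217, .ofNat 247, .ofNat 157, .ofNat 267, .ofNat 197], [.negSucc 32,
  .negSucc 92, .negSucc 112, .negSucc 102, .negSucc 122], [.ofNat 83, .ofNat 153, .ofNat 213, .ofNat 243, .ofNat 83],
  [.negSucc 202, .negSucc 212, .negSucc 232, .negSucc 212, .negSucc 222], [.negSucc 112, .negSucc 112, .negSucc 122,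
  .negSucc 132, .ofNat 17], [.ofNat 3, .ofNat 13, .ofNat 13, .ofNat 13, .ofNat 113], [.ofNat 17, .negSucc 122, .negSucc
  42, .ofNat 57, .negSucc 62], [.negSucc 46, .ofNat 63, .negSucc 66, .negSucc 56, .negSucc 46]], [[.ofNat 17, .negSucc
  122, .negSucc 42, .ofNat 57, .negSucc 62], [.negSucc 112, .negSucc 62, .negSucc 132, .negSucc 42, .negSucc 112],
  [.negSucc 46, .ofNat 133, .ofNat 13, .ofNat 53, .ofNat 3], [.negSucc 12, .negSucc 62, .ofNat 127, .ofNat 57, .ofNat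
  47], [.negSucc 32, .negSucc 112, .negSucc 102, .negSucc 122, .negSucc 92], [.ofNat 153, .ofNat 153, .ofNat 183, .ofNat
  143, .ofNat 143], [.ofNat 217, .ofNat 207, .ofNat 197, .ofNat 217, .ofNat 247], [.ofNat 173, .ofNat 153, .ofNat 223,
  .ofNat 323, .ofNat 213]], [[.ofNat 157, .ofNat 267, .ofNat 197, .ofNat 217, .ofNat 247], [.negSucc 112, .negSucc 102,
  .negSucc 122, .negSucc 32, .negSucc 92], [.ofNat 213, .ofNat 243, .ofNat 83, .ofNat 83, .ofNat 153], [.negSucc 232,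
  .negSucc 212, .negSucc 222, .negSucc 202, .negSucc 212], [.negSucc 122, .negSucc 132, .ofNat 17, .negSucc 112,
  .negSucc 112], [.ofNat 13, .ofNat 13, .ofNat 113, .ofNat 3, .ofNat 13], [.negSucc 42, .ofNat 57, .negSucc 62, .ofNat
  17, .negSucc 122], [.negSucc 66, .negSucc 56, .negSucc 46, .negSucc 46, .ofNat 63]], [[.negSucc 42, .ofNat 57,
  .negSucc 62, .ofNat 17, .negSucc 122], [.negSucc 132, .negSucc 42, .negSucc 112, .negSucc 112, .negSucc 62], [.ofNat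
  13, .ofNat 53, .ofNat 3, .negSucc 46, .ofNat 133], [.ofNat 127, .ofNat 57, .ofNat 47, .negSucc 12, .negSucc 62],
  [.negSucc 102, .negSucc 122, .negSucc 92, .negSucc 32, .negSucc 112], [.ofNat 183, .ofNat 143, .ofNat 143, .ofNat 153,
  .ofNat 153], [.ofNat 197, .ofNat 217, .ofNat 247, .ofNat 217, .ofNat 207], [.ofNat 223, .ofNat 323, .ofNat 213, .ofNat
  173, .ofNat 153]], [[.ofNat 197, .ofNat 217, .ofNat 247, .ofNat 157, .ofNat 267], [.negSucc 122, .negSucc 32, .negSucc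
  92, .negSucc 112, .negSucc 102], [.ofNat 83, .ofNat 83, .ofNat 153, .ofNat 213, .ofNat 243], [.negSucc 222, .negSucc
  202, .negSucc 212, .negSucc 232, .negSucc 212], [.ofNat 17, .negSucc 112, .negSucc 112, .negSucc 122, .negSucc 132],
  [.ofNat 113, .ofNat 3, .ofNat 13, .ofNat 13, .ofNat 13], [.negSucc 62, .ofNat 17, .negSucc 122, .negSucc 42, .ofNat
  57], [.negSucc 46, .negSucc 46, .ofNat 63, .negSucc 66, .negSucc 56]], [[.negSucc 62, .ofNat 17, .negSucc 122,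
  .negSucc 42, .ofNat 57], [.negSucc 112, .negSucc 112, .negSucc 62, .negSucc 132, .negSucc 42], [.ofNat 3, .negSucc 46,
  .ofNat 133, .ofNat 13, .ofNat 53], [.ofNat 47, .negSucc 12, .negSucc 62, .ofNat 127, .ofNat 57], [.negSucc 92,
  .negSucc 32, .negSucc 112, .negSucc 102, .negSucc 122], [.ofNat 143, .ofNat 153, .ofNat 153, .ofNat 183, .ofNat 143],
  [.ofNat 247, .ofNat 217, .ofNat 207, .ofNat 197, .ofNat 217], [.ofNat 213, .ofNat 173, .ofNat 153, .ofNat 223, .ofNat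
  323]], [[.ofNat 247, .ofNat 157, .ofNat 267, .ofNat 197, .ofNat 217], [.negSucc 92, .negSucc 112, .negSucc 102,
  .negSucc 122, .negSucc 32], [.ofNat 153, .ofNat 213, .ofNat 243, .ofNat 83, .ofNat 83], [.negSucc 212, .negSucc 232,
  .negSucc 212, .negSucc 222, .negSucc 202], [.negSucc 112, .negSucc 122, .negSucc 132, .ofNat 17, .negSucc 112],
  [.ofNat 13, .ofNat 13, .ofNat 13, .ofNat 113, .ofNat 3], [.negSucc 122, .negSucc 42, .ofNat 57, .negSucc 62, .ofNat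
  17], [.ofNat 63, .negSucc 66, .negSucc 56, .negSucc 46, .negSucc 46]], [[.negSucc 122, .negSucc 42, .ofNat 57,
  .negSucc 62, .ofNat 17], [.negSucc 62, .negSucc 132, .negSucc 42, .negSucc 112, .negSucc 112], [.ofNat 133, .ofNat 13,
  .ofNat 53, .ofNat 3, .negSucc 46], [.negSucc 62, .ofNat 127, .ofNat 57, .ofNat 47, .negSucc 12], [.negSucc 112,
  .negSucc 102, .negSucc 122, .negSucc 92, .negSucc 32], [.ofNat 153, .ofNat 183, .ofNat 143, .ofNat 143, .ofNat 153],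
  [.ofNat 207, .ofNat 197, .ofNat 217, .ofNat 247, .ofNat 217], [.ofNat 153, .ofNat 223, .ofNat 323, .ofNat 213, .ofNat
  173]], [[.ofNat 267, .ofNat 197, .ofNat 217, .ofNat 247, .ofNat 157], [.negSucc 102, .negSucc 122, .negSucc 32,
  .negSucc 92, .negSucc 112], [.ofNat 243, .ofNat 83, .ofNat 83, .ofNat 153, .ofNat 213], [.negSucc 212, .negSucc 222,
  .negSucc 202, .negSucc 212, .negSucc 232], [.negSucc 132, .ofNat 17, .negSucc 112, .negSucc 112, .negSucc 122],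
  [.ofNat 13, .ofNat 113, .ofNat 3, .ofNat 13, .ofNat 13], [.ofNat 57, .negSucc 62, .ofNat 17, .negSucc 122, .negSucc
  42], [.negSucc 56, .negSucc 46, .negSucc 46, .ofNat 63, .negSucc 66]], [[.ofNat 57, .negSucc 62, .ofNat 17, .negSucc
  122, .negSucc 42], [.negSucc 42, .negSucc 112, .negSucc 112, .negSucc 62, .negSucc 132], [.ofNat 53, .ofNat 3,
  .negSucc 46, .ofNat 133, .ofNat 13], [.ofNat 57, .ofNat 47, .negSucc 12, .negSucc 62, .ofNat 127], [.negSucc 122,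
  .negSucc 92, .negSucc 32, .negSucc 112, .negSucc 102], [.ofNat 143, .ofNat 143, .ofNat 153, .ofNat 153, .ofNat 183],
  [.ofNat 217, .ofNat 247, .ofNat 217, .ofNat 207, .ofNat 197], [.ofNat 323, .ofNat 213, .ofNat 173, .ofNat 153, .ofNat
  223]], [[.ofNat 47, .negSucc 62, .ofNat 67, .ofNat 57, .ofNat 47], [.negSucc 152, .negSucc 232, .negSucc 112, .negSucc
  122, .negSucc 152], [.ofNat 53, .ofNat 123, .ofNat 133, .ofNat 43, .ofNat 113], [.ofNat 267, .ofNat 257, .ofNat 127,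
  .ofNat 247, .ofNat 187], [.ofNat 17, .negSucc 82, .ofNat 27, .negSucc 102, .negSucc 12], [.ofNat 33, .ofNat 53, .ofNat
  103, .ofNat 123, .ofNat 153], [.negSucc 172, .negSucc 152, .negSucc 222, .negSucc 322, .negSucc 212], [.ofNat 3,
  .ofNat 93, .ofNat 43, .ofNat 33, .negSucc 16]], [[.negSucc 232, .negSucc 212, .negSucc 222, .negSucc 202, .negSucc
  212], [.negSucc 22, .negSucc 32, .ofNat 17, .negSucc 72, .negSucc 42], [.ofNat 53, .ofNat 43, .ofNat 183, .ofNat 93,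
  .ofNat 93], [.negSucc 62, .negSucc 92, .ofNat 77, .negSucc 32, .negSucc 42], [.negSucc 172, .negSucc 232, .negSucc 62,
  .negSucc 152, .negSucc 152], [.ofNat 123, .ofNat 133, .ofNat 103, .ofNat 53, .ofNat 53], [.ofNat 127, .ofNat 57,
  .ofNat 47, .negSucc 12, .negSucc 62], [.negSucc 126, .negSucc 246, .negSucc 186, .negSucc 266, .negSucc 256]],
  [[.ofNat 67, .ofNat 57, .ofNat 47, .ofNat 47, .negSucc 62], [.negSucc 112, .negSucc 122, .negSucc 152, .negSucc 152,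
  .negSucc 232], [.ofNat 133, .ofNat 43, .ofNat 113, .ofNat 53, .ofNat 123], [.ofNat 127, .ofNat 247, .ofNat 187, .ofNat
  267, .ofNat 257], [.ofNat 27, .negSucc 102, .negSucc 12, .ofNat 17, .negSucc 82], [.ofNat 103, .ofNat 123, .ofNat 153,
  .ofNat 33, .ofNat 53], [.negSucc 222, .negSucc 322, .negSucc 212, .negSucc 172, .negSucc 152], [.ofNat 43, .ofNat 33,
  .negSucc 16, .ofNat 3, .ofNat 93]], [[.negSucc 222, .negSucc 202, .negSucc 212, .negSucc 232, .negSucc 212], [.ofNat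
  17, .negSucc 72, .negSucc 42, .negSucc 22, .negSucc 32], [.ofNat 183, .ofNat 93, .ofNat 93, .ofNat 53, .ofNat 43],
  [.ofNat 77, .negSucc 32, .negSucc 42, .negSucc 62, .negSucc 92], [.negSucc 62, .negSucc 152, .negSucc 152, .negSucc
  172, .negSucc 232], [.ofNat 103, .ofNat 53, .ofNat 53, .ofNat 123, .ofNat 133], [.ofNat 47, .negSucc 12, .negSucc 62,
  .ofNat 127, .ofNat 57], [.negSucc 186, .negSucc 266, .negSucc 256, .negSucc 126, .negSucc 246]], [[.ofNat 47, .ofNat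
  47, .negSucc 62, .ofNat 67, .ofNat 57], [.negSucc 152, .negSucc 152, .negSucc 232, .negSucc 112, .negSucc 122],
  [.ofNat 113, .ofNat 53, .ofNat 123, .ofNat 133, .ofNat 43], [.ofNat 187, .ofNat 267, .ofNat 257, .ofNat 127, .ofNat
  247], [.negSucc 12, .ofNat 17, .negSucc 82, .ofNat 27, .negSucc 102], [.ofNat 153, .ofNat 33, .ofNat 53, .ofNat 103,
  .ofNat 123], [.negSucc 212, .negSucc 172, .negSucc 152, .negSucc 222, .negSucc 322], [.negSucc 16, .ofNat 3, .ofNat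
  93, .ofNat 43, .ofNat 33]], [[.negSucc 212, .negSucc 232, .negSucc 212, .negSucc 222, .negSucc 202], [.negSucc 42,
  .negSucc 22, .negSucc 32, .ofNat 17, .negSucc 72], [.ofNat 93, .ofNat 53, .ofNat 43, .ofNat 183, .ofNat 93], [.negSucc
  42, .negSucc 62, .negSucc 92, .ofNat 77, .negSucc 32], [.negSucc 152, .negSucc 172, .negSucc 232, .negSucc 62,
  .negSucc 152], [.ofNat 53, .ofNat 123, .ofNat 133, .ofNat 103, .ofNat 53], [.negSucc 62, .ofNat 127, .ofNat 57, .ofNat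
  47, .negSucc 12], [.negSucc 256, .negSucc 126, .negSucc 246, .negSucc 186, .negSucc 266]], [[.negSucc 62, .ofNat 67,
  .ofNat 57, .ofNat 47, .ofNat 47], [.negSucc 232, .negSucc 112, .negSucc 122, .negSucc 152, .negSucc 152], [.ofNat 123,
  .ofNat 133, .ofNat 43, .ofNat 113, .ofNat 53], [.ofNat 257, .ofNat 127, .ofNat 247, .ofNat 187, .ofNat 267], [.negSucc
  82, .ofNat 27, .negSucc 102, .negSucc 12, .ofNat 17], [.ofNat 53, .ofNat 103, .ofNat 123, .ofNat 153, .ofNat 33],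
  [.negSucc 152, .negSucc 222, .negSucc 322, .negSucc 212, .negSucc 172], [.ofNat 93, .ofNat 43, .ofNat 33, .negSucc 16,
  .ofNat 3]], [[.negSucc 212, .negSucc 222, .negSucc 202, .negSucc 212, .negSucc 232], [.negSucc 32, .ofNat 17, .negSucc
  72, .negSucc 42, .negSucc 22], [.ofNat 43, .ofNat 183, .ofNat 93, .ofNat 93, .ofNat 53], [.negSucc 92, .ofNat 77,
  .negSucc 32, .negSucc 42, .negSucc 62], [.negSucc 232, .negSucc 62, .negSucc 152, .negSucc 152, .negSucc 172], [.ofNat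
  133, .ofNat 103, .ofNat 53, .ofNat 53, .ofNat 123], [.ofNat 57, .ofNat 47, .negSucc 12, .negSucc 62, .ofNat 127],
  [.negSucc 246, .negSucc 186, .negSucc 266, .negSucc 256, .negSucc 126]], [[.ofNat 57, .ofNat 47, .ofNat 47, .negSucc
  62, .ofNat 67], [.negSucc 122, .negSucc 152, .negSucc 152, .negSucc 232, .negSucc 112], [.ofNat 43, .ofNat 113, .ofNat
  53, .ofNat 123, .ofNat 133], [.ofNat 247, .ofNat 187, .ofNat 267, .ofNat 257, .ofNat 127], [.negSucc 102, .negSucc 12,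
  .ofNat 17, .negSucc 82, .ofNat 27], [.ofNat 123, .ofNat 153, .ofNat 33, .ofNat 53, .ofNat 103], [.negSucc 322,
  .negSucc 212, .negSucc 172, .negSucc 152, .negSucc 222], [.ofNat 33, .negSucc 16, .ofNat 3, .ofNat 93, .ofNat 43]],
  [[.negSucc 202, .negSucc 212, .negSucc 232, .negSucc 212, .negSucc 222], [.negSucc 72, .negSucc 42, .negSucc 22,
  .negSucc 32, .ofNat 17], [.ofNat 93, .ofNat 93, .ofNat 53, .ofNat 43, .ofNat 183], [.negSucc 32, .negSucc 42, .negSucc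
  62, .negSucc 92, .ofNat 77], [.negSucc 152, .negSucc 152, .negSucc 172, .negSucc 232, .negSucc 62], [.ofNat 53, .ofNat
  53, .ofNat 123, .ofNat 133, .ofNat 103], [.negSucc 12, .negSucc 62, .ofNat 127, .ofNat 57, .ofNat 47], [.negSucc 266,
  .negSucc 256, .negSucc 126, .negSucc 246, .negSucc 186]], [[.negSucc 112, .negSucc 112, .negSucc 122, .negSucc 132,
  .ofNat 17], [.negSucc 2, .negSucc 12, .negSucc 52, .negSucc 92, .ofNat 7], [.negSucc 26, .ofNat 13, .negSucc 66,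
  .negSucc 66, .negSucc 6], [.negSucc 152, .negSucc 152, .negSucc 172, .negSucc 232, .negSucc 62], [.ofNat 247, .ofNat
  117, .ofNat 197, .ofNat 287, .ofNat 237], [.ofNat 223, .ofNat 303, .ofNat 183, .ofNat 163, .ofNat 213], [.negSucc 32,
  .negSucc 112, .negSucc 102, .negSucc 122, .negSucc 92], [.negSucc 16, .ofNat 83, .negSucc 26, .ofNat 103, .ofNat 13]],
  [[.negSucc 92, .negSucc 112, .negSucc 102, .negSucc 122, .negSucc 32], [.ofNat 117, .ofNat 257, .ofNat 287, .ofNat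
  237, .ofNat 187], [.ofNat 243, .ofNat 243, .ofNat 163, .ofNat 213, .ofNat 223], [.negSucc 42, .negSucc 22, .negSucc
  32, .ofNat 17, .negSucc 72], [.negSucc 12, .negSucc 52, .negSucc 92, .ofNat 7, .negSucc 2], [.ofNat 13, .negSucc 126,
  .negSucc 6, .negSucc 126, .ofNat 93], [.negSucc 62, .negSucc 132, .negSucc 42, .negSucc 112, .negSucc 112], [.ofNat
  233, .ofNat 113, .ofNat 123, .ofNat 153, .ofNat 153]], [[.negSucc 122, .negSucc 132, .ofNat 17, .negSucc 112, .negSucc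
  112], [.negSucc 52, .negSucc 92, .ofNat 7, .negSucc 2, .negSucc 12], [.negSucc 66, .negSucc 66, .negSucc 6, .negSucc
  26, .ofNat 13], [.negSucc 172, .negSucc 232, .negSucc 62, .negSucc 152, .negSucc 152], [.ofNat 197, .ofNat 287, .ofNat
  237, .ofNat 247, .ofNat 117], [.ofNat 183, .ofNat 163, .ofNat 213, .ofNat 223, .ofNat 303], [.negSucc 102, .negSucc
  122, .negSucc 92, .negSucc 32, .negSucc 112], [.negSucc 26, .ofNat 103, .ofNat 13, .negSucc 16, .ofNat 83]],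
  [[.negSucc 102, .negSucc 122, .negSucc 32, .negSucc 92, .negSucc 112], [.ofNat 287, .ofNat 237, .ofNat 187, .ofNat
  117, .ofNat 257], [.ofNat 163, .ofNat 213, .ofNat 223, .ofNat 243, .ofNat 243], [.negSucc 32, .ofNat 17, .negSucc 72,
  .negSucc 42, .negSucc 22], [.negSucc 92, .ofNat 7, .negSucc 2, .negSucc 12, .negSucc 52], [.negSucc 6, .negSucc 126,
  .ofNat 93, .ofNat 13, .negSucc 126], [.negSucc 42, .negSucc 112, .negSucc 112, .negSucc 62, .negSucc 132], [.ofNat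
  123, .ofNat 153, .ofNat 153, .ofNat 233, .ofNat 113]], [[.ofNat 17, .negSucc 112, .negSucc 112, .negSucc 122, .negSucc
  132], [.ofNat 7, .negSucc 2, .negSucc 12, .negSucc 52, .negSucc 92], [.negSucc 6, .negSucc 26, .ofNat 13, .negSucc 66,
  .negSucc 66], [.negSucc 62, .negSucc 152, .negSucc 152, .negSucc 172, .negSucc 232], [.ofNat 237, .ofNat 247, .ofNat
  117, .ofNat 197, .ofNat 287], [.ofNat 213, .ofNat 223, .ofNat 303, .ofNat 183, .ofNat 163], [.negSucc 92, .negSucc 32,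
  .negSucc 112, .negSucc 102, .negSucc 122], [.ofNat 13, .negSucc 16, .ofNat 83, .negSucc 26, .ofNat 103]], [[.negSucc
  32, .negSucc 92, .negSucc 112, .negSucc 102, .negSucc 122], [.ofNat 187, .ofNat 117, .ofNat 257, .ofNat 287, .ofNat
  237], [.ofNat 223, .ofNat 243, .ofNat 243, .ofNat 163, .ofNat 213], [.negSucc 72, .negSucc 42, .negSucc 22, .negSucc
  32, .ofNat 17], [.negSucc 2, .negSucc 12, .negSucc 52, .negSucc 92, .ofNat 7], [.ofNat 93, .ofNat 13, .negSucc 126,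
  .negSucc 6, .negSucc 126], [.negSucc 112, .negSucc 62, .negSucc 132, .negSucc 42, .negSucc 112], [.ofNat 153, .ofNat
  233, .ofNat 113, .ofNat 123, .ofNat 153]], [[.negSucc 112, .negSucc 122, .negSucc 132, .ofNat 17, .negSucc 112],
  [.negSucc 12, .negSucc 52, .negSucc 92, .ofNat 7, .negSucc 2], [.ofNat 13, .negSucc 66, .negSucc 66, .negSucc 6,
  .negSucc 26], [.negSucc 152, .negSucc 172, .negSucc 232, .negSucc 62, .negSucc 152], [.ofNat 117, .ofNat 197, .ofNat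
  287, .ofNat 237, .ofNat 247], [.ofNat 303, .ofNat 183, .ofNat 163, .ofNat 213, .ofNat 223], [.negSucc 112, .negSucc
  102, .negSucc 122, .negSucc 92, .negSucc 32], [.ofNat 83, .negSucc 26, .ofNat 103, .ofNat 13, .negSucc 16]],
  [[.negSucc 112, .negSucc 102, .negSucc 122, .negSucc 32, .negSucc 92], [.ofNat 257, .ofNat 287, .ofNat 237, .ofNat
  187, .ofNat 117], [.ofNat 243, .ofNat 163, .ofNat 213, .ofNat 223, .ofNat 243], [.negSucc 22, .negSucc 32, .ofNat 17,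
  .negSucc 72, .negSucc 42], [.negSucc 52, .negSucc 92, .ofNat 7, .negSucc 2, .negSucc 12], [.negSucc 126, .negSucc 6,
  .negSucc 126, .ofNat 93, .ofNat 13], [.negSucc 132, .negSucc 42, .negSucc 112, .negSucc 112, .negSucc 62], [.ofNat
  113, .ofNat 123, .ofNat 153, .ofNat 153, .ofNat 233]], [[.negSucc 132, .ofNat 17, .negSucc 112, .negSucc 112, .negSucc
  122], [.negSucc 92, .ofNat 7, .negSucc 2, .negSucc 12, .negSucc 52], [.negSucc 66, .negSucc 6, .negSucc 26, .ofNat 13,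
  .negSucc 66], [.negSucc 232, .negSucc 62, .negSucc 152, .negSucc 152, .negSucc 172], [.ofNat 287, .ofNat 237, .ofNat
  247, .ofNat 117, .ofNat 197], [.ofNat 163, .ofNat 213, .ofNat 223, .ofNat 303, .ofNat 183], [.negSucc 122, .negSucc
  92, .negSucc 32, .negSucc 112, .negSucc 102], [.ofNat 103, .ofNat 13, .negSucc 16, .ofNat 83, .negSucc 26]],
  [[.negSucc 122, .negSucc 32, .negSucc 92, .negSucc 112, .negSucc 102], [.ofNat 237, .ofNat 187, .ofNat 117, .ofNat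
  257, .ofNat 287], [.ofNat 213, .ofNat 223, .ofNat 243, .ofNat 243, .ofNat 163], [.ofNat 17, .negSucc 72, .negSucc 42,
  .negSucc 22, .negSucc 32], [.ofNat 7, .negSucc 2, .negSucc 12, .negSucc 52, .negSucc 92], [.negSucc 126, .ofNat 93,
  .ofNat 13, .negSucc 126, .negSucc 6], [.negSucc 112, .negSucc 112, .negSucc 62, .negSucc 132, .negSucc 42], [.ofNat
  153, .ofNat 153, .ofNat 233, .ofNat 113, .ofNat 123]], [[.negSucc 2, .negSucc 12, .negSucc 12, .negSucc 12, .negSucc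
  112], [.negSucc 92, .negSucc 12, .ofNat 127, .ofNat 7, .ofNat 127], [.negSucc 226, .negSucc 236, .negSucc 216,
  .negSucc 116, .negSucc 286], [.negSucc 52, .negSucc 52, .negSucc 122, .negSucc 132, .negSucc 102], [.negSucc 222,
  .negSucc 302, .negSucc 182, .negSucc 162, .negSucc 212], [.ofNat 33, .ofNat 53, .ofNat 33, .ofNat 13, .ofNat 23],
  [.negSucc 152, .negSucc 152, .negSucc 182, .negSucc 142, .negSucc 142], [.ofNat 33, .ofNat 53, .ofNat 103, .ofNat 123,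
  .ofNat 153]], [[.negSucc 152, .negSucc 212, .negSucc 242, .negSucc 82, .negSucc 82], [.negSucc 242, .negSucc 242,
  .negSucc 162, .negSucc 212, .negSucc 222], [.ofNat 53, .negSucc 26, .ofNat 73, .ofNat 23, .ofNat 33], [.negSucc 92,
  .negSucc 52, .negSucc 42, .negSucc 182, .negSucc 92], [.negSucc 12, .ofNat 67, .ofNat 67, .ofNat 7, .ofNat 27],
  [.negSucc 236, .negSucc 216, .negSucc 116, .negSucc 286, .negSucc 226], [.negSucc 132, .negSucc 12, .negSucc 52,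
  .negSucc 2, .ofNat 47], [.ofNat 123, .ofNat 133, .ofNat 43, .ofNat 113, .ofNat 53]], [[.negSucc 12, .negSucc 12,
  .negSucc 112, .negSucc 2, .negSucc 12], [.ofNat 127, .ofNat 7, .ofNat 127, .negSucc 92, .negSucc 12], [.negSucc 216,
  .negSucc 116, .negSucc 286, .negSucc 226, .negSucc 236], [.negSucc 122, .negSucc 132, .negSucc 102, .negSucc 52,
  .negSucc 52], [.negSucc 182, .negSucc 162, .negSucc 212, .negSucc 222, .negSucc 302], [.ofNat 33, .ofNat 13, .ofNat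
  23, .ofNat 33, .ofNat 53], [.negSucc 182, .negSucc 142, .negSucc 142, .negSucc 152, .negSucc 152], [.ofNat 103, .ofNat
  123, .ofNat 153, .ofNat 33, .ofNat 53]], [[.negSucc 242, .negSucc 82, .negSucc 82, .negSucc 152, .negSucc 212],
  [.negSucc 162, .negSucc 212, .negSucc 222, .negSucc 242, .negSucc 242], [.ofNat 73, .ofNat 23, .ofNat 33, .ofNat 53,
  .negSucc 26], [.negSucc 42, .negSucc 182, .negSucc 92, .negSucc 92, .negSucc 52], [.ofNat 67, .ofNat 7, .ofNat 27,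
  .negSucc 12, .ofNat 67], [.negSucc 116, .negSucc 286, .negSucc 226, .negSucc 236, .negSucc 216], [.negSucc 52,
  .negSucc 2, .ofNat 47, .negSucc 132, .negSucc 12], [.ofNat 43, .ofNat 113, .ofNat 53, .ofNat 123, .ofNat 133]],
  [[.negSucc 112, .negSucc 2, .negSucc 12, .negSucc 12, .negSucc 12], [.ofNat 127, .negSucc 92, .negSucc 12, .ofNat 127,
  .ofNat 7], [.negSucc 286, .negSucc 226, .negSucc 236, .negSucc 216, .negSucc 116], [.negSucc 102, .negSucc 52,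
  .negSucc 52, .negSucc 122, .negSucc 132], [.negSucc 212, .negSucc 222, .negSucc 302, .negSucc 182, .negSucc 162],
  [.ofNat 23, .ofNat 33, .ofNat 53, .ofNat 33, .ofNat 13], [.negSucc 142, .negSucc 152, .negSucc 152, .negSucc 182,
  .negSucc 142], [.ofNat 153, .ofNat 33, .ofNat 53, .ofNat 103, .ofNat 123]], [[.negSucc 82, .negSucc 152, .negSucc 212,
  .negSucc 242, .negSucc 82], [.negSucc 222, .negSucc 242, .negSucc 242, .negSucc 162, .negSucc 212], [.ofNat 33, .ofNat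
  53, .negSucc 26, .ofNat 73, .ofNat 23], [.negSucc 92, .negSucc 92, .negSucc 52, .negSucc 42, .negSucc 182], [.ofNat
  27, .negSucc 12, .ofNat 67, .ofNat 67, .ofNat 7], [.negSucc 226, .negSucc 236, .negSucc 216, .negSucc 116, .negSucc
  286], [.ofNat 47, .negSucc 132, .negSucc 12, .negSucc 52, .negSucc 2], [.ofNat 53, .ofNat 123, .ofNat 133, .ofNat 43,
  .ofNat 113]], [[.negSucc 12, .negSucc 12, .negSucc 12, .negSucc 112, .negSucc 2], [.negSucc 12, .ofNat 127, .ofNat 7,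
  .ofNat 127, .negSucc 92], [.negSucc 236, .negSucc 216, .negSucc 116, .negSucc 286, .negSucc 226], [.negSucc 52,
  .negSucc 122, .negSucc 132, .negSucc 102, .negSucc 52], [.negSucc 302, .negSucc 182, .negSucc 162, .negSucc 212,
  .negSucc 222], [.ofNat 53, .ofNat 33, .ofNat 13, .ofNat 23, .ofNat 33], [.negSucc 152, .negSucc 182, .negSucc 142,
  .negSucc 142, .negSucc 152], [.ofNat 53, .ofNat 103, .ofNat 123, .ofNat 153, .ofNat 33]], [[.negSucc 212, .negSucc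
  242, .negSucc 82, .negSucc 82, .negSucc 152], [.negSucc 242, .negSucc 162, .negSucc 212, .negSucc 222, .negSucc 242],
  [.negSucc 26, .ofNat 73, .ofNat 23, .ofNat 33, .ofNat 53], [.negSucc 52, .negSucc 42, .negSucc 182, .negSucc 92,
  .negSucc 92], [.ofNat 67, .ofNat 67, .ofNat 7, .ofNat 27, .negSucc 12], [.negSucc 216, .negSucc 116, .negSucc 286,
  .negSucc 226, .negSucc 236], [.negSucc 12, .negSucc 52, .negSucc 2, .ofNat 47, .negSucc 132], [.ofNat 133, .ofNat 43,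
  .ofNat 113, .ofNat 53, .ofNat 123]], [[.negSucc 12, .negSucc 112, .negSucc 2, .negSucc 12, .negSucc 12], [.ofNat 7,
  .ofNat 127, .negSucc 92, .negSucc 12, .ofNat 127], [.negSucc 116, .negSucc 286, .negSucc 226, .negSucc 236, .negSucc
  216], [.negSucc 132, .negSucc 102, .negSucc 52, .negSucc 52, .negSucc 122], [.negSucc 162, .negSucc 212, .negSucc 222,
  .negSucc 302, .negSucc 182], [.ofNat 13, .ofNat 23, .ofNat 33, .ofNat 53, .ofNat 33], [.negSucc 142, .negSucc 142,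
  .negSucc 152, .negSucc 152, .negSucc 182], [.ofNat 123, .ofNat 153, .ofNat 33, .ofNat 53, .ofNat 103]], [[.negSucc 82,
  .negSucc 82, .negSucc 152, .negSucc 212, .negSucc 242], [.negSucc 212, .negSucc 222, .negSucc 242, .negSucc 242,
  .negSucc 162], [.ofNat 23, .ofNat 33, .ofNat 53, .negSucc 26, .ofNat 73], [.negSucc 182, .negSucc 92, .negSucc 92,
  .negSucc 52, .negSucc 42], [.ofNat 7, .ofNat 27, .negSucc 12, .ofNat 67, .ofNat 67], [.negSucc 286, .negSucc 226,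
  .negSucc 236, .negSucc 216, .negSucc 116], [.negSucc 2, .ofNat 47, .negSucc 132, .negSucc 12, .negSucc 52], [.ofNat
  113, .ofNat 53, .ofNat 123, .ofNat 133, .ofNat 43]]]

/-- Words. -/
def g3w : List (List (List ℤ)) := [[[.ofNat 42, .ofNat 48, .ofNat 34, .ofNat 51, .ofNat 42], [.ofNat 4, .negSucc 6,
  .negSucc 9, .negSucc 7, .negSucc 9], [.ofNat 7, .ofNat 18, .ofNat 28, .ofNat 32, .ofNat 8], [.negSucc 20, .negSucc 24,
  .negSucc 27, .negSucc 23, .negSucc 25], [.negSucc 8, .negSucc 9, .negSucc 10, .negSucc 11, .ofNat 11], [.negSucc 4,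
  .negSucc 1, .negSucc 3, .negSucc 1, .ofNat 13], [.ofNat 7, .negSucc 13, .negSucc 2, .ofNat 13, .negSucc 2], [.negSucc
  13, .ofNat 1, .negSucc 17, .negSucc 15, .negSucc 14]], [[.ofNat 7, .negSucc 13, .negSucc 2, .ofNat 13, .negSucc 2],
  [.negSucc 9, .negSucc 0, .negSucc 11, .ofNat 1, .negSucc 8], [.negSucc 11, .ofNat 16, .negSucc 1, .ofNat 3, .negSucc
  4], [.ofNat 4, .negSucc 0, .ofNat 28, .ofNat 16, .ofNat 15], [.ofNat 3, .negSucc 9, .negSucc 7, .negSucc 9, .negSucc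
  5], [.ofNat 18, .ofNat 18, .ofNat 22, .ofNat 18, .ofNat 17], [.ofNat 44, .ofNat 41, .ofNat 42, .ofNat 42, .ofNat 48],
  [.ofNat 18, .ofNat 14, .ofNat 26, .ofNat 41, .ofNat 25]], [[.ofNat 34, .ofNat 51, .ofNat 42, .ofNat 42, .ofNat 48],
  [.negSucc 9, .negSucc 7, .negSucc 9, .ofNat 4, .negSucc 6], [.ofNat 28, .ofNat 32, .ofNat 8, .ofNat 7, .ofNat 18],
  [.negSucc 27, .negSucc 23, .negSucc 25, .negSucc 20, .negSucc 24], [.negSucc 10, .negSucc 11, .ofNat 11, .negSucc 8,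
  .negSucc 9], [.negSucc 3, .negSucc 1, .ofNat 13, .negSucc 4, .negSucc 1], [.negSucc 2, .ofNat 13, .negSucc 2, .ofNat
  7, .negSucc 13], [.negSucc 17, .negSucc 15, .negSucc 14, .negSucc 13, .ofNat 1]], [[.negSucc 2, .ofNat 13, .negSucc 2,
  .ofNat 7, .negSucc 13], [.negSucc 11, .ofNat 1, .negSucc 8, .negSucc 9, .negSucc 0], [.negSucc 1, .ofNat 3, .negSucc
  4, .negSucc 11, .ofNat 16], [.ofNat 28, .ofNat 16, .ofNat 15, .ofNat 4, .negSucc 0], [.negSucc 7, .negSucc 9, .negSucc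
  5, .ofNat 3, .negSucc 9], [.ofNat 22, .ofNat 18, .ofNat 17, .ofNat 18, .ofNat 18], [.ofNat 42, .ofNat 42, .ofNat 48,
  .ofNat 44, .ofNat 41], [.ofNat 26, .ofNat 41, .ofNat 25, .ofNat 18, .ofNat 14]], [[.ofNat 42, .ofNat 42, .ofNat 48,
  .ofNat 34, .ofNat 51], [.negSucc 9, .ofNat 4, .negSucc 6, .negSucc 9, .negSucc 7], [.ofNat 8, .ofNat 7, .ofNat 18,
  .ofNat 28, .ofNat 32], [.negSucc 25, .negSucc 20, .negSucc 24, .negSucc 27, .negSucc 23], [.ofNat 11, .negSucc 8,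
  .negSucc 9, .negSucc 10, .negSucc 11], [.ofNat 13, .negSucc 4, .negSucc 1, .negSucc 3, .negSucc 1], [.negSucc 2,
  .ofNat 7, .negSucc 13, .negSucc 2, .ofNat 13], [.negSucc 14, .negSucc 13, .ofNat 1, .negSucc 17, .negSucc 15]],
  [[.negSucc 2, .ofNat 7, .negSucc 13, .negSucc 2, .ofNat 13], [.negSucc 8, .negSucc 9, .negSucc 0, .negSucc 11, .ofNat
  1], [.negSucc 4, .negSucc 11, .ofNat 16, .negSucc 1, .ofNat 3], [.ofNat 15, .ofNat 4, .negSucc 0, .ofNat 28, .ofNat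
  16], [.negSucc 5, .ofNat 3, .negSucc 9, .negSucc 7, .negSucc 9], [.ofNat 17, .ofNat 18, .ofNat 18, .ofNat 22, .ofNat
  18], [.ofNat 48, .ofNat 44, .ofNat 41, .ofNat 42, .ofNat 42], [.ofNat 25, .ofNat 18, .ofNat 14, .ofNat 26, .ofNat
  41]], [[.ofNat 48, .ofNat 34, .ofNat 51, .ofNat 42, .ofNat 42], [.negSucc 6, .negSucc 9, .negSucc 7, .negSucc 9,
  .ofNat 4], [.ofNat 18, .ofNat 28, .ofNat 32, .ofNat 8, .ofNat 7], [.negSucc 24, .negSucc 27, .negSucc 23, .negSucc 25,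
  .negSucc 20], [.negSucc 9, .negSucc 10, .negSucc 11, .ofNat 11, .negSucc 8], [.negSucc 1, .negSucc 3, .negSucc 1,
  .ofNat 13, .negSucc 4], [.negSucc 13, .negSucc 2, .ofNat 13, .negSucc 2, .ofNat 7], [.ofNat 1, .negSucc 17, .negSucc
  15, .negSucc 14, .negSucc 13]], [[.negSucc 13, .negSucc 2, .ofNat 13, .negSucc 2, .ofNat 7], [.negSucc 0, .negSucc 11,
  .ofNat 1, .negSucc 8, .negSucc 9], [.ofNat 16, .negSucc 1, .ofNat 3, .negSucc 4, .negSucc 11], [.negSucc 0, .ofNat 28,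
  .ofNat 16, .ofNat 15, .ofNat 4], [.negSucc 9, .negSucc 7, .negSucc 9, .negSucc 5, .ofNat 3], [.ofNat 18, .ofNat 22,
  .ofNat 18, .ofNat 17, .ofNat 18], [.ofNat 41, .ofNat 42, .ofNat 42, .ofNat 48, .ofNat 44], [.ofNat 14, .ofNat 26,
  .ofNat 41, .ofNat 25, .ofNat 18]], [[.ofNat 51, .ofNat 42, .ofNat 42, .ofNat 48, .ofNat 34], [.negSucc 7, .negSucc 9,
  .ofNat 4, .negSucc 6, .negSucc 9], [.ofNat 32, .ofNat 8, .ofNat 7, .ofNat 18, .ofNat 28], [.negSucc 23, .negSucc 25,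
  .negSucc 20, .negSucc 24, .negSucc 27], [.negSucc 11, .ofNat 11, .negSucc 8, .negSucc 9, .negSucc 10], [.negSucc 1,
  .ofNat 13, .negSucc 4, .negSucc 1, .negSucc 3], [.ofNat 13, .negSucc 2, .ofNat 7, .negSucc 13, .negSucc 2], [.negSucc
  15, .negSucc 14, .negSucc 13, .ofNat 1, .negSucc 17]], [[.ofNat 13, .negSucc 2, .ofNat 7, .negSucc 13, .negSucc 2],
  [.ofNat 1, .negSucc 8, .negSucc 9, .negSucc 0, .negSucc 11], [.ofNat 3, .negSucc 4, .negSucc 11, .ofNat 16, .negSucc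
  1], [.ofNat 16, .ofNat 15, .ofNat 4, .negSucc 0, .ofNat 28], [.negSucc 9, .negSucc 5, .ofNat 3, .negSucc 9, .negSucc
  7], [.ofNat 18, .ofNat 17, .ofNat 18, .ofNat 18, .ofNat 22], [.ofNat 42, .ofNat 48, .ofNat 44, .ofNat 41, .ofNat 42],
  [.ofNat 41, .ofNat 25, .ofNat 18, .ofNat 14, .ofNat 26]], [[.ofNat 14, .negSucc 0, .ofNat 18, .ofNat 16, .ofNat 15],
  [.negSucc 17, .negSucc 30, .negSucc 10, .negSucc 14, .negSucc 17], [.ofNat 0, .ofNat 11, .ofNat 12, .negSucc 0, .ofNat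
  9], [.ofNat 44, .ofNat 43, .ofNat 23, .ofNat 42, .ofNat 34], [.ofNat 8, .negSucc 9, .ofNat 9, .negSucc 10, .ofNat 4],
  [.negSucc 2, .ofNat 0, .ofNat 8, .ofNat 10, .ofNat 16], [.negSucc 17, .negSucc 13, .negSucc 25, .negSucc 40, .negSucc
  24], [.negSucc 11, .ofNat 4, .negSucc 2, .negSucc 5, .negSucc 13]], [[.negSucc 27, .negSucc 23, .negSucc 25, .negSucc
  20, .negSucc 24], [.ofNat 0, .negSucc 0, .ofNat 9, .negSucc 5, .negSucc 1], [.ofNat 0, .negSucc 1, .ofNat 20, .ofNat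
  6, .ofNat 7], [.ofNat 2, .negSucc 3, .ofNat 23, .ofNat 6, .ofNat 4], [.negSucc 20, .negSucc 30, .negSucc 4, .negSucc
  17, .negSucc 17], [.ofNat 11, .ofNat 12, .ofNat 9, .negSucc 0, .ofNat 0], [.ofNat 28, .ofNat 16, .ofNat 15, .ofNat 4,
  .negSucc 0], [.negSucc 22, .negSucc 41, .negSucc 33, .negSucc 43, .negSucc 42]], [[.ofNat 18, .ofNat 16, .ofNat 15,
  .ofNat 14, .negSucc 0], [.negSucc 10, .negSucc 14, .negSucc 17, .negSucc 17, .negSucc 30], [.ofNat 12, .negSucc 0,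
  .ofNat 9, .ofNat 0, .ofNat 11], [.ofNat 23, .ofNat 42, .ofNat 34, .ofNat 44, .ofNat 43], [.ofNat 9, .negSucc 10,
  .ofNat 4, .ofNat 8, .negSucc 9], [.ofNat 8, .ofNat 10, .ofNat 16, .negSucc 2, .ofNat 0], [.negSucc 25, .negSucc 40,
  .negSucc 24, .negSucc 17, .negSucc 13], [.negSucc 2, .negSucc 5, .negSucc 13, .negSucc 11, .ofNat 4]], [[.negSucc 25,
  .negSucc 20, .negSucc 24, .negSucc 27, .negSucc 23], [.ofNat 9, .negSucc 5, .negSucc 1, .ofNat 0, .negSucc 0], [.ofNat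
  20, .ofNat 6, .ofNat 7, .ofNat 0, .negSucc 1], [.ofNat 23, .ofNat 6, .ofNat 4, .ofNat 2, .negSucc 3], [.negSucc 4,
  .negSucc 17, .negSucc 17, .negSucc 20, .negSucc 30], [.ofNat 9, .negSucc 0, .ofNat 0, .ofNat 11, .ofNat 12], [.ofNat
  15, .ofNat 4, .negSucc 0, .ofNat 28, .ofNat 16], [.negSucc 33, .negSucc 43, .negSucc 42, .negSucc 22, .negSucc 41]],
  [[.ofNat 15, .ofNat 14, .negSucc 0, .ofNat 18, .ofNat 16], [.negSucc 17, .negSucc 17, .negSucc 30, .negSucc 10,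
  .negSucc 14], [.ofNat 9, .ofNat 0, .ofNat 11, .ofNat 12, .negSucc 0], [.ofNat 34, .ofNat 44, .ofNat 43, .ofNat 23,
  .ofNat 42], [.ofNat 4, .ofNat 8, .negSucc 9, .ofNat 9, .negSucc 10], [.ofNat 16, .negSucc 2, .ofNat 0, .ofNat 8,
  .ofNat 10], [.negSucc 24, .negSucc 17, .negSucc 13, .negSucc 25, .negSucc 40], [.negSucc 13, .negSucc 11, .ofNat 4,
  .negSucc 2, .negSucc 5]], [[.negSucc 24, .negSucc 27, .negSucc 23, .negSucc 25, .negSucc 20], [.negSucc 1, .ofNat 0,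
  .negSucc 0, .ofNat 9, .negSucc 5], [.ofNat 7, .ofNat 0, .negSucc 1, .ofNat 20, .ofNat 6], [.ofNat 4, .ofNat 2,
  .negSucc 3, .ofNat 23, .ofNat 6], [.negSucc 17, .negSucc 20, .negSucc 30, .negSucc 4, .negSucc 17], [.ofNat 0, .ofNat
  11, .ofNat 12, .ofNat 9, .negSucc 0], [.negSucc 0, .ofNat 28, .ofNat 16, .ofNat 15, .ofNat 4], [.negSucc 42, .negSucc
  22, .negSucc 41, .negSucc 33, .negSucc 43]], [[.negSucc 0, .ofNat 18, .ofNat 16, .ofNat 15, .ofNat 14], [.negSucc 30,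
  .negSucc 10, .negSucc 14, .negSucc 17, .negSucc 17], [.ofNat 11, .ofNat 12, .negSucc 0, .ofNat 9, .ofNat 0], [.ofNat
  43, .ofNat 23, .ofNat 42, .ofNat 34, .ofNat 44], [.negSucc 9, .ofNat 9, .negSucc 10, .ofNat 4, .ofNat 8], [.ofNat 0,
  .ofNat 8, .ofNat 10, .ofNat 16, .negSucc 2], [.negSucc 13, .negSucc 25, .negSucc 40, .negSucc 24, .negSucc 17],
  [.ofNat 4, .negSucc 2, .negSucc 5, .negSucc 13, .negSucc 11]], [[.negSucc 23, .negSucc 25, .negSucc 20, .negSucc 24,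
  .negSucc 27], [.negSucc 0, .ofNat 9, .negSucc 5, .negSucc 1, .ofNat 0], [.negSucc 1, .ofNat 20, .ofNat 6, .ofNat 7,
  .ofNat 0], [.negSucc 3, .ofNat 23, .ofNat 6, .ofNat 4, .ofNat 2], [.negSucc 30, .negSucc 4, .negSucc 17, .negSucc 17,
  .negSucc 20], [.ofNat 12, .ofNat 9, .negSucc 0, .ofNat 0, .ofNat 11], [.ofNat 16, .ofNat 15, .ofNat 4, .negSucc 0,
  .ofNat 28], [.negSucc 41, .negSucc 33, .negSucc 43, .negSucc 42, .negSucc 22]], [[.ofNat 16, .ofNat 15, .ofNat 14,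
  .negSucc 0, .ofNat 18], [.negSucc 14, .negSucc 17, .negSucc 17, .negSucc 30, .negSucc 10], [.negSucc 0, .ofNat 9,
  .ofNat 0, .ofNat 11, .ofNat 12], [.ofNat 42, .ofNat 34, .ofNat 44, .ofNat 43, .ofNat 23], [.negSucc 10, .ofNat 4,
  .ofNat 8, .negSucc 9, .ofNat 9], [.ofNat 10, .ofNat 16, .negSucc 2, .ofNat 0, .ofNat 8], [.negSucc 40, .negSucc 24,
  .negSucc 17, .negSucc 13, .negSucc 25], [.negSucc 5, .negSucc 13, .negSucc 11, .ofNat 4, .negSucc 2]], [[.negSucc 20,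
  .negSucc 24, .negSucc 27, .negSucc 23, .negSucc 25], [.negSucc 5, .negSucc 1, .ofNat 0, .negSucc 0, .ofNat 9], [.ofNat
  6, .ofNat 7, .ofNat 0, .negSucc 1, .ofNat 20], [.ofNat 6, .ofNat 4, .ofNat 2, .negSucc 3, .ofNat 23], [.negSucc 17,
  .negSucc 17, .negSucc 20, .negSucc 30, .negSucc 4], [.negSucc 0, .ofNat 0, .ofNat 11, .ofNat 12, .ofNat 9], [.ofNat 4,
  .negSucc 0, .ofNat 28, .ofNat 16, .ofNat 15], [.negSucc 43, .negSucc 42, .negSucc 22, .negSucc 41, .negSucc 33]],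
  [[.negSucc 8, .negSucc 9, .negSucc 10, .negSucc 11, .ofNat 11], [.ofNat 3, .ofNat 3, .negSucc 2, .negSucc 7, .ofNat
  5], [.negSucc 13, .negSucc 4, .negSucc 16, .negSucc 17, .negSucc 7], [.negSucc 17, .negSucc 17, .negSucc 20, .negSucc
  30, .negSucc 4], [.ofNat 49, .ofNat 28, .ofNat 41, .ofNat 53, .ofNat 46], [.ofNat 26, .ofNat 38, .ofNat 19, .ofNat 17,
  .ofNat 24], [.ofNat 3, .negSucc 9, .negSucc 7, .negSucc 9, .negSucc 5], [.negSucc 7, .ofNat 10, .negSucc 8, .ofNat 11,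
  .negSucc 3]], [[.negSucc 6, .negSucc 9, .negSucc 7, .negSucc 9, .ofNat 4], [.ofNat 28, .ofNat 51, .ofNat 53, .ofNat
  46, .ofNat 39], [.ofNat 28, .ofNat 29, .ofNat 17, .ofNat 24, .ofNat 26], [.negSucc 1, .ofNat 0, .negSucc 0, .ofNat 9,
  .negSucc 5], [.ofNat 3, .negSucc 2, .negSucc 7, .ofNat 5, .ofNat 3], [.negSucc 4, .negSucc 26, .negSucc 7, .negSucc
  27, .ofNat 6], [.negSucc 0, .negSucc 11, .ofNat 1, .negSucc 8, .negSucc 9], [.ofNat 31, .ofNat 11, .ofNat 15, .ofNat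
  18, .ofNat 18]], [[.negSucc 10, .negSucc 11, .ofNat 11, .negSucc 8, .negSucc 9], [.negSucc 2, .negSucc 7, .ofNat 5,
  .ofNat 3, .ofNat 3], [.negSucc 16, .negSucc 17, .negSucc 7, .negSucc 13, .negSucc 4], [.negSucc 20, .negSucc 30,
  .negSucc 4, .negSucc 17, .negSucc 17], [.ofNat 41, .ofNat 53, .ofNat 46, .ofNat 49, .ofNat 28], [.ofNat 19, .ofNat 17,
  .ofNat 24, .ofNat 26, .ofNat 38], [.negSucc 7, .negSucc 9, .negSucc 5, .ofNat 3, .negSucc 9], [.negSucc 8, .ofNat 11,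
  .negSucc 3, .negSucc 7, .ofNat 10]], [[.negSucc 7, .negSucc 9, .ofNat 4, .negSucc 6, .negSucc 9], [.ofNat 53, .ofNat
  46, .ofNat 39, .ofNat 28, .ofNat 51], [.ofNat 17, .ofNat 24, .ofNat 26, .ofNat 28, .ofNat 29], [.negSucc 0, .ofNat 9,
  .negSucc 5, .negSucc 1, .ofNat 0], [.negSucc 7, .ofNat 5, .ofNat 3, .ofNat 3, .negSucc 2], [.negSucc 7, .negSucc 27,
  .ofNat 6, .negSucc 4, .negSucc 26], [.ofNat 1, .negSucc 8, .negSucc 9, .negSucc 0, .negSucc 11], [.ofNat 15, .ofNat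
  18, .ofNat 18, .ofNat 31, .ofNat 11]], [[.ofNat 11, .negSucc 8, .negSucc 9, .negSucc 10, .negSucc 11], [.ofNat 5,
  .ofNat 3, .ofNat 3, .negSucc 2, .negSucc 7], [.negSucc 7, .negSucc 13, .negSucc 4, .negSucc 16, .negSucc 17],
  [.negSucc 4, .negSucc 17, .negSucc 17, .negSucc 20, .negSucc 30], [.ofNat 46, .ofNat 49, .ofNat 28, .ofNat 41, .ofNat
  53], [.ofNat 24, .ofNat 26, .ofNat 38, .ofNat 19, .ofNat 17], [.negSucc 5, .ofNat 3, .negSucc 9, .negSucc 7, .negSucc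
  9], [.negSucc 3, .negSucc 7, .ofNat 10, .negSucc 8, .ofNat 11]], [[.ofNat 4, .negSucc 6, .negSucc 9, .negSucc 7,
  .negSucc 9], [.ofNat 39, .ofNat 28, .ofNat 51, .ofNat 53, .ofNat 46], [.ofNat 26, .ofNat 28, .ofNat 29, .ofNat 17,
  .ofNat 24], [.negSucc 5, .negSucc 1, .ofNat 0, .negSucc 0, .ofNat 9], [.ofNat 3, .ofNat 3, .negSucc 2, .negSucc 7,
  .ofNat 5], [.ofNat 6, .negSucc 4, .negSucc 26, .negSucc 7, .negSucc 27], [.negSucc 9, .negSucc 0, .negSucc 11, .ofNat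
  1, .negSucc 8], [.ofNat 18, .ofNat 31, .ofNat 11, .ofNat 15, .ofNat 18]], [[.negSucc 9, .negSucc 10, .negSucc 11,
  .ofNat 11, .negSucc 8], [.ofNat 3, .negSucc 2, .negSucc 7, .ofNat 5, .ofNat 3], [.negSucc 4, .negSucc 16, .negSucc 17,
  .negSucc 7, .negSucc 13], [.negSucc 17, .negSucc 20, .negSucc 30, .negSucc 4, .negSucc 17], [.ofNat 28, .ofNat 41,
  .ofNat 53, .ofNat 46, .ofNat 49], [.ofNat 38, .ofNat 19, .ofNat 17, .ofNat 24, .ofNat 26], [.negSucc 9, .negSucc 7,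
  .negSucc 9, .negSucc 5, .ofNat 3], [.ofNat 10, .negSucc 8, .ofNat 11, .negSucc 3, .negSucc 7]], [[.negSucc 9, .negSucc
  7, .negSucc 9, .ofNat 4, .negSucc 6], [.ofNat 51, .ofNat 53, .ofNat 46, .ofNat 39, .ofNat 28], [.ofNat 29, .ofNat 17,
  .ofNat 24, .ofNat 26, .ofNat 28], [.ofNat 0, .negSucc 0, .ofNat 9, .negSucc 5, .negSucc 1], [.negSucc 2, .negSucc 7,
  .ofNat 5, .ofNat 3, .ofNat 3], [.negSucc 26, .negSucc 7, .negSucc 27, .ofNat 6, .negSucc 4], [.negSucc 11, .ofNat 1,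
  .negSucc 8, .negSucc 9, .negSucc 0], [.ofNat 11, .ofNat 15, .ofNat 18, .ofNat 18, .ofNat 31]], [[.negSucc 11, .ofNat
  11, .negSucc 8, .negSucc 9, .negSucc 10], [.negSucc 7, .ofNat 5, .ofNat 3, .ofNat 3, .negSucc 2], [.negSucc 17,
  .negSucc 7, .negSucc 13, .negSucc 4, .negSucc 16], [.negSucc 30, .negSucc 4, .negSucc 17, .negSucc 17, .negSucc 20],
  [.ofNat 53, .ofNat 46, .ofNat 49, .ofNat 28, .ofNat 41], [.ofNat 17, .ofNat 24, .ofNat 26, .ofNat 38, .ofNat 19],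
  [.negSucc 9, .negSucc 5, .ofNat 3, .negSucc 9, .negSucc 7], [.ofNat 11, .negSucc 3, .negSucc 7, .ofNat 10, .negSucc
  8]], [[.negSucc 9, .ofNat 4, .negSucc 6, .negSucc 9, .negSucc 7], [.ofNat 46, .ofNat 39, .ofNat 28, .ofNat 51, .ofNat
  53], [.ofNat 24, .ofNat 26, .ofNat 28, .ofNat 29, .ofNat 17], [.ofNat 9, .negSucc 5, .negSucc 1, .ofNat 0, .negSucc
  0], [.ofNat 5, .ofNat 3, .ofNat 3, .negSucc 2, .negSucc 7], [.negSucc 27, .ofNat 6, .negSucc 4, .negSucc 26, .negSucc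
  7], [.negSucc 8, .negSucc 9, .negSucc 0, .negSucc 11, .ofNat 1], [.ofNat 18, .ofNat 18, .ofNat 31, .ofNat 11, .ofNat
  15]], [[.ofNat 5, .ofNat 2, .ofNat 4, .ofNat 2, .negSucc 12], [.negSucc 5, .ofNat 5, .ofNat 27, .ofNat 8, .ofNat 28],
  [.negSucc 39, .negSucc 38, .negSucc 35, .negSucc 21, .negSucc 48], [.ofNat 1, .ofNat 0, .negSucc 10, .negSucc 11,
  .negSucc 8], [.negSucc 25, .negSucc 37, .negSucc 18, .negSucc 16, .negSucc 23], [.negSucc 4, .negSucc 1, .negSucc 5,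
  .negSucc 8, .negSucc 8], [.negSucc 17, .negSucc 17, .negSucc 21, .negSucc 17, .negSucc 16], [.negSucc 2, .ofNat 0,
  .ofNat 8, .ofNat 10, .ofNat 16]], [[.negSucc 17, .negSucc 27, .negSucc 31, .negSucc 7, .negSucc 6], [.negSucc 27,
  .negSucc 28, .negSucc 16, .negSucc 23, .negSucc 25], [.negSucc 1, .negSucc 15, .ofNat 1, .negSucc 8, .negSucc 4],
  [.negSucc 6, .ofNat 0, .ofNat 2, .negSucc 19, .negSucc 5], [.ofNat 5, .ofNat 17, .ofNat 18, .ofNat 8, .ofNat 14],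
  [.negSucc 38, .negSucc 35, .negSucc 21, .negSucc 48, .negSucc 39], [.negSucc 15, .ofNat 2, .negSucc 2, .ofNat 5,
  .ofNat 12], [.ofNat 11, .ofNat 12, .negSucc 0, .ofNat 9, .ofNat 0]], [[.ofNat 4, .ofNat 2, .negSucc 12, .ofNat 5,
  .ofNat 2], [.ofNat 27, .ofNat 8, .ofNat 28, .negSucc 5, .ofNat 5], [.negSucc 35, .negSucc 21, .negSucc 48, .negSucc
  39, .negSucc 38], [.negSucc 10, .negSucc 11, .negSucc 8, .ofNat 1, .ofNat 0], [.negSucc 18, .negSucc 16, .negSucc 23,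
  .negSucc 25, .negSucc 37], [.negSucc 5, .negSucc 8, .negSucc 8, .negSucc 4, .negSucc 1], [.negSucc 21, .negSucc 17,
  .negSucc 16, .negSucc 17, .negSucc 17], [.ofNat 8, .ofNat 10, .ofNat 16, .negSucc 2, .ofNat 0]], [[.negSucc 31,
  .negSucc 7, .negSucc 6, .negSucc 17, .negSucc 27], [.negSucc 16, .negSucc 23, .negSucc 25, .negSucc 27, .negSucc 28],
  [.ofNat 1, .negSucc 8, .negSucc 4, .negSucc 1, .negSucc 15], [.ofNat 2, .negSucc 19, .negSucc 5, .negSucc 6, .ofNat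
  0], [.ofNat 18, .ofNat 8, .ofNat 14, .ofNat 5, .ofNat 17], [.negSucc 21, .negSucc 48, .negSucc 39, .negSucc 38,
  .negSucc 35], [.negSucc 2, .ofNat 5, .ofNat 12, .negSucc 15, .ofNat 2], [.negSucc 0, .ofNat 9, .ofNat 0, .ofNat 11,
  .ofNat 12]], [[.negSucc 12, .ofNat 5, .ofNat 2, .ofNat 4, .ofNat 2], [.ofNat 28, .negSucc 5, .ofNat 5, .ofNat 27,
  .ofNat 8], [.negSucc 48, .negSucc 39, .negSucc 38, .negSucc 35, .negSucc 21], [.negSucc 8, .ofNat 1, .ofNat 0,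
  .negSucc 10, .negSucc 11], [.negSucc 23, .negSucc 25, .negSucc 37, .negSucc 18, .negSucc 16], [.negSucc 8, .negSucc 4,
  .negSucc 1, .negSucc 5, .negSucc 8], [.negSucc 16, .negSucc 17, .negSucc 17, .negSucc 21, .negSucc 17], [.ofNat 16,
  .negSucc 2, .ofNat 0, .ofNat 8, .ofNat 10]], [[.negSucc 6, .negSucc 17, .negSucc 27, .negSucc 31, .negSucc 7],
  [.negSucc 25, .negSucc 27, .negSucc 28, .negSucc 16, .negSucc 23], [.negSucc 4, .negSucc 1, .negSucc 15, .ofNat 1,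
  .negSucc 8], [.negSucc 5, .negSucc 6, .ofNat 0, .ofNat 2, .negSucc 19], [.ofNat 14, .ofNat 5, .ofNat 17, .ofNat 18,
  .ofNat 8], [.negSucc 39, .negSucc 38, .negSucc 35, .negSucc 21, .negSucc 48], [.ofNat 12, .negSucc 15, .ofNat 2,
  .negSucc 2, .ofNat 5], [.ofNat 0, .ofNat 11, .ofNat 12, .negSucc 0, .ofNat 9]], [[.ofNat 2, .ofNat 4, .ofNat 2,
  .negSucc 12, .ofNat 5], [.ofNat 5, .ofNat 27, .ofNat 8, .ofNat 28, .negSucc 5], [.negSucc 38, .negSucc 35, .negSucc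
  21, .negSucc 48, .negSucc 39], [.ofNat 0, .negSucc 10, .negSucc 11, .negSucc 8, .ofNat 1], [.negSucc 37, .negSucc 18,
  .negSucc 16, .negSucc 23, .negSucc 25], [.negSucc 1, .negSucc 5, .negSucc 8, .negSucc 8, .negSucc 4], [.negSucc 17,
  .negSucc 21, .negSucc 17, .negSucc 16, .negSucc 17], [.ofNat 0, .ofNat 8, .ofNat 10, .ofNat 16, .negSucc 2]],
  [[.negSucc 27, .negSucc 31, .negSucc 7, .negSucc 6, .negSucc 17], [.negSucc 28, .negSucc 16, .negSucc 23, .negSucc 25,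
  .negSucc 27], [.negSucc 15, .ofNat 1, .negSucc 8, .negSucc 4, .negSucc 1], [.ofNat 0, .ofNat 2, .negSucc 19, .negSucc
  5, .negSucc 6], [.ofNat 17, .ofNat 18, .ofNat 8, .ofNat 14, .ofNat 5], [.negSucc 35, .negSucc 21, .negSucc 48,
  .negSucc 39, .negSucc 38], [.ofNat 2, .negSucc 2, .ofNat 5, .ofNat 12, .negSucc 15], [.ofNat 12, .negSucc 0, .ofNat 9,
  .ofNat 0, .ofNat 11]], [[.ofNat 2, .negSucc 12, .ofNat 5, .ofNat 2, .ofNat 4], [.ofNat 8, .ofNat 28, .negSucc 5,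
  .ofNat 5, .ofNat 27], [.negSucc 21, .negSucc 48, .negSucc 39, .negSucc 38, .negSucc 35], [.negSucc 11, .negSucc 8,
  .ofNat 1, .ofNat 0, .negSucc 10], [.negSucc 16, .negSucc 23, .negSucc 25, .negSucc 37, .negSucc 18], [.negSucc 8,
  .negSucc 8, .negSucc 4, .negSucc 1, .negSucc 5], [.negSucc 17, .negSucc 16, .negSucc 17, .negSucc 17, .negSucc 21],
  [.ofNat 10, .ofNat 16, .negSucc 2, .ofNat 0, .ofNat 8]], [[.negSucc 7, .negSucc 6, .negSucc 17, .negSucc 27, .negSucc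
  31], [.negSucc 23, .negSucc 25, .negSucc 27, .negSucc 28, .negSucc 16], [.negSucc 8, .negSucc 4, .negSucc 1, .negSucc
  15, .ofNat 1], [.negSucc 19, .negSucc 5, .negSucc 6, .ofNat 0, .ofNat 2], [.ofNat 8, .ofNat 14, .ofNat 5, .ofNat 17,
  .ofNat 18], [.negSucc 48, .negSucc 39, .negSucc 38, .negSucc 35, .negSucc 21], [.ofNat 5, .ofNat 12, .negSucc 15,
  .ofNat 2, .negSucc 2], [.ofNat 9, .ofNat 0, .ofNat 11, .ofNat 12, .negSucc 0]]]

/-- Words. -/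
def g2w : List (List (List ℤ)) := [[[.negSucc 11, .negSucc 30, .negSucc 29, .negSucc 7, .negSucc 11], [.negSucc 14,
  .ofNat 4, .negSucc 8, .negSucc 1, .negSucc 8], [.ofNat 6, .ofNat 37, .ofNat 22, .ofNat 21, .ofNat 7], [.negSucc 14,
  .ofNat 1, .ofNat 28, .ofNat 7, .ofNat 10], [.ofNat 2, .negSucc 13, .negSucc 9, .negSucc 5, .negSucc 2], [.ofNat 29,
  .ofNat 27, .ofNat 30, .ofNat 37, .ofNat 32], [.ofNat 68, .ofNat 52, .ofNat 73, .ofNat 54, .ofNat 63], [.ofNat 10,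
  .ofNat 5, .ofNat 21, .ofNat 33, .ofNat 24]], [[.ofNat 53, .ofNat 67, .ofNat 73, .ofNat 54, .ofNat 63], [.negSucc 13,
  .negSucc 9, .negSucc 5, .ofNat 12, .negSucc 12], [.ofNat 42, .ofNat 45, .ofNat 22, .ofNat 17, .ofNat 29], [.negSucc
  24, .negSucc 19, .negSucc 20, .negSucc 2, .negSucc 23], [.negSucc 10, .negSucc 8, .ofNat 13, .negSucc 8, .negSucc 14],
  [.ofNat 7, .ofNat 22, .ofNat 36, .ofNat 7, .ofNat 21], [.negSucc 29, .negSucc 7, .negSucc 11, .negSucc 11, .negSucc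
  30], [.negSucc 12, .negSucc 6, .negSucc 9, .ofNat 0, .negSucc 0]], [[.negSucc 29, .negSucc 7, .negSucc 11, .negSucc
  11, .negSucc 30], [.negSucc 8, .negSucc 1, .negSucc 8, .negSucc 14, .ofNat 4], [.ofNat 22, .ofNat 21, .ofNat 7, .ofNat
  6, .ofNat 37], [.ofNat 28, .ofNat 7, .ofNat 10, .negSucc 14, .ofNat 1], [.negSucc 9, .negSucc 5, .negSucc 2, .ofNat 2,
  .negSucc 13], [.ofNat 30, .ofNat 37, .ofNat 32, .ofNat 29, .ofNat 27], [.ofNat 73, .ofNat 54, .ofNat 63, .ofNat 68,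
  .ofNat 52], [.ofNat 21, .ofNat 33, .ofNat 24, .ofNat 10, .ofNat 5]], [[.ofNat 73, .ofNat 54, .ofNat 63, .ofNat 53,
  .ofNat 67], [.negSucc 5, .ofNat 12, .negSucc 12, .negSucc 13, .negSucc 9], [.ofNat 22, .ofNat 17, .ofNat 29, .ofNat
  42, .ofNat 45], [.negSucc 20, .negSucc 2, .negSucc 23, .negSucc 24, .negSucc 19], [.ofNat 13, .negSucc 8, .negSucc 14,
  .negSucc 10, .negSucc 8], [.ofNat 36, .ofNat 7, .ofNat 21, .ofNat 7, .ofNat 22], [.negSucc 11, .negSucc 11, .negSucc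
  30, .negSucc 29, .negSucc 7], [.negSucc 9, .ofNat 0, .negSucc 0, .negSucc 12, .negSucc 6]], [[.negSucc 11, .negSucc
  11, .negSucc 30, .negSucc 29, .negSucc 7], [.negSucc 8, .negSucc 14, .ofNat 4, .negSucc 8, .negSucc 1], [.ofNat 7,
  .ofNat 6, .ofNat 37, .ofNat 22, .ofNat 21], [.ofNat 10, .negSucc 14, .ofNat 1, .ofNat 28, .ofNat 7], [.negSucc 2,
  .ofNat 2, .negSucc 13, .negSucc 9, .negSucc 5], [.ofNat 32, .ofNat 29, .ofNat 27, .ofNat 30, .ofNat 37], [.ofNat 63,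
  .ofNat 68, .ofNat 52, .ofNat 73, .ofNat 54], [.ofNat 24, .ofNat 10, .ofNat 5, .ofNat 21, .ofNat 33]], [[.ofNat 63,
  .ofNat 53, .ofNat 67, .ofNat 73, .ofNat 54], [.negSucc 12, .negSucc 13, .negSucc 9, .negSucc 5, .ofNat 12], [.ofNat
  29, .ofNat 42, .ofNat 45, .ofNat 22, .ofNat 17], [.negSucc 23, .negSucc 24, .negSucc 19, .negSucc 20, .negSucc 2],
  [.negSucc 14, .negSucc 10, .negSucc 8, .ofNat 13, .negSucc 8], [.ofNat 21, .ofNat 7, .ofNat 22, .ofNat 36, .ofNat 7],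
  [.negSucc 30, .negSucc 29, .negSucc 7, .negSucc 11, .negSucc 11], [.negSucc 0, .negSucc 12, .negSucc 6, .negSucc 9,
  .ofNat 0]], [[.negSucc 30, .negSucc 29, .negSucc 7, .negSucc 11, .negSucc 11], [.ofNat 4, .negSucc 8, .negSucc 1,
  .negSucc 8, .negSucc 14], [.ofNat 37, .ofNat 22, .ofNat 21, .ofNat 7, .ofNat 6], [.ofNat 1, .ofNat 28, .ofNat 7,
  .ofNat 10, .negSucc 14], [.negSucc 13, .negSucc 9, .negSucc 5, .negSucc 2, .ofNat 2], [.ofNat 27, .ofNat 30, .ofNat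
  37, .ofNat 32, .ofNat 29], [.ofNat 52, .ofNat 73, .ofNat 54, .ofNat 63, .ofNat 68], [.ofNat 5, .ofNat 21, .ofNat 33,
  .ofNat 24, .ofNat 10]], [[.ofNat 67, .ofNat 73, .ofNat 54, .ofNat 63, .ofNat 53], [.negSucc 9, .negSucc 5, .ofNat 12,
  .negSucc 12, .negSucc 13], [.ofNat 45, .ofNat 22, .ofNat 17, .ofNat 29, .ofNat 42], [.negSucc 19, .negSucc 20,
  .negSucc 2, .negSucc 23, .negSucc 24], [.negSucc 8, .ofNat 13, .negSucc 8, .negSucc 14, .negSucc 10], [.ofNat 22,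
  .ofNat 36, .ofNat 7, .ofNat 21, .ofNat 7], [.negSucc 7, .negSucc 11, .negSucc 11, .negSucc 30, .negSucc 29], [.negSucc
  6, .negSucc 9, .ofNat 0, .negSucc 0, .negSucc 12]], [[.negSucc 7, .negSucc 11, .negSucc 11, .negSucc 30, .negSucc 29],
  [.negSucc 1, .negSucc 8, .negSucc 14, .ofNat 4, .negSucc 8], [.ofNat 21, .ofNat 7, .ofNat 6, .ofNat 37, .ofNat 22],
  [.ofNat 7, .ofNat 10, .negSucc 14, .ofNat 1, .ofNat 28], [.negSucc 5, .negSucc 2, .ofNat 2, .negSucc 13, .negSucc 9],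
  [.ofNat 37, .ofNat 32, .ofNat 29, .ofNat 27, .ofNat 30], [.ofNat 54, .ofNat 63, .ofNat 68, .ofNat 52, .ofNat 73],
  [.ofNat 33, .ofNat 24, .ofNat 10, .ofNat 5, .ofNat 21]], [[.ofNat 54, .ofNat 63, .ofNat 53, .ofNat 67, .ofNat 73],
  [.ofNat 12, .negSucc 12, .negSucc 13, .negSucc 9, .negSucc 5], [.ofNat 17, .ofNat 29, .ofNat 42, .ofNat 45, .ofNat
  22], [.negSucc 2, .negSucc 23, .negSucc 24, .negSucc 19, .negSucc 20], [.negSucc 8, .negSucc 14, .negSucc 10, .negSucc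
  8, .ofNat 13], [.ofNat 7, .ofNat 21, .ofNat 7, .ofNat 22, .ofNat 36], [.negSucc 11, .negSucc 30, .negSucc 29, .negSucc
  7, .negSucc 11], [.ofNat 0, .negSucc 0, .negSucc 12, .negSucc 6, .negSucc 9]], [[.negSucc 24, .negSucc 19, .negSucc
  20, .negSucc 2, .negSucc 23], [.negSucc 26, .negSucc 24, .ofNat 0, .negSucc 18, .negSucc 21], [.negSucc 0, .negSucc 4,
  .ofNat 21, .ofNat 3, .ofNat 13], [.ofNat 40, .ofNat 24, .ofNat 54, .ofNat 38, .ofNat 30], [.negSucc 30, .negSucc 43,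
  .negSucc 19, .negSucc 29, .negSucc 29], [.ofNat 11, .ofNat 9, .ofNat 17, .negSucc 5, .ofNat 0], [.ofNat 28, .ofNat 7,
  .ofNat 10, .negSucc 14, .ofNat 1], [.ofNat 12, .negSucc 11, .negSucc 13, .negSucc 6, .negSucc 9]], [[.ofNat 13, .ofNat
  7, .ofNat 10, .ofNat 0, .ofNat 1], [.negSucc 13, .negSucc 34, .negSucc 29, .negSucc 29, .negSucc 45], [.ofNat 9,
  .ofNat 2, .ofNat 9, .ofNat 0, .ofNat 11], [.negSucc 11, .ofNat 12, .ofNat 14, .ofNat 7, .ofNat 10], [.negSucc 9,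
  .negSucc 29, .negSucc 3, .negSucc 6, .negSucc 41], [.ofNat 10, .ofNat 6, .ofNat 18, .negSucc 1, .negSucc 0], [.negSucc
  20, .negSucc 32, .negSucc 23, .negSucc 9, .negSucc 4], [.negSucc 23, .negSucc 37, .negSucc 44, .negSucc 54, .negSucc
  23]], [[.negSucc 20, .negSucc 2, .negSucc 23, .negSucc 24, .negSucc 19], [.ofNat 0, .negSucc 18, .negSucc 21, .negSucc
  26, .negSucc 24], [.ofNat 21, .ofNat 3, .ofNat 13, .negSucc 0, .negSucc 4], [.ofNat 54, .ofNat 38, .ofNat 30, .ofNat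
  40, .ofNat 24], [.negSucc 19, .negSucc 29, .negSucc 29, .negSucc 30, .negSucc 43], [.ofNat 17, .negSucc 5, .ofNat 0,
  .ofNat 11, .ofNat 9], [.ofNat 10, .negSucc 14, .ofNat 1, .ofNat 28, .ofNat 7], [.negSucc 13, .negSucc 6, .negSucc 9,
  .ofNat 12, .negSucc 11]], [[.ofNat 10, .ofNat 0, .ofNat 1, .ofNat 13, .ofNat 7], [.negSucc 29, .negSucc 29, .negSucc
  45, .negSucc 13, .negSucc 34], [.ofNat 9, .ofNat 0, .ofNat 11, .ofNat 9, .ofNat 2], [.ofNat 14, .ofNat 7, .ofNat 10,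
  .negSucc 11, .ofNat 12], [.negSucc 3, .negSucc 6, .negSucc 41, .negSucc 9, .negSucc 29], [.ofNat 18, .negSucc 1,
  .negSucc 0, .ofNat 10, .ofNat 6], [.negSucc 23, .negSucc 9, .negSucc 4, .negSucc 20, .negSucc 32], [.negSucc 44,
  .negSucc 54, .negSucc 23, .negSucc 23, .negSucc 37]], [[.negSucc 23, .negSucc 24, .negSucc 19, .negSucc 20, .negSucc
  2], [.negSucc 21, .negSucc 26, .negSucc 24, .ofNat 0, .negSucc 18], [.ofNat 13, .negSucc 0, .negSucc 4, .ofNat 21,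
  .ofNat 3], [.ofNat 30, .ofNat 40, .ofNat 24, .ofNat 54, .ofNat 38], [.negSucc 29, .negSucc 30, .negSucc 43, .negSucc
  19, .negSucc 29], [.ofNat 0, .ofNat 11, .ofNat 9, .ofNat 17, .negSucc 5], [.ofNat 1, .ofNat 28, .ofNat 7, .ofNat 10,
  .negSucc 14], [.negSucc 9, .ofNat 12, .negSucc 11, .negSucc 13, .negSucc 6]], [[.ofNat 1, .ofNat 13, .ofNat 7, .ofNat
  10, .ofNat 0], [.negSucc 45, .negSucc 13, .negSucc 34, .negSucc 29, .negSucc 29], [.ofNat 11, .ofNat 9, .ofNat 2,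
  .ofNat 9, .ofNat 0], [.ofNat 10, .negSucc 11, .ofNat 12, .ofNat 14, .ofNat 7], [.negSucc 41, .negSucc 9, .negSucc 29,
  .negSucc 3, .negSucc 6], [.negSucc 0, .ofNat 10, .ofNat 6, .ofNat 18, .negSucc 1], [.negSucc 4, .negSucc 20, .negSucc
  32, .negSucc 23, .negSucc 9], [.negSucc 23, .negSucc 23, .negSucc 37, .negSucc 44, .negSucc 54]], [[.negSucc 19,
  .negSucc 20, .negSucc 2, .negSucc 23, .negSucc 24], [.negSucc 24, .ofNat 0, .negSucc 18, .negSucc 21, .negSucc 26],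
  [.negSucc 4, .ofNat 21, .ofNat 3, .ofNat 13, .negSucc 0], [.ofNat 24, .ofNat 54, .ofNat 38, .ofNat 30, .ofNat 40],
  [.negSucc 43, .negSucc 19, .negSucc 29, .negSucc 29, .negSucc 30], [.ofNat 9, .ofNat 17, .negSucc 5, .ofNat 0, .ofNat
  11], [.ofNat 7, .ofNat 10, .negSucc 14, .ofNat 1, .ofNat 28], [.negSucc 11, .negSucc 13, .negSucc 6, .negSucc 9,
  .ofNat 12]], [[.ofNat 7, .ofNat 10, .ofNat 0, .ofNat 1, .ofNat 13], [.negSucc 34, .negSucc 29, .negSucc 29, .negSucc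
  45, .negSucc 13], [.ofNat 2, .ofNat 9, .ofNat 0, .ofNat 11, .ofNat 9], [.ofNat 12, .ofNat 14, .ofNat 7, .ofNat 10,
  .negSucc 11], [.negSucc 29, .negSucc 3, .negSucc 6, .negSucc 41, .negSucc 9], [.ofNat 6, .ofNat 18, .negSucc 1,
  .negSucc 0, .ofNat 10], [.negSucc 32, .negSucc 23, .negSucc 9, .negSucc 4, .negSucc 20], [.negSucc 37, .negSucc 44,
  .negSucc 54, .negSucc 23, .negSucc 23]], [[.negSucc 2, .negSucc 23, .negSucc 24, .negSucc 19, .negSucc 20], [.negSucc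
  18, .negSucc 21, .negSucc 26, .negSucc 24, .ofNat 0], [.ofNat 3, .ofNat 13, .negSucc 0, .negSucc 4, .ofNat 21],
  [.ofNat 38, .ofNat 30, .ofNat 40, .ofNat 24, .ofNat 54], [.negSucc 29, .negSucc 29, .negSucc 30, .negSucc 43, .negSucc
  19], [.negSucc 5, .ofNat 0, .ofNat 11, .ofNat 9, .ofNat 17], [.negSucc 14, .ofNat 1, .ofNat 28, .ofNat 7, .ofNat 10],
  [.negSucc 6, .negSucc 9, .ofNat 12, .negSucc 11, .negSucc 13]], [[.ofNat 0, .ofNat 1, .ofNat 13, .ofNat 7, .ofNat 10],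
  [.negSucc 29, .negSucc 45, .negSucc 13, .negSucc 34, .negSucc 29], [.ofNat 0, .ofNat 11, .ofNat 9, .ofNat 2, .ofNat
  9], [.ofNat 7, .ofNat 10, .negSucc 11, .ofNat 12, .ofNat 14], [.negSucc 6, .negSucc 41, .negSucc 9, .negSucc 29,
  .negSucc 3], [.negSucc 1, .negSucc 0, .ofNat 10, .ofNat 6, .ofNat 18], [.negSucc 9, .negSucc 4, .negSucc 20, .negSucc
  32, .negSucc 23], [.negSucc 54, .negSucc 23, .negSucc 23, .negSucc 37, .negSucc 44]], [[.negSucc 12, .negSucc 13,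
  .negSucc 9, .negSucc 5, .ofNat 12], [.ofNat 49, .ofNat 79, .ofNat 63, .ofNat 58, .ofNat 61], [.ofNat 20, .ofNat 24,
  .ofNat 12, .ofNat 16, .ofNat 21], [.negSucc 21, .negSucc 26, .negSucc 24, .ofNat 0, .negSucc 18], [.negSucc 14,
  .negSucc 20, .negSucc 17, .negSucc 15, .negSucc 22], [.ofNat 5, .negSucc 17, .ofNat 3, .negSucc 28, .ofNat 8], [.ofNat
  4, .negSucc 8, .negSucc 1, .negSucc 8, .negSucc 14], [.ofNat 46, .ofNat 14, .ofNat 35, .ofNat 30, .ofNat 30]],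
  [[.negSucc 10, .negSucc 8, .ofNat 13, .negSucc 8, .negSucc 14], [.negSucc 20, .negSucc 17, .negSucc 15, .negSucc 22,
  .negSucc 14], [.negSucc 2, .negSucc 11, .ofNat 1, .negSucc 21, .ofNat 5], [.negSucc 30, .negSucc 43, .negSucc 19,
  .negSucc 29, .negSucc 29], [.ofNat 64, .ofNat 63, .ofNat 58, .ofNat 76, .ofNat 49], [.ofNat 9, .ofNat 12, .ofNat 16,
  .ofNat 21, .ofNat 35], [.negSucc 9, .negSucc 5, .negSucc 2, .ofNat 2, .negSucc 13], [.ofNat 10, .ofNat 30, .ofNat 4,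
  .ofNat 7, .ofNat 42]], [[.negSucc 9, .negSucc 5, .ofNat 12, .negSucc 12, .negSucc 13], [.ofNat 63, .ofNat 58, .ofNat
  61, .ofNat 49, .ofNat 79], [.ofNat 12, .ofNat 16, .ofNat 21, .ofNat 20, .ofNat 24], [.negSucc 24, .ofNat 0, .negSucc
  18, .negSucc 21, .negSucc 26], [.negSucc 17, .negSucc 15, .negSucc 22, .negSucc 14, .negSucc 20], [.ofNat 3, .negSucc
  28, .ofNat 8, .ofNat 5, .negSucc 17], [.negSucc 1, .negSucc 8, .negSucc 14, .ofNat 4, .negSucc 8], [.ofNat 35, .ofNat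
  30, .ofNat 30, .ofNat 46, .ofNat 14]], [[.ofNat 13, .negSucc 8, .negSucc 14, .negSucc 10, .negSucc 8], [.negSucc 15,
  .negSucc 22, .negSucc 14, .negSucc 20, .negSucc 17], [.ofNat 1, .negSucc 21, .ofNat 5, .negSucc 2, .negSucc 11],
  [.negSucc 19, .negSucc 29, .negSucc 29, .negSucc 30, .negSucc 43], [.ofNat 58, .ofNat 76, .ofNat 49, .ofNat 64, .ofNat
  63], [.ofNat 16, .ofNat 21, .ofNat 35, .ofNat 9, .ofNat 12], [.negSucc 2, .ofNat 2, .negSucc 13, .negSucc 9, .negSucc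
  5], [.ofNat 4, .ofNat 7, .ofNat 42, .ofNat 10, .ofNat 30]], [[.ofNat 12, .negSucc 12, .negSucc 13, .negSucc 9,
  .negSucc 5], [.ofNat 61, .ofNat 49, .ofNat 79, .ofNat 63, .ofNat 58], [.ofNat 21, .ofNat 20, .ofNat 24, .ofNat 12,
  .ofNat 16], [.negSucc 18, .negSucc 21, .negSucc 26, .negSucc 24, .ofNat 0], [.negSucc 22, .negSucc 14, .negSucc 20,
  .negSucc 17, .negSucc 15], [.ofNat 8, .ofNat 5, .negSucc 17, .ofNat 3, .negSucc 28], [.negSucc 14, .ofNat 4, .negSucc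
  8, .negSucc 1, .negSucc 8], [.ofNat 30, .ofNat 46, .ofNat 14, .ofNat 35, .ofNat 30]], [[.negSucc 14, .negSucc 10,
  .negSucc 8, .ofNat 13, .negSucc 8], [.negSucc 14, .negSucc 20, .negSucc 17, .negSucc 15, .negSucc 22], [.ofNat 5,
  .negSucc 2, .negSucc 11, .ofNat 1, .negSucc 21], [.negSucc 29, .negSucc 30, .negSucc 43, .negSucc 19, .negSucc 29],
  [.ofNat 49, .ofNat 64, .ofNat 63, .ofNat 58, .ofNat 76], [.ofNat 35, .ofNat 9, .ofNat 12, .ofNat 16, .ofNat 21],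
  [.negSucc 13, .negSucc 9, .negSucc 5, .negSucc 2, .ofNat 2], [.ofNat 42, .ofNat 10, .ofNat 30, .ofNat 4, .ofNat 7]],
  [[.negSucc 13, .negSucc 9, .negSucc 5, .ofNat 12, .negSucc 12], [.ofNat 79, .ofNat 63, .ofNat 58, .ofNat 61, .ofNat
  49], [.ofNat 24, .ofNat 12, .ofNat 16, .ofNat 21, .ofNat 20], [.negSucc 26, .negSucc 24, .ofNat 0, .negSucc 18,
  .negSucc 21], [.negSucc 20, .negSucc 17, .negSucc 15, .negSucc 22, .negSucc 14], [.negSucc 17, .ofNat 3, .negSucc 28,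
  .ofNat 8, .ofNat 5], [.negSucc 8, .negSucc 1, .negSucc 8, .negSucc 14, .ofNat 4], [.ofNat 14, .ofNat 35, .ofNat 30,
  .ofNat 30, .ofNat 46]], [[.negSucc 8, .ofNat 13, .negSucc 8, .negSucc 14, .negSucc 10], [.negSucc 17, .negSucc 15,
  .negSucc 22, .negSucc 14, .negSucc 20], [.negSucc 11, .ofNat 1, .negSucc 21, .ofNat 5, .negSucc 2], [.negSucc 43,
  .negSucc 19, .negSucc 29, .negSucc 29, .negSucc 30], [.ofNat 63, .ofNat 58, .ofNat 76, .ofNat 49, .ofNat 64], [.ofNat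
  12, .ofNat 16, .ofNat 21, .ofNat 35, .ofNat 9], [.negSucc 5, .negSucc 2, .ofNat 2, .negSucc 13, .negSucc 9], [.ofNat
  30, .ofNat 4, .ofNat 7, .ofNat 42, .ofNat 10]], [[.negSucc 5, .ofNat 12, .negSucc 12, .negSucc 13, .negSucc 9],
  [.ofNat 58, .ofNat 61, .ofNat 49, .ofNat 79, .ofNat 63], [.ofNat 16, .ofNat 21, .ofNat 20, .ofNat 24, .ofNat 12],
  [.ofNat 0, .negSucc 18, .negSucc 21, .negSucc 26, .negSucc 24], [.negSucc 15, .negSucc 22, .negSucc 14, .negSucc 20,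
  .negSucc 17], [.negSucc 28, .ofNat 8, .ofNat 5, .negSucc 17, .ofNat 3], [.negSucc 8, .negSucc 14, .ofNat 4, .negSucc
  8, .negSucc 1], [.ofNat 30, .ofNat 30, .ofNat 46, .ofNat 14, .ofNat 35]], [[.negSucc 8, .negSucc 14, .negSucc 10,
  .negSucc 8, .ofNat 13], [.negSucc 22, .negSucc 14, .negSucc 20, .negSucc 17, .negSucc 15], [.negSucc 21, .ofNat 5,
  .negSucc 2, .negSucc 11, .ofNat 1], [.negSucc 29, .negSucc 29, .negSucc 30, .negSucc 43, .negSucc 19], [.ofNat 76,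
  .ofNat 49, .ofNat 64, .ofNat 63, .ofNat 58], [.ofNat 21, .ofNat 35, .ofNat 9, .ofNat 12, .ofNat 16], [.ofNat 2,
  .negSucc 13, .negSucc 9, .negSucc 5, .negSucc 2], [.ofNat 7, .ofNat 42, .ofNat 10, .ofNat 30, .ofNat 4]], [[.negSucc
  28, .negSucc 41, .negSucc 44, .negSucc 21, .negSucc 16], [.negSucc 19, .negSucc 23, .negSucc 11, .negSucc 15, .negSucc
  20], [.negSucc 25, .negSucc 54, .negSucc 26, .negSucc 47, .negSucc 29], [.negSucc 12, .ofNat 1, .ofNat 5, .negSucc 20,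
  .negSucc 2], [.negSucc 4, .ofNat 3, .ofNat 12, .negSucc 0, .ofNat 22], [.negSucc 0, .ofNat 2, .ofNat 8, .negSucc 24,
  .negSucc 14], [.negSucc 36, .negSucc 21, .negSucc 20, .negSucc 6, .negSucc 5], [.ofNat 11, .ofNat 9, .ofNat 2, .ofNat
  9, .ofNat 0]], [[.negSucc 6, .negSucc 21, .negSucc 35, .negSucc 6, .negSucc 20], [.ofNat 18, .negSucc 2, .ofNat 29,
  .negSucc 7, .negSucc 4], [.ofNat 2, .ofNat 8, .negSucc 24, .negSucc 14, .negSucc 0], [.negSucc 10, .negSucc 8,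
  .negSucc 16, .ofNat 6, .ofNat 0], [.negSucc 8, .negSucc 11, .negSucc 15, .negSucc 20, .negSucc 34], [.negSucc 39,
  .negSucc 41, .negSucc 47, .negSucc 29, .negSucc 25], [.negSucc 29, .negSucc 36, .negSucc 31, .negSucc 28, .negSucc
  26], [.ofNat 10, .ofNat 6, .ofNat 18, .negSucc 1, .negSucc 0]], [[.negSucc 44, .negSucc 21, .negSucc 16, .negSucc 28,
  .negSucc 41], [.negSucc 11, .negSucc 15, .negSucc 20, .negSucc 19, .negSucc 23], [.negSucc 26, .negSucc 47, .negSucc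
  29, .negSucc 25, .negSucc 54], [.ofNat 5, .negSucc 20, .negSucc 2, .negSucc 12, .ofNat 1], [.ofNat 12, .negSucc 0,
  .ofNat 22, .negSucc 4, .ofNat 3], [.ofNat 8, .negSucc 24, .negSucc 14, .negSucc 0, .ofNat 2], [.negSucc 20, .negSucc
  6, .negSucc 5, .negSucc 36, .negSucc 21], [.ofNat 2, .ofNat 9, .ofNat 0, .ofNat 11, .ofNat 9]], [[.negSucc 35,
  .negSucc 6, .negSucc 20, .negSucc 6, .negSucc 21], [.ofNat 29, .negSucc 7, .negSucc 4, .ofNat 18, .negSucc 2],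
  [.negSucc 24, .negSucc 14, .negSucc 0, .ofNat 2, .ofNat 8], [.negSucc 16, .ofNat 6, .ofNat 0, .negSucc 10, .negSucc
  8], [.negSucc 15, .negSucc 20, .negSucc 34, .negSucc 8, .negSucc 11], [.negSucc 47, .negSucc 29, .negSucc 25, .negSucc
  39, .negSucc 41], [.negSucc 31, .negSucc 28, .negSucc 26, .negSucc 29, .negSucc 36], [.ofNat 18, .negSucc 1, .negSucc
  0, .ofNat 10, .ofNat 6]], [[.negSucc 16, .negSucc 28, .negSucc 41, .negSucc 44, .negSucc 21], [.negSucc 20, .negSucc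
  19, .negSucc 23, .negSucc 11, .negSucc 15], [.negSucc 29, .negSucc 25, .negSucc 54, .negSucc 26, .negSucc 47],
  [.negSucc 2, .negSucc 12, .ofNat 1, .ofNat 5, .negSucc 20], [.ofNat 22, .negSucc 4, .ofNat 3, .ofNat 12, .negSucc 0],
  [.negSucc 14, .negSucc 0, .ofNat 2, .ofNat 8, .negSucc 24], [.negSucc 5, .negSucc 36, .negSucc 21, .negSucc 20,
  .negSucc 6], [.ofNat 0, .ofNat 11, .ofNat 9, .ofNat 2, .ofNat 9]], [[.negSucc 20, .negSucc 6, .negSucc 21, .negSucc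
  35, .negSucc 6], [.negSucc 4, .ofNat 18, .negSucc 2, .ofNat 29, .negSucc 7], [.negSucc 0, .ofNat 2, .ofNat 8, .negSucc
  24, .negSucc 14], [.ofNat 0, .negSucc 10, .negSucc 8, .negSucc 16, .ofNat 6], [.negSucc 34, .negSucc 8, .negSucc 11,
  .negSucc 15, .negSucc 20], [.negSucc 25, .negSucc 39, .negSucc 41, .negSucc 47, .negSucc 29], [.negSucc 26, .negSucc
  29, .negSucc 36, .negSucc 31, .negSucc 28], [.negSucc 0, .ofNat 10, .ofNat 6, .ofNat 18, .negSucc 1]], [[.negSucc 41,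
  .negSucc 44, .negSucc 21, .negSucc 16, .negSucc 28], [.negSucc 23, .negSucc 11, .negSucc 15, .negSucc 20, .negSucc
  19], [.negSucc 54, .negSucc 26, .negSucc 47, .negSucc 29, .negSucc 25], [.ofNat 1, .ofNat 5, .negSucc 20, .negSucc 2,
  .negSucc 12], [.ofNat 3, .ofNat 12, .negSucc 0, .ofNat 22, .negSucc 4], [.ofNat 2, .ofNat 8, .negSucc 24, .negSucc 14,
  .negSucc 0], [.negSucc 21, .negSucc 20, .negSucc 6, .negSucc 5, .negSucc 36], [.ofNat 9, .ofNat 2, .ofNat 9, .ofNat 0,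
  .ofNat 11]], [[.negSucc 21, .negSucc 35, .negSucc 6, .negSucc 20, .negSucc 6], [.negSucc 2, .ofNat 29, .negSucc 7,
  .negSucc 4, .ofNat 18], [.ofNat 8, .negSucc 24, .negSucc 14, .negSucc 0, .ofNat 2], [.negSucc 8, .negSucc 16, .ofNat
  6, .ofNat 0, .negSucc 10], [.negSucc 11, .negSucc 15, .negSucc 20, .negSucc 34, .negSucc 8], [.negSucc 41, .negSucc
  47, .negSucc 29, .negSucc 25, .negSucc 39], [.negSucc 36, .negSucc 31, .negSucc 28, .negSucc 26, .negSucc 29], [.ofNat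
  6, .ofNat 18, .negSucc 1, .negSucc 0, .ofNat 10]], [[.negSucc 21, .negSucc 16, .negSucc 28, .negSucc 41, .negSucc 44],
  [.negSucc 15, .negSucc 20, .negSucc 19, .negSucc 23, .negSucc 11], [.negSucc 47, .negSucc 29, .negSucc 25, .negSucc
  54, .negSucc 26], [.negSucc 20, .negSucc 2, .negSucc 12, .ofNat 1, .ofNat 5], [.negSucc 0, .ofNat 22, .negSucc 4,
  .ofNat 3, .ofNat 12], [.negSucc 24, .negSucc 14, .negSucc 0, .ofNat 2, .ofNat 8], [.negSucc 6, .negSucc 5, .negSucc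
  36, .negSucc 21, .negSucc 20], [.ofNat 9, .ofNat 0, .ofNat 11, .ofNat 9, .ofNat 2]], [[.negSucc 6, .negSucc 20,
  .negSucc 6, .negSucc 21, .negSucc 35], [.negSucc 7, .negSucc 4, .ofNat 18, .negSucc 2, .ofNat 29], [.negSucc 14,
  .negSucc 0, .ofNat 2, .ofNat 8, .negSucc 24], [.ofNat 6, .ofNat 0, .negSucc 10, .negSucc 8, .negSucc 16], [.negSucc
  20, .negSucc 34, .negSucc 8, .negSucc 11, .negSucc 15], [.negSucc 29, .negSucc 25, .negSucc 39, .negSucc 41, .negSucc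
  47], [.negSucc 28, .negSucc 26, .negSucc 29, .negSucc 36, .negSucc 31], [.negSucc 1, .negSucc 0, .ofNat 10, .ofNat 6,
  .ofNat 18]]]

/-- Words. -/
def g5w : List (List (List ℤ)) := [[[.ofNat 2, .ofNat 8, .ofNat 2, .ofNat 9, .ofNat 10], [.negSucc 11, .negSucc 20,
  .negSucc 21, .negSucc 19, .negSucc 17], [.ofNat 25, .ofNat 30, .ofNat 36, .ofNat 36, .ofNat 28], [.negSucc 18,
  .negSucc 26, .negSucc 27, .negSucc 23, .negSucc 25], [.negSucc 18, .negSucc 21, .negSucc 20, .negSucc 19, .negSucc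
  10], [.ofNat 21, .ofNat 26, .ofNat 20, .ofNat 26, .ofNat 31], [.negSucc 22, .negSucc 29, .negSucc 28, .negSucc 20,
  .negSucc 20], [.ofNat 14, .ofNat 15, .ofNat 10, .ofNat 12, .ofNat 11]], [[.negSucc 22, .negSucc 29, .negSucc 28,
  .negSucc 20, .negSucc 20], [.negSucc 21, .negSucc 14, .negSucc 19, .negSucc 16, .negSucc 18], [.ofNat 20, .ofNat 32,
  .ofNat 26, .ofNat 25, .ofNat 21], [.negSucc 19, .negSucc 14, .negSucc 3, .negSucc 11, .negSucc 10], [.negSucc 14,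
  .negSucc 21, .negSucc 19, .negSucc 17, .negSucc 17], [.ofNat 30, .ofNat 30, .ofNat 30, .ofNat 34, .ofNat 31], [.ofNat
  8, .ofNat 3, .ofNat 10, .ofNat 2, .ofNat 8], [.ofNat 22, .ofNat 18, .ofNat 26, .ofNat 31, .ofNat 27]], [[.ofNat 2,
  .ofNat 9, .ofNat 10, .ofNat 2, .ofNat 8], [.negSucc 21, .negSucc 19, .negSucc 17, .negSucc 11, .negSucc 20], [.ofNat
  36, .ofNat 36, .ofNat 28, .ofNat 25, .ofNat 30], [.negSucc 27, .negSucc 23, .negSucc 25, .negSucc 18, .negSucc 26],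
  [.negSucc 20, .negSucc 19, .negSucc 10, .negSucc 18, .negSucc 21], [.ofNat 20, .ofNat 26, .ofNat 31, .ofNat 21, .ofNat
  26], [.negSucc 28, .negSucc 20, .negSucc 20, .negSucc 22, .negSucc 29], [.ofNat 10, .ofNat 12, .ofNat 11, .ofNat 14,
  .ofNat 15]], [[.negSucc 28, .negSucc 20, .negSucc 20, .negSucc 22, .negSucc 29], [.negSucc 19, .negSucc 16, .negSucc
  18, .negSucc 21, .negSucc 14], [.ofNat 26, .ofNat 25, .ofNat 21, .ofNat 20, .ofNat 32], [.negSucc 3, .negSucc 11,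
  .negSucc 10, .negSucc 19, .negSucc 14], [.negSucc 19, .negSucc 17, .negSucc 17, .negSucc 14, .negSucc 21], [.ofNat 30,
  .ofNat 34, .ofNat 31, .ofNat 30, .ofNat 30], [.ofNat 10, .ofNat 2, .ofNat 8, .ofNat 8, .ofNat 3], [.ofNat 26, .ofNat
  31, .ofNat 27, .ofNat 22, .ofNat 18]], [[.ofNat 10, .ofNat 2, .ofNat 8, .ofNat 2, .ofNat 9], [.negSucc 17, .negSucc
  11, .negSucc 20, .negSucc 21, .negSucc 19], [.ofNat 28, .ofNat 25, .ofNat 30, .ofNat 36, .ofNat 36], [.negSucc 25,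
  .negSucc 18, .negSucc 26, .negSucc 27, .negSucc 23], [.negSucc 10, .negSucc 18, .negSucc 21, .negSucc 20, .negSucc
  19], [.ofNat 31, .ofNat 21, .ofNat 26, .ofNat 20, .ofNat 26], [.negSucc 20, .negSucc 22, .negSucc 29, .negSucc 28,
  .negSucc 20], [.ofNat 11, .ofNat 14, .ofNat 15, .ofNat 10, .ofNat 12]], [[.negSucc 20, .negSucc 22, .negSucc 29,
  .negSucc 28, .negSucc 20], [.negSucc 18, .negSucc 21, .negSucc 14, .negSucc 19, .negSucc 16], [.ofNat 21, .ofNat 20,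
  .ofNat 32, .ofNat 26, .ofNat 25], [.negSucc 10, .negSucc 19, .negSucc 14, .negSucc 3, .negSucc 11], [.negSucc 17,
  .negSucc 14, .negSucc 21, .negSucc 19, .negSucc 17], [.ofNat 31, .ofNat 30, .ofNat 30, .ofNat 30, .ofNat 34], [.ofNat
  8, .ofNat 8, .ofNat 3, .ofNat 10, .ofNat 2], [.ofNat 27, .ofNat 22, .ofNat 18, .ofNat 26, .ofNat 31]], [[.ofNat 8,
  .ofNat 2, .ofNat 9, .ofNat 10, .ofNat 2], [.negSucc 20, .negSucc 21, .negSucc 19, .negSucc 17, .negSucc 11], [.ofNat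
  30, .ofNat 36, .ofNat 36, .ofNat 28, .ofNat 25], [.negSucc 26, .negSucc 27, .negSucc 23, .negSucc 25, .negSucc 18],
  [.negSucc 21, .negSucc 20, .negSucc 19, .negSucc 10, .negSucc 18], [.ofNat 26, .ofNat 20, .ofNat 26, .ofNat 31, .ofNat
  21], [.negSucc 29, .negSucc 28, .negSucc 20, .negSucc 20, .negSucc 22], [.ofNat 15, .ofNat 10, .ofNat 12, .ofNat 11,
  .ofNat 14]], [[.negSucc 29, .negSucc 28, .negSucc 20, .negSucc 20, .negSucc 22], [.negSucc 14, .negSucc 19, .negSucc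
  16, .negSucc 18, .negSucc 21], [.ofNat 32, .ofNat 26, .ofNat 25, .ofNat 21, .ofNat 20], [.negSucc 14, .negSucc 3,
  .negSucc 11, .negSucc 10, .negSucc 19], [.negSucc 21, .negSucc 19, .negSucc 17, .negSucc 17, .negSucc 14], [.ofNat 30,
  .ofNat 30, .ofNat 34, .ofNat 31, .ofNat 30], [.ofNat 3, .ofNat 10, .ofNat 2, .ofNat 8, .ofNat 8], [.ofNat 18, .ofNat
  26, .ofNat 31, .ofNat 27, .ofNat 22]], [[.ofNat 9, .ofNat 10, .ofNat 2, .ofNat 8, .ofNat 2], [.negSucc 19, .negSucc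
  17, .negSucc 11, .negSucc 20, .negSucc 21], [.ofNat 36, .ofNat 28, .ofNat 25, .ofNat 30, .ofNat 36], [.negSucc 23,
  .negSucc 25, .negSucc 18, .negSucc 26, .negSucc 27], [.negSucc 19, .negSucc 10, .negSucc 18, .negSucc 21, .negSucc
  20], [.ofNat 26, .ofNat 31, .ofNat 21, .ofNat 26, .ofNat 20], [.negSucc 20, .negSucc 20, .negSucc 22, .negSucc 29,
  .negSucc 28], [.ofNat 12, .ofNat 11, .ofNat 14, .ofNat 15, .ofNat 10]], [[.negSucc 20, .negSucc 20, .negSucc 22,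
  .negSucc 29, .negSucc 28], [.negSucc 16, .negSucc 18, .negSucc 21, .negSucc 14, .negSucc 19], [.ofNat 25, .ofNat 21,
  .ofNat 20, .ofNat 32, .ofNat 26], [.negSucc 11, .negSucc 10, .negSucc 19, .negSucc 14, .negSucc 3], [.negSucc 17,
  .negSucc 17, .negSucc 14, .negSucc 21, .negSucc 19], [.ofNat 34, .ofNat 31, .ofNat 30, .ofNat 30, .ofNat 30], [.ofNat
  2, .ofNat 8, .ofNat 8, .ofNat 3, .ofNat 10], [.ofNat 31, .ofNat 27, .ofNat 22, .ofNat 18, .ofNat 26]], [[.negSucc 13,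
  .negSucc 14, .negSucc 9, .negSucc 11, .negSucc 10], [.negSucc 29, .negSucc 36, .negSucc 24, .negSucc 32, .negSucc 29],
  [.ofNat 16, .ofNat 21, .ofNat 20, .ofNat 17, .ofNat 19], [.negSucc 11, .negSucc 10, .negSucc 18, .negSucc 9, .negSucc
  9], [.negSucc 19, .negSucc 33, .negSucc 20, .negSucc 28, .negSucc 19], [.ofNat 15, .ofNat 16, .ofNat 20, .ofNat 18,
  .ofNat 24], [.negSucc 21, .negSucc 17, .negSucc 25, .negSucc 30, .negSucc 26], [.ofNat 0, .ofNat 12, .ofNat 11, .ofNat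
  6, .ofNat 2]], [[.negSucc 27, .negSucc 23, .negSucc 25, .negSucc 18, .negSucc 26], [.negSucc 27, .negSucc 26, .negSucc
  16, .negSucc 25, .negSucc 25], [.ofNat 16, .ofNat 14, .ofNat 24, .ofNat 18, .ofNat 21], [.negSucc 5, .negSucc 11,
  .ofNat 1, .negSucc 5, .negSucc 7], [.negSucc 30, .negSucc 36, .negSucc 26, .negSucc 29, .negSucc 29], [.ofNat 21,
  .ofNat 20, .ofNat 23, .ofNat 13, .ofNat 16], [.negSucc 3, .negSucc 11, .negSucc 10, .negSucc 19, .negSucc 14], [.ofNat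
  19, .ofNat 10, .ofNat 10, .ofNat 12, .ofNat 11]], [[.negSucc 9, .negSucc 11, .negSucc 10, .negSucc 13, .negSucc 14],
  [.negSucc 24, .negSucc 32, .negSucc 29, .negSucc 29, .negSucc 36], [.ofNat 20, .ofNat 17, .ofNat 19, .ofNat 16, .ofNat
  21], [.negSucc 18, .negSucc 9, .negSucc 9, .negSucc 11, .negSucc 10], [.negSucc 20, .negSucc 28, .negSucc 19, .negSucc
  19, .negSucc 33], [.ofNat 20, .ofNat 18, .ofNat 24, .ofNat 15, .ofNat 16], [.negSucc 25, .negSucc 30, .negSucc 26,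
  .negSucc 21, .negSucc 17], [.ofNat 11, .ofNat 6, .ofNat 2, .ofNat 0, .ofNat 12]], [[.negSucc 25, .negSucc 18, .negSucc
  26, .negSucc 27, .negSucc 23], [.negSucc 16, .negSucc 25, .negSucc 25, .negSucc 27, .negSucc 26], [.ofNat 24, .ofNat
  18, .ofNat 21, .ofNat 16, .ofNat 14], [.ofNat 1, .negSucc 5, .negSucc 7, .negSucc 5, .negSucc 11], [.negSucc 26,
  .negSucc 29, .negSucc 29, .negSucc 30, .negSucc 36], [.ofNat 23, .ofNat 13, .ofNat 16, .ofNat 21, .ofNat 20],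
  [.negSucc 10, .negSucc 19, .negSucc 14, .negSucc 3, .negSucc 11], [.ofNat 10, .ofNat 12, .ofNat 11, .ofNat 19, .ofNat
  10]], [[.negSucc 10, .negSucc 13, .negSucc 14, .negSucc 9, .negSucc 11], [.negSucc 29, .negSucc 29, .negSucc 36,
  .negSucc 24, .negSucc 32], [.ofNat 19, .ofNat 16, .ofNat 21, .ofNat 20, .ofNat 17], [.negSucc 9, .negSucc 11, .negSucc
  10, .negSucc 18, .negSucc 9], [.negSucc 19, .negSucc 19, .negSucc 33, .negSucc 20, .negSucc 28], [.ofNat 24, .ofNat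
  15, .ofNat 16, .ofNat 20, .ofNat 18], [.negSucc 26, .negSucc 21, .negSucc 17, .negSucc 25, .negSucc 30], [.ofNat 2,
  .ofNat 0, .ofNat 12, .ofNat 11, .ofNat 6]], [[.negSucc 26, .negSucc 27, .negSucc 23, .negSucc 25, .negSucc 18],
  [.negSucc 25, .negSucc 27, .negSucc 26, .negSucc 16, .negSucc 25], [.ofNat 21, .ofNat 16, .ofNat 14, .ofNat 24, .ofNat
  18], [.negSucc 7, .negSucc 5, .negSucc 11, .ofNat 1, .negSucc 5], [.negSucc 29, .negSucc 30, .negSucc 36, .negSucc 26,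
  .negSucc 29], [.ofNat 16, .ofNat 21, .ofNat 20, .ofNat 23, .ofNat 13], [.negSucc 14, .negSucc 3, .negSucc 11, .negSucc
  10, .negSucc 19], [.ofNat 11, .ofNat 19, .ofNat 10, .ofNat 10, .ofNat 12]], [[.negSucc 14, .negSucc 9, .negSucc 11,
  .negSucc 10, .negSucc 13], [.negSucc 36, .negSucc 24, .negSucc 32, .negSucc 29, .negSucc 29], [.ofNat 21, .ofNat 20,
  .ofNat 17, .ofNat 19, .ofNat 16], [.negSucc 10, .negSucc 18, .negSucc 9, .negSucc 9, .negSucc 11], [.negSucc 33,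
  .negSucc 20, .negSucc 28, .negSucc 19, .negSucc 19], [.ofNat 16, .ofNat 20, .ofNat 18, .ofNat 24, .ofNat 15],
  [.negSucc 17, .negSucc 25, .negSucc 30, .negSucc 26, .negSucc 21], [.ofNat 12, .ofNat 11, .ofNat 6, .ofNat 2, .ofNat
  0]], [[.negSucc 23, .negSucc 25, .negSucc 18, .negSucc 26, .negSucc 27], [.negSucc 26, .negSucc 16, .negSucc 25,
  .negSucc 25, .negSucc 27], [.ofNat 14, .ofNat 24, .ofNat 18, .ofNat 21, .ofNat 16], [.negSucc 11, .ofNat 1, .negSucc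
  5, .negSucc 7, .negSucc 5], [.negSucc 36, .negSucc 26, .negSucc 29, .negSucc 29, .negSucc 30], [.ofNat 20, .ofNat 23,
  .ofNat 13, .ofNat 16, .ofNat 21], [.negSucc 11, .negSucc 10, .negSucc 19, .negSucc 14, .negSucc 3], [.ofNat 10, .ofNat
  10, .ofNat 12, .ofNat 11, .ofNat 19]], [[.negSucc 11, .negSucc 10, .negSucc 13, .negSucc 14, .negSucc 9], [.negSucc
  32, .negSucc 29, .negSucc 29, .negSucc 36, .negSucc 24], [.ofNat 17, .ofNat 19, .ofNat 16, .ofNat 21, .ofNat 20],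
  [.negSucc 9, .negSucc 9, .negSucc 11, .negSucc 10, .negSucc 18], [.negSucc 28, .negSucc 19, .negSucc 19, .negSucc 33,
  .negSucc 20], [.ofNat 18, .ofNat 24, .ofNat 15, .ofNat 16, .ofNat 20], [.negSucc 30, .negSucc 26, .negSucc 21,
  .negSucc 17, .negSucc 25], [.ofNat 6, .ofNat 2, .ofNat 0, .ofNat 12, .ofNat 11]], [[.negSucc 18, .negSucc 26, .negSucc
  27, .negSucc 23, .negSucc 25], [.negSucc 25, .negSucc 25, .negSucc 27, .negSucc 26, .negSucc 16], [.ofNat 18, .ofNat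
  21, .ofNat 16, .ofNat 14, .ofNat 24], [.negSucc 5, .negSucc 7, .negSucc 5, .negSucc 11, .ofNat 1], [.negSucc 29,
  .negSucc 29, .negSucc 30, .negSucc 36, .negSucc 26], [.ofNat 13, .ofNat 16, .ofNat 21, .ofNat 20, .ofNat 23],
  [.negSucc 19, .negSucc 14, .negSucc 3, .negSucc 11, .negSucc 10], [.ofNat 12, .ofNat 11, .ofNat 19, .ofNat 10, .ofNat
  10]], [[.negSucc 18, .negSucc 21, .negSucc 20, .negSucc 19, .negSucc 10], [.negSucc 26, .negSucc 22, .negSucc 24,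
  .negSucc 23, .negSucc 24], [.ofNat 6, .ofNat 17, .ofNat 13, .ofNat 10, .ofNat 16], [.negSucc 29, .negSucc 29, .negSucc
  30, .negSucc 36, .negSucc 26], [.ofNat 11, .ofNat 0, .ofNat 7, .ofNat 7, .ofNat 6], [.ofNat 26, .ofNat 30, .ofNat 21,
  .ofNat 23, .ofNat 24], [.negSucc 14, .negSucc 21, .negSucc 19, .negSucc 17, .negSucc 17], [.ofNat 20, .ofNat 34,
  .ofNat 21, .ofNat 29, .ofNat 20]], [[.negSucc 20, .negSucc 21, .negSucc 19, .negSucc 17, .negSucc 11], [.ofNat 0,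
  .ofNat 13, .ofNat 7, .ofNat 6, .ofNat 5], [.ofNat 24, .ofNat 27, .ofNat 23, .ofNat 24, .ofNat 26], [.negSucc 25,
  .negSucc 27, .negSucc 26, .negSucc 16, .negSucc 25], [.negSucc 22, .negSucc 24, .negSucc 23, .negSucc 24, .negSucc
  26], [.ofNat 17, .ofNat 7, .ofNat 16, .ofNat 4, .ofNat 18], [.negSucc 14, .negSucc 19, .negSucc 16, .negSucc 18,
  .negSucc 21], [.ofNat 37, .ofNat 25, .ofNat 33, .ofNat 30, .ofNat 30]], [[.negSucc 20, .negSucc 19, .negSucc 10,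
  .negSucc 18, .negSucc 21], [.negSucc 24, .negSucc 23, .negSucc 24, .negSucc 26, .negSucc 22], [.ofNat 13, .ofNat 10,
  .ofNat 16, .ofNat 6, .ofNat 17], [.negSucc 30, .negSucc 36, .negSucc 26, .negSucc 29, .negSucc 29], [.ofNat 7, .ofNat
  7, .ofNat 6, .ofNat 11, .ofNat 0], [.ofNat 21, .ofNat 23, .ofNat 24, .ofNat 26, .ofNat 30], [.negSucc 19, .negSucc 17,
  .negSucc 17, .negSucc 14, .negSucc 21], [.ofNat 21, .ofNat 29, .ofNat 20, .ofNat 20, .ofNat 34]], [[.negSucc 19,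
  .negSucc 17, .negSucc 11, .negSucc 20, .negSucc 21], [.ofNat 7, .ofNat 6, .ofNat 5, .ofNat 0, .ofNat 13], [.ofNat 23,
  .ofNat 24, .ofNat 26, .ofNat 24, .ofNat 27], [.negSucc 26, .negSucc 16, .negSucc 25, .negSucc 25, .negSucc 27],
  [.negSucc 23, .negSucc 24, .negSucc 26, .negSucc 22, .negSucc 24], [.ofNat 16, .ofNat 4, .ofNat 18, .ofNat 17, .ofNat
  7], [.negSucc 16, .negSucc 18, .negSucc 21, .negSucc 14, .negSucc 19], [.ofNat 33, .ofNat 30, .ofNat 30, .ofNat 37,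
  .ofNat 25]], [[.negSucc 10, .negSucc 18, .negSucc 21, .negSucc 20, .negSucc 19], [.negSucc 24, .negSucc 26, .negSucc
  22, .negSucc 24, .negSucc 23], [.ofNat 16, .ofNat 6, .ofNat 17, .ofNat 13, .ofNat 10], [.negSucc 26, .negSucc 29,
  .negSucc 29, .negSucc 30, .negSucc 36], [.ofNat 6, .ofNat 11, .ofNat 0, .ofNat 7, .ofNat 7], [.ofNat 24, .ofNat 26,
  .ofNat 30, .ofNat 21, .ofNat 23], [.negSucc 17, .negSucc 14, .negSucc 21, .negSucc 19, .negSucc 17], [.ofNat 20,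
  .ofNat 20, .ofNat 34, .ofNat 21, .ofNat 29]], [[.negSucc 11, .negSucc 20, .negSucc 21, .negSucc 19, .negSucc 17],
  [.ofNat 5, .ofNat 0, .ofNat 13, .ofNat 7, .ofNat 6], [.ofNat 26, .ofNat 24, .ofNat 27, .ofNat 23, .ofNat 24],
  [.negSucc 25, .negSucc 25, .negSucc 27, .negSucc 26, .negSucc 16], [.negSucc 26, .negSucc 22, .negSucc 24, .negSucc
  23, .negSucc 24], [.ofNat 18, .ofNat 17, .ofNat 7, .ofNat 16, .ofNat 4], [.negSucc 21, .negSucc 14, .negSucc 19,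
  .negSucc 16, .negSucc 18], [.ofNat 30, .ofNat 37, .ofNat 25, .ofNat 33, .ofNat 30]], [[.negSucc 21, .negSucc 20,
  .negSucc 19, .negSucc 10, .negSucc 18], [.negSucc 22, .negSucc 24, .negSucc 23, .negSucc 24, .negSucc 26], [.ofNat 17,
  .ofNat 13, .ofNat 10, .ofNat 16, .ofNat 6], [.negSucc 29, .negSucc 30, .negSucc 36, .negSucc 26, .negSucc 29], [.ofNat
  0, .ofNat 7, .ofNat 7, .ofNat 6, .ofNat 11], [.ofNat 30, .ofNat 21, .ofNat 23, .ofNat 24, .ofNat 26], [.negSucc 21,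
  .negSucc 19, .negSucc 17, .negSucc 17, .negSucc 14], [.ofNat 34, .ofNat 21, .ofNat 29, .ofNat 20, .ofNat 20]],
  [[.negSucc 21, .negSucc 19, .negSucc 17, .negSucc 11, .negSucc 20], [.ofNat 13, .ofNat 7, .ofNat 6, .ofNat 5, .ofNat
  0], [.ofNat 27, .ofNat 23, .ofNat 24, .ofNat 26, .ofNat 24], [.negSucc 27, .negSucc 26, .negSucc 16, .negSucc 25,
  .negSucc 25], [.negSucc 24, .negSucc 23, .negSucc 24, .negSucc 26, .negSucc 22], [.ofNat 7, .ofNat 16, .ofNat 4,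
  .ofNat 18, .ofNat 17], [.negSucc 19, .negSucc 16, .negSucc 18, .negSucc 21, .negSucc 14], [.ofNat 25, .ofNat 33,
  .ofNat 30, .ofNat 30, .ofNat 37]], [[.negSucc 19, .negSucc 10, .negSucc 18, .negSucc 21, .negSucc 20], [.negSucc 23,
  .negSucc 24, .negSucc 26, .negSucc 22, .negSucc 24], [.ofNat 10, .ofNat 16, .ofNat 6, .ofNat 17, .ofNat 13], [.negSucc
  36, .negSucc 26, .negSucc 29, .negSucc 29, .negSucc 30], [.ofNat 7, .ofNat 6, .ofNat 11, .ofNat 0, .ofNat 7], [.ofNat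
  23, .ofNat 24, .ofNat 26, .ofNat 30, .ofNat 21], [.negSucc 17, .negSucc 17, .negSucc 14, .negSucc 21, .negSucc 19],
  [.ofNat 29, .ofNat 20, .ofNat 20, .ofNat 34, .ofNat 21]], [[.negSucc 17, .negSucc 11, .negSucc 20, .negSucc 21,
  .negSucc 19], [.ofNat 6, .ofNat 5, .ofNat 0, .ofNat 13, .ofNat 7], [.ofNat 24, .ofNat 26, .ofNat 24, .ofNat 27, .ofNat
  23], [.negSucc 16, .negSucc 25, .negSucc 25, .negSucc 27, .negSucc 26], [.negSucc 24, .negSucc 26, .negSucc 22,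
  .negSucc 24, .negSucc 23], [.ofNat 4, .ofNat 18, .ofNat 17, .ofNat 7, .ofNat 16], [.negSucc 18, .negSucc 21, .negSucc
  14, .negSucc 19, .negSucc 16], [.ofNat 30, .ofNat 30, .ofNat 37, .ofNat 25, .ofNat 33]], [[.negSucc 20, .negSucc 25,
  .negSucc 19, .negSucc 25, .negSucc 30], [.negSucc 17, .negSucc 16, .negSucc 6, .negSucc 15, .negSucc 3], [.ofNat 8,
  .ofNat 15, .ofNat 16, .ofNat 18, .ofNat 5], [.negSucc 12, .negSucc 15, .negSucc 20, .negSucc 19, .negSucc 22],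
  [.negSucc 25, .negSucc 29, .negSucc 20, .negSucc 22, .negSucc 23], [.ofNat 9, .ofNat 10, .ofNat 6, .ofNat 5, .ofNat
  1], [.negSucc 29, .negSucc 29, .negSucc 29, .negSucc 33, .negSucc 30], [.ofNat 15, .ofNat 16, .ofNat 20, .ofNat 18,
  .ofNat 24]], [[.negSucc 29, .negSucc 35, .negSucc 35, .negSucc 27, .negSucc 24], [.negSucc 23, .negSucc 26, .negSucc
  22, .negSucc 23, .negSucc 25], [.ofNat 10, .ofNat 0, .ofNat 11, .ofNat 1, .ofNat 9], [.negSucc 20, .negSucc 15,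
  .negSucc 13, .negSucc 23, .negSucc 17], [.negSucc 16, .negSucc 12, .negSucc 9, .negSucc 15, .negSucc 5], [.ofNat 15,
  .ofNat 16, .ofNat 18, .ofNat 5, .ofNat 8], [.negSucc 31, .negSucc 25, .negSucc 24, .negSucc 20, .negSucc 19], [.ofNat
  21, .ofNat 20, .ofNat 17, .ofNat 19, .ofNat 16]], [[.negSucc 19, .negSucc 25, .negSucc 30, .negSucc 20, .negSucc 25],
  [.negSucc 6, .negSucc 15, .negSucc 3, .negSucc 17, .negSucc 16], [.ofNat 16, .ofNat 18, .ofNat 5, .ofNat 8, .ofNat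
  15], [.negSucc 20, .negSucc 19, .negSucc 22, .negSucc 12, .negSucc 15], [.negSucc 20, .negSucc 22, .negSucc 23,
  .negSucc 25, .negSucc 29], [.ofNat 6, .ofNat 5, .ofNat 1, .ofNat 9, .ofNat 10], [.negSucc 29, .negSucc 33, .negSucc
  30, .negSucc 29, .negSucc 29], [.ofNat 20, .ofNat 18, .ofNat 24, .ofNat 15, .ofNat 16]], [[.negSucc 35, .negSucc 27,
  .negSucc 24, .negSucc 29, .negSucc 35], [.negSucc 22, .negSucc 23, .negSucc 25, .negSucc 23, .negSucc 26], [.ofNat 11,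
  .ofNat 1, .ofNat 9, .ofNat 10, .ofNat 0], [.negSucc 13, .negSucc 23, .negSucc 17, .negSucc 20, .negSucc 15], [.negSucc
  9, .negSucc 15, .negSucc 5, .negSucc 16, .negSucc 12], [.ofNat 18, .ofNat 5, .ofNat 8, .ofNat 15, .ofNat 16],
  [.negSucc 24, .negSucc 20, .negSucc 19, .negSucc 31, .negSucc 25], [.ofNat 17, .ofNat 19, .ofNat 16, .ofNat 21, .ofNat
  20]], [[.negSucc 30, .negSucc 20, .negSucc 25, .negSucc 19, .negSucc 25], [.negSucc 3, .negSucc 17, .negSucc 16,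
  .negSucc 6, .negSucc 15], [.ofNat 5, .ofNat 8, .ofNat 15, .ofNat 16, .ofNat 18], [.negSucc 22, .negSucc 12, .negSucc
  15, .negSucc 20, .negSucc 19], [.negSucc 23, .negSucc 25, .negSucc 29, .negSucc 20, .negSucc 22], [.ofNat 1, .ofNat 9,
  .ofNat 10, .ofNat 6, .ofNat 5], [.negSucc 30, .negSucc 29, .negSucc 29, .negSucc 29, .negSucc 33], [.ofNat 24, .ofNat
  15, .ofNat 16, .ofNat 20, .ofNat 18]], [[.negSucc 24, .negSucc 29, .negSucc 35, .negSucc 35, .negSucc 27], [.negSucc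
  25, .negSucc 23, .negSucc 26, .negSucc 22, .negSucc 23], [.ofNat 9, .ofNat 10, .ofNat 0, .ofNat 11, .ofNat 1],
  [.negSucc 17, .negSucc 20, .negSucc 15, .negSucc 13, .negSucc 23], [.negSucc 5, .negSucc 16, .negSucc 12, .negSucc 9,
  .negSucc 15], [.ofNat 8, .ofNat 15, .ofNat 16, .ofNat 18, .ofNat 5], [.negSucc 19, .negSucc 31, .negSucc 25, .negSucc
  24, .negSucc 20], [.ofNat 16, .ofNat 21, .ofNat 20, .ofNat 17, .ofNat 19]], [[.negSucc 25, .negSucc 19, .negSucc 25,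
  .negSucc 30, .negSucc 20], [.negSucc 16, .negSucc 6, .negSucc 15, .negSucc 3, .negSucc 17], [.ofNat 15, .ofNat 16,
  .ofNat 18, .ofNat 5, .ofNat 8], [.negSucc 15, .negSucc 20, .negSucc 19, .negSucc 22, .negSucc 12], [.negSucc 29,
  .negSucc 20, .negSucc 22, .negSucc 23, .negSucc 25], [.ofNat 10, .ofNat 6, .ofNat 5, .ofNat 1, .ofNat 9], [.negSucc
  29, .negSucc 29, .negSucc 33, .negSucc 30, .negSucc 29], [.ofNat 16, .ofNat 20, .ofNat 18, .ofNat 24, .ofNat 15]],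
  [[.negSucc 35, .negSucc 35, .negSucc 27, .negSucc 24, .negSucc 29], [.negSucc 26, .negSucc 22, .negSucc 23, .negSucc
  25, .negSucc 23], [.ofNat 0, .ofNat 11, .ofNat 1, .ofNat 9, .ofNat 10], [.negSucc 15, .negSucc 13, .negSucc 23,
  .negSucc 17, .negSucc 20], [.negSucc 12, .negSucc 9, .negSucc 15, .negSucc 5, .negSucc 16], [.ofNat 16, .ofNat 18,
  .ofNat 5, .ofNat 8, .ofNat 15], [.negSucc 25, .negSucc 24, .negSucc 20, .negSucc 19, .negSucc 31], [.ofNat 20, .ofNat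
  17, .ofNat 19, .ofNat 16, .ofNat 21]], [[.negSucc 25, .negSucc 30, .negSucc 20, .negSucc 25, .negSucc 19], [.negSucc
  15, .negSucc 3, .negSucc 17, .negSucc 16, .negSucc 6], [.ofNat 18, .ofNat 5, .ofNat 8, .ofNat 15, .ofNat 16],
  [.negSucc 19, .negSucc 22, .negSucc 12, .negSucc 15, .negSucc 20], [.negSucc 22, .negSucc 23, .negSucc 25, .negSucc
  29, .negSucc 20], [.ofNat 5, .ofNat 1, .ofNat 9, .ofNat 10, .ofNat 6], [.negSucc 33, .negSucc 30, .negSucc 29,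
  .negSucc 29, .negSucc 29], [.ofNat 18, .ofNat 24, .ofNat 15, .ofNat 16, .ofNat 20]], [[.negSucc 27, .negSucc 24,
  .negSucc 29, .negSucc 35, .negSucc 35], [.negSucc 23, .negSucc 25, .negSucc 23, .negSucc 26, .negSucc 22], [.ofNat 1,
  .ofNat 9, .ofNat 10, .ofNat 0, .ofNat 11], [.negSucc 23, .negSucc 17, .negSucc 20, .negSucc 15, .negSucc 13],
  [.negSucc 15, .negSucc 5, .negSucc 16, .negSucc 12, .negSucc 9], [.ofNat 5, .ofNat 8, .ofNat 15, .ofNat 16, .ofNat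
  18], [.negSucc 20, .negSucc 19, .negSucc 31, .negSucc 25, .negSucc 24], [.ofNat 19, .ofNat 16, .ofNat 21, .ofNat 20,
  .ofNat 17]]]

/-- Words. -/
def cb5w : List (List (List ℤ)) := [[[.negSucc 5, .negSucc 3, .negSucc 9, .negSucc 6, .negSucc 3], [.ofNat 7, .ofNat
  4, .ofNat 6, .ofNat 4, .ofNat 10], [.ofNat 10, .ofNat 7, .ofNat 4, .ofNat 6, .ofNat 4], [.ofNat 4, .ofNat 10, .ofNat
  7, .ofNat 4, .ofNat 6], [.ofNat 4, .ofNat 6, .ofNat 4, .ofNat 10, .ofNat 7], [.ofNat 7, .ofNat 4, .ofNat 6, .ofNat 4,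
  .ofNat 10], [.negSucc 3, .negSucc 5, .negSucc 3, .negSucc 9, .negSucc 6], [.negSucc 5, .negSucc 3, .negSucc 9,
  .negSucc 6, .negSucc 3]], [[.ofNat 6, .ofNat 4, .ofNat 10, .ofNat 7, .ofNat 4], [.negSucc 3, .negSucc 9, .negSucc 6,
  .negSucc 3, .negSucc 5], [.negSucc 5, .negSucc 3, .negSucc 9, .negSucc 6, .negSucc 3], [.negSucc 3, .negSucc 9,
  .negSucc 6, .negSucc 3, .negSucc 5], [.negSucc 5, .negSucc 3, .negSucc 9, .negSucc 6, .negSucc 3], [.negSucc 3,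
  .negSucc 5, .negSucc 3, .negSucc 9, .negSucc 6], [.ofNat 7, .ofNat 4, .ofNat 6, .ofNat 4, .ofNat 10], [.ofNat 4,
  .ofNat 6, .ofNat 4, .ofNat 10, .ofNat 7]], [[.ofNat 7, .ofNat 9, .ofNat 4, .ofNat 6, .ofNat 5], [.negSucc 3, .negSucc
  1, .ofNat 3, .ofNat 3, .ofNat 0], [.negSucc 10, .negSucc 11, .negSucc 15, .negSucc 12, .negSucc 9], [.ofNat 1, .ofNat
  2, .ofNat 1, .negSucc 0, .negSucc 2], [.negSucc 5, .negSucc 8, .negSucc 9, .negSucc 2, .negSucc 2], [.ofNat 8, .ofNat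
  2, .ofNat 5, .ofNat 6, .ofNat 10], [.negSucc 1, .ofNat 0, .ofNat 0, .negSucc 0, .ofNat 3], [.ofNat 6, .ofNat 7, .ofNat
  3, .ofNat 7, .ofNat 8]], [[.negSucc 8, .negSucc 3, .negSucc 5, .negSucc 4, .negSucc 6], [.ofNat 2, .negSucc 2,
  .negSucc 2, .ofNat 0, .ofNat 4], [.ofNat 12, .ofNat 16, .ofNat 13, .ofNat 10, .ofNat 11], [.negSucc 1, .negSucc 0,
  .ofNat 1, .ofNat 3, .negSucc 0], [.ofNat 9, .ofNat 10, .ofNat 3, .ofNat 3, .ofNat 6], [.negSucc 1, .negSucc 4,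
  .negSucc 5, .negSucc 9, .negSucc 7], [.ofNat 0, .ofNat 0, .ofNat 1, .negSucc 2, .ofNat 2], [.negSucc 6, .negSucc 2,
  .negSucc 6, .negSucc 7, .negSucc 5]], [[.negSucc 4, .negSucc 6, .negSucc 6, .negSucc 9, .negSucc 1], [.ofNat 3,
  .negSucc 0, .negSucc 1, .negSucc 0, .ofNat 1], [.ofNat 5, .ofNat 7, .ofNat 9, .ofNat 4, .ofNat 6], [.negSucc 12,
  .negSucc 9, .negSucc 10, .negSucc 11, .negSucc 15], [.negSucc 2, .ofNat 1, .ofNat 2, .ofNat 1, .negSucc 0], [.negSucc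
  4, .negSucc 6, .negSucc 8, .negSucc 3, .negSucc 5], [.ofNat 7, .ofNat 7, .ofNat 10, .ofNat 2, .ofNat 5], [.negSucc 9,
  .negSucc 10, .negSucc 11, .negSucc 15, .negSucc 12]], [[.ofNat 0, .ofNat 1, .negSucc 2, .ofNat 2, .ofNat 0], [.negSucc
  6, .negSucc 6, .negSucc 7, .negSucc 7, .negSucc 0], [.ofNat 14, .ofNat 11, .ofNat 13, .ofNat 15, .ofNat 9], [.ofNat 3,
  .ofNat 7, .ofNat 8, .ofNat 6, .ofNat 7], [.ofNat 7, .ofNat 7, .ofNat 8, .ofNat 8, .ofNat 1], [.negSucc 13, .negSucc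
  10, .negSucc 12, .negSucc 14, .negSucc 8], [.negSucc 0, .ofNat 3, .negSucc 1, .ofNat 0, .ofNat 0], [.ofNat 7, .ofNat
  8, .ofNat 6, .ofNat 7, .ofNat 3]], [[.ofNat 2, .ofNat 0, .ofNat 0, .ofNat 1, .negSucc 2], [.ofNat 2, .ofNat 9, .ofNat
  7, .ofNat 10, .ofNat 3], [.negSucc 4, .negSucc 11, .negSucc 6, .negSucc 5, .negSucc 0], [.ofNat 6, .ofNat 7, .ofNat 3,
  .ofNat 7, .ofNat 8], [.negSucc 1, .negSucc 5, .ofNat 3, .ofNat 1, .ofNat 4], [.ofNat 12, .ofNat 12, .ofNat 10, .ofNat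
  16, .ofNat 12], [.negSucc 3, .negSucc 9, .negSucc 7, .negSucc 0, .negSucc 7], [.negSucc 2, .negSucc 3, .ofNat 3,
  .ofNat 2, .ofNat 2]], [[.ofNat 2, .negSucc 0, .ofNat 3, .negSucc 0, .negSucc 2], [.negSucc 0, .ofNat 6, .ofNat 1,
  .ofNat 1, .negSucc 6], [.ofNat 1, .negSucc 1, .ofNat 1, .negSucc 3, .ofNat 4], [.ofNat 3, .ofNat 0, .negSucc 4, .ofNat
  1, .ofNat 1], [.ofNat 1, .negSucc 5, .negSucc 0, .negSucc 0, .ofNat 7], [.negSucc 0, .ofNat 2, .negSucc 0, .ofNat 4,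
  .negSucc 3], [.ofNat 1, .negSucc 2, .ofNat 1, .ofNat 3, .negSucc 1], [.ofNat 0, .negSucc 4, .ofNat 1, .ofNat 1, .ofNat
  3]], [[.ofNat 1, .negSucc 1, .ofNat 0, .negSucc 0, .ofNat 2], [.ofNat 6, .negSucc 0, .negSucc 5, .negSucc 2, .ofNat
  4], [.negSucc 7, .negSucc 2, .negSucc 1, .negSucc 7, .negSucc 9], [.negSucc 13, .negSucc 12, .negSucc 9, .negSucc 9,
  .negSucc 14], [.negSucc 5, .negSucc 1, .negSucc 3, .negSucc 7, .negSucc 10], [.ofNat 1, .ofNat 3, .negSucc 0, .negSucc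
  1, .negSucc 0], [.ofNat 6, .ofNat 10, .ofNat 8, .ofNat 2, .ofNat 5], [.negSucc 2, .negSucc 2, .negSucc 5, .negSucc 8,
  .negSucc 9]], [[.ofNat 2, .ofNat 12, .ofNat 0, .ofNat 10, .ofNat 7], [.negSucc 5, .negSucc 8, .negSucc 7, .negSucc 8,
  .ofNat 1], [.negSucc 0, .ofNat 2, .ofNat 0, .ofNat 1, .negSucc 1], [.ofNat 3, .ofNat 7, .ofNat 7, .ofNat 9, .ofNat 5],
  [.ofNat 0, .ofNat 5, .negSucc 1, .ofNat 2, .negSucc 4], [.negSucc 2, .negSucc 7, .negSucc 3, .negSucc 10, .negSucc 4],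
  [.negSucc 2, .ofNat 2, .ofNat 2, .negSucc 5, .ofNat 5], [.ofNat 9, .ofNat 19, .ofNat 10, .ofNat 12, .ofNat 12]],
  [[.ofNat 5, .negSucc 1, .ofNat 2, .negSucc 4, .ofNat 0], [.ofNat 8, .ofNat 10, .ofNat 7, .ofNat 6, .ofNat 0],
  [.negSucc 7, .negSucc 5, .negSucc 5, .negSucc 5, .negSucc 4], [.ofNat 8, .ofNat 5, .ofNat 9, .ofNat 4, .ofNat 5],
  [.negSucc 1, .negSucc 5, .ofNat 3, .ofNat 1, .ofNat 4], [.ofNat 12, .ofNat 12, .ofNat 10, .ofNat 16, .ofNat 12],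
  [.negSucc 6, .negSucc 3, .negSucc 6, .negSucc 0, .negSucc 11], [.ofNat 3, .negSucc 2, .ofNat 3, .negSucc 1, .negSucc
  0]], [[.negSucc 5, .negSucc 6, .negSucc 2, .negSucc 6, .negSucc 7], [.ofNat 3, .negSucc 0, .negSucc 1, .negSucc 0,
  .ofNat 1], [.ofNat 5, .ofNat 7, .ofNat 9, .ofNat 4, .ofNat 6], [.negSucc 12, .negSucc 13, .negSucc 13, .negSucc 5,
  .negSucc 14], [.ofNat 1, .ofNat 4, .negSucc 3, .ofNat 0, .negSucc 0], [.negSucc 4, .negSucc 2, .negSucc 5, .negSucc 9,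
  .negSucc 6], [.ofNat 4, .ofNat 4, .ofNat 12, .ofNat 0, .ofNat 11], [.negSucc 12, .negSucc 8, .negSucc 13, .negSucc 9,
  .negSucc 15]], [[.ofNat 6, .ofNat 4, .ofNat 11, .ofNat 4, .ofNat 6], [.negSucc 3, .ofNat 2, .ofNat 4, .ofNat 3,
  .negSucc 4], [.negSucc 2, .negSucc 11, .negSucc 6, .negSucc 4, .negSucc 3], [.ofNat 12, .ofNat 13, .ofNat 10, .ofNat
  9, .ofNat 18], [.ofNat 0, .negSucc 4, .ofNat 2, .negSucc 1, .ofNat 5], [.ofNat 3, .ofNat 8, .ofNat 4, .ofNat 11,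
  .ofNat 5], [.negSucc 0, .negSucc 11, .negSucc 8, .ofNat 2, .negSucc 10], [.ofNat 12, .ofNat 5, .ofNat 17, .ofNat 13,
  .ofNat 15]], [[.ofNat 9, .ofNat 4, .ofNat 5, .ofNat 8, .ofNat 5], [.negSucc 4, .ofNat 0, .ofNat 3, .ofNat 4, .negSucc
  1], [.ofNat 4, .negSucc 2, .negSucc 2, .ofNat 1, .ofNat 1], [.ofNat 26, .ofNat 29, .ofNat 23, .ofNat 20, .ofNat 26],
  [.ofNat 5, .ofNat 3, .ofNat 7, .ofNat 7, .ofNat 9], [.ofNat 3, .ofNat 3, .ofNat 6, .ofNat 9, .ofNat 10], [.negSucc 7,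
  .negSucc 14, .negSucc 14, .negSucc 8, .negSucc 14], [.ofNat 19, .ofNat 16, .ofNat 16, .ofNat 20, .ofNat 22]],
  [[.negSucc 6, .ofNat 2, .negSucc 0, .ofNat 1, .ofNat 5], [.negSucc 2, .negSucc 9, .negSucc 9, .negSucc 9, .ofNat 2],
  [.ofNat 4, .ofNat 9, .ofNat 9, .ofNat 5, .ofNat 4], [.negSucc 6, .negSucc 8, .negSucc 4, .negSucc 2, .negSucc 6],
  [.ofNat 3, .ofNat 7, .ofNat 0, .negSucc 0, .negSucc 8], [.negSucc 10, .negSucc 8, .negSucc 11, .negSucc 14, .negSucc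
  14], [.ofNat 2, .ofNat 11, .ofNat 6, .negSucc 0, .ofNat 13], [.ofNat 1, .ofNat 2, .ofNat 1, .negSucc 0, .negSucc 2]]]

/-- Words. -/
def ca5w : List (List (List ℤ)) := [[[.ofNat 0, .negSucc 0, .ofNat 1, .ofNat 1, .negSucc 0], [.negSucc 5, .negSucc 4,
  .negSucc 7, .negSucc 9, .negSucc 1], [.ofNat 1, .negSucc 1, .negSucc 2, .ofNat 2, .ofNat 2], [.ofNat 6, .ofNat 6,
  .ofNat 8, .ofNat 8, .ofNat 3], [.negSucc 5, .negSucc 4, .negSucc 5, .negSucc 9, .negSucc 3], [.negSucc 2, .negSucc 1,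
  .ofNat 2, .ofNat 1, .ofNat 2], [.negSucc 2, .negSucc 0, .ofNat 3, .ofNat 1, .ofNat 0], [.negSucc 4, .negSucc 8,
  .negSucc 4, .negSucc 7, .negSucc 3]], [[.negSucc 0, .ofNat 0, .ofNat 0, .ofNat 2, .negSucc 0], [.ofNat 2, .negSucc 1,
  .ofNat 2, .ofNat 2, .negSucc 3], [.ofNat 2, .ofNat 0, .ofNat 2, .ofNat 0, .negSucc 3], [.negSucc 5, .negSucc 3,
  .negSucc 7, .negSucc 4, .negSucc 7], [.ofNat 11, .ofNat 12, .ofNat 11, .ofNat 16, .ofNat 12], [.ofNat 8, .ofNat 6,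
  .ofNat 7, .ofNat 5, .ofNat 5], [.ofNat 8, .ofNat 8, .ofNat 3, .ofNat 5, .ofNat 7], [.ofNat 6, .ofNat 5, .ofNat 10,
  .ofNat 5, .ofNat 5]], [[.negSucc 3, .negSucc 8, .negSucc 7, .negSucc 4, .negSucc 4], [.negSucc 4, .negSucc 7, .negSucc
  3, .negSucc 7, .negSucc 5], [.negSucc 6, .negSucc 7, .negSucc 3, .negSucc 6, .negSucc 4], [.negSucc 0, .ofNat 1,
  .ofNat 1, .negSucc 3, .ofNat 3], [.ofNat 6, .ofNat 6, .ofNat 5, .ofNat 6, .ofNat 8], [.ofNat 3, .ofNat 2, .negSucc 2,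
  .ofNat 2, .negSucc 3], [.negSucc 0, .ofNat 0, .negSucc 1, .ofNat 1, .ofNat 2], [.negSucc 0, .ofNat 4, .negSucc 2,
  .ofNat 2, .negSucc 1]], [[.ofNat 2, .ofNat 0, .ofNat 0, .negSucc 2, .ofNat 1], [.negSucc 6, .negSucc 5, .negSucc 8,
  .negSucc 6, .negSucc 1], [.ofNat 1, .negSucc 3, .ofNat 2, .negSucc 0, .ofNat 2], [.ofNat 6, .ofNat 6, .ofNat 11,
  .ofNat 2, .ofNat 6], [.negSucc 6, .negSucc 5, .negSucc 4, .negSucc 10, .negSucc 1], [.negSucc 2, .ofNat 1, .ofNat 3,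
  .ofNat 1, .negSucc 1], [.negSucc 3, .ofNat 0, .ofNat 1, .ofNat 1, .ofNat 2], [.negSucc 8, .negSucc 3, .negSucc 8,
  .negSucc 3, .negSucc 4]], [[.ofNat 2, .ofNat 3, .ofNat 0, .negSucc 1, .negSucc 2], [.ofNat 6, .ofNat 4, .ofNat 7,
  .ofNat 9, .ofNat 5], [.negSucc 0, .ofNat 2, .ofNat 1, .ofNat 3, .negSucc 4], [.negSucc 2, .negSucc 5, .negSucc 7,
  .negSucc 4, .negSucc 8], [.ofNat 8, .ofNat 4, .ofNat 5, .ofNat 11, .ofNat 3], [.negSucc 0, .ofNat 2, .ofNat 1, .ofNat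
  0, .negSucc 1], [.ofNat 5, .ofNat 0, .negSucc 1, .negSucc 2, .ofNat 0], [.ofNat 4, .ofNat 5, .ofNat 10, .ofNat 4,
  .ofNat 8]], [[.ofNat 0, .ofNat 4, .ofNat 1, .negSucc 0, .negSucc 3], [.ofNat 7, .ofNat 5, .ofNat 5, .ofNat 9, .ofNat
  5], [.ofNat 5, .ofNat 8, .ofNat 5, .ofNat 7, .ofNat 6], [.ofNat 3, .ofNat 0, .negSucc 2, .negSucc 1, .ofNat 2],
  [.ofNat 1, .negSucc 0, .ofNat 0, .ofNat 3, .negSucc 2], [.ofNat 5, .ofNat 7, .ofNat 6, .ofNat 6, .ofNat 7], [.ofNat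
  15, .ofNat 12, .ofNat 13, .ofNat 10, .ofNat 12], [.ofNat 7, .ofNat 7, .ofNat 9, .ofNat 3, .ofNat 5]], [[.negSucc 2,
  .ofNat 1, .ofNat 3, .ofNat 1, .negSucc 1], [.ofNat 0, .ofNat 0, .ofNat 1, .ofNat 1, .negSucc 1], [.negSucc 2, .ofNat
  3, .ofNat 0, .negSucc 0, .ofNat 1], [.negSucc 3, .negSucc 5, .negSucc 7, .negSucc 6, .negSucc 5], [.ofNat 14, .ofNat
  11, .ofNat 11, .ofNat 19, .ofNat 7], [.ofNat 7, .ofNat 8, .ofNat 3, .ofNat 6, .ofNat 7], [.ofNat 11, .ofNat 6, .ofNat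
  5, .ofNat 6, .ofNat 3], [.ofNat 5, .ofNat 9, .ofNat 6, .ofNat 5, .ofNat 6]], [[.negSucc 0, .negSucc 1, .ofNat 0,
  .ofNat 0, .ofNat 3], [.negSucc 1, .ofNat 3, .negSucc 2, .ofNat 0, .ofNat 2], [.ofNat 2, .negSucc 3, .ofNat 0, .ofNat
  2, .ofNat 0], [.ofNat 1, .ofNat 0, .ofNat 4, .negSucc 1, .negSucc 2], [.negSucc 1, .ofNat 1, .ofNat 1, .negSucc 1,
  .ofNat 2], [.ofNat 2, .ofNat 2, .ofNat 1, .negSucc 1, .negSucc 2], [.negSucc 3, .negSucc 1, .ofNat 2, .ofNat 3, .ofNat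
  1], [.ofNat 1, .ofNat 0, .negSucc 3, .ofNat 1, .ofNat 2]], [[.ofNat 4, .ofNat 2, .negSucc 1, .negSucc 2, .negSucc 0],
  [.ofNat 1, .negSucc 1, .ofNat 1, .ofNat 0, .ofNat 0], [.ofNat 1, .negSucc 2, .ofNat 4, .ofNat 0, .negSucc 1],
  [.negSucc 1, .negSucc 1, .ofNat 0, .ofNat 4, .ofNat 0], [.negSucc 0, .ofNat 3, .negSucc 1, .negSucc 1, .ofNat 2],
  [.negSucc 1, .negSucc 2, .ofNat 3, .ofNat 1, .ofNat 1], [.ofNat 0, .ofNat 3, .negSucc 2, .negSucc 0, .ofNat 1],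
  [.ofNat 0, .negSucc 3, .ofNat 1, .ofNat 0, .ofNat 3]], [[.negSucc 2, .negSucc 3, .ofNat 1, .ofNat 2, .ofNat 4],
  [.negSucc 0, .ofNat 0, .ofNat 2, .ofNat 1, .negSucc 1], [.negSucc 0, .ofNat 1, .negSucc 1, .ofNat 2, .ofNat 0],
  [.negSucc 0, .ofNat 1, .negSucc 1, .ofNat 1, .ofNat 1], [.ofNat 1, .negSucc 1, .ofNat 0, .ofNat 3, .negSucc 1],
  [.ofNat 5, .ofNat 3, .negSucc 4, .ofNat 1, .negSucc 3], [.ofNat 0, .ofNat 1, .ofNat 0, .ofNat 2, .negSucc 2], [.ofNat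
  0, .ofNat 5, .negSucc 5, .ofNat 2, .negSucc 0]], [[.ofNat 7, .ofNat 8, .ofNat 5, .ofNat 8, .ofNat 3], [.ofNat 15,
  .ofNat 10, .ofNat 17, .ofNat 13, .ofNat 7], [.ofNat 7, .ofNat 8, .ofNat 5, .ofNat 6, .ofNat 5], [.negSucc 6, .negSucc
  6, .negSucc 6, .negSucc 4, .negSucc 4], [.ofNat 1, .ofNat 1, .negSucc 0, .ofNat 3, .negSucc 3], [.ofNat 1, .ofNat 2,
  .negSucc 4, .ofNat 3, .negSucc 0], [.ofNat 4, .ofNat 2, .negSucc 1, .negSucc 2, .negSucc 0], [.ofNat 5, .ofNat 7,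
  .ofNat 7, .ofNat 6, .ofNat 6]], [[.negSucc 6, .negSucc 7, .negSucc 4, .negSucc 5, .negSucc 4], [.ofNat 5, .ofNat 9,
  .ofNat 2, .ofNat 6, .ofNat 9], [.ofNat 1, .negSucc 0, .ofNat 0, .ofNat 0, .ofNat 0], [.ofNat 8, .ofNat 4, .ofNat 6,
  .ofNat 8, .ofNat 5], [.negSucc 11, .negSucc 12, .negSucc 12, .negSucc 12, .negSucc 10], [.negSucc 8, .negSucc 9,
  .negSucc 1, .negSucc 8, .negSucc 0], [.negSucc 1, .negSucc 1, .ofNat 2, .ofNat 1, .ofNat 1], [.ofNat 1, .negSucc 1,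
  .ofNat 4, .negSucc 4, .ofNat 2]], [[.ofNat 7, .ofNat 8, .ofNat 4, .ofNat 8, .ofNat 4], [.ofNat 7, .ofNat 3, .ofNat 12,
  .ofNat 7, .ofNat 2], [.ofNat 3, .ofNat 12, .ofNat 4, .ofNat 4, .ofNat 8], [.negSucc 4, .negSucc 3, .negSucc 9,
  .negSucc 6, .negSucc 4], [.ofNat 7, .ofNat 7, .ofNat 4, .ofNat 13, .ofNat 0], [.ofNat 8, .ofNat 12, .ofNat 1, .ofNat
  6, .ofNat 4], [.ofNat 12, .ofNat 6, .ofNat 4, .ofNat 6, .ofNat 3], [.ofNat 6, .ofNat 8, .ofNat 8, .ofNat 6, .ofNat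
  3]], [[.ofNat 2, .ofNat 5, .ofNat 0, .negSucc 2, .negSucc 3], [.ofNat 0, .ofNat 1, .negSucc 2, .ofNat 2, .ofNat 0],
  [.ofNat 2, .ofNat 0, .ofNat 0, .ofNat 1, .negSucc 2], [.ofNat 1, .negSucc 2, .ofNat 1, .ofNat 3, .negSucc 1], [.ofNat
  0, .ofNat 1, .negSucc 2, .ofNat 2, .ofNat 0], [.negSucc 5, .negSucc 2, .ofNat 5, .ofNat 3, .ofNat 1], [.ofNat 5,
  .ofNat 0, .negSucc 2, .negSucc 3, .ofNat 2], [.ofNat 0, .negSucc 1, .ofNat 6, .negSucc 3, .ofNat 0]], [[.negSucc 1,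
  .negSucc 4, .negSucc 6, .negSucc 10, .negSucc 5], [.ofNat 1, .ofNat 1, .negSucc 5, .ofNat 1, .ofNat 3], [.negSucc 3,
  .negSucc 6, .negSucc 5, .negSucc 4, .negSucc 8], [.negSucc 0, .negSucc 0, .ofNat 0, .ofNat 3, .negSucc 0], [.ofNat 1,
  .ofNat 1, .negSucc 1, .negSucc 2, .ofNat 3], [.negSucc 12, .negSucc 10, .ofNat 0, .negSucc 3, .negSucc 2], [.negSucc
  8, .negSucc 6, .negSucc 6, .negSucc 5, .negSucc 1], [.negSucc 1, .negSucc 2, .ofNat 5, .negSucc 2, .ofNat 3]],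
  [[.negSucc 6, .negSucc 5, .negSucc 5, .negSucc 6, .negSucc 4], [.ofNat 5, .ofNat 9, .ofNat 2, .ofNat 9, .ofNat 6],
  [.negSucc 1, .ofNat 4, .negSucc 0, .ofNat 2, .negSucc 2], [.ofNat 0, .negSucc 1, .ofNat 0, .ofNat 3, .negSucc 0],
  [.ofNat 4, .negSucc 3, .negSucc 0, .ofNat 3, .negSucc 1], [.negSucc 2, .negSucc 2, .ofNat 3, .ofNat 0, .ofNat 3],
  [.ofNat 10, .ofNat 3, .ofNat 7, .ofNat 4, .ofNat 7], [.ofNat 6, .ofNat 4, .ofNat 10, .ofNat 4, .ofNat 7]], [[.negSucc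
  4, .negSucc 5, .negSucc 8, .negSucc 4, .negSucc 5], [.negSucc 11, .negSucc 14, .negSucc 11, .negSucc 11, .negSucc 10],
  [.negSucc 4, .negSucc 5, .negSucc 5, .negSucc 7, .negSucc 5], [.ofNat 7, .ofNat 5, .ofNat 8, .ofNat 4, .ofNat 7],
  [.negSucc 2, .ofNat 1, .ofNat 2, .negSucc 2, .ofNat 3], [.negSucc 2, .ofNat 4, .negSucc 0, .ofNat 0, .ofNat 0],
  [.negSucc 4, .negSucc 0, .ofNat 3, .ofNat 2, .ofNat 1], [.negSucc 6, .negSucc 5, .negSucc 6, .negSucc 5, .negSucc 4]],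
  [[.negSucc 13, .negSucc 13, .negSucc 11, .negSucc 11, .negSucc 9], [.negSucc 0, .ofNat 0, .negSucc 0, .negSucc 1,
  .ofNat 4], [.negSucc 5, .negSucc 4, .negSucc 6, .negSucc 7, .negSucc 4], [.ofNat 5, .ofNat 5, .ofNat 7, .ofNat 7,
  .ofNat 7], [.negSucc 8, .negSucc 7, .negSucc 1, .negSucc 9, .negSucc 1], [.negSucc 8, .negSucc 5, .negSucc 4, .negSucc
  5, .negSucc 4], [.negSucc 4, .negSucc 2, .ofNat 2, .ofNat 4, .ofNat 2], [.ofNat 2, .ofNat 2, .negSucc 3, .ofNat 0,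
  .ofNat 0]], [[.negSucc 9, .negSucc 10, .negSucc 12, .negSucc 11, .negSucc 15], [.ofNat 0, .negSucc 1, .ofNat 2,
  .negSucc 0, .ofNat 1], [.negSucc 3, .negSucc 3, .negSucc 7, .negSucc 9, .negSucc 4], [.ofNat 4, .ofNat 5, .ofNat 6,
  .ofNat 8, .ofNat 8], [.negSucc 7, .negSucc 2, .negSucc 5, .negSucc 6, .negSucc 6], [.negSucc 8, .negSucc 7, .negSucc
  4, .negSucc 3, .negSucc 4], [.negSucc 1, .ofNat 1, .ofNat 2, .ofNat 0, .negSucc 0], [.ofNat 1, .negSucc 2, .ofNat 3,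
  .negSucc 0, .ofNat 0]], [[.negSucc 8, .negSucc 2, .negSucc 5, .negSucc 3, .negSucc 8], [.ofNat 2, .negSucc 1, .ofNat
  2, .negSucc 0, .negSucc 0], [.negSucc 0, .ofNat 6, .negSucc 2, .negSucc 1, .ofNat 0], [.ofNat 9, .ofNat 6, .ofNat 3,
  .ofNat 7, .ofNat 6], [.negSucc 5, .negSucc 5, .negSucc 4, .negSucc 2, .negSucc 10], [.ofNat 0, .ofNat 1, .negSucc 4,
  .ofNat 2, .ofNat 2], [.ofNat 8, .ofNat 3, .ofNat 8, .ofNat 9, .ofNat 3], [.ofNat 1, .ofNat 0, .ofNat 0, .ofNat 1,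
  .negSucc 1]], [[.negSucc 13, .negSucc 8, .negSucc 11, .negSucc 11, .negSucc 14], [.ofNat 2, .negSucc 1, .negSucc 3,
  .ofNat 2, .ofNat 2], [.negSucc 7, .negSucc 4, .negSucc 4, .negSucc 6, .negSucc 5], [.ofNat 6, .ofNat 6, .ofNat 6,
  .ofNat 7, .ofNat 6], [.negSucc 7, .negSucc 5, .negSucc 6, .negSucc 5, .negSucc 3], [.negSucc 12, .negSucc 7, .negSucc
  1, .negSucc 5, .negSucc 1], [.negSucc 1, .negSucc 0, .ofNat 2, .ofNat 1, .ofNat 0], [.ofNat 2, .negSucc 3, .ofNat 3,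
  .negSucc 1, .ofNat 1]], [[.ofNat 3, .ofNat 2, .negSucc 2, .negSucc 1, .ofNat 0], [.ofNat 7, .ofNat 4, .ofNat 5, .ofNat
  9, .ofNat 6], [.ofNat 3, .negSucc 1, .ofNat 1, .ofNat 0, .negSucc 1], [.negSucc 3, .negSucc 8, .negSucc 4, .negSucc 5,
  .negSucc 6], [.ofNat 9, .ofNat 4, .ofNat 5, .ofNat 7, .ofNat 6], [.negSucc 2, .negSucc 0, .ofNat 5, .ofNat 1, .negSucc
  1], [.ofNat 2, .negSucc 0, .ofNat 0, .negSucc 1, .ofNat 1], [.ofNat 5, .ofNat 7, .ofNat 10, .ofNat 4, .ofNat 5]],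
  [[.negSucc 9, .negSucc 5, .negSucc 4, .negSucc 2, .negSucc 6], [.negSucc 1, .ofNat 0, .ofNat 0, .negSucc 1, .ofNat 4],
  [.negSucc 1, .ofNat 3, .negSucc 1, .negSucc 1, .ofNat 3], [.ofNat 9, .ofNat 6, .ofNat 5, .ofNat 4, .ofNat 7],
  [.negSucc 9, .negSucc 3, .negSucc 4, .negSucc 7, .negSucc 3], [.negSucc 0, .ofNat 2, .negSucc 3, .ofNat 0, .ofNat 3],
  [.ofNat 3, .ofNat 6, .ofNat 11, .ofNat 9, .ofNat 2], [.ofNat 1, .ofNat 0, .negSucc 0, .ofNat 2, .negSucc 1]], [[.ofNat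
  0, .ofNat 2, .ofNat 0, .negSucc 2, .ofNat 1], [.ofNat 6, .ofNat 10, .ofNat 4, .ofNat 8, .ofNat 3], [.ofNat 0, .negSucc
  0, .negSucc 1, .ofNat 4, .negSucc 0], [.negSucc 3, .negSucc 5, .negSucc 6, .negSucc 2, .negSucc 10], [.ofNat 11,
  .ofNat 5, .ofNat 4, .ofNat 8, .ofNat 3], [.negSucc 0, .negSucc 0, .ofNat 3, .negSucc 2, .ofNat 2], [.ofNat 7, .ofNat
  0, .negSucc 2, .negSucc 3, .ofNat 0], [.ofNat 5, .ofNat 5, .ofNat 11, .ofNat 3, .ofNat 7]]]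

/-- `m` times the word `a` is the combination with coefficients `v` of the frame. -/
def chkW5 (m : ℤ) (v : List ℤ) (a : List (List ℤ)) : Bool :=
  allN 8 fun j => allN 5 fun c => m * lf a j c == dotL v ((fw5.map fun f => lf f j c))

theorem g3w_chk : (allN 40 fun i => chkW5 180 (g3T.getD i []) (g3w.getD i [])) = true := by decide +kernel

theorem g3w_memP : (allN 40 fun i => chkP 5 (g3w.getD i [])) = true := by decide +kernel

theorem g3w_mem : (allN 40 fun i => chkMem (ex30 5 (g3w.getD i []))) = true :=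
  allN_iff.2 fun i hi => chkMem_of_chkP (Or.inr rfl) (allN_iff.1 g3w_memP i hi)

theorem g2w_chk : (allN 40 fun i => chkW5 240 (g2T.getD i []) (g2w.getD i [])) = true := by decide +kernel

theorem g2w_memP : (allN 40 fun i => chkP 5 (g2w.getD i [])) = true := by decide +kernel

theorem g2w_mem : (allN 40 fun i => chkMem (ex30 5 (g2w.getD i []))) = true :=
  allN_iff.2 fun i hi => chkMem_of_chkP (Or.inr rfl) (allN_iff.1 g2w_memP i hi)

theorem g5w_chk : (allN 40 fun i => chkW5 300 (g5T.getD i []) (g5w.getD i [])) = true := by decide +kernel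

theorem g5w_memP : (allN 40 fun i => chkP 5 (g5w.getD i [])) = true := by decide +kernel

theorem g5w_mem : (allN 40 fun i => chkMem (ex30 5 (g5w.getD i []))) = true :=
  allN_iff.2 fun i hi => chkMem_of_chkP (Or.inr rfl) (allN_iff.1 g5w_memP i hi)

theorem cb5w_chk : (allN 15 fun i => chkW5 60 (cb5n.getD i []) (cb5w.getD i [])) = true := by decide +kernel

theorem cb5w_memP : (allN 15 fun i => chkP 5 (cb5w.getD i [])) = true := by decide +kernel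

theorem cb5w_mem : (allN 15 fun i => chkMem (ex30 5 (cb5w.getD i []))) = true :=
  allN_iff.2 fun i hi => chkMem_of_chkP (Or.inr rfl) (allN_iff.1 cb5w_memP i hi)

theorem ca5w_chk : (allN 24 fun i => chkW5 60 (ca5n.getD i []) (ca5w.getD i [])) = true := by decide +kernel

theorem ca5w_memP : (allN 24 fun i => chkP 5 (ca5w.getD i [])) = true := by decide +kernel

theorem ca5w_mem : (allN 24 fun i => chkMem (ex30 5 (ca5w.getD i []))) = true :=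
  allN_iff.2 fun i hi => chkMem_of_chkP (Or.inr rfl) (allN_iff.1 ca5w_memP i hi)

end Pool.Agent.Helper60.E8Z
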