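import Pool.Agent.Helper60.E8Z.Fr3
import Pool.Agent.Helper73.E8.Xc.Kq3

/-!
# Project E8Z, (E2): the frame of `L^(t^3)`: Gram matrix, action of `t`, Killing form
-/

set_option autoImplicit false

namespace Pool.Agent.Helper60.E8Z

open Pool.Agent.Helper73.E8.Ez Pool.Agent.Helper64.E8C Pool.Agent.Helper73.E8.Xc

theorem gram3 : ∀ i < 24, ∀ j < 24, fF 3 (lf (fw3.getD i [])) (lf (fw3.getD j [])) = if i = j then 124 ^ 2 else 0 := by
  decide +kernel

theorem shift3 : ∀ i < 24, ∀ j < 8, ∀ c < 3, lf (fw3.getD (tau3 i) []) j c = tF 3 (lf (fw3.getD i [])) j c := by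
  decide +kernel

/-- The covector of the Killing form. -/
def kb3 (b : ℕ → ℕ → ℤ) (i c : ℕ) : ℤ := ∑ j ∈ Finset.range 8, ∑ d ∈ Finset.range 3, ∑ c' ∈ Finset.range 3,
  q3 i j d * (if c % 3 = (c' + d) % 3 then 21 else -10) * b j c'

/-- The covectors of the frame. -/
def ku3 : List (List (List ℤ)) := [[[.ofNat 9176, .ofNat 1240, .negSucc 10663], [.ofNat 3472, .ofNat 5952, .negSucc
  8431], [.ofNat 9424, .negSucc 1983, .negSucc 4215], [.negSucc 12151, .ofNat 8928, .ofNat 4960], [.ofNat 6448, .negSucc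
  3967, .negSucc 1487], [.negSucc 5455, .negSucc 6695, .ofNat 11656], [.ofNat 496, .ofNat 0, .ofNat 2976], [.negSucc
  2727, .ofNat 5952, .negSucc 4959]], [[.negSucc 10663, .ofNat 9176, .ofNat 1240], [.negSucc 8431, .ofNat 3472, .ofNat
  5952], [.negSucc 4215, .ofNat 9424, .negSucc 1983], [.ofNat 4960, .negSucc 12151, .ofNat 8928], [.negSucc 1487, .ofNat
  6448, .negSucc 3967], [.ofNat 11656, .negSucc 5455, .negSucc 6695], [.ofNat 2976, .ofNat 496, .ofNat 0], [.negSucc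
  4959, .negSucc 2727, .ofNat 5952]], [[.ofNat 1240, .negSucc 10663, .ofNat 9176], [.ofNat 5952, .negSucc 8431, .ofNat
  3472], [.negSucc 1983, .negSucc 4215, .ofNat 9424], [.ofNat 8928, .ofNat 4960, .negSucc 12151], [.negSucc 3967,
  .negSucc 1487, .ofNat 6448], [.negSucc 6695, .ofNat 11656, .negSucc 5455], [.ofNat 0, .ofNat 2976, .ofNat 496],
  [.ofNat 5952, .negSucc 4959, .negSucc 2727]], [[.ofNat 6944, .negSucc 7439, .negSucc 2975], [.negSucc 10911, .ofNat
  1488, .ofNat 8432], [.negSucc 743, .ofNat 10664, .negSucc 9423], [.negSucc 2727, .ofNat 5952, .negSucc 4959], [.ofNat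
  992, .negSucc 3471, .ofNat 1488], [.ofNat 4216, .negSucc 1983, .negSucc 5455], [.negSucc 9175, .negSucc 1239, .ofNat
  10664], [.ofNat 2728, .ofNat 8928, .negSucc 9919]], [[.negSucc 2975, .ofNat 6944, .negSucc 7439], [.ofNat 8432,
  .negSucc 10911, .ofNat 1488], [.negSucc 9423, .negSucc 743, .ofNat 10664], [.negSucc 4959, .negSucc 2727, .ofNat
  5952], [.ofNat 1488, .ofNat 992, .negSucc 3471], [.negSucc 5455, .ofNat 4216, .negSucc 1983], [.ofNat 10664, .negSucc
  9175, .negSucc 1239], [.negSucc 9919, .ofNat 2728, .ofNat 8928]], [[.negSucc 7439, .negSucc 2975, .ofNat 6944],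
  [.ofNat 1488, .ofNat 8432, .negSucc 10911], [.ofNat 10664, .negSucc 9423, .negSucc 743], [.ofNat 5952, .negSucc 4959,
  .negSucc 2727], [.negSucc 3471, .ofNat 1488, .ofNat 992], [.negSucc 1983, .negSucc 5455, .ofNat 4216], [.negSucc 1239,
  .ofNat 10664, .negSucc 9175], [.ofNat 8928, .negSucc 9919, .ofNat 2728]], [[.negSucc 3471, .ofNat 1488, .ofNat 992],
  [.negSucc 8679, .ofNat 10664, .negSucc 1735], [.negSucc 4711, .negSucc 5951, .ofNat 12400], [.negSucc 3223, .ofNat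
  9424, .negSucc 6695], [.negSucc 7935, .ofNat 0, .ofNat 4464], [.negSucc 2479, .ofNat 2728, .ofNat 1488], [.ofNat 3968,
  .ofNat 1488, .negSucc 6447], [.negSucc 12895, .ofNat 11656, .negSucc 1983]], [[.ofNat 992, .negSucc 3471, .ofNat
  1488], [.negSucc 1735, .negSucc 8679, .ofNat 10664], [.ofNat 12400, .negSucc 4711, .negSucc 5951], [.negSucc 6695,
  .negSucc 3223, .ofNat 9424], [.ofNat 4464, .negSucc 7935, .ofNat 0], [.ofNat 1488, .negSucc 2479, .ofNat 2728],
  [.negSucc 6447, .ofNat 3968, .ofNat 1488], [.negSucc 1983, .negSucc 12895, .ofNat 11656]], [[.ofNat 1488, .ofNat 992,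
  .negSucc 3471], [.ofNat 10664, .negSucc 1735, .negSucc 8679], [.negSucc 5951, .ofNat 12400, .negSucc 4711], [.ofNat
  9424, .negSucc 6695, .negSucc 3223], [.ofNat 0, .ofNat 4464, .negSucc 7935], [.ofNat 2728, .ofNat 1488, .negSucc
  2479], [.ofNat 1488, .negSucc 6447, .ofNat 3968], [.ofNat 11656, .negSucc 1983, .negSucc 12895]], [[.negSucc 10911,
  .ofNat 1488, .ofNat 8432], [.ofNat 14880, .negSucc 10415, .negSucc 7935], [.ofNat 2728, .ofNat 1488, .negSucc 2479],
  [.negSucc 1983, .ofNat 3224, .ofNat 1984], [.negSucc 1735, .negSucc 8679, .ofNat 10664], [.ofNat 4960, .negSucc 4711,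
  .ofNat 1488], [.negSucc 3471, .negSucc 5951, .ofNat 8432], [.negSucc 4215, .ofNat 5456, .negSucc 743]], [[.ofNat 8432,
  .negSucc 10911, .ofNat 1488], [.negSucc 7935, .ofNat 14880, .negSucc 10415], [.negSucc 2479, .ofNat 2728, .ofNat
  1488], [.ofNat 1984, .negSucc 1983, .ofNat 3224], [.ofNat 10664, .negSucc 1735, .negSucc 8679], [.ofNat 1488, .ofNat
  4960, .negSucc 4711], [.ofNat 8432, .negSucc 3471, .negSucc 5951], [.negSucc 743, .negSucc 4215, .ofNat 5456]],
  [[.ofNat 1488, .ofNat 8432, .negSucc 10911], [.negSucc 10415, .negSucc 7935, .ofNat 14880], [.ofNat 1488, .negSucc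
  2479, .ofNat 2728], [.ofNat 3224, .ofNat 1984, .negSucc 1983], [.negSucc 8679, .ofNat 10664, .negSucc 1735], [.negSucc
  4711, .ofNat 1488, .ofNat 4960], [.negSucc 5951, .ofNat 8432, .negSucc 3471], [.ofNat 5456, .negSucc 743, .negSucc
  4215]], [[.negSucc 2727, .ofNat 5952, .negSucc 4959], [.negSucc 1983, .ofNat 3224, .ofNat 1984], [.ofNat 13888,
  .negSucc 991, .negSucc 11407], [.ofNat 1240, .ofNat 496, .negSucc 5703], [.negSucc 6695, .negSucc 3223, .ofNat 9424],
  [.ofNat 3472, .ofNat 6448, .negSucc 8431], [.ofNat 12152, .negSucc 8927, .negSucc 4959], [.ofNat 0, .ofNat 744,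
  .negSucc 495]], [[.negSucc 4959, .negSucc 2727, .ofNat 5952], [.ofNat 1984, .negSucc 1983, .ofNat 3224], [.negSucc
  11407, .ofNat 13888, .negSucc 991], [.negSucc 5703, .ofNat 1240, .ofNat 496], [.ofNat 9424, .negSucc 6695, .negSucc
  3223], [.negSucc 8431, .ofNat 3472, .ofNat 6448], [.negSucc 4959, .ofNat 12152, .negSucc 8927], [.negSucc 495, .ofNat
  0, .ofNat 744]], [[.ofNat 5952, .negSucc 4959, .negSucc 2727], [.ofNat 3224, .ofNat 1984, .negSucc 1983], [.negSucc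
  991, .negSucc 11407, .ofNat 13888], [.ofNat 496, .negSucc 5703, .ofNat 1240], [.negSucc 3223, .ofNat 9424, .negSucc
  6695], [.ofNat 6448, .negSucc 8431, .ofNat 3472], [.negSucc 8927, .negSucc 4959, .ofNat 12152], [.ofNat 744, .negSucc
  495, .ofNat 0]], [[.negSucc 2727, .negSucc 8927, .ofNat 9920], [.ofNat 4216, .negSucc 5455, .ofNat 744], [.ofNat 6448,
  .negSucc 991, .negSucc 3967], [.ofNat 0, .negSucc 743, .ofNat 496], [.ofNat 1984, .ofNat 12896, .negSucc 11655],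
  [.ofNat 3472, .negSucc 991, .negSucc 991], [.negSucc 2727, .ofNat 5952, .negSucc 4959], [.negSucc 8679, .ofNat 14384,
  .negSucc 1735]], [[.ofNat 9920, .negSucc 2727, .negSucc 8927], [.ofNat 744, .ofNat 4216, .negSucc 5455], [.negSucc
  3967, .ofNat 6448, .negSucc 991], [.ofNat 496, .ofNat 0, .negSucc 743], [.negSucc 11655, .ofNat 1984, .ofNat 12896],
  [.negSucc 991, .ofNat 3472, .negSucc 991], [.negSucc 4959, .negSucc 2727, .ofNat 5952], [.negSucc 1735, .negSucc 8679,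
  .ofNat 14384]], [[.negSucc 8927, .ofNat 9920, .negSucc 2727], [.negSucc 5455, .ofNat 744, .ofNat 4216], [.negSucc 991,
  .negSucc 3967, .ofNat 6448], [.negSucc 743, .ofNat 496, .ofNat 0], [.ofNat 12896, .negSucc 11655, .ofNat 1984],
  [.negSucc 991, .negSucc 991, .ofNat 3472], [.ofNat 5952, .negSucc 4959, .negSucc 2727], [.ofNat 14384, .negSucc 1735,
  .negSucc 8679]], [[.negSucc 5455, .ofNat 4216, .negSucc 1983], [.ofNat 1488, .ofNat 4960, .negSucc 4711], [.ofNat 0,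
  .negSucc 743, .ofNat 496], [.negSucc 8431, .ofNat 3472, .ofNat 6448], [.ofNat 2728, .ofNat 1488, .negSucc 2479],
  [.negSucc 5703, .ofNat 16120, .negSucc 14383], [.negSucc 11655, .ofNat 5456, .ofNat 6696], [.ofNat 992, .negSucc 3471,
  .ofNat 992]], [[.negSucc 1983, .negSucc 5455, .ofNat 4216], [.negSucc 4711, .ofNat 1488, .ofNat 4960], [.ofNat 496,
  .ofNat 0, .negSucc 743], [.ofNat 6448, .negSucc 8431, .ofNat 3472], [.negSucc 2479, .ofNat 2728, .ofNat 1488],
  [.negSucc 14383, .negSucc 5703, .ofNat 16120], [.ofNat 6696, .negSucc 11655, .ofNat 5456], [.ofNat 992, .ofNat 992,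
  .negSucc 3471]], [[.ofNat 4216, .negSucc 1983, .negSucc 5455], [.ofNat 4960, .negSucc 4711, .ofNat 1488], [.negSucc
  743, .ofNat 496, .ofNat 0], [.ofNat 3472, .ofNat 6448, .negSucc 8431], [.ofNat 1488, .negSucc 2479, .ofNat 2728],
  [.ofNat 16120, .negSucc 14383, .negSucc 5703], [.ofNat 5456, .ofNat 6696, .negSucc 11655], [.negSucc 3471, .ofNat 992,
  .ofNat 992]], [[.negSucc 9423, .negSucc 743, .ofNat 10664], [.negSucc 2479, .ofNat 2728, .ofNat 1488], [.ofNat 496,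
  .ofNat 1736, .negSucc 6199], [.negSucc 11407, .ofNat 13888, .negSucc 991], [.negSucc 5951, .ofNat 12400, .negSucc
  4711], [.ofNat 0, .negSucc 743, .ofNat 496], [.ofNat 4216, .negSucc 9423, .ofNat 1984], [.ofNat 3968, .negSucc 6447,
  .ofNat 992]], [[.ofNat 10664, .negSucc 9423, .negSucc 743], [.ofNat 1488, .negSucc 2479, .ofNat 2728], [.negSucc 6199,
  .ofNat 496, .ofNat 1736], [.negSucc 991, .negSucc 11407, .ofNat 13888], [.negSucc 4711, .negSucc 5951, .ofNat 12400],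
  [.ofNat 496, .ofNat 0, .negSucc 743], [.ofNat 1984, .ofNat 4216, .negSucc 9423], [.ofNat 992, .ofNat 3968, .negSucc
  6447]], [[.negSucc 743, .ofNat 10664, .negSucc 9423], [.ofNat 2728, .ofNat 1488, .negSucc 2479], [.ofNat 1736,
  .negSucc 6199, .ofNat 496], [.ofNat 13888, .negSucc 991, .negSucc 11407], [.ofNat 12400, .negSucc 4711, .negSucc
  5951], [.negSucc 743, .ofNat 496, .ofNat 0], [.negSucc 9423, .ofNat 1984, .ofNat 4216], [.negSucc 6447, .ofNat 992,
  .ofNat 3968]]]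

theorem kil3a : ∀ i < 24, ∀ j < 8, ∀ c < 3, kb3 (lf (fw3.getD i [])) j c = lf (ku3.getD i []) j c := by
  decide +kernel

theorem kil3b : ∀ i < 24, ∀ i' < 24, ∑ j ∈ Finset.range 8, ∑ c ∈ Finset.range 3,
    lf (fw3.getD i []) j c * lf (ku3.getD i' []) j c = -2 * 124 ^ 2 * en2 s3T i i' := by
  decide +kernel

end Pool.Agent.Helper60.E8Z
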