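import Pool.Agent.Helper60.E8Z.Fr5
import Pool.Agent.Helper60.E8Z.Spl
import Pool.Agent.Helper73.E8.Xc.Kq

/-!
# Project E8Z, (E2): the frame of `L^(t^5)`: Gram matrix, action of `t`, Killing form
-/

set_option autoImplicit false

namespace Pool.Agent.Helper60.E8Z

open Pool.Agent.Helper73.E8.Ez Pool.Agent.Helper64.E8C Pool.Agent.Helper73.E8.Xc

/-- Double dot product. -/
def dd : List (List ℤ) → List (List ℤ) → ℤ
  | a :: as, b :: bs => dotL a b + dd as bs
  | _, _ => 0

theorem dd_eq {a b : List (List ℤ)} {N n : ℕ} (h : a.length ≤ N) (hn : ∀ r ∈ a, r.length ≤ n) :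
    dd a b = ∑ j ∈ Finset.range N, ∑ c ∈ Finset.range n, lf a j c * lf b j c := by
  induction N generalizing a b with
  | zero =>
    rw [Finset.sum_range_zero, List.length_eq_zero_iff.1 (Nat.le_zero.1 h)]
    rfl
  | succ N ih =>
    rw [Finset.sum_range_succ']
    cases a with
    | nil => simp [dd, lf]
    | cons x a =>
      cases b with
      | nil => simp [dd, lf]
      | cons y b =>
        have h1 := ih (a := a) (b := b) (by simpa using h) fun r hr => hn r (List.mem_cons_of_mem _ hr)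
        have h2 := dotL_eq_sum (a := x) (b := y) (N := n) (Or.inl (hn x List.mem_cons_self))
        change dotL x y + dd a b = _
        rw [h1, h2, add_comm]
        rfl

/-- Shape. -/
def shp (l : List (List ℤ)) : Bool := l.length == 8 && l.all fun r => r.length == 5

theorem dd_shp {l : List (List ℤ)} (h : shp l = true) (m : List (List ℤ)) :
    dd l m = ∑ j ∈ Finset.range 8, ∑ c ∈ Finset.range 5, lf l j c * lf m j c := by
  unfold shp at h
  rw [Bool.and_eq_true, List.all_eq_true] at h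
  refine dd_eq (le_of_eq (by simpa using h.1)) fun r hr => le_of_eq (by simpa using h.2 r hr)

theorem fw5_shp : (allN 40 fun i => shp (fw5.getD i [])) = true := by decide +kernel

theorem shift5 : ∀ i < 40, ∀ j < 8, ∀ c < 5, lf (fw5.getD (del^[4] i) []) j c = tF 5 (lf (fw5.getD i [])) j c := by
  decide +kernel

/-- The covectors of the frame: form. -/
def gu5 : List (List (List ℤ)) := [[[.ofNat 217, .ofNat 1147, .negSucc 1642, .ofNat 1767, .negSucc 402], [.ofNat 1767,
  .negSucc 92, .negSucc 712, .negSucc 402, .negSucc 1022], [.negSucc 2076, .ofNat 93, .ofNat 1953, .ofNat 2883, .negSucc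
  2076], [.ofNat 217, .negSucc 92, .negSucc 712, .negSucc 92, .negSucc 402], [.negSucc 712, .negSucc 712, .negSucc 1022,
  .negSucc 1332, .ofNat 3317], [.negSucc 836, .negSucc 526, .negSucc 526, .negSucc 526, .ofNat 2573], [.ofNat 1457,
  .negSucc 2882, .negSucc 402, .ofNat 2697, .negSucc 1022], [.negSucc 526, .ofNat 2883, .negSucc 1146, .negSucc 836,
  .negSucc 526]], [[.ofNat 1457, .negSucc 2882, .negSucc 402, .ofNat 2697, .negSucc 1022], [.negSucc 712, .ofNat 837,
  .negSucc 1332, .ofNat 1457, .negSucc 712], [.negSucc 2386, .ofNat 3193, .negSucc 526, .ofNat 713, .negSucc 836],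
  [.negSucc 1332, .negSucc 2882, .ofNat 3007, .ofNat 837, .ofNat 527], [.ofNat 1767, .negSucc 712, .negSucc 402,
  .negSucc 1022, .negSucc 92], [.ofNat 93, .ofNat 93, .ofNat 1023, .negSucc 216, .negSucc 216], [.ofNat 217, .negSucc
  92, .negSucc 402, .ofNat 217, .ofNat 1147], [.negSucc 1146, .negSucc 1766, .ofNat 403, .ofNat 3503, .ofNat 93]],
  [[.negSucc 1642, .ofNat 1767, .negSucc 402, .ofNat 217, .ofNat 1147], [.negSucc 712, .negSucc 402, .negSucc 1022,
  .ofNat 1767, .negSucc 92], [.ofNat 1953, .ofNat 2883, .negSucc 2076, .negSucc 2076, .ofNat 93], [.negSucc 712,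
  .negSucc 92, .negSucc 402, .ofNat 217, .negSucc 92], [.negSucc 1022, .negSucc 1332, .ofNat 3317, .negSucc 712,
  .negSucc 712], [.negSucc 526, .negSucc 526, .ofNat 2573, .negSucc 836, .negSucc 526], [.negSucc 402, .ofNat 2697,
  .negSucc 1022, .ofNat 1457, .negSucc 2882], [.negSucc 1146, .negSucc 836, .negSucc 526, .negSucc 526, .ofNat 2883]],
  [[.negSucc 402, .ofNat 2697, .negSucc 1022, .ofNat 1457, .negSucc 2882], [.negSucc 1332, .ofNat 1457, .negSucc 712,
  .negSucc 712, .ofNat 837], [.negSucc 526, .ofNat 713, .negSucc 836, .negSucc 2386, .ofNat 3193], [.ofNat 3007, .ofNat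
  837, .ofNat 527, .negSucc 1332, .negSucc 2882], [.negSucc 402, .negSucc 1022, .negSucc 92, .ofNat 1767, .negSucc 712],
  [.ofNat 1023, .negSucc 216, .negSucc 216, .ofNat 93, .ofNat 93], [.negSucc 402, .ofNat 217, .ofNat 1147, .ofNat 217,
  .negSucc 92], [.ofNat 403, .ofNat 3503, .ofNat 93, .negSucc 1146, .negSucc 1766]], [[.negSucc 402, .ofNat 217, .ofNat
  1147, .negSucc 1642, .ofNat 1767], [.negSucc 1022, .ofNat 1767, .negSucc 92, .negSucc 712, .negSucc 402], [.negSucc
  2076, .negSucc 2076, .ofNat 93, .ofNat 1953, .ofNat 2883], [.negSucc 402, .ofNat 217, .negSucc 92, .negSucc 712,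
  .negSucc 92], [.ofNat 3317, .negSucc 712, .negSucc 712, .negSucc 1022, .negSucc 1332], [.ofNat 2573, .negSucc 836,
  .negSucc 526, .negSucc 526, .negSucc 526], [.negSucc 1022, .ofNat 1457, .negSucc 2882, .negSucc 402, .ofNat 2697],
  [.negSucc 526, .negSucc 526, .ofNat 2883, .negSucc 1146, .negSucc 836]], [[.negSucc 1022, .ofNat 1457, .negSucc 2882,
  .negSucc 402, .ofNat 2697], [.negSucc 712, .negSucc 712, .ofNat 837, .negSucc 1332, .ofNat 1457], [.negSucc 836,
  .negSucc 2386, .ofNat 3193, .negSucc 526, .ofNat 713], [.ofNat 527, .negSucc 1332, .negSucc 2882, .ofNat 3007, .ofNat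
  837], [.negSucc 92, .ofNat 1767, .negSucc 712, .negSucc 402, .negSucc 1022], [.negSucc 216, .ofNat 93, .ofNat 93,
  .ofNat 1023, .negSucc 216], [.ofNat 1147, .ofNat 217, .negSucc 92, .negSucc 402, .ofNat 217], [.ofNat 93, .negSucc
  1146, .negSucc 1766, .ofNat 403, .ofNat 3503]], [[.ofNat 1147, .negSucc 1642, .ofNat 1767, .negSucc 402, .ofNat 217],
  [.negSucc 92, .negSucc 712, .negSucc 402, .negSucc 1022, .ofNat 1767], [.ofNat 93, .ofNat 1953, .ofNat 2883, .negSucc
  2076, .negSucc 2076], [.negSucc 92, .negSucc 712, .negSucc 92, .negSucc 402, .ofNat 217], [.negSucc 712, .negSucc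
  1022, .negSucc 1332, .ofNat 3317, .negSucc 712], [.negSucc 526, .negSucc 526, .negSucc 526, .ofNat 2573, .negSucc
  836], [.negSucc 2882, .negSucc 402, .ofNat 2697, .negSucc 1022, .ofNat 1457], [.ofNat 2883, .negSucc 1146, .negSucc
  836, .negSucc 526, .negSucc 526]], [[.negSucc 2882, .negSucc 402, .ofNat 2697, .negSucc 1022, .ofNat 1457], [.ofNat
  837, .negSucc 1332, .ofNat 1457, .negSucc 712, .negSucc 712], [.ofNat 3193, .negSucc 526, .ofNat 713, .negSucc 836,
  .negSucc 2386], [.negSucc 2882, .ofNat 3007, .ofNat 837, .ofNat 527, .negSucc 1332], [.negSucc 712, .negSucc 402,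
  .negSucc 1022, .negSucc 92, .ofNat 1767], [.ofNat 93, .ofNat 1023, .negSucc 216, .negSucc 216, .ofNat 93], [.negSucc
  92, .negSucc 402, .ofNat 217, .ofNat 1147, .ofNat 217], [.negSucc 1766, .ofNat 403, .ofNat 3503, .ofNat 93, .negSucc
  1146]], [[.ofNat 1767, .negSucc 402, .ofNat 217, .ofNat 1147, .negSucc 1642], [.negSucc 402, .negSucc 1022, .ofNat
  1767, .negSucc 92, .negSucc 712], [.ofNat 2883, .negSucc 2076, .negSucc 2076, .ofNat 93, .ofNat 1953], [.negSucc 92,
  .negSucc 402, .ofNat 217, .negSucc 92, .negSucc 712], [.negSucc 1332, .ofNat 3317, .negSucc 712, .negSucc 712,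
  .negSucc 1022], [.negSucc 526, .ofNat 2573, .negSucc 836, .negSucc 526, .negSucc 526], [.ofNat 2697, .negSucc 1022,
  .ofNat 1457, .negSucc 2882, .negSucc 402], [.negSucc 836, .negSucc 526, .negSucc 526, .ofNat 2883, .negSucc 1146]],
  [[.ofNat 2697, .negSucc 1022, .ofNat 1457, .negSucc 2882, .negSucc 402], [.ofNat 1457, .negSucc 712, .negSucc 712,
  .ofNat 837, .negSucc 1332], [.ofNat 713, .negSucc 836, .negSucc 2386, .ofNat 3193, .negSucc 526], [.ofNat 837, .ofNat
  527, .negSucc 1332, .negSucc 2882, .ofNat 3007], [.negSucc 1022, .negSucc 92, .ofNat 1767, .negSucc 712, .negSucc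
  402], [.negSucc 216, .negSucc 216, .ofNat 93, .ofNat 93, .ofNat 1023], [.ofNat 217, .ofNat 1147, .ofNat 217, .negSucc
  92, .negSucc 402], [.ofNat 3503, .ofNat 93, .negSucc 1146, .negSucc 1766, .ofNat 403]], [[.ofNat 527, .negSucc 2882,
  .ofNat 1147, .ofNat 837, .ofNat 527], [.negSucc 92, .negSucc 2572, .ofNat 1147, .ofNat 837, .negSucc 92], [.negSucc
  1146, .ofNat 1023, .ofNat 1333, .negSucc 1456, .ofNat 713], [.ofNat 1767, .ofNat 1457, .negSucc 2572, .ofNat 1147,
  .negSucc 712], [.ofNat 1457, .negSucc 1642, .ofNat 1767, .negSucc 2262, .ofNat 527], [.negSucc 1766, .negSucc 1146,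
  .ofNat 403, .ofNat 1023, .ofNat 1953], [.ofNat 1147, .ofNat 1767, .negSucc 402, .negSucc 3502, .negSucc 92], [.negSucc
  836, .ofNat 1953, .ofNat 403, .ofNat 93, .negSucc 1456]], [[.negSucc 712, .negSucc 92, .negSucc 402, .ofNat 217,
  .negSucc 92], [.ofNat 217, .negSucc 92, .ofNat 1457, .negSucc 1332, .negSucc 402], [.negSucc 1146, .negSucc 1456,
  .ofNat 2883, .ofNat 93, .ofNat 93], [.negSucc 1022, .negSucc 1952, .ofNat 3317, .negSucc 92, .negSucc 402], [.negSucc
  712, .negSucc 2572, .ofNat 2697, .negSucc 92, .negSucc 92], [.ofNat 1023, .ofNat 1333, .ofNat 403, .negSucc 1146,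
  .negSucc 1146], [.ofNat 3007, .ofNat 837, .ofNat 527, .negSucc 1332, .negSucc 2882], [.ofNat 2573, .negSucc 1146,
  .ofNat 713, .negSucc 1766, .negSucc 1456]], [[.ofNat 1147, .ofNat 837, .ofNat 527, .ofNat 527, .negSucc 2882], [.ofNat
  1147, .ofNat 837, .negSucc 92, .negSucc 92, .negSucc 2572], [.ofNat 1333, .negSucc 1456, .ofNat 713, .negSucc 1146,
  .ofNat 1023], [.negSucc 2572, .ofNat 1147, .negSucc 712, .ofNat 1767, .ofNat 1457], [.ofNat 1767, .negSucc 2262,
  .ofNat 527, .ofNat 1457, .negSucc 1642], [.ofNat 403, .ofNat 1023, .ofNat 1953, .negSucc 1766, .negSucc 1146],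
  [.negSucc 402, .negSucc 3502, .negSucc 92, .ofNat 1147, .ofNat 1767], [.ofNat 403, .ofNat 93, .negSucc 1456, .negSucc
  836, .ofNat 1953]], [[.negSucc 402, .ofNat 217, .negSucc 92, .negSucc 712, .negSucc 92], [.ofNat 1457, .negSucc 1332,
  .negSucc 402, .ofNat 217, .negSucc 92], [.ofNat 2883, .ofNat 93, .ofNat 93, .negSucc 1146, .negSucc 1456], [.ofNat
  3317, .negSucc 92, .negSucc 402, .negSucc 1022, .negSucc 1952], [.ofNat 2697, .negSucc 92, .negSucc 92, .negSucc 712,
  .negSucc 2572], [.ofNat 403, .negSucc 1146, .negSucc 1146, .ofNat 1023, .ofNat 1333], [.ofNat 527, .negSucc 1332,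
  .negSucc 2882, .ofNat 3007, .ofNat 837], [.ofNat 713, .negSucc 1766, .negSucc 1456, .ofNat 2573, .negSucc 1146]],
  [[.ofNat 527, .ofNat 527, .negSucc 2882, .ofNat 1147, .ofNat 837], [.negSucc 92, .negSucc 92, .negSucc 2572, .ofNat
  1147, .ofNat 837], [.ofNat 713, .negSucc 1146, .ofNat 1023, .ofNat 1333, .negSucc 1456], [.negSucc 712, .ofNat 1767,
  .ofNat 1457, .negSucc 2572, .ofNat 1147], [.ofNat 527, .ofNat 1457, .negSucc 1642, .ofNat 1767, .negSucc 2262],
  [.ofNat 1953, .negSucc 1766, .negSucc 1146, .ofNat 403, .ofNat 1023], [.negSucc 92, .ofNat 1147, .ofNat 1767, .negSucc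
  402, .negSucc 3502], [.negSucc 1456, .negSucc 836, .ofNat 1953, .ofNat 403, .ofNat 93]], [[.negSucc 92, .negSucc 712,
  .negSucc 92, .negSucc 402, .ofNat 217], [.negSucc 402, .ofNat 217, .negSucc 92, .ofNat 1457, .negSucc 1332], [.ofNat
  93, .negSucc 1146, .negSucc 1456, .ofNat 2883, .ofNat 93], [.negSucc 402, .negSucc 1022, .negSucc 1952, .ofNat 3317,
  .negSucc 92], [.negSucc 92, .negSucc 712, .negSucc 2572, .ofNat 2697, .negSucc 92], [.negSucc 1146, .ofNat 1023,
  .ofNat 1333, .ofNat 403, .negSucc 1146], [.negSucc 2882, .ofNat 3007, .ofNat 837, .ofNat 527, .negSucc 1332],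
  [.negSucc 1456, .ofNat 2573, .negSucc 1146, .ofNat 713, .negSucc 1766]], [[.negSucc 2882, .ofNat 1147, .ofNat 837,
  .ofNat 527, .ofNat 527], [.negSucc 2572, .ofNat 1147, .ofNat 837, .negSucc 92, .negSucc 92], [.ofNat 1023, .ofNat
  1333, .negSucc 1456, .ofNat 713, .negSucc 1146], [.ofNat 1457, .negSucc 2572, .ofNat 1147, .negSucc 712, .ofNat 1767],
  [.negSucc 1642, .ofNat 1767, .negSucc 2262, .ofNat 527, .ofNat 1457], [.negSucc 1146, .ofNat 403, .ofNat 1023, .ofNat
  1953, .negSucc 1766], [.ofNat 1767, .negSucc 402, .negSucc 3502, .negSucc 92, .ofNat 1147], [.ofNat 1953, .ofNat 403,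
  .ofNat 93, .negSucc 1456, .negSucc 836]], [[.negSucc 92, .negSucc 402, .ofNat 217, .negSucc 92, .negSucc 712],
  [.negSucc 92, .ofNat 1457, .negSucc 1332, .negSucc 402, .ofNat 217], [.negSucc 1456, .ofNat 2883, .ofNat 93, .ofNat
  93, .negSucc 1146], [.negSucc 1952, .ofNat 3317, .negSucc 92, .negSucc 402, .negSucc 1022], [.negSucc 2572, .ofNat
  2697, .negSucc 92, .negSucc 92, .negSucc 712], [.ofNat 1333, .ofNat 403, .negSucc 1146, .negSucc 1146, .ofNat 1023],
  [.ofNat 837, .ofNat 527, .negSucc 1332, .negSucc 2882, .ofNat 3007], [.negSucc 1146, .ofNat 713, .negSucc 1766,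
  .negSucc 1456, .ofNat 2573]], [[.ofNat 837, .ofNat 527, .ofNat 527, .negSucc 2882, .ofNat 1147], [.ofNat 837, .negSucc
  92, .negSucc 92, .negSucc 2572, .ofNat 1147], [.negSucc 1456, .ofNat 713, .negSucc 1146, .ofNat 1023, .ofNat 1333],
  [.ofNat 1147, .negSucc 712, .ofNat 1767, .ofNat 1457, .negSucc 2572], [.negSucc 2262, .ofNat 527, .ofNat 1457,
  .negSucc 1642, .ofNat 1767], [.ofNat 1023, .ofNat 1953, .negSucc 1766, .negSucc 1146, .ofNat 403], [.negSucc 3502,
  .negSucc 92, .ofNat 1147, .ofNat 1767, .negSucc 402], [.ofNat 93, .negSucc 1456, .negSucc 836, .ofNat 1953, .ofNat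
  403]], [[.ofNat 217, .negSucc 92, .negSucc 712, .negSucc 92, .negSucc 402], [.negSucc 1332, .negSucc 402, .ofNat 217,
  .negSucc 92, .ofNat 1457], [.ofNat 93, .ofNat 93, .negSucc 1146, .negSucc 1456, .ofNat 2883], [.negSucc 92, .negSucc
  402, .negSucc 1022, .negSucc 1952, .ofNat 3317], [.negSucc 92, .negSucc 92, .negSucc 712, .negSucc 2572, .ofNat 2697],
  [.negSucc 1146, .negSucc 1146, .ofNat 1023, .ofNat 1333, .ofNat 403], [.negSucc 1332, .negSucc 2882, .ofNat 3007,
  .ofNat 837, .ofNat 527], [.negSucc 1766, .negSucc 1456, .ofNat 2573, .negSucc 1146, .ofNat 713]], [[.negSucc 712,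
  .negSucc 712, .negSucc 1022, .negSucc 1332, .ofNat 3317], [.ofNat 837, .ofNat 527, .negSucc 712, .negSucc 1952, .ofNat
  1147], [.ofNat 93, .ofNat 1333, .negSucc 1146, .negSucc 1146, .ofNat 713], [.negSucc 92, .negSucc 92, .negSucc 712,
  .negSucc 2572, .ofNat 2697], [.ofNat 1147, .negSucc 2882, .negSucc 402, .ofNat 2387, .ofNat 837], [.ofNat 403, .ofNat
  2883, .negSucc 836, .negSucc 1456, .ofNat 93], [.ofNat 1767, .negSucc 712, .negSucc 402, .negSucc 1022, .negSucc 92],
  [.negSucc 1456, .ofNat 1643, .negSucc 1766, .ofNat 2263, .negSucc 526]], [[.negSucc 92, .negSucc 712, .negSucc 402,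
  .negSucc 1022, .ofNat 1767], [.negSucc 2882, .ofNat 1457, .ofNat 2387, .ofNat 837, .negSucc 712], [.ofNat 1023, .ofNat
  1023, .negSucc 1456, .ofNat 93, .ofNat 403], [.negSucc 402, .ofNat 217, .negSucc 92, .ofNat 1457, .negSucc 1332],
  [.ofNat 527, .negSucc 712, .negSucc 1952, .ofNat 1147, .ofNat 837], [.ofNat 1333, .negSucc 3006, .ofNat 713, .negSucc
  3006, .ofNat 3813], [.ofNat 837, .negSucc 1332, .ofNat 1457, .negSucc 712, .negSucc 712], [.ofNat 2573, .negSucc 1146,
  .negSucc 836, .ofNat 93, .ofNat 93]], [[.negSucc 1022, .negSucc 1332, .ofNat 3317, .negSucc 712, .negSucc 712],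
  [.negSucc 712, .negSucc 1952, .ofNat 1147, .ofNat 837, .ofNat 527], [.negSucc 1146, .negSucc 1146, .ofNat 713, .ofNat
  93, .ofNat 1333], [.negSucc 712, .negSucc 2572, .ofNat 2697, .negSucc 92, .negSucc 92], [.negSucc 402, .ofNat 2387,
  .ofNat 837, .ofNat 1147, .negSucc 2882], [.negSucc 836, .negSucc 1456, .ofNat 93, .ofNat 403, .ofNat 2883], [.negSucc
  402, .negSucc 1022, .negSucc 92, .ofNat 1767, .negSucc 712], [.negSucc 1766, .ofNat 2263, .negSucc 526, .negSucc 1456,
  .ofNat 1643]], [[.negSucc 402, .negSucc 1022, .ofNat 1767, .negSucc 92, .negSucc 712], [.ofNat 2387, .ofNat 837,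
  .negSucc 712, .negSucc 2882, .ofNat 1457], [.negSucc 1456, .ofNat 93, .ofNat 403, .ofNat 1023, .ofNat 1023], [.negSucc
  92, .ofNat 1457, .negSucc 1332, .negSucc 402, .ofNat 217], [.negSucc 1952, .ofNat 1147, .ofNat 837, .ofNat 527,
  .negSucc 712], [.ofNat 713, .negSucc 3006, .ofNat 3813, .ofNat 1333, .negSucc 3006], [.ofNat 1457, .negSucc 712,
  .negSucc 712, .ofNat 837, .negSucc 1332], [.negSucc 836, .ofNat 93, .ofNat 93, .ofNat 2573, .negSucc 1146]], [[.ofNat
  3317, .negSucc 712, .negSucc 712, .negSucc 1022, .negSucc 1332], [.ofNat 1147, .ofNat 837, .ofNat 527, .negSucc 712,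
  .negSucc 1952], [.ofNat 713, .ofNat 93, .ofNat 1333, .negSucc 1146, .negSucc 1146], [.ofNat 2697, .negSucc 92,
  .negSucc 92, .negSucc 712, .negSucc 2572], [.ofNat 837, .ofNat 1147, .negSucc 2882, .negSucc 402, .ofNat 2387],
  [.ofNat 93, .ofNat 403, .ofNat 2883, .negSucc 836, .negSucc 1456], [.negSucc 92, .ofNat 1767, .negSucc 712, .negSucc
  402, .negSucc 1022], [.negSucc 526, .negSucc 1456, .ofNat 1643, .negSucc 1766, .ofNat 2263]], [[.ofNat 1767, .negSucc
  92, .negSucc 712, .negSucc 402, .negSucc 1022], [.negSucc 712, .negSucc 2882, .ofNat 1457, .ofNat 2387, .ofNat 837],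
  [.ofNat 403, .ofNat 1023, .ofNat 1023, .negSucc 1456, .ofNat 93], [.negSucc 1332, .negSucc 402, .ofNat 217, .negSucc
  92, .ofNat 1457], [.ofNat 837, .ofNat 527, .negSucc 712, .negSucc 1952, .ofNat 1147], [.ofNat 3813, .ofNat 1333,
  .negSucc 3006, .ofNat 713, .negSucc 3006], [.negSucc 712, .ofNat 837, .negSucc 1332, .ofNat 1457, .negSucc 712],
  [.ofNat 93, .ofNat 2573, .negSucc 1146, .negSucc 836, .ofNat 93]], [[.negSucc 712, .negSucc 1022, .negSucc 1332,
  .ofNat 3317, .negSucc 712], [.ofNat 527, .negSucc 712, .negSucc 1952, .ofNat 1147, .ofNat 837], [.ofNat 1333, .negSucc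
  1146, .negSucc 1146, .ofNat 713, .ofNat 93], [.negSucc 92, .negSucc 712, .negSucc 2572, .ofNat 2697, .negSucc 92],
  [.negSucc 2882, .negSucc 402, .ofNat 2387, .ofNat 837, .ofNat 1147], [.ofNat 2883, .negSucc 836, .negSucc 1456, .ofNat
  93, .ofNat 403], [.negSucc 712, .negSucc 402, .negSucc 1022, .negSucc 92, .ofNat 1767], [.ofNat 1643, .negSucc 1766,
  .ofNat 2263, .negSucc 526, .negSucc 1456]], [[.negSucc 712, .negSucc 402, .negSucc 1022, .ofNat 1767, .negSucc 92],
  [.ofNat 1457, .ofNat 2387, .ofNat 837, .negSucc 712, .negSucc 2882], [.ofNat 1023, .negSucc 1456, .ofNat 93, .ofNat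
  403, .ofNat 1023], [.ofNat 217, .negSucc 92, .ofNat 1457, .negSucc 1332, .negSucc 402], [.negSucc 712, .negSucc 1952,
  .ofNat 1147, .ofNat 837, .ofNat 527], [.negSucc 3006, .ofNat 713, .negSucc 3006, .ofNat 3813, .ofNat 1333], [.negSucc
  1332, .ofNat 1457, .negSucc 712, .negSucc 712, .ofNat 837], [.negSucc 1146, .negSucc 836, .ofNat 93, .ofNat 93, .ofNat
  2573]], [[.negSucc 1332, .ofNat 3317, .negSucc 712, .negSucc 712, .negSucc 1022], [.negSucc 1952, .ofNat 1147, .ofNat
  837, .ofNat 527, .negSucc 712], [.negSucc 1146, .ofNat 713, .ofNat 93, .ofNat 1333, .negSucc 1146], [.negSucc 2572,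
  .ofNat 2697, .negSucc 92, .negSucc 92, .negSucc 712], [.ofNat 2387, .ofNat 837, .ofNat 1147, .negSucc 2882, .negSucc
  402], [.negSucc 1456, .ofNat 93, .ofNat 403, .ofNat 2883, .negSucc 836], [.negSucc 1022, .negSucc 92, .ofNat 1767,
  .negSucc 712, .negSucc 402], [.ofNat 2263, .negSucc 526, .negSucc 1456, .ofNat 1643, .negSucc 1766]], [[.negSucc 1022,
  .ofNat 1767, .negSucc 92, .negSucc 712, .negSucc 402], [.ofNat 837, .negSucc 712, .negSucc 2882, .ofNat 1457, .ofNat
  2387], [.ofNat 93, .ofNat 403, .ofNat 1023, .ofNat 1023, .negSucc 1456], [.ofNat 1457, .negSucc 1332, .negSucc 402,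
  .ofNat 217, .negSucc 92], [.ofNat 1147, .ofNat 837, .ofNat 527, .negSucc 712, .negSucc 1952], [.negSucc 3006, .ofNat
  3813, .ofNat 1333, .negSucc 3006, .ofNat 713], [.negSucc 712, .negSucc 712, .ofNat 837, .negSucc 1332, .ofNat 1457],
  [.ofNat 93, .ofNat 93, .ofNat 2573, .negSucc 1146, .negSucc 836]], [[.ofNat 837, .ofNat 527, .ofNat 527, .ofNat 527,
  .negSucc 2572], [.negSucc 3812, .negSucc 1332, .ofNat 3007, .negSucc 712, .ofNat 3007], [.negSucc 526, .negSucc 836,
  .negSucc 216, .ofNat 2883, .negSucc 2386], [.ofNat 1147, .ofNat 1147, .negSucc 1022, .negSucc 1332, .negSucc 402],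
  [.negSucc 402, .negSucc 2882, .ofNat 837, .ofNat 1457, .negSucc 92], [.ofNat 93, .ofNat 713, .ofNat 93, .negSucc 526,
  .negSucc 216], [.negSucc 92, .negSucc 92, .negSucc 1022, .ofNat 217, .ofNat 217], [.negSucc 1766, .negSucc 1146,
  .ofNat 403, .ofNat 1023, .ofNat 1953]], [[.negSucc 92, .negSucc 1952, .negSucc 2882, .ofNat 2077, .ofNat 2077],
  [.negSucc 1022, .negSucc 1022, .ofNat 1457, .negSucc 92, .negSucc 402], [.ofNat 713, .negSucc 1766, .ofNat 1333,
  .negSucc 216, .ofNat 93], [.negSucc 92, .ofNat 1147, .ofNat 1457, .negSucc 2882, .negSucc 92], [.negSucc 1332, .ofNat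
  1147, .ofNat 1147, .negSucc 712, .negSucc 92], [.negSucc 836, .negSucc 216, .ofNat 2883, .negSucc 2386, .negSucc 526],
  [.negSucc 3192, .ofNat 527, .negSucc 712, .ofNat 837, .ofNat 2387], [.ofNat 1023, .ofNat 1333, .negSucc 1456, .ofNat
  713, .negSucc 1146]], [[.ofNat 527, .ofNat 527, .negSucc 2572, .ofNat 837, .ofNat 527], [.ofNat 3007, .negSucc 712,
  .ofNat 3007, .negSucc 3812, .negSucc 1332], [.negSucc 216, .ofNat 2883, .negSucc 2386, .negSucc 526, .negSucc 836],
  [.negSucc 1022, .negSucc 1332, .negSucc 402, .ofNat 1147, .ofNat 1147], [.ofNat 837, .ofNat 1457, .negSucc 92,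
  .negSucc 402, .negSucc 2882], [.ofNat 93, .negSucc 526, .negSucc 216, .ofNat 93, .ofNat 713], [.negSucc 1022, .ofNat
  217, .ofNat 217, .negSucc 92, .negSucc 92], [.ofNat 403, .ofNat 1023, .ofNat 1953, .negSucc 1766, .negSucc 1146]],
  [[.negSucc 2882, .ofNat 2077, .ofNat 2077, .negSucc 92, .negSucc 1952], [.ofNat 1457, .negSucc 92, .negSucc 402,
  .negSucc 1022, .negSucc 1022], [.ofNat 1333, .negSucc 216, .ofNat 93, .ofNat 713, .negSucc 1766], [.ofNat 1457,
  .negSucc 2882, .negSucc 92, .negSucc 92, .ofNat 1147], [.ofNat 1147, .negSucc 712, .negSucc 92, .negSucc 1332, .ofNat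
  1147], [.ofNat 2883, .negSucc 2386, .negSucc 526, .negSucc 836, .negSucc 216], [.negSucc 712, .ofNat 837, .ofNat 2387,
  .negSucc 3192, .ofNat 527], [.negSucc 1456, .ofNat 713, .negSucc 1146, .ofNat 1023, .ofNat 1333]], [[.negSucc 2572,
  .ofNat 837, .ofNat 527, .ofNat 527, .ofNat 527], [.ofNat 3007, .negSucc 3812, .negSucc 1332, .ofNat 3007, .negSucc
  712], [.negSucc 2386, .negSucc 526, .negSucc 836, .negSucc 216, .ofNat 2883], [.negSucc 402, .ofNat 1147, .ofNat 1147,
  .negSucc 1022, .negSucc 1332], [.negSucc 92, .negSucc 402, .negSucc 2882, .ofNat 837, .ofNat 1457], [.negSucc 216,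
  .ofNat 93, .ofNat 713, .ofNat 93, .negSucc 526], [.ofNat 217, .negSucc 92, .negSucc 92, .negSucc 1022, .ofNat 217],
  [.ofNat 1953, .negSucc 1766, .negSucc 1146, .ofNat 403, .ofNat 1023]], [[.ofNat 2077, .negSucc 92, .negSucc 1952,
  .negSucc 2882, .ofNat 2077], [.negSucc 402, .negSucc 1022, .negSucc 1022, .ofNat 1457, .negSucc 92], [.ofNat 93,
  .ofNat 713, .negSucc 1766, .ofNat 1333, .negSucc 216], [.negSucc 92, .negSucc 92, .ofNat 1147, .ofNat 1457, .negSucc
  2882], [.negSucc 92, .negSucc 1332, .ofNat 1147, .ofNat 1147, .negSucc 712], [.negSucc 526, .negSucc 836, .negSucc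
  216, .ofNat 2883, .negSucc 2386], [.ofNat 2387, .negSucc 3192, .ofNat 527, .negSucc 712, .ofNat 837], [.negSucc 1146,
  .ofNat 1023, .ofNat 1333, .negSucc 1456, .ofNat 713]], [[.ofNat 527, .ofNat 527, .ofNat 527, .negSucc 2572, .ofNat
  837], [.negSucc 1332, .ofNat 3007, .negSucc 712, .ofNat 3007, .negSucc 3812], [.negSucc 836, .negSucc 216, .ofNat
  2883, .negSucc 2386, .negSucc 526], [.ofNat 1147, .negSucc 1022, .negSucc 1332, .negSucc 402, .ofNat 1147], [.negSucc
  2882, .ofNat 837, .ofNat 1457, .negSucc 92, .negSucc 402], [.ofNat 713, .ofNat 93, .negSucc 526, .negSucc 216, .ofNat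
  93], [.negSucc 92, .negSucc 1022, .ofNat 217, .ofNat 217, .negSucc 92], [.negSucc 1146, .ofNat 403, .ofNat 1023,
  .ofNat 1953, .negSucc 1766]], [[.negSucc 1952, .negSucc 2882, .ofNat 2077, .ofNat 2077, .negSucc 92], [.negSucc 1022,
  .ofNat 1457, .negSucc 92, .negSucc 402, .negSucc 1022], [.negSucc 1766, .ofNat 1333, .negSucc 216, .ofNat 93, .ofNat
  713], [.ofNat 1147, .ofNat 1457, .negSucc 2882, .negSucc 92, .negSucc 92], [.ofNat 1147, .ofNat 1147, .negSucc 712,
  .negSucc 92, .negSucc 1332], [.negSucc 216, .ofNat 2883, .negSucc 2386, .negSucc 526, .negSucc 836], [.ofNat 527,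
  .negSucc 712, .ofNat 837, .ofNat 2387, .negSucc 3192], [.ofNat 1333, .negSucc 1456, .ofNat 713, .negSucc 1146, .ofNat
  1023]], [[.ofNat 527, .negSucc 2572, .ofNat 837, .ofNat 527, .ofNat 527], [.negSucc 712, .ofNat 3007, .negSucc 3812,
  .negSucc 1332, .ofNat 3007], [.ofNat 2883, .negSucc 2386, .negSucc 526, .negSucc 836, .negSucc 216], [.negSucc 1332,
  .negSucc 402, .ofNat 1147, .ofNat 1147, .negSucc 1022], [.ofNat 1457, .negSucc 92, .negSucc 402, .negSucc 2882, .ofNat
  837], [.negSucc 526, .negSucc 216, .ofNat 93, .ofNat 713, .ofNat 93], [.ofNat 217, .ofNat 217, .negSucc 92, .negSucc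
  92, .negSucc 1022], [.ofNat 1023, .ofNat 1953, .negSucc 1766, .negSucc 1146, .ofNat 403]], [[.ofNat 2077, .ofNat 2077,
  .negSucc 92, .negSucc 1952, .negSucc 2882], [.negSucc 92, .negSucc 402, .negSucc 1022, .negSucc 1022, .ofNat 1457],
  [.negSucc 216, .ofNat 93, .ofNat 713, .negSucc 1766, .ofNat 1333], [.negSucc 2882, .negSucc 92, .negSucc 92, .ofNat
  1147, .ofNat 1457], [.negSucc 712, .negSucc 92, .negSucc 1332, .ofNat 1147, .ofNat 1147], [.negSucc 2386, .negSucc
  526, .negSucc 836, .negSucc 216, .ofNat 2883], [.ofNat 837, .ofNat 2387, .negSucc 3192, .ofNat 527, .negSucc 712],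
  [.ofNat 713, .negSucc 1146, .ofNat 1023, .ofNat 1333, .negSucc 1456]]]

theorem gu5_eq : ∀ i < 40, ∀ j < 8, ∀ c < 5, lf (gu5.getD i []) j c =
    31 * lf (fw5.getD i []) j c - 6 * ∑ c' ∈ Finset.range 5, lf (fw5.getD i []) j c' := by decide +kernel

theorem gu5_chk : (allN 40 fun i => allN 40 fun j => dd (fw5.getD i []) (gu5.getD j []) == if i = j then 3459600 else 0) = true :=
  all4 (by decide +kernel) (by decide +kernel) (by decide +kernel) (by decide +kernel)

theorem gram5 : ∀ i < 40, ∀ j < 40, fF 5 (lf (fw5.getD i [])) (lf (fw5.getD j [])) = if i = j then 1860 ^ 2 else 0 := by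
  intro i hi j hj
  have h := allN_iff.1 (allN_iff.1 gu5_chk i hi) j hj
  rw [beq_iff_eq, dd_shp (allN_iff.1 fw5_shp i hi)] at h
  rw [show (1860 : ℤ) ^ 2 = 3459600 by norm_num, ← h]
  unfold fF
  refine Finset.sum_congr rfl fun p hp => ?_
  rw [Finset.sum_congr rfl fun c hc => congrArg (lf (fw5.getD i []) p c * ·)
    (gu5_eq j hj p (Finset.mem_range.1 hp) c (Finset.mem_range.1 hc))]
  simp only [mul_sub, Finset.sum_sub_distrib, Finset.mul_sum, Finset.sum_mul]
  congr 1
  · refine Finset.sum_congr rfl fun c _ => by ring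
  · rw [Finset.sum_comm]
    refine Finset.sum_congr rfl fun c _ => Finset.sum_congr rfl fun c' _ => ?_
    norm_num
    ring

/-- The covector of the Killing form. -/
def kb5 (b : ℕ → ℕ → ℤ) (i c : ℕ) : ℤ := ∑ j ∈ Finset.range 8, ∑ d ∈ Finset.range 5, ∑ c' ∈ Finset.range 5,
  q i j d * (if c % 5 = (c' + d) % 5 then 25 else -6) * b j c'

/-- Reversed row. -/
def rv5 (c : ℕ) (r : List ℤ) : List ℤ := (List.range 5).map fun d => r.getD ((c + 5 - d) % 5) 0

/-- The covectors of the frame: Killing form. -/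
def ku5 : List (List (List ℤ)) := [[[.ofNat 0, .negSucc 66959, .ofNat 89280, .negSucc 100439, .ofNat 0], [.negSucc
  111599, .ofNat 11160, .ofNat 44640, .ofNat 22320, .ofNat 44640], [.ofNat 122760, .ofNat 0, .negSucc 111599, .negSucc
  156239, .ofNat 111600], [.negSucc 33479, .ofNat 11160, .ofNat 44640, .ofNat 0, .ofNat 22320], [.ofNat 33480, .ofNat
  44640, .ofNat 55800, .ofNat 66960, .negSucc 189719], [.ofNat 55800, .ofNat 22320, .ofNat 44640, .ofNat 22320, .negSucc
  145079], [.negSucc 78119, .ofNat 156240, .ofNat 33480, .negSucc 145079, .ofNat 33480], [.ofNat 22320, .negSucc 145079,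
  .ofNat 66960, .ofNat 44640, .ofNat 33480]], [[.negSucc 78119, .ofNat 156240, .ofNat 33480, .negSucc 145079, .ofNat
  33480], [.ofNat 44640, .negSucc 55799, .ofNat 66960, .negSucc 78119, .ofNat 33480], [.ofNat 133920, .negSucc 178559,
  .ofNat 22320, .negSucc 33479, .ofNat 55800], [.ofNat 89280, .ofNat 145080, .negSucc 178559, .negSucc 44639, .negSucc
  33479], [.negSucc 100439, .ofNat 44640, .ofNat 22320, .ofNat 44640, .ofNat 0], [.ofNat 0, .ofNat 0, .negSucc 44639,
  .ofNat 0, .ofNat 11160], [.negSucc 22319, .ofNat 11160, .ofNat 0, .ofNat 0, .negSucc 66959], [.ofNat 66960, .ofNat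
  111600, .negSucc 22319, .negSucc 189719, .negSucc 11159]], [[.ofNat 89280, .negSucc 100439, .ofNat 0, .ofNat 0,
  .negSucc 66959], [.ofNat 44640, .ofNat 22320, .ofNat 44640, .negSucc 111599, .ofNat 11160], [.negSucc 111599, .negSucc
  156239, .ofNat 111600, .ofNat 122760, .ofNat 0], [.ofNat 44640, .ofNat 0, .ofNat 22320, .negSucc 33479, .ofNat 11160],
  [.ofNat 55800, .ofNat 66960, .negSucc 189719, .ofNat 33480, .ofNat 44640], [.ofNat 44640, .ofNat 22320, .negSucc
  145079, .ofNat 55800, .ofNat 22320], [.ofNat 33480, .negSucc 145079, .ofNat 33480, .negSucc 78119, .ofNat 156240],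
  [.ofNat 66960, .ofNat 44640, .ofNat 33480, .ofNat 22320, .negSucc 145079]], [[.ofNat 33480, .negSucc 145079, .ofNat
  33480, .negSucc 78119, .ofNat 156240], [.ofNat 66960, .negSucc 78119, .ofNat 33480, .ofNat 44640, .negSucc 55799],
  [.ofNat 22320, .negSucc 33479, .ofNat 55800, .ofNat 133920, .negSucc 178559], [.negSucc 178559, .negSucc 44639,
  .negSucc 33479, .ofNat 89280, .ofNat 145080], [.ofNat 22320, .ofNat 44640, .ofNat 0, .negSucc 100439, .ofNat 44640],
  [.negSucc 44639, .ofNat 0, .ofNat 11160, .ofNat 0, .ofNat 0], [.ofNat 0, .ofNat 0, .negSucc 66959, .negSucc 22319,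
  .ofNat 11160], [.negSucc 22319, .negSucc 189719, .negSucc 11159, .ofNat 66960, .ofNat 111600]], [[.ofNat 0, .ofNat 0,
  .negSucc 66959, .ofNat 89280, .negSucc 100439], [.ofNat 44640, .negSucc 111599, .ofNat 11160, .ofNat 44640, .ofNat
  22320], [.ofNat 111600, .ofNat 122760, .ofNat 0, .negSucc 111599, .negSucc 156239], [.ofNat 22320, .negSucc 33479,
  .ofNat 11160, .ofNat 44640, .ofNat 0], [.negSucc 189719, .ofNat 33480, .ofNat 44640, .ofNat 55800, .ofNat 66960],
  [.negSucc 145079, .ofNat 55800, .ofNat 22320, .ofNat 44640, .ofNat 22320], [.ofNat 33480, .negSucc 78119, .ofNat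
  156240, .ofNat 33480, .negSucc 145079], [.ofNat 33480, .ofNat 22320, .negSucc 145079, .ofNat 66960, .ofNat 44640]],
  [[.ofNat 33480, .negSucc 78119, .ofNat 156240, .ofNat 33480, .negSucc 145079], [.ofNat 33480, .ofNat 44640, .negSucc
  55799, .ofNat 66960, .negSucc 78119], [.ofNat 55800, .ofNat 133920, .negSucc 178559, .ofNat 22320, .negSucc 33479],
  [.negSucc 33479, .ofNat 89280, .ofNat 145080, .negSucc 178559, .negSucc 44639], [.ofNat 0, .negSucc 100439, .ofNat
  44640, .ofNat 22320, .ofNat 44640], [.ofNat 11160, .ofNat 0, .ofNat 0, .negSucc 44639, .ofNat 0], [.negSucc 66959,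
  .negSucc 22319, .ofNat 11160, .ofNat 0, .ofNat 0], [.negSucc 11159, .ofNat 66960, .ofNat 111600, .negSucc 22319,
  .negSucc 189719]], [[.negSucc 66959, .ofNat 89280, .negSucc 100439, .ofNat 0, .ofNat 0], [.ofNat 11160, .ofNat 44640,
  .ofNat 22320, .ofNat 44640, .negSucc 111599], [.ofNat 0, .negSucc 111599, .negSucc 156239, .ofNat 111600, .ofNat
  122760], [.ofNat 11160, .ofNat 44640, .ofNat 0, .ofNat 22320, .negSucc 33479], [.ofNat 44640, .ofNat 55800, .ofNat
  66960, .negSucc 189719, .ofNat 33480], [.ofNat 22320, .ofNat 44640, .ofNat 22320, .negSucc 145079, .ofNat 55800],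
  [.ofNat 156240, .ofNat 33480, .negSucc 145079, .ofNat 33480, .negSucc 78119], [.negSucc 145079, .ofNat 66960, .ofNat
  44640, .ofNat 33480, .ofNat 22320]], [[.ofNat 156240, .ofNat 33480, .negSucc 145079, .ofNat 33480, .negSucc 78119],
  [.negSucc 55799, .ofNat 66960, .negSucc 78119, .ofNat 33480, .ofNat 44640], [.negSucc 178559, .ofNat 22320, .negSucc
  33479, .ofNat 55800, .ofNat 133920], [.ofNat 145080, .negSucc 178559, .negSucc 44639, .negSucc 33479, .ofNat 89280],
  [.ofNat 44640, .ofNat 22320, .ofNat 44640, .ofNat 0, .negSucc 100439], [.ofNat 0, .negSucc 44639, .ofNat 0, .ofNat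
  11160, .ofNat 0], [.ofNat 11160, .ofNat 0, .ofNat 0, .negSucc 66959, .negSucc 22319], [.ofNat 111600, .negSucc 22319,
  .negSucc 189719, .negSucc 11159, .ofNat 66960]], [[.negSucc 100439, .ofNat 0, .ofNat 0, .negSucc 66959, .ofNat 89280],
  [.ofNat 22320, .ofNat 44640, .negSucc 111599, .ofNat 11160, .ofNat 44640], [.negSucc 156239, .ofNat 111600, .ofNat
  122760, .ofNat 0, .negSucc 111599], [.ofNat 0, .ofNat 22320, .negSucc 33479, .ofNat 11160, .ofNat 44640], [.ofNat
  66960, .negSucc 189719, .ofNat 33480, .ofNat 44640, .ofNat 55800], [.ofNat 22320, .negSucc 145079, .ofNat 55800,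
  .ofNat 22320, .ofNat 44640], [.negSucc 145079, .ofNat 33480, .negSucc 78119, .ofNat 156240, .ofNat 33480], [.ofNat
  44640, .ofNat 33480, .ofNat 22320, .negSucc 145079, .ofNat 66960]], [[.negSucc 145079, .ofNat 33480, .negSucc 78119,
  .ofNat 156240, .ofNat 33480], [.negSucc 78119, .ofNat 33480, .ofNat 44640, .negSucc 55799, .ofNat 66960], [.negSucc
  33479, .ofNat 55800, .ofNat 133920, .negSucc 178559, .ofNat 22320], [.negSucc 44639, .negSucc 33479, .ofNat 89280,
  .ofNat 145080, .negSucc 178559], [.ofNat 44640, .ofNat 0, .negSucc 100439, .ofNat 44640, .ofNat 22320], [.ofNat 0,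
  .ofNat 11160, .ofNat 0, .ofNat 0, .negSucc 44639], [.ofNat 0, .negSucc 66959, .negSucc 22319, .ofNat 11160, .ofNat 0],
  [.negSucc 189719, .negSucc 11159, .ofNat 66960, .ofNat 111600, .negSucc 22319]], [[.negSucc 22319, .ofNat 145080,
  .negSucc 66959, .negSucc 44639, .negSucc 33479], [.ofNat 0, .ofNat 145080, .negSucc 78119, .negSucc 33479, .ofNat 0],
  [.ofNat 66960, .negSucc 55799, .negSucc 66959, .ofNat 78120, .negSucc 33479], [.negSucc 89279, .negSucc 78119, .ofNat
  145080, .negSucc 66959, .ofNat 22320], [.negSucc 89279, .ofNat 111600, .negSucc 100439, .ofNat 122760, .negSucc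
  44639], [.ofNat 100440, .ofNat 66960, .negSucc 22319, .negSucc 44639, .negSucc 111599], [.negSucc 66959, .negSucc
  111599, .ofNat 22320, .ofNat 189720, .ofNat 11160], [.ofNat 66960, .negSucc 111599, .negSucc 33479, .ofNat 0, .ofNat
  89280]], [[.ofNat 44640, .ofNat 0, .ofNat 22320, .negSucc 33479, .ofNat 11160], [.ofNat 0, .ofNat 11160, .negSucc
  100439, .ofNat 66960, .ofNat 22320], [.ofNat 66960, .ofNat 89280, .negSucc 156239, .ofNat 0, .negSucc 11159], [.ofNat
  44640, .ofNat 111600, .negSucc 189719, .ofNat 0, .ofNat 22320], [.ofNat 33480, .ofNat 145080, .negSucc 145079, .ofNat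
  0, .ofNat 0], [.negSucc 55799, .negSucc 66959, .negSucc 33479, .ofNat 78120, .ofNat 66960], [.negSucc 178559, .negSucc
  44639, .negSucc 33479, .ofNat 89280, .ofNat 145080], [.negSucc 145079, .ofNat 66960, .negSucc 22319, .ofNat 89280,
  .ofNat 78120]], [[.negSucc 66959, .negSucc 44639, .negSucc 33479, .negSucc 22319, .ofNat 145080], [.negSucc 78119,
  .negSucc 33479, .ofNat 0, .ofNat 0, .ofNat 145080], [.negSucc 66959, .ofNat 78120, .negSucc 33479, .ofNat 66960,
  .negSucc 55799], [.ofNat 145080, .negSucc 66959, .ofNat 22320, .negSucc 89279, .negSucc 78119], [.negSucc 100439,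
  .ofNat 122760, .negSucc 44639, .negSucc 89279, .ofNat 111600], [.negSucc 22319, .negSucc 44639, .negSucc 111599,
  .ofNat 100440, .ofNat 66960], [.ofNat 22320, .ofNat 189720, .ofNat 11160, .negSucc 66959, .negSucc 111599], [.negSucc
  33479, .ofNat 0, .ofNat 89280, .ofNat 66960, .negSucc 111599]], [[.ofNat 22320, .negSucc 33479, .ofNat 11160, .ofNat
  44640, .ofNat 0], [.negSucc 100439, .ofNat 66960, .ofNat 22320, .ofNat 0, .ofNat 11160], [.negSucc 156239, .ofNat 0,
  .negSucc 11159, .ofNat 66960, .ofNat 89280], [.negSucc 189719, .ofNat 0, .ofNat 22320, .ofNat 44640, .ofNat 111600],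
  [.negSucc 145079, .ofNat 0, .ofNat 0, .ofNat 33480, .ofNat 145080], [.negSucc 33479, .ofNat 78120, .ofNat 66960,
  .negSucc 55799, .negSucc 66959], [.negSucc 33479, .ofNat 89280, .ofNat 145080, .negSucc 178559, .negSucc 44639],
  [.negSucc 22319, .ofNat 89280, .ofNat 78120, .negSucc 145079, .ofNat 66960]], [[.negSucc 33479, .negSucc 22319, .ofNat
  145080, .negSucc 66959, .negSucc 44639], [.ofNat 0, .ofNat 0, .ofNat 145080, .negSucc 78119, .negSucc 33479],
  [.negSucc 33479, .ofNat 66960, .negSucc 55799, .negSucc 66959, .ofNat 78120], [.ofNat 22320, .negSucc 89279, .negSucc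
  78119, .ofNat 145080, .negSucc 66959], [.negSucc 44639, .negSucc 89279, .ofNat 111600, .negSucc 100439, .ofNat
  122760], [.negSucc 111599, .ofNat 100440, .ofNat 66960, .negSucc 22319, .negSucc 44639], [.ofNat 11160, .negSucc
  66959, .negSucc 111599, .ofNat 22320, .ofNat 189720], [.ofNat 89280, .ofNat 66960, .negSucc 111599, .negSucc 33479,
  .ofNat 0]], [[.ofNat 11160, .ofNat 44640, .ofNat 0, .ofNat 22320, .negSucc 33479], [.ofNat 22320, .ofNat 0, .ofNat
  11160, .negSucc 100439, .ofNat 66960], [.negSucc 11159, .ofNat 66960, .ofNat 89280, .negSucc 156239, .ofNat 0],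
  [.ofNat 22320, .ofNat 44640, .ofNat 111600, .negSucc 189719, .ofNat 0], [.ofNat 0, .ofNat 33480, .ofNat 145080,
  .negSucc 145079, .ofNat 0], [.ofNat 66960, .negSucc 55799, .negSucc 66959, .negSucc 33479, .ofNat 78120], [.ofNat
  145080, .negSucc 178559, .negSucc 44639, .negSucc 33479, .ofNat 89280], [.ofNat 78120, .negSucc 145079, .ofNat 66960,
  .negSucc 22319, .ofNat 89280]], [[.ofNat 145080, .negSucc 66959, .negSucc 44639, .negSucc 33479, .negSucc 22319],
  [.ofNat 145080, .negSucc 78119, .negSucc 33479, .ofNat 0, .ofNat 0], [.negSucc 55799, .negSucc 66959, .ofNat 78120,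
  .negSucc 33479, .ofNat 66960], [.negSucc 78119, .ofNat 145080, .negSucc 66959, .ofNat 22320, .negSucc 89279], [.ofNat
  111600, .negSucc 100439, .ofNat 122760, .negSucc 44639, .negSucc 89279], [.ofNat 66960, .negSucc 22319, .negSucc
  44639, .negSucc 111599, .ofNat 100440], [.negSucc 111599, .ofNat 22320, .ofNat 189720, .ofNat 11160, .negSucc 66959],
  [.negSucc 111599, .negSucc 33479, .ofNat 0, .ofNat 89280, .ofNat 66960]], [[.ofNat 0, .ofNat 22320, .negSucc 33479,
  .ofNat 11160, .ofNat 44640], [.ofNat 11160, .negSucc 100439, .ofNat 66960, .ofNat 22320, .ofNat 0], [.ofNat 89280,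
  .negSucc 156239, .ofNat 0, .negSucc 11159, .ofNat 66960], [.ofNat 111600, .negSucc 189719, .ofNat 0, .ofNat 22320,
  .ofNat 44640], [.ofNat 145080, .negSucc 145079, .ofNat 0, .ofNat 0, .ofNat 33480], [.negSucc 66959, .negSucc 33479,
  .ofNat 78120, .ofNat 66960, .negSucc 55799], [.negSucc 44639, .negSucc 33479, .ofNat 89280, .ofNat 145080, .negSucc
  178559], [.ofNat 66960, .negSucc 22319, .ofNat 89280, .ofNat 78120, .negSucc 145079]], [[.negSucc 44639, .negSucc
  33479, .negSucc 22319, .ofNat 145080, .negSucc 66959], [.negSucc 33479, .ofNat 0, .ofNat 0, .ofNat 145080, .negSucc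
  78119], [.ofNat 78120, .negSucc 33479, .ofNat 66960, .negSucc 55799, .negSucc 66959], [.negSucc 66959, .ofNat 22320,
  .negSucc 89279, .negSucc 78119, .ofNat 145080], [.ofNat 122760, .negSucc 44639, .negSucc 89279, .ofNat 111600,
  .negSucc 100439], [.negSucc 44639, .negSucc 111599, .ofNat 100440, .ofNat 66960, .negSucc 22319], [.ofNat 189720,
  .ofNat 11160, .negSucc 66959, .negSucc 111599, .ofNat 22320], [.ofNat 0, .ofNat 89280, .ofNat 66960, .negSucc 111599,
  .negSucc 33479]], [[.negSucc 33479, .ofNat 11160, .ofNat 44640, .ofNat 0, .ofNat 22320], [.ofNat 66960, .ofNat 22320,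
  .ofNat 0, .ofNat 11160, .negSucc 100439], [.ofNat 0, .negSucc 11159, .ofNat 66960, .ofNat 89280, .negSucc 156239],
  [.ofNat 0, .ofNat 22320, .ofNat 44640, .ofNat 111600, .negSucc 189719], [.ofNat 0, .ofNat 0, .ofNat 33480, .ofNat
  145080, .negSucc 145079], [.ofNat 78120, .ofNat 66960, .negSucc 55799, .negSucc 66959, .negSucc 33479], [.ofNat 89280,
  .ofNat 145080, .negSucc 178559, .negSucc 44639, .negSucc 33479], [.ofNat 89280, .ofNat 78120, .negSucc 145079, .ofNat
  66960, .negSucc 22319]], [[.ofNat 33480, .ofNat 44640, .ofNat 55800, .ofNat 66960, .negSucc 189719], [.negSucc 33479,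
  .negSucc 33479, .ofNat 33480, .ofNat 89280, .negSucc 55799], [.ofNat 22320, .negSucc 78119, .ofNat 55800, .ofNat
  66960, .negSucc 44639], [.ofNat 0, .ofNat 0, .ofNat 33480, .ofNat 145080, .negSucc 145079], [.negSucc 78119, .ofNat
  156240, .ofNat 11160, .negSucc 122759, .negSucc 44639], [.negSucc 22319, .negSucc 156239, .ofNat 55800, .ofNat 78120,
  .ofNat 0], [.negSucc 100439, .ofNat 44640, .ofNat 22320, .ofNat 44640, .ofNat 0], [.ofNat 89280, .negSucc 111599,
  .ofNat 100440, .negSucc 122759, .ofNat 44640]], [[.ofNat 11160, .ofNat 44640, .ofNat 22320, .ofNat 44640, .negSucc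
  111599], [.ofNat 156240, .negSucc 100439, .negSucc 122759, .negSucc 44639, .ofNat 33480], [.negSucc 44639, .negSucc
  55799, .ofNat 78120, .ofNat 0, .negSucc 22319], [.ofNat 22320, .ofNat 0, .ofNat 11160, .negSucc 100439, .ofNat 66960],
  [.negSucc 33479, .ofNat 33480, .ofNat 89280, .negSucc 55799, .negSucc 33479], [.negSucc 78119, .ofNat 167400, .negSucc
  44639, .ofNat 178560, .negSucc 200879], [.negSucc 55799, .ofNat 66960, .negSucc 78119, .ofNat 33480, .ofNat 44640],
  [.negSucc 145079, .ofNat 78120, .ofNat 33480, .ofNat 0, .ofNat 0]], [[.ofNat 55800, .ofNat 66960, .negSucc 189719,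
  .ofNat 33480, .ofNat 44640], [.ofNat 33480, .ofNat 89280, .negSucc 55799, .negSucc 33479, .negSucc 33479], [.ofNat
  55800, .ofNat 66960, .negSucc 44639, .ofNat 22320, .negSucc 78119], [.ofNat 33480, .ofNat 145080, .negSucc 145079,
  .ofNat 0, .ofNat 0], [.ofNat 11160, .negSucc 122759, .negSucc 44639, .negSucc 78119, .ofNat 156240], [.ofNat 55800,
  .ofNat 78120, .ofNat 0, .negSucc 22319, .negSucc 156239], [.ofNat 22320, .ofNat 44640, .ofNat 0, .negSucc 100439,
  .ofNat 44640], [.ofNat 100440, .negSucc 122759, .ofNat 44640, .ofNat 89280, .negSucc 111599]], [[.ofNat 22320, .ofNat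
  44640, .negSucc 111599, .ofNat 11160, .ofNat 44640], [.negSucc 122759, .negSucc 44639, .ofNat 33480, .ofNat 156240,
  .negSucc 100439], [.ofNat 78120, .ofNat 0, .negSucc 22319, .negSucc 44639, .negSucc 55799], [.ofNat 11160, .negSucc
  100439, .ofNat 66960, .ofNat 22320, .ofNat 0], [.ofNat 89280, .negSucc 55799, .negSucc 33479, .negSucc 33479, .ofNat
  33480], [.negSucc 44639, .ofNat 178560, .negSucc 200879, .negSucc 78119, .ofNat 167400], [.negSucc 78119, .ofNat
  33480, .ofNat 44640, .negSucc 55799, .ofNat 66960], [.ofNat 33480, .ofNat 0, .ofNat 0, .negSucc 145079, .ofNat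
  78120]], [[.negSucc 189719, .ofNat 33480, .ofNat 44640, .ofNat 55800, .ofNat 66960], [.negSucc 55799, .negSucc 33479,
  .negSucc 33479, .ofNat 33480, .ofNat 89280], [.negSucc 44639, .ofNat 22320, .negSucc 78119, .ofNat 55800, .ofNat
  66960], [.negSucc 145079, .ofNat 0, .ofNat 0, .ofNat 33480, .ofNat 145080], [.negSucc 44639, .negSucc 78119, .ofNat
  156240, .ofNat 11160, .negSucc 122759], [.ofNat 0, .negSucc 22319, .negSucc 156239, .ofNat 55800, .ofNat 78120],
  [.ofNat 0, .negSucc 100439, .ofNat 44640, .ofNat 22320, .ofNat 44640], [.ofNat 44640, .ofNat 89280, .negSucc 111599,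
  .ofNat 100440, .negSucc 122759]], [[.negSucc 111599, .ofNat 11160, .ofNat 44640, .ofNat 22320, .ofNat 44640], [.ofNat
  33480, .ofNat 156240, .negSucc 100439, .negSucc 122759, .negSucc 44639], [.negSucc 22319, .negSucc 44639, .negSucc
  55799, .ofNat 78120, .ofNat 0], [.ofNat 66960, .ofNat 22320, .ofNat 0, .ofNat 11160, .negSucc 100439], [.negSucc
  33479, .negSucc 33479, .ofNat 33480, .ofNat 89280, .negSucc 55799], [.negSucc 200879, .negSucc 78119, .ofNat 167400,
  .negSucc 44639, .ofNat 178560], [.ofNat 44640, .negSucc 55799, .ofNat 66960, .negSucc 78119, .ofNat 33480], [.ofNat 0,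
  .negSucc 145079, .ofNat 78120, .ofNat 33480, .ofNat 0]], [[.ofNat 44640, .ofNat 55800, .ofNat 66960, .negSucc 189719,
  .ofNat 33480], [.negSucc 33479, .ofNat 33480, .ofNat 89280, .negSucc 55799, .negSucc 33479], [.negSucc 78119, .ofNat
  55800, .ofNat 66960, .negSucc 44639, .ofNat 22320], [.ofNat 0, .ofNat 33480, .ofNat 145080, .negSucc 145079, .ofNat
  0], [.ofNat 156240, .ofNat 11160, .negSucc 122759, .negSucc 44639, .negSucc 78119], [.negSucc 156239, .ofNat 55800,
  .ofNat 78120, .ofNat 0, .negSucc 22319], [.ofNat 44640, .ofNat 22320, .ofNat 44640, .ofNat 0, .negSucc 100439],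
  [.negSucc 111599, .ofNat 100440, .negSucc 122759, .ofNat 44640, .ofNat 89280]], [[.ofNat 44640, .ofNat 22320, .ofNat
  44640, .negSucc 111599, .ofNat 11160], [.negSucc 100439, .negSucc 122759, .negSucc 44639, .ofNat 33480, .ofNat
  156240], [.negSucc 55799, .ofNat 78120, .ofNat 0, .negSucc 22319, .negSucc 44639], [.ofNat 0, .ofNat 11160, .negSucc
  100439, .ofNat 66960, .ofNat 22320], [.ofNat 33480, .ofNat 89280, .negSucc 55799, .negSucc 33479, .negSucc 33479],
  [.ofNat 167400, .negSucc 44639, .ofNat 178560, .negSucc 200879, .negSucc 78119], [.ofNat 66960, .negSucc 78119, .ofNat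
  33480, .ofNat 44640, .negSucc 55799], [.ofNat 78120, .ofNat 33480, .ofNat 0, .ofNat 0, .negSucc 145079]], [[.ofNat
  66960, .negSucc 189719, .ofNat 33480, .ofNat 44640, .ofNat 55800], [.ofNat 89280, .negSucc 55799, .negSucc 33479,
  .negSucc 33479, .ofNat 33480], [.ofNat 66960, .negSucc 44639, .ofNat 22320, .negSucc 78119, .ofNat 55800], [.ofNat
  145080, .negSucc 145079, .ofNat 0, .ofNat 0, .ofNat 33480], [.negSucc 122759, .negSucc 44639, .negSucc 78119, .ofNat
  156240, .ofNat 11160], [.ofNat 78120, .ofNat 0, .negSucc 22319, .negSucc 156239, .ofNat 55800], [.ofNat 44640, .ofNat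
  0, .negSucc 100439, .ofNat 44640, .ofNat 22320], [.negSucc 122759, .ofNat 44640, .ofNat 89280, .negSucc 111599, .ofNat
  100440]], [[.ofNat 44640, .negSucc 111599, .ofNat 11160, .ofNat 44640, .ofNat 22320], [.negSucc 44639, .ofNat 33480,
  .ofNat 156240, .negSucc 100439, .negSucc 122759], [.ofNat 0, .negSucc 22319, .negSucc 44639, .negSucc 55799, .ofNat
  78120], [.negSucc 100439, .ofNat 66960, .ofNat 22320, .ofNat 0, .ofNat 11160], [.negSucc 55799, .negSucc 33479,
  .negSucc 33479, .ofNat 33480, .ofNat 89280], [.ofNat 178560, .negSucc 200879, .negSucc 78119, .ofNat 167400, .negSucc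
  44639], [.ofNat 33480, .ofNat 44640, .negSucc 55799, .ofNat 66960, .negSucc 78119], [.ofNat 0, .ofNat 0, .negSucc
  145079, .ofNat 78120, .ofNat 33480]], [[.negSucc 55799, .negSucc 22319, .negSucc 44639, .negSucc 22319, .ofNat
  145080], [.ofNat 200880, .ofNat 78120, .negSucc 167399, .ofNat 44640, .negSucc 178559], [.ofNat 44640, .ofNat 33480,
  .ofNat 0, .negSucc 156239, .ofNat 145080], [.negSucc 78119, .negSucc 66959, .ofNat 55800, .ofNat 66960, .ofNat 33480],
  [.ofNat 22320, .ofNat 156240, .negSucc 55799, .negSucc 78119, .ofNat 0], [.negSucc 11159, .negSucc 44639, .ofNat 0,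
  .ofNat 33480, .ofNat 33480], [.ofNat 0, .ofNat 0, .ofNat 44640, .ofNat 0, .negSucc 11159], [.ofNat 100440, .ofNat
  66960, .negSucc 22319, .negSucc 44639, .negSucc 111599]], [[.ofNat 0, .ofNat 111600, .ofNat 156240, .negSucc 111599,
  .negSucc 122759], [.ofNat 44640, .ofNat 55800, .negSucc 78119, .ofNat 0, .ofNat 22320], [.negSucc 44639, .ofNat
  111600, .negSucc 78119, .ofNat 33480, .negSucc 11159], [.ofNat 11160, .negSucc 66959, .negSucc 89279, .ofNat 156240,
  .ofNat 0], [.ofNat 78120, .negSucc 55799, .negSucc 66959, .ofNat 44640, .negSucc 22319], [.ofNat 33480, .ofNat 0,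
  .negSucc 156239, .ofNat 145080, .ofNat 44640], [.ofNat 178560, .negSucc 22319, .ofNat 33480, .negSucc 55799, .negSucc
  133919], [.negSucc 55799, .negSucc 66959, .ofNat 78120, .negSucc 33479, .ofNat 66960]], [[.negSucc 44639, .negSucc
  22319, .ofNat 145080, .negSucc 55799, .negSucc 22319], [.negSucc 167399, .ofNat 44640, .negSucc 178559, .ofNat 200880,
  .ofNat 78120], [.ofNat 0, .negSucc 156239, .ofNat 145080, .ofNat 44640, .ofNat 33480], [.ofNat 55800, .ofNat 66960,
  .ofNat 33480, .negSucc 78119, .negSucc 66959], [.negSucc 55799, .negSucc 78119, .ofNat 0, .ofNat 22320, .ofNat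
  156240], [.ofNat 0, .ofNat 33480, .ofNat 33480, .negSucc 11159, .negSucc 44639], [.ofNat 44640, .ofNat 0, .negSucc
  11159, .ofNat 0, .ofNat 0], [.negSucc 22319, .negSucc 44639, .negSucc 111599, .ofNat 100440, .ofNat 66960]], [[.ofNat
  156240, .negSucc 111599, .negSucc 122759, .ofNat 0, .ofNat 111600], [.negSucc 78119, .ofNat 0, .ofNat 22320, .ofNat
  44640, .ofNat 55800], [.negSucc 78119, .ofNat 33480, .negSucc 11159, .negSucc 44639, .ofNat 111600], [.negSucc 89279,
  .ofNat 156240, .ofNat 0, .ofNat 11160, .negSucc 66959], [.negSucc 66959, .ofNat 44640, .negSucc 22319, .ofNat 78120,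
  .negSucc 55799], [.negSucc 156239, .ofNat 145080, .ofNat 44640, .ofNat 33480, .ofNat 0], [.ofNat 33480, .negSucc
  55799, .negSucc 133919, .ofNat 178560, .negSucc 22319], [.ofNat 78120, .negSucc 33479, .ofNat 66960, .negSucc 55799,
  .negSucc 66959]], [[.ofNat 145080, .negSucc 55799, .negSucc 22319, .negSucc 44639, .negSucc 22319], [.negSucc 178559,
  .ofNat 200880, .ofNat 78120, .negSucc 167399, .ofNat 44640], [.ofNat 145080, .ofNat 44640, .ofNat 33480, .ofNat 0,
  .negSucc 156239], [.ofNat 33480, .negSucc 78119, .negSucc 66959, .ofNat 55800, .ofNat 66960], [.ofNat 0, .ofNat 22320,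
  .ofNat 156240, .negSucc 55799, .negSucc 78119], [.ofNat 33480, .negSucc 11159, .negSucc 44639, .ofNat 0, .ofNat
  33480], [.negSucc 11159, .ofNat 0, .ofNat 0, .ofNat 44640, .ofNat 0], [.negSucc 111599, .ofNat 100440, .ofNat 66960,
  .negSucc 22319, .negSucc 44639]], [[.negSucc 122759, .ofNat 0, .ofNat 111600, .ofNat 156240, .negSucc 111599], [.ofNat
  22320, .ofNat 44640, .ofNat 55800, .negSucc 78119, .ofNat 0], [.negSucc 11159, .negSucc 44639, .ofNat 111600, .negSucc
  78119, .ofNat 33480], [.ofNat 0, .ofNat 11160, .negSucc 66959, .negSucc 89279, .ofNat 156240], [.negSucc 22319, .ofNat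
  78120, .negSucc 55799, .negSucc 66959, .ofNat 44640], [.ofNat 44640, .ofNat 33480, .ofNat 0, .negSucc 156239, .ofNat
  145080], [.negSucc 133919, .ofNat 178560, .negSucc 22319, .ofNat 33480, .negSucc 55799], [.ofNat 66960, .negSucc
  55799, .negSucc 66959, .ofNat 78120, .negSucc 33479]], [[.negSucc 22319, .negSucc 44639, .negSucc 22319, .ofNat
  145080, .negSucc 55799], [.ofNat 78120, .negSucc 167399, .ofNat 44640, .negSucc 178559, .ofNat 200880], [.ofNat 33480,
  .ofNat 0, .negSucc 156239, .ofNat 145080, .ofNat 44640], [.negSucc 66959, .ofNat 55800, .ofNat 66960, .ofNat 33480,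
  .negSucc 78119], [.ofNat 156240, .negSucc 55799, .negSucc 78119, .ofNat 0, .ofNat 22320], [.negSucc 44639, .ofNat 0,
  .ofNat 33480, .ofNat 33480, .negSucc 11159], [.ofNat 0, .ofNat 44640, .ofNat 0, .negSucc 11159, .ofNat 0], [.ofNat
  66960, .negSucc 22319, .negSucc 44639, .negSucc 111599, .ofNat 100440]], [[.ofNat 111600, .ofNat 156240, .negSucc
  111599, .negSucc 122759, .ofNat 0], [.ofNat 55800, .negSucc 78119, .ofNat 0, .ofNat 22320, .ofNat 44640], [.ofNat
  111600, .negSucc 78119, .ofNat 33480, .negSucc 11159, .negSucc 44639], [.negSucc 66959, .negSucc 89279, .ofNat 156240,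
  .ofNat 0, .ofNat 11160], [.negSucc 55799, .negSucc 66959, .ofNat 44640, .negSucc 22319, .ofNat 78120], [.ofNat 0,
  .negSucc 156239, .ofNat 145080, .ofNat 44640, .ofNat 33480], [.negSucc 22319, .ofNat 33480, .negSucc 55799, .negSucc
  133919, .ofNat 178560], [.negSucc 66959, .ofNat 78120, .negSucc 33479, .ofNat 66960, .negSucc 55799]], [[.negSucc
  22319, .ofNat 145080, .negSucc 55799, .negSucc 22319, .negSucc 44639], [.ofNat 44640, .negSucc 178559, .ofNat 200880,
  .ofNat 78120, .negSucc 167399], [.negSucc 156239, .ofNat 145080, .ofNat 44640, .ofNat 33480, .ofNat 0], [.ofNat 66960,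
  .ofNat 33480, .negSucc 78119, .negSucc 66959, .ofNat 55800], [.negSucc 78119, .ofNat 0, .ofNat 22320, .ofNat 156240,
  .negSucc 55799], [.ofNat 33480, .ofNat 33480, .negSucc 11159, .negSucc 44639, .ofNat 0], [.ofNat 0, .negSucc 11159,
  .ofNat 0, .ofNat 0, .ofNat 44640], [.negSucc 44639, .negSucc 111599, .ofNat 100440, .ofNat 66960, .negSucc 22319]],
  [[.negSucc 111599, .negSucc 122759, .ofNat 0, .ofNat 111600, .ofNat 156240], [.ofNat 0, .ofNat 22320, .ofNat 44640,
  .ofNat 55800, .negSucc 78119], [.ofNat 33480, .negSucc 11159, .negSucc 44639, .ofNat 111600, .negSucc 78119], [.ofNat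
  156240, .ofNat 0, .ofNat 11160, .negSucc 66959, .negSucc 89279], [.ofNat 44640, .negSucc 22319, .ofNat 78120, .negSucc
  55799, .negSucc 66959], [.ofNat 145080, .ofNat 44640, .ofNat 33480, .ofNat 0, .negSucc 156239], [.negSucc 55799,
  .negSucc 133919, .ofNat 178560, .negSucc 22319, .ofNat 33480], [.negSucc 33479, .ofNat 66960, .negSucc 55799, .negSucc
  66959, .ofNat 78120]]]

theorem qT_shp : (allN 8 fun i => shp (qT.getD i [])) = true := by decide +kernel

theorem ku5_chk : (allN 40 fun a => allN 8 fun i => allN 5 fun c => lf (ku5.getD a []) i c ==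
    31 * dd (qT.getD i []) ((fw5.getD a []).map (rv5 c)) -
      6 * dotL ((qT.getD i []).map List.sum) ((fw5.getD a []).map List.sum)) = true :=
  all4 (by decide +kernel) (by decide +kernel) (by decide +kernel) (by decide +kernel)

theorem ku5_dd : (allN 40 fun i => allN 40 fun j => dd (fw5.getD i []) (ku5.getD j []) == -6919200 * (g3T.getD i []).getD j 0) = true :=
  all4 (by decide +kernel) (by decide +kernel) (by decide +kernel) (by decide +kernel)

theorem kb5_aux (c : ℕ) (hc : c < 5) (d : ℕ) (hd : d < 5) (f : ℕ → ℤ) :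
    ∑ c' ∈ Finset.range 5, (if c % 5 = (c' + d) % 5 then 25 else -6) * f c' =
      31 * f ((c + 5 - d) % 5) - 6 * ∑ c' ∈ Finset.range 5, f c' := by
  interval_cases c <;> interval_cases d <;> simp [Finset.sum_range_succ] <;> ring

theorem lf_map_rv (l : List (List ℤ)) (hl : l.length = 8) (c : ℕ) (j : ℕ) (hj : j < 8) (d : ℕ) (hd : d < 5) :
    lf (l.map (rv5 c)) j d = lf l j ((c + 5 - d) % 5) := by
  unfold lf
  have h1 : (l.map (rv5 c)).getD j [] = rv5 c (l.getD j []) := by
    rw [List.getD_eq_getElem _ _ (by rw [List.length_map]; omega), List.getD_eq_getElem _ _ (by omega), List.getElem_map]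
  rw [h1]
  unfold rv5
  rw [List.getD_eq_getElem _ _ (by rw [List.length_map, List.length_range]; exact hd), List.getElem_map, List.getElem_range]

theorem sum_map_sum (l : List (List ℤ)) (h : shp l = true) (j : ℕ) (hj : j < 8) :
    (l.map List.sum).getD j 0 = ∑ c ∈ Finset.range 5, lf l j c := by
  unfold shp at h
  rw [Bool.and_eq_true, List.all_eq_true] at h
  have hl : l.length = 8 := by simpa using h.1
  rw [List.getD_eq_getElem _ _ (by rw [List.length_map]; omega), List.getElem_map]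
  have h2 := h.2 (l[j]'(by omega)) (List.getElem_mem _)
  have h3 : (l[j]'(by omega)).length = 5 := by simpa using h2
  unfold lf
  rw [List.getD_eq_getElem l _ (by omega)]
  generalize (l[j]'(by omega)) = r at *
  match r, h3 with
  | [a, b, c, d, e], _ => simp [Finset.sum_range_succ]; ring

theorem q_lf (i j d : ℕ) : q i j d = lf (qT.getD i []) j d := rfl

theorem kil5a : ∀ i < 40, ∀ j < 8, ∀ c < 5, kb5 (lf (fw5.getD i [])) j c = lf (ku5.getD i []) j c := by
  intro a ha i hi c hc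
  have h := allN_iff.1 (allN_iff.1 (allN_iff.1 ku5_chk a ha) i hi) c hc
  have hs := allN_iff.1 fw5_shp a ha
  have hq := allN_iff.1 qT_shp i hi
  have hl : (fw5.getD a []).length = 8 := by
    unfold shp at hs
    rw [Bool.and_eq_true] at hs
    simpa using hs.1
  rw [beq_iff_eq, dd_shp hq, dotL_eq_sum (N := 8) (Or.inl (by
    rw [List.length_map]
    unfold shp at hq
    rw [Bool.and_eq_true] at hq
    exact le_of_eq (by simpa using hq.1)))] at h
  rw [h]
  unfold kb5
  rw [Finset.mul_sum, Finset.mul_sum, ← Finset.sum_sub_distrib]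
  refine Finset.sum_congr rfl fun j hj => ?_
  have hj' := Finset.mem_range.1 hj
  rw [sum_map_sum _ hq j hj', sum_map_sum _ hs j hj', Finset.mul_sum, Finset.sum_mul, Finset.mul_sum, ← Finset.sum_sub_distrib]
  refine Finset.sum_congr rfl fun d hd => ?_
  have hd' := Finset.mem_range.1 hd
  rw [lf_map_rv _ hl c j hj' d hd', ← q_lf]
  rw [Finset.sum_congr rfl fun c' _ => mul_assoc (q i j d) _ _, ← Finset.mul_sum, kb5_aux c hc d hd']
  ring

theorem kil5b : ∀ i < 40, ∀ i' < 40, ∑ j ∈ Finset.range 8, ∑ c ∈ Finset.range 5,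
    lf (fw5.getD i []) j c * lf (ku5.getD i' []) j c = -2 * 1860 ^ 2 * en2 g3T i i' := by
  intro i hi j hj
  have h := allN_iff.1 (allN_iff.1 ku5_dd i hi) j hj
  rw [beq_iff_eq, dd_shp (allN_iff.1 fw5_shp i hi)] at h
  rw [h]
  norm_num
  rfl

end Pool.Agent.Helper60.E8Z
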