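import Pool.Agent.Helper60.E8Z.D5

/-!
# Project E8Z, (E2): the isometries of the lattice of the fixed vectors of `t ^ 5`

`M` is an integral lattice in `ℚ^40` which contains the vectors `G3 i`, `G2 i`, `G5 i` and the bases of the two components; `Y` is an isometry of `M` which
preserves the form with matrix `g3T`. Then `Y` is `± δ ^ n`, `δ` the permutation `del` of the frame.
-/

set_option autoImplicit false

namespace Pool.Agent.Helper60.E8Z

open Matrix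

theorem del_lt {i : ℕ} (h : i < 40) : del i < 40 := by
  unfold del
  omega

/-- The permutation `δ` of the frame. -/
def delF (i : Fin 40) : Fin 40 := ⟨del i, del_lt i.2⟩

/-- An isometry of `ℚ^N` which preserves the form of a symmetric matrix commutes with the matrix. -/
theorem comm_of_form {N : ℕ} (S : Matrix (Fin N) (Fin N) ℚ) (Y : (Fin N → ℚ) →ₗ[ℚ] (Fin N → ℚ))
    (hYo : ∀ u v, Y u ⬝ᵥ Y v = u ⬝ᵥ v) (hYS : ∀ u v, Y u ⬝ᵥ (S *ᵥ Y v) = u ⬝ᵥ (S *ᵥ v)) (v : Fin N → ℚ) :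
    Y (S *ᵥ v) = S *ᵥ Y v := by
  have hinj : Function.Injective Y := by
    rw [injective_iff_map_eq_zero]
    intro u hu
    have h1 := hYo u u
    rw [hu, zero_dotProduct] at h1
    exact dotProduct_self_eq_zero.1 h1.symm
  have hsurj : Function.Surjective Y := LinearMap.surjective_of_injective hinj
  obtain ⟨u, hu⟩ := hsurj (Y (S *ᵥ v) - S *ᵥ Y v)
  have h1 : Y u ⬝ᵥ (Y (S *ᵥ v) - S *ᵥ Y v) = 0 := by
    rw [dotProduct_sub, hYo, hYS, sub_self]
  rw [hu] at h1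
  exact sub_eq_zero.1 (dotProduct_self_eq_zero.1 h1)

section


/-- The frame. -/
private abbrev e (i : Fin 40) : Fin 40 → ℚ := Pi.single i 1

/-- The vector of ones. -/
private abbrev on : Fin 40 → ℚ := fun _ => 1

private theorem symB (i j : Fin 40) : (mq 40 cb5P) i j = (mq 40 cb5P) j i := cb5_is.symm i j
private theorem symA (i j : Fin 40) : (mq 40 ca5P) i j = (mq 40 ca5P) j i := ca5_is.symm i j
private theorem dotB (u v : Fin 40 → ℚ) : ((mq 40 cb5P) *ᵥ u) ⬝ᵥ v = u ⬝ᵥ ((mq 40 cb5P) *ᵥ v) := cb5_is.dot u v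
private theorem dotA (u v : Fin 40 → ℚ) : ((mq 40 ca5P) *ᵥ u) ⬝ᵥ v = u ⬝ᵥ ((mq 40 ca5P) *ᵥ v) := ca5_is.dot u v

private theorem hS : (mq 40 g3T) = (mq 40 cb5P) + (mq 40 ca5P) := by
  have h := n1
  rw [allN_iff] at h
  ext i j
  have h1 := allN_iff.1 (h i i.2) j j.2
  rw [beq_iff_eq] at h1
  change ((en2 g3T i j : ℤ) : ℚ) = ((en2 cb5P i j : ℤ) : ℚ) + ((en2 ca5P i j : ℤ) : ℚ)
  rw [h1]
  push_cast
  rfl

private theorem len5 {T : List (List ℤ)} (h : (T.all fun l => decide (l.length ≤ 40)) = true) (i : ℕ) :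
    (T.getD i []).length ≤ 40 := by
  rw [List.all_eq_true] at h
  rw [List.getD_eq_getElem?_getD]
  rcases hk : T[i]? with _ | l
  · simp
  · exact of_decide_eq_true (h l (List.mem_of_getElem? hk))

private theorem lb : (cb5P.all fun l => decide (l.length ≤ 40)) = true := by decide +kernel
private theorem la : (ca5P.all fun l => decide (l.length ≤ 40)) = true := by decide +kernel

private theorem BA (u : Fin 40 → ℚ) : (mq 40 cb5P) *ᵥ ((mq 40 ca5P) *ᵥ u) = 0 := by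
  have h0 : (mq 40 cb5P) * (mq 40 ca5P) = 0 := by
    ext i j
    have h1 := allN_iff.1 (allN_iff.1 n5 i i.2) j j.2
    rw [beq_iff_eq, dotL_fin (N := 40) (Or.inl (len5 lb _))] at h1
    rw [mul_apply, Matrix.zero_apply]
    have h2 : ((∑ k : Fin 40, (cb5P.getD i []).getD k 0 * (ca5P.getD j []).getD k 0 : ℤ) : ℚ) = 0 := by
      rw [h1, Int.cast_zero]
    rw [← h2]
    push_cast
    refine Finset.sum_congr rfl fun k _ => ?_
    rw [symA k j]
    rfl
  rw [mulVec_mulVec, h0, zero_mulVec]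

private theorem AB (u : Fin 40 → ℚ) : (mq 40 ca5P) *ᵥ ((mq 40 cb5P) *ᵥ u) = 0 := by
  have h1 : ∀ v, ((mq 40 ca5P) *ᵥ ((mq 40 cb5P) *ᵥ u)) ⬝ᵥ v = 0 := by
    intro v
    rw [dotA, dotB, BA, dotProduct_zero]
  exact dotProduct_self_eq_zero.1 (h1 _)

private theorem row1 {T : List (List ℤ)} (hl : (T.all fun l => decide (l.length ≤ 40)) = true)
    (h : ∀ i : Fin 40, dotL (T.getD i []) (List.replicate 40 1) = 0) : mq 40 T *ᵥ on = 0 := by
  funext i
  have h1 := h i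
  rw [dotL_fin (N := 40) (Or.inl (len5 hl _))] at h1
  change ∑ j : Fin 40, ((en2 T i j : ℤ) : ℚ) * 1 = 0
  have h2 : ((∑ j : Fin 40, (T.getD i []).getD j 0 * (List.replicate 40 (1 : ℤ)).getD j 0 : ℤ) : ℚ) = 0 := by
    rw [h1, Int.cast_zero]
  rw [← h2]
  push_cast
  refine Finset.sum_congr rfl fun j _ => ?_
  have h3 : ∀ j : Fin 40, (([1, 1, 1, 1, 1, 1, 1, 1, 1, 1, 1, 1, 1, 1, 1, 1, 1, 1, 1, 1, 1, 1, 1, 1, 1, 1, 1, 1, 1, 1, 1, 1, 1, 1, 1, 1, 1,
      1, 1, 1] : List ℤ).getD j 0) = 1 := by decide +kernel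
  rw [h3 j, Int.cast_one]
  rfl

private theorem B1 : (mq 40 cb5P) *ᵥ on = 0 := row1 lb fun i => by
  have h := allN_iff.1 n6 i i.2
  rw [Bool.and_eq_true, beq_iff_eq, beq_iff_eq] at h
  exact h.1

private theorem A1 : (mq 40 ca5P) *ᵥ on = 0 := row1 la fun i => by
  have h := allN_iff.1 n6 i i.2
  rw [Bool.and_eq_true, beq_iff_eq, beq_iff_eq] at h
  exact h.2

private theorem mvs (T : Matrix (Fin 40) (Fin 40) ℚ) (i j : Fin 40) : (T *ᵥ e i) j = T j i := by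
  rw [mulVec_single_one]
  rfl

/-- The decomposition of `e i`. -/
private theorem dec (i : Fin 40) : (120 : ℚ) • e i = (5 : ℚ) • ((mq 40 cb5P) *ᵥ e i) + (4 : ℚ) • ((mq 40 ca5P) *ᵥ e i) + (3 : ℚ) • on := by
  funext j
  have h1 := allN_iff.1 (allN_iff.1 n7 j j.2) i i.2
  rw [beq_iff_eq] at h1
  change 120 * (Pi.single i (1 : ℚ) : Fin 40 → ℚ) j = 5 * ((mq 40 cb5P) *ᵥ e i) j + 4 * ((mq 40 ca5P) *ᵥ e i) j + 3 * 1
  rw [mvs, mvs]
  change _ = 5 * ((en2 cb5P j i : ℤ) : ℚ) + 4 * ((en2 ca5P j i : ℤ) : ℚ) + 3 * 1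
  have h2 : ((5 * en2 cb5P j i + 4 * en2 ca5P j i + 3 : ℤ) : ℚ) = if j = i then 120 else 0 := by
    rw [h1]
    simp only [Fin.ext_iff]
    split_ifs <;> norm_num
  push_cast at h2
  rw [mul_one, h2, Pi.single_apply]
  split_ifs <;> norm_num

private theorem v3 (i : Fin 40) : vq 40 (g3T.getD i []) = (mq 40 cb5P) *ᵥ e i + (mq 40 ca5P) *ᵥ e i := by
  funext j
  have h1 := allN_iff.1 (allN_iff.1 n1 i i.2) j j.2
  rw [beq_iff_eq] at h1
  rw [Pi.add_apply, mvs, mvs, symB j i, symA j i]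
  change ((en2 g3T i j : ℤ) : ℚ) = ((en2 cb5P i j : ℤ) : ℚ) + ((en2 ca5P i j : ℤ) : ℚ)
  rw [h1]
  push_cast
  rfl

private theorem v2 (i : Fin 40) : (2 : ℚ) • vq 40 (g2T.getD i []) = (mq 40 cb5P) *ᵥ e i + (4 : ℚ) • ((mq 40 ca5P) *ᵥ e (delF i)) + on := by
  funext j
  have h1 := allN_iff.1 (allN_iff.1 n2 i i.2) j j.2
  rw [beq_iff_eq] at h1
  rw [Pi.add_apply, Pi.add_apply, Pi.smul_apply, Pi.smul_apply, mvs, mvs, symB j i, symA j (delF i)]
  change 2 * ((en2 g2T i j : ℤ) : ℚ) = ((en2 cb5P i j : ℤ) : ℚ) + 4 * ((en2 ca5P (del i) j : ℤ) : ℚ) + 1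
  exact_mod_cast h1

private theorem v5 (i : Fin 40) : vq 40 (g5T.getD i []) = (mq 40 ca5P) *ᵥ e i + (3 : ℚ) • on := by
  funext j
  have h1 := allN_iff.1 (allN_iff.1 n3 i i.2) j j.2
  rw [beq_iff_eq] at h1
  rw [Pi.add_apply, Pi.smul_apply, mvs, symA j i]
  change ((en2 g5T i j : ℤ) : ℚ) = ((en2 ca5P i j : ℤ) : ℚ) + 3 * 1
  rw [mul_one]
  exact_mod_cast h1

private theorem BB (u : Fin 40 → ℚ) : (mq 40 cb5P) *ᵥ ((mq 40 cb5P) *ᵥ u) = (24 : ℚ) • ((mq 40 cb5P) *ᵥ u) := by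
  have h := cb5_is.sq u
  have h1 : (cb5.den : ℚ) = 24 := by
    change ((Int.ofNat 24 : ℤ) : ℚ) = 24
    norm_num
  rw [h1] at h
  exact h

private theorem AA (u : Fin 40 → ℚ) : (mq 40 ca5P) *ᵥ ((mq 40 ca5P) *ᵥ u) = (30 : ℚ) • ((mq 40 ca5P) *ᵥ u) := by
  have h := ca5_is.sq u
  have h1 : (ca5.den : ℚ) = 30 := by
    change ((Int.ofNat 30 : ℤ) : ℚ) = 30
    norm_num
  rw [h1] at h
  exact h

/-- Products of the vectors `(mq 40 cb5P) e_i`, `(mq 40 ca5P) e_j`, `1`. -/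
private theorem dBB (i j : Fin 40) : ((mq 40 cb5P) *ᵥ e i) ⬝ᵥ ((mq 40 cb5P) *ᵥ e j) = 24 * (en2 cb5P i j : ℤ) := by
  rw [dotB, BB, dotProduct_smul, single_one_dotProduct, mvs]
  rfl

private theorem dAA (i j : Fin 40) : ((mq 40 ca5P) *ᵥ e i) ⬝ᵥ ((mq 40 ca5P) *ᵥ e j) = 30 * (en2 ca5P i j : ℤ) := by
  rw [dotA, AA, dotProduct_smul, single_one_dotProduct, mvs]
  rfl

private theorem dBA (u v : Fin 40 → ℚ) : ((mq 40 cb5P) *ᵥ u) ⬝ᵥ ((mq 40 ca5P) *ᵥ v) = 0 := by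
  rw [dotB, BA, dotProduct_zero]

private theorem dAB (u v : Fin 40 → ℚ) : ((mq 40 ca5P) *ᵥ u) ⬝ᵥ ((mq 40 cb5P) *ᵥ v) = 0 := by
  rw [dotProduct_comm, dBA]

private theorem dB1 (u : Fin 40 → ℚ) : ((mq 40 cb5P) *ᵥ u) ⬝ᵥ on = 0 := by
  rw [dotB, B1, dotProduct_zero]

private theorem dA1 (u : Fin 40 → ℚ) : ((mq 40 ca5P) *ᵥ u) ⬝ᵥ on = 0 := by
  rw [dotA, A1, dotProduct_zero]

private theorem d1B (u : Fin 40 → ℚ) : on ⬝ᵥ ((mq 40 cb5P) *ᵥ u) = 0 := by rw [dotProduct_comm, dB1]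
private theorem d1A (u : Fin 40 → ℚ) : on ⬝ᵥ ((mq 40 ca5P) *ᵥ u) = 0 := by rw [dotProduct_comm, dA1]

private theorem d11 : on ⬝ᵥ on = 40 := by
  simp [dotProduct]

private theorem decu (u : Fin 40 → ℚ) :
    (120 : ℚ) • u = (5 : ℚ) • ((mq 40 cb5P) *ᵥ u) + (4 : ℚ) • ((mq 40 ca5P) *ᵥ u) + (3 * (on ⬝ᵥ u)) • on := by
  have h1 : u = ∑ i, u i • e i := by
    funext j
    simp [Finset.sum_apply, Pi.single_apply]
  have h2 : on ⬝ᵥ u = ∑ i, u i := by simp [dotProduct]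
  have h3 : ∀ T : Matrix (Fin 40) (Fin 40) ℚ, T *ᵥ u = ∑ i, u i • (T *ᵥ e i) := by
    intro T
    conv_lhs => rw [h1]
    rw [mulVec_sum]
    exact Finset.sum_congr rfl fun i _ => mulVec_smul _ _ _
  rw [h3 (mq 40 cb5P), h3 (mq 40 ca5P), h2, Finset.mul_sum, Finset.sum_smul, Finset.smul_sum, Finset.smul_sum, ← Finset.sum_add_distrib,
    ← Finset.sum_add_distrib]
  conv_lhs => rw [h1]
  rw [Finset.smul_sum]
  refine Finset.sum_congr rfl fun i _ => ?_
  rw [smul_comm, dec]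
  module

private theorem iter_delF (n : ℕ) (a : ℕ) (ha : a < 4) (k : ℕ) (hk : k < 10) :
    ((delF^[n] ⟨10 * a + k, by omega⟩ : Fin 40) : ℕ) = 10 * a + (k + n) % 10 := by
  induction n with
  | zero =>
    change 10 * a + k = _
    omega
  | succ n ih =>
    rw [Function.iterate_succ_apply']
    change del _ = _
    rw [ih]
    unfold del
    omega

theorem T5 (M : AddSubgroup (Fin 40 → ℚ)) (hint : ∀ u ∈ M, ∀ v ∈ M, ∃ k : ℤ, u ⬝ᵥ v = k)
    (h3 : ∀ i < 40, (1 / 3 : ℚ) • vq 40 (g3T.getD i []) ∈ M) (h2 : ∀ i < 40, (1 / 4 : ℚ) • vq 40 (g2T.getD i []) ∈ M)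
    (h5 : ∀ i < 40, (1 / 5 : ℚ) • vq 40 (g5T.getD i []) ∈ M)
    (hb : ∀ k < 15, vq 40 (cb5n.getD k []) ∈ M) (ha : ∀ k < 24, vq 40 (ca5n.getD k []) ∈ M)
    (Y : (Fin 40 → ℚ) →ₗ[ℚ] (Fin 40 → ℚ)) (hYM : ∀ u ∈ M, Y u ∈ M) (hYo : ∀ u v, Y u ⬝ᵥ Y v = u ⬝ᵥ v)
    (hYS : ∀ u v, Y u ⬝ᵥ (mq 40 g3T *ᵥ Y v) = u ⬝ᵥ (mq 40 g3T *ᵥ v)) :
    ∃ (n : ℕ) (s : ℤ), (s = 1 ∨ s = -1) ∧ ∀ i : Fin 40, Y (Pi.single i 1) = (s : ℚ) • Pi.single (delF^[n] i) 1 := by
  have cS := comm_of_form _ Y hYo hYS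
  have hSu : ∀ u, (mq 40 g3T) *ᵥ u = (mq 40 cb5P) *ᵥ u + (mq 40 ca5P) *ᵥ u := fun u => by rw [hS, add_mulVec]
  have hSS : ∀ u, (6 : ℚ) • ((mq 40 cb5P) *ᵥ u) = (30 : ℚ) • ((mq 40 g3T) *ᵥ u) - (mq 40 g3T) *ᵥ ((mq 40 g3T) *ᵥ u) := by
    intro u
    rw [hSu u, hSu, mulVec_add, mulVec_add, BB, BA, AB, AA]
    module
  have cB : ∀ u, Y ((mq 40 cb5P) *ᵥ u) = (mq 40 cb5P) *ᵥ Y u := by
    intro u
    have h1 : (6 : ℚ) • Y ((mq 40 cb5P) *ᵥ u) = (6 : ℚ) • ((mq 40 cb5P) *ᵥ Y u) := by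
      rw [← map_smul, hSS, hSS, map_sub, map_smul, cS, cS, cS]
    exact smul_right_injective _ (by norm_num : (6 : ℚ) ≠ 0) h1
  have cA : ∀ u, Y ((mq 40 ca5P) *ᵥ u) = (mq 40 ca5P) *ᵥ Y u := by
    intro u
    have h1 : (mq 40 ca5P) *ᵥ u = (mq 40 g3T) *ᵥ u - (mq 40 cb5P) *ᵥ u := by rw [hSu]; abel
    have h2 : (mq 40 ca5P) *ᵥ Y u = (mq 40 g3T) *ᵥ Y u - (mq 40 cb5P) *ᵥ Y u := by rw [hSu]; abel
    rw [h1, h2, map_sub, cS, cB]
  -- `Y 1 = ± 1`
  obtain ⟨ε, hε, hY1⟩ : ∃ ε : ℤ, (ε = 1 ∨ ε = -1) ∧ Y on = (ε : ℚ) • on := by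
    have h1 := decu (e 0)
    have h2 := decu (Y (e 0))
    have h3 : on ⬝ᵥ e 0 = 1 := by
      rw [dotProduct_single_one]
    have h4 := congrArg Y h1
    rw [map_add, map_add, map_smul, map_smul, map_smul, map_smul, cB, cA, h2, h3, mul_one] at h4
    have h5 : (3 : ℚ) • Y on = (3 : ℚ) • ((on ⬝ᵥ Y (e 0)) • on) := by
      rw [smul_smul]
      exact (add_left_cancel h4).symm
    have h6 : Y on = (on ⬝ᵥ Y (e 0)) • on := smul_right_injective _ (by norm_num : (3 : ℚ) ≠ 0) h5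
    have h7 := hYo on on
    rw [h6, smul_dotProduct, dotProduct_smul, d11, smul_eq_mul, smul_eq_mul] at h7
    have h8 : (on ⬝ᵥ Y (e 0) - 1) * (on ⬝ᵥ Y (e 0) + 1) = 0 := by linarith
    rcases mul_eq_zero.1 h8 with h9 | h9
    · refine ⟨1, Or.inl rfl, ?_⟩
      rw [h6, sub_eq_zero.1 h9, Int.cast_one]
    · refine ⟨-1, Or.inr rfl, ?_⟩
      rw [h6, eq_neg_of_add_eq_zero_left h9, Int.cast_neg, Int.cast_one]
  -- the vectors of the two components
  have mB : ∀ i : Fin 40, ∃ u ∈ M, (mq 40 cb5P) *ᵥ u = (mq 40 cb5P) *ᵥ e i := by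
    intro i
    refine ⟨3 • ((1 / 4 : ℚ) • vq 40 (g2T.getD i [])) - (1 / 3 : ℚ) • vq 40 (g3T.getD i []),
      M.sub_mem (M.nsmul_mem (h2 i i.2) 3) (h3 i i.2), ?_⟩
    have h1 : (1 / 4 : ℚ) • vq 40 (g2T.getD i []) = (1 / 8 : ℚ) • ((2 : ℚ) • vq 40 (g2T.getD i [])) := by
      rw [smul_smul]
      norm_num
    rw [h1, v2, v3, mulVec_sub, mulVec_smul, mulVec_smul, mulVec_smul, mulVec_add, mulVec_add, mulVec_add, mulVec_smul, BB, BA, BA, B1]
    module
  have delS : ∀ i : Fin 40, ∃ j : Fin 40, delF j = i := by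
    intro i
    refine ⟨⟨i / 10 * 10 + (i % 10 + 9) % 10, by omega⟩, Fin.ext ?_⟩
    change del (i / 10 * 10 + (i % 10 + 9) % 10) = i
    unfold del
    omega
  have mA : ∀ i : Fin 40, ∃ u ∈ M, (mq 40 ca5P) *ᵥ u = (mq 40 ca5P) *ᵥ e i := by
    intro i
    obtain ⟨j, rfl⟩ := delS i
    refine ⟨(1 / 5 : ℚ) • vq 40 (g5T.getD (delF j) []) - (1 / 4 : ℚ) • vq 40 (g2T.getD j []) +
      (1 / 3 : ℚ) • vq 40 (g3T.getD (delF j) []), M.add_mem (M.sub_mem (h5 _ (delF j).2) (h2 j j.2)) (h3 _ (delF j).2), ?_⟩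
    have h1 : (1 / 4 : ℚ) • vq 40 (g2T.getD j []) = (1 / 8 : ℚ) • ((2 : ℚ) • vq 40 (g2T.getD j [])) := by
      rw [smul_smul]
      norm_num
    rw [h1, v2, v3, v5, mulVec_add, mulVec_sub, mulVec_smul, mulVec_smul, mulVec_smul, mulVec_add, mulVec_add, mulVec_add, mulVec_add,
      mulVec_smul, mulVec_smul, AA, AB, AB, A1]
    module
  have iB := fun i => comp_image cb5_is cb5D M hint Y hYM hYo cB hb i (mB i)
  have iA := fun i => comp_image ca5_is ca5D M hint Y hYM hYo cA ha i (mA i)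
  choose π σ hσ hπ using iB
  choose ρ τ hτ hρ using iA
  change ∀ i, Y ((mq 40 cb5P) *ᵥ e i) = (σ i : ℚ) • ((mq 40 cb5P) *ᵥ e (π i)) at hπ
  change ∀ i, Y ((mq 40 ca5P) *ᵥ e i) = (τ i : ℚ) • ((mq 40 ca5P) *ᵥ e (ρ i)) at hρ
  -- gluing at 3
  have g3 : ∀ i, ρ i = π i ∧ τ i = σ i := by
    intro i
    have key : ∀ m : Fin 40, ∃ k : ℤ, 8 * (σ i * en2 cb5P (π i) m) + 10 * (τ i * en2 ca5P (ρ i) m) = 3 * k := by
      intro m
      obtain ⟨k, hk⟩ := hint _ (hYM _ (h3 i i.2)) _ (h3 m m.2)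
      refine ⟨k, ?_⟩
      rw [v3, v3, map_smul, map_add, hπ, hρ, smul_dotProduct, dotProduct_smul, add_dotProduct, smul_dotProduct, smul_dotProduct,
        dotProduct_add, dotProduct_add] at hk
      erw [dBB, dBA, dAB, dAA] at hk
      simp only [smul_eq_mul, add_zero, zero_add] at hk
      have h1 : ((8 * (σ i * en2 cb5P (π i) m) + 10 * (τ i * en2 ca5P (ρ i) m) : ℤ) : ℚ) = ((3 * k : ℤ) : ℚ) := by
        push_cast
        linarith
      exact_mod_cast h1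
    have h8 := allN_iff.1 (allN_iff.1 n8 (π i) (π i).2) (ρ i) (ρ i).2
    rw [Bool.and_eq_true, Bool.or_eq_true, Bool.not_eq_true', Bool.not_eq_true', ← Bool.not_eq_true, ← Bool.not_eq_true,
      allN_iff, allN_iff, beq_iff_eq] at h8
    obtain ⟨h8a, h8b⟩ := h8
    rcases hσ i with h1 | h1 <;> rcases hτ i with h2 | h2
    · refine ⟨?_, by rw [h1, h2]⟩
      rcases h8a with h | h
      · exact absurd (fun m hm => by
          obtain ⟨k, hk⟩ := key ⟨m, hm⟩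
          rw [h1, h2] at hk
          rw [beq_iff_eq]
          simp only at hk
          omega) h
      · exact Fin.ext h.symm
    · exact absurd (fun m hm => by
        obtain ⟨k, hk⟩ := key ⟨m, hm⟩
        rw [h1, h2] at hk
        rw [beq_iff_eq]
        simp only at hk
        omega) h8b
    · exact absurd (fun m hm => by
        obtain ⟨k, hk⟩ := key ⟨m, hm⟩
        rw [h1, h2] at hk
        rw [beq_iff_eq]
        simp only at hk
        omega) h8b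
    · refine ⟨?_, by rw [h1, h2]⟩
      rcases h8a with h | h
      · exact absurd (fun m hm => by
          obtain ⟨k, hk⟩ := key ⟨m, hm⟩
          rw [h1, h2] at hk
          rw [beq_iff_eq]
          simp only at hk
          omega) h
      · exact Fin.ext h.symm
  -- gluing at 2
  have g2 : ∀ i, π (delF i) = delF (π i) ∧ σ i = ε := by
    intro i
    have key : ∀ m : Fin 40, ∃ k : ℤ, 3 * (σ i * en2 cb5P (π i) m) +
        60 * (σ (delF i) * en2 ca5P (π (delF i)) (del m)) + 5 * ε = 8 * k := by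
      intro m
      obtain ⟨k, hk⟩ := hint _ (hYM _ (h2 i i.2)) _ (h2 m m.2)
      refine ⟨k, ?_⟩
      have e1 : ∀ j : Fin 40, (1 / 4 : ℚ) • vq 40 (g2T.getD j []) = (1 / 8 : ℚ) • ((2 : ℚ) • vq 40 (g2T.getD j [])) := by
        intro j
        rw [smul_smul]
        norm_num
      rw [e1, e1, v2, v2, map_smul, map_add, map_add, map_smul, hπ, hρ, hY1, (g3 _).1, (g3 _).2, smul_dotProduct, dotProduct_smul,
        add_dotProduct, add_dotProduct, smul_dotProduct, smul_dotProduct, smul_dotProduct, smul_dotProduct,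
        dotProduct_add, dotProduct_add, dotProduct_add, dotProduct_add, dotProduct_add, dotProduct_add, dotProduct_smul,
        dotProduct_smul, dotProduct_smul] at hk
      erw [dBB, dBA, dB1, dAB, dAA, dA1, d1B, d1A, d11] at hk
      simp only [smul_eq_mul, add_zero, zero_add, mul_zero] at hk
      have h1 : ((3 * (σ i * en2 cb5P (π i) m) +
        60 * (σ (delF i) * en2 ca5P (π (delF i)) (del m)) + 5 * ε : ℤ) : ℚ) = ((8 * k : ℤ) : ℚ) := by
        push_cast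
        have e2 : ((delF m : Fin 40) : ℕ) = del m := rfl
        rw [e2] at hk
        linarith
      exact_mod_cast h1
    have h9 := allN_iff.1 (allN_iff.1 n9 (π i) (π i).2) (π (delF i)) (π (delF i)).2
    rw [Bool.and_eq_true, Bool.and_eq_true, Bool.and_eq_true, Bool.or_eq_true, Bool.or_eq_true, Bool.not_eq_true', Bool.not_eq_true',
      Bool.not_eq_true', Bool.not_eq_true', ← Bool.not_eq_true, ← Bool.not_eq_true, ← Bool.not_eq_true, ← Bool.not_eq_true,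
      allN_iff, allN_iff, allN_iff, allN_iff, beq_iff_eq] at h9
    obtain ⟨⟨⟨ha, hb⟩, hc⟩, hd⟩ := h9
    rcases hσ i with h1 | h1 <;> rcases hσ (delF i) with h2 | h2 <;> rcases hε with h3 | h3
    · refine ⟨?_, by rw [h1, h3]⟩
      rcases ha with h | h
      · exact absurd (fun m hm => by
          obtain ⟨k, hk⟩ := key ⟨m, hm⟩
          rw [h1, h2, h3] at hk
          rw [beq_iff_eq]
          simp only at hk
          omega) h
      · exact Fin.ext h
    · exact absurd (fun m hm => by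
        obtain ⟨k, hk⟩ := key ⟨m, hm⟩
        rw [h1, h2, h3] at hk
        rw [beq_iff_eq]
        simp only at hk
        omega) hc
    · refine ⟨?_, by rw [h1, h3]⟩
      rcases hb with h | h
      · exact absurd (fun m hm => by
          obtain ⟨k, hk⟩ := key ⟨m, hm⟩
          rw [h1, h2, h3] at hk
          rw [beq_iff_eq]
          simp only at hk
          omega) h
      · exact Fin.ext h
    · exact absurd (fun m hm => by
        obtain ⟨k, hk⟩ := key ⟨m, hm⟩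
        rw [h1, h2, h3] at hk
        rw [beq_iff_eq]
        simp only at hk
        omega) hd
    · exact absurd (fun m hm => by
        obtain ⟨k, hk⟩ := key ⟨m, hm⟩
        rw [h1, h2, h3] at hk
        rw [beq_iff_eq]
        simp only at hk
        omega) hd
    · refine ⟨?_, by rw [h1, h3]⟩
      rcases hb with h | h
      · exact absurd (fun m hm => by
          obtain ⟨k, hk⟩ := key ⟨m, hm⟩
          rw [h1, h2, h3] at hk
          rw [beq_iff_eq]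
          simp only at hk
          omega) h
      · exact Fin.ext h
    · exact absurd (fun m hm => by
        obtain ⟨k, hk⟩ := key ⟨m, hm⟩
        rw [h1, h2, h3] at hk
        rw [beq_iff_eq]
        simp only at hk
        omega) hc
    · refine ⟨?_, by rw [h1, h3]⟩
      rcases ha with h | h
      · exact absurd (fun m hm => by
          obtain ⟨k, hk⟩ := key ⟨m, hm⟩
          rw [h1, h2, h3] at hk
          rw [beq_iff_eq]
          simp only at hk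
          omega) h
      · exact Fin.ext h
  -- `Y e_i = ε e_(π i)`
  have hYe : ∀ i, Y (e i) = (ε : ℚ) • e (π i) := by
    intro i
    have h1 : (120 : ℚ) • Y (e i) = (120 : ℚ) • ((ε : ℚ) • e (π i)) := by
      rw [← map_smul, dec, map_add, map_add, map_smul, map_smul, map_smul, hπ, hρ, hY1, (g3 i).1, (g3 i).2, (g2 i).2,
        smul_comm (120 : ℚ), dec]
      module
    exact smul_right_injective _ (by norm_num : (120 : ℚ) ≠ 0) h1
  have hε2 : (ε : ℚ) * ε = 1 := by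
    rcases hε with h | h <;> rw [h] <;> norm_num
  -- `π` preserves the matrix
  have hπS : ∀ i j, en2 g3T (π i) (π j) = en2 g3T i j := by
    intro i j
    have h1 := hYS (e i) (e j)
    rw [hYe, hYe, mulVec_smul, dotProduct_smul, smul_dotProduct, smul_eq_mul, smul_eq_mul, ← mul_assoc, hε2, one_mul,
      single_one_dotProduct, single_one_dotProduct, mvs, mvs] at h1
    change ((en2 g3T (π i) (π j) : ℤ) : ℚ) = ((en2 g3T i j : ℤ) : ℚ) at h1
    exact_mod_cast h1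
  -- the images of the four cycles
  have hcyc : ∀ (i : Fin 40) (k : ℕ), ((delF^[k] i : Fin 40) : ℕ) = i / 10 * 10 + (i % 10 + k) % 10 := by
    intro i k
    have h1 := iter_delF k (i / 10) (by omega) (i % 10) (by omega)
    have h2 : (⟨10 * (i / 10) + i % 10, by omega⟩ : Fin 40) = i := Fin.ext (by
      change 10 * ((i : ℕ) / 10) + (i : ℕ) % 10 = i
      omega)
    rw [h2] at h1
    rw [h1]
    ring
  have hπd : ∀ (k : ℕ) (i : Fin 40), π (delF^[k] i) = delF^[k] (π i) := by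
    intro k
    induction k with
    | zero => intro i; rfl
    | succ k ih =>
      intro i
      rw [Function.iterate_succ_apply, Function.iterate_succ_apply, ih, (g2 i).1]
  have ha4 : ∀ a : Fin 4, ((π ⟨10 * a, by omega⟩ : Fin 40) : ℕ) / 10 = a := by
    intro a
    have h := allN_iff.1 (allN_iff.1 n10 a a.2) (π ⟨10 * a, by omega⟩) (π ⟨10 * a, by omega⟩).2
    rw [Bool.or_eq_true, Bool.not_eq_true', ← Bool.not_eq_true, allN_iff, beq_iff_eq] at h
    rcases h with h | h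
    · exact absurd (fun k hk => by
        rw [beq_iff_eq, ← hcyc, ← hπd, hπS]
        congr 1
        rw [hcyc]
        simp only
        omega) h
    · exact h
  obtain ⟨s, hs⟩ : ∃ s : ℕ, s = ((π 0 : Fin 40) : ℕ) % 10 := ⟨_, rfl⟩
  have ha0 : ((π 0 : Fin 40) : ℕ) = s := by
    have h1 := ha4 0
    change ((π 0 : Fin 40) : ℕ) / 10 = 0 at h1
    omega
  have hs10 : s < 10 := by omega
  have hb4 : ∀ b : Fin 4, ((π ⟨10 * b, by omega⟩ : Fin 40) : ℕ) = 10 * b + s := by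
    intro b
    rcases Nat.eq_zero_or_pos (b : ℕ) with hb0 | hb0
    · have h1 : b = 0 := Fin.ext hb0
      subst h1
      change ((π 0 : Fin 40) : ℕ) = 10 * 0 + s
      omega
    · have h2 := ha4 b
      obtain ⟨s', hs'⟩ : ∃ s' : ℕ, s' = ((π ⟨10 * b, by omega⟩ : Fin 40) : ℕ) % 10 := ⟨_, rfl⟩
      have h3 : ((π ⟨10 * b, by omega⟩ : Fin 40) : ℕ) = 10 * b + s' := by omega
      have h := allN_iff.1 (allN_iff.1 (allN_iff.1 n11 b b.2) s hs10) s' (by omega)
      rw [Bool.or_eq_true, Bool.or_eq_true, Bool.not_eq_true', ← Bool.not_eq_true, allN_iff, beq_iff_eq, beq_iff_eq] at h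
      rcases h with (h | h) | h
      · omega
      · exact absurd (fun k hk => by
          rw [beq_iff_eq]
          have h4 := hπS 0 (delF^[k] ⟨10 * b, by omega⟩)
          rw [hπd, hcyc, hcyc, h3, ha0] at h4
          rw [show (10 * (b : ℕ) + s') / 10 * 10 + ((10 * (b : ℕ) + s') % 10 + k) % 10 = 10 * b + (s' + k) % 10 by omega] at h4
          rw [h4]
          change en2 g3T 0 (10 * (b : ℕ) / 10 * 10 + (10 * (b : ℕ) % 10 + k) % 10) = _
          congr 1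
          omega) h
      · omega
  refine ⟨s, ε, hε, fun i => ?_⟩
  change Y (e i) = _
  rw [hYe]
  congr 2
  have h1 : i = delF^[(i : ℕ) % 10] ⟨10 * ((i : ℕ) / 10), by omega⟩ := by
    refine Fin.ext ?_
    rw [hcyc]
    change (i : ℕ) = 10 * ((i : ℕ) / 10) / 10 * 10 + (10 * ((i : ℕ) / 10) % 10 + (i : ℕ) % 10) % 10
    omega
  refine Fin.ext ?_
  rw [hcyc i s]
  conv_lhs => rw [h1]
  rw [hπd, hcyc, hb4 ⟨(i : ℕ) / 10, by omega⟩]
  change (10 * ((i : ℕ) / 10) + s) / 10 * 10 + ((10 * ((i : ℕ) / 10) + s) % 10 + (i : ℕ) % 10) % 10 = _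
  omega

end

end Pool.Agent.Helper60.E8Z
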