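import Pool.Agent.Helper60.E8Z.D3
import Pool.Agent.Helper60.E8Z.T5

/-!
# Project E8Z, (E2): chirality of the lattice of the fixed vectors of `t ^ 3`

`M` is an integral lattice in `ℚ^24` which contains the vectors `H5 i`, `H2 i`, `H3 0` and the bases of the two components; there is no isometry `Y` of `M` which
preserves the form with matrix `s3T`, fixes the vector `(mq 24 cc3P) e_0` of the centre and inverts `t`.
-/

set_option autoImplicit false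

namespace Pool.Agent.Helper60.E8Z

open Matrix

theorem tau3_lt {i : ℕ} (h : i < 24) : tau3 i < 24 := by
  unfold tau3
  omega

/-- The permutation of the frame which is given by `t`. -/
def tau3F (i : Fin 24) : Fin 24 := ⟨tau3 i, tau3_lt i.2⟩

theorem tau3F_inj : Function.Injective tau3F := by
  intro i j h
  have h1 := congrArg Fin.val h
  change tau3 i = tau3 j at h1
  unfold tau3 at h1
  exact Fin.ext (by omega)

section


/-- The frame. -/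
private abbrev e (i : Fin 24) : Fin 24 → ℚ := Pi.single i 1

private theorem symF (i j : Fin 24) : (mq 24 cf3P) i j = (mq 24 cf3P) j i := cf3_is.symm i j
private theorem symD (i j : Fin 24) : (mq 24 cd3P) i j = (mq 24 cd3P) j i := cd3_is.symm i j
private theorem dotF (u v : Fin 24 → ℚ) : ((mq 24 cf3P) *ᵥ u) ⬝ᵥ v = u ⬝ᵥ ((mq 24 cf3P) *ᵥ v) := cf3_is.dot u v
private theorem dotD (u v : Fin 24 → ℚ) : ((mq 24 cd3P) *ᵥ u) ⬝ᵥ v = u ⬝ᵥ ((mq 24 cd3P) *ᵥ v) := cd3_is.dot u v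

private theorem symC (i j : Fin 24) : (mq 24 cc3P) i j = (mq 24 cc3P) j i := by
  have h := allN_iff.1 (allN_iff.1 m6 i i.2) j j.2
  rw [Bool.and_eq_true, beq_iff_eq, beq_iff_eq] at h
  change ((en2 cc3P i j : ℤ) : ℚ) = ((en2 cc3P j i : ℤ) : ℚ)
  rw [h.2]

private theorem dotC (u v : Fin 24 → ℚ) : ((mq 24 cc3P) *ᵥ u) ⬝ᵥ v = u ⬝ᵥ ((mq 24 cc3P) *ᵥ v) := by
  rw [Matrix.dotProduct_mulVec]
  congr 1
  funext j
  simp only [mulVec, vecMul, dotProduct]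
  exact Finset.sum_congr rfl fun k _ => by rw [symC j k, mul_comm]

private theorem len3 {T : List (List ℤ)} (h : (T.all fun l => decide (l.length ≤ 24)) = true) (i : ℕ) :
    (T.getD i []).length ≤ 24 := by
  rw [List.all_eq_true] at h
  rw [List.getD_eq_getElem?_getD]
  rcases hk : T[i]? with _ | l
  · simp
  · exact of_decide_eq_true (h l (List.mem_of_getElem? hk))

private theorem lf : (cf3P.all fun l => decide (l.length ≤ 24)) = true := by decide +kernel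
private theorem ld : (cd3P.all fun l => decide (l.length ≤ 24)) = true := by decide +kernel
private theorem lc : (cc3P.all fun l => decide (l.length ≤ 24)) = true := by decide +kernel

/-- Product of matrices from the rows. -/
private theorem mul_of {T T' : List (List ℤ)} (hl : (T.all fun l => decide (l.length ≤ 24)) = true)
    (hs : ∀ i j : Fin 24, mq 24 T' i j = mq 24 T' j i) (u : Fin 24 → ℚ) (c : ℚ) (U : Matrix (Fin 24) (Fin 24) ℚ)
    (h : ∀ i j : Fin 24, ((dotL (T.getD i []) (T'.getD j []) : ℤ) : ℚ) = c * U i j) :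
    mq 24 T *ᵥ (mq 24 T' *ᵥ u) = c • (U *ᵥ u) := by
  have h0 : mq 24 T * mq 24 T' = c • U := by
    ext i j
    rw [Matrix.smul_apply, smul_eq_mul, ← h i j, dotL_fin (N := 24) (Or.inl (len3 hl _)), mul_apply]
    push_cast
    refine Finset.sum_congr rfl fun k _ => ?_
    rw [hs k j]
    rfl
  rw [mulVec_mulVec, h0, smul_mulVec]

private theorem FD (u : Fin 24 → ℚ) : (mq 24 cf3P) *ᵥ ((mq 24 cd3P) *ᵥ u) = 0 := by
  rw [mul_of lf symD u 0 (mq 24 cf3P), zero_smul]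
  intro i j
  have h := allN_iff.1 (allN_iff.1 m5 i i.2) j j.2
  rw [Bool.and_eq_true, Bool.and_eq_true, beq_iff_eq, beq_iff_eq, beq_iff_eq] at h
  rw [h.1.1, Int.cast_zero, zero_mul]

private theorem FC (u : Fin 24 → ℚ) : (mq 24 cf3P) *ᵥ ((mq 24 cc3P) *ᵥ u) = 0 := by
  rw [mul_of lf symC u 0 (mq 24 cf3P), zero_smul]
  intro i j
  have h := allN_iff.1 (allN_iff.1 m5 i i.2) j j.2
  rw [Bool.and_eq_true, Bool.and_eq_true, beq_iff_eq, beq_iff_eq, beq_iff_eq] at h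
  rw [h.1.2, Int.cast_zero, zero_mul]

private theorem DC (u : Fin 24 → ℚ) : (mq 24 cd3P) *ᵥ ((mq 24 cc3P) *ᵥ u) = 0 := by
  rw [mul_of ld symC u 0 (mq 24 cf3P), zero_smul]
  intro i j
  have h := allN_iff.1 (allN_iff.1 m5 i i.2) j j.2
  rw [Bool.and_eq_true, Bool.and_eq_true, beq_iff_eq, beq_iff_eq, beq_iff_eq] at h
  rw [h.2, Int.cast_zero, zero_mul]

private theorem CC (u : Fin 24 → ℚ) : (mq 24 cc3P) *ᵥ ((mq 24 cc3P) *ᵥ u) = (12 : ℚ) • ((mq 24 cc3P) *ᵥ u) := by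
  refine mul_of lc symC u 12 (mq 24 cc3P) ?_
  intro i j
  have h := allN_iff.1 (allN_iff.1 m6 i i.2) j j.2
  rw [Bool.and_eq_true, beq_iff_eq, beq_iff_eq] at h
  rw [h.1]
  push_cast
  rfl

private theorem DF (u : Fin 24 → ℚ) : (mq 24 cd3P) *ᵥ ((mq 24 cf3P) *ᵥ u) = 0 := by
  have h1 : ∀ v, ((mq 24 cd3P) *ᵥ ((mq 24 cf3P) *ᵥ u)) ⬝ᵥ v = 0 := fun v => by rw [dotD, dotF, FD, dotProduct_zero]
  exact dotProduct_self_eq_zero.1 (h1 _)

private theorem FF (u : Fin 24 → ℚ) : (mq 24 cf3P) *ᵥ ((mq 24 cf3P) *ᵥ u) = (30 : ℚ) • ((mq 24 cf3P) *ᵥ u) := by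
  have h := cf3_is.sq u
  have h1 : (cf3.den : ℚ) = 30 := by
    change ((Int.ofNat 30 : ℤ) : ℚ) = 30
    norm_num
  rw [h1] at h
  exact h

private theorem DD (u : Fin 24 → ℚ) : (mq 24 cd3P) *ᵥ ((mq 24 cd3P) *ᵥ u) = (20 : ℚ) • ((mq 24 cd3P) *ᵥ u) := by
  have h := cd3_is.sq u
  have h1 : (cd3.den : ℚ) = 20 := by
    change ((Int.ofNat 20 : ℤ) : ℚ) = 20
    norm_num
  rw [h1] at h
  exact h

private theorem mvs (T : Matrix (Fin 24) (Fin 24) ℚ) (i j : Fin 24) : (T *ᵥ e i) j = T j i := by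
  rw [mulVec_single_one]
  rfl

private theorem hS : (mq 24 s3T) = (mq 24 cf3P) + (mq 24 cd3P) := by
  ext i j
  have h1 := allN_iff.1 (allN_iff.1 m1 i i.2) j j.2
  rw [beq_iff_eq] at h1
  change ((en2 s3T i j : ℤ) : ℚ) = ((en2 cf3P i j : ℤ) : ℚ) + ((en2 cd3P i j : ℤ) : ℚ)
  rw [h1]
  push_cast
  rfl

private theorem kp_lt {i : ℕ} (hi : i < 24) : kp i < 24 ∧ kc i < 24 := by
  have h := allN_iff.1 m7 i hi
  simp only [Bool.and_eq_true, decide_eq_true_eq] at h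
  exact ⟨h.1.1.1, h.1.1.2⟩

private def kpF (i : Fin 24) : Fin 24 := ⟨kp i, (kp_lt i.2).1⟩
private def kcF (i : Fin 24) : Fin 24 := ⟨kc i, (kp_lt i.2).2⟩

private theorem w5 (i : Fin 24) : vq 24 (h5T.getD i []) = (mq 24 cf3P) *ᵥ e i - (mq 24 cd3P) *ᵥ e i := by
  funext j
  have h1 := allN_iff.1 (allN_iff.1 m2 i i.2) j j.2
  rw [beq_iff_eq] at h1
  rw [Pi.sub_apply, mvs, mvs, symF j i, symD j i]
  change ((en2 h5T i j : ℤ) : ℚ) = ((en2 cf3P i j : ℤ) : ℚ) - ((en2 cd3P i j : ℤ) : ℚ)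
  exact_mod_cast h1

private theorem w3 (i : Fin 24) : vq 24 (h3T.getD i []) = (mq 24 cf3P) *ᵥ e i + (mq 24 cc3P) *ᵥ e i := by
  funext j
  have h1 := allN_iff.1 (allN_iff.1 m3 i i.2) j j.2
  rw [beq_iff_eq] at h1
  rw [Pi.add_apply, mvs, mvs, symF j i, symC j i]
  change ((en2 h3T i j : ℤ) : ℚ) = ((en2 cf3P i j : ℤ) : ℚ) + ((en2 cc3P i j : ℤ) : ℚ)
  exact_mod_cast h1

private theorem w2 (i : Fin 24) : vq 24 (h2T.getD i []) =
    (2 : ℚ) • ((mq 24 cf3P) *ᵥ e i) - (ks i : ℚ) • ((mq 24 cd3P) *ᵥ e (kpF i)) + (kt i : ℚ) • ((mq 24 cc3P) *ᵥ e (kcF i)) := by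
  funext j
  have h1 := allN_iff.1 (allN_iff.1 m4 i i.2) j j.2
  rw [beq_iff_eq] at h1
  rw [Pi.add_apply, Pi.sub_apply, Pi.smul_apply, Pi.smul_apply, Pi.smul_apply, mvs, mvs, mvs, symF j i, symD j (kpF i), symC j (kcF i)]
  change ((en2 h2T i j : ℤ) : ℚ) = 2 * ((en2 cf3P i j : ℤ) : ℚ) - (ks i : ℚ) * ((en2 cd3P (kp i) j : ℤ) : ℚ) +
    (kt i : ℚ) * ((en2 cc3P (kc i) j : ℤ) : ℚ)
  exact_mod_cast h1

private theorem dFF (i j : Fin 24) : ((mq 24 cf3P) *ᵥ e i) ⬝ᵥ ((mq 24 cf3P) *ᵥ e j) = 30 * (en2 cf3P i j : ℤ) := by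
  rw [dotF, FF, dotProduct_smul, single_one_dotProduct, mvs]
  rfl

private theorem dDD (i j : Fin 24) : ((mq 24 cd3P) *ᵥ e i) ⬝ᵥ ((mq 24 cd3P) *ᵥ e j) = 20 * (en2 cd3P i j : ℤ) := by
  rw [dotD, DD, dotProduct_smul, single_one_dotProduct, mvs]
  rfl

private theorem dCC (i j : Fin 24) : ((mq 24 cc3P) *ᵥ e i) ⬝ᵥ ((mq 24 cc3P) *ᵥ e j) = 12 * (en2 cc3P i j : ℤ) := by
  rw [dotC, CC, dotProduct_smul, single_one_dotProduct, mvs]
  rfl

private theorem dFD (u v : Fin 24 → ℚ) : ((mq 24 cf3P) *ᵥ u) ⬝ᵥ ((mq 24 cd3P) *ᵥ v) = 0 := by rw [dotF, FD, dotProduct_zero]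
private theorem dDF (u v : Fin 24 → ℚ) : ((mq 24 cd3P) *ᵥ u) ⬝ᵥ ((mq 24 cf3P) *ᵥ v) = 0 := by rw [dotProduct_comm, dFD]
private theorem dFC (u v : Fin 24 → ℚ) : ((mq 24 cf3P) *ᵥ u) ⬝ᵥ ((mq 24 cc3P) *ᵥ v) = 0 := by rw [dotF, FC, dotProduct_zero]
private theorem dCF (u v : Fin 24 → ℚ) : ((mq 24 cc3P) *ᵥ u) ⬝ᵥ ((mq 24 cf3P) *ᵥ v) = 0 := by rw [dotProduct_comm, dFC]
private theorem dDC (u v : Fin 24 → ℚ) : ((mq 24 cd3P) *ᵥ u) ⬝ᵥ ((mq 24 cc3P) *ᵥ v) = 0 := by rw [dotD, DC, dotProduct_zero]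
private theorem dCD (u v : Fin 24 → ℚ) : ((mq 24 cc3P) *ᵥ u) ⬝ᵥ ((mq 24 cd3P) *ᵥ v) = 0 := by rw [dotProduct_comm, dDC]

private theorem T_D (T : (Fin 24 → ℚ) →ₗ[ℚ] (Fin 24 → ℚ)) (hT : ∀ i, T (Pi.single i 1) = Pi.single (tau3F i) 1) (k : Fin 24) :
    T ((mq 24 cd3P) *ᵥ e k) = (mq 24 cd3P) *ᵥ e (tau3F k) := by
  have h1 : ∀ k : Fin 24, (mq 24 cd3P) *ᵥ e k = ∑ j, (mq 24 cd3P) j k • e j := by
    intro k
    funext i
    rw [mvs]
    simp [Finset.sum_apply, Pi.single_apply]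
  rw [h1 k, h1 (tau3F k), map_sum]
  have hb : Function.Bijective tau3F := Finite.injective_iff_bijective.1 tau3F_inj
  rw [← hb.sum_comp fun j => (mq 24 cd3P) j (tau3F k) • e j]
  refine Finset.sum_congr rfl fun j _ => ?_
  rw [map_smul, hT]
  congr 1
  have h := allN_iff.1 (allN_iff.1 m11 j j.2) k k.2
  rw [beq_iff_eq] at h
  change ((en2 cd3P j k : ℤ) : ℚ) = ((en2 cd3P (tau3 j) (tau3 k) : ℤ) : ℚ)
  rw [h]

theorem T3 (M : AddSubgroup (Fin 24 → ℚ)) (hint : ∀ u ∈ M, ∀ v ∈ M, ∃ k : ℤ, u ⬝ᵥ v = k)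
    (h5 : ∀ i < 24, (1 / 5 : ℚ) • vq 24 (h5T.getD i []) ∈ M) (h3 : (1 / 3 : ℚ) • vq 24 (h3T.getD 0 []) ∈ M)
    (h2 : ∀ i < 24, (1 / 4 : ℚ) • vq 24 (h2T.getD i []) ∈ M)
    (hf : ∀ k < 16, vq 24 (cf3n.getD k []) ∈ M) (hd : ∀ k < 6, vq 24 (cd3n.getD k []) ∈ M)
    (Y : (Fin 24 → ℚ) →ₗ[ℚ] (Fin 24 → ℚ)) (hYM : ∀ u ∈ M, Y u ∈ M) (hYo : ∀ u v, Y u ⬝ᵥ Y v = u ⬝ᵥ v)
    (hYS : ∀ u v, Y u ⬝ᵥ (mq 24 s3T *ᵥ Y v) = u ⬝ᵥ (mq 24 s3T *ᵥ v))
    (hC : Y (mq 24 cc3P *ᵥ Pi.single 0 1) = mq 24 cc3P *ᵥ Pi.single 0 1)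
    (T : (Fin 24 → ℚ) →ₗ[ℚ] (Fin 24 → ℚ)) (hT : ∀ i, T (Pi.single i 1) = Pi.single (tau3F i) 1)
    (hYT : ∀ u, Y (T u) = T (T (Y u))) : False := by
  have cS := comm_of_form _ Y hYo hYS
  have hSu : ∀ u, (mq 24 s3T) *ᵥ u = (mq 24 cf3P) *ᵥ u + (mq 24 cd3P) *ᵥ u := fun u => by rw [hS, add_mulVec]
  have hSS : ∀ u, (10 : ℚ) • ((mq 24 cd3P) *ᵥ u) = (30 : ℚ) • ((mq 24 s3T) *ᵥ u) - (mq 24 s3T) *ᵥ ((mq 24 s3T) *ᵥ u) := by
    intro u
    rw [hSu u, hSu, mulVec_add, mulVec_add, FF, FD, DF, DD]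
    module
  have cD : ∀ u, Y ((mq 24 cd3P) *ᵥ u) = (mq 24 cd3P) *ᵥ Y u := by
    intro u
    have h1 : (10 : ℚ) • Y ((mq 24 cd3P) *ᵥ u) = (10 : ℚ) • ((mq 24 cd3P) *ᵥ Y u) := by
      rw [← map_smul, hSS, hSS, map_sub, map_smul, cS, cS, cS]
    exact smul_right_injective _ (by norm_num : (10 : ℚ) ≠ 0) h1
  have cF : ∀ u, Y ((mq 24 cf3P) *ᵥ u) = (mq 24 cf3P) *ᵥ Y u := by
    intro u
    have h1 : (mq 24 cf3P) *ᵥ u = (mq 24 s3T) *ᵥ u - (mq 24 cd3P) *ᵥ u := by rw [hSu]; abel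
    have h2 : (mq 24 cf3P) *ᵥ Y u = (mq 24 s3T) *ᵥ Y u - (mq 24 cd3P) *ᵥ Y u := by rw [hSu]; abel
    rw [h1, h2, map_sub, cS, cD]
  have k0 : kpF 0 = 7 := by decide +kernel
  have k6 : kpF 6 = 0 := by decide +kernel
  have s0 : ks (0 : Fin 24) = 1 := by decide +kernel
  have s6 : ks (6 : Fin 24) = -1 := by decide +kernel
  have c0 : kcF 0 = 0 := by decide +kernel
  have t0 : kt (0 : Fin 24) = -1 := by decide +kernel
  have mF : ∃ u ∈ M, (mq 24 cf3P) *ᵥ u = (mq 24 cf3P) *ᵥ e 0 := by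
    refine ⟨(1 / 4 : ℚ) • vq 24 (h2T.getD (0 : Fin 24) []) - 2 • ((1 / 3 : ℚ) • vq 24 (h3T.getD (0 : Fin 24) [])) +
      (1 / 5 : ℚ) • vq 24 (h5T.getD (0 : Fin 24) []),
      M.add_mem (M.sub_mem (h2 _ (by norm_num)) (M.nsmul_mem h3 2)) (h5 _ (by norm_num)), ?_⟩
    rw [w2, w3, w5, mulVec_add, mulVec_sub, mulVec_smul, mulVec_smul, mulVec_smul, mulVec_smul, mulVec_add, mulVec_sub, mulVec_add, mulVec_sub,
      mulVec_smul, mulVec_smul, mulVec_smul, FF, FD, FC, FC, FD]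
    module
  have mD0 : ∃ u ∈ M, (mq 24 cd3P) *ᵥ u = (mq 24 cd3P) *ᵥ e 0 := by
    refine ⟨(1 / 5 : ℚ) • vq 24 (h5T.getD (0 : Fin 24) []) + (1 / 4 : ℚ) • vq 24 (h2T.getD (6 : Fin 24) []),
      M.add_mem (h5 _ (by norm_num)) (h2 _ (by norm_num)), ?_⟩
    rw [w2, w5, k6, s6, mulVec_add, mulVec_smul, mulVec_smul, mulVec_sub, mulVec_add, mulVec_sub, mulVec_smul, mulVec_smul, mulVec_smul,
      DF, DF, DD, DC]
    push_cast
    module
  have mD7 : ∃ u ∈ M, (mq 24 cd3P) *ᵥ u = (mq 24 cd3P) *ᵥ e 7 := by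
    refine ⟨(1 / 5 : ℚ) • vq 24 (h5T.getD (7 : Fin 24) []) - (1 / 4 : ℚ) • vq 24 (h2T.getD (0 : Fin 24) []),
      M.sub_mem (h5 _ (by norm_num)) (h2 _ (by norm_num)), ?_⟩
    rw [w2, w5, k0, s0, mulVec_sub, mulVec_smul, mulVec_smul, mulVec_sub, mulVec_add, mulVec_sub, mulVec_smul, mulVec_smul, mulVec_smul,
      DF, DF, DD, DC]
    push_cast
    module
  obtain ⟨i', σ, hσ, hi'⟩ := comp_image cf3_is cf3D M hint Y hYM hYo cF hf 0 mF
  obtain ⟨j', τ, hτ, hj'⟩ := comp_image cd3_is cd3D M hint Y hYM hYo cD hd 0 mD0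
  obtain ⟨l, ω, hω, hl⟩ := comp_image cd3_is cd3D M hint Y hYM hYo cD hd 7 mD7
  change Y ((mq 24 cf3P) *ᵥ e 0) = (σ : ℚ) • ((mq 24 cf3P) *ᵥ e i') at hi'
  change Y ((mq 24 cd3P) *ᵥ e 0) = (τ : ℚ) • ((mq 24 cd3P) *ᵥ e j') at hj'
  change Y ((mq 24 cd3P) *ᵥ e 7) = (ω : ℚ) • ((mq 24 cd3P) *ᵥ e l) at hl
  change Y ((mq 24 cc3P) *ᵥ e 0) = (mq 24 cc3P) *ᵥ e 0 at hC
  have colD : ∀ (i j : Fin 24) (s : ℤ), (∀ m : Fin 24, en2 cd3P i m = s * en2 cd3P j m) → (mq 24 cd3P) *ᵥ e i = (s : ℚ) • ((mq 24 cd3P) *ᵥ e j) := by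
    intro i j s h
    funext m
    rw [Pi.smul_apply, mvs, mvs, symD m i, symD m j]
    change ((en2 cd3P i m : ℤ) : ℚ) = s * ((en2 cd3P j m : ℤ) : ℚ)
    exact_mod_cast h m
  -- gluing at 5
  have key5 : ∀ m : Fin 24, ∃ k : ℤ, 6 * (σ * en2 cf3P i' m) + 4 * (τ * en2 cd3P j' m) = 5 * k := by
    intro m
    obtain ⟨k, hk⟩ := hint _ (hYM _ (h5 (0 : Fin 24) (by norm_num))) _ (h5 m m.2)
    refine ⟨k, ?_⟩
    rw [w5, w5, map_smul, map_sub, hi', hj', smul_dotProduct, dotProduct_smul, sub_dotProduct, smul_dotProduct, smul_dotProduct,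
      dotProduct_sub, dotProduct_sub, dFF, dFD, dDF, dDD] at hk
    simp only [smul_eq_mul, sub_zero, zero_sub] at hk
    have h1 : ((6 * (σ * en2 cf3P i' m) + 4 * (τ * en2 cd3P j' m) : ℤ) : ℚ) = ((5 * k : ℤ) : ℚ) := by
      push_cast
      linarith
    exact_mod_cast h1
  have hX0 : Y ((mq 24 cd3P) *ᵥ e 0) = (σ : ℚ) • ((mq 24 cd3P) *ᵥ e i') := by
    have h8 := allN_iff.1 (allN_iff.1 m8 i' i'.2) j' j'.2
    rw [Bool.and_eq_true, Bool.or_eq_true, Bool.or_eq_true, Bool.not_eq_true', Bool.not_eq_true', ← Bool.not_eq_true,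
      ← Bool.not_eq_true, allN_iff, allN_iff, allN_iff, allN_iff] at h8
    obtain ⟨h8a, h8b⟩ := h8
    rw [hj']
    rcases hσ with h1 | h1 <;> rcases hτ with h2 | h2
    · rcases h8a with h | h
      · exact absurd (fun m hm => by
          obtain ⟨k, hk⟩ := key5 ⟨m, hm⟩
          rw [h1, h2] at hk
          rw [beq_iff_eq]
          simp only at hk
          omega) h
      · rw [colD i' j' 1 fun m => by rw [one_mul]; exact beq_iff_eq.1 (h m m.2), h1, h2]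
        module
    · rcases h8b with h | h
      · exact absurd (fun m hm => by
          obtain ⟨k, hk⟩ := key5 ⟨m, hm⟩
          rw [h1, h2] at hk
          rw [beq_iff_eq]
          simp only at hk
          omega) h
      · rw [colD i' j' (-1) fun m => by rw [neg_one_mul]; exact beq_iff_eq.1 (h m m.2), h1, h2]
        push_cast
        module
    · rcases h8b with h | h
      · exact absurd (fun m hm => by
          obtain ⟨k, hk⟩ := key5 ⟨m, hm⟩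
          rw [h1, h2] at hk
          rw [beq_iff_eq]
          simp only at hk
          omega) h
      · rw [colD i' j' (-1) fun m => by rw [neg_one_mul]; exact beq_iff_eq.1 (h m m.2), h1, h2]
        push_cast
        module
    · rcases h8a with h | h
      · exact absurd (fun m hm => by
          obtain ⟨k, hk⟩ := key5 ⟨m, hm⟩
          rw [h1, h2] at hk
          rw [beq_iff_eq]
          simp only at hk
          omega) h
      · rw [colD i' j' 1 fun m => by rw [one_mul]; exact beq_iff_eq.1 (h m m.2), h1, h2]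
        push_cast
        module
  -- gluing at 2
  have key2 : ∀ m : Fin 24, ∃ k : ℤ, 30 * σ * en2 cf3P i' m + 5 * ω * ks m * en2 cd3P l (kp m) - 3 * kt m * en2 cc3P 0 (kc m) = 4 * k := by
    intro m
    obtain ⟨k, hk⟩ := hint _ (hYM _ (h2 (0 : Fin 24) (by norm_num))) _ (h2 m m.2)
    refine ⟨k, ?_⟩
    rw [w2, w2, k0, s0, c0, t0, map_smul, map_add, map_sub, map_smul, map_smul, map_smul, hi', hl, hC, smul_dotProduct, dotProduct_smul,
      add_dotProduct, sub_dotProduct, smul_dotProduct, smul_dotProduct, smul_dotProduct, smul_dotProduct, smul_dotProduct,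
      dotProduct_add, dotProduct_add, dotProduct_add, dotProduct_sub, dotProduct_sub, dotProduct_sub,
      dotProduct_smul, dotProduct_smul, dotProduct_smul, dotProduct_smul, dotProduct_smul, dotProduct_smul, dotProduct_smul,
      dotProduct_smul, dotProduct_smul, dFF, dFD, dFC, dDF, dDD, dDC, dCF, dCD, dCC] at hk
    have e1 : ((kpF m : Fin 24) : ℕ) = kp m := rfl
    have e2 : ((kcF m : Fin 24) : ℕ) = kc m := rfl
    have e3 : ((0 : Fin 24) : ℕ) = 0 := rfl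
    rw [e1, e2, e3] at hk
    simp only [smul_eq_mul, add_zero, zero_add, sub_zero, zero_sub, mul_zero] at hk
    have h1 : ((30 * σ * en2 cf3P i' m + 5 * ω * ks m * en2 cd3P l (kp m) - 3 * kt m * en2 cc3P 0 (kc m) : ℤ) : ℚ) = ((4 * k : ℤ) : ℚ) := by
      push_cast
      push_cast at hk
      linarith
    exact_mod_cast h1
  obtain ⟨ω', hω', hX7⟩ : ∃ ω' : ℤ, (ω' = 1 ∨ ω' = -1) ∧ Y ((mq 24 cd3P) *ᵥ e 7) = (ω' : ℚ) • ((mq 24 cd3P) *ᵥ e (kpF i')) := by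
    have h9 := allN_iff.1 (allN_iff.1 m9 i' i'.2) l l.2
    rw [List.all_eq_true] at h9
    have hm1 : ∀ s : ℤ, (s = 1 ∨ s = -1) → s ∈ [1, (-1 : ℤ)] := by
      rintro s (rfl | rfl) <;> simp
    have h10 := h9 σ (hm1 σ hσ)
    rw [List.all_eq_true] at h10
    have h11 := h10 ω (hm1 ω hω)
    rw [Bool.or_eq_true, Bool.or_eq_true, Bool.not_eq_true', ← Bool.not_eq_true, allN_iff, allN_iff, allN_iff] at h11
    rcases h11 with (h | h) | h
    · exact absurd (fun m hm => by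
        obtain ⟨k, hk⟩ := key2 ⟨m, hm⟩
        rw [beq_iff_eq]
        simp only at hk
        omega) h
    · refine ⟨ω, hω, ?_⟩
      rw [hl, colD l (kpF i') 1 fun m => by rw [one_mul]; exact beq_iff_eq.1 (h m m.2)]
      push_cast
      module
    · refine ⟨-ω, by rcases hω with h1 | h1 <;> rw [h1] <;> norm_num, ?_⟩
      rw [hl, colD l (kpF i') (-1) fun m => by rw [neg_one_mul]; exact beq_iff_eq.1 (h m m.2)]
      push_cast
      module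
  -- the products
  have p1 := hYo ((mq 24 cd3P) *ᵥ e 0) ((mq 24 cd3P) *ᵥ e 7)
  rw [hX0, hX7, smul_dotProduct, dotProduct_smul, dDD, dDD] at p1
  have p2 := hYo ((mq 24 cd3P) *ᵥ e 0) (T ((mq 24 cd3P) *ᵥ e 7))
  rw [hYT, hX0, hX7, map_smul, map_smul, T_D T hT, T_D T hT, T_D T hT, smul_dotProduct, dotProduct_smul, dDD, dDD] at p2
  have q1 := allN_iff.1 m10 (0 : Fin 24) (by norm_num)
  have q2 := allN_iff.1 m10 i' i'.2
  rw [Bool.and_eq_true, Bool.and_eq_true, beq_iff_eq, beq_iff_eq, Bool.not_eq_true', beq_eq_false_iff_ne] at q1 q2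
  have k0' : kp (0 : Fin 24) = 7 := congrArg Fin.val k0
  rw [k0'] at q1
  have r1 : en2 cd3P (0 : Fin 24) (tau3F 7) = - en2 cd3P (0 : Fin 24) (7 : Fin 24) := q1.1.1
  have r2 : en2 cd3P i' (tau3F (tau3F (kpF i'))) = en2 cd3P i' (kpF i') := q2.1.2
  rw [r1, r2] at p2
  simp only [smul_eq_mul] at p1 p2
  have r3 : ((en2 cd3P (0 : Fin 24) (7 : Fin 24) : ℤ) : ℚ) = 0 := by
    push_cast at p1 p2
    linarith
  exact q1.2 (by exact_mod_cast r3)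

end

end Pool.Agent.Helper60.E8Z
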