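import Pool.Agent.Helper73.E8.Xc.Hat3

/-!
# Project E8Z, (E2): the trace of `t ∘ ad u` on the fixed vectors of `t ^ 3`
-/

set_option autoImplicit false

open scoped TensorProduct

namespace Pool.Agent.Helper60.E8Z

open Pool.Agent.Helper73.E8 Pool.Agent.Helper64.E8C Pool.Agent.Helper73.E8.Ez Pool.Agent.Helper73.E8.Xc
open Pool.Agent.Helper2.E8A (K ζ σ)

/-- The coefficient of the trace: one row. -/
def ct3 (j p : ℕ) : ℤ := ((tab.getD p []).map fun e =>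
  if e.1 = j ∧ e.2.2.1 = p ∧ (e.2.2.2.1 + 1) % 3 = 0 then sgn e else 0).sum

/-- The coefficient of the trace. -/
def cnt3 (j : ℕ) : ℤ := ∑ p ∈ Finset.range 8, ct3 j p

theorem cnt3_0 : cnt3 0 = -3 := by decide +kernel

theorem cnt3_6 : cnt3 6 = -3 := by decide +kernel

variable {L : Type} [LieRing L] [Module.Free ℤ L] [Module.Finite ℤ L] {B : LinearMap.BilinForm ℤ L} (C : Core L B)

theorem X_hat_t (hη : C.η = et) (z : Chev K) (j : Fin 8) (i : ℕ) : X (hat C C.t z) j i = X z j (i + 1) := by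
  have h := X_nn (hat C C.t z) j i
  rw [nn_hat_t C hη] at h
  exact h.symm

theorem t_conj3 : C.t * C.t ^ 3 * C.t⁻¹ ∈ Subgroup.zpowers (C.t ^ 3) := by
  have h : C.t * C.t ^ 3 * C.t⁻¹ = C.t ^ 3 := by group
  rw [h]
  exact Subgroup.mem_zpowers _

/-- The trace of `t ∘ ad x`. -/
noncomputable def trT (hη : C.η = et) (x : E3 K) : K :=
  LinearMap.trace K (E3 K) ((hat3 C hη C.t (t_conj3 C) : E3 K →ₗ[K] E3 K) ∘ₗ (LieAlgebra.ad K (E3 K) x : E3 K →ₗ[K] E3 K))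

theorem trT_cst (hη : C.η = et) (j : Fin 8) (x : E3 K) (hx : ∀ l i, crd3 K x (l, i) = if l = j then -1 else 0) :
    trT C hη x = -3 * (cnt3 j : K) := by
  classical
  unfold trT
  rw [LinearMap.trace_eq_matrix_trace K (Module.Basis.ofEquivFun (crd3 K))]
  unfold Matrix.trace
  have h1 : ∀ P : Ix3, (LinearMap.toMatrix (Module.Basis.ofEquivFun (crd3 K)) (Module.Basis.ofEquivFun (crd3 K))
      ((hat3 C hη C.t (t_conj3 C) : E3 K →ₗ[K] E3 K) ∘ₗ (LieAlgebra.ad K (E3 K) x : E3 K →ₗ[K] E3 K))).diag P =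
      -(ct3 j P.1 : K) := by
    intro P
    rw [Matrix.diag_apply, LinearMap.toMatrix_apply, Module.Basis.ofEquivFun_repr_apply, Module.Basis.coe_ofEquivFun]
    change crd3 K (hat3 C hη C.t (t_conj3 C) ⁅x, bv3 P⁆) P = _
    rw [crd3_apply]
    change X (hat C C.t (⁅x, bv3 P⁆ : E3 K).1) P.1 P.2 = _
    rw [X_hat_t C hη, X_crd3, crd_lie3]
    unfold ct3
    rw [Int.cast_list_sum, List.map_map, List.sum_neg, List.map_map]
    congr 1
    refine List.map_congr_left fun e he => ?_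
    have hlt := tab_lt P.1 he
    rw [hx, crd_bv3, Function.comp_apply, Function.comp_apply]
    have e1 : (Fin.ofNat 8 e.1 = j) ↔ (e.1 = (j : ℕ)) := by
      rw [Fin.ext_iff, Fin.val_ofNat, Nat.mod_eq_of_lt hlt.1]
    have e2 : ((Fin.ofNat 8 e.2.2.1, Fin.ofNat 3 e.2.2.2.1 + Fin.ofNat 3 ((P.2 : ℕ) + 1)) = P) ↔
        (e.2.2.1 = (P.1 : ℕ) ∧ (e.2.2.2.1 + 1) % 3 = 0) := by
      rw [Prod.ext_iff]
      refine and_congr ?_ ?_
      · rw [Fin.ext_iff, Fin.val_ofNat, Nat.mod_eq_of_lt hlt.2]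
      · rw [Fin.ext_iff, Fin.val_add, Fin.val_ofNat, Fin.val_ofNat]
        have := P.2.2
        omega
    rw [if_congr e1 rfl rfl, if_congr e2 rfl rfl]
    by_cases c1 : e.1 = (j : ℕ)
    · by_cases c2 : e.2.2.1 = (P.1 : ℕ) ∧ (e.2.2.2.1 + 1) % 3 = 0
      · simp [c1, c2]
      · have c3 : ¬ (e.1 = (j : ℕ) ∧ e.2.2.1 = (P.1 : ℕ) ∧ (e.2.2.2.1 + 1) % 3 = 0) := fun h => c2 h.2
        rw [if_neg c3, if_neg c2, mul_zero, Int.cast_zero, neg_zero]
    · have c3 : ¬ (e.1 = (j : ℕ) ∧ e.2.2.1 = (P.1 : ℕ) ∧ (e.2.2.2.1 + 1) % 3 = 0) := fun h => c1 h.1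
      rw [if_neg c3, if_neg c1, mul_zero, zero_mul, Int.cast_zero, neg_zero]
  rw [Finset.sum_congr rfl fun P _ => h1 P, Fintype.sum_prod_type]
  simp only [Finset.sum_const, Finset.card_univ, Fintype.card_fin]
  unfold cnt3
  rw [← Finset.smul_sum, Finset.sum_range, Int.cast_sum, nsmul_eq_mul, Finset.sum_neg_distrib]
  push_cast
  ring

theorem trT_neg (hη : C.η = et) (x : E3 K) : trT C hη (-x) = -trT C hη x := by
  unfold trT
  rw [map_neg, LinearMap.comp_neg, map_neg]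

theorem trT_inv (hη : C.η = et) {y : AutL L} {a : ℤ} (ha : a % 3 = 1) (hyt : y * C.t * y⁻¹ = C.t ^ a)
    (hy : y * C.t ^ 3 * y⁻¹ ∈ Subgroup.zpowers (C.t ^ 3)) (x : E3 K) :
    trT C hη (hat3 C hη y hy x) = trT C hη x := by
  have : Finite (AutL L) := AutL_finite C.hL
  have h1 : ∀ w : E3 K, hat3 C hη y hy (hat3 C hη C.t (t_conj3 C) w) = hat3 C hη C.t (t_conj3 C) (hat3 C hη y hy w) := by
    intro w
    apply Subtype.ext
    change hat C y (hat C C.t w.1) = hat C C.t (hat C y w.1)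
    have hw : hat C (C.t ^ 3) (hat C y w.1) = hat C y w.1 := (mem_E3_iff C hη _).1 (hat_mem3 C hη hy w.2)
    have h2 : y * C.t = C.t * (C.t ^ 3) ^ (a / 3) * y := by
      have h3 : y * C.t = C.t ^ a * y := by rw [← hyt]; group
      rw [h3]
      congr 1
      have h4 : a = 1 + 3 * (a / 3) := by omega
      conv_lhs => rw [h4]
      rw [zpow_add, zpow_one, zpow_mul]
      rfl
    rw [← hat_mul, h2, hat_mul, hat_mul, hat_zpowers C hw (Subgroup.zpow_mem _ (Subgroup.mem_zpowers _) _)]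
  unfold trT
  have h5 : ((hat3 C hη C.t (t_conj3 C) : E3 K →ₗ[K] E3 K) ∘ₗ
      (LieAlgebra.ad K (E3 K) (hat3 C hη y hy x) : E3 K →ₗ[K] E3 K)) =
      (hat3 C hη y hy : E3 K →ₗ[K] E3 K) ∘ₗ (((hat3 C hη C.t (t_conj3 C) : E3 K →ₗ[K] E3 K) ∘ₗ
        (LieAlgebra.ad K (E3 K) x : E3 K →ₗ[K] E3 K)) ∘ₗ ((hat3 C hη y hy).symm : E3 K →ₗ[K] E3 K)) := by
    apply LinearMap.ext
    intro w
    change hat3 C hη C.t (t_conj3 C) ⁅hat3 C hη y hy x, w⁆ =
      hat3 C hη y hy (hat3 C hη C.t (t_conj3 C) ⁅x, (hat3 C hη y hy).symm w⁆)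
    rw [h1]
    congr 1
    rw [LieEquiv.map_lie, LieEquiv.apply_symm_apply]
  rw [h5, LinearMap.trace_comp_comm', LinearMap.comp_assoc]
  congr 1
  apply LinearMap.ext
  intro w
  change hat3 C hη C.t (t_conj3 C) ⁅x, (hat3 C hη y hy).symm (hat3 C hη y hy w)⁆ = hat3 C hη C.t (t_conj3 C) ⁅x, w⁆
  rw [LieEquiv.symm_apply_apply]

/-- `y t y⁻¹ = t ^ a`, `a ≡ 1` modulo 3, is impossible if `y` maps `S_0` to `- S_6`. -/
theorem no_one (hη : C.η = et) (y : AutL L) (a : ℤ) (ha : a % 3 = 1) (hyt : y * C.t * y⁻¹ = C.t ^ a) {u v : L}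
    (hu0 : (C.co u).h = 0) (hu : ∀ l i, X (C.co u) l i = if l = 0 then -1 else 0)
    (hv0 : (C.co v).h = 0) (hv : ∀ l i, X (C.co v) l i = if l = 6 then -1 else 0) (hyu : y.1 u = -v) : False := by
  have : Finite (AutL L) := AutL_finite C.hL
  have hy : y * C.t ^ 3 * y⁻¹ ∈ Subgroup.zpowers (C.t ^ 3) := by
    have h1 : y * C.t ^ 3 * y⁻¹ = (C.t ^ 3) ^ a := by
      rw [← conj_pow, hyt, ← zpow_natCast, ← zpow_natCast, ← zpow_mul, ← zpow_mul, mul_comm]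
    rw [h1]
    exact Subgroup.zpow_mem _ (Subgroup.mem_zpowers _) _
  have hmu : C.co u ∈ E3 K := by
    rw [mem_E3, nn3_iff]
    exact ⟨hu0, fun j i => by rw [hu, hu]⟩
  have hmv : C.co v ∈ E3 K := by
    rw [mem_E3, nn3_iff]
    exact ⟨hv0, fun j i => by rw [hv, hv]⟩
  have h1 := trT_cst C hη 0 ⟨C.co u, hmu⟩ fun l i => hu l i
  have h2 := trT_cst C hη 6 ⟨C.co v, hmv⟩ fun l i => hv l i
  have h3 : hat3 C hη y hy ⟨C.co u, hmu⟩ = -⟨C.co v, hmv⟩ := by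
    apply Subtype.ext
    rw [hat3_val, hat_co, hyu]
    have h := C.co_smul (-1) v
    rw [neg_one_smul, Int.cast_neg, Int.cast_one, neg_one_smul] at h
    exact h
  have h4 := trT_inv C hη ha hyt hy ⟨C.co u, hmu⟩
  rw [h3, trT_neg, h1, h2] at h4
  have c0 : cnt3 ((0 : Fin 8) : ℕ) = -3 := cnt3_0
  have c6 : cnt3 ((6 : Fin 8) : ℕ) = -3 := cnt3_6
  rw [c0, c6] at h4
  norm_num at h4

end Pool.Agent.Helper60.E8Z
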