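import Pool.Agent.Helper60.E8Z.Kn3
import Pool.Agent.Helper60.E8Z.T3
import Pool.Agent.Helper60.E8Z.Tr3
import Pool.Agent.Helper73.E8.Xc.Kv
import Pool.Agent.Helper58.E8Z.BasePA

/-!
# Project E8Z, (E2): the vectors `S_j`; explicit vectors of the lattice of the frame
-/

set_option autoImplicit false

open scoped TensorProduct Matrix

namespace Pool.Agent.Helper60.E8Z

open Pool.Agent.Helper73.E8 Pool.Agent.Helper64.E8C Pool.Agent.Helper73.E8.Ez Pool.Agent.Helper73.E8.Xc
open Pool.Agent.Helper2.E8A (K ζ σ)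

variable {L : Type} [LieRing L] [Module.Free ℤ L] [Module.Finite ℤ L] {B : LinearMap.BilinForm ℤ L} (C : Core L B)

/-- The coordinates of `S_j`. -/
def sj (j l _c : ℕ) : ℤ := if l = j then 1 else 0

theorem per_sum_shift {k : ℕ} (hk : k = 3 ∨ k = 5) (i : ℕ) : ∑ c ∈ Finset.range k, per k (c + i) = -1 := by
  induction i with
  | zero => simpa using per_sum hk
  | succ i ih =>
    have h1 := Finset.sum_range_succ (fun c => per k (c + i)) k
    have h2 := Finset.sum_range_succ' (fun c => per k (c + i)) k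
    have h3 : per k (k + i) = per k (0 + i) := by
      rw [← per_mod hk (k + i), ← per_mod hk (0 + i)]
      congr 1
      rw [zero_add, Nat.add_mod_left]
    rw [ih, h2, h3] at h1
    have h4 := add_right_cancel h1
    rw [← h4]
    refine Finset.sum_congr rfl fun c _ => ?_
    congr 1
    ring

/-- The description of the orbit coordinates of the elements of the explicit lattice. -/
def HasCo {k : ℕ} (F : LF B C.t k) : Prop :=
  ∀ (a : ℕ → ℕ → ℤ) (j : Fin 8) (i : ℕ), X (C.co (vec F.E k a)) j i = ∑ c ∈ Finset.range k, (a j c : K) * per k (c + i)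

theorem X_sj {k : ℕ} (hk : k = 3 ∨ k = 5) (F : LF B C.t k) (hco : HasCo C F) (j : ℕ) (l : Fin 8) (i : ℕ) :
    X (C.co (vec F.E k (sj j))) l i = if (l : ℕ) = j then -1 else 0 := by
  rw [hco]
  unfold sj
  split_ifs with h
  · simp only [Int.cast_one, one_mul]
    exact per_sum_shift hk i
  · simp

theorem co_h3 (hη : C.η = et) (F : LF B C.t 3) (a : ℕ → ℕ → ℤ) : (C.co (vec F.E 3 a)).h = 0 :=
  h_zero3 (co_mem3 C hη (F.fix a))

/-- `S_j` in `L^(t^3)` and `L^(t^5)` are the same vectors. -/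
theorem sj_eq (hη : C.η = et) (F3 : LF B C.t 3) (hco3 : HasCo C F3) (F5 : LF B C.t 5) (hco5 : HasCo C F5) (j : ℕ) :
    vec F5.E 5 (sj j) = vec F3.E 3 (sj j) := by
  apply C.co_injective
  refine X_ext ?_ fun l i _ => ?_
  · rw [co_h3 C hη]
    exact h_zero (co_mem5 C hη (F5.fix _))
  · rw [X_sj C (Or.inl rfl) F3 hco3, X_sj C (Or.inr rfl) F5 hco5]

theorem fF_sj {k : ℕ} (hk : k = 3 ∨ k = 5) {j : ℕ} (hj : j < 8) (b : ℕ → ℕ → ℤ) : fF k (sj j) b = ∑ c ∈ Finset.range k, b j c := by
  unfold fF sj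
  rw [Finset.sum_eq_single j]
  · rcases hk with rfl | rfl
    · norm_num [Finset.sum_range_succ]
      ring
    · norm_num [Finset.sum_range_succ]
      ring
  · intro l _ hl
    simp [hl]
  · intro h
    exact absurd (Finset.mem_range.2 hj) h

end Pool.Agent.Helper60.E8Z
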