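import Pool.Agent.Helper60.E8Z.Tr3
import Pool.Agent.Helper58.E8Z.ComB

/-!
# Project E8Z, (E2): the trace of `t ∘ ad u` on the fixed vectors of `t ^ 5`
-/

set_option autoImplicit false

open scoped TensorProduct

namespace Pool.Agent.Helper60.E8Z

open Pool.Agent.Helper73.E8 Pool.Agent.Helper64.E8C Pool.Agent.Helper73.E8.Ez Pool.Agent.Helper73.E8.Xc
open Pool.Agent.Helper2.E8A (K ζ σ)

/-- The coefficient of the trace: one row. -/
def ct5 (j p : ℕ) : ℤ := ((tab.getD p []).map fun e =>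
  if e.1 = j ∧ e.2.2.1 = p ∧ (e.2.2.2.1 + 1) % 5 = 0 then sgn e else 0).sum

/-- The coefficient of the trace. -/
def cnt5 (j : ℕ) : ℤ := ∑ p ∈ Finset.range 8, ct5 j p

theorem cnt5_v : cnt5 0 = 0 ∧ cnt5 1 = 1 ∧ cnt5 2 = -2 ∧ cnt5 4 = -1 := by decide +kernel

variable {L : Type} [LieRing L] [Module.Free ℤ L] [Module.Finite ℤ L] {B : LinearMap.BilinForm ℤ L} (C : Core L B)

theorem t_conj5 : C.t * C.t ^ 5 * C.t⁻¹ ∈ Subgroup.zpowers (C.t ^ 5) := by
  have h : C.t * C.t ^ 5 * C.t⁻¹ = C.t ^ 5 := by group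
  rw [h]
  exact Subgroup.mem_zpowers _

/-- The trace of `t ∘ ad x`. -/
noncomputable def trT5 (hη : C.η = et) (x : E5 K) : K :=
  LinearMap.trace K (E5 K) ((hat5 C hη C.t (t_conj5 C) : E5 K →ₗ[K] E5 K) ∘ₗ (LieAlgebra.ad K (E5 K) x : E5 K →ₗ[K] E5 K))

theorem trT5_cst (hη : C.η = et) (j : Fin 8) (x : E5 K) (hx : ∀ l i, crd K x (l, i) = if l = j then -1 else 0) :
    trT5 C hη x = -5 * (cnt5 j : K) := by
  classical
  unfold trT5
  rw [LinearMap.trace_eq_matrix_trace K (Module.Basis.ofEquivFun (crd K))]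
  unfold Matrix.trace
  have h1 : ∀ P : Ix, (LinearMap.toMatrix (Module.Basis.ofEquivFun (crd K)) (Module.Basis.ofEquivFun (crd K))
      ((hat5 C hη C.t (t_conj5 C) : E5 K →ₗ[K] E5 K) ∘ₗ (LieAlgebra.ad K (E5 K) x : E5 K →ₗ[K] E5 K))).diag P =
      -(ct5 j P.1 : K) := by
    intro P
    rw [Matrix.diag_apply, LinearMap.toMatrix_apply, Module.Basis.ofEquivFun_repr_apply, Module.Basis.coe_ofEquivFun]
    change crd K (hat5 C hη C.t (t_conj5 C) ⁅x, bv P⁆) P = _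
    rw [crd_apply]
    change X (hat C C.t (⁅x, bv P⁆ : E5 K).1) P.1 P.2 = _
    rw [X_hat_t C hη, X_crd, crd_lie]
    unfold ct5
    rw [Int.cast_list_sum, List.map_map, List.sum_neg, List.map_map]
    congr 1
    refine List.map_congr_left fun e he => ?_
    have hlt := tab_lt P.1 he
    rw [hx, crd_bv, Function.comp_apply, Function.comp_apply]
    have e1 : (Fin.ofNat 8 e.1 = j) ↔ (e.1 = (j : ℕ)) := by
      rw [Fin.ext_iff, Fin.val_ofNat, Nat.mod_eq_of_lt hlt.1]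
    have e2 : ((Fin.ofNat 8 e.2.2.1, Fin.ofNat 5 e.2.2.2.1 + Fin.ofNat 5 ((P.2 : ℕ) + 1)) = P) ↔
        (e.2.2.1 = (P.1 : ℕ) ∧ (e.2.2.2.1 + 1) % 5 = 0) := by
      rw [Prod.ext_iff]
      refine and_congr ?_ ?_
      · rw [Fin.ext_iff, Fin.val_ofNat, Nat.mod_eq_of_lt hlt.2]
      · rw [Fin.ext_iff, Fin.val_add, Fin.val_ofNat, Fin.val_ofNat]
        have := P.2.2
        omega
    rw [if_congr e1 rfl rfl, if_congr e2 rfl rfl]
    by_cases c1 : e.1 = (j : ℕ)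
    · by_cases c2 : e.2.2.1 = (P.1 : ℕ) ∧ (e.2.2.2.1 + 1) % 5 = 0
      · simp [c1, c2]
      · have c3 : ¬ (e.1 = (j : ℕ) ∧ e.2.2.1 = (P.1 : ℕ) ∧ (e.2.2.2.1 + 1) % 5 = 0) := fun h => c2 h.2
        rw [if_neg c3, if_neg c2, mul_zero, Int.cast_zero, neg_zero]
    · have c3 : ¬ (e.1 = (j : ℕ) ∧ e.2.2.1 = (P.1 : ℕ) ∧ (e.2.2.2.1 + 1) % 5 = 0) := fun h => c1 h.1
      rw [if_neg c3, if_neg c1, mul_zero, zero_mul, Int.cast_zero, neg_zero]
  rw [Finset.sum_congr rfl fun P _ => h1 P, Fintype.sum_prod_type]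
  simp only [Finset.sum_const, Finset.card_univ, Fintype.card_fin]
  unfold cnt5
  rw [← Finset.smul_sum, Finset.sum_range, Int.cast_sum, nsmul_eq_mul, Finset.sum_neg_distrib]
  push_cast
  ring

theorem trT5_neg (hη : C.η = et) (x : E5 K) : trT5 C hη (-x) = -trT5 C hη x := by
  unfold trT5
  rw [map_neg, LinearMap.comp_neg, map_neg]

/-- An automorphism which is trivial on the fixed vectors of `t ^ 5` in `L` is trivial on `E5`. -/
theorem hat_of_fix (hη : C.η = et) (g : AutL L) (hg : ∀ x, (C.t ^ 5).1 x = x → g.1 x = x) {z : Chev K} (hz : z ∈ E5 K) :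
    hat C g z = z := by
  have ht : (C.t ^ 5) ^ 6 = 1 := by
    rw [← pow_mul, show 5 * 6 = 30 from rfl, ← t_order C, pow_orderOf_eq_one]
  have h1 : ∀ z : Chev K, hat C g (∑ r ∈ Finset.range 6, hat C ((C.t ^ 5) ^ r) z) = ∑ r ∈ Finset.range 6, hat C ((C.t ^ 5) ^ r) z := by
    intro z
    induction z using co_ind C with
    | hadd z w hz hw =>
      simp only [hat_add, Finset.sum_add_distrib]
      rw [hz, hw]
    | hco c x =>
      simp only [hat_smul, hat_co, ← Finset.smul_sum]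
      have h2 : ∑ r ∈ Finset.range 6, C.co (((C.t ^ 5) ^ r).1 x) = C.co (∑ r ∈ Finset.range 6, ((C.t ^ 5) ^ r).1 x) := by
        simp only [Finset.sum_range_succ, Finset.sum_range_zero, C.co_add, zero_add]
      rw [h2, hat_co, hg]
      rw [map_sum]
      have h3 : ∀ r, (C.t ^ 5).1 (((C.t ^ 5) ^ r).1 x) = ((C.t ^ 5) ^ (r + 1)).1 x := by
        intro r
        rw [pow_succ' (C.t ^ 5) r]
        rfl
      simp only [h3]
      rw [Finset.sum_range_succ (fun r => ((C.t ^ 5) ^ (r + 1)).1 x) 5, Finset.sum_range_succ' (fun r => ((C.t ^ 5) ^ r).1 x) 5, ht]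
      simp
  have h4 := h1 z
  have h5 : ∀ r, hat C ((C.t ^ 5) ^ r) z = z := fun r =>
    hat_zpowers C ((mem_E5_iff C hη z).1 hz) (Subgroup.pow_mem _ (Subgroup.mem_zpowers _) r)
  simp only [h5, Finset.sum_const, Finset.card_range] at h4
  rw [← Nat.cast_smul_eq_nsmul K, hat_smul] at h4
  exact smul_right_injective _ (by norm_num : ((6 : ℕ) : K) ≠ 0) h4

theorem trT5_inv (hη : C.η = et) {y : AutL L} (hyt : ∀ x, (C.t ^ 5).1 x = x → y.1 (C.t.1 x) = C.t.1 (y.1 x))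
    (hy : y * C.t ^ 5 * y⁻¹ ∈ Subgroup.zpowers (C.t ^ 5)) (x : E5 K) :
    trT5 C hη (hat5 C hη y hy x) = trT5 C hη x := by
  have : Finite (AutL L) := AutL_finite C.hL
  have h1 : ∀ w : E5 K, hat5 C hη y hy (hat5 C hη C.t (t_conj5 C) w) = hat5 C hη C.t (t_conj5 C) (hat5 C hη y hy w) := by
    intro w
    apply Subtype.ext
    change hat C y (hat C C.t w.1) = hat C C.t (hat C y w.1)
    have h2 := hat_of_fix C hη (y⁻¹ * C.t⁻¹ * (y * C.t)) (fun x hx => by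
      change y.1.symm (C.t.1.symm (y.1 (C.t.1 x))) = x
      rw [hyt x hx]
      rw [LinearEquiv.symm_apply_apply, LinearEquiv.symm_apply_apply]) w.2
    have h3 := congrArg (fun z => hat C (C.t * y) z) h2
    simp only [← hat_mul] at h3
    rw [show C.t * y * (y⁻¹ * C.t⁻¹ * (y * C.t)) = y * C.t by group, hat_mul, hat_mul] at h3
    exact h3
  unfold trT5
  have h5 : ((hat5 C hη C.t (t_conj5 C) : E5 K →ₗ[K] E5 K) ∘ₗ
      (LieAlgebra.ad K (E5 K) (hat5 C hη y hy x) : E5 K →ₗ[K] E5 K)) =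
      (hat5 C hη y hy : E5 K →ₗ[K] E5 K) ∘ₗ (((hat5 C hη C.t (t_conj5 C) : E5 K →ₗ[K] E5 K) ∘ₗ
        (LieAlgebra.ad K (E5 K) x : E5 K →ₗ[K] E5 K)) ∘ₗ ((hat5 C hη y hy).symm : E5 K →ₗ[K] E5 K)) := by
    apply LinearMap.ext
    intro w
    change hat5 C hη C.t (t_conj5 C) ⁅hat5 C hη y hy x, w⁆ =
      hat5 C hη y hy (hat5 C hη C.t (t_conj5 C) ⁅x, (hat5 C hη y hy).symm w⁆)
    rw [h1]
    congr 1
    rw [LieEquiv.map_lie, LieEquiv.apply_symm_apply]
  rw [h5, LinearMap.trace_comp_comm', LinearMap.comp_assoc]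
  congr 1
  apply LinearMap.ext
  intro w
  change hat5 C hη C.t (t_conj5 C) ⁅x, (hat5 C hη y hy).symm (hat5 C hη y hy w)⁆ = hat5 C hη C.t (t_conj5 C) ⁅x, w⁆
  rw [LieEquiv.symm_apply_apply]

/-- If `y` commutes with `t` on the fixed vectors of `t ^ 5`, `y` does not map `S_i` to `± S_j` if the traces are different. -/
theorem no_tr5 (hη : C.η = et) {y : AutL L} (hyt : ∀ x, (C.t ^ 5).1 x = x → y.1 (C.t.1 x) = C.t.1 (y.1 x))
    (hy : y * C.t ^ 5 * y⁻¹ ∈ Subgroup.zpowers (C.t ^ 5)) {i j : Fin 8} {u v : L} {s : ℤ}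
    (hu0 : (C.co u).h = 0) (hu : ∀ l i', X (C.co u) l i' = if l = i then -1 else 0)
    (hv0 : (C.co v).h = 0) (hv : ∀ l i', X (C.co v) l i' = if l = j then -1 else 0) (hyu : y.1 u = s • v)
    (hs : s = 1 ∨ s = -1) : cnt5 i = s * cnt5 j := by
  have hmu : C.co u ∈ E5 K := by
    rw [mem_E5, nn5_iff]
    exact ⟨hu0, fun j i => by rw [hu, hu]⟩
  have hmv : C.co v ∈ E5 K := by
    rw [mem_E5, nn5_iff]
    exact ⟨hv0, fun j i => by rw [hv, hv]⟩
  have h1 := trT5_cst C hη i ⟨C.co u, hmu⟩ fun l i' => hu l i'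
  have h2 := trT5_cst C hη j ⟨C.co v, hmv⟩ fun l i' => hv l i'
  have h4 := trT5_inv C hη hyt hy ⟨C.co u, hmu⟩
  have h5 : ((5 : ℤ) : K) ≠ 0 := by norm_num
  rcases hs with rfl | rfl
  · have h3 : hat5 C hη y hy ⟨C.co u, hmu⟩ = ⟨C.co v, hmv⟩ := by
      apply Subtype.ext
      rw [hat5_val, hat_co, hyu, one_smul]
    rw [h3, h1, h2] at h4
    have h6 : ((-5 * cnt5 j : ℤ) : K) = ((-5 * cnt5 i : ℤ) : K) := by push_cast; exact h4
    have h7 := Int.cast_injective h6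
    linarith
  · have h3 : hat5 C hη y hy ⟨C.co u, hmu⟩ = -⟨C.co v, hmv⟩ := by
      apply Subtype.ext
      rw [hat5_val, hat_co, hyu]
      have h := C.co_smul (-1) v
      rw [neg_one_smul, Int.cast_neg, Int.cast_one, neg_one_smul] at h
      rw [neg_one_smul]
      exact h
    rw [h3, trT5_neg, h1, h2] at h4
    have h6 : ((-(-5 * cnt5 j) : ℤ) : K) = ((-5 * cnt5 i : ℤ) : K) := by push_cast; exact h4
    have h7 := Int.cast_injective h6
    linarith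

end Pool.Agent.Helper60.E8Z
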